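import Pool.Agent.H914R2.Core4

/-!
# The converse: equality of Betti sums
-/

open Polynomial Finset

namespace Pool.Agent.H914

section AlmostIdem

variable {K : Type*} [Field K] [CharZero K] {V : Type*} [AddCommGroup V] [Module K V]
  [Module.Finite K V]

/-- The trace of an almost idempotent endomorphism is a natural number, and the endomorphism is
nilpotent if its trace vanishes. -/
lemma almost_idem {e : Module.End K V} (he : IsNilpotent (e * e - e)) :
    ∃ a : ℕ, LinearMap.trace K V e = a ∧ (a = 0 → IsNilpotent e) := by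
  obtain ⟨N, hN⟩ := he
  set M := N + 1 with hM
  have hM0 : (e * e - e) ^ M = 0 := by rw [hM, pow_succ, hN, zero_mul]
  set p : K[X] := 1 - (1 - X ^ M) ^ M with hp
  have d1 : (X : K[X]) ^ M ∣ p := by
    have := sub_dvd_pow_sub_pow (1 : K[X]) (1 - X ^ M) M
    rwa [one_pow, sub_sub_cancel] at this
  have d2 : (X - 1 : K[X]) ∣ 1 - X ^ M := by
    have := sub_dvd_pow_sub_pow (X : K[X]) 1 M
    rw [one_pow] at this
    exact (dvd_sub_comm).1 this
  have d3 : (X * X - X : K[X]) ^ M ∣ p * p - p := by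
    have : p * p - p = - (p * (1 - X ^ M) ^ M) := by rw [hp]; ring
    rw [this, dvd_neg, show (X * X - X : K[X]) = X * (X - 1) by ring, mul_pow]
    exact mul_dvd_mul d1 (pow_dvd_pow_of_dvd d2 M)
  have d4 : (X * X - X : K[X]) ∣ X - p := by
    rw [show (X * X - X : K[X]) = X * (X - 1) by ring]
    apply IsCoprime.mul_dvd
    · exact ⟨1, -1, by ring⟩
    · apply dvd_sub dvd_rfl
      exact (dvd_pow_self X (by omega)).trans d1
    · have : (X - p : K[X]) = (X - 1) + (1 - X ^ M) ^ M := by rw [hp]; ring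
      rw [this]
      exact dvd_add dvd_rfl (d2.trans (dvd_pow_self _ (by omega)))
  set e' := aeval e p with he'
  have hid : e' * e' = e' := by
    obtain ⟨g, hg⟩ := d3
    rw [← sub_eq_zero, he', ← map_mul, ← map_sub, hg, map_mul, map_pow, map_sub, map_mul, aeval_X,
      hM0, zero_mul]
  have hnil : IsNilpotent (e - e') := by
    obtain ⟨g, hg⟩ := d4
    have h1 : e - e' = (e * e - e) * aeval e g := by
      have h2 : aeval e (X - p) = aeval e ((X * X - X) * g) := by rw [hg]
      have h3 : aeval e (X - p) = e - e' := by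
        rw [he']
        generalize p = p'
        rw [map_sub, aeval_X]
      rw [← h3, h2, map_mul, map_sub, map_mul, aeval_X]
    have hcomm : Commute (e * e - e) (aeval e g) := by
      have : e * e - e = aeval e (X * X - X : K[X]) := by
        rw [map_sub, map_mul, aeval_X]
      rw [this]
      unfold Commute SemiconjBy
      rw [← map_mul, mul_comm, map_mul]
    rw [h1]
    exact hcomm.isNilpotent_mul_right ⟨M, hM0⟩
  refine ⟨Module.finrank K (LinearMap.range e'), ?_, ?_⟩
  · rw [← trace_idem hid]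
    have := (LinearMap.isNilpotent_trace_of_isNilpotent hnil).eq_zero
    rwa [map_sub, sub_eq_zero] at this
  · intro h0
    have : e' = 0 := by
      apply eq_zero_of_idem_of_trace_eq_zero hid
      rw [trace_idem hid, h0, Nat.cast_zero]
    rwa [this, sub_zero] at hnil

variable {gr : ℕ → Submodule K V} (h : DirectSum.IsInternal gr) {n : ℕ}

omit [Module.Finite K V] in
lemma par_mul_proj (i : ℕ) : par h * proj h i = (-1 : K) ^ i • proj h i := by
  apply LinearMap.ext
  intro a
  rw [Module.End.mul_apply, par, scal_apply h _ (proj_mem h i a), LinearMap.smul_apply]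

omit [CharZero K] [Module.Finite K V] in
lemma trace_eq_sum_proj (hbd : ∀ i, 2 * n + 1 ≤ i → gr i = ⊥) (z : Module.End K V) :
    LinearMap.trace K V z = ∑ i ∈ range (2 * n + 1), LinearMap.trace K V (proj h i * z) := by
  rw [← map_sum, ← Finset.sum_mul, sum_proj h hbd, one_mul]

omit [Module.Finite K V] in
lemma trace_proj_eq (i : ℕ) (z : Module.End K V) :
    LinearMap.trace K V (proj h i * z) =
      (-1 : K) ^ i * LinearMap.trace K V (par h * (proj h i * z)) := by
  rw [← mul_assoc, par_mul_proj, smul_mul_assoc, map_smul, smul_eq_mul, ← mul_assoc, ← mul_pow]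
  simp

omit [Module.Finite K V] in
lemma trace_par_eq (hbd : ∀ i, 2 * n + 1 ≤ i → gr i = ⊥) (z : Module.End K V) :
    LinearMap.trace K V (par h * z) =
      ∑ i ∈ range (2 * n + 1), (-1 : K) ^ i * LinearMap.trace K V (proj h i * z) := by
  rw [par, scal_eq_sum h hbd, Finset.sum_mul, map_sum]
  apply Finset.sum_congr rfl
  intro i _
  rw [smul_mul_assoc, map_smul, smul_eq_mul]

end AlmostIdem

section Pair

variable {K₀ : Type*} [Field K₀] [CharZero K₀] {V₀ : Type*} [AddCommGroup V₀] [Module K₀ V₀]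
  [Module.Finite K₀ V₀] {gr₀ : ℕ → Submodule K₀ V₀} {h₀ : DirectSum.IsInternal gr₀}
  {K : Type*} [Field K] [CharZero K] {V : Type*} [AddCommGroup V] [Module K V]
  [Module.Finite K V] {gr : ℕ → Submodule K V} {h : DirectSum.IsInternal gr}
  {P : Module.End K₀ V₀ → Module.End K V → Prop} {n : ℕ}

/-- If the projectors in the first theory are related to something, then elements related to zero
are nilpotent. -/
lemma PairRel.nil_left (hP : PairRel h₀ h P) (hbd₀ : ∀ i, 2 * n + 1 ≤ i → gr₀ i = ⊥)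
    {y₁ : ℕ → Module.End K V} (hy₁ : ∀ i ∈ range (2 * n + 1), P (proj h₀ i) (y₁ i))
    {x : Module.End K₀ V₀} (hx : P x 0) : IsNilpotent x := by
  apply isNilpotent_of_trace_pow
  intro r
  rw [trace_eq_sum_proj h₀ hbd₀]
  apply Finset.sum_eq_zero
  intro i hi
  have h1 : P (proj h₀ i * x ^ (r + 1)) 0 := by
    have := hP.mul (hy₁ i hi) (hP.pow hx (r + 1))
    rwa [zero_pow (by omega), mul_zero] at this
  obtain ⟨q, hq₀, hq⟩ := hP.tr h1
  rw [mul_zero, map_zero] at hq
  have : q = 0 := by exact_mod_cast hq.symm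
  rw [trace_proj_eq, hq₀, this]
  simp

lemma PairRel.almost (hP : PairRel h₀ h P) {e : Module.End K₀ V₀} {f : Module.End K V}
    (hef : P e f) (he : P (e * e - e) 0) (hf : IsNilpotent f) : P e 0 := by
  obtain ⟨r, hr⟩ := hf
  have h1 : ∀ s : ℕ, P (e ^ (s + 1) - e) 0 := by
    intro s
    induction s with
    | zero => simpa using hP.zero
    | succ s ih =>
      have h2 := hP.add (hP.mul hef ih) he
      have e1 : e * (e ^ (s + 1) - e) + (e * e - e) = e ^ (s + 1 + 1) - e := by
        rw [mul_sub, ← pow_succ']; abel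
      rw [e1] at h2
      simpa using h2
  have h3 := hP.pow hef (r + 1)
  rw [pow_succ f, hr, zero_mul] at h3
  have h4 := hP.sub h3 (h1 r)
  rw [sub_sub_cancel, sub_zero] at h4
  exact h4

/-- If the projectors are related on both sides, then the traces agree. -/
theorem PairRel.trace_eq (hP : PairRel h₀ h P) (hP' : PairRel h h₀ (fun y x => P x y))
    (hbd₀ : ∀ i, 2 * n + 1 ≤ i → gr₀ i = ⊥) (hbd : ∀ i, 2 * n + 1 ≤ i → gr i = ⊥)
    {y₁ : ℕ → Module.End K V} (hy₁ : ∀ i ∈ range (2 * n + 1), P (proj h₀ i) (y₁ i))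
    {x₁ : ℕ → Module.End K₀ V₀} (hx₁ : ∀ j ∈ range (2 * n + 1), P (x₁ j) (proj h j))
    {x : Module.End K₀ V₀} {y : Module.End K V} (hxy : P x y) :
    ∃ q : ℚ, LinearMap.trace K₀ V₀ x = q ∧ LinearMap.trace K V y = q := by
  -- the mixed projectors of different parities
  have hmix : ∀ i ∈ range (2 * n + 1), ∀ j ∈ range (2 * n + 1),
      (-1 : ℚ) ^ i ≠ (-1 : ℚ) ^ j → P (proj h₀ i * x₁ j) 0 := by
    intro i hi j hj hij
    have hc₀ : proj h₀ i * x₁ j = x₁ j * proj h₀ i := (hP'.hom (hx₁ j hj)).proj_comm h₀ i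
    have hc : proj h j * y₁ i = y₁ i * proj h j := (hP.hom (hy₁ i hi)).proj_comm h j
    have hef : P (proj h₀ i * x₁ j) (y₁ i * proj h j) := hP.mul (hy₁ i hi) (hx₁ j hj)
    have he : P (proj h₀ i * x₁ j * (proj h₀ i * x₁ j) - proj h₀ i * x₁ j) 0 := by
      have h1 := hP.mul (hy₁ i hi) (hP.sub (hP.mul (hx₁ j hj) (hx₁ j hj)) (hx₁ j hj))
      rw [proj_mul_proj, sub_self, mul_zero] at h1
      have e1 : proj h₀ i * x₁ j * (proj h₀ i * x₁ j) - proj h₀ i * x₁ j =
          proj h₀ i * (x₁ j * x₁ j - x₁ j) := by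
        have : proj h₀ i * x₁ j * (proj h₀ i * x₁ j) = proj h₀ i * proj h₀ i * (x₁ j * x₁ j) := by
          rw [mul_assoc, ← mul_assoc (x₁ j), ← hc₀]
          simp only [mul_assoc]
        rw [this, proj_mul_proj, mul_sub]
      rwa [e1]
    have hf : P 0 (y₁ i * proj h j * (y₁ i * proj h j) - y₁ i * proj h j) := by
      have h1 := hP.mul (hP.sub (hP.mul (hy₁ i hi) (hy₁ i hi)) (hy₁ i hi)) (hx₁ j hj)
      rw [proj_mul_proj, sub_self, zero_mul] at h1
      have e1 : y₁ i * proj h j * (y₁ i * proj h j) - y₁ i * proj h j =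
          (y₁ i * y₁ i - y₁ i) * proj h j := by
        have : y₁ i * proj h j * (y₁ i * proj h j) = (y₁ i * y₁ i) * (proj h j * proj h j) := by
          rw [mul_assoc, ← mul_assoc (proj h j), hc]
          simp only [mul_assoc]
        rw [this, proj_mul_proj, sub_mul]
      rwa [e1]
    obtain ⟨a, ha, ha0⟩ := almost_idem (hP.nil_left hbd₀ hy₁ he)
    obtain ⟨b, hb, hb0⟩ := almost_idem (hP'.nil_left hbd hx₁ hf)
    obtain ⟨q, hq₀, hq⟩ := hP.tr hef
    have e1 : q = (-1) ^ i * a := by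
      have : (q : K₀) = (((-1) ^ i * a : ℚ) : K₀) := by
        rw [← hq₀, ← mul_assoc, par_mul_proj, smul_mul_assoc, map_smul, ha, smul_eq_mul]
        push_cast; rfl
      exact_mod_cast this
    have e2 : q = (-1) ^ j * b := by
      have : (q : K) = (((-1) ^ j * b : ℚ) : K) := by
        rw [← hq, ← hc, ← mul_assoc, par_mul_proj, smul_mul_assoc, map_smul, hc, hb, smul_eq_mul]
        push_cast; rfl
      exact_mod_cast this
    have hb1 : b = 0 := by
      have ha' : (0 : ℚ) ≤ a := Nat.cast_nonneg a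
      have hb' : (0 : ℚ) ≤ b := Nat.cast_nonneg b
      have : (b : ℚ) = 0 := by
        rcases neg_one_pow_eq_or ℚ i with h1 | h1 <;> rcases neg_one_pow_eq_or ℚ j with h2 | h2
        · exact absurd (h1.trans h2.symm) hij
        · rw [h1] at e1; rw [h2] at e2; linarith
        · rw [h1] at e1; rw [h2] at e2; linarith
        · exact absurd (h1.trans h2.symm) hij
      exact_mod_cast this
    exact hP.almost hef he (hb0 hb1)
  choose! q hq₀ hq using fun j (hj : j ∈ range (2 * n + 1)) => hP.tr (hP.mul (hx₁ j hj) hxy)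
  refine ⟨∑ j ∈ range (2 * n + 1), (-1) ^ j * q j, ?_, ?_⟩
  · -- the first theory
    have hν : P (∑ j ∈ range (2 * n + 1), x₁ j - 1) 0 := by
      have := hP.sub (hP.sum hx₁) hP.one
      rwa [sum_proj h hbd, sub_self] at this
    have h1 : LinearMap.trace K₀ V₀ ((∑ j ∈ range (2 * n + 1), x₁ j - 1) * x) = 0 := by
      have : P ((∑ j ∈ range (2 * n + 1), x₁ j - 1) * x) 0 := by
        have := hP.mul hν hxy
        rwa [zero_mul] at this
      exact (LinearMap.isNilpotent_trace_of_isNilpotent (hP.nil_left hbd₀ hy₁ this)).eq_zero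
    rw [sub_mul, one_mul, map_sub, sub_eq_zero] at h1
    rw [← h1, Finset.sum_mul, map_sum]
    push_cast
    apply Finset.sum_congr rfl
    intro j hj
    rw [← hq₀ j hj, trace_par_eq h₀ hbd₀, trace_eq_sum_proj h₀ hbd₀, Finset.mul_sum]
    apply Finset.sum_congr rfl
    intro i hi
    by_cases hij : (-1 : ℚ) ^ i = (-1 : ℚ) ^ j
    · have h2 : (-1 : K₀) ^ i = (-1 : K₀) ^ j := by exact_mod_cast congrArg (Rat.cast (K := K₀)) hij
      rw [h2, ← mul_assoc, ← mul_assoc ((-1 : K₀) ^ j), ← mul_pow]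
      simp
    · have h3 : P (proj h₀ i * (x₁ j * x)) 0 := by
        have := hP.mul (hmix i hi j hj hij) hxy
        rwa [zero_mul, mul_assoc] at this
      rw [(LinearMap.isNilpotent_trace_of_isNilpotent (hP.nil_left hbd₀ hy₁ h3)).eq_zero]
      simp
  · rw [trace_eq_sum_proj h hbd]
    push_cast
    apply Finset.sum_congr rfl
    intro j hj
    rw [trace_proj_eq, hq j hj]

/-- Converse of the comparison theorem: if the Lefschetz structures are related on both sides then
the Betti numbers agree. -/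
theorem betti_eq (hP : PairRel h₀ h P) (hP' : PairRel h h₀ (fun y x => P x y))
    (hbd₀ : ∀ i, 2 * n + 1 ≤ i → gr₀ i = ⊥) (hbd : ∀ i, 2 * n + 1 ≤ i → gr i = ⊥)
    {L₀ lam₀ lam'₀ : Module.End K₀ V₀} {L lam lam' : Module.End K V}
    (hL₀ : IsHom gr₀ 2 L₀) (hL : IsHom gr 2 L)
    (hLl : ∀ m, P (L₀ ^ m * lam₀ ^ m) (L ^ m * lam ^ m))
    (hlL : ∀ m, P (lam₀ ^ m * L₀ ^ m) (lam ^ m * L ^ m))
    (hLl' : ∀ m, P (L₀ ^ m * lam'₀ ^ m) (L ^ m * lam' ^ m))
    (hlL' : ∀ m, P (lam'₀ ^ m * L₀ ^ m) (lam' ^ m * L ^ m))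
    (hHL₀ : HardLef gr₀ n L₀) (hLam₀ : IsLam gr₀ n L₀ lam₀)
    (hHL : HardLef gr n L) (hLam : IsLam gr n L lam') :
    Module.finrank K V = Module.finrank K₀ V₀ ∧
    ∑ i ∈ range (2 * n + 1), node n i ^ 2 * Module.finrank K (gr i) =
      ∑ i ∈ range (2 * n + 1), node n i ^ 2 * (Module.finrank K₀ (gr₀ i) : ℚ) := by
  have hLpow₀ : ∀ m : ℕ, IsHom gr₀ (2 * (m : ℤ)) (L₀ ^ m) := fun m => by
    have := hL₀.pow m
    rwa [mul_comm] at this
  have hLpow : ∀ m : ℕ, IsHom gr (2 * (m : ℤ)) (L ^ m) := fun m => by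
    have := hL.pow m
    rwa [mul_comm] at this
  have hwt₀ := sum_comm_eq_wt h₀ hL₀ hbd₀ hHL₀ hLam₀
  have hwt := sum_comm_eq_wt h hL hbd hHL hLam
  set x := ∑ m ∈ range n, (L ^ (m + 1) * lam ^ (m + 1) - lam ^ (m + 1) * L ^ (m + 1)) with hx
  set z₀ := ∑ m ∈ range n, (L₀ ^ (m + 1) * lam'₀ ^ (m + 1) - lam'₀ ^ (m + 1) * L₀ ^ (m + 1))
    with hz₀
  have hPx : P (wt h₀ n) x := by
    rw [← hwt₀]; exact hP.sum (fun m _ => hP.sub (hLl (m + 1)) (hlL (m + 1)))
  have hPz : P z₀ (wt h n) := by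
    rw [← hwt]; exact hP.sum (fun m _ => hP.sub (hLl' (m + 1)) (hlL' (m + 1)))
  have hy₁ : ∀ i ∈ range (2 * n + 1), P (proj h₀ i) (ev x (herm n 1 i)) := by
    intro i hi
    have := hP.ev hPx (herm n 1 i)
    rwa [ev_wt_herm h₀ hbd₀ le_rfl hi] at this
  have hx₁ : ∀ i ∈ range (2 * n + 1), P (ev z₀ (herm n 1 i)) (proj h i) := by
    intro i hi
    have := hP.ev hPz (herm n 1 i)
    rwa [ev_wt_herm h hbd le_rfl hi] at this
  have htr : ∀ {x y}, P x y → ∃ q : ℚ, LinearMap.trace K₀ V₀ x = q ∧ LinearMap.trace K V y = q :=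
    fun hxy => hP.trace_eq hP' hbd₀ hbd hy₁ hx₁ hxy
  constructor
  · obtain ⟨q, h1, h2⟩ := htr hP.one
    rw [LinearMap.trace_one] at h1 h2
    have h1' : q = (Module.finrank K₀ V₀ : ℚ) := by exact_mod_cast h1.symm
    have h2' : q = (Module.finrank K V : ℚ) := by exact_mod_cast h2.symm
    exact_mod_cast h2'.symm.trans h1'
  · -- the four traces
    choose t ht₀ ht using fun m => htr (hLl (m + 1))
    choose t' ht₀' ht' using fun m => htr (hLl' (m + 1))
    have e1 : LinearMap.trace K V (x * wt h n) =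
        ((∑ m ∈ range n, 2 * ((m + 1 : ℕ) : ℚ) * t m : ℚ) : K) := by
      rw [hx, Finset.sum_mul, map_sum]
      push_cast
      apply Finset.sum_congr rfl
      intro m _
      rw [trace_comm_wt h n (hLpow (m + 1)), ht m]
      push_cast; ring
    have e2 : LinearMap.trace K₀ V₀ (wt h₀ n * wt h₀ n) =
        ((∑ m ∈ range n, 2 * ((m + 1 : ℕ) : ℚ) * t m : ℚ) : K₀) := by
      conv_lhs => rw [← hwt₀]
      rw [hwt₀]
      nth_rewrite 1 [← hwt₀]
      rw [Finset.sum_mul, map_sum]
      push_cast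
      apply Finset.sum_congr rfl
      intro m _
      rw [trace_comm_wt h₀ n (hLpow₀ (m + 1)), ht₀ m]
      push_cast; ring
    have e3 : LinearMap.trace K₀ V₀ (z₀ * wt h₀ n) =
        ((∑ m ∈ range n, 2 * ((m + 1 : ℕ) : ℚ) * t' m : ℚ) : K₀) := by
      rw [hz₀, Finset.sum_mul, map_sum]
      push_cast
      apply Finset.sum_congr rfl
      intro m _
      rw [trace_comm_wt h₀ n (hLpow₀ (m + 1)), ht₀' m]
      push_cast; ring
    have e4 : LinearMap.trace K V (wt h n * wt h n) =
        ((∑ m ∈ range n, 2 * ((m + 1 : ℕ) : ℚ) * t' m : ℚ) : K) := by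
      nth_rewrite 1 [← hwt]
      rw [Finset.sum_mul, map_sum]
      push_cast
      apply Finset.sum_congr rfl
      intro m _
      rw [trace_comm_wt h n (hLpow (m + 1)), ht' m]
      push_cast; ring
    obtain ⟨s, hs₀, hs⟩ := htr (hP.mul hPx hPz)
    rw [e1] at hs
    rw [LinearMap.trace_mul_comm, e3] at hs₀
    have f1 : (∑ m ∈ range n, 2 * ((m + 1 : ℕ) : ℚ) * t m : ℚ) = s := by exact_mod_cast hs
    have f2 : (∑ m ∈ range n, 2 * ((m + 1 : ℕ) : ℚ) * t' m : ℚ) = s := by exact_mod_cast hs₀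
    rw [f1] at e2
    rw [f2] at e4
    have g : ∀ {K' : Type _} [Field K'] [CharZero K'] {V' : Type _} [AddCommGroup V']
        [Module K' V'] [Module.Finite K' V'] {gr' : ℕ → Submodule K' V'}
        (h' : DirectSum.IsInternal gr') (_ : ∀ i, 2 * n + 1 ≤ i → gr' i = ⊥),
        LinearMap.trace K' V' (wt h' n * wt h' n) =
          ((∑ i ∈ range (2 * n + 1), node n i ^ 2 * (Module.finrank K' (gr' i) : ℚ) : ℚ) : K') := by
      intro K' _ _ V' _ _ _ gr' h' hbd'
      rw [wt, scal_mul, trace_scal h' hbd']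
      push_cast
      apply Finset.sum_congr rfl
      intro i _
      ring
    have g' : LinearMap.trace K V (wt h n * wt h n) =
          ((∑ i ∈ range (2 * n + 1), node n i ^ 2 * (Module.finrank K (gr i) : ℚ) : ℚ) : K) := by
      rw [wt, scal_mul, trace_scal h hbd]
      push_cast
      apply Finset.sum_congr rfl
      intro i _
      ring
    rw [g h₀ hbd₀] at e2
    rw [g'] at e4
    have k1 : (∑ i ∈ range (2 * n + 1), node n i ^ 2 * (Module.finrank K₀ (gr₀ i) : ℚ) : ℚ) = s := by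
      exact_mod_cast e2
    have k2 : (∑ i ∈ range (2 * n + 1), node n i ^ 2 * (Module.finrank K (gr i) : ℚ) : ℚ) = s := by
      exact_mod_cast e4
    rw [k1, k2]

end Pair

end Pool.Agent.H914
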