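import Pool.Agent.H914R2.Model

/-!
# Finitely many words suffice
-/

open Polynomial Finset

namespace Pool.Agent.H914

section Span

variable {K : Type*} [Field K] {E : Type*} [Ring E] [Algebra K E] [Module.Finite K E]

/-- The product of a word, the first letter acting first. -/
def wd (g : Bool → E) : List Bool → E
  | [] => 1
  | x :: w => wd g w * g x

omit [Module.Finite K E] in
lemma span_succ_le (g : Bool → E) (m : ℕ) {y : E}
    (hy : y ∈ Submodule.span K {z | ∃ w : List Bool, w.length ≤ m ∧ wd g w = z}) (x : Bool) :
    y * g x ∈ Submodule.span K {z | ∃ w : List Bool, w.length ≤ m + 1 ∧ wd g w = z} := by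
  induction hy using Submodule.span_induction with
  | mem z hz =>
    obtain ⟨w, hw, rfl⟩ := hz
    exact Submodule.subset_span ⟨x :: w, by simpa using hw, rfl⟩
  | zero => rw [zero_mul]; exact Submodule.zero_mem _
  | add a b _ _ ha hb => rw [add_mul]; exact Submodule.add_mem _ ha hb
  | smul c a _ ha => rw [smul_mul_assoc]; exact Submodule.smul_mem _ _ ha

/-- All words are linear combinations of the words of length at most the dimension. -/
lemma wd_mem_span (g : Bool → E) (w : List Bool) :
    wd g w ∈ Submodule.span K {z | ∃ w : List Bool, w.length ≤ Module.finrank K E ∧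
      wd g w = z} := by
  set S : ℕ → Submodule K E :=
    fun m => Submodule.span K {z | ∃ w : List Bool, w.length ≤ m ∧ wd g w = z} with hS
  have hmono : ∀ m, S m ≤ S (m + 1) := by
    intro m
    apply Submodule.span_mono
    rintro z ⟨w, hw, rfl⟩
    exact ⟨w, by omega, rfl⟩
  have hmono' : Monotone S := monotone_nat_of_le_succ hmono
  have hstab : ∀ m, S (m + 1) = S m → ∀ w : List Bool, wd g w ∈ S m := by
    intro m hm w
    induction w with
    | nil => exact Submodule.subset_span ⟨[], by simp, rfl⟩
    | cons x w ih =>
      have := span_succ_le g m ih x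
      change wd g w * g x ∈ S m
      rw [← hm]
      exact this
  obtain ⟨m, hm, hm'⟩ : ∃ m ≤ Module.finrank K E, S (m + 1) = S m := by
    by_contra hcon
    push Not at hcon
    have hgrow : ∀ m ≤ Module.finrank K E + 1, m ≤ Module.finrank K (S m) := by
      intro m
      induction m with
      | zero => intro _; omega
      | succ m ih =>
        intro hm
        have h1 := ih (by omega)
        have h2 : S m < S (m + 1) := lt_of_le_of_ne (hmono m) (hcon m (by omega)).symm
        have h3 := Submodule.finrank_lt_finrank_of_lt h2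
        omega
    have h1 := hgrow _ le_rfl
    have h2 := Submodule.finrank_le (S (Module.finrank K E + 1))
    omega
  exact hmono' hm (hstab m hm' w)

end Span

section Rel

variable {K : Type*} [Field K] [CharZero K]
  {V₀ : Type*} [AddCommGroup V₀] [Module K V₀] [Module.Finite K V₀] {gr₀ : ℕ → Submodule K V₀}
  {V : Type*} [AddCommGroup V] [Module K V] [Module.Finite K V] {gr : ℕ → Submodule K V}

/-- A homogeneous operator of nonzero degree has trace zero. -/
lemma trace_of_isHom (h : DirectSum.IsInternal gr) {d : ℤ} (hd : d ≠ 0) {y : Module.End K V}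
    (hy : IsHom gr d y) : LinearMap.trace K V y = 0 := by
  have h1 := congrArg (LinearMap.trace K V) (hy.wt_comm h 0)
  rw [map_add, map_smul, LinearMap.trace_mul_comm, smul_eq_mul] at h1
  have h2 : (d : K) * LinearMap.trace K V y = 0 := by
    have := h1
    exact (left_eq_add.1 this)
  rcases mul_eq_zero.1 h2 with h3 | h3
  · exact absurd (by exact_mod_cast h3) hd
  · exact h3

/-- The relation generated by the balanced words. -/
inductive WRel (L₀ lam₀ : Module.End K V₀) (L lam : Module.End K V) :
    Module.End K V₀ → Module.End K V → Prop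
  | word (w : List Bool) (hw : w.count true = w.count false) :
      WRel L₀ lam₀ L lam (opW L₀ lam₀ w) (opW L lam w)
  | add {x x' y y'} : WRel L₀ lam₀ L lam x y → WRel L₀ lam₀ L lam x' y' →
      WRel L₀ lam₀ L lam (x + x') (y + y')
  | smul (q : ℚ) {x y} : WRel L₀ lam₀ L lam x y →
      WRel L₀ lam₀ L lam ((q : K) • x) ((q : K) • y)

variable {L₀ lam₀ : Module.End K V₀} {L lam : Module.End K V}

omit [Module.Finite K V₀] [Module.Finite K V] [CharZero K] in
lemma WRel.mul {x x' y y'} (h : WRel L₀ lam₀ L lam x y) (h' : WRel L₀ lam₀ L lam x' y') :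
    WRel L₀ lam₀ L lam (x * x') (y * y') := by
  induction h with
  | word w hw =>
    induction h' with
    | word w' hw' =>
      rw [← opW_append, ← opW_append]
      exact WRel.word _ (by rw [List.count_append, List.count_append, hw, hw'])
    | add _ _ h1 h2 => rw [mul_add, mul_add]; exact h1.add h2
    | smul q _ h1 => rw [mul_smul_comm, mul_smul_comm]; exact h1.smul q
  | add _ _ h1 h2 => rw [add_mul, add_mul]; exact h1.add h2
  | smul q _ h1 => rw [smul_mul_assoc, smul_mul_assoc]; exact h1.smul q

omit [Module.Finite K V₀] [Module.Finite K V] [CharZero K] in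
lemma opW_eq_wd (w : List Bool) : wd (fun x => ((if x then L₀ else lam₀), (if x then L else lam)))
    w = (opW L₀ lam₀ w, opW L lam w) := by
  induction w with
  | nil => rfl
  | cons x w ih =>
    rw [wd, ih]
    cases x <;> simp [opW]

/-- If the super traces of short balanced words agree then those of all balanced words agree. -/
lemma trace_of_short (h₀ : DirectSum.IsInternal gr₀) (h : DirectSum.IsInternal gr)
    (hL₀ : IsHom gr₀ 2 L₀) (hlam₀ : IsHom gr₀ (-2) lam₀) (hL : IsHom gr 2 L)
    (hlam : IsHom gr (-2) lam) (M : ℕ)
    (hM : Module.finrank K V₀ * Module.finrank K V₀ + Module.finrank K V * Module.finrank K V ≤ M)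
    (hshort : ∀ w : List Bool, w.count true = w.count false → w.length ≤ M →
      LinearMap.trace K V₀ (par h₀ * opW L₀ lam₀ w) = LinearMap.trace K V (par h * opW L lam w))
    (w : List Bool) :
    LinearMap.trace K V₀ (par h₀ * opW L₀ lam₀ w) = LinearMap.trace K V (par h * opW L lam w) := by
  set E := Module.End K V₀ × Module.End K V
  set g : Bool → E := fun x => ((if x then L₀ else lam₀), (if x then L else lam)) with hg
  set F : E →ₗ[K] K := (LinearMap.trace K V₀ ∘ₗ LinearMap.mulLeft K (par h₀) ∘ₗ
    LinearMap.fst K _ _) - (LinearMap.trace K V ∘ₗ LinearMap.mulLeft K (par h) ∘ₗ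
    LinearMap.snd K _ _) with hF
  have hfin : Module.finrank K E = Module.finrank K V₀ * Module.finrank K V₀ +
      Module.finrank K V * Module.finrank K V := by
    rw [Module.finrank_prod, Module.finrank_linearMap, Module.finrank_linearMap]
  have hFw : ∀ w, F (wd g w) = LinearMap.trace K V₀ (par h₀ * opW L₀ lam₀ w) -
      LinearMap.trace K V (par h * opW L lam w) := by
    intro w
    rw [hg, opW_eq_wd, hF]
    rfl
  have hpar₀ : IsHom gr₀ 0 (par h₀) := isHom_scal h₀ _
  have hpar : IsHom gr 0 (par h) := isHom_scal h _
  have hzero : ∀ w : List Bool, w.length ≤ M → F (wd g w) = 0 := by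
    intro w hw
    rw [hFw]
    by_cases hb : w.count true = w.count false
    · rw [hshort w hb hw, sub_self]
    · rw [trace_of_isHom h₀ _ (hpar₀.mul (opW_isHom hL₀ hlam₀ w)),
        trace_of_isHom h _ (hpar.mul (opW_isHom hL hlam w)), sub_self]
      · omega
      · omega
  have hker : Submodule.span K {z | ∃ w : List Bool, w.length ≤ Module.finrank K E ∧
      wd g w = z} ≤ LinearMap.ker F := by
    rw [Submodule.span_le]
    rintro z ⟨w, hw, rfl⟩
    exact hzero w (by omega)
  have := hker (wd_mem_span g w)
  rw [LinearMap.mem_ker, hFw, sub_eq_zero] at this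
  exact this

lemma wRel_pairRel (h₀ : DirectSum.IsInternal gr₀) (h : DirectSum.IsInternal gr)
    (hL₀ : IsHom gr₀ 2 L₀) (hlam₀ : IsHom gr₀ (-2) lam₀) (hL : IsHom gr 2 L)
    (hlam : IsHom gr (-2) lam) (c : List Bool → ℤ)
    (htr₀ : ∀ w : List Bool, w.count true = w.count false →
      LinearMap.trace K V₀ (par h₀ * opW L₀ lam₀ w) = c w)
    (htr : ∀ w : List Bool, w.count true = w.count false →
      LinearMap.trace K V (par h * opW L lam w) = c w) :
    PairRel h₀ h (WRel L₀ lam₀ L lam) where
  one := by
    have := WRel.word (L₀ := L₀) (lam₀ := lam₀) (L := L) (lam := lam) [] (by simp)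
    simpa [opW] using this
  add := WRel.add
  mul := WRel.mul
  smul := fun q _ _ h => h.smul q
  tr := by
    intro x y hxy
    induction hxy with
    | word w hw => exact ⟨c w, by rw [htr₀ w hw]; simp, by rw [htr w hw]; simp⟩
    | add _ _ h1 h2 =>
      obtain ⟨q, h1, h1'⟩ := h1
      obtain ⟨q', h2, h2'⟩ := h2
      exact ⟨q + q', by rw [mul_add, map_add, h1, h2]; push_cast; rfl,
        by rw [mul_add, map_add, h1', h2']; push_cast; rfl⟩
    | smul r _ h1 =>
      obtain ⟨q, h1, h1'⟩ := h1
      exact ⟨r * q, by rw [mul_smul_comm, map_smul, h1, smul_eq_mul]; push_cast; rfl,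
        by rw [mul_smul_comm, map_smul, h1', smul_eq_mul]; push_cast; rfl⟩
  hom := by
    intro x y hxy
    induction hxy with
    | word w hw =>
      have := opW_isHom hL hlam w
      rw [hw, sub_self, mul_zero] at this
      exact this
    | add _ _ h1 h2 => exact h1.add h2
    | smul r _ h1 => exact h1.smul _

lemma opW_replicate_true (L lam : Module.End K V) (m : ℕ) :
    opW L lam (List.replicate m true) = L ^ m := by
  induction m with
  | zero => rfl
  | succ m ih => rw [List.replicate_succ, opW, ih, pow_succ]

lemma opW_replicate_false (L lam : Module.End K V) (m : ℕ) :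
    opW L lam (List.replicate m false) = lam ^ m := by
  induction m with
  | zero => rfl
  | succ m ih => rw [List.replicate_succ, opW, ih, pow_succ]

lemma wRel_Ll (m : ℕ) : WRel L₀ lam₀ L lam (L₀ ^ m * lam₀ ^ m) (L ^ m * lam ^ m) := by
  have := WRel.word (L₀ := L₀) (lam₀ := lam₀) (L := L) (lam := lam)
    (List.replicate m false ++ List.replicate m true) (by simp [List.count_replicate])
  rwa [opW_append, opW_append, opW_replicate_true, opW_replicate_true, opW_replicate_false,
    opW_replicate_false] at this

lemma wRel_lL (m : ℕ) : WRel L₀ lam₀ L lam (lam₀ ^ m * L₀ ^ m) (lam ^ m * L ^ m) := by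
  have := WRel.word (L₀ := L₀) (lam₀ := lam₀) (L := L) (lam := lam)
    (List.replicate m true ++ List.replicate m false) (by simp [List.count_replicate])
  rwa [opW_append, opW_append, opW_replicate_true, opW_replicate_true, opW_replicate_false,
    opW_replicate_false] at this

end Rel

end Pool.Agent.H914
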