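import Pool.Agent.H914R2.KDesc
import Pool.Agent.H914R2.Span

/-!
# Graded algebras of operators with a nondegenerate super trace are von Neumann regular
-/

open Finset

namespace Pool.Agent.H914

variable {K : Type*} [Field K] [CharZero K] {V : Type*} [AddCommGroup V] [Module K V]
  [Module.Finite K V] {gr : ℕ → Submodule K V}

/-- The algebra of operators generated by a graded family of spaces of operators. -/
def gradedAlg (A : ℤ → Submodule K (Module.End K V)) (hone : (1 : Module.End K V) ∈ A 0)
    (hmul : ∀ {d e : ℤ} {x y : Module.End K V}, x ∈ A d → y ∈ A e → x * y ∈ A (d + e)) :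
    Subalgebra K (Module.End K V) :=
  (⨆ d, A d).toSubalgebra ((le_iSup A 0) hone) (by
    intro x y hx hy
    induction hx using Submodule.iSup_induction' with
    | mem d x hx =>
      induction hy using Submodule.iSup_induction' with
      | mem e y hy => exact (le_iSup A (d + e)) (hmul hx hy)
      | zero => rw [mul_zero]; exact Submodule.zero_mem _
      | add y y' _ _ h1 h2 => rw [mul_add]; exact Submodule.add_mem _ h1 h2
    | zero => rw [zero_mul]; exact Submodule.zero_mem _
    | add x x' _ _ h1 h2 => rw [add_mul]; exact Submodule.add_mem _ h1 h2)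

/-- **Von Neumann regularity.** Let `A` be a graded algebra of operators (of even degrees) on a
graded finite-dimensional space for which the super trace form is nondegenerate. Then for every
homogeneous `a` there is a homogeneous `b` of the opposite degree with `a b a = a`. -/
theorem exists_regular (h : DirectSum.IsInternal gr) (A : ℤ → Submodule K (Module.End K V))
    (hone : (1 : Module.End K V) ∈ A 0)
    (hmul : ∀ {d e : ℤ} {x y : Module.End K V}, x ∈ A d → y ∈ A e → x * y ∈ A (d + e))
    (hhom : ∀ {d : ℤ} {x : Module.End K V}, x ∈ A d → IsHom gr (2 * d) x)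
    (hnd : ∀ {d : ℤ} {x : Module.End K V}, x ∈ A d →
      (∀ y ∈ A (-d), LinearMap.trace K V (par h * (x * y)) = 0) → x = 0)
    {c : ℤ} {a : Module.End K V} (ha : a ∈ A c) :
    ∃ b ∈ A (-c), ∀ (i : ℕ), ∀ x ∈ gr i, a (b (a x)) = a x := by
  classical
  set S : Subalgebra K (Module.End K V) := gradedAlg A hone hmul with hS
  have hmem : ∀ {x : Module.End K V}, x ∈ S ↔ x ∈ ⨆ d, A d := Iff.rfl
  have hfin : Module.Finite K S := inferInstance
  have hart : IsArtinianRing S := IsArtinianRing.of_finite K S
  have hpar : ∀ x ∈ S, par h * x = x * par h := by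
    intro x hx
    rw [hmem] at hx
    induction hx using Submodule.iSup_induction' with
    | mem d x hx => exact (hhom hx).par_comm h
    | zero => rw [mul_zero, zero_mul]
    | add x y _ _ h1 h2 => rw [mul_add, add_mul, h1, h2]
  have hss : IsSemisimpleRing S := by
    rw [IsArtinianRing.isSemisimpleRing_iff_jacobson, eq_bot_iff]
    intro j hj
    rw [Submodule.mem_bot]
    have hnil : ∀ y : S, IsNilpotent (y * j) := by
      intro y
      have h1 : y * j ∈ Ring.jacobson S := Ideal.mul_mem_left _ y hj
      obtain ⟨n, hn⟩ := (inferInstance : IsSemiprimaryRing S).isNilpotent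
      refine ⟨n, ?_⟩
      have h2 := Ideal.pow_mem_pow h1 n
      rw [hn] at h2
      exact h2
    have htr : ∀ y ∈ S, LinearMap.trace K V (par h * ((j : Module.End K V) * y)) = 0 := by
      intro y hy
      have h1 := hnil ⟨y, hy⟩
      have h2 : IsNilpotent (y * (j : Module.End K V)) := by
        have := h1.map S.val
        simpa using this
      have h3 : LinearMap.trace K V (par h * ((j : Module.End K V) * y)) =
          LinearMap.trace K V (par h * (y * (j : Module.End K V))) := by
        rw [← mul_assoc, hpar _ j.2, mul_assoc, LinearMap.trace_mul_comm, mul_assoc]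
      rw [h3]
      have h4 : Commute (par h) (y * (j : Module.End K V)) := hpar _ (S.mul_mem hy j.2)
      exact (LinearMap.isNilpotent_trace_of_isNilpotent (h4.isNilpotent_mul_left h2)).eq_zero
    obtain ⟨f, hf, hsum⟩ := (Submodule.mem_iSup_iff_exists_finsupp _ _).1 (hmem.1 j.2)
    have hzero : ∀ d, f d = 0 := by
      intro d
      apply hnd (hf d)
      intro y hy
      have h1 := htr y ((le_iSup A (-d)) hy)
      rw [← hsum, Finsupp.sum, Finset.sum_mul, Finset.mul_sum, map_sum] at h1
      have h2 : ∀ e ∈ f.support, e ≠ d → LinearMap.trace K V (par h * (f e * y)) = 0 := by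
        intro e _ hed
        have h3 : IsHom gr (0 + (2 * e + 2 * (-d))) (par h * (f e * y)) := by
          have h4 : IsHom gr 0 (par h) := isHom_scal h _
          exact h4.mul ((hhom (hf e)).mul (hhom hy))
        exact trace_of_isHom h (by omega) h3
      by_cases hd : d ∈ f.support
      · rw [Finset.sum_eq_single_of_mem d hd h2] at h1
        exact h1
      · rw [Finsupp.notMem_support_iff.1 hd, zero_mul, mul_zero, map_zero]
    apply Subtype.ext
    rw [← hsum, Finsupp.sum]
    simp only [hzero, Finset.sum_const_zero]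
    rfl
  have haS : a ∈ S := (le_iSup A c) ha
  obtain ⟨e, he, hspan⟩ := IsSemisimpleRing.ideal_eq_span_idempotent
    (Ideal.span {(⟨a, haS⟩ : S)})
  have h1 : (⟨a, haS⟩ : S) ∈ Ideal.span {e} := by
    rw [← hspan]; exact Ideal.mem_span_singleton_self _
  have h2 : e ∈ Ideal.span {(⟨a, haS⟩ : S)} := by
    rw [hspan]; exact Ideal.mem_span_singleton_self _
  obtain ⟨x, hx⟩ := Ideal.mem_span_singleton'.1 h1
  obtain ⟨b, hb⟩ := Ideal.mem_span_singleton'.1 h2
  have h3 : a * (b : Module.End K V) * a = a := by
    have h4 : (⟨a, haS⟩ : S) * b * ⟨a, haS⟩ = ⟨a, haS⟩ := by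
      rw [mul_assoc, hb, ← hx, mul_assoc, he.eq]
    exact congrArg Subtype.val h4
  obtain ⟨f, hf, hsum⟩ := (Submodule.mem_iSup_iff_exists_finsupp _ _).1 (hmem.1 b.2)
  refine ⟨f (-c), hf (-c), fun i v hv => ?_⟩
  have h5 := congrArg (fun F => F v) h3
  simp only [Module.End.mul_apply] at h5
  rw [← hsum, Finsupp.sum, LinearMap.sum_apply, map_sum] at h5
  have hav : a v ∈ grZ gr (i + 2 * c) := hhom ha i v (by rw [grZ_natCast]; exact hv)
  by_cases hneg : (i : ℤ) + 2 * c < 0
  · rw [grZ_of_neg hneg] at hav
    rw [(Submodule.mem_bot _).1 hav, map_zero, map_zero]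
  obtain ⟨m, hm⟩ : ∃ m : ℕ, (m : ℤ) = i + 2 * c := ⟨((i : ℤ) + 2 * c).toNat, by omega⟩
  rw [← hm, grZ_natCast] at hav
  have h6 := congrArg (proj h m) h5
  rw [map_sum, proj_same h hav] at h6
  have hterm : ∀ d, a (f d (a v)) ∈ grZ gr (m + 2 * d + 2 * c) := fun d =>
    hhom ha _ _ (hhom (hf d) m _ (by rw [grZ_natCast]; exact hav))
  have h7 : ∀ d, d ≠ -c → proj h m (a (f d (a v))) = 0 := by
    intro d hd
    have h8 := hterm d
    by_cases hneg' : (m : ℤ) + 2 * d + 2 * c < 0
    · rw [grZ_of_neg hneg'] at h8
      rw [(Submodule.mem_bot _).1 h8, map_zero]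
    · obtain ⟨m', hm'⟩ : ∃ m' : ℕ, (m' : ℤ) = m + 2 * d + 2 * c :=
        ⟨((m : ℤ) + 2 * d + 2 * c).toNat, by omega⟩
      rw [← hm', grZ_natCast] at h8
      exact proj_ne h h8 (by omega)
  have h9 : proj h m (a (f (-c) (a v))) = a (f (-c) (a v)) := by
    have h8 := hterm (-c)
    rw [show (m : ℤ) + 2 * (-c) + 2 * c = m by ring, grZ_natCast] at h8
    exact proj_same h h8
  by_cases hc : -c ∈ f.support
  · rw [Finset.sum_eq_single_of_mem (-c) hc (fun d _ hd => h7 d hd), h9] at h6
    exact h6
  · rw [Finset.sum_eq_zero (fun d hd => h7 d (fun h0 => hc (h0 ▸ hd)))] at h6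
    rw [Finsupp.notMem_support_iff.1 hc, LinearMap.zero_apply, map_zero]
    exact h6

end Pool.Agent.H914
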