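import Pool.Agent.H914R2.EDefs

/-!
# Algebraic embeddings of cohomology: definitions
-/

open CategoryTheory AlgebraicGeometry

universe u v

namespace Pool.Agent.H914

open VarClass Obj WeilCohomology

variable {k : Type u} [Field k] {𝒱 : VarClass k} {ops : CycleOps 𝒱}

/-- The cohomology of `Y` embeds algebraically into the direct sum of the cohomologies of the
varieties `Q 0, ..., Q (r - 1)`: there are classes `F t` on `Y × Q t`, each a linear combination
with coefficients in the coefficient field of classes of algebraic cycles of some codimension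
`b t`, such that no nonzero element of `H(Y)` is killed by all the operators
`F t : H(Y) → H(Q t)`. -/
def EmbedsAlgebraically (W : WeilCohomology.{u, v} ops) (Y : 𝒱.Obj) {r : ℕ}
    (Q : Fin r → 𝒱.Obj) : Prop :=
  ∃ (b : Fin r → ℤ) (F : ∀ t, W.H (Y.prod (Q t))),
    (∀ t, F t ∈ spanCycles W (Y.prod (Q t)) (b t)) ∧
    ∀ a : W.H Y, (∀ t, W.corr (F t) a = 0) → a = 0

end Pool.Agent.H914
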