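import Pool.Agent.H914R2.EGal

/-!
# The conjecture D for products: main theorem
-/

open CategoryTheory AlgebraicGeometry Finset TensorProduct Polynomial

universe u v w

namespace Pool.Agent.H914

open VarClass Obj WeilCohomology

variable {k : Type u} [Field k] {𝒱 : VarClass k} {ops : CycleOps 𝒱}
  {W : WeilCohomology.{u, v} ops} {X Y : 𝒱.Obj} {ι : Type w} {P : ι → EndVar 𝒱} {q : ℕ}

section

variable {L : Type v} [Field L] [Algebra W.K L]

lemma base_F (f : X ⟶ Y) : (W.map f).toLinearMap.baseChange L =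
    (show L ⊗[W.K] W.H Y →ₗ[L] L ⊗[W.K] W.H X from ((baseW W L).map f).toLinearMap) :=
  (mapBase_toLin (W.map f)).symm

lemma base_pr (i : ℕ) : (proj (W.isInternal X) i).baseChange L =
    (show L ⊗[W.K] W.H X →ₗ[L] L ⊗[W.K] W.H X from proj ((baseW W L).isInternal X) i) :=
  (proj_base_eq (W.isInternal X) ((baseW W L).isInternal X) i).symm

/-- The properties of the members of the family after the extension of the coefficients. -/
theorem exists_eProps [IsAlgClosed L] (hq : q ≠ 0) (hD : ∀ j, HomEqNum W (P j).X)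
    (hdeg : ∀ j, HasFrobeniusDegree W (P j) q)
    (hss : ∀ j, FrobeniusSemisimple W (P j).X (P j).f)
    (hT : ∀ i j, AlgebraicHoms W (P i) (P j) q) :
    ∃ (π : ∀ j, ℕ → Module.End W.K (W.H (P j).X)) (S : ι → Finset L),
      (∀ j, CProj W (P j).X (π j)) ∧ EProps (baseW W L) P q
        (fun j l => (show L ⊗[W.K] W.H (P j).X →ₗ[L] L ⊗[W.K] W.H (P j).X from
          (π j l).baseChange L)) S := by
  classical
  choose π hπ using fun j => exists_cProj (hD j)
  have hroots : ∀ j, ∃ S : Finset L, aeval ((W.map (P j).f).toLinearMap.baseChange L)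
      (∏ γ ∈ S, (Polynomial.X - C γ)) * (piT (π j)).baseChange L = 0 := by
    intro j
    obtain ⟨Q, hQ, hQT⟩ := hss j
    obtain ⟨S, c, -, hc0, hQS⟩ := exists_roots (L := L) hQ
    refine ⟨S, ?_⟩
    have hQπ : aeval (W.map (P j).f).toLinearMap Q * piT (π j) = 0 := by
      apply LinearMap.ext
      intro a
      exact hQT _ ((hπ j).piT_trans a)
    have h1 := congrArg (fun Z => Z.baseChange L) hQπ
    beta_reduce at h1
    rw [bcMul, ← aeval_base, hQS, LinearMap.baseChange_zero, map_mul, aeval_C, mul_assoc,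
      ← Algebra.smul_def] at h1
    exact (smul_eq_zero.1 h1).resolve_left hc0
  choose S hS using hroots
  refine ⟨π, S, hπ, hq, fun j => (hπ j).base (hD j), fun j => base_homEqNum (hD j), ?_,
    fun j => base_degree (hdeg j), ?_⟩
  · intro j
    have h1 := hS j
    rw [base_F, ← base_piT] at h1
    exact h1
  · intro j j' i i' hii Z h1 h2 h3 h4 h5
    refine homs_base (L := L) (hπ j) (hπ j') (homSpan_le i i') (hT j j' i i' hii)
      (show L ⊗[W.K] W.H (P j).X →ₗ[L] L ⊗[W.K] W.H (P j').X from Z) ?_ ?_ ?_ ?_ ?_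
    · rw [← base_piT]; exact h1
    · rw [← base_piT]; exact h2
    · rw [base_pr]; exact h3
    · rw [base_pr]; exact h4
    · rw [base_F, base_F, map_pow, map_pow, map_natCast]
      exact h5

end

/-- The labels of the nonzero blocks are eigenvalues. -/
lemma blk_root {L : Type v} [Field L] [Algebra W.K L]
    {π : ∀ j, ℕ → Module.End W.K (W.H (P j).X)}
    (hπ : ∀ j, CProj W (P j).X (π j)) (hD : ∀ j, HomEqNum W (P j).X)
    (j : ι) (i : ℕ) (α : L)
    (hx : blkC (baseW W L) P j i α ≠ ⊥) : ∃ hst : ∀ a ∈ transcendental W (P j).X ⊓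
      W.gr (P j).X i, (W.map (P j).f).toLinearMap a ∈ transcendental W (P j).X ⊓
        W.gr (P j).X i, aeval α ((W.map (P j).f).toLinearMap.restrict hst).charpoly = 0 := by
  obtain ⟨y, hy, hy0⟩ := (Submodule.ne_bot_iff _).1 hx
  rw [mem_blkC] at hy
  have hst : ∀ a ∈ transcendental W (P j).X ⊓ W.gr (P j).X i,
      (W.map (P j).f).toLinearMap a ∈ transcendental W (P j).X ⊓ W.gr (P j).X i := by
    intro a ha
    exact ⟨KOp.trans (KOp.map (W := W) (P j).f) ha.1, W.map_mem _ ha.2⟩
  refine ⟨hst, ?_⟩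
  set p := ((W.map (P j).f).toLinearMap.restrict hst).charpoly with hp
  have hkill : aeval (W.map (P j).f).toLinearMap p *
      (piT (π j) * proj (W.isInternal (P j).X) i) = 0 := by
    apply LinearMap.ext
    intro a
    have hmem : (piT (π j) * proj (W.isInternal (P j).X) i) a ∈
        transcendental W (P j).X ⊓ W.gr (P j).X i := by
      refine ⟨(hπ j).piT_trans _, ?_⟩
      have h1 : proj (W.isInternal (P j).X) i * piT (π j) =
          piT (π j) * proj (W.isInternal (P j).X) i :=
        (hπ j).piT_comm (Z := proj (W.isInternal (P j).X) i) (fun a ha => proj_trans i ha)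
          (fun l u hu => proj_span i l hu)
      rw [← h1]
      exact proj_mem _ _ _
    have h2 := LinearMap.aeval_self_charpoly ((W.map (P j).f).toLinearMap.restrict hst)
    rw [← hp] at h2
    have h3 := restrict_aeval hst p ⟨_, hmem⟩
    rw [h2, LinearMap.zero_apply, Submodule.coe_zero] at h3
    rw [Module.End.mul_apply, LinearMap.zero_apply]
    exact h3.symm
  have h1 := congrArg (fun Z => Z.baseChange L) hkill
  beta_reduce at h1
  rw [bcMul, bcMul, LinearMap.baseChange_zero] at h1
  obtain ⟨y', hy'⟩ : ∃ y' : L ⊗[W.K] W.H (P j).X, y' = y := ⟨y, rfl⟩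
  have e1 : (proj (W.isInternal (P j).X) i).baseChange L y' = y' := by
    rw [base_pr, hy']
    exact proj_same _ hy.2.1
  have e2 : (piT (π j)).baseChange L y' = y' := by
    rw [← base_piT, hy']
    exact ((hπ j).base (hD j)).piT_fix hy.1
  have h3 := congrArg (fun Z => Z y') h1
  beta_reduce at h3
  rw [Module.End.mul_apply, Module.End.mul_apply, e1, e2, LinearMap.zero_apply,
    ← aeval_base] at h3
  have h4 : (W.map (P j).f).toLinearMap.baseChange L y' = α • y' := by
    rw [base_F, hy']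
    exact hy.2.2
  rw [aeval_eig h4, eval_map_algebraMap] at h3
  refine (smul_eq_zero.1 h3).resolve_right ?_
  rw [hy']
  exact hy0

lemma blk_eigenvalue {π : ∀ j, ℕ → Module.End W.K (W.H (P j).X)}
    (hπ : ∀ j, CProj W (P j).X (π j)) (hD : ∀ j, HomEqNum W (P j).X)
    (x : ι × ℕ × AlgebraicClosure W.K)
    (hx : blkS (baseW W (AlgebraicClosure W.K)) P x ≠ ⊥) : x.2 ∈ familyEigenvalues W P :=
  ⟨x.1, blk_root hπ hD x.1 x.2.1 x.2.2 hx⟩

/-- **The conjecture D for products of members of a family.** -/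
theorem homEqNum_family (hq : q ≠ 0) (hD : ∀ j, HomEqNum W (P j).X)
    (hdeg : ∀ j, HasFrobeniusDegree W (P j) q)
    (hss : ∀ j, FrobeniusSemisimple W (P j).X (P j).f)
    (hT : ∀ i j, AlgebraicHoms W (P i) (P j) q)
    (hF : ∀ Q, IsFamilyProduct P Q → FrobeniusOnCycles W Q.X Q.f q)
    (hG : StableSymmetric W.K (familyEigenvalues W P) q) {Q : EndVar 𝒱}
    (hQ : IsFamilyProduct P Q) {Z : 𝒱.Obj} (hZ : Dominates W Q.X Z) : HomEqNum W Z := by
  classical
  set L := AlgebraicClosure W.K with hL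
  obtain ⟨π, S, hπ, hE⟩ := exists_eProps (L := L) hq hD hdeg hss hT
  have hblk := hE.hasGBlk_product hQ
  refine HomEqNum.image (X := Q.X) ?_ hZ
  apply homEqNum_base (L := L)
  apply homEqNum_of_gBlk hblk
  intro s hnz hs
  let _ : Algebra W.K (baseW W L).K := (inferInstance : Algebra W.K L)
  have : Algebra.IsAlgebraic W.K (baseW W L).K :=
    (inferInstance : Algebra.IsAlgebraic W.K L)
  refine AlgM.key (K₀ := W.K) hE.labProps (fun Q hQ => base_frob (hF Q hQ)) ?_ ?_
    (blk_eigenvalue hπ hD) hG hs hnz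
  · intro σ s hs
    exact AlgM.gal (S := semiLin W L σ) (S' := semiLin W L σ.symm) (semiLin_tr σ.symm)
      (fun X a => sig_symm σ a) (fun c => σ.symm_apply_apply c) hs
  · intro σ x hx
    obtain ⟨y, hy, hy0⟩ := (Submodule.ne_bot_iff _).1 hx
    refine (Submodule.ne_bot_iff _).2 ⟨(semiLin W L σ).σ _ y,
      SemiLin.blk (semiLin_tr σ) hy, ?_⟩
    intro h0
    exact hy0 ((semiLin W L σ).inj y h0)

end Pool.Agent.H914
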