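import Mathlib

/-!
# Lefschetz structures on graded vector spaces: definitions
-/

namespace Pool.Agent.H914

variable {K : Type*} [Field K] {V : Type*} [AddCommGroup V] [Module K V]

/-- Hard Lefschetz for the operator `L` on a graded space centred in degree `n`. -/
def HardLef (gr : ℕ → Submodule K V) (n : ℕ) (L : Module.End K V) : Prop :=
  ∀ i ≤ n, (∀ a ∈ gr i, (L ^ (n - i)) a = 0 → a = 0) ∧
    ∀ b ∈ gr (2 * n - i), ∃ a ∈ gr i, (L ^ (n - i)) a = b

/-- `Lam` is the Lambda-operator attached to `L`: it kills the primitive elements, and sends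
`L ^ (j + 1) a` to `L ^ j a` for `a` primitive of degree `i ≤ n` and `j + 1 ≤ n - i`. -/
def IsLam (gr : ℕ → Submodule K V) (n : ℕ) (L Lam : Module.End K V) : Prop :=
  ∀ i ≤ n, ∀ a ∈ gr i, (L ^ (n - i + 1)) a = 0 →
    Lam a = 0 ∧ ∀ j < n - i, Lam ((L ^ (j + 1)) a) = (L ^ j) a

/-- The operator `P` is the identity on `gr i` and zero on `gr j` for `j ≠ i`. -/
def IsProjector (gr : ℕ → Submodule K V) (i : ℕ) (P : Module.End K V) : Prop :=
  ∀ j, ∀ a ∈ gr j, P a = if j = i then a else 0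

/-- The sum of the commutators `[z i, w i]` acts as `j - n` on `gr j`. -/
def IsWeightSum (gr : ℕ → Submodule K V) (n : ℕ) {r : ℕ} (z w : Fin r → Module.End K V) : Prop :=
  ∀ j, ∀ a ∈ gr j, ∑ i, (z i (w i a) - w i (z i a)) = ((j : K) - (n : K)) • a

end Pool.Agent.H914
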