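import Pool.Agent.H914R2.Cyc
import Pool.Agent.H914R2.StdDefs
import Pool.Agent.H914R2.Core5

/-!
# The standard conjecture B for a variety and a Weil cohomology theory
-/

open CategoryTheory AlgebraicGeometry Finset Polynomial

universe u v

namespace Pool.Agent.H914

open VarClass Obj WeilCohomology

variable {k : Type u} [Field k] {𝒱 : VarClass k} {ops : CycleOps 𝒱}

section

variable {X : 𝒱.Obj}

lemma hbdW (W : WeilCohomology.{u, v} ops) (i : ℕ) (hi : 2 * X.dim + 1 ≤ i) : W.gr X i = ⊥ :=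
  W.gr_eq_bot X i (by omega)

lemma isHom_mulLeft (W : WeilCohomology.{u, v} ops) {D : X.Cycles} (hD : X.IsCyc 1 D) :
    IsHom (W.gr X) 2 (LinearMap.mulLeft W.K (W.cl X D)) := by
  have := (Realized.mulLeft (ops := ops) hD).isHom W
  simpa using this

/-- The family of operators `phiOp` is realised by an algebraic correspondence. -/
lemma realized_phiOp {D : X.Cycles} (hD : X.IsCyc 1 D) {z : (X.prod X).Cycles}
    (hz : Realized.{u, v} ops X (-1) (fun W => W.corr (W.cl _ z))) (n N : ℕ) :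
    Realized.{u, v} ops X (-1) (fun W => phiOp n N
      (∑ m ∈ range n, (LinearMap.mulLeft W.K (W.cl X D) ^ (m + 1) *
        W.corr (W.cl _ z) ^ (m + 1) - W.corr (W.cl _ z) ^ (m + 1) *
        LinearMap.mulLeft W.K (W.cl X D) ^ (m + 1)))
      (LinearMap.mulLeft W.K (W.cl X D)) (W.corr (W.cl _ z))) := by
  have hL : Realized.{u, v} ops X 1 (fun W => LinearMap.mulLeft W.K (W.cl X D)) := by
    simpa using Realized.mulLeft (ops := ops) hD
  have hx : Realized.{u, v} ops X 0 (fun W =>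
      ∑ m ∈ range n, (LinearMap.mulLeft W.K (W.cl X D) ^ (m + 1) *
        W.corr (W.cl _ z) ^ (m + 1) - W.corr (W.cl _ z) ^ (m + 1) *
        LinearMap.mulLeft W.K (W.cl X D) ^ (m + 1))) := by
    apply Realized.sum
    intro m _
    apply Realized.sub
    · exact ((hL.pow (m + 1)).mul (hz.pow (m + 1))).cast (by push_cast; ring)
    · exact ((hz.pow (m + 1)).mul (hL.pow (m + 1))).cast (by push_cast; ring)
  have hp : ∀ i, Realized.{u, v} ops X 0 (fun W => ev
      (∑ m ∈ range n, (LinearMap.mulLeft W.K (W.cl X D) ^ (m + 1) *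
        W.corr (W.cl _ z) ^ (m + 1) - W.corr (W.cl _ z) ^ (m + 1) *
        LinearMap.mulLeft W.K (W.cl X D) ^ (m + 1))) (herm n N i)) := fun i => hx.ev _
  have hθ : ∀ c : ℕ, Realized.{u, v} ops X (-c) (fun W => thetaOp n N
      (∑ m ∈ range n, (LinearMap.mulLeft W.K (W.cl X D) ^ (m + 1) *
        W.corr (W.cl _ z) ^ (m + 1) - W.corr (W.cl _ z) ^ (m + 1) *
        LinearMap.mulLeft W.K (W.cl X D) ^ (m + 1)))
      (LinearMap.mulLeft W.K (W.cl X D)) (W.corr (W.cl _ z)) c) := by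
    intro c
    have h1 : Realized.{u, v} ops X 0 (fun W => W.corr (W.cl _ z) ^ c *
        LinearMap.mulLeft W.K (W.cl X D) ^ c) :=
      ((hz.pow c).mul (hL.pow c)).cast (by ring)
    have h2 := (hp (n - c)).sub ((((hp (n - c)).mul h1).mul (hp (n - c))).cast (by ring))
    have h3 := Realized.sum (s := range N) (fun r _ => h2.pow0 r)
    exact (((h3.mul (hp (n - c))).mul (hz.pow c)).mul (hp (n + c))).cast (by ring)
  apply Realized.add
  · apply Realized.sum
    intro d _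
    exact (((hθ (d + 2)).mul (hL.pow (d + 1))).mul (hp (n - d))).cast (by push_cast; ring)
  · apply Realized.sum
    intro d _
    exact (((hL.pow d).mul (hθ (d + 1))).mul (hp (n + (d + 1)))).cast (by push_cast; ring)

lemma realized_corr (hn : 1 ≤ X.dim) {z : (X.prod X).Cycles}
    (hz : (X.prod X).IsCyc (X.dim - 1) z) :
    Realized.{u, v} ops X (-1) (fun W => W.corr (W.cl _ z)) :=
  Or.inl ⟨X.dim - 1, by omega, z, hz, fun _ => rfl⟩

lemma relOp_Ll {D : X.Cycles} (hD : X.IsCyc 1 D) {z : (X.prod X).Cycles}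
    (hz : Realized.{u, v} ops X (-1) (fun W => W.corr (W.cl _ z)))
    (W₀ W : WeilCohomology.{u, v} ops) (m : ℕ) :
    relOp X W₀ W (LinearMap.mulLeft W₀.K (W₀.cl X D) ^ m * W₀.corr (W₀.cl _ z) ^ m)
      (LinearMap.mulLeft W.K (W.cl X D) ^ m * W.corr (W.cl _ z) ^ m) := by
  have hL : Realized.{u, v} ops X 1 (fun W => LinearMap.mulLeft W.K (W.cl X D)) := by
    simpa using Realized.mulLeft (ops := ops) hD
  exact ⟨_, ((hL.pow m).mul (hz.pow m)).cast (by ring), rfl, rfl⟩

lemma relOp_lL {D : X.Cycles} (hD : X.IsCyc 1 D) {z : (X.prod X).Cycles}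
    (hz : Realized.{u, v} ops X (-1) (fun W => W.corr (W.cl _ z)))
    (W₀ W : WeilCohomology.{u, v} ops) (m : ℕ) :
    relOp X W₀ W (W₀.corr (W₀.cl _ z) ^ m * LinearMap.mulLeft W₀.K (W₀.cl X D) ^ m)
      (W.corr (W.cl _ z) ^ m * LinearMap.mulLeft W.K (W.cl X D) ^ m) := by
  have hL : Realized.{u, v} ops X 1 (fun W => LinearMap.mulLeft W.K (W.cl X D)) := by
    simpa using Realized.mulLeft (ops := ops) hD
  exact ⟨_, ((hz.pow m).mul (hL.pow m)).cast (by ring), rfl, rfl⟩

/-- **Independence of the Weil cohomology theory.** -/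
theorem indep_weil (hn : 1 ≤ X.dim) (D : X.Cycles) (hD : X.IsCyc 1 D)
    (W₀ : WeilCohomology.{u, v} ops) (hHL : HardLefschetz W₀ X D)
    (hB : ∃ z, (X.prod X).IsCyc (X.dim - 1) z ∧ InducesLambda W₀ X D z) :
    ∃ Z, (X.prod X).IsCyc (X.dim - 1) Z ∧ ∀ W : WeilCohomology.{u, v} ops,
      List.TFAE [
        HardLefschetz W X D ∧ ∃ z, (X.prod X).IsCyc (X.dim - 1) z ∧ InducesLambda W X D z,
        HardLefschetz W X D ∧ InducesLambda W X D Z,
        ∀ i, W.betti X i = W₀.betti X i,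
        ∑ i ∈ range (2 * X.dim + 1), W.betti X i ≤
            ∑ i ∈ range (2 * X.dim + 1), W₀.betti X i ∧
          ∑ i ∈ range (2 * X.dim + 1), ((i : ℤ) - X.dim) ^ 2 * W.betti X i ≤
            ∑ i ∈ range (2 * X.dim + 1), ((i : ℤ) - X.dim) ^ 2 * W₀.betti X i] := by
  obtain ⟨z, hz, hLam⟩ := hB
  have hzr := realized_corr (ops := ops) hn hz
  set N := ∑ i ∈ range (2 * X.dim + 1), W₀.betti X i + 1 with hN
  have hphi := realized_phiOp (ops := ops) hD hzr X.dim N
  obtain ⟨Z, hZ, hZW⟩ : ∃ Z, (X.prod X).IsCyc (X.dim - 1) Z ∧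
      ∀ W : WeilCohomology.{u, v} ops, phiOp X.dim N
      (∑ m ∈ range X.dim, (LinearMap.mulLeft W.K (W.cl X D) ^ (m + 1) *
        W.corr (W.cl _ z) ^ (m + 1) - W.corr (W.cl _ z) ^ (m + 1) *
        LinearMap.mulLeft W.K (W.cl X D) ^ (m + 1)))
      (LinearMap.mulLeft W.K (W.cl X D)) (W.corr (W.cl _ z)) = W.corr (W.cl _ Z) := by
    rcases hphi with ⟨q, hq, Z, hZ, hZW⟩ | ⟨h1, _⟩
    · obtain rfl : q = X.dim - 1 := by omega
      exact ⟨Z, hZ, hZW⟩
    · omega
  refine ⟨Z, hZ, fun W => ?_⟩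
  have hP := relOp_pairRel X W₀ W
  have hP' : PairRel (W.isInternal X) (W₀.isInternal X) (fun y x => relOp X W₀ W x y) := by
    have := relOp_pairRel X W W₀
    have e : relOp X W W₀ = fun y x => relOp X W₀ W x y := by
      funext y x
      exact propext ⟨relOp_symm, relOp_symm⟩
    rwa [e] at this
  have hnode : ∀ (W' : WeilCohomology.{u, v} ops), ∑ i ∈ range (2 * X.dim + 1),
      node X.dim i ^ 2 * (Module.finrank W'.K (W'.gr X i) : ℚ) =
      ((∑ i ∈ range (2 * X.dim + 1), ((i : ℤ) - X.dim) ^ 2 * (W'.betti X i : ℤ) : ℤ) : ℚ) := by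
    intro W'
    push_cast
    rfl
  have h43 : (∑ i ∈ range (2 * X.dim + 1), W.betti X i ≤
            ∑ i ∈ range (2 * X.dim + 1), W₀.betti X i ∧
          ∑ i ∈ range (2 * X.dim + 1), ((i : ℤ) - X.dim) ^ 2 * W.betti X i ≤
            ∑ i ∈ range (2 * X.dim + 1), ((i : ℤ) - X.dim) ^ 2 * W₀.betti X i) →
      (HardLefschetz W X D ∧ InducesLambda W X D Z) ∧ ∀ i, W.betti X i = W₀.betti X i := by
    rintro ⟨D1, D2⟩
    have key := compare_lef (N := N) hP (hbdW W₀) (hbdW W) (isHom_mulLeft W₀ hD)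
      (isHom_mulLeft W hD) (relOp_Ll hD hzr W₀ W) (relOp_lL hD hzr W₀ W) hHL hLam D1
      (by rw [hnode, hnode]; exact_mod_cast D2) (by omega)
      (by rw [hN]; exact Nat.le_succ _)
    refine ⟨⟨key.1, ?_⟩, fun i => ?_⟩
    · have := key.2.1
      rw [hZW W] at this
      exact this
    · by_cases hi : i < 2 * X.dim + 1
      · exact key.2.2.2 i (Finset.mem_range.2 hi)
      · unfold WeilCohomology.betti
        rw [hbdW W i (by omega), hbdW W₀ i (by omega)]
        simp
  tfae_have 2 → 1 := fun h => ⟨h.1, Z, hZ, h.2⟩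
  tfae_have 4 → 2 := fun h => (h43 h).1
  tfae_have 4 → 3 := fun h => (h43 h).2
  tfae_have 3 → 4 := by
    intro h
    constructor
    · exact (Finset.sum_congr rfl (fun i _ => h i)).le
    · exact (Finset.sum_congr rfl (fun i _ => by rw [h i])).le
  tfae_have 1 → 4 := by
    rintro ⟨hHL', z', hz', hLam'⟩
    have hzr' := realized_corr (ops := ops) hn hz'
    have key := betti_eq hP hP' (hbdW W₀) (hbdW W) (isHom_mulLeft W₀ hD)
      (isHom_mulLeft W hD) (relOp_Ll hD hzr W₀ W) (relOp_lL hD hzr W₀ W)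
      (relOp_Ll hD hzr' W₀ W) (relOp_lL hD hzr' W₀ W) hHL hLam hHL' hLam'
    constructor
    · have h1 := finrank_eq_sum (W.isInternal X) (hbdW W)
      have h2 := finrank_eq_sum (W₀.isInternal X) (hbdW W₀)
      unfold WeilCohomology.betti
      rw [← h1, ← h2, key.1]
    · have h1 := key.2
      rw [hnode, hnode] at h1
      have h2 : (∑ i ∈ range (2 * X.dim + 1), ((i : ℤ) - X.dim) ^ 2 * (W.betti X i : ℤ)) =
          ∑ i ∈ range (2 * X.dim + 1), ((i : ℤ) - X.dim) ^ 2 * (W₀.betti X i : ℤ) := by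
        exact_mod_cast h1
      exact h2.le
  tfae_finish

end

end Pool.Agent.H914
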