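import Pool.Agent.H914R2.BNum
import Pool.Agent.H914R2.BDefs
import Pool.Agent.H914R2.EMain
import Pool.Agent.H914R2.LefB

/-!
# The Lefschetz standard conjecture for varieties generated by a family
-/

open CategoryTheory AlgebraicGeometry Finset

universe u v w

namespace Pool.Agent.H914

open VarClass Obj WeilCohomology

variable {k : Type u} [Field k] {𝒱 : VarClass k} {ops : CycleOps 𝒱}
  {W : WeilCohomology.{u, v} ops} {X Y Z : 𝒱.Obj}

/-- Nondegeneracy of the super trace on the correspondences of `X` implies the Lefschetz standard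
conjecture for `X`. -/
theorem TrNondeg.lefschetzB {D : X.Cycles} (hD : X.IsCyc 1 D) (hHL : HardLefschetz W X D)
    (h : TrNondeg W X X) : LefschetzB W X D := by
  set L := LinearMap.mulLeft W.K (W.cl X D) with hL
  have hL1 : L ∈ KOp W X X 1 := mem_KS_iff.1 (Submodule.subset_span (rop_mulLeft hD))
  have hpow : ∀ c : ℕ, L ^ c ∈ KOp W X X c := by
    intro c
    induction c with
    | zero => exact KOp.cast (KOp.id X) Nat.cast_zero.symm
    | succ c ih =>
      rw [pow_succ]
      exact KOp.cast (KOp.comp ih hL1) (by push_cast; ring)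
  apply lefschetzB_of_inj hD hHL
  intro c hc
  obtain ⟨b, hb, hba⟩ := exists_regular (W.isInternal X) (fun d => KOp W X X d) (KOp.id X)
    (fun {d e x y} hx hy => KOp.cast (KOp.comp hx hy) (add_comm e d))
    (fun {d x} hx => KOp.isHom hx) (fun {d x} hx hxy => h d x hx hxy) (hpow c)
  refine ⟨b, hb, fun y hy hby => ?_⟩
  obtain ⟨x, hx, hxy⟩ := (hHL (X.dim - c) (by omega)).2 y
    (by rw [show 2 * X.dim - (X.dim - c) = X.dim + c by omega]; exact hy)
  rw [show X.dim - (X.dim - c) = c by omega] at hxy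
  have h1 := hba _ x hx
  rw [hxy, hby, map_zero] at h1
  exact h1.symm

/-- The conjecture D for `X × X`, in one Weil cohomology theory, implies the conjecture B for
`X`. -/
theorem HomEqNum.lefschetzB {D : X.Cycles} (hD : X.IsCyc 1 D) (hHL : HardLefschetz W X D)
    (h : HomEqNum W (X.prod X)) : LefschetzB W X D :=
  h.trNondeg.lefschetzB hD hHL

lemma dominates_self (W : WeilCohomology.{u, v} ops) (X : 𝒱.Obj) : Dominates W X X :=
  ⟨𝟙 X, 0, X.V.fundCycle, 1, SmVar.fundCycle_mem _, one_ne_zero, by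
    rw [W.cl_fund, one_smul]
    exact W.push_id 1⟩

variable {ι : Type w} {P : ι → EndVar 𝒱} {q : ℕ}

/-- **The Lefschetz standard conjecture for varieties generated by a family.** -/
theorem lefschetz_family (hq : q ≠ 0) (hD : ∀ j, HomEqNum W (P j).X)
    (hdeg : ∀ j, HasFrobeniusDegree W (P j) q)
    (hss : ∀ j, FrobeniusSemisimple W (P j).X (P j).f)
    (hT : ∀ i j, AlgebraicHoms W (P i) (P j) q)
    (hF : ∀ Q, IsFamilyProduct P Q → FrobeniusOnCycles W Q.X Q.f q)
    (hG : StableSymmetric W.K (familyEigenvalues W P) q) {r : ℕ} {Q : Fin r → EndVar 𝒱}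
    (hQ : ∀ t, IsFamilyProduct P (Q t)) (hY : EmbedsAlgebraically W Y (fun t => (Q t).X)) :
    TrNondeg W Y Y := by
  obtain ⟨b, F, hF', hinj⟩ := hY
  refine TrNondeg.of_embeds (Q := fun t => (Q t).X) (φ := fun t => W.corr (F t))
    (e := fun t => b t - Y.dim) (fun t => ?_) hinj (fun t t' => ?_)
  · exact mem_KOp_iff.2 ⟨F t, by
      have := hF' t
      rwa [show (Y.dim : ℤ) + (b t - Y.dim) = b t by ring], rfl⟩
  · have h1 : HomEqNum W ((Q t).prod (Q t')).X :=
      homEqNum_family hq hD hdeg hss hT hF hG (IsFamilyProduct.prod (hQ t) (hQ t'))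
        (dominates_self W _)
    exact HomEqNum.trNondeg h1

/-- **The Lefschetz standard conjecture in all Weil cohomology theories for the varieties generated
by a family.** -/
theorem lefschetz_family_all (hq : q ≠ 0) (hD : ∀ j, HomEqNum W (P j).X)
    (hdeg : ∀ j, HasFrobeniusDegree W (P j) q)
    (hss : ∀ j, FrobeniusSemisimple W (P j).X (P j).f)
    (hT : ∀ i j, AlgebraicHoms W (P i) (P j) q)
    (hF : ∀ Q, IsFamilyProduct P Q → FrobeniusOnCycles W Q.X Q.f q)
    (hG : StableSymmetric W.K (familyEigenvalues W P) q) {r : ℕ} {Q : Fin r → EndVar 𝒱}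
    (hQ : ∀ t, IsFamilyProduct P (Q t)) (hY : EmbedsAlgebraically W Y (fun t => (Q t).X))
    (hn : 1 ≤ Y.dim) {D : Y.Cycles} (hD1 : Y.IsCyc 1 D) (hHL : HardLefschetz W Y D) :
    ∃ Z, (Y.prod Y).IsCyc (Y.dim - 1) Z ∧ ∀ W' : WeilCohomology.{u, v} ops,
      List.TFAE [
        HardLefschetz W' Y D ∧ LefschetzB W' Y D,
        HardLefschetz W' Y D ∧ InducesLambda W' Y D Z,
        ∀ i, W'.betti Y i = W.betti Y i] := by
  obtain ⟨Z, hZ, hall⟩ := indep_weil hn D hD1 W hHL
    ((lefschetz_family hq hD hdeg hss hT hF hG hQ hY).lefschetzB hD1 hHL)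
  refine ⟨Z, hZ, fun W' => ?_⟩
  have h := hall W'
  tfae_have 1 ↔ 2 := h.out 0 1
  tfae_have 2 ↔ 3 := h.out 1 2
  tfae_finish

end Pool.Agent.H914
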