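import Pool.Agent.H914R2.GConv2

/-!
# The equivalence
-/

open CategoryTheory AlgebraicGeometry Finset Polynomial

universe u v

namespace Pool.Agent.H914

open VarClass Obj WeilCohomology

variable {k : Type u} [Field k] {𝒱 : VarClass k} {ops : CycleOps 𝒱}
  {W : WeilCohomology.{u, v} ops} {X Y Z : 𝒱.Obj}

lemma mulLeft_pow_apply (a b : W.H X) (m : ℕ) :
    (LinearMap.mulLeft W.K a ^ m) b = a ^ m * b := by
  induction m with
  | zero => simp
  | succ m ih => rw [pow_succ', Module.End.mul_apply, ih, LinearMap.mulLeft_apply, pow_succ',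
      mul_assoc]

lemma boxSum_pow {D : X.Cycles} (hD : X.IsCyc 1 D) (N : ℕ) (x : W.H X) :
    (LinearMap.mulLeft W.K (W.cl _ (boxSum ops D)) ^ N) (W.map (fst X X) x) =
      ∑ m ∈ range (N + 1), (N.choose m : W.K) •
        (W.map (fst X X) (W.cl X D ^ m * x) * W.map (snd X X) (W.cl X D ^ (N - m))) := by
  have hξ : W.cl X D ∈ W.gr X (2 * 1) := W.cl_mem hD
  have hcomm : Commute (W.map (fst X X) (W.cl X D)) (W.map (snd X X) (W.cl X D)) :=
    W.even_comm (W.map_mem _ hξ) _
  rw [mulLeft_pow_apply, boxSum, map_add, W.cl_pull, W.cl_pull, hcomm.add_pow, Finset.sum_mul]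
  apply Finset.sum_congr rfl
  intro m _
  have h1 : Commute (W.map (fst X X) x) (W.map (snd X X) (W.cl X D) ^ (N - m)) :=
    (show Commute (W.map (fst X X) x) (W.map (snd X X) (W.cl X D)) from
      (W.even_comm (W.map_mem _ hξ) _).symm).pow_right _
  rw [map_mul (W.map (fst X X)), map_pow, map_pow, mul_assoc _ _ (W.map (fst X X) x),
    (Nat.cast_commute (N.choose m) (W.map (fst X X) x)).eq, ← mul_assoc, ← nsmul_eq_mul',
    ← Nat.cast_smul_eq_nsmul W.K]
  congr 1
  rw [mul_assoc, mul_assoc, h1.eq]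

/-- The conjecture of Hodge type for `X × X` implies the conjecture for `X`. -/
theorem hodge_of_square {D : X.Cycles} (hD : X.IsCyc 1 D)
    (hdeg : 0 < X.V.degCycle (divPow ops D X.dim X.V.fundCycle))
    (hH : HodgeType W (X.prod X) (boxSum ops D)) : HodgeType W X D := by
  classical
  intro j hj z hz hprim hz0
  set n := X.dim with hn
  set x := W.cl X z with hx
  set ξ := W.cl X D with hξ
  have hpow : ∀ m, ξ ^ m ∈ W.gr X (2 * m) := by
    intro m
    induction m with
    | zero => simpa using W.one_mem X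
    | succ m ih =>
      rw [pow_succ]
      have := W.mul_mem ih (W.cl_mem hD)
      rwa [show 2 * m + 2 * 1 = 2 * (m + 1) by ring] at this
  have hxm : x ∈ W.gr X (2 * j) := W.cl_mem hz
  have hξn : W.tr X (ξ ^ n) = (X.V.degCycle (divPow ops D X.dim X.V.fundCycle) : W.K) := by
    have h1 := divPow_mem (ops := ops) hD n X.V.fundCycle_mem
    rw [zero_add] at h1
    rw [← W.tr_cl h1, cl_divPow, W.cl_fund, mulLeft_pow_apply, mul_one]
  rw [cl_divPow, mulLeft_pow_apply] at hprim
  have hvan : ∀ m, n - 2 * j + 1 ≤ m → ξ ^ m * x = 0 := by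
    intro m hm
    rw [← Nat.sub_add_cancel hm, pow_add, mul_assoc, hprim, mul_zero]
  have hvan' : ∀ m, n < m → ξ ^ m = 0 := by
    intro m hm
    have := hpow m
    rw [W.gr_eq_bot X _ (by omega)] at this
    exact (Submodule.mem_bot _).1 this
  set w := ops.pull (fst X X) z with hw
  have hwc : (X.prod X).IsCyc j w := ops.pull_mem _ hz
  have hb0 : W.tr X (ξ ^ n) ≠ 0 := by
    rw [hξn]
    exact_mod_cast hdeg.ne'
  have hw0 : W.cl _ w ≠ 0 := by
    intro h0
    apply hz0
    rw [hw, W.cl_pull] at h0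
    exact map_fst_inj h0 ⟨_, hb0⟩
  have hwprim : W.cl _ (divPow ops (boxSum ops D) ((X.prod X).dim - 2 * j + 1) w) = 0 := by
    rw [cl_divPow, hw, W.cl_pull, boxSum_pow hD, dim_prod]
    apply Finset.sum_eq_zero
    intro m _
    by_cases hm : n - 2 * j + 1 ≤ m
    · rw [hvan m hm, map_zero, zero_mul, smul_zero]
    · rw [hvan' (X.dim + X.dim - 2 * j + 1 - m) (by omega), map_zero, mul_zero, smul_zero]
  have h1 := hH j (by rw [dim_prod]; omega) w hwc hwprim hw0
  rw [dim_prod] at h1
  have hmem1 : (X.prod X).IsCyc (X.prod X).dim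
      (ops.mul w (divPow ops (boxSum ops D) (X.dim + X.dim - 2 * j) w)) := by
    have := ops.mul_mem hwc (divPow_mem (ops := ops) (boxSum_mem (ops := ops) hD)
      (X.dim + X.dim - 2 * j) hwc)
    rw [dim_prod]
    rwa [show j + (j + (X.dim + X.dim - 2 * j)) = X.dim + X.dim by omega] at this
  have hmem2 : X.IsCyc X.dim (ops.mul z (divPow ops D (n - 2 * j) z)) := by
    have := ops.mul_mem hz (divPow_mem (ops := ops) hD (n - 2 * j) hz)
    rwa [show j + (j + (n - 2 * j)) = X.dim by omega] at this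
  have e1 : ((X.prod X).V.degCycle
      (ops.mul w (divPow ops (boxSum ops D) (X.dim + X.dim - 2 * j) w)) : W.K) =
      (((X.dim + X.dim - 2 * j).choose (n - 2 * j) : ℕ) : W.K) *
        ((X.V.degCycle (ops.mul z (divPow ops D (n - 2 * j) z)) : W.K) *
        (X.V.degCycle (divPow ops D X.dim X.V.fundCycle) : W.K)) := by
    rw [← W.tr_cl hmem1, ← W.tr_cl hmem2, ← hξn, W.cl_mul, W.cl_mul, cl_divPow, cl_divPow, hw,
      W.cl_pull, boxSum_pow hD, Finset.mul_sum, map_sum, mulLeft_pow_apply,
      Finset.sum_eq_single (n - 2 * j)]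
    · rw [mul_smul_comm, map_smul, smul_eq_mul, ← mul_assoc (W.map (fst X X) _), ← map_mul,
        W.tr_prod, show X.dim + X.dim - 2 * j - (n - 2 * j) = n by omega]
    · intro m _ hm
      rw [mul_smul_comm, map_smul, ← mul_assoc (W.map (fst X X) _), ← map_mul, W.tr_prod,
        W.tr_eq_zero (W.mul_mem hxm (W.mul_mem (hpow m) hxm)) (by omega), zero_mul, smul_zero]
    · intro h0
      exact absurd (Finset.mem_range.2 (by omega)) h0
  have e2 : (X.prod X).V.degCycle
      (ops.mul w (divPow ops (boxSum ops D) (X.dim + X.dim - 2 * j) w)) =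
      (((X.dim + X.dim - 2 * j).choose (n - 2 * j) : ℕ) : ℚ) *
        ((X.V.degCycle (ops.mul z (divPow ops D (n - 2 * j) z))) *
        (X.V.degCycle (divPow ops D X.dim X.V.fundCycle))) := by
    exact_mod_cast e1
  rw [e2] at h1
  have hch : (0 : ℚ) < (((X.dim + X.dim - 2 * j).choose (n - 2 * j) : ℕ) : ℚ) := by
    exact_mod_cast Nat.choose_pos (by omega)
  have h2 : 0 < (((X.dim + X.dim - 2 * j).choose (n - 2 * j) : ℕ) : ℚ) *
      (X.V.degCycle (divPow ops D X.dim X.V.fundCycle)) *
      ((-1) ^ j * X.V.degCycle (ops.mul z (divPow ops D (n - 2 * j) z))) := by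
    have e3 : (((X.dim + X.dim - 2 * j).choose (n - 2 * j) : ℕ) : ℚ) *
        (X.V.degCycle (divPow ops D X.dim X.V.fundCycle)) *
        ((-1) ^ j * X.V.degCycle (ops.mul z (divPow ops D (n - 2 * j) z))) =
        (-1) ^ j * ((((X.dim + X.dim - 2 * j).choose (n - 2 * j) : ℕ) : ℚ) *
        ((X.V.degCycle (ops.mul z (divPow ops D (n - 2 * j) z))) *
        (X.V.degCycle (divPow ops D X.dim X.V.fundCycle)))) := by ring
    rw [e3]; exact h1
  exact (mul_pos_iff_of_pos_left (mul_pos hch hdeg)).1 h2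

/-- The Riemann hypothesis implies the algebraicity of the Kunneth projectors. -/
theorem kunneth_of_rh {f : X ⟶ X} {q : ℕ} (hq : 1 < q) (hRH : RiemannHypothesis W X f q) :
    KunnethStd W X := by
  classical
  choose P hP0 hPa hPz using hRH
  set N := 2 * X.dim + 1 with hN
  have hcop : ∀ i j, i ≠ j → IsCoprime (P i) (P j) := by
    intro i j hij
    rw [Polynomial.isCoprime_iff_aeval_ne_zero_of_isAlgClosed ℚ ℂ]
    intro a
    by_contra h0
    push Not at h0
    have h1 := hPz i a h0.1
    have h2 := hPz j a h0.2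
    rw [h1] at h2
    apply hij
    have h3 : (1 : ℝ) < q := by exact_mod_cast hq
    exact (pow_right_injective₀ (by linarith) h3.ne') h2
  intro i
  by_cases hi : i < N
  · have h1 : IsCoprime (P i) (∏ j ∈ (range N).erase i, P j) := by
      apply IsCoprime.prod_right
      intro j hj
      exact hcop i j (Finset.ne_of_mem_erase hj).symm
    obtain ⟨u, v, huv⟩ := h1
    obtain ⟨z, hz, hz'⟩ := cyc_of_rop (rop_ev (rop_map (W := W) f)
      (v * ∏ j ∈ (range N).erase i, P j))
    refine ⟨z, hz, ?_⟩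
    intro j a ha
    rw [hz']
    by_cases hj : j < N
    · by_cases hji : j = i
      · subst hji
        rw [if_pos rfl]
        have h2 : v * ∏ l ∈ (range N).erase j, P l = 1 - u * P j := by
          rw [← huv]; ring
        rw [h2, map_sub, map_one, map_mul, LinearMap.sub_apply, Module.End.one_apply,
          Module.End.mul_apply, ev_eq _ (P j), hPa j a ha, map_zero, sub_zero]
      · rw [if_neg hji, ← Finset.mul_prod_erase ((range N).erase i) P
          (Finset.mem_erase.2 ⟨hji, Finset.mem_range.2 hj⟩), mul_left_comm, mul_comm, map_mul,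
          Module.End.mul_apply, ev_eq _ (P j), hPa j a ha, map_zero]
    · rw [W.gr_eq_bot X j (by omega), Submodule.mem_bot] at ha
      subst ha
      rw [map_zero]
      split_ifs <;> rfl
  · refine ⟨0, SmVar.IsCyc.zero _ _, ?_⟩
    intro j a ha
    rw [map_zero, corr_zero, LinearMap.zero_apply]
    by_cases hji : j = i
    · subst hji
      rw [W.gr_eq_bot X j (by omega), Submodule.mem_bot] at ha
      rw [ha, if_pos rfl]
    · rw [if_neg hji]

/-- The Riemann hypothesis for a power. -/
lemma hasWeight_of_pow {K : Type*} [Field K] [CharZero K] {V : Type*} [AddCommGroup V]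
    [Module K V] {A : Module.End K V} {U : Submodule K V} {q M i : ℕ} (hM : 1 ≤ M)
    (h : HasWeight (A ^ M) U (((q ^ M : ℕ) : ℝ) ^ i)) : HasWeight A U ((q : ℝ) ^ i) := by
  obtain ⟨P, hP0, hPa, hPz⟩ := h
  refine ⟨expand ℚ M P, ?_, ?_, ?_⟩
  · rwa [Ne, Polynomial.expand_eq_zero (by omega)]
  · intro a ha
    rw [Polynomial.map_expand, Polynomial.expand_aeval]
    exact hPa a ha
  · intro z hz
    rw [Polynomial.expand_aeval] at hz
    have h1 := hPz _ hz
    have h2 : (‖z‖ ^ 2) ^ M = ((q : ℝ) ^ i) ^ M := by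
      rw [← pow_mul, ← pow_mul, mul_comm 2 M, mul_comm i M, pow_mul, pow_mul, ← norm_pow, h1]
      push_cast
      rfl
    exact (pow_left_inj₀ (by positivity) (by positivity) (by omega)).1 h2

/-- **The equivalence.** -/
theorem hodge_square_iff {D : X.Cycles} (hD : X.IsCyc 1 D)
    (hdeg : 0 < X.V.degCycle (divPow ops D X.dim X.V.fundCycle))
    (hHL : HardLefschetz W X D) (hA : LefschetzA W X D) {f : X ⟶ X} {q : ℕ} (hq : 1 < q)
    (hF : FrobeniusOnCycles W (X.prod X) (squareMap f) q) (hS : SimpleSpectrum W X f) :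
    (RiemannHypothesis W X f q ∧ HodgeType W X D) ↔
      (KunnethStd W X ∧ HodgeType W (X.prod X) (boxSum ops D)) := by
  constructor
  · rintro ⟨hRH, hH⟩
    exact ⟨kunneth_of_rh hq hRH, hodgeType_square hD hHL hA hH (by omega) hF hRH hS⟩
  · rintro ⟨hK, hH⟩
    refine ⟨?_, hodge_of_square hD hdeg hH⟩
    have h1 := divPow_mem (ops := ops) hD X.dim X.V.fundCycle_mem
    rw [zero_add] at h1
    set b := divPow ops D X.dim X.V.fundCycle with hb
    have hb0 : W.tr X (W.cl X b) ≠ 0 := by
      rw [W.tr_cl h1]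
      exact_mod_cast hdeg.ne'
    have hbex : ∃ b : W.H X, W.tr X b ≠ 0 := ⟨_, hb0⟩
    obtain ⟨mb, hmb1, hmb⟩ := frob_single hF hbex h1
    obtain ⟨md, hmd1, hmd⟩ := frob_single hF hbex hD
    intro i
    have hM1 : 1 ≤ mb * md := Nat.mul_pos hmb1 hmd1
    apply hasWeight_of_pow hM1
    have e1 : (W.map f).toLinearMap ^ (mb * md) = (W.map (iter f (mb * md))).toLinearMap := by
      apply LinearMap.ext
      intro a
      exact (map_iter f (mb * md) a).symm
    rw [e1]
    apply weights_of_hodge hD hK hH (pow_pos (by omega) _)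
    · have := hmd mb
      rw [mul_comm md mb, mul_one] at this
      rw [this]
      push_cast; rfl
    · intro a
      refine tr_map_of_top (b := W.cl X b) (W.cl_mem h1) hb0 ?_ a
      have := hmb md
      rw [this, pow_mul]
      push_cast; rfl

end Pool.Agent.H914
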