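import Pool.Agent.H914R2.EAlg

/-!
# Algebraic linear maps between different varieties
-/

open CategoryTheory AlgebraicGeometry Finset TensorProduct

universe u v w

namespace Pool.Agent.H914

open VarClass Obj WeilCohomology

variable {k : Type u} [Field k] {𝒱 : VarClass k} {ops : CycleOps 𝒱}
  {W : WeilCohomology.{u, v} ops} {X Y Z : 𝒱.Obj}

/-- The pull-back is algebraic. -/
lemma KOp.pullback (g : Z ⟶ X) : (W.map g).toLinearMap ∈ KOp W X Z 0 := by
  have h1 : (W.map g).toLinearMap =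
      W.corr (W.cl (X.prod Z) (ops.push (Obj.lift g (𝟙 Z)) Z.V.fundCycle)) := by
    apply LinearMap.ext
    intro a
    have e1 : Obj.lift g (𝟙 Z) ≫ snd X Z = 𝟙 Z := Obj.lift_snd _ _
    have e2 : Obj.lift g (𝟙 Z) ≫ fst X Z = g := Obj.lift_fst _ _
    rw [W.cl_push, W.cl_fund, corr_apply, ← W.push_mul, ← W.push_comp, ← W.map_comp, e1, e2,
      W.push_id, one_mul]
    rfl
  rw [h1]
  refine KOp.gen (p := X.dim) (by simp) (ops.push_mem _ (SmVar.fundCycle_mem _) ?_)
  rw [dim_prod]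
  omega

/-- The functional given by an algebraic class. -/
lemma KOp.functional {l : ℕ} {v : W.H X} (hv : v ∈ algClasses W X l) :
    (W.tr X ∘ₗ LinearMap.mulLeft W.K v).smulRight (1 : W.H Z) ∈ KOp W X Z ((l : ℤ) - X.dim) := by
  obtain ⟨z, hz, rfl⟩ := hv
  have h1 : (W.tr X ∘ₗ LinearMap.mulLeft W.K (W.cl X z)).smulRight (1 : W.H Z) =
      W.corr (W.cl (X.prod Z) (ops.pull (fst X Z) z)) := by
    apply LinearMap.ext
    intro a
    rw [corr_apply, W.cl_pull, ← map_mul, push_snd']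
    rfl
  rw [h1]
  exact KOp.gen (p := l) (by ring) (ops.pull_mem _ hz)

/-- The projection `(X × Y) × Z → X × Z`. -/
noncomputable def r1 (X Y Z : 𝒱.Obj) : (X.prod Y).prod Z ⟶ X.prod Z :=
  Obj.lift (fst (X.prod Y) Z ≫ fst X Y) (snd (X.prod Y) Z)

/-- The projection `(X × Y) × Z → Y × Z`. -/
noncomputable def r2 (X Y Z : 𝒱.Obj) : (X.prod Y).prod Z ⟶ Y.prod Z :=
  Obj.lift (fst (X.prod Y) Z ≫ snd X Y) (snd (X.prod Y) Z)

lemma r1_tmul (a : W.H X) (b : W.H Z) :
    W.map (r1 X Y Z) (W.map (fst X Z) a * W.map (snd X Z) b) =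
      W.map (fst (X.prod Y) Z) (W.map (fst X Y) a) * W.map (snd (X.prod Y) Z) b := by
  have e1 : r1 X Y Z ≫ fst X Z = fst (X.prod Y) Z ≫ fst X Y := Obj.lift_fst _ _
  have e2 : r1 X Y Z ≫ snd X Z = snd (X.prod Y) Z := Obj.lift_snd _ _
  rw [map_mul (W.map (r1 X Y Z)), ← W.map_comp, ← W.map_comp, e1, e2, W.map_comp]

lemma r2_tmul (a : W.H Y) (b : W.H Z) :
    W.map (r2 X Y Z) (W.map (fst Y Z) a * W.map (snd Y Z) b) =
      W.map (fst (X.prod Y) Z) (W.map (snd X Y) a) * W.map (snd (X.prod Y) Z) b := by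
  have e1 : r2 X Y Z ≫ fst Y Z = fst (X.prod Y) Z ≫ snd X Y := Obj.lift_fst _ _
  have e2 : r2 X Y Z ≫ snd Y Z = snd (X.prod Y) Z := Obj.lift_snd _ _
  rw [map_mul (W.map (r2 X Y Z)), ← W.map_comp, ← W.map_comp, e1, e2, W.map_comp]

lemma push_mulExt (A : W.H (X.prod Z)) (B : W.H (Y.prod Z)) :
    W.push (snd (X.prod Y) Z) (W.map (r1 X Y Z) A * W.map (r2 X Y Z) B) =
      W.push (snd X Z) A * W.push (snd Y Z) B := by
  refine W.kunneth_induction (p := fun A =>
    W.push (snd (X.prod Y) Z) (W.map (r1 X Y Z) A * W.map (r2 X Y Z) B) =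
      W.push (snd X Z) A * W.push (snd Y Z) B) ?_ ?_ A
  · intro a b ha hb
    rw [map_add, add_mul, map_add, ha, hb, map_add, add_mul]
  intro i j a ha a' ha'
  refine W.kunneth_induction (p := fun B =>
    W.push (snd (X.prod Y) Z) (W.map (r1 X Y Z) (W.map (fst X Z) a * W.map (snd X Z) a') *
      W.map (r2 X Y Z) B) =
      W.push (snd X Z) (W.map (fst X Z) a * W.map (snd X Z) a') * W.push (snd Y Z) B) ?_ ?_ B
  · intro a b ha hb
    rw [map_add, mul_add, map_add, ha, hb, map_add, mul_add]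
  intro l m b hb b' _
  rw [r1_tmul, r2_tmul]
  have hsw : W.map (snd (X.prod Y) Z) a' * W.map (fst (X.prod Y) Z) (W.map (snd X Y) b) =
      (-1 : W.K) ^ (j * l) • (W.map (fst (X.prod Y) Z) (W.map (snd X Y) b) *
        W.map (snd (X.prod Y) Z) a') :=
    W.comm (W.map_mem _ ha') (W.map_mem _ (W.map_mem _ hb))
  have e1 : W.map (fst (X.prod Y) Z) (W.map (fst X Y) a) * W.map (snd (X.prod Y) Z) a' *
      (W.map (fst (X.prod Y) Z) (W.map (snd X Y) b) * W.map (snd (X.prod Y) Z) b') =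
      (-1 : W.K) ^ (j * l) • (W.map (fst (X.prod Y) Z) (W.map (fst X Y) a * W.map (snd X Y) b) *
        W.map (snd (X.prod Y) Z) (a' * b')) := by
    rw [map_mul (W.map (fst (X.prod Y) Z)), map_mul (W.map (snd (X.prod Y) Z)),
      mul_assoc, ← mul_assoc (W.map (snd (X.prod Y) Z) a'), hsw, smul_mul_assoc,
      mul_smul_comm, mul_assoc, mul_assoc]
  rw [e1, map_smul, push_snd, W.tr_prod, push_snd, push_snd, smul_mul_smul_comm, smul_smul]
  by_cases hl : l = 2 * Y.dim
  · have hs : (-1 : W.K) ^ (j * l) = 1 := by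
      rw [hl, mul_left_comm, pow_mul]
      simp
    rw [hs, one_mul]
  · rw [W.tr_eq_zero hb hl]
    simp

lemma corr_mulExt (c : W.H (X.prod Z)) {p : ℕ} {d : W.H (Y.prod Z)} (hd : d ∈ W.gr _ (2 * p))
    (a : W.H X) (b : W.H Y) :
    W.corr (W.map (r1 X Y Z) c * W.map (r2 X Y Z) d) (W.map (fst X Y) a * W.map (snd X Y) b) =
      W.corr c a * W.corr d b := by
  rw [corr_apply, corr_apply, corr_apply, ← push_mulExt]
  congr 1
  have e1 : W.map (fst (X.prod Y) Z) (W.map (fst X Y) a) =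
      W.map (r1 X Y Z) (W.map (fst X Z) a) := by
    have := r1_tmul (W := W) (Y := Y) (Z := Z) a 1
    rw [map_one, map_one, mul_one, mul_one] at this
    exact this.symm
  have e2 : W.map (fst (X.prod Y) Z) (W.map (snd X Y) b) =
      W.map (r2 X Y Z) (W.map (fst Y Z) b) := by
    have := r2_tmul (W := W) (X := X) (Z := Z) b 1
    rw [map_one, map_one, mul_one, mul_one] at this
    exact this.symm
  rw [map_mul (W.map (fst (X.prod Y) Z)), e1, e2, map_mul (W.map (r1 X Y Z)),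
    map_mul (W.map (r2 X Y Z)), mul_assoc, ← mul_assoc (W.map (r2 X Y Z) d),
    W.even_comm (W.map_mem _ hd) (W.map (r1 X Y Z) _)]
  simp only [mul_assoc]

/-- The product of two algebraic linear maps. -/
lemma KOp.mulExt {d e : ℤ} {φ : W.H X →ₗ[W.K] W.H Z} {ψ : W.H Y →ₗ[W.K] W.H Z}
    (hφ : φ ∈ KOp W X Z d) (hψ : ψ ∈ KOp W Y Z e) :
    ∃ Φ ∈ KOp W (X.prod Y) Z (d + e), ∀ a b,
      Φ (W.map (fst X Y) a * W.map (snd X Y) b) = φ a * ψ b := by
  induction hφ using Submodule.span_induction with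
  | mem x hx =>
    obtain ⟨p, hp, z, hz, rfl⟩ := hx
    induction hψ using Submodule.span_induction with
    | mem x hx =>
      obtain ⟨p', hp', w, hw, rfl⟩ := hx
      have hcyc := ops.mul_mem (ops.pull_mem (r1 X Y Z) hz) (ops.pull_mem (r2 X Y Z) hw)
      refine ⟨W.corr (W.cl _ (ops.mul (ops.pull (r1 X Y Z) z) (ops.pull (r2 X Y Z) w))),
        KOp.gen (by rw [dim_prod]; push_cast; omega) hcyc, ?_⟩
      intro a b
      rw [W.cl_mul, W.cl_pull, W.cl_pull, corr_mulExt _ (W.cl_mem hw)]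
    | zero => exact ⟨0, Submodule.zero_mem _, fun a b => by simp⟩
    | add x y _ _ hx hy =>
      obtain ⟨Φ, h1, h2⟩ := hx
      obtain ⟨Ψ, h3, h4⟩ := hy
      exact ⟨Φ + Ψ, Submodule.add_mem _ h1 h3, fun a b => by
        rw [LinearMap.add_apply, h2, h4, LinearMap.add_apply, mul_add]⟩
    | smul r x _ hx =>
      obtain ⟨Φ, h1, h2⟩ := hx
      exact ⟨r • Φ, Submodule.smul_mem _ _ h1, fun a b => by
        rw [LinearMap.smul_apply, h2, LinearMap.smul_apply, mul_smul_comm]⟩
  | zero => exact ⟨0, Submodule.zero_mem _, fun a b => by simp⟩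
  | add x y _ _ hx hy =>
    obtain ⟨Φ, h1, h2⟩ := hx
    obtain ⟨Ψ, h3, h4⟩ := hy
    exact ⟨Φ + Ψ, Submodule.add_mem _ h1 h3, fun a b => by
      rw [LinearMap.add_apply, h2, h4, LinearMap.add_apply, add_mul]⟩
  | smul r x _ hx =>
    obtain ⟨Φ, h1, h2⟩ := hx
    exact ⟨r • Φ, Submodule.smul_mem _ _ h1, fun a b => by
      rw [LinearMap.smul_apply, h2, LinearMap.smul_apply, smul_mul_assoc]⟩

/-- The homogeneous components of elements of the span of the algebraic classes. -/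
lemma algS_proj {a : W.H X} (ha : a ∈ algS W X) (r : ℕ) :
    proj (W.isInternal X) (2 * r) a ∈ spanCycles W X r := by
  induction ha using Submodule.span_induction with
  | mem a ha =>
    obtain ⟨j, hj⟩ := ha
    by_cases hjr : j = r
    · subst hjr
      rw [proj_same _ (alg_gr hj)]
      exact alg_mem_span hj
    · rw [proj_ne _ (alg_gr hj) (by omega)]
      exact Submodule.zero_mem _
  | zero => rw [map_zero]; exact Submodule.zero_mem _
  | add x y _ _ hx hy => rw [map_add]; exact Submodule.add_mem _ hx hy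
  | smul r x _ hx => rw [map_smul]; exact Submodule.smul_mem _ _ hx

lemma algS_proj_odd {a : W.H X} (ha : a ∈ algS W X) {i : ℕ} (hi : i % 2 = 1) :
    proj (W.isInternal X) i a = 0 := by
  induction ha using Submodule.span_induction with
  | mem a ha =>
    obtain ⟨j, hj⟩ := ha
    exact proj_ne _ (alg_gr hj) (by omega)
  | zero => rw [map_zero]
  | add x y _ _ hx hy => rw [map_add, hx, hy, add_zero]
  | smul r x _ hx => rw [map_smul, hx, smul_zero]

/-- Algebraic linear maps preserve the span of the algebraic classes. -/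
lemma KOp.map_algS {d : ℤ} {φ : W.H X →ₗ[W.K] W.H Y} (hφ : φ ∈ KOp W X Y d) {a : W.H X}
    (ha : a ∈ algS W X) : φ a ∈ algS W Y := by
  induction hφ using Submodule.span_induction with
  | mem x hx =>
    obtain ⟨p, -, z, hz, rfl⟩ := hx
    rw [corr_apply]
    exact algS_push _ (algS_mul (algS_of ⟨z, hz, rfl⟩) (algS_map _ ha))
  | zero => exact Submodule.zero_mem _
  | add x y _ _ hx hy => exact Submodule.add_mem _ hx hy
  | smul r x _ hx => exact Submodule.smul_mem _ _ hx

end Pool.Agent.H914
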