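import Pool.Agent.H914R2.KDefs

/-!
# The Lefschetz standard conjecture with coefficients: definitions
-/

open CategoryTheory AlgebraicGeometry

universe u v

namespace Pool.Agent.H914

open VarClass Obj WeilCohomology

variable {k : Type u} [Field k] {𝒱 : VarClass k} {ops : CycleOps 𝒱}

/-- The operator `Λ` attached to the divisor `D` is induced by a `K`-linear combination of classes
of cycles of codimension `dim X - 1` on `X × X`, where `K` is the coefficient field. -/
def LefschetzBSpan (W : WeilCohomology.{u, v} ops) (X : 𝒱.Obj) (D : X.Cycles) : Prop :=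
  ∃ γ ∈ spanCycles W (X.prod X) ((X.dim : ℤ) - 1),
    IsLam (W.gr X) X.dim (LinearMap.mulLeft W.K (W.cl X D)) (W.corr γ)

/-- There is a `K`-linear combination of classes of cycles of codimension `dim X - c` on `X × X`
which induces an injective operator on `H^(dim X + c)(X)`. -/
def SpanInjective (W : WeilCohomology.{u, v} ops) (X : 𝒱.Obj) (c : ℕ) : Prop :=
  ∃ γ ∈ spanCycles W (X.prod X) ((X.dim : ℤ) - c),
    ∀ x ∈ W.gr X (X.dim + c), W.corr γ x = 0 → x = 0

end Pool.Agent.H914
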