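import Mathlib

/-!
# Polynomials for the powers of an operator
-/

open Polynomial TensorProduct

namespace Pool.Agent.H914

/-- A squarefree characteristic polynomial divides every annihilating polynomial. -/
lemma charpoly_dvd_of_squarefree {K : Type*} [Field K] [CharZero K] {V : Type*} [AddCommGroup V]
    [Module K V] [Module.Finite K V] {A : Module.End K V} (hsq : Squarefree A.charpoly)
    {Q : K[X]} (hQ : aeval A Q = 0) : A.charpoly ∣ Q := by
  classical
  by_cases hQ0 : Q = 0
  · rw [hQ0]; exact dvd_zero _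
  set Kb := AlgebraicClosure K with hKb
  have hsep : A.charpoly.Separable := by
    rw [PerfectField.separable_iff_squarefree]; exact hsq
  have hroots : ∀ z : Kb, (A.charpoly.map (algebraMap K Kb)).IsRoot z →
      (Q.map (algebraMap K Kb)).IsRoot z := by
    intro z hz
    rw [← LinearMap.charpoly_baseChange] at hz
    have h1 := (Module.End.hasEigenvalue_iff_isRoot_charpoly
      (A.baseChange Kb : Module.End Kb (Kb ⊗[K] V)) z).2 hz
    obtain ⟨v, hv⟩ := h1.exists_hasEigenvector
    have h2 : aeval (A.baseChange Kb : Module.End Kb (Kb ⊗[K] V)) (Q.map (algebraMap K Kb)) = 0 := by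
      have h3 := Polynomial.aeval_map_algebraMap (A := Kb)
        (A.baseChange Kb : Module.End Kb (Kb ⊗[K] V)) Q
      rw [h3]
      have h4 : aeval (A.baseChange Kb : Module.End Kb (Kb ⊗[K] V)) Q =
          Module.End.baseChangeHom K Kb V (aeval A Q) := by
        rw [← Polynomial.aeval_algHom_apply]
        rfl
      rw [h4, hQ, map_zero]
    have h5 := Module.End.aeval_apply_of_hasEigenvector (p := Q.map (algebraMap K Kb)) hv
    rw [h2, LinearMap.zero_apply] at h5
    rcases smul_eq_zero.1 h5.symm with h6 | h6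
    · exact h6
    · exact absurd h6 hv.2
  rw [← Polynomial.map_dvd_map' (algebraMap K Kb)]
  have hmap0 : Q.map (algebraMap K Kb) ≠ 0 := by
    rwa [Ne, Polynomial.map_eq_zero]
  have hsplit := IsAlgClosed.splits (A.charpoly.map (algebraMap K Kb))
  have hnd : (A.charpoly.map (algebraMap K Kb)).roots.Nodup := nodup_roots hsep.map
  have hmonic : (A.charpoly.map (algebraMap K Kb)).Monic := (LinearMap.charpoly_monic A).map _
  have e1 := hsplit.eq_prod_roots_of_monic hmonic
  rw [e1, Multiset.prod_X_sub_C_dvd_iff_le_roots hmap0]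
  rw [Multiset.le_iff_subset hnd]
  intro z hz
  rw [mem_roots hmap0]
  exact hroots z (isRoot_of_mem_roots hz)

/-- The `m`-th powers of the roots of a rational polynomial. -/
lemma exists_pow_poly (P : ℚ[X]) (hP : P ≠ 0) (m : ℕ) :
    ∃ R : ℚ[X], R ≠ 0 ∧ P ∣ R.comp (X ^ m) ∧
      ∀ z : ℂ, aeval z R = 0 → ∃ a : ℂ, aeval a P = 0 ∧ a ^ m = z := by
  classical
  by_cases hdeg : P.natDegree = 0
  · refine ⟨1, one_ne_zero, ?_, ?_⟩
    · obtain ⟨c, hc⟩ := natDegree_eq_zero.1 hdeg
      have hc0 : c ≠ 0 := by rintro rfl; apply hP; rw [← hc, C_0]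
      rw [← hc]
      exact (isUnit_C.2 (isUnit_iff_ne_zero.2 hc0)).dvd
    · intro z hz
      simp at hz
  -- the companion operator
  set A₀ := AdjoinRoot P with hA₀
  have hfin : Module.Finite ℚ A₀ := (AdjoinRoot.powerBasis hP).finite
  set x : A₀ := AdjoinRoot.root P with hx
  set M : Module.End ℚ A₀ := LinearMap.mulLeft ℚ x with hM
  have hMP : aeval M P = 0 := by
    apply LinearMap.ext
    intro y
    have h1 : ∀ p : ℚ[X], aeval M p = LinearMap.mulLeft ℚ (aeval x p) := by
      intro p
      have : aeval (Algebra.lmul ℚ A₀ x) p = Algebra.lmul ℚ A₀ (aeval x p) :=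
        Polynomial.aeval_algHom_apply _ _ _
      exact this
    rw [h1, AdjoinRoot.aeval_eq, AdjoinRoot.mk_self]
    simp
  refine ⟨(M ^ m).charpoly, (LinearMap.charpoly_monic _).ne_zero, ?_, ?_⟩
  · rw [← AdjoinRoot.mk_eq_zero, ← AdjoinRoot.aeval_eq]
    have h1 : ∀ p : ℚ[X], aeval M p = LinearMap.mulLeft ℚ (aeval x p) := by
      intro p
      have : aeval (Algebra.lmul ℚ A₀ x) p = Algebra.lmul ℚ A₀ (aeval x p) :=
        Polynomial.aeval_algHom_apply _ _ _
      exact this
    have h2 : aeval M ((M ^ m).charpoly.comp (X ^ m)) = 0 := by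
      rw [Polynomial.aeval_comp, map_pow, aeval_X]
      exact LinearMap.aeval_self_charpoly _
    rw [h1] at h2
    have h3 : LinearMap.mulLeft ℚ (aeval x ((M ^ m).charpoly.comp (X ^ m))) 1 = 0 := by
      rw [h2]; rfl
    rw [LinearMap.mulLeft_apply, mul_one] at h3
    exact h3
  · intro z hz
    have hz' : ((M ^ m).charpoly.map (algebraMap ℚ ℂ)).IsRoot z := by
      rw [IsRoot, eval_map_algebraMap]; exact hz
    rw [← LinearMap.charpoly_baseChange] at hz'
    have h1 := (Module.End.hasEigenvalue_iff_isRoot_charpoly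
      ((M ^ m).baseChange ℂ : Module.End ℂ (ℂ ⊗[ℚ] A₀)) z).2 hz'
    set M₁ : Module.End ℂ (ℂ ⊗[ℚ] A₀) := M.baseChange ℂ with hM₁
    have hpow : ((M ^ m).baseChange ℂ : Module.End ℂ (ℂ ⊗[ℚ] A₀)) = M₁ ^ m := by
      have : Module.End.baseChangeHom ℚ ℂ A₀ (M ^ m) = (Module.End.baseChangeHom ℚ ℂ A₀ M) ^ m :=
        map_pow _ _ _
      exact this
    rw [hpow] at h1
    set E := Module.End.eigenspace (M₁ ^ m) z with hE
    have hEnt : Nontrivial E := by
      rw [Submodule.nontrivial_iff_ne_bot]
      exact h1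
    have hstab : ∀ v ∈ E, M₁ v ∈ E := by
      intro v hv
      rw [Module.End.mem_eigenspace_iff] at hv ⊢
      rw [← Module.End.mul_apply, ← pow_succ, pow_succ', Module.End.mul_apply, hv, map_smul]
    obtain ⟨a, ha⟩ := Module.End.exists_eigenvalue (M₁.restrict hstab)
    obtain ⟨v, hv⟩ := ha.exists_hasEigenvector
    have hv1 : M₁ v = a • (v : ℂ ⊗[ℚ] A₀) := by
      have := congrArg Subtype.val hv.apply_eq_smul
      exact this
    have hv0 : (v : ℂ ⊗[ℚ] A₀) ≠ 0 := fun h => hv.2 (Subtype.ext h)
    have hvec : M₁.HasEigenvector a v := by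
      rw [Module.End.hasEigenvector_iff, Module.End.mem_eigenspace_iff]
      exact ⟨hv1, hv0⟩
    refine ⟨a, ?_, ?_⟩
    · have h2 : aeval M₁ (P.map (algebraMap ℚ ℂ)) = 0 := by
        rw [Polynomial.aeval_map_algebraMap]
        have h4 : aeval M₁ P = Module.End.baseChangeHom ℚ ℂ A₀ (aeval M P) := by
          rw [← Polynomial.aeval_algHom_apply]
          rfl
        rw [h4, hMP, map_zero]
      have h5 := Module.End.aeval_apply_of_hasEigenvector (p := P.map (algebraMap ℚ ℂ)) hvec
      rw [h2, LinearMap.zero_apply] at h5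
      rcases smul_eq_zero.1 h5.symm with h6 | h6
      · rw [eval_map_algebraMap] at h6; exact h6
      · exact absurd h6 hv0
    · have h2 : ∀ k : ℕ, (M₁ ^ k) v = a ^ k • (v : ℂ ⊗[ℚ] A₀) := by
        intro k
        induction k with
        | zero => simp
        | succ k ih => rw [pow_succ', Module.End.mul_apply, ih, map_smul, hv1, smul_smul, pow_succ]
      have h3 := Module.End.mem_eigenspace_iff.1 v.2
      rw [h2 m] at h3
      exact smul_left_injective ℂ hv0 h3

end Pool.Agent.H914
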