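import Pool.Agent.H914R2.BAlg
import Pool.Agent.H914R2.CPart
import Pool.Agent.H914R2.GBasic
import Pool.Agent.H914R2.EHom

/-!
# Nondegeneracy of the super trace for correspondences
-/

open CategoryTheory AlgebraicGeometry Finset

universe u v w

namespace Pool.Agent.H914

open VarClass Obj WeilCohomology

variable {k : Type u} [Field k] {𝒱 : VarClass k} {ops : CycleOps 𝒱}
  {W : WeilCohomology.{u, v} ops} {X Y Z : 𝒱.Obj}

lemma corr_isHom' {q : ℕ} {c : W.H (X.prod Y)} (hc : c ∈ W.gr (X.prod Y) (2 * q)) :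
    ∀ i : ℤ, ∀ a ∈ grZ (W.gr X) i, W.corr c a ∈ grZ (W.gr Y) (i + 2 * ((q : ℤ) - X.dim)) := by
  intro i a ha
  by_cases hi : 0 ≤ i
  · lift i to ℕ using hi
    rw [grZ_natCast] at ha
    have h1 := W.push_mem (snd X Y) (W.mul_mem hc (W.map_mem (fst X Y) ha))
    rw [corr_apply]
    have e : ((2 * q + i : ℕ) : ℤ) + 2 * ((Y.dim : ℤ) - (X.prod Y).dim) =
        (i : ℤ) + 2 * ((q : ℤ) - X.dim) := by
      rw [dim_prod]; push_cast; ring
    rwa [e] at h1
  · rw [grZ_of_neg (by omega)] at ha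
    rw [(Submodule.mem_bot _).1 ha, map_zero]
    exact Submodule.zero_mem _

/-- The intersection number of two correspondences is a super trace. -/
theorem tr_mul_eq_trace' {p : ℕ} {c : W.H (X.prod Y)} (hc : c ∈ W.gr _ (2 * p))
    (d : W.H (X.prod Y)) :
    W.tr (X.prod Y) (c * d) = LinearMap.trace W.K (W.H Y)
      (par (W.isInternal Y) ∘ₗ W.corr c ∘ₗ W.corr (W.map (swap Y X) d)) := by
  refine W.kunneth_induction (p := fun d => W.tr (X.prod Y) (c * d) =
    LinearMap.trace W.K (W.H Y)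
      (par (W.isInternal Y) ∘ₗ W.corr c ∘ₗ W.corr (W.map (swap Y X) d))) ?_ ?_ d
  · intro a b ha hb
    rw [mul_add, map_add, map_add, corr_add, LinearMap.comp_add, LinearMap.comp_add, map_add,
      ha, hb]
  · intro i j a ha b hb
    rw [corr_swap_tmul ha hb]
    have h1 : par (W.isInternal Y) ∘ₗ W.corr c ∘ₗ
        (W.tr Y ∘ₗ LinearMap.mulLeft W.K b).smulRight a =
        (W.tr Y ∘ₗ LinearMap.mulLeft W.K b).smulRight (par (W.isInternal Y) (W.corr c a)) := by
      apply LinearMap.ext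
      intro y
      rw [LinearMap.comp_apply, LinearMap.comp_apply, LinearMap.smulRight_apply,
        LinearMap.smulRight_apply, map_smul, map_smul]
    rw [h1, LinearMap.trace_smulRight, LinearMap.comp_apply, LinearMap.mulLeft_apply]
    have e1 : W.tr (X.prod Y) (c * (W.map (fst X Y) a * W.map (snd X Y) b)) =
        W.tr Y (W.corr c a * b) := by
      rw [corr_apply, W.tr_push, mul_assoc]
    rw [e1]
    have h2 := corr_isHom' hc i a (by rw [grZ_natCast]; exact ha)
    by_cases hm : ∃ m : ℕ, (m : ℤ) = (i : ℤ) + 2 * ((p : ℤ) - X.dim)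
    · obtain ⟨m, hm⟩ := hm
      rw [← hm, grZ_natCast] at h2
      rw [par, scal_apply _ _ h2, mul_smul_comm, map_smul, W.comm hb h2, map_smul, smul_eq_mul,
        smul_eq_mul]
      by_cases hj : m + j = 2 * Y.dim
      · have hev : Even (m + j * m) := by
          have : m + j * m = m * (j + 1) := by ring
          rw [this]
          rcases Nat.even_or_odd m with h | h
          · exact h.mul_right _
          · apply Even.mul_left
            have : Odd j := by
              rcases Nat.even_or_odd j with h' | h'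
              · exfalso
                have := h.add_even h'
                rw [hj] at this
                exact (Nat.not_even_iff_odd.2 this) (even_two_mul _)
              · exact h'
            exact this.add_one
        rw [← mul_assoc, ← pow_add, hev.neg_one_pow, one_mul]
      · rw [W.tr_eq_zero (W.mul_mem h2 hb) hj, mul_zero, mul_zero]
    · push Not at hm
      by_cases hneg : (i : ℤ) + 2 * ((p : ℤ) - X.dim) < 0
      · rw [grZ_of_neg hneg] at h2
        rw [(Submodule.mem_bot _).1 h2]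
        simp
      · exact absurd (Int.toNat_of_nonneg (by omega)) (hm _)

/-- The super trace pairing between the algebraic correspondences from `X` to `Y` and from `Y` to
`X` is nondegenerate on the left. -/
def TrNondeg (W : WeilCohomology.{u, v} ops) (X Y : 𝒱.Obj) : Prop :=
  ∀ (d : ℤ), ∀ u ∈ KOp W X Y d, (∀ v ∈ KOp W Y X (-d), LinearMap.trace W.K (W.H Y)
    (par (W.isInternal Y) ∘ₗ u ∘ₗ v) = 0) → u = 0

lemma spanCycles_neg {l : ℤ} (hl : l < 0) {u : W.H X} (hu : u ∈ spanCycles W X l) : u = 0 := by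
  have h1 : spanCycles W X l = ⊥ := by
    rw [spanCycles, Submodule.span_eq_bot]
    rintro x ⟨p, hp, -⟩
    omega
  rw [h1] at hu
  exact (Submodule.mem_bot _).1 hu

theorem HomEqNum.trNondeg (hD : HomEqNum W (X.prod Y)) : TrNondeg W X Y := by
  intro d u hu h
  obtain ⟨γ, hγ, rfl⟩ := mem_KOp_iff.1 hu
  by_cases hneg : (X.dim : ℤ) + d < 0
  · rw [spanCycles_neg hneg hγ, corr_zero]
  · obtain ⟨l, hl⟩ : ∃ l : ℕ, (l : ℤ) = X.dim + d := ⟨((X.dim : ℤ) + d).toNat, by omega⟩
    rw [← hl] at hγ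
    by_cases hbig : (X.prod Y).dim < l
    · have h1 := span_gr hγ
      rw [W.gr_eq_bot _ _ (by omega)] at h1
      rw [(Submodule.mem_bot _).1 h1, corr_zero]
    · have hγ0 : γ = 0 := by
        refine cNondeg hD (l' := (X.prod Y).dim - l) (by omega) hγ ?_
        rintro _ ⟨z, hz, rfl⟩
        rw [bil_apply, tr_mul_eq_trace' (span_gr hγ)]
        apply h
        rw [← W.cl_pull]
        refine KOp.gen (p := (X.prod Y).dim - l) ?_ (ops.pull_mem _ hz)
        rw [dim_prod] at hbig ⊢
        omega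
      rw [hγ0, corr_zero]

/-- Operators in `KOp` commute with the parity operators. -/
lemma KOp.par_comm {d : ℤ} {φ : W.H X →ₗ[W.K] W.H Y} (hφ : φ ∈ KOp W X Y d) :
    par (W.isInternal Y) ∘ₗ φ = φ ∘ₗ par (W.isInternal X) := by
  apply gr_ext (W.isInternal X)
  intro i a ha
  have h1 := KOp.isHom hφ i a (by rw [grZ_natCast]; exact ha)
  rw [LinearMap.comp_apply, LinearMap.comp_apply, par, par, scal_apply _ _ ha, map_smul]
  by_cases hm : ∃ m : ℕ, (m : ℤ) = (i : ℤ) + 2 * d
  · obtain ⟨m, hm⟩ := hm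
    rw [← hm, grZ_natCast] at h1
    rw [scal_apply _ _ h1]
    congr 1
    rcases Nat.even_or_odd m with h | h
    · have : Even i := by
        obtain ⟨r, hr⟩ := h
        rw [Nat.even_iff]
        omega
      rw [h.neg_one_pow, this.neg_one_pow]
    · have : Odd i := by
        obtain ⟨r, hr⟩ := h
        rw [Nat.odd_iff]
        omega
      rw [h.neg_one_pow, this.neg_one_pow]
  · push Not at hm
    by_cases hneg : (i : ℤ) + 2 * d < 0
    · rw [grZ_of_neg hneg] at h1
      rw [(Submodule.mem_bot _).1 h1, map_zero, smul_zero]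
    · exact absurd (Int.toNat_of_nonneg (by omega)) (hm _)

/-- If finitely many operators are jointly injective, their adjoints are jointly surjective. -/
lemma eq_zero_of_adjoints {κ : Type*} {Q : κ → 𝒱.Obj} {φ : ∀ t, W.H Y →ₗ[W.K] W.H (Q t)}
    {ψ : ∀ t, W.H (Q t) →ₗ[W.K] W.H Y}
    (hadj : ∀ t a b, W.tr (Q t) (φ t a * b) = W.tr Y (a * ψ t b))
    (hinj : ∀ a, (∀ t, φ t a = 0) → a = 0) {V : Type*} [AddCommGroup V] [Module W.K V]
    {u : W.H Y →ₗ[W.K] V} (hu : ∀ t, u ∘ₗ ψ t = 0) : u = 0 := by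
  have hbij : Function.Bijective (bil W Y) := by
    have hinj' : Function.Injective (bil W Y) := by
      rw [← LinearMap.ker_eq_bot, LinearMap.ker_eq_bot']
      intro a ha
      apply W.nondeg
      intro b
      exact congrArg (fun F => F b) ha
    have hfr : Module.finrank W.K (W.H Y) = Module.finrank W.K (W.H Y →ₗ[W.K] W.K) :=
      Subspace.dual_finrank_eq.symm
    exact ⟨hinj', (LinearMap.injective_iff_surjective_of_finrank_eq_finrank hfr).1 hinj'⟩
  set R : Submodule W.K (W.H Y) := ⨆ t, LinearMap.range (ψ t) with hR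
  have htop : R = ⊤ := by
    by_contra hne
    obtain ⟨ℓ, hℓ, hℓR⟩ := Submodule.exists_le_ker_of_lt_top R (lt_top_iff_ne_top.2 hne)
    obtain ⟨x, hx⟩ := hbij.2 ℓ
    apply hℓ
    have hx0 : x = 0 := by
      apply hinj
      intro t
      apply W.nondeg
      intro b
      rw [hadj]
      have h1 : ψ t b ∈ LinearMap.ker ℓ :=
        hℓR ((le_iSup (fun t => LinearMap.range (ψ t)) t) ⟨b, rfl⟩)
      rw [LinearMap.mem_ker, ← hx] at h1
      exact h1
    rw [← hx, hx0, map_zero]
  apply LinearMap.ext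
  intro a
  have ha : a ∈ R := by rw [htop]; exact Submodule.mem_top
  induction ha using Submodule.iSup_induction' with
  | mem t x hx =>
    obtain ⟨y, rfl⟩ := hx
    exact congrArg (fun F => F y) (hu t)
  | zero => rw [map_zero, LinearMap.zero_apply]
  | add x y _ _ h1 h2 => rw [map_add, h1, h2, LinearMap.zero_apply, LinearMap.zero_apply,
      LinearMap.zero_apply, add_zero]

/-- **Transfer of nondegeneracy.** -/
theorem TrNondeg.of_embeds {κ : Type*} {Q : κ → 𝒱.Obj} {φ : ∀ t, W.H Y →ₗ[W.K] W.H (Q t)}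
    {e : κ → ℤ} (hφ : ∀ t, φ t ∈ KOp W Y (Q t) (e t)) (hinj : ∀ a, (∀ t, φ t a = 0) → a = 0)
    (hQ : ∀ t t', TrNondeg W (Q t) (Q t')) : TrNondeg W Y Y := by
  choose ψ hψ hadj using fun t => KOp.exists_adjoint (hφ t)
  intro d u hu h
  refine eq_zero_of_adjoints hadj hinj (fun t => ?_)
  have key : ∀ t', φ t' ∘ₗ u ∘ₗ ψ t = 0 := by
    intro t'
    refine hQ t t' _ _ (KOp.comp (hφ t') (KOp.comp hu (hψ t))) ?_
    intro v hv
    have h1 : LinearMap.trace W.K (W.H (Q t')) (par (W.isInternal (Q t')) ∘ₗ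
        (φ t' ∘ₗ u ∘ₗ ψ t) ∘ₗ v) = LinearMap.trace W.K (W.H Y) (par (W.isInternal Y) ∘ₗ
          u ∘ₗ (ψ t ∘ₗ v ∘ₗ φ t')) := by
      have e1 : par (W.isInternal (Q t')) ∘ₗ (φ t' ∘ₗ u ∘ₗ ψ t) ∘ₗ v =
          φ t' ∘ₗ (par (W.isInternal Y) ∘ₗ u ∘ₗ ψ t ∘ₗ v) := by
        have := KOp.par_comm (hφ t')
        calc _ = (par (W.isInternal (Q t')) ∘ₗ φ t') ∘ₗ (u ∘ₗ ψ t ∘ₗ v) := rfl
          _ = _ := by rw [this]; rfl
      rw [e1]
      exact (LinearMap.trace_comp_comm' (φ t') (par (W.isInternal Y) ∘ₗ u ∘ₗ ψ t ∘ₗ v)).symm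
    rw [h1]
    apply h
    exact KOp.cast (KOp.comp (hψ t) (KOp.comp hv (hφ t'))) (by ring)
  apply LinearMap.ext
  intro a
  rw [LinearMap.zero_apply]
  apply hinj
  intro t'
  exact congrArg (fun F => F a) (key t')

end Pool.Agent.H914
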