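import Pool.Agent.H914R2.XBlocks
import Pool.Agent.H914R2.TBase

/-!
# Operators commuting with an operator with simple spectrum
-/

open Finset TensorProduct Polynomial

namespace Pool.Agent.H914

section

variable {K : Type*} [Field K] {V : Type*} [AddCommGroup V] [Module K V]

lemma slice_add {L : Type*} [Field L] [Algebra K L] (l : L →ₗ[K] K)
    (A B : Module.End L (L ⊗[K] V)) : slice l (A + B) = slice l A + slice l B := by
  apply LinearMap.ext
  intro v
  rw [slice_apply, LinearMap.add_apply, map_add, LinearMap.add_apply, slice_apply, slice_apply]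

lemma slice_smul {L : Type*} [Field L] [Algebra K L] (l : L →ₗ[K] K) (c : L)
    (Z : Module.End K V) : slice l (c • Z.baseChange L) = l c • Z := by
  apply LinearMap.ext
  intro v
  rw [slice_apply, LinearMap.smul_apply, LinearMap.baseChange_tmul, TensorProduct.smul_tmul',
    smul_eq_mul, mul_one, coeffs_tmul, LinearMap.smul_apply]

variable [CharZero K] [Module.Finite K V]

/-- The commutant of an operator with simple spectrum. -/
theorem comm_poly {G U : Module.End K V} (hG : HasSimple G) (hU : U * G = G * U) :
    ∃ p : K[X], U = aeval G p := by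
  classical
  set L := AlgebraicClosure K with hL
  obtain ⟨S, b, hb⟩ := exists_eigenbasis L hG
  have hcomm : U.baseChange L * G.baseChange L = G.baseChange L * U.baseChange L := by
    rw [← bc_mul, ← bc_mul, hU]
  have hUb : ∀ i : S, ∃ u : L, U.baseChange L (b i) = u • b i := by
    intro i
    apply eig_unique (G := G.baseChange L) hb Subtype.coe_injective
    have h1 := congrArg (fun Z => Z (b i)) hcomm
    beta_reduce at h1
    rw [Module.End.mul_apply, Module.End.mul_apply, hb, map_smul] at h1
    exact h1.symm
  choose u hu using hUb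
  set r : L[X] := Lagrange.interpolate S id (fun x => if h : x ∈ S then u ⟨x, h⟩ else 0) with hr
  have hre : ∀ i : S, r.eval (i : L) = u i := by
    intro i
    have h1 := Lagrange.eval_interpolate_at_node (s := S) (v := (id : L → L))
      (fun x => if h : x ∈ S then u ⟨x, h⟩ else 0) (Set.injOn_id _) i.2
    rw [id_eq] at h1
    rw [hr, h1, dif_pos i.2]
  have hUr : U.baseChange L = aeval (G.baseChange L) r := by
    apply b.ext
    intro i
    rw [hu, poly_eigen (hb i), hre]
  obtain ⟨l, hl⟩ := (Algebra.linearMap K L).exists_leftInverse_of_injective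
    (LinearMap.ker_eq_bot.2 (algebraMap K L).injective)
  have hl1 : l 1 = 1 := by
    have := congrArg (fun F => F (1 : K)) hl
    simpa using this
  have h1 : slice l (U.baseChange L) = U := by
    have := slice_smul l 1 U
    rwa [one_smul, hl1, one_smul] at this
  have h2 : ∀ r : L[X], ∃ p : K[X], slice l (aeval (G.baseChange L) r) = aeval G p := by
    intro r
    induction r using Polynomial.induction_on' with
    | add p q hp hq =>
      obtain ⟨p', hp'⟩ := hp
      obtain ⟨q', hq'⟩ := hq
      exact ⟨p' + q', by rw [map_add, slice_add, hp', hq', map_add]⟩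
    | monomial k c =>
      refine ⟨monomial k (l c), ?_⟩
      rw [aeval_monomial, aeval_monomial, ← Algebra.smul_def, ← Algebra.smul_def, ← bc_pow,
        slice_smul]
  obtain ⟨p, hp⟩ := h2 r
  exact ⟨p, by rw [← hp, ← hUr, h1]⟩

/-- Simple spectrum of all powers: the commutant. -/
theorem SimpleOn.commutantIn {F : Module.End K V} {U : Submodule K V} (h : SimpleOn F U)
    {gr : ℕ → Submodule K V} {E : Submodule K (Module.End K V)}
    (hE : ∀ (m : ℕ) (p : K[X]), aeval (F ^ m) p ∈ E) : CommIn gr F U E := by
  obtain ⟨hst, hsq⟩ := h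
  intro m hm Z _ hZU hZF
  set A := F.restrict hst with hA
  have hApow : ∀ (i : ℕ) (y : U), ((A ^ i) y : V) = (F ^ i) y := fun i y => restrict_pow hst i y
  have hst' : ∀ a ∈ U, (F ^ m) a ∈ U := fun a ha => by
    rw [← hApow m ⟨a, ha⟩]; exact Subtype.mem _
  have hAm : A ^ m = (F ^ m).restrict hst' := by
    apply LinearMap.ext
    intro y
    apply Subtype.ext
    exact hApow m y
  have hsimple : HasSimple (A ^ m) := by
    refine ⟨(A ^ m).charpoly, hsq m hm, LinearMap.charpoly_natDegree _, ?_⟩
    intro Q hQ
    exact charpoly_dvd_of_squarefree (hsq m hm) hQ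
  obtain ⟨p, hp⟩ := comm_poly (U := Z.restrict hZU) hsimple (by
    apply LinearMap.ext
    intro y
    apply Subtype.ext
    have h1 := hZF y y.2
    rw [hAm]
    exact h1)
  refine ⟨aeval (F ^ m) p, hE m p, fun a ha => ?_⟩
  have h1 := congrArg (fun Y => ((Y ⟨a, ha⟩ : U) : V)) hp
  beta_reduce at h1
  rw [hAm, restrict_aeval] at h1
  exact h1

theorem SimpleOn.semisimpleOn {F : Module.End K V} {U : Submodule K V} (h : SimpleOn F U) :
    SemisimpleOn F U := by
  obtain ⟨hst, hsq⟩ := h
  have h1 := hsq 1 le_rfl
  rw [pow_one] at h1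
  refine ⟨_, h1, fun a ha => ?_⟩
  have h2 := LinearMap.aeval_self_charpoly (F.restrict hst)
  have h3 := congrArg (fun Y => ((Y ⟨a, ha⟩ : U) : V)) h2
  beta_reduce at h3
  rw [restrict_aeval] at h3
  exact h3

end

end Pool.Agent.H914
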