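import Mathlib

/-!
# Linear algebra preliminaries: traces, nilpotency and polynomials
-/

open Polynomial LinearMap

universe v

namespace Pool.Agent.H914

section Field

variable {K : Type*} [Field K] {V : Type*} [AddCommGroup V] [Module K V] [Module.Finite K V]

/-- The trace of an idempotent is its rank. -/
lemma trace_idem {e : Module.End K V} (he : e * e = e) :
    LinearMap.trace K V e = (Module.finrank K (LinearMap.range e) : K) := by
  have h : IsIdempotentElem e := he
  exact (LinearMap.IsIdempotentElem.isProj_range e h).trace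

lemma eq_zero_of_idem_of_trace_eq_zero [CharZero K] {e : Module.End K V} (he : e * e = e)
    (h : LinearMap.trace K V e = 0) : e = 0 := by
  have h' : IsIdempotentElem e := he
  exact (LinearMap.IsIdempotentElem.trace_eq_zero_iff h').1 h

/-- A splitting of the identity attached to an endomorphism `q`: a polynomial `w` with `w(0) = 1`
such that `w(q)` is idempotent and killed by a power of `q`. -/
lemma exists_fitting (q : Module.End K V) : ∃ (w : K[X]) (k : ℕ), w.eval 0 = 1 ∧
    aeval q w * aeval q w = aeval q w ∧ q ^ k * aeval q w = 0 ∧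
    ∃ g : K[X], 1 - w = X * g := by
  set p : K[X] := X * minpoly K q with hp
  have hm0 : minpoly K q ≠ 0 := minpoly.ne_zero (Algebra.IsIntegral.isIntegral q)
  have hp0 : p ≠ 0 := mul_ne_zero X_ne_zero hm0
  obtain ⟨m', hm', hnd⟩ := Polynomial.exists_eq_pow_rootMultiplicity_mul_and_not_dvd p hp0 0
  set k := p.rootMultiplicity 0 with hk
  rw [C_0, sub_zero] at hm' hnd
  have hroot : p.IsRoot 0 := by simp [hp, Polynomial.IsRoot.def]
  have hk1 : 1 ≤ k := (Polynomial.rootMultiplicity_pos hp0).2 hroot
  have hcop : IsCoprime ((X : K[X]) ^ k) m' := by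
    apply IsCoprime.pow_left
    exact (Polynomial.irreducible_X.coprime_iff_not_dvd).2 hnd
  obtain ⟨u, v, huv⟩ := hcop
  have hpq : aeval q p = 0 := by
    rw [hp, map_mul, minpoly.aeval, mul_zero]
  refine ⟨v * m', k, ?_, ?_, ?_, ?_⟩
  · have h1 : v * m' = 1 - u * X ^ k := by rw [← huv]; ring
    rw [h1]
    have : k ≠ 0 := by omega
    simp [this]
  · rw [← map_mul, ← sub_eq_zero, ← map_sub]
    have h1 : v * m' * (v * m') - v * m' = - (u * v) * p := by
      have h2 : v * m' = 1 - u * X ^ k := by rw [← huv]; ring
      calc v * m' * (v * m') - v * m' = v * m' * (v * m' - 1) := by ring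
        _ = v * m' * ((1 - u * X ^ k) - 1) := by rw [← h2]
        _ = - (u * v) * (X ^ k * m') := by ring
        _ = _ := by rw [← hm']
    rw [h1, map_mul, hpq, mul_zero]
  · have h1 : q ^ k * aeval q (v * m') = aeval q (v * p) := by
      conv_rhs => rw [hm']
      rw [show v * (X ^ k * m') = X ^ k * (v * m') by ring, map_mul (aeval q) (X ^ k), map_pow,
        aeval_X]
    rw [h1, map_mul, hpq, mul_zero]
  · refine ⟨u * X ^ (k - 1), ?_⟩
    have : k = (k - 1) + 1 := by omega
    have h2 : 1 - v * m' = u * X ^ k := by rw [← huv]; ring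
    rw [h2]
    conv_lhs => rw [this]
    ring

/-- An endomorphism all of whose positive powers have vanishing trace is nilpotent. -/
lemma isNilpotent_of_trace_pow [CharZero K] (y : Module.End K V)
    (h : ∀ r : ℕ, LinearMap.trace K V (y ^ (r + 1)) = 0) : IsNilpotent y := by
  obtain ⟨w, k, hw0, hw, hkw, g, hg⟩ := exists_fitting y
  have hgen : ∀ g : K[X], LinearMap.trace K V (y * aeval y g) = 0 := by
    intro g
    induction g using Polynomial.induction_on' with
    | add p q hp hq => rw [map_add, mul_add, map_add, hp, hq, add_zero]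
    | monomial r c =>
      rw [aeval_monomial]
      have : y * ((algebraMap K (Module.End K V)) c * y ^ r) = c • y ^ (r + 1) := by
        rw [Algebra.algebraMap_eq_smul_one, smul_mul_assoc, one_mul, mul_smul_comm, ← pow_succ']
      rw [this, map_smul, h, smul_zero]
  have htr : LinearMap.trace K V (aeval y (1 - w)) = 0 := by
    rw [hg, map_mul, aeval_X]; exact hgen g
  have hid : aeval y (1 - w) * aeval y (1 - w) = aeval y (1 - w) := by
    rw [map_sub, map_one, mul_sub, sub_mul, sub_mul, hw]
    simp
  have h0 : aeval y (1 - w) = 0 := eq_zero_of_idem_of_trace_eq_zero hid htr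
  rw [map_sub, map_one, sub_eq_zero] at h0
  refine ⟨k, ?_⟩
  rw [← h0, mul_one] at hkw
  exact hkw

end Field

end Pool.Agent.H914
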