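import Pool.Agent.H914R2.Core0

/-!
# Rational spectral projectors
-/

open Polynomial Finset

namespace Pool.Agent.H914

section Poly

/-- The nodes `i - n`, `0 ≤ i ≤ 2n`. -/
def node (n : ℕ) (i : ℕ) : ℚ := (i : ℚ) - n

lemma node_inj {n i j : ℕ} (h : i ≠ j) : node n i ≠ node n j := by
  unfold node
  intro h'
  apply h
  have : (i : ℚ) = j := by linarith
  exact_mod_cast this

/-- The nodal polynomial. -/
noncomputable def nodal (n : ℕ) : ℚ[X] := ∏ i ∈ range (2 * n + 1), (X - C (node n i))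

/-- The Lagrange interpolation polynomial. -/
noncomputable def lag (n i : ℕ) : ℚ[X] :=
  ∏ j ∈ (range (2 * n + 1)).erase i, (C ((node n i - node n j)⁻¹) * (X - C (node n j)))

/-- Rational polynomials which are `1` near the node `i` and `0` near the other nodes, to
order `N`. -/
noncomputable def herm (n N i : ℕ) : ℚ[X] := 1 - (1 - lag n i ^ N) ^ N

lemma lag_self (n i : ℕ) : (X - C (node n i)) ∣ lag n i - 1 := by
  rw [Polynomial.dvd_iff_isRoot]
  simp only [IsRoot.def, eval_sub, eval_one, lag, eval_prod, eval_mul, eval_C, eval_X]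
  rw [sub_eq_zero]
  apply Finset.prod_eq_one
  intro j hj
  rw [Finset.mem_erase] at hj
  apply inv_mul_cancel₀
  rw [sub_ne_zero]
  exact node_inj (Ne.symm hj.1)

lemma lag_ne {n i j : ℕ} (hj : j ∈ range (2 * n + 1)) (hij : j ≠ i) :
    (X - C (node n j)) ∣ lag n i := by
  unfold lag
  apply dvd_trans _ (Finset.dvd_prod_of_mem _ (Finset.mem_erase.2 ⟨hij, hj⟩))
  exact Dvd.intro_left _ rfl

lemma herm_self (n N i : ℕ) : (X - C (node n i)) ^ N ∣ herm n N i - 1 := by
  have h : herm n N i - 1 = - (1 - lag n i ^ N) ^ N := by unfold herm; ring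
  rw [h, dvd_neg]
  apply pow_dvd_pow_of_dvd
  have h1 : (X - C (node n i)) ∣ lag n i ^ N - 1 :=
    dvd_trans (lag_self n i) (by simpa using sub_one_dvd_pow_sub_one (lag n i) N)
  rw [← dvd_neg]
  simpa using h1

lemma herm_ne {n N i j : ℕ} (hj : j ∈ range (2 * n + 1)) (hij : j ≠ i) :
    (X - C (node n j)) ^ N ∣ herm n N i := by
  have h2 : lag n i ^ N ∣ herm n N i := by
    unfold herm
    have := sub_one_dvd_pow_sub_one (1 - lag n i ^ N) N
    have h3 : (1 - lag n i ^ N) - 1 = - lag n i ^ N := by ring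
    rw [h3, neg_dvd] at this
    rw [← dvd_neg]
    simpa using this
  exact dvd_trans (pow_dvd_pow_of_dvd (lag_ne hj hij) N) h2

lemma nodal_pow_dvd {n N : ℕ} {f : ℚ[X]}
    (h : ∀ j ∈ range (2 * n + 1), (X - C (node n j)) ^ N ∣ f) : nodal n ^ N ∣ f := by
  unfold nodal
  rw [← Finset.prod_pow]
  apply Finset.prod_dvd_of_coprime _ h
  intro i _ j _ hij
  apply IsCoprime.pow
  exact Polynomial.isCoprime_X_sub_C_of_isUnit_sub (sub_ne_zero.2 (node_inj hij)).isUnit

lemma herm_sq (n N : ℕ) {i : ℕ} :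
    nodal n ^ N ∣ herm n N i * herm n N i - herm n N i := by
  apply nodal_pow_dvd
  intro j hj
  have h : herm n N i * herm n N i - herm n N i = herm n N i * (herm n N i - 1) := by ring
  rw [h]
  by_cases hij : j = i
  · subst hij
    exact Dvd.dvd.mul_left (herm_self n N j) _
  · exact Dvd.dvd.mul_right (herm_ne hj hij) _

lemma herm_mul (n N : ℕ) {i j : ℕ} (hi : i ∈ range (2 * n + 1)) (hij : i ≠ j) :
    nodal n ^ N ∣ herm n N i * herm n N j := by
  apply nodal_pow_dvd
  intro l hl
  by_cases h : l = i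
  · subst h
    exact Dvd.dvd.mul_left (herm_ne hl hij) _
  · exact Dvd.dvd.mul_right (herm_ne hl h) _

lemma herm_sum (n N : ℕ) : nodal n ^ N ∣ (∑ i ∈ range (2 * n + 1), herm n N i) - 1 := by
  apply nodal_pow_dvd
  intro l hl
  rw [← Finset.add_sum_erase _ _ hl, add_sub_right_comm]
  apply dvd_add (herm_self n N l)
  apply Finset.dvd_sum
  intro j hj
  rw [Finset.mem_erase] at hj
  exact herm_ne hl (Ne.symm hj.1)

lemma herm_X (n : ℕ) {N : ℕ} (hN : 1 ≤ N) :
    nodal n ∣ X - ∑ i ∈ range (2 * n + 1), C (node n i) * herm n N i := by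
  have : nodal n = nodal n ^ 1 := (pow_one _).symm
  rw [this]
  apply nodal_pow_dvd
  intro l hl
  rw [pow_one, ← Finset.add_sum_erase _ _ hl]
  have h1 : (X - C (node n l)) ∣ C (node n l) * (herm n N l - 1) := by
    apply Dvd.dvd.mul_left
    exact dvd_trans (dvd_pow_self _ (by omega)) (herm_self n N l)
  have h2 : (X - C (node n l)) ∣ ∑ x ∈ (range (2 * n + 1)).erase l, C (node n x) * herm n N x := by
    apply Finset.dvd_sum
    intro j hj
    rw [Finset.mem_erase] at hj
    apply Dvd.dvd.mul_left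
    exact dvd_trans (dvd_pow_self _ (by omega)) (herm_ne hl (Ne.symm hj.1))
  have h3 : X - (C (node n l) * herm n N l +
      ∑ x ∈ (range (2 * n + 1)).erase l, C (node n x) * herm n N x) =
      (X - C (node n l)) - C (node n l) * (herm n N l - 1) -
      ∑ x ∈ (range (2 * n + 1)).erase l, C (node n x) * herm n N x := by ring
  rw [h3]
  exact dvd_sub (dvd_sub dvd_rfl h1) h2

lemma eval_herm_self (n : ℕ) {N : ℕ} (hN : 1 ≤ N) (i : ℕ) : (herm n N i).eval (node n i) = 1 := by
  have h : (X - C (node n i)) ∣ herm n N i - 1 :=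
    dvd_trans (dvd_pow_self _ (by omega)) (herm_self n N i)
  rw [Polynomial.dvd_iff_isRoot] at h
  simpa [sub_eq_zero] using h

lemma eval_herm_ne {n N i j : ℕ} (hN : 1 ≤ N) (hj : j ∈ range (2 * n + 1)) (hij : j ≠ i) :
    (herm n N i).eval (node n j) = 0 := by
  have h : (X - C (node n j)) ∣ herm n N i :=
    dvd_trans (dvd_pow_self _ (by omega)) (herm_ne hj hij)
  rw [Polynomial.dvd_iff_isRoot] at h
  simpa using h

lemma eval_nodal {n j : ℕ} (hj : j ∈ range (2 * n + 1)) : (nodal n).eval (node n j) = 0 := by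
  unfold nodal
  rw [eval_prod]
  exact Finset.prod_eq_zero hj (by simp)

end Poly

section Eval

variable {K : Type*} [Field K] [CharZero K] {V : Type*} [AddCommGroup V] [Module K V]

/-- Evaluation of rational polynomials at an endomorphism. -/
noncomputable def ev (a : Module.End K V) : ℚ[X] →+* Module.End K V :=
  ((aeval a : K[X] →ₐ[K] Module.End K V) : K[X] →+* Module.End K V).comp
    (Polynomial.mapRingHom (algebraMap ℚ K))

lemma ev_apply (a : Module.End K V) (f : ℚ[X]) : ev a f = aeval a (f.map (algebraMap ℚ K)) := rfl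

@[simp] lemma ev_X (a : Module.End K V) : ev a X = a := by simp [ev_apply]

@[simp] lemma ev_C (a : Module.End K V) (c : ℚ) : ev a (C c) = (c : K) • 1 := by
  simp [ev_apply, Algebra.algebraMap_eq_smul_one]

lemma ev_eq_zero_of_dvd {a : Module.End K V} {f g : ℚ[X]} (h : f ∣ g) (hf : ev a f = 0) :
    ev a g = 0 := by
  obtain ⟨c, rfl⟩ := h
  rw [map_mul, hf, zero_mul]

end Eval

end Pool.Agent.H914
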