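import Pool.Agent.H914R2.Core1

/-!
# The spectral splitting forced by super traces
-/

open Polynomial Finset

namespace Pool.Agent.H914

section

variable {K : Type*} [Field K] [CharZero K] {V : Type*} [AddCommGroup V] [Module K V]
  [Module.Finite K V]

omit [CharZero K] in
lemma pow_eq_zero_of_nilp {q : Module.End K V} (h : IsNilpotent q) {N : ℕ}
    (hN : Module.finrank K V ≤ N) : q ^ N = 0 := by
  have h1 : LinearMap.charpoly q = X ^ Module.finrank K V := by
    rw [LinearMap.charpoly_eq_X_pow_iff]
    intro m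
    obtain ⟨k, hk⟩ := h
    exact ⟨k, by rw [hk]; rfl⟩
  have h2 := LinearMap.aeval_self_charpoly q
  rw [h1, map_pow, aeval_X] at h2
  obtain ⟨c, rfl⟩ := Nat.exists_eq_add_of_le hN
  rw [pow_add, h2, zero_mul]

omit [CharZero K] [Module.Finite K V] in
/-- Super traces of polynomials in `a`. -/
lemma strace_aeval {a ε : Module.End K V} {s : Finset ℕ} {c : ℕ → K} {x : ℕ → K}
    (H1 : ∀ r : ℕ, LinearMap.trace K V (ε * a ^ r) = ∑ j ∈ s, c j * x j ^ r) (g : K[X]) :
    LinearMap.trace K V (ε * aeval a g) = ∑ j ∈ s, c j * g.eval (x j) := by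
  induction g using Polynomial.induction_on' with
  | add p q hp hq =>
    rw [map_add, mul_add, map_add, hp, hq, ← Finset.sum_add_distrib]
    apply Finset.sum_congr rfl
    intro j _
    rw [eval_add]; ring
  | monomial r d =>
    rw [aeval_monomial]
    have : ε * ((algebraMap K (Module.End K V)) d * a ^ r) = d • (ε * a ^ r) := by
      rw [Algebra.algebraMap_eq_smul_one, smul_mul_assoc, one_mul, mul_smul_comm]
    rw [this, map_smul, H1, smul_eq_mul, Finset.mul_sum]
    apply Finset.sum_congr rfl
    intro j _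
    rw [eval_monomial]; ring

/-- An idempotent commuting with an involution splits in two. -/
lemma idem_split {e ε : Module.End K V} (he : e * e = e) (hε : ε * ε = 1) (hc : ε * e = e * ε) :
    ∃ r s : ℕ, LinearMap.trace K V e = (r : K) + s ∧ LinearMap.trace K V (ε * e) = (r : K) - s ∧
      (r = 0 → ε * e = - e) ∧ (s = 0 → ε * e = e) := by
  set p : Module.End K V := (2⁻¹ : K) • (e + ε * e) with hp
  set m : Module.End K V := (2⁻¹ : K) • (e - ε * e) with hm
  have h1 : e * (ε * e) = ε * e := by rw [← mul_assoc, ← hc, mul_assoc, he]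
  have h2 : ε * e * e = ε * e := by rw [mul_assoc, he]
  have h3 : ε * e * (ε * e) = e := by
    rw [mul_assoc, h1, ← mul_assoc, hε, one_mul]
  have hpp : p * p = p := by
    rw [hp, smul_mul_smul_comm, add_mul, mul_add, mul_add, he, h1, h2, h3]
    rw [show e + ε * e + (ε * e + e) = (2 : K) • (e + ε * e) by rw [two_smul]; abel, smul_smul]
    congr 1
    norm_num
  have hmm : m * m = m := by
    rw [hm, smul_mul_smul_comm, sub_mul, mul_sub, mul_sub, he, h1, h2, h3]
    rw [show e - ε * e - (ε * e - e) = (2 : K) • (e - ε * e) by rw [two_smul]; abel, smul_smul]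
    congr 1
    norm_num
  have hep : e = p + m := by
    rw [hp, hm, ← smul_add, show e + ε * e + (e - ε * e) = (2 : K) • e by rw [two_smul]; abel,
      smul_smul]
    norm_num
  have hem : ε * e = p - m := by
    rw [hp, hm, ← smul_sub, show e + ε * e - (e - ε * e) = (2 : K) • (ε * e) by
      rw [two_smul]; abel, smul_smul]
    norm_num
  refine ⟨Module.finrank K (LinearMap.range p), Module.finrank K (LinearMap.range m), ?_, ?_, ?_,
    ?_⟩
  · rw [← trace_idem hpp, ← trace_idem hmm, ← map_add, ← hep]
  · rw [← trace_idem hpp, ← trace_idem hmm, ← map_sub, ← hem]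
  · intro h
    have : p = 0 := eq_zero_of_idem_of_trace_eq_zero hpp (by rw [trace_idem hpp, h, Nat.cast_zero])
    have h5 : e = m := by rw [hep, this, zero_add]
    rw [hem, this, zero_sub, ← h5]
  · intro h
    have : m = 0 := eq_zero_of_idem_of_trace_eq_zero hmm (by rw [trace_idem hmm, h, Nat.cast_zero])
    have h5 : e = p := by rw [hep, this, add_zero]
    rw [hem, this, sub_zero, ← h5]

variable {n : ℕ} {a ε : Module.End K V} {β : ℕ → ℕ}

lemma spectral_aux (hε : ε * ε = 1) (hc : ε * a = a * ε)
    (H1 : ∀ r : ℕ, LinearMap.trace K V (ε * a ^ r) =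
      ∑ j ∈ range (2 * n + 1), ((-1) ^ j * (β j : K)) * ((node n j : ℚ) : K) ^ r)
    (H2 : Module.finrank K V ≤ ∑ j ∈ range (2 * n + 1), β j)
    {N : ℕ} (hN : 1 ≤ N) {w : K[X]} (hw0 : w.eval 0 = 1)
    (hw : aeval (ev a (nodal n)) w * aeval (ev a (nodal n)) w = aeval (ev a (nodal n)) w)
    (hwN : ev a (nodal n) ^ N * aeval (ev a (nodal n)) w = 0) :
    aeval (ev a (nodal n)) w = 1 ∧
    (∀ i ∈ range (2 * n + 1), LinearMap.trace K V (ev a (herm n N i)) = β i) ∧
    (∀ i ∈ range (2 * n + 1), ε * ev a (herm n N i) = (-1 : K) ^ i • ev a (herm n N i)) := by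
  set q := ev a (nodal n) with hq
  set W := aeval q w with hW
  -- `W` as a polynomial in `a`
  have hWa : W = aeval a (w.comp ((nodal n).map (algebraMap ℚ K))) := by
    rw [aeval_comp]; rfl
  have comm1 : ∀ f : ℚ[X], ev a f * W = W * ev a f := by
    intro f
    rw [hWa, ev_apply, ← map_mul, mul_comm, map_mul]
  have hεcomm : ∀ g : K[X], ε * aeval a g = aeval a g * ε := by
    intro g
    have : Commute ε a := hc
    exact (Polynomial.aeval_eq_sum_range (R := K) (S := Module.End K V) (p := g) a) ▸
      Commute.sum_right _ _ _ (fun i _ => (this.pow_right i).smul_right _)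
  set E : ℕ → Module.End K V := fun i => ev a (herm n N i) * W with hE
  have hEE : ∀ i ∈ range (2 * n + 1), E i * E i = E i := by
    intro i _
    obtain ⟨r, hr⟩ := herm_sq n N (i := i)
    have : E i * E i - E i = ev a r * (q ^ N * W) := by
      have h1 : E i * E i = ev a (herm n N i * herm n N i) * W := by
        simp only [hE]
        rw [map_mul, mul_assoc, ← mul_assoc W, ← comm1, mul_assoc, hw, ← mul_assoc]
      rw [h1]
      simp only [hE]
      rw [← sub_mul, ← map_sub, hr, mul_comm, map_mul, map_pow, mul_assoc]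
    rw [hwN, mul_zero, sub_eq_zero] at this
    exact this
  have hEsum : ∑ i ∈ range (2 * n + 1), E i = W := by
    obtain ⟨r, hr⟩ := herm_sum n N
    have : (∑ i ∈ range (2 * n + 1), E i) - W = ev a r * (q ^ N * W) := by
      simp only [hE]
      rw [← Finset.sum_mul, ← map_sum]
      nth_rewrite 2 [← one_mul W]
      rw [← sub_mul, ← map_one (ev a), ← map_sub, hr, mul_comm, map_mul, map_pow, mul_assoc]
    rw [hwN, mul_zero, sub_eq_zero] at this
    exact this
  have hEpoly : ∀ i, E i = aeval a (((herm n N i).map (algebraMap ℚ K)) *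
      (w.comp ((nodal n).map (algebraMap ℚ K)))) := by
    intro i
    simp only [hE]
    rw [map_mul, ← hWa, ev_apply]
  have hcE : ∀ i, ε * E i = E i * ε := by
    intro i
    rw [hEpoly, hεcomm]
  have hstr : ∀ i ∈ range (2 * n + 1), LinearMap.trace K V (ε * E i) = (-1) ^ i * (β i : K) := by
    intro i hi
    rw [hEpoly, strace_aeval H1]
    rw [Finset.sum_eq_single i]
    · rw [eval_mul, eval_comp]
      have h1 : ((herm n N i).map (algebraMap ℚ K)).eval ((node n i : ℚ) : K) = 1 := by
        have := congrArg (algebraMap ℚ K) (eval_herm_self n hN i)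
        rw [map_one] at this
        rw [← this, ← Polynomial.eval_map_apply]
        rfl
      have h2 : ((nodal n).map (algebraMap ℚ K)).eval ((node n i : ℚ) : K) = 0 := by
        have := congrArg (algebraMap ℚ K) (eval_nodal (n := n) hi)
        rw [map_zero] at this
        rw [← this, ← Polynomial.eval_map_apply]
        rfl
      rw [h1, h2, hw0]
      ring
    · intro j hj hji
      have h1 : ((herm n N i).map (algebraMap ℚ K)).eval ((node n j : ℚ) : K) = 0 := by
        have := congrArg (algebraMap ℚ K) (eval_herm_ne (n := n) (N := N) (i := i) hN hj hji)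
        rw [map_zero] at this
        rw [← this, ← Polynomial.eval_map_apply]
        rfl
      rw [eval_mul, h1]
      ring
    · intro h; exact absurd hi h
  -- the ranks
  choose! r s hr hs hr0 hs0 using fun i (hi : i ∈ range (2 * n + 1)) =>
    idem_split (hEE i hi) hε (hcE i)
  have hβ : ∀ i ∈ range (2 * n + 1), ((-1 : ℤ)) ^ i * (β i : ℤ) = r i - s i := by
    intro i hi
    have := (hstr i hi).symm.trans (hs i hi)
    have h2 : (((-1 : ℤ) ^ i * (β i : ℤ) : ℤ) : K) = ((r i - s i : ℤ) : K) := by
      push_cast; exact this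
    exact_mod_cast h2
  have hβle : ∀ i ∈ range (2 * n + 1), β i ≤ r i + s i := by
    intro i hi
    have := hβ i hi
    rcases Nat.even_or_odd i with h | h
    · rw [h.neg_one_pow] at this; omega
    · rw [h.neg_one_pow] at this; omega
  have htot : (Module.finrank K (LinearMap.range W) : K) =
      ((∑ i ∈ range (2 * n + 1), (r i + s i) : ℕ) : K) := by
    rw [← trace_idem hw, ← hEsum, map_sum]
    push_cast
    exact Finset.sum_congr rfl (fun i hi => hr i hi)
  have htot' : Module.finrank K (LinearMap.range W) = ∑ i ∈ range (2 * n + 1), (r i + s i) := by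
    exact_mod_cast htot
  have hle1 : Module.finrank K (LinearMap.range W) ≤ Module.finrank K V :=
    Submodule.finrank_le _
  have hsum_le : ∑ i ∈ range (2 * n + 1), β i ≤ ∑ i ∈ range (2 * n + 1), (r i + s i) :=
    Finset.sum_le_sum hβle
  have heq : ∑ i ∈ range (2 * n + 1), β i = ∑ i ∈ range (2 * n + 1), (r i + s i) := by omega
  have hrank : Module.finrank K (LinearMap.range W) = Module.finrank K V := by omega
  have heach : ∀ i ∈ range (2 * n + 1), β i = r i + s i :=
    (Finset.sum_eq_sum_iff_of_le hβle).1 heq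
  have hW1 : W = 1 := by
    have htr : LinearMap.trace K V (1 - W) = 0 := by
      rw [map_sub, trace_idem hw, hrank, LinearMap.trace_one, sub_self]
    have hid : (1 - W) * (1 - W) = 1 - W := by
      rw [mul_sub, sub_mul, sub_mul, hw]; simp
    have := eq_zero_of_idem_of_trace_eq_zero hid htr
    rw [sub_eq_zero] at this
    exact this.symm
  have hE1 : ∀ i, E i = ev a (herm n N i) := fun i => by simp only [hE]; rw [hW1, mul_one]
  refine ⟨hW1, ?_, ?_⟩
  · intro i hi
    rw [← hE1, hr i hi, heach i hi]
    push_cast; rfl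
  · intro i hi
    rw [← hE1]
    have h1 := hβ i hi
    have h2 := heach i hi
    rcases Nat.even_or_odd i with h | h
    · rw [h.neg_one_pow] at h1 ⊢
      rw [one_smul]
      exact hs0 i hi (by omega)
    · rw [h.neg_one_pow] at h1 ⊢
      rw [neg_one_smul]
      exact hr0 i hi (by omega)

/-- **Spectral splitting.** -/
theorem spectral (hε : ε * ε = 1) (hc : ε * a = a * ε)
    (H1 : ∀ r : ℕ, LinearMap.trace K V (ε * a ^ r) =
      ∑ j ∈ range (2 * n + 1), ((-1) ^ j * (β j : K)) * ((node n j : ℚ) : K) ^ r)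
    (H2 : Module.finrank K V ≤ ∑ j ∈ range (2 * n + 1), β j)
    {N : ℕ} (hN : 1 ≤ N) (hNV : Module.finrank K V ≤ N) :
    (∀ i ∈ range (2 * n + 1), ev a (herm n N i) * ev a (herm n N i) = ev a (herm n N i)) ∧
    (∀ i ∈ range (2 * n + 1), ∀ j, i ≠ j → ev a (herm n N i) * ev a (herm n N j) = 0) ∧
    (∑ i ∈ range (2 * n + 1), ev a (herm n N i) = 1) ∧
    (∀ i ∈ range (2 * n + 1), LinearMap.trace K V (ev a (herm n N i)) = β i) ∧
    (∀ i ∈ range (2 * n + 1), ε * ev a (herm n N i) = (-1 : K) ^ i • ev a (herm n N i)) ∧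
    IsNilpotent (a - ∑ i ∈ range (2 * n + 1), ((node n i : ℚ) : K) • ev a (herm n N i)) := by
  obtain ⟨w, k, hw0, hw, hkw, -⟩ := exists_fitting (ev a (nodal n))
  have hW1 := (spectral_aux hε hc H1 H2 (N := k + 1) (by omega) hw0 hw
    (by rw [pow_succ', mul_assoc, hkw, mul_zero])).1
  have hnil : IsNilpotent (ev a (nodal n)) := ⟨k, by rw [hW1, mul_one] at hkw; exact hkw⟩
  have hqN : ev a (nodal n) ^ N = 0 := pow_eq_zero_of_nilp hnil hNV
  have hqN' : ev a (nodal n ^ N) = 0 := by rw [map_pow, hqN]
  have key := spectral_aux (w := 1) hε hc H1 H2 hN (by simp) (by simp) (by simp [hqN])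
  refine ⟨?_, ?_, ?_, key.2.1, key.2.2, ?_⟩
  · intro i _
    have := ev_eq_zero_of_dvd (herm_sq n N (i := i)) hqN'
    rwa [map_sub, map_mul, sub_eq_zero] at this
  · intro i hi j hij
    have := ev_eq_zero_of_dvd (herm_mul n N hi hij) hqN'
    rwa [map_mul] at this
  · have := ev_eq_zero_of_dvd (herm_sum n N) hqN'
    rwa [map_sub, map_sum, map_one, sub_eq_zero] at this
  · obtain ⟨c, hc'⟩ := herm_X n hN
    have : a - ∑ i ∈ range (2 * n + 1), ((node n i : ℚ) : K) • ev a (herm n N i) =
        ev a c * ev a (nodal n) := by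
      rw [← map_mul, mul_comm c, ← hc', map_sub, ev_X, map_sum]
      congr 1
      apply Finset.sum_congr rfl
      intro i _
      rw [map_mul, ev_C, smul_mul_assoc, one_mul]
    rw [this]
    have hcomm : Commute (ev a c) (ev a (nodal n)) := by
      unfold Commute SemiconjBy
      rw [← map_mul, mul_comm, map_mul]
    exact hcomm.isNilpotent_mul_left hnil

end

end Pool.Agent.H914
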