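import Pool.Agent.H914R2.Core5

/-!
# The converse for general commutator sums
-/

open Polynomial Finset

namespace Pool.Agent.H914

section Pair

variable {K₀ : Type*} [Field K₀] [CharZero K₀] {V₀ : Type*} [AddCommGroup V₀] [Module K₀ V₀]
  [Module.Finite K₀ V₀] {gr₀ : ℕ → Submodule K₀ V₀} {h₀ : DirectSum.IsInternal gr₀}
  {K : Type*} [Field K] [CharZero K] {V : Type*} [AddCommGroup V] [Module K V]
  [Module.Finite K V] {gr : ℕ → Submodule K V} {h : DirectSum.IsInternal gr}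
  {P : Module.End K₀ V₀ → Module.End K V → Prop} {n : ℕ}

/-- Converse of the comparison theorem: if the weight operators are sums of commutators of related
operators on both sides, then the Betti sums agree. -/
theorem betti_eq_gen (hP : PairRel h₀ h P) (hP' : PairRel h h₀ (fun y x => P x y))
    (hbd₀ : ∀ i, 2 * n + 1 ≤ i → gr₀ i = ⊥) (hbd : ∀ i, 2 * n + 1 ≤ i → gr i = ⊥)
    {ι : Type*} (s : Finset ι) (d : ι → ℤ) (u₀ v₀ : ι → Module.End K₀ V₀)
    (u v : ι → Module.End K V)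
    (hu₀ : ∀ i ∈ s, IsHom gr₀ (2 * d i) (u₀ i))
    (hu : ∀ i ∈ s, IsHom gr (2 * d i) (u i))
    (huv : ∀ i ∈ s, P (u₀ i * v₀ i) (u i * v i)) (hvu : ∀ i ∈ s, P (v₀ i * u₀ i) (v i * u i))
    (hx₀ : ∑ i ∈ s, (u₀ i * v₀ i - v₀ i * u₀ i) = wt h₀ n)
    {ι' : Type*} (s' : Finset ι') (d' : ι' → ℤ) (u'₀ v'₀ : ι' → Module.End K₀ V₀)
    (u' v' : ι' → Module.End K V)
    (hu'₀ : ∀ i ∈ s', IsHom gr₀ (2 * d' i) (u'₀ i))
    (hu' : ∀ i ∈ s', IsHom gr (2 * d' i) (u' i))
    (huv' : ∀ i ∈ s', P (u'₀ i * v'₀ i) (u' i * v' i))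
    (hvu' : ∀ i ∈ s', P (v'₀ i * u'₀ i) (v' i * u' i))
    (hx' : ∑ i ∈ s', (u' i * v' i - v' i * u' i) = wt h n) :
    Module.finrank K V = Module.finrank K₀ V₀ ∧
    ∑ i ∈ range (2 * n + 1), node n i ^ 2 * Module.finrank K (gr i) =
      ∑ i ∈ range (2 * n + 1), node n i ^ 2 * (Module.finrank K₀ (gr₀ i) : ℚ) := by
  set x := ∑ i ∈ s, (u i * v i - v i * u i) with hx
  set z₀ := ∑ i ∈ s', (u'₀ i * v'₀ i - v'₀ i * u'₀ i) with hz₀
  have hPx : P (wt h₀ n) x := by
    rw [← hx₀]; exact hP.sum (fun i hi => hP.sub (huv i hi) (hvu i hi))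
  have hPz : P z₀ (wt h n) := by
    rw [← hx']; exact hP.sum (fun i hi => hP.sub (huv' i hi) (hvu' i hi))
  have hy₁ : ∀ i ∈ range (2 * n + 1), P (proj h₀ i) (ev x (herm n 1 i)) := by
    intro i hi
    have := hP.ev hPx (herm n 1 i)
    rwa [ev_wt_herm h₀ hbd₀ le_rfl hi] at this
  have hx₁ : ∀ i ∈ range (2 * n + 1), P (ev z₀ (herm n 1 i)) (proj h i) := by
    intro i hi
    have := hP.ev hPz (herm n 1 i)
    rwa [ev_wt_herm h hbd le_rfl hi] at this
  have htr : ∀ {x y}, P x y → ∃ q : ℚ, LinearMap.trace K₀ V₀ x = q ∧ LinearMap.trace K V y = q :=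
    fun hxy => hP.trace_eq hP' hbd₀ hbd hy₁ hx₁ hxy
  constructor
  · obtain ⟨q, h1, h2⟩ := htr hP.one
    rw [LinearMap.trace_one] at h1 h2
    have h1' : q = (Module.finrank K₀ V₀ : ℚ) := by exact_mod_cast h1.symm
    have h2' : q = (Module.finrank K V : ℚ) := by exact_mod_cast h2.symm
    exact_mod_cast h2'.symm.trans h1'
  · -- the four traces
    choose! t ht₀ ht using fun i (hi : i ∈ s) => htr (huv i hi)
    choose! t' ht₀' ht' using fun i (hi : i ∈ s') => htr (huv' i hi)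
    have e1 : LinearMap.trace K V (x * wt h n) =
        ((∑ i ∈ s, (2 * d i : ℤ) * t i : ℚ) : K) := by
      rw [hx, Finset.sum_mul, map_sum]
      push_cast
      apply Finset.sum_congr rfl
      intro m hm
      rw [trace_comm_wt h n (hu m hm), ht m hm]
      push_cast; ring
    have e2 : LinearMap.trace K₀ V₀ (wt h₀ n * wt h₀ n) =
        ((∑ i ∈ s, (2 * d i : ℤ) * t i : ℚ) : K₀) := by
      nth_rewrite 1 [← hx₀]
      rw [Finset.sum_mul, map_sum]
      push_cast
      apply Finset.sum_congr rfl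
      intro m hm
      rw [trace_comm_wt h₀ n (hu₀ m hm), ht₀ m hm]
      push_cast; ring
    have e3 : LinearMap.trace K₀ V₀ (z₀ * wt h₀ n) =
        ((∑ i ∈ s', (2 * d' i : ℤ) * t' i : ℚ) : K₀) := by
      rw [hz₀, Finset.sum_mul, map_sum]
      push_cast
      apply Finset.sum_congr rfl
      intro m hm
      rw [trace_comm_wt h₀ n (hu'₀ m hm), ht₀' m hm]
      push_cast; ring
    have e4 : LinearMap.trace K V (wt h n * wt h n) =
        ((∑ i ∈ s', (2 * d' i : ℤ) * t' i : ℚ) : K) := by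
      nth_rewrite 1 [← hx']
      rw [Finset.sum_mul, map_sum]
      push_cast
      apply Finset.sum_congr rfl
      intro m hm
      rw [trace_comm_wt h n (hu' m hm), ht' m hm]
      push_cast; ring
    obtain ⟨w, hs₀, hs⟩ := htr (hP.mul hPx hPz)
    rw [e1] at hs
    rw [LinearMap.trace_mul_comm, e3] at hs₀
    have f1 : (∑ i ∈ s, (2 * d i : ℤ) * t i : ℚ) = w := by exact_mod_cast hs
    have f2 : (∑ i ∈ s', (2 * d' i : ℤ) * t' i : ℚ) = w := by exact_mod_cast hs₀
    rw [f1] at e2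
    rw [f2] at e4
    have g : LinearMap.trace K₀ V₀ (wt h₀ n * wt h₀ n) =
          ((∑ i ∈ range (2 * n + 1), node n i ^ 2 * (Module.finrank K₀ (gr₀ i) : ℚ) : ℚ) :
            K₀) := by
      rw [wt, scal_mul, trace_scal h₀ hbd₀]
      push_cast
      apply Finset.sum_congr rfl
      intro i _
      ring
    have g' : LinearMap.trace K V (wt h n * wt h n) =
          ((∑ i ∈ range (2 * n + 1), node n i ^ 2 * (Module.finrank K (gr i) : ℚ) : ℚ) : K) := by
      rw [wt, scal_mul, trace_scal h hbd]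
      push_cast
      apply Finset.sum_congr rfl
      intro i _
      ring
    rw [g] at e2
    rw [g'] at e4
    have k1 : (∑ i ∈ range (2 * n + 1), node n i ^ 2 * (Module.finrank K₀ (gr₀ i) : ℚ) : ℚ) =
        w := by exact_mod_cast e2
    have k2 : (∑ i ∈ range (2 * n + 1), node n i ^ 2 * (Module.finrank K (gr i) : ℚ) : ℚ) =
        w := by exact_mod_cast e4
    rw [k1, k2]

end Pair

end Pool.Agent.H914
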