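import Pool.Agent.H914R2.Comm

/-!
# The standard conjecture D for products
-/

open CategoryTheory AlgebraicGeometry Finset TensorProduct Polynomial

universe u v

namespace Pool.Agent.H914

open VarClass Obj WeilCohomology

variable {k : Type u} [Field k] {𝒱 : VarClass k} {ops : CycleOps 𝒱}
  {W : WeilCohomology.{u, v} ops} {X Y Z : 𝒱.Obj} {L : Type v} [Field L] [Algebra W.K L]

lemma pow_aeval_mem (f : X ⟶ X) (m : ℕ) (p : W.K[X]) :
    aeval ((W.map f).toLinearMap ^ m) p ∈ KOp W X X 0 := by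
  apply KOp.aeval
  have := KOp.pow (KOp.map (W := W) f) m
  rwa [mul_zero] at this

lemma simpleSpectrum_commutant {f : X ⟶ X} (h : SimpleSpectrum W X f) :
    CommIn (W.gr X) (W.map f).toLinearMap (transcendental W X) (KOp W X X 0) :=
  SimpleOn.commutantIn h (pow_aeval_mem f)

lemma simpleSpectrum_semisimple {f : X ⟶ X} (h : SimpleSpectrum W X f) :
    SemisimpleOn (W.map f).toLinearMap (transcendental W X) :=
  SimpleOn.semisimpleOn h

lemma corrSpan_eq : corrSpan (W.map (fst X X)) (W.push (snd X X))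
    (algClasses W (X.prod X) X.dim) = KOp W X X 0 := by
  rw [corrSpan, KOp]
  congr 1
  ext T
  constructor
  · rintro ⟨_, ⟨z, hz, rfl⟩, rfl⟩
    exact ⟨X.dim, by simp, z, hz, rfl⟩
  · rintro ⟨p, hp, z, hz, rfl⟩
    obtain rfl : p = X.dim := by omega
    exact ⟨_, ⟨z, hz, rfl⟩, rfl⟩

lemma algebraicCommutant_iff {f : X ⟶ X} : AlgebraicCommutant W X f ↔
    CommIn (W.gr X) (W.map f).toLinearMap (transcendental W X) (KOp W X X 0) := by
  rw [AlgebraicCommutant, CommutantIn, corrSpan_eq]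

lemma hasBlocks_of_product {S : SemiLin W} {𝒮 : Set 𝒱.Obj} (h𝒮 : ∀ X ∈ 𝒮, HasBlocks S X)
    (hY : IsProductOf 𝒮 Y) : HasBlocks S Y := by
  induction hY with
  | base hX => exact h𝒮 _ hX
  | prod _ _ h1 h2 => exact HasBlocks.prod h1 h2

/-- **The standard conjecture D for products.** -/
theorem homEqNum_products [IsAlgClosed L] (τ : L ≃ₐ[W.K] L) {𝒮 : Set 𝒱.Obj}
    (h𝒮 : ∀ X ∈ 𝒮, ∃ (D : X.Cycles) (f : X ⟶ X) (q : ℕ), X.IsCyc 1 D ∧ HardLefschetz W X D ∧
      LefschetzB W X D ∧ HomEqNum W X ∧ 1 < q ∧ FrobeniusOnCycles W X f q ∧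
      SemisimpleOn (W.map f).toLinearMap (transcendental W X) ∧
      CommIn (W.gr X) (W.map f).toLinearMap (transcendental W X) (KOp W X X 0) ∧
      ConjugatesTo (W.gr X) (W.map f).toLinearMap τ q)
    (hY : IsProductOf 𝒮 Y) (hZ : Dominates W Y Z) : HomEqNum W Z := by
  have h1 : ∀ X ∈ 𝒮, HasBlocks (semiLin W L τ) X := by
    intro X hX
    obtain ⟨D, f, q, hD, hHL, hB, hDX, hq, hF, hss, hT, hc⟩ := h𝒮 X hX
    exact exists_preBlocks τ hD hHL hB hDX hq hF hss hT hc
  have h2 := hasBlocks_of_product h1 hY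
  have h3 : HomEqNum W Y := homEqNum_base (homEqNum_of_blocks h2)
  exact h3.image hZ

end Pool.Agent.H914
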