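import Pool.Agent.H914R2.EDefs
import Pool.Agent.H914R2.CPart

/-!
# Multisets of labels with algebraic products
-/

open CategoryTheory AlgebraicGeometry Finset TensorProduct

universe u v w

namespace Pool.Agent.H914

open VarClass Obj WeilCohomology

variable {k : Type u} [Field k] {𝒱 : VarClass k} {ops : CycleOps 𝒱}
  {W : WeilCohomology.{u, v} ops} {X Y Z : 𝒱.Obj}

/-- The span of all algebraic classes. -/
def algS (W : WeilCohomology.{u, v} ops) (X : 𝒱.Obj) : Submodule W.K (W.H X) :=
  Submodule.span W.K {c | ∃ i, c ∈ algClasses W X i}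

lemma algS_of {i : ℕ} {a : W.H X} (ha : a ∈ algClasses W X i) : a ∈ algS W X :=
  Submodule.subset_span ⟨i, ha⟩

lemma algS_span {i : ℤ} {a : W.H X} (ha : a ∈ spanCycles W X i) : a ∈ algS W X := by
  refine Submodule.span_mono ?_ ha
  rintro c ⟨p, -, z, hz, rfl⟩
  exact ⟨p, z, hz, rfl⟩

lemma algS_one : (1 : W.H X) ∈ algS W X :=
  algS_of ⟨X.V.fundCycle, SmVar.fundCycle_mem _, W.cl_fund X⟩

lemma algS_mul {a b : W.H X} (ha : a ∈ algS W X) (hb : b ∈ algS W X) : a * b ∈ algS W X := by
  induction ha using Submodule.span_induction with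
  | mem a ha =>
    induction hb using Submodule.span_induction with
    | mem b hb =>
      obtain ⟨j, z, hz, rfl⟩ := ha
      obtain ⟨j', z', hz', rfl⟩ := hb
      exact algS_of ⟨ops.mul z z', ops.mul_mem hz hz', W.cl_mul z z'⟩
    | zero => rw [mul_zero]; exact Submodule.zero_mem _
    | add x y _ _ hx hy => rw [mul_add]; exact Submodule.add_mem _ hx hy
    | smul r x _ hx => rw [mul_smul_comm]; exact Submodule.smul_mem _ _ hx
  | zero => rw [zero_mul]; exact Submodule.zero_mem _
  | add x y _ _ hx hy => rw [add_mul]; exact Submodule.add_mem _ hx hy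
  | smul r x _ hx => rw [smul_mul_assoc]; exact Submodule.smul_mem _ _ hx

lemma algS_map (g : X ⟶ Y) {a : W.H Y} (ha : a ∈ algS W Y) : W.map g a ∈ algS W X := by
  induction ha using Submodule.span_induction with
  | mem a ha =>
    obtain ⟨j, z, hz, rfl⟩ := ha
    exact algS_of ⟨ops.pull g z, ops.pull_mem g hz, W.cl_pull g z⟩
  | zero => rw [map_zero]; exact Submodule.zero_mem _
  | add x y _ _ hx hy => rw [map_add]; exact Submodule.add_mem _ hx hy
  | smul r x _ hx => rw [map_smul]; exact Submodule.smul_mem _ _ hx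

lemma algS_push (g : X ⟶ Y) {a : W.H X} (ha : a ∈ algS W X) : W.push g a ∈ algS W Y := by
  induction ha using Submodule.span_induction with
  | mem a ha =>
    obtain ⟨j, z, hz, rfl⟩ := ha
    by_cases h : X.dim ≤ j + Y.dim
    · exact algS_of ⟨ops.push g z, ops.push_mem g hz (q := j + Y.dim - X.dim) (by omega),
        W.cl_push g z⟩
    · have h1 := W.push_mem g (W.cl_mem hz)
      rw [grZ_of_neg (by push_cast; omega)] at h1
      rw [(Submodule.mem_bot _).1 h1]
      exact Submodule.zero_mem _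
  | zero => rw [map_zero]; exact Submodule.zero_mem _
  | add x y _ _ hx hy => rw [map_add]; exact Submodule.add_mem _ hx hy
  | smul r x _ hx => rw [map_smul]; exact Submodule.smul_mem _ _ hx

lemma algS_comm {a : W.H X} (ha : a ∈ algS W X) (b : W.H X) : a * b = b * a := by
  induction ha using Submodule.span_induction with
  | mem a ha =>
    obtain ⟨j, hj⟩ := ha
    exact W.even_comm (alg_gr hj) b
  | zero => rw [zero_mul, mul_zero]
  | add x y _ _ hx hy => rw [add_mul, mul_add, hx, hy]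
  | smul r x _ hx => rw [smul_mul_assoc, mul_smul_comm, hx]

/-- Base change for a product. -/
lemma base_change' (g : Y ⟶ Z) (c : W.H (X.prod Z)) :
    W.map g (W.push (snd X Z) c) =
      W.push (snd X Y) (W.map (Obj.lift (fst X Y) (snd X Y ≫ g)) c) := by
  refine W.kunneth_induction (p := fun c => W.map g (W.push (snd X Z) c) =
    W.push (snd X Y) (W.map (Obj.lift (fst X Y) (snd X Y ≫ g)) c)) ?_ ?_ c
  · intro a b ha hb
    simp only [map_add, ha, hb]
  · intro i j a _ b _
    rw [push_snd, map_smul, map_mul, ← W.map_comp, ← W.map_comp, Obj.lift_fst, Obj.lift_snd,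
      W.map_comp, push_snd]

section Labels

variable {ι : Type w} (P : ι → EndVar 𝒱)

/-- The eigenspace with the label `x`: the classes in the transcendental cohomology of the member
`x.1` of degree `x.2.1` which are eigenvectors with eigenvalue `x.2.2`. -/
def blkS (W : WeilCohomology.{u, v} ops) {ι : Type w} (P : ι → EndVar 𝒱) (x : ι × ℕ × W.K) :
    Submodule W.K (W.H (P x.1).X) :=
  transcendental W (P x.1).X ⊓ W.gr (P x.1).X x.2.1 ⊓
    LinearMap.ker ((W.map (P x.1).f).toLinearMap - x.2.2 • (1 : Module.End W.K _))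

variable {P}

/-- The eigenspace with the label `(j, i, α)`. -/
def blkC (W : WeilCohomology.{u, v} ops) {ι : Type w} (P : ι → EndVar 𝒱) (j : ι) (i : ℕ)
    (α : W.K) : Submodule W.K (W.H (P j).X) := blkS W P (j, i, α)

lemma mem_blkC {j : ι} {i : ℕ} {α : W.K} {y : W.H (P j).X} : y ∈ blkC W P j i α ↔
    y ∈ transcendental W (P j).X ∧ y ∈ W.gr (P j).X i ∧ W.map (P j).f y = α • y := by
  change y ∈ blkS W P (j, i, α) ↔ _
  rw [blkS, Submodule.mem_inf, Submodule.mem_inf, LinearMap.mem_ker, LinearMap.sub_apply,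
    LinearMap.smul_apply, Module.End.one_apply, sub_eq_zero, and_assoc]
  rfl

lemma mem_blkS {x : ι × ℕ × W.K} {y : W.H (P x.1).X} : y ∈ blkS W P x ↔
    y ∈ transcendental W (P x.1).X ∧ y ∈ W.gr (P x.1).X x.2.1 ∧
      W.map (P x.1).f y = x.2.2 • y := by
  rw [blkS, Submodule.mem_inf, Submodule.mem_inf, LinearMap.mem_ker, LinearMap.sub_apply,
    LinearMap.smul_apply, Module.End.one_apply, sub_eq_zero, and_assoc]
  rfl

variable (W P)

/-- A coordinate on `Y` with a vector in the eigenspace given by its label. -/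
structure Crd (Y : 𝒱.Obj) where
  /-- the label -/
  x : ι × ℕ × W.K
  /-- the coordinate -/
  g : Y ⟶ (P x.1).X
  /-- the vector -/
  y : W.H (P x.1).X
  hy : y ∈ blkS W P x

variable {W P}

/-- The class given by a coordinate. -/
def Crd.ev (c : Crd W P Y) : W.H Y := W.map c.g c.y

/-- The composite of a coordinate with a morphism. -/
def Crd.comp (h : Z ⟶ Y) (c : Crd W P Y) : Crd W P Z := ⟨c.x, h ≫ c.g, c.y, c.hy⟩

lemma Crd.comp_ev (h : Z ⟶ Y) (c : Crd W P Y) : (c.comp h).ev = W.map h c.ev := by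
  rw [Crd.ev, Crd.ev, ← W.map_comp]
  rfl

lemma Crd.comp_x (h : Z ⟶ Y) (c : Crd W P Y) : (c.comp h).x = c.x := rfl

lemma Crd.ev_mem (c : Crd W P Y) : c.ev ∈ W.gr Y c.x.2.1 := W.map_mem _ (mem_blkS.1 c.hy).2.1

/-- The product of the classes. -/
def pe (c : List (Crd W P Y)) : W.H Y := (c.map Crd.ev).prod

lemma pe_nil : pe ([] : List (Crd W P Y)) = 1 := rfl
lemma pe_cons (a : Crd W P Y) (c : List (Crd W P Y)) : pe (a :: c) = a.ev * pe c := by
  rw [pe, List.map_cons, List.prod_cons]
  rfl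
lemma pe_append (c d : List (Crd W P Y)) : pe (c ++ d) = pe c * pe d := by
  rw [pe, List.map_append, List.prod_append]
  rfl
lemma pe_comp (h : Z ⟶ Y) (c : List (Crd W P Y)) : pe (c.map (Crd.comp h)) = W.map h (pe c) := by
  induction c with
  | nil => rw [List.map_nil, pe_nil, pe_nil, map_one]
  | cons a c ih => rw [List.map_cons, pe_cons, pe_cons, Crd.comp_ev, ih, map_mul]

lemma pe_mem (c : List (Crd W P Y)) : pe c ∈ W.gr Y ((c.map (fun d => d.x.2.1)).sum) := by
  induction c with
  | nil => rw [List.map_nil, List.sum_nil, pe_nil]; exact W.one_mem Y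
  | cons a c ih => rw [List.map_cons, List.sum_cons, pe_cons]; exact W.mul_mem a.ev_mem ih

lemma pe_perm {c d : List (Crd W P Y)} (h : c.Perm d) : ∃ r : W.K, r ≠ 0 ∧ pe c = r • pe d := by
  induction h with
  | nil => exact ⟨1, one_ne_zero, (one_smul _ _).symm⟩
  | cons a _ ih =>
    obtain ⟨r, hr, e⟩ := ih
    exact ⟨r, hr, by rw [pe_cons, pe_cons, e, mul_smul_comm]⟩
  | swap a b l =>
    refine ⟨(-1) ^ (b.x.2.1 * a.x.2.1), pow_ne_zero _ (by norm_num), ?_⟩
    rw [pe_cons, pe_cons, pe_cons, pe_cons, ← mul_assoc, ← mul_assoc, W.comm b.ev_mem a.ev_mem,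
      smul_mul_assoc]
  | trans _ _ ih1 ih2 =>
    obtain ⟨r, hr, e⟩ := ih1
    obtain ⟨r', hr', e'⟩ := ih2
    exact ⟨r * r', mul_ne_zero hr hr', by rw [e, e', smul_smul]⟩

/-- All products of classes with the given labels are algebraic. -/
def AlgM (W : WeilCohomology.{u, v} ops) {ι : Type w} (P : ι → EndVar 𝒱)
    (s : Multiset (ι × ℕ × W.K)) : Prop :=
  ∀ (Y : 𝒱.Obj) (c : List (Crd W P Y)), ((c.map Crd.x : List (ι × ℕ × W.K)) :
    Multiset (ι × ℕ × W.K)) = s → pe c ∈ algS W Y

lemma exists_reorder {α β : Type*} (f : α → β) (l : List β) : ∀ c : List α,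
    ((c.map f : List β) : Multiset β) = (l : Multiset β) →
      ∃ c' : List α, c'.Perm c ∧ c'.map f = l := by
  induction l with
  | nil =>
    intro c hc
    have : c.map f = [] := by simpa using hc
    rw [List.map_eq_nil_iff] at this
    subst this
    exact ⟨[], List.Perm.refl _, rfl⟩
  | cons a l ih =>
    intro c hc
    have hmem : a ∈ c.map f := by
      have : a ∈ ((c.map f : List β) : Multiset β) := by rw [hc]; simp
      exact this
    rw [List.mem_map] at hmem
    obtain ⟨x, hx, rfl⟩ := hmem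
    obtain ⟨c₁, c₂, rfl⟩ := List.append_of_mem hx
    have h1 : ((((c₁ ++ c₂).map f : List β)) : Multiset β) = (l : Multiset β) := by
      rw [List.map_append, List.map_cons, ← Multiset.cons_coe] at hc
      have h2 : (((c₁.map f ++ f x :: c₂.map f : List β)) : Multiset β) =
          f x ::ₘ ((c₁.map f ++ c₂.map f : List β) : Multiset β) := by
        rw [Multiset.cons_coe, Multiset.coe_eq_coe]
        exact List.perm_middle
      rw [h2, Multiset.cons_inj_right] at hc
      rw [List.map_append]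
      exact hc
    obtain ⟨c', hc', hcl⟩ := ih _ h1
    exact ⟨x :: c', (hc'.cons x).trans List.perm_middle.symm, by rw [List.map_cons, hcl]⟩

/-- It suffices to consider the labels in a fixed order. -/
lemma AlgM.of_list {l : List (ι × ℕ × W.K)}
    (h : ∀ (Y : 𝒱.Obj) (c : List (Crd W P Y)), c.map Crd.x = l → pe c ∈ algS W Y) :
    AlgM W P (l : Multiset (ι × ℕ × W.K)) := by
  intro Y c hc
  obtain ⟨c', hp, hl⟩ := exists_reorder Crd.x l c hc
  obtain ⟨r, -, e⟩ := pe_perm hp.symm
  rw [e]
  exact Submodule.smul_mem _ _ (h Y c' hl)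

lemma AlgM.zero : AlgM W P 0 := by
  intro Y c hc
  have : c.map Crd.x = [] := by simpa using hc
  rw [List.map_eq_nil_iff] at this
  subst this
  rw [pe_nil]
  exact algS_one

lemma AlgM.add {s t : Multiset (ι × ℕ × W.K)} (hs : AlgM W P s) (ht : AlgM W P t) :
    AlgM W P (s + t) := by
  obtain ⟨l₁, rfl⟩ : ∃ l : List (ι × ℕ × W.K), (l : Multiset (ι × ℕ × W.K)) = s :=
    ⟨s.toList, Multiset.coe_toList s⟩
  obtain ⟨l₂, rfl⟩ : ∃ l : List (ι × ℕ × W.K), (l : Multiset (ι × ℕ × W.K)) = t :=
    ⟨t.toList, Multiset.coe_toList t⟩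
  rw [Multiset.coe_add]
  apply AlgM.of_list
  intro Y c hc
  obtain ⟨c₁, c₂, rfl, h1, h2⟩ := List.map_eq_append_iff.1 hc
  rw [pe_append]
  exact algS_mul (hs Y c₁ (by rw [h1])) (ht Y c₂ (by rw [h2]))

lemma AlgM.sum {κ : Type*} (s : Finset κ) (f : κ → Multiset (ι × ℕ × W.K))
    (h : ∀ i ∈ s, AlgM W P (f i)) : AlgM W P (∑ i ∈ s, f i) := by
  classical
  induction s using Finset.induction_on with
  | empty => rw [Finset.sum_empty]; exact AlgM.zero
  | insert a s ha ih =>
    rw [Finset.sum_insert ha]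
    exact (h a (Finset.mem_insert_self _ _)).add
      (ih (fun i hi => h i (Finset.mem_insert_of_mem hi)))

/-- Replacing a label by means of an algebraic operator. -/
lemma AlgM.replace {x x' : ι × ℕ × W.K} {s : Multiset (ι × ℕ × W.K)}
    (hθ : ∀ y' ∈ blkS W P x', ∃ (d : ℤ) (θ : W.H (P x.1).X →ₗ[W.K] W.H (P x'.1).X),
      θ ∈ KOp W (P x.1).X (P x'.1).X d ∧ ∃ y ∈ blkS W P x, θ y = y')
    (h : AlgM W P (x ::ₘ s)) : AlgM W P (x' ::ₘ s) := by
  obtain ⟨l, rfl⟩ : ∃ l : List (ι × ℕ × W.K), (l : Multiset (ι × ℕ × W.K)) = s :=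
    ⟨s.toList, Multiset.coe_toList s⟩
  · rw [Multiset.cons_coe]
    apply AlgM.of_list
    intro Y c hc
    obtain ⟨a, c₁, rfl, h1, h2⟩ := List.map_eq_cons_iff.1 hc
    obtain ⟨ax, ag, ay, hay⟩ := a
    change ax = x' at h1
    subst h1
    obtain ⟨d, θ, hθ, y, hyx, rfl⟩ := hθ ay hay
    rw [pe_cons]
    change W.map ag (θ y) * pe c₁ ∈ algS W Y
    clear hay hc
    induction hθ using Submodule.span_induction with
    | mem θ hθ =>
      obtain ⟨p, -, z, hz, rfl⟩ := hθ
      rw [corr_apply, base_change', ← W.push_mul]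
      apply algS_push
      have e1 : W.map (Obj.lift (fst (P x.1).X Y) (snd (P x.1).X Y ≫ ag))
          (W.cl _ z * W.map (fst (P x.1).X (P ax.1).X) y) * W.map (snd (P x.1).X Y) (pe c₁) =
          W.map (Obj.lift (fst (P x.1).X Y) (snd (P x.1).X Y ≫ ag)) (W.cl _ z) *
            pe ((⟨x, fst (P x.1).X Y, y, hyx⟩ : Crd W P ((P x.1).X.prod Y)) ::
              c₁.map (Crd.comp (snd (P x.1).X Y))) := by
        rw [pe_cons, pe_comp, map_mul, ← W.map_comp, Obj.lift_fst, mul_assoc]
        rfl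
      rw [e1]
      apply algS_mul (algS_map _ (algS_of ⟨z, hz, rfl⟩))
      apply h
      rw [List.map_cons, List.map_map]
      have e2 : (Crd.x ∘ Crd.comp (snd (P x.1).X Y) : Crd W P Y → ι × ℕ × W.K) = Crd.x := rfl
      rw [e2, h2]
      rfl
    | zero => rw [LinearMap.zero_apply, map_zero, zero_mul]; exact Submodule.zero_mem _
    | add θ θ' _ _ h1 h2 =>
      rw [LinearMap.add_apply, map_add, add_mul]; exact Submodule.add_mem _ h1 h2
    | smul r θ _ h1 =>
      rw [LinearMap.smul_apply, map_smul, smul_mul_assoc]; exact Submodule.smul_mem _ _ h1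

end Labels

end Pool.Agent.H914
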