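import Pool.Agent.H914R2.EBlk

/-!
# The blocks of the members of the family
-/

open CategoryTheory AlgebraicGeometry Finset TensorProduct Polynomial

universe u v w

namespace Pool.Agent.H914

open VarClass Obj WeilCohomology

variable {k : Type u} [Field k] {𝒱 : VarClass k} {ops : CycleOps 𝒱}
  {W : WeilCohomology.{u, v} ops} {ι : Type w} {P : ι → EndVar 𝒱} {q : ℕ}

/-- The properties of the members of the family from which the blocks are constructed. -/
structure EProps (W : WeilCohomology.{u, v} ops) (P : ι → EndVar 𝒱) (q : ℕ)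
    (π : ∀ j, ℕ → Module.End W.K (W.H (P j).X)) (S : ι → Finset W.K) : Prop where
  hq : q ≠ 0
  cproj : ∀ j, CProj W (P j).X (π j)
  numD : ∀ j, HomEqNum W (P j).X
  ann : ∀ j, aeval (W.map (P j).f).toLinearMap (∏ γ ∈ S j, (Polynomial.X - C γ)) *
    piT (π j) = 0
  deg : ∀ j, HasFrobeniusDegree W (P j) q
  homs : ∀ (j j' : ι) (i i' : ℕ), i % 2 = i' % 2 → ∀ Z : W.H (P j).X →ₗ[W.K] W.H (P j').X,
    piT (π j') ∘ₗ Z = Z → Z ∘ₗ piT (π j) = Z →
    proj (W.isInternal (P j').X) i' ∘ₗ Z = Z → Z ∘ₗ proj (W.isInternal (P j).X) i = Z →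
    (q : W.K) ^ (i / 2) • ((W.map (P j').f).toLinearMap ∘ₗ Z) =
      (q : W.K) ^ (i' / 2) • (Z ∘ₗ (W.map (P j).f).toLinearMap) →
    Z ∈ KOp W (P j).X (P j').X (((i' / 2 : ℕ) : ℤ) - ((i / 2 : ℕ) : ℤ))

variable [DecidableEq W.K] {π : ∀ j, ℕ → Module.End W.K (W.H (P j).X)} {S : ι → Finset W.K}

/-- The projector onto the eigenspace with the label `(j, i, α)`. -/
noncomputable def eb (W : WeilCohomology.{u, v} ops) [DecidableEq W.K] (P : ι → EndVar 𝒱)
    (π : ∀ j, ℕ → Module.End W.K (W.H (P j).X)) (S : ι → Finset W.K) (j : ι) (i : ℕ)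
    (α : W.K) : Module.End W.K (W.H (P j).X) :=
  proj (W.isInternal (P j).X) i * spec (W.map (P j).f).toLinearMap (piT (π j)) (S j) α

/-- The transcendental and the algebraic classes are orthogonal. -/
lemma trans_orth {X : 𝒱.Obj} {u : W.H X} (hu : u ∈ transcendental W X) {l : ℕ} {c : W.H X}
    (hc : c ∈ spanCycles W X l) : W.tr X (u * c) = 0 := by
  rw [spanCycles_eq] at hc
  induction hc using Submodule.span_induction with
  | mem c hc => exact mem_trans.1 hu _ c hc
  | zero => rw [mul_zero, map_zero]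
  | add x y _ _ hx hy => rw [mul_add, map_add, hx, hy, add_zero]
  | smul r x _ hx => rw [mul_smul_comm, map_smul, hx, smul_zero]

lemma trans_orth' {X : 𝒱.Obj} {u : W.H X} (hu : u ∈ transcendental W X) {l : ℕ} {c : W.H X}
    (hc : c ∈ spanCycles W X l) : W.tr X (c * u) = 0 := by
  rw [W.even_comm (span_gr hc)]
  exact trans_orth hu hc

namespace EProps

variable (h : EProps W P q π S)

include h

lemma F_pi (j : ι) : (W.map (P j).f).toLinearMap * piT (π j) =
    piT (π j) * (W.map (P j).f).toLinearMap := KOp.piT_comm (h.cproj j) (KOp.map _)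

omit h in
lemma F_proj (j : ι) (i : ℕ) : (W.map (P j).f).toLinearMap * proj (W.isInternal (P j).X) i =
    proj (W.isInternal (P j).X) i * (W.map (P j).f).toLinearMap :=
  ((map_isHom (P j).f).proj_comm (W.isInternal (P j).X) i).symm

lemma pi_proj (j : ι) (i : ℕ) : proj (W.isInternal (P j).X) i * piT (π j) =
    piT (π j) * proj (W.isInternal (P j).X) i :=
  (h.cproj j).piT_comm (Z := proj (W.isInternal (P j).X) i) (fun a ha => proj_trans i ha)
      (fun l u hu => proj_span i l hu)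

lemma spec_proj (j : ι) (i : ℕ) (α : W.K) : proj (W.isInternal (P j).X) i *
    spec (W.map (P j).f).toLinearMap (piT (π j)) (S j) α =
      spec (W.map (P j).f).toLinearMap (piT (π j)) (S j) α * proj (W.isInternal (P j).X) i :=
  spec_comm (Z := proj (W.isInternal (P j).X) i) (F_proj j i).symm (h.pi_proj j i) α

lemma eb_pi (j : ι) (i : ℕ) (α : W.K) : piT (π j) * eb W P π S j i α = eb W P π S j i α ∧
    eb W P π S j i α * piT (π j) = eb W P π S j i α := by
  have h1 := spec_pi (S := S j) (h.cproj j).piT_idem (h.F_pi j) α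
  constructor
  · rw [eb, ← mul_assoc, ← h.pi_proj, mul_assoc, h1.1]
  · rw [eb, mul_assoc, h1.2]

lemma eb_proj (j : ι) (i : ℕ) (α : W.K) :
    proj (W.isInternal (P j).X) i * eb W P π S j i α = eb W P π S j i α ∧
      eb W P π S j i α * proj (W.isInternal (P j).X) i = eb W P π S j i α := by
  constructor
  · rw [eb, ← mul_assoc, proj_mul_proj]
  · rw [eb, mul_assoc, ← h.spec_proj, ← mul_assoc, proj_mul_proj]

lemma eb_F (j : ι) (i : ℕ) {α : W.K} (hα : α ∈ S j) :
    (W.map (P j).f).toLinearMap * eb W P π S j i α = α • eb W P π S j i α ∧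
      eb W P π S j i α * (W.map (P j).f).toLinearMap = α • eb W P π S j i α := by
  constructor
  · rw [eb, ← mul_assoc, F_proj, mul_assoc, spec_mul_F (h.ann j) hα, mul_smul_comm]
  · rw [eb, mul_assoc, spec_F_mul (h.F_pi j) (h.ann j) hα, mul_smul_comm]

lemma eb_mem (j : ι) (i : ℕ) {α : W.K} (hα : α ∈ S j) (y : W.H (P j).X) :
    eb W P π S j i α y ∈ blkC W P j i α := by
  rw [mem_blkC]
  refine ⟨?_, ?_, ?_⟩
  · have h1 := congrArg (fun F => F y) (h.eb_pi j i α).1
    beta_reduce at h1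
    rw [← h1]
    exact (h.cproj j).piT_trans _
  · exact proj_mem _ _ _
  · exact congrArg (fun F => F y) (h.eb_F j i hα).1

lemma eb_fix {j : ι} {i : ℕ} {γ : W.K} {y : W.H (P j).X} (hy : y ∈ blkC W P j i γ)
    (hγ : γ ∈ S j) {α : W.K} (hα : α ∈ S j) :
    eb W P π S j i α y = if α = γ then y else 0 := by
  rw [mem_blkC] at hy
  have h1 := spec_eigen (F := (W.map (P j).f).toLinearMap) (π := piT (π j)) (S := S j)
    hy.2.2 ((h.cproj j).piT_fix hy.1) hγ hα
  rw [eb, Module.End.mul_apply, h1]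
  split_ifs
  · exact proj_same _ hy.2.1
  · rw [map_zero]

lemma mem_S {j : ι} {i : ℕ} {α : W.K} {y : W.H (P j).X} (hy : y ∈ blkC W P j i α)
    (hy0 : y ≠ 0) : α ∈ S j := by
  rw [mem_blkC] at hy
  have h1 := congrArg (fun F => F y) (h.ann j)
  beta_reduce at h1
  have h3 : W.map (P j).f y = α • y := hy.2.2
  rw [Module.End.mul_apply, (h.cproj j).piT_fix hy.1,
    poly_eigen (F := (W.map (P j).f).toLinearMap) (e := y) h3, LinearMap.zero_apply] at h1
  have h2 := (smul_eq_zero.1 h1).resolve_right hy0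
  rw [eval_prod, Finset.prod_eq_zero_iff] at h2
  obtain ⟨γ, hγ, hγ0⟩ := h2
  rw [eval_sub, eval_X, eval_C, sub_eq_zero] at hγ0
  rwa [hγ0]

lemma eb_sum (j : ι) : ∑ x ∈ range (2 * (P j).X.dim + 1) ×ˢ S j, eb W P π S j x.1 x.2 =
    piT (π j) := by
  rw [Finset.sum_product]
  have h1 : ∀ i, ∑ α ∈ S j, eb W P π S j i α = proj (W.isInternal (P j).X) i * piT (π j) := by
    intro i
    rw [← spec_sum (h.ann j), Finset.mul_sum]
    rfl
  rw [Finset.sum_congr rfl (fun i _ => h1 i), ← Finset.sum_mul,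
    sum_proj (W.isInternal (P j).X) (fun i hi => W.gr_eq_bot _ i (by omega)), one_mul]

/-- The expansion of a class. -/
lemma expand (j : ι) (b : W.H (P j).X) : b =
    ∑ x ∈ range (2 * (P j).X.dim + 1) ×ˢ S j, eb W P π S j x.1 x.2 b +
      ∑ l ∈ range ((P j).X.dim + 1), π j l b := by
  conv_lhs => rw [(h.cproj j).decomp b]
  rw [← h.eb_sum, LinearMap.sum_apply]

lemma tr_right {j : ι} {u : W.H (P j).X} (hu : u ∈ transcendental W (P j).X)
    (b : W.H (P j).X) : W.tr (P j).X (u * b) =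
      ∑ x ∈ range (2 * (P j).X.dim + 1) ×ˢ S j, W.tr (P j).X (u * eb W P π S j x.1 x.2 b) := by
  conv_lhs => rw [h.expand j b]
  rw [mul_add, map_add, Finset.mul_sum, Finset.mul_sum, map_sum, map_sum,
    Finset.sum_eq_zero (s := range ((P j).X.dim + 1)), add_zero]
  intro l _
  exact trans_orth hu ((h.cproj j).mem l b)

lemma tr_left {j : ι} {u : W.H (P j).X} (hu : u ∈ transcendental W (P j).X)
    (b : W.H (P j).X) : W.tr (P j).X (b * u) =
      ∑ x ∈ range (2 * (P j).X.dim + 1) ×ˢ S j, W.tr (P j).X (eb W P π S j x.1 x.2 b * u) := by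
  conv_lhs => rw [h.expand j b]
  rw [add_mul, map_add, Finset.sum_mul, Finset.sum_mul, map_sum, map_sum,
    Finset.sum_eq_zero (s := range ((P j).X.dim + 1)), add_zero]
  intro l _
  exact trans_orth' hu ((h.cproj j).mem l b)

/-- Eigenvectors which are not orthogonal. -/
lemma pair {j : ι} {i i' : ℕ} {α α' : W.K} {u u' : W.H (P j).X} (hu : u ∈ blkC W P j i α)
    (hu' : u' ∈ blkC W P j i' α') (hne : W.tr (P j).X (u * u') ≠ 0) :
    i + i' = 2 * (P j).X.dim ∧ α * α' = (q : W.K) ^ (P j).X.dim := by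
  rw [mem_blkC] at hu hu'
  constructor
  · by_contra h0
    exact hne (W.tr_eq_zero (W.mul_mem hu.2.1 hu'.2.1) h0)
  · have h1 := h.deg j (u * u')
    rw [map_mul, hu.2.2, hu'.2.2, smul_mul_smul_comm, map_smul, smul_eq_mul] at h1
    exact mul_right_cancel₀ hne h1

lemma q_ne : (q : W.K) ≠ 0 := by exact_mod_cast h.hq

lemma exists_dual {j : ι} {i : ℕ} {α : W.K} {y : W.H (P j).X} (hy : y ∈ blkC W P j i α)
    (hy0 : y ≠ 0) : i ≤ 2 * (P j).X.dim ∧ α ≠ 0 ∧ (q : W.K) ^ (P j).X.dim / α ∈ S j ∧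
      ∃ y' ∈ blkC W P j (2 * (P j).X.dim - i) ((q : W.K) ^ (P j).X.dim / α),
        W.tr (P j).X (y * y') ≠ 0 := by
  have hyT := (mem_blkC.1 hy).1
  obtain ⟨b, hb⟩ : ∃ b, W.tr (P j).X (y * b) ≠ 0 := by
    by_contra h0
    push Not at h0
    exact hy0 (W.nondeg y h0)
  rw [h.tr_right hyT] at hb
  obtain ⟨x, hx, hx0⟩ := Finset.exists_ne_zero_of_sum_ne_zero hb
  rw [Finset.mem_product] at hx
  have hmem := h.eb_mem j x.1 hx.2 b
  obtain ⟨h1, h2⟩ := h.pair hy hmem hx0
  have hα : α ≠ 0 := by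
    rintro rfl
    rw [zero_mul] at h2
    exact pow_ne_zero _ h.q_ne h2.symm
  have h3 : x.2 = (q : W.K) ^ (P j).X.dim / α := by
    rw [← h2]; field_simp
  have h4 : x.1 = 2 * (P j).X.dim - i := by omega
  refine ⟨by omega, hα, ?_, ?_⟩
  · rw [← h3]; exact hx.2
  · rw [← h3, ← h4]
    exact ⟨_, hmem, hx0⟩

/-- The adjoint of the projector onto an eigenspace. -/
lemma eb_adj {j : ι} {i : ℕ} {α : W.K} (hα : α ∈ S j) (hne : eb W P π S j i α ≠ 0) :
    i ≤ 2 * (P j).X.dim ∧ α ≠ 0 ∧ (q : W.K) ^ (P j).X.dim / α ∈ S j ∧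
      eb W P π S j (2 * (P j).X.dim - i) ((q : W.K) ^ (P j).X.dim / α) ≠ 0 ∧
      ∀ a b, W.tr (P j).X (eb W P π S j i α a * b) = W.tr (P j).X
        (a * eb W P π S j (2 * (P j).X.dim - i) ((q : W.K) ^ (P j).X.dim / α) b) := by
  obtain ⟨a, ha⟩ : ∃ a, eb W P π S j i α a ≠ 0 := by
    by_contra h0
    push Not at h0
    exact hne (LinearMap.ext h0)
  obtain ⟨h1, h2, h3, y', hy', hyy⟩ := h.exists_dual (h.eb_mem j i hα a) ha
  have hy0 : y' ≠ 0 := by
    rintro rfl
    rw [mul_zero, map_zero] at hyy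
    exact hyy rfl
  refine ⟨h1, h2, h3, ?_, ?_⟩
  · intro h0
    have h4 := h.eb_fix hy' h3 h3
    rw [if_pos rfl, h0, LinearMap.zero_apply] at h4
    exact hy0 h4.symm
  · intro a b
    have hmem : ((2 * (P j).X.dim - i, (q : W.K) ^ (P j).X.dim / α) : ℕ × W.K) ∈
        range (2 * (P j).X.dim + 1) ×ˢ S j := by
      rw [Finset.mem_product]
      exact ⟨Finset.mem_range.2 (by
        change 2 * (P j).X.dim - i < _
        omega), h3⟩
    have hmem' : ((i, α) : ℕ × W.K) ∈ range (2 * (P j).X.dim + 1) ×ˢ S j := by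
      rw [Finset.mem_product]
      exact ⟨Finset.mem_range.2 (by change i < _; omega), hα⟩
    rw [h.tr_right (mem_blkC.1 (h.eb_mem j i hα a)).1 b,
      h.tr_left (mem_blkC.1 (h.eb_mem j (2 * (P j).X.dim - i) h3 b)).1 a,
      Finset.sum_eq_single _ _ (fun h0 => absurd hmem h0),
      Finset.sum_eq_single _ _ (fun h0 => absurd hmem' h0)]
    · intro x hx hx0
      by_contra h0
      rw [Finset.mem_product] at hx
      obtain ⟨e1, e2⟩ := h.pair (h.eb_mem j x.1 hx.2 a) (h.eb_mem j _ h3 b) h0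
      apply hx0
      refine Prod.ext ?_ ?_
      · change x.1 = i
        omega
      · change x.2 = α
        rw [mul_div_assoc', div_eq_iff h2, mul_comm, mul_comm _ α] at e2
        exact mul_left_cancel₀ (pow_ne_zero _ h.q_ne) (e2.trans (mul_comm _ _))
    · intro x hx hx0
      by_contra h0
      rw [Finset.mem_product] at hx
      obtain ⟨e1, e2⟩ := h.pair (h.eb_mem j i hα a) (h.eb_mem j x.1 hx.2 b) h0
      apply hx0
      refine Prod.ext ?_ ?_
      · change x.1 = 2 * (P j).X.dim - i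
        omega
      · change x.2 = (q : W.K) ^ (P j).X.dim / α
        rw [← e2]; field_simp

/-- Every linear map between eigenspaces with the same normal form is algebraic. -/
lemma eb_homs {j j' : ι} {i i' : ℕ} {α α' : W.K} (hα : α ∈ S j) (hα' : α' ∈ S j')
    (hii : i % 2 = i' % 2) (hαα : α / (q : W.K) ^ (i / 2) = α' / (q : W.K) ^ (i' / 2))
    (E : W.H (P j).X →ₗ[W.K] W.H (P j').X) :
    eb W P π S j' i' α' ∘ₗ E ∘ₗ eb W P π S j i α ∈
      KOp W (P j).X (P j').X (((i' / 2 : ℕ) : ℤ) - ((i / 2 : ℕ) : ℤ)) := by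
  apply h.homs j j' i i' hii
  · rw [← LinearMap.comp_assoc]
    congr 1
    exact (h.eb_pi j' i' α').1
  · rw [LinearMap.comp_assoc, LinearMap.comp_assoc]
    congr 2
    exact (h.eb_pi j i α).2
  · rw [← LinearMap.comp_assoc]
    congr 1
    exact (h.eb_proj j' i' α').1
  · rw [LinearMap.comp_assoc, LinearMap.comp_assoc]
    congr 2
    exact (h.eb_proj j i α).2
  · have e1 : (W.map (P j').f).toLinearMap ∘ₗ eb W P π S j' i' α' ∘ₗ E ∘ₗ eb W P π S j i α =
        α' • (eb W P π S j' i' α' ∘ₗ E ∘ₗ eb W P π S j i α) := by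
      rw [← LinearMap.comp_assoc, ← LinearMap.smul_comp]
      congr 1
      exact (h.eb_F j' i' hα').1
    have e2 : (eb W P π S j' i' α' ∘ₗ E ∘ₗ eb W P π S j i α) ∘ₗ (W.map (P j).f).toLinearMap =
        α • (eb W P π S j' i' α' ∘ₗ E ∘ₗ eb W P π S j i α) := by
      rw [LinearMap.comp_assoc, LinearMap.comp_assoc, ← LinearMap.comp_smul,
        ← LinearMap.comp_smul]
      congr 2
      exact (h.eb_F j i hα).2
    rw [e1, e2, smul_smul, smul_smul]
    congr 1
    rw [div_eq_div_iff (pow_ne_zero _ h.q_ne) (pow_ne_zero _ h.q_ne)] at hαα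
    rw [mul_comm, ← hαα, mul_comm]

end EProps

end Pool.Agent.H914
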