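import Pool.Agent.H914R2.EBase

/-!
# The blocks of the members of the family, continued
-/

open CategoryTheory AlgebraicGeometry Finset TensorProduct Polynomial

universe u v w

namespace Pool.Agent.H914

open VarClass Obj WeilCohomology

variable {k : Type u} [Field k] {𝒱 : VarClass k} {ops : CycleOps 𝒱}
  {W : WeilCohomology.{u, v} ops} {ι : Type w} {P : ι → EndVar 𝒱} {q : ℕ}

lemma exists_hom {K : Type*} [Field K] {V V' : Type*} [AddCommGroup V] [Module K V]
    [AddCommGroup V'] [Module K V'] {x : V} (hx : x ≠ 0) (y : V') :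
    ∃ A : V →ₗ[K] V', A x = y := by
  obtain ⟨f, hf⟩ := Module.Projective.exists_dual_eq_one K hx
  exact ⟨f.smulRight y, by rw [LinearMap.smulRight_apply, hf, one_smul]⟩

variable [DecidableEq W.K] {π : ∀ j, ℕ → Module.End W.K (W.H (P j).X)} {S : ι → Finset W.K}

/-- The properties of the eigenspaces. -/
theorem EProps.labProps (h : EProps W P q π S) : LabProps W P q where
  hq := h.hq
  rep := by
    rintro ⟨j, i, α⟩ ⟨j', i', α'⟩ hx hxx y' hy'
    by_cases hy0 : y' = 0
    · exact ⟨0, 0, Submodule.zero_mem _, 0, Submodule.zero_mem _, by rw [hy0, map_zero]⟩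
    obtain ⟨y, hy, hyne⟩ := (Submodule.ne_bot_iff _).1 hx
    have hy1 : y ∈ blkC W P j i α := hy
    have hy2 : y' ∈ blkC W P j' i' α' := hy'
    have hα : α ∈ S j := h.mem_S hy1 hyne
    have hα' : α' ∈ S j' := h.mem_S hy2 hy0
    obtain ⟨A, hA⟩ := exists_hom (K := W.K) hyne y'
    refine ⟨_, _, h.eb_homs hα hα' (congrArg Prod.fst hxx) (congrArg Prod.snd hxx) A, y, hy, ?_⟩
    rw [LinearMap.comp_apply, LinearMap.comp_apply, h.eb_fix hy1 hα hα, if_pos rfl, hA,
      h.eb_fix hy2 hα' hα', if_pos rfl]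
  dual := by
    rintro ⟨j, i, α⟩ hx
    obtain ⟨y, hy, hyne⟩ := (Submodule.ne_bot_iff _).1 hx
    have hy1 : y ∈ blkC W P j i α := hy
    obtain ⟨-, -, -, y', hy', hne⟩ := h.exists_dual hy1 hyne
    refine ⟨y, hy, y', hy', ?_⟩
    have h1 : W.tr (P j).X (y' * y) ≠ 0 := by
      rw [W.comm (mem_blkC.1 hy').2.1 (mem_blkC.1 hy1).2.1, map_smul, smul_eq_mul]
      exact mul_ne_zero (pow_ne_zero _ (by norm_num)) hne
    exact h1

/-- **The blocks of a member of the family.** -/
theorem EProps.hasGBlk (h : EProps W P q π S) (j : ι) : HasGBlk W P q (P j).X := by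
  classical
  set n := (P j).X.dim with hn
  set R₁ : Finset ℕ := (range (n + 1)).filter (fun l : ℕ => spanCycles W (P j).X l ≠ ⊥) with hR₁
  set R₂ : Finset (ℕ × W.K) := (range (2 * n + 1) ×ˢ S j).filter
    (fun x => eb W P π S j x.1 x.2 ≠ 0) with hR₂
  have hR₁l : ∀ l : R₁, (l : ℕ) ≤ n := fun l => by
    have := Finset.mem_range.1 (Finset.mem_filter.1 l.2).1
    omega
  have hR₂l : ∀ x : R₂, x.1.1 ≤ 2 * n ∧ x.1.2 ∈ S j ∧ eb W P π S j x.1.1 x.1.2 ≠ 0 := fun x => by
    have h1 := Finset.mem_filter.1 x.2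
    have h2 := Finset.mem_product.1 h1.1
    have h3 := Finset.mem_range.1 h2.1
    exact ⟨by omega, h2.2, h1.2⟩
  have hC := h.cproj j
  -- dual algebraic classes
  have hdual : ∀ l : R₁, ∃ u ∈ algClasses W (P j).X l, ∃ v ∈ algClasses W (P j).X (n - l),
      W.tr (P j).X (u * v) ≠ 0 := by
    intro l
    have hl := (Finset.mem_filter.1 l.2).2
    obtain ⟨x, hx, hx0⟩ : ∃ x ∈ algClasses W (P j).X l, x ≠ 0 := by
      by_contra h0
      push Not at h0
      apply hl
      rw [spanCycles_eq, Submodule.span_eq_bot]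
      exact h0
    obtain ⟨x', hx', hxx'⟩ : ∃ x' ∈ algClasses W (P j).X (n - l), bil W (P j).X x x' ≠ 0 := by
      by_contra h0
      push Not at h0
      exact hx0 (cNondeg (h.numD j) (l' := n - l) (by have := hR₁l l; omega)
        (alg_mem_span hx) h0)
    exact ⟨x, hx, x', hx', hxx'⟩
  apply GBlk.hasGBlk (κ := R₁ ⊕ R₂)
    (e := Sum.elim (fun l : R₁ => π j l) (fun x : R₂ => eb W P π S j x.1.1 x.1.2))
    (lab := Sum.elim (fun _ => []) (fun x : R₂ => [(j, x.1.1, x.1.2)]))
  refine ⟨?_, ?_, ?_, ?_, ?_, ?_, ?_⟩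
  · rw [Fintype.sum_sum_type]
    simp only [Sum.elim_inl, Sum.elim_inr]
    rw [Finset.sum_coe_sort R₁ (fun l : ℕ => π j l),
      Finset.sum_coe_sort R₂ (fun x : ℕ × W.K => eb W P π S j x.1 x.2), hR₁, hR₂]
    rw [Finset.sum_filter_of_ne (p := fun l : ℕ => spanCycles W (P j).X l ≠ ⊥)
        (f := fun l : ℕ => π j l),
      Finset.sum_filter_of_ne (p := fun x : ℕ × W.K => eb W P π S j x.1 x.2 ≠ 0)
        (f := fun x : ℕ × W.K => eb W P π S j x.1 x.2), h.eb_sum]
    · rw [piT, add_sub_cancel]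
    · intro x _ hx; exact hx
    · intro l _ hl h0
      apply hl
      apply LinearMap.ext
      intro a
      have := hC.mem l a
      rw [h0] at this
      exact (Submodule.mem_bot _).1 this
  · rintro (l | x) p a ha
    · simp only [Sum.elim_inl]
      by_cases hp : p = 2 * (l : ℕ)
      · rw [hp]; exact span_gr (hC.mem l a)
      · rw [hC.kill l (hR₁l l) a (fun c hc => bil_eq_zero ha (alg_gr hc) (by
          have := hR₁l l
          omega))]
        exact Submodule.zero_mem _
    · simp only [Sum.elim_inr]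
      by_cases hp : p = x.1.1
      · rw [hp]; exact proj_mem _ _ _
      · have h1 := congrArg (fun F => F a) (h.eb_proj j x.1.1 x.1.2).2
        beta_reduce at h1
        rw [Module.End.mul_apply, proj_ne _ ha hp, map_zero] at h1
        rw [← h1]
        exact Submodule.zero_mem _
  · rintro (l | x) A
    · simp only [Sum.elim_inl]
      exact hC.alg l A
    · simp only [Sum.elim_inr]
      have h1 := h.eb_homs (hR₂l x).2.1 (hR₂l x).2.1 rfl rfl A (i := x.1.1) (i' := x.1.1)
      exact KOp.cast h1 (sub_self _)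
  · rintro (l | x)
    · obtain ⟨u, hu, v, hv, huv⟩ := hdual l
      have hl := hR₁l l
      have hmem : n - (l : ℕ) ∈ R₁ := by
        refine Finset.mem_filter.2 ⟨Finset.mem_range.2 (by omega), ?_⟩
        intro h0
        have h1 := alg_mem_span hv
        rw [h0] at h1
        rw [(Submodule.mem_bot _).1 h1, mul_zero, map_zero] at huv
        exact huv rfl
      refine ⟨Sum.inl ⟨n - (l : ℕ), hmem⟩, rfl, ?_⟩
      intro a b
      simp only [Sum.elim_inl]
      have h1 : ∀ c ∈ spanCycles W (P j).X l, W.tr (P j).X (c * b) =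
          W.tr (P j).X (c * π j (n - (l : ℕ)) b) := by
        intro c hc
        rw [spanCycles_eq] at hc
        induction hc using Submodule.span_induction with
        | mem c hc =>
          rw [W.even_comm (alg_gr hc), W.even_comm (alg_gr hc)]
          have h2 := hC.adj (n - (l : ℕ)) (by omega) b c
            (by rwa [show (P j).X.dim - (n - (l : ℕ)) = l by omega])
          rw [bil_apply, bil_apply] at h2
          exact h2.symm
        | zero => rw [zero_mul, zero_mul]
        | add x y _ _ hx hy => rw [add_mul, map_add, hx, hy, add_mul, map_add]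
        | smul r x _ hx => rw [smul_mul_assoc, map_smul, hx, smul_mul_assoc, map_smul]
      have h2 : ∀ c ∈ spanCycles W (P j).X ((n - (l : ℕ) : ℕ) : ℤ),
          W.tr (P j).X (π j l a * c) = W.tr (P j).X (a * c) := by
        intro c hc
        rw [spanCycles_eq] at hc
        induction hc using Submodule.span_induction with
        | mem c hc => exact hC.adj l hl a c hc
        | zero => rw [mul_zero, mul_zero]
        | add x y _ _ hx hy => rw [mul_add, map_add, hx, hy, mul_add, map_add]
        | smul r x _ hx => rw [mul_smul_comm, map_smul, hx, mul_smul_comm, map_smul]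
      rw [h1 _ (hC.mem l a), h2 _ (hC.mem _ b)]
    · obtain ⟨h1, h2, h3⟩ := hR₂l x
      obtain ⟨e1, e2, e3, e4, e5⟩ := h.eb_adj h2 h3
      have hmem : ((2 * n - x.1.1, (q : W.K) ^ n / x.1.2) : ℕ × W.K) ∈ R₂ := by
        refine Finset.mem_filter.2 ⟨Finset.mem_product.2 ⟨Finset.mem_range.2 ?_, e3⟩, e4⟩
        change 2 * n - x.1.1 < _
        omega
      exact ⟨Sum.inr ⟨_, hmem⟩, rfl, e5⟩
  · rintro (l | x) Z c hc
    · simp only [Sum.elim_inl] at hc ⊢
      rw [List.map_eq_nil_iff] at hc
      subst hc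
      obtain ⟨u, hu, v, hv, huv⟩ := hdual l
      refine ⟨_, _, KOp.functional (Z := Z) hv, (W.tr (P j).X (u * v))⁻¹ • u, ?_⟩
      rw [map_smul, map_smul, hC.fix l (hR₁l l) u (alg_mem_span hu), LinearMap.smulRight_apply,
        LinearMap.comp_apply, LinearMap.mulLeft_apply, ← W.even_comm (alg_gr hu), smul_smul,
        inv_mul_cancel₀ huv, one_smul]
      rfl
    · simp only [Sum.elim_inr] at hc ⊢
      obtain ⟨d, rfl, hd⟩ := List.map_eq_singleton_iff.1 hc
      obtain ⟨dx, dg, dy, hdy⟩ := d
      change dx = (j, x.1.1, x.1.2) at hd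
      subst hd
      have hdy' : dy ∈ blkC W P j x.1.1 x.1.2 := hdy
      refine ⟨0, (W.map dg).toLinearMap, KOp.pullback dg, dy, ?_⟩
      rw [h.eb_fix hdy' (hR₂l x).2.1 (hR₂l x).2.1, if_pos rfl, pe_cons, pe_nil, mul_one]
      rfl
  · rintro (l | x) a
    · simp only [Sum.elim_inl]
      apply Submodule.subset_span
      exact ⟨_, algS_span (hC.mem l a), [], rfl, by rw [pe_nil, mul_one]⟩
    · simp only [Sum.elim_inr]
      apply Submodule.subset_span
      let d : Crd W P (P j).X := ⟨(j, x.1.1, x.1.2), 𝟙 _, eb W P π S j x.1.1 x.1.2 a,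
        h.eb_mem j x.1.1 (hR₂l x).2.1 a⟩
      have hd : d.ev = eb W P π S j x.1.1 x.1.2 a := W.map_id _ _
      exact ⟨1, algS_one, [d], rfl, by rw [pe_cons, pe_nil, one_mul, mul_one, hd]⟩
  · rintro (l | x) y hy
    · simp only [Sum.elim_inl, List.not_mem_nil] at hy
    · simp only [Sum.elim_inr, List.mem_singleton] at hy
      subst hy
      obtain ⟨h1, h2, h3⟩ := hR₂l x
      intro h0
      apply h3
      apply LinearMap.ext
      intro a
      have h4 : eb W P π S j x.1.1 x.1.2 a ∈ blkS W P (j, x.1.1, x.1.2) :=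
        h.eb_mem j x.1.1 h2 a
      rw [h0] at h4
      exact (Submodule.mem_bot _).1 h4

/-- All products of members have blocks. -/
theorem EProps.hasGBlk_product (h : EProps W P q π S) {Q : EndVar 𝒱} (hQ : IsFamilyProduct P Q) :
    HasGBlk W P q Q.X := by
  induction hQ with
  | base j => exact h.hasGBlk j
  | prod _ _ h1 h2 => exact HasGBlk.prod h1 h2

end Pool.Agent.H914
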