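import Pool.Agent.H914R2.EKey

/-!
# Decompositions of the cohomology into labelled blocks
-/

open CategoryTheory AlgebraicGeometry Finset TensorProduct Polynomial

universe u v w

namespace Pool.Agent.H914

open VarClass Obj WeilCohomology

variable {k : Type u} [Field k] {𝒱 : VarClass k} {ops : CycleOps 𝒱}
  {W : WeilCohomology.{u, v} ops} {X Y Z : 𝒱.Obj} {ι : Type w} {P : ι → EndVar 𝒱} {q : ℕ}

/-- A decomposition of the cohomology into blocks on which all operators are algebraic, labelled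
by lists of labels. -/
structure GBlk (W : WeilCohomology.{u, v} ops) (P : ι → EndVar 𝒱) (q : ℕ) (Q : 𝒱.Obj)
    (κ : Type*) [Fintype κ] (e : κ → Module.End W.K (W.H Q)) (lab : κ → List (ι × ℕ × W.K)) :
    Prop where
  sum : ∑ i, e i = 1
  hom : ∀ i p, ∀ a ∈ W.gr Q p, e i a ∈ W.gr Q p
  alg : ∀ i (A : Module.End W.K (W.H Q)), e i * A * e i ∈ KOp W Q Q 0
  adj : ∀ i, ∃ j, lab j = (lab i).map (barLab W P q) ∧
    ∀ a b, W.tr Q (e i a * b) = W.tr Q (a * e j b)
  rep : ∀ i (Z : 𝒱.Obj) (c : List (Crd W P Z)), c.map Crd.x = lab i →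
    ∃ (d : ℤ) (Φ : W.H Q →ₗ[W.K] W.H Z), Φ ∈ KOp W Q Z d ∧ ∃ x, Φ (e i x) = pe c
  spn : ∀ i a, e i a ∈ Submodule.span W.K {w | ∃ b ∈ algS W Q, ∃ c : List (Crd W P Q),
    c.map Crd.x = lab i ∧ w = b * pe c}
  nz : ∀ i, ∀ x ∈ lab i, blkS W P x ≠ ⊥

/-- The variety has a decomposition into labelled blocks. -/
def HasGBlk (W : WeilCohomology.{u, v} ops) (P : ι → EndVar 𝒱) (q : ℕ) (Q : 𝒱.Obj) : Prop :=
  ∃ (κ : Type) (_ : Fintype κ) (e : κ → Module.End W.K (W.H Q))
    (lab : κ → List (ι × ℕ × W.K)), GBlk W P q Q κ e lab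

lemma GBlk.hasGBlk {Q : 𝒱.Obj} {κ : Type*} [Fintype κ] {e : κ → Module.End W.K (W.H Q)}
    {lab : κ → List (ι × ℕ × W.K)} (h : GBlk W P q Q κ e lab) : HasGBlk W P q Q := by
  classical
  set c := Fintype.equivFin κ with hc
  refine ⟨Fin (Fintype.card κ), inferInstance, fun i => e (c.symm i), fun i => lab (c.symm i), ?_⟩
  refine ⟨?_, fun i => h.hom _, fun i => h.alg _, ?_, fun i => h.rep _, fun i => h.spn _,
    fun i => h.nz _⟩
  · rw [← h.sum]
    exact Equiv.sum_comp c.symm e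
  · intro i
    obtain ⟨j, hj1, hj2⟩ := h.adj (c.symm i)
    exact ⟨c j, by simpa using hj1, by simpa using hj2⟩

/-- Span induction for external products. -/
lemma span_tmul' {s : Set (W.H X)} {s' : Set (W.H Y)} {T : Submodule W.K (W.H (X.prod Y))}
    (h : ∀ a ∈ s, ∀ b ∈ s', W.map (fst X Y) a * W.map (snd X Y) b ∈ T) {a : W.H X} {b : W.H Y}
    (ha : a ∈ Submodule.span W.K s) (hb : b ∈ Submodule.span W.K s') :
    W.map (fst X Y) a * W.map (snd X Y) b ∈ T := span_tmul h ha hb

/-- Blocks are stable under products. -/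
theorem HasGBlk.prod (hY : HasGBlk W P q Y) (hZ : HasGBlk W P q Z) :
    HasGBlk W P q (Y.prod Z) := by
  classical
  obtain ⟨κ, _, e, lab, hB⟩ := hY
  obtain ⟨κ', _, e', lab', hB'⟩ := hZ
  refine ⟨κ × κ', inferInstance, fun s => extOp W (e s.1) (e' s.2),
    fun s => lab s.1 ++ lab' s.2, ?_⟩
  refine ⟨?_, ?_, ?_, ?_, ?_, ?_, ?_⟩
  · rw [Fintype.sum_prod_type]
    have : ∀ i, ∑ j, extOp W (e i) (e' j) = extOp W (e i) 1 := by
      intro i
      rw [← hB'.sum, extOp_sum']
    rw [Finset.sum_congr rfl (fun i _ => this i), ← extOp_sum, hB.sum, extOp_one]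
  · intro s p a ha
    -- projection onto the homogeneous components
    have key : ∀ c : W.H (Y.prod Z), extOp W (e s.1) (e' s.2)
        (proj (W.isInternal (Y.prod Z)) p c) ∈ W.gr (Y.prod Z) p := by
      intro c
      refine W.kunneth_induction (p := fun c => extOp W (e s.1) (e' s.2)
        (proj (W.isInternal (Y.prod Z)) p c) ∈ W.gr (Y.prod Z) p) ?_ ?_ c
      · intro x y hx hy
        rw [map_add, map_add]
        exact Submodule.add_mem _ hx hy
      · intro i j x hx y hy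
        have hxy := W.mul_mem (W.map_mem (fst Y Z) hx) (W.map_mem (snd Y Z) hy)
        by_cases hij : i + j = p
        · rw [hij] at hxy
          rw [proj_same _ hxy, extOp_tmul, ← hij]
          exact kappa_mem (hB.hom _ _ _ hx) (hB'.hom _ _ _ hy)
        · rw [proj_ne _ hxy hij, map_zero]
          exact Submodule.zero_mem _
    have := key a
    rwa [proj_same _ ha] at this
  · intro s A
    refine extOp_induction (p := fun A => extOp W (e s.1) (e' s.2) * A *
      extOp W (e s.1) (e' s.2) ∈ KOp W (Y.prod Z) (Y.prod Z) 0) ?_ ?_ ?_ A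
    · rw [mul_zero, zero_mul]; exact Submodule.zero_mem _
    · intro A B hA hB
      rw [mul_add, add_mul]; exact Submodule.add_mem _ hA hB
    · intro φ ψ
      rw [extOp_mul, extOp_mul]
      exact KOp.cast (KOp.ext (hB.alg s.1 φ) (hB'.alg s.2 ψ)) (add_zero 0)
  · intro s
    obtain ⟨i, hi, hia⟩ := hB.adj s.1
    obtain ⟨j, hj, hja⟩ := hB'.adj s.2
    refine ⟨(i, j), ?_, ?_⟩
    · rw [List.map_append, hi, hj]
    · intro a b
      refine W.kunneth_induction (p := fun a => W.tr (Y.prod Z) (extOp W (e s.1) (e' s.2) a * b) =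
        W.tr (Y.prod Z) (a * extOp W (e i) (e' j) b)) ?_ ?_ a
      · intro x y hx hy
        rw [map_add, add_mul, add_mul, map_add, map_add, hx, hy]
      intro i₁ j₁ a₁ _ a₂ ha₂
      refine W.kunneth_induction (p := fun b => W.tr (Y.prod Z) (extOp W (e s.1) (e' s.2)
        (W.map (fst Y Z) a₁ * W.map (snd Y Z) a₂) * b) =
        W.tr (Y.prod Z) (W.map (fst Y Z) a₁ * W.map (snd Y Z) a₂ *
          extOp W (e i) (e' j) b)) ?_ ?_ b
      · intro x y hx hy
        rw [map_add, mul_add, mul_add, map_add, map_add, hx, hy]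
      intro i₂ j₂ b₁ hb₁ b₂ _
      rw [extOp_tmul, extOp_tmul, tmul_mul (hB'.hom _ _ _ ha₂) hb₁,
        tmul_mul ha₂ (hB.hom _ _ _ hb₁), map_smul, map_smul, W.tr_prod, W.tr_prod, hia, hja]
  · intro s T c hc
    obtain ⟨c₁, c₂, rfl, h1, h2⟩ := List.map_eq_append_iff.1 hc
    obtain ⟨d, Φ, hΦ, x, hx⟩ := hB.rep s.1 T c₁ h1
    obtain ⟨d', Φ', hΦ', x', hx'⟩ := hB'.rep s.2 T c₂ h2
    obtain ⟨Ψ, hΨ, hΨ'⟩ := KOp.mulExt hΦ hΦ'
    refine ⟨_, Ψ, hΨ, W.map (fst Y Z) x * W.map (snd Y Z) x', ?_⟩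
    rw [extOp_tmul, hΨ', hx, hx', pe_append]
  · intro s a
    refine W.kunneth_induction (p := fun a => extOp W (e s.1) (e' s.2) a ∈
      Submodule.span W.K {w | ∃ b ∈ algS W (Y.prod Z), ∃ c : List (Crd W P (Y.prod Z)),
        c.map Crd.x = lab s.1 ++ lab' s.2 ∧ w = b * pe c}) ?_ ?_ a
    · intro x y hx hy
      rw [map_add]; exact Submodule.add_mem _ hx hy
    intro i j a _ b _
    rw [extOp_tmul]
    apply span_tmul _ (hB.spn s.1 a) (hB'.spn s.2 b)
    rintro _ ⟨u, hu, c, hc, rfl⟩ _ ⟨u', hu', c', hc', rfl⟩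
    apply Submodule.subset_span
    refine ⟨W.map (fst Y Z) u * W.map (snd Y Z) u', algS_mul (algS_map _ hu) (algS_map _ hu'),
      c.map (Crd.comp (fst Y Z)) ++ c'.map (Crd.comp (snd Y Z)), ?_, ?_⟩
    · rw [List.map_append, List.map_map, List.map_map]
      have e1 : (c.map (Crd.x ∘ Crd.comp (fst Y Z))) = c.map Crd.x := rfl
      have e2 : (c'.map (Crd.x ∘ Crd.comp (snd Y Z))) = c'.map Crd.x := rfl
      rw [e1, e2, hc, hc']
    · rw [pe_append, pe_comp, pe_comp, map_mul (W.map (fst Y Z)), map_mul (W.map (snd Y Z)),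
        mul_assoc, mul_assoc, ← mul_assoc (W.map (fst Y Z) (pe c)),
        ← algS_comm (algS_map (snd Y Z) hu') (W.map (fst Y Z) (pe c))]
      simp only [mul_assoc]
  · intro s x hx
    rw [List.mem_append] at hx
    rcases hx with hx | hx
    · exact hB.nz _ x hx
    · exact hB'.nz _ x hx

/-- The products of a numerically trivial class with algebraic classes have trace zero. -/
lemma tr_mul_algS {j : ℕ} (hj : j ≤ X.dim) {z : X.Cycles} (hz : X.IsCyc j z)
    (hnum : ∀ w, X.IsCyc (X.dim - j) w → X.V.degCycle (ops.mul z w) = 0) {a : W.H X}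
    (ha : a ∈ algS W X) : W.tr X (W.cl X z * a) = 0 := by
  induction ha using Submodule.span_induction with
  | mem a ha =>
    obtain ⟨p, w, hw, rfl⟩ := ha
    by_cases hp : j + p = X.dim
    · obtain rfl : p = X.dim - j := by omega
      have h1 := ops.mul_mem hz hw
      rw [hp] at h1
      rw [← W.cl_mul, W.tr_cl h1, hnum w hw, Rat.cast_zero]
    · exact W.tr_eq_zero (W.mul_mem (W.cl_mem hz) (W.cl_mem hw)) (by omega)
  | zero => rw [mul_zero, map_zero]
  | add x y _ _ hx hy => rw [mul_add, map_add, hx, hy, add_zero]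
  | smul r x _ hx => rw [mul_smul_comm, map_smul, hx, smul_zero]

/-- **The conjecture D for varieties with labelled blocks.** -/
theorem homEqNum_of_gBlk (hX : HasGBlk W P q X)
    (hkey : ∀ s : Multiset (ι × ℕ × W.K), (∀ x ∈ s, blkS W P x ≠ ⊥) → AlgM W P s →
      AlgM W P (s.map (barLab W P q))) : HomEqNum W X := by
  classical
  obtain ⟨κ, _, e, lab, hB⟩ := hX
  intro j hj z hz hnum
  by_contra hx
  set x := W.cl X z with hxdef
  have hxa : x ∈ algS W X := algS_of ⟨z, hz, rfl⟩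
  obtain ⟨i, hi⟩ : ∃ i, e i x ≠ 0 := by
    by_contra h0
    push Not at h0
    apply hx
    have h1 := congrArg (fun F => F x) hB.sum
    simp only [LinearMap.sum_apply, h0, Finset.sum_const_zero, Module.End.one_apply] at h1
    exact h1.symm
  -- the whole block is algebraic
  have hblk : ∀ y, e i y ∈ algS W X := by
    intro y
    obtain ⟨A, hA⟩ := exists_end (K := W.K) hi y
    have h1 := KOp.map_algS (hB.alg i A) hxa
    rwa [Module.End.mul_apply, Module.End.mul_apply, hA] at h1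
  have hM : AlgM W P (lab i : Multiset (ι × ℕ × W.K)) := by
    apply AlgM.of_list
    intro Z c hc
    obtain ⟨d, Φ, hΦ, y, hy⟩ := hB.rep i Z c hc
    rw [← hy]
    exact KOp.map_algS hΦ (hblk y)
  have hM' := hkey _ (fun y hy => hB.nz i y hy) hM
  obtain ⟨i', hi', hadj⟩ := hB.adj i
  have hblk' : ∀ y, e i' y ∈ algS W X := by
    intro y
    have h1 := hB.spn i' y
    have h2 : Submodule.span W.K {w | ∃ b ∈ algS W X, ∃ c : List (Crd W P X),
        c.map Crd.x = lab i' ∧ w = b * pe c} ≤ algS W X := by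
      rw [Submodule.span_le]
      rintro _ ⟨b, hb, c, hc, rfl⟩
      apply algS_mul hb
      apply hM'
      rw [hc, hi', Multiset.map_coe]
    exact h2 h1
  apply hi
  apply W.nondeg
  intro b
  rw [hadj]
  exact tr_mul_algS hj hz hnum (hblk' b)

end Pool.Agent.H914
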