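import Pool.Agent.H914R2.PDefs
import Pool.Agent.H914R2.DDefs

/-!
# Galois-stable multisets of Frobenius eigenvalues: definitions
-/

open CategoryTheory AlgebraicGeometry Polynomial

universe u v w

namespace Pool.Agent.H914

section Alg

variable {K : Type*} [Field K]

/-- Up to twists by powers of `q`, the multiset `s` of pairs (weight `i`, number `α`) is symmetric
under `α ↦ q ^ i / α`: it does not change if every pair `(i, α)` is replaced by `(i, q ^ i / α)`
and every pair `(i, β)` is then reduced to the pair `(i mod 2, β / q ^ ⌊i / 2⌋)`. -/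
def TwistSymmetric {L : Type*} [Field L] (q : ℕ) (s : Multiset (ℕ × L)) : Prop :=
  s.map (fun x => (x.1 % 2, x.2 / (q : L) ^ (x.1 / 2))) =
    s.map (fun x => (x.1 % 2, (q : L) ^ x.1 / x.2 / (q : L) ^ (x.1 / 2)))

/-- Every finite multiset `s` of elements `(i, α)` of `E` which is stable under all automorphisms
of `L` over `K`, which has even total weight `2 r` and for which the product of the numbers `α` is
`q ^ r` up to a root of unity, is symmetric up to twists. -/
def StableSymmetric (K : Type*) [Field K] {L : Type*} [Field L] [Algebra K L] (E : Set (ℕ × L))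
    (q : ℕ) : Prop :=
  ∀ s : Multiset (ℕ × L), (∀ x ∈ s, x ∈ E) →
    (∀ σ : L ≃ₐ[K] L, s.map (fun x => (x.1, σ x.2)) = s) →
    ∀ m ≥ 1, ∀ r : ℕ, (s.map Prod.fst).sum = 2 * r →
      (s.map Prod.snd).prod ^ m = (q : L) ^ (m * r) → TwistSymmetric q s

/-- Every linear map `Z` between the spaces `A` and `B` graded by `gr` and `gr'` which maps
`T ∩ gr i` to `T' ∩ gr' j`, vanishes on `T ∩ gr l` for all `l ≠ i` and satisfies
`c F' Z = c' Z F` on `T`, agrees on `T` with an element of the space `E` of linear maps. -/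
def TwistedHomsIn {A B : Type*} [AddCommGroup A] [Module K A] [AddCommGroup B] [Module K B]
    (gr : ℕ → Submodule K A) (gr' : ℕ → Submodule K B) (F : Module.End K A) (F' : Module.End K B)
    (T : Submodule K A) (T' : Submodule K B) (i j : ℕ) (c c' : K)
    (E : Submodule K (A →ₗ[K] B)) : Prop :=
  ∀ Z : A →ₗ[K] B, (∀ a ∈ T ⊓ gr i, Z a ∈ T' ⊓ gr' j) → (∀ l ≠ i, ∀ a ∈ T ⊓ gr l, Z a = 0) →
    (∀ a ∈ T, c • F' (Z a) = c' • Z (F a)) → ∃ Z' ∈ E, ∀ a ∈ T, Z a = Z' a

/-- The linear combinations of the linear maps given by the elements of `S`. -/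
def homSpan {A B C : Type*} [Ring A] [Algebra K A] [Ring B] [Algebra K B] [Ring C] [Algebra K C]
    (p : A →ₐ[K] C) (s : C →ₗ[K] B) (S : Set C) : Submodule K (A →ₗ[K] B) :=
  Submodule.span K {T | ∃ c ∈ S, corrOp p s c = T}

end Alg

open VarClass Obj WeilCohomology

variable {k : Type u} [Field k] {𝒱 : VarClass k} {ops : CycleOps 𝒱}

/-- A variety in the class `𝒱` with an endomorphism `f`. -/
structure EndVar (𝒱 : VarClass k) where
  /-- the variety -/
  X : 𝒱.Obj
  /-- the endomorphism -/
  f : X ⟶ X

/-- The product `X × Y` with the endomorphism `f_X × f_Y`. -/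
noncomputable def EndVar.prod (P Q : EndVar 𝒱) : EndVar 𝒱 where
  X := P.X.prod Q.X
  f := Obj.lift (fst P.X Q.X ≫ P.f) (snd P.X Q.X ≫ Q.f)

/-- The iterated products of members of the family `P` (with any bracketing and repetitions). -/
inductive IsFamilyProduct {ι : Type w} (P : ι → EndVar 𝒱) : EndVar 𝒱 → Prop
  | base (i : ι) : IsFamilyProduct P (P i)
  | prod {Q R : EndVar 𝒱} : IsFamilyProduct P Q → IsFamilyProduct P R →
      IsFamilyProduct P (Q.prod R)

/-- The endomorphism `f` of `X` has degree `q ^ dim X`: it multiplies the orientation by this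
number. -/
def HasFrobeniusDegree (W : WeilCohomology.{u, v} ops) (P : EndVar 𝒱) (q : ℕ) : Prop :=
  ∀ a, W.tr P.X (W.map P.f a) = (q : W.K) ^ P.X.dim * W.tr P.X a

/-- For all `i`, `j` of the same parity, every `K`-linear map `Z` from the degree `i` part of the
transcendental cohomology `T(X)` to the degree `j` part of `T(Y)`, where `(X, f)` and `(Y, g)` are
the members of the pair and `K` is the coefficient field, which satisfies
`q ^ ⌊i / 2⌋ g^* Z = q ^ ⌊j / 2⌋ Z f^*`, agrees on `T(X)`, where it is extended by zero to the other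
degrees, with a `K`-linear combination of algebraic correspondences of codimension
`dim X + (j - i) / 2`. -/
def AlgebraicHoms (W : WeilCohomology.{u, v} ops) (P Q : EndVar 𝒱) (q : ℕ) : Prop :=
  ∀ i j : ℕ, i % 2 = j % 2 →
    TwistedHomsIn (W.gr P.X) (W.gr Q.X) (W.map P.f).toLinearMap (W.map Q.f).toLinearMap
      (transcendental W P.X) (transcendental W Q.X) i j ((q : W.K) ^ (i / 2))
      ((q : W.K) ^ (j / 2)) (homSpan (W.map (fst P.X Q.X)) (W.push (snd P.X Q.X))
        {c | ∃ p, p + i / 2 = P.X.dim + j / 2 ∧ c ∈ algClasses W (P.X.prod Q.X) p})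

/-- The pairs (weight `i`, number `α`) such that `α` is an eigenvalue of the endomorphism of some
member of the family on the part of degree `i` of its transcendental cohomology. -/
def familyEigenvalues (W : WeilCohomology.{u, v} ops) {ι : Type w} (P : ι → EndVar 𝒱) :
    Set (ℕ × AlgebraicClosure W.K) :=
  {x | ∃ j, IsEigenvalueOn (W.map (P j).f).toLinearMap
    (transcendental W (P j).X ⊓ W.gr (P j).X x.1) x.2}

end Pool.Agent.H914
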