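import Pool.Agent.H914R2.XData

/-!
# The blocks of a single variety
-/

open CategoryTheory AlgebraicGeometry Finset TensorProduct Polynomial

universe u v

namespace Pool.Agent.H914

open VarClass Obj WeilCohomology

variable {k : Type u} [Field k] {𝒱 : VarClass k} {ops : CycleOps 𝒱}
  {W : WeilCohomology.{u, v} ops} {X : 𝒱.Obj}

lemma span_base_le {L : Type v} [Field L] [Algebra W.K L] {d : ℤ}
    {Z : Module.End L (L ⊗[W.K] W.H X)}
    (hZ : Z ∈ Submodule.span L {Z | ∃ Z' ∈ KOp W X X d, Z = Z'.baseChange L}) :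
    Z ∈ KOp (baseW W L) X X d := by
  have h1 : Submodule.span L {Z | ∃ Z' ∈ KOp W X X d, Z = Z'.baseChange L} ≤
      KOp (baseW W L) X X d := by
    rw [Submodule.span_le]
    rintro _ ⟨Z', hZ', rfl⟩
    exact KOp.base hZ'
  exact h1 hZ

/-- Operators cut off by algebraic operators. -/
lemma cut_base {L : Type v} [Field L] [Algebra W.K L] {e : Module.End W.K (W.H X)}
    (he : ∀ A : Module.End W.K (W.H X), e * A * e ∈ KOp W X X 0)
    (A : Module.End L (L ⊗[W.K] W.H X)) :
    e.baseChange L * A * e.baseChange L ∈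
      Submodule.span L {Z | ∃ Z' ∈ KOp W X X 0, Z = Z'.baseChange L} := by
  obtain ⟨N, c, l, hN⟩ := exists_slices A
  rw [hN, Finset.mul_sum, Finset.sum_mul]
  apply Submodule.sum_mem
  intro s _
  rw [mul_smul_comm, smul_mul_assoc, ← bcMul, ← bcMul]
  exact Submodule.smul_mem _ _ (Submodule.subset_span ⟨_, he _, rfl⟩)

section

variable {L : Type v} [Field L] [Algebra W.K L]

/-- The statement about blocks on the level of vector spaces. -/
structure PreBlocks (W : WeilCohomology.{u, v} ops) (X : 𝒱.Obj) (L : Type v) [Field L]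
    [Algebra W.K L] (τ : L ≃ₐ[W.K] L) (ι : Type*) [Fintype ι]
    (e : ι → Module.End L (L ⊗[W.K] W.H X)) (d : ι → ℕ) : Prop where
  sum : ∑ i, e i = 1
  idem : ∀ i, e i * e i = e i
  deg : ∀ i a, e i a ∈ (W.gr X (d i)).baseChange L
  alg : ∀ i (A : Module.End L (L ⊗[W.K] W.H X)), e i * A * e i ∈
    Submodule.span L {Z | ∃ Z' ∈ KOp W X X 0, Z = Z'.baseChange L}
  perm : ∀ i, ∃ j, ∀ a, sig τ (e i a) = e j (sig τ a)
  herm : ∀ i, ∃ (δ : ℤ) (θ : Module.End W.K (W.H X)) (y y' : L ⊗[W.K] W.H X), θ ∈ KOp W X X δ ∧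
    formBase L (W.tr X) (e i y * (θ.baseChange L) (sig τ (e i y'))) ≠ 0

lemma PreBlocks.hasBlocks {τ : L ≃ₐ[W.K] L} {ι : Type*} [Fintype ι]
    {e : ι → Module.End L (L ⊗[W.K] W.H X)} {d : ι → ℕ} (h : PreBlocks W X L τ ι e d) :
    HasBlocks (semiLin W L τ) X := by
  apply BlockData.hasBlocks (ι := ι) (e := e) (d := d)
  refine ⟨h.sum, h.idem, h.deg, fun i A => span_base_le (h.alg i A), h.perm, fun i => ?_⟩
  obtain ⟨δ, θ, y, y', hθ, hne⟩ := h.herm i
  exact ⟨δ, _, y, y', KOp.base hθ, hne⟩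

/-- **The blocks of a single variety.** -/
theorem exists_preBlocks [IsAlgClosed L] (τ : L ≃ₐ[W.K] L) {D : X.Cycles} (hD : X.IsCyc 1 D)
    (hHL : HardLefschetz W X D)
    (hB : LefschetzB W X D) (hDX : HomEqNum W X) {f : X ⟶ X} {q : ℕ}
    (hq : 1 < q) (hF : FrobeniusOnCycles W X f q)
    (hss : SemisimpleOn (W.map f).toLinearMap (transcendental W X))
    (hT : CommIn (W.gr X) (W.map f).toLinearMap (transcendental W X) (KOp W X X 0))
    (hc : ConjugatesTo (W.gr X) (W.map f).toLinearMap τ q) :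
    HasBlocks (semiLin W L τ) X := by
  classical
  obtain ⟨π, h⟩ := exists_cProj hDX
  obtain ⟨m, θ, θ', H, hθ⟩ := exists_tData hD hHL hB h hq hF hss hT
  obtain ⟨P, hP, hPπ⟩ := H.ss
  obtain ⟨S, c, hS, hc0, hPS⟩ := exists_roots (L := L) hP
  set F := (W.map f).toLinearMap with hFdef
  have hSann : aeval (F.baseChange L) (∏ γ ∈ S, (Polynomial.X - C γ)) *
      (piT π).baseChange L = 0 := by
    have h1 := congrArg (fun Z => Z.baseChange L) hPπ
    beta_reduce at h1
    rw [bcMul, ← aeval_base, hPS, LinearMap.baseChange_zero, map_mul, aeval_C, mul_assoc,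
      ← Algebra.smul_def] at h1
    exact (smul_eq_zero.1 h1).resolve_left hc0
  have hSτ : ∀ α ∈ S, τ α ∈ S := by
    intro α hα
    rw [hS] at hα ⊢
    rw [← AlgEquiv.coe_algHom, Polynomial.aeval_algHom_apply, hα, map_zero]
  have hcc : ∀ i ≤ 2 * X.dim, ∀ α : L,
      (∀ P : W.K[X], (∀ a ∈ W.gr X i, aeval F P a = 0) → aeval α P = 0) →
        τ α * α = (q : L) ^ i := fun i _ α hα => hc i α hα
  -- the index sets
  set R₁ : Finset ℕ := (range (X.dim + 1)).filter (fun l : ℕ => spanCycles W X l ≠ ⊥) with hR₁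
  set R₂ : Finset L := (S.image (fun α => α ^ m)).filter (fun β => blk F (piT π) m S β ≠ 0) with hR₂
  have hdeg : ∀ β : R₂, ∃ i ≤ 2 * X.dim, τ (β : L) * β = ((q ^ m : ℕ) : L) ^ i ∧
      (proj (W.isInternal X) i).baseChange L * blk F (piT π) m S β =
        blk F (piT π) m S (β : L) := by
    rintro ⟨β, hβ⟩
    have h1 := Finset.mem_filter.1 hβ
    exact H.exists_deg hSann τ hcc h1.1 h1.2
  choose g hg1 hg2 hg3 using hdeg
  have hR₁l : ∀ l : R₁, (l : ℕ) ≤ X.dim := fun l => by
    have := Finset.mem_range.1 (Finset.mem_filter.1 l.2).1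
    omega
  apply PreBlocks.hasBlocks (ι := R₁ ⊕ R₂)
    (e := Sum.elim (fun l : R₁ => (π l).baseChange L) (fun β => blk F (piT π) m S β))
    (d := Sum.elim (fun l => 2 * (l : ℕ)) g)
  refine ⟨?_, ?_, ?_, ?_, ?_, ?_⟩
  · rw [Fintype.sum_sum_type]
    simp only [Sum.elim_inl, Sum.elim_inr]
    rw [Finset.sum_coe_sort R₁ (fun l : ℕ => (π l).baseChange L),
      Finset.sum_coe_sort R₂ (fun β => blk F (piT π) m S β), hR₁, hR₂]
    rw [Finset.sum_filter_of_ne (p := fun l : ℕ => spanCycles W X l ≠ ⊥)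
        (f := fun l : ℕ => (π l).baseChange L),
      Finset.sum_filter_of_ne (p := fun β => blk F (piT π) m S β ≠ 0)
        (f := fun β => blk F (piT π) m S β), H.blk_sum hSann]
    · have h1 : ∑ l ∈ range (X.dim + 1), (π l).baseChange L =
          (∑ l ∈ range (X.dim + 1), π l).baseChange L :=
        (map_sum (Module.End.baseChangeHom W.K L (W.H X)) _ _).symm
      rw [h1, ← LinearMap.baseChange_add, piT, add_sub_cancel, LinearMap.baseChange_one]
    · intro β _ hβ; exact hβ
    · intro l _ hl h0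
      apply hl
      have h1 : π l = 0 := by
        apply LinearMap.ext
        intro a
        have := h.mem l a
        rw [h0] at this
        exact (Submodule.mem_bot _).1 this
      rw [h1, LinearMap.baseChange_zero]
  · rintro (l | β)
    · simp only [Sum.elim_inl]
      rw [← bcMul, h.idem (hR₁l l)]
    · simp only [Sum.elim_inr]
      exact H.blk_idem hSann (Finset.mem_filter.1 β.2).1
  · rintro (l | β) a
    · simp only [Sum.elim_inl]
      refine tmul_induction (P := fun a => (π l).baseChange L a ∈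
        (W.gr X (2 * (l : ℕ))).baseChange L) ?_ ?_ ?_ a
      · rw [map_zero]; exact Submodule.zero_mem _
      · intro x y hx hy; rw [map_add]; exact Submodule.add_mem _ hx hy
      · intro x a
        rw [LinearMap.baseChange_tmul]
        exact Submodule.tmul_mem_baseChange_of_mem _ (span_gr (h.mem l a))
    · simp only [Sum.elim_inr]
      rw [← hg3 β, Module.End.mul_apply]
      exact proj_base_mem _ _
  · rintro (l | β) A
    · simp only [Sum.elim_inl]
      exact cut_base (h.alg l) A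
    · simp only [Sum.elim_inr]
      exact H.blk_alg hSann (Finset.mem_filter.1 β.2).1 (hg3 β) A
  · rintro (l | β)
    · refine ⟨Sum.inl l, fun a => ?_⟩
      simp only [Sum.elim_inl]
      exact sig_baseChange τ _ _
    · have hβ := Finset.mem_filter.1 β.2
      obtain ⟨h1, h2⟩ := H.blk_perm hSann τ hSτ hβ.1
      have h3 : blk F (piT π) m S (τ β) ≠ 0 := by
        intro h0
        apply hβ.2
        apply LinearMap.ext
        intro a
        apply sig_inj τ
        rw [h2, h0, LinearMap.zero_apply]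
      exact ⟨Sum.inr ⟨τ β, Finset.mem_filter.2 ⟨h1, h3⟩⟩, h2⟩
  · rintro (l | β)
    · simp only [Sum.elim_inl]
      have hl := (Finset.mem_filter.1 l.2).2
      obtain ⟨x, hx, hx0⟩ : ∃ x ∈ algClasses W X l, x ≠ 0 := by
        by_contra h0
        push Not at h0
        apply hl
        rw [spanCycles_eq, Submodule.span_eq_bot]
        exact h0
      obtain ⟨x', hx', hxx'⟩ : ∃ x' ∈ algClasses W X (X.dim - l), bil W X x x' ≠ 0 := by
        by_contra h0
        push Not at h0
        exact hx0 (cNondeg hDX (l' := X.dim - l) (by have := hR₁l l; omega)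
          (alg_mem_span hx) h0)
      refine ⟨_, ((bil W X).flip x').smulRight x', (1 : L) ⊗ₜ x, (1 : L) ⊗ₜ x,
        rankOne_mem (alg_mem_span hx') (alg_mem_span hx'), ?_⟩
      rw [LinearMap.baseChange_tmul, h.fix l (hR₁l l) x (alg_mem_span hx), sig_tmul, map_one,
        LinearMap.baseChange_tmul, Algebra.TensorProduct.tmul_mul_tmul, formBase_tmul,
        LinearMap.smulRight_apply, LinearMap.flip_apply, mul_smul_comm, map_smul, ← bil_apply,
        smul_eq_mul, mul_one, one_mul]
      intro h0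
      exact hxx' (mul_self_eq_zero.1 ((algebraMap W.K L).injective (by rw [h0, map_zero])))
    · simp only [Sum.elim_inr]
      have hβ := Finset.mem_filter.1 β.2
      obtain ⟨y, y', hy⟩ := H.blk_herm hSann τ hβ.1 hβ.2 (hg1 β) (hg2 β) (hg3 β)
      exact ⟨_, θ (g β), y, y', hθ _, hy⟩

end

end Pool.Agent.H914
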