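import Pool.Agent.H914R2.ESlice
import Pool.Agent.H914R2.XBlocks

/-!
# Passage to the algebraic closure of the coefficient field
-/

open CategoryTheory AlgebraicGeometry Finset TensorProduct Polynomial

universe u v w

namespace Pool.Agent.H914

open VarClass Obj WeilCohomology

variable {k : Type u} [Field k] {𝒱 : VarClass k} {ops : CycleOps 𝒱}
  {W : WeilCohomology.{u, v} ops} {X Y : 𝒱.Obj} {ι : Type w} {P : ι → EndVar 𝒱} {q : ℕ}
  {L : Type v} [Field L] [Algebra W.K L]

lemma homSpan_le (i j : ℕ) : homSpan (W.map (fst X Y)) (W.push (snd X Y))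
    {c | ∃ p, p + i / 2 = X.dim + j / 2 ∧ c ∈ algClasses W (X.prod Y) p} ≤
      KOp W X Y (((j / 2 : ℕ) : ℤ) - ((i / 2 : ℕ) : ℤ)) := by
  rw [homSpan, Submodule.span_le]
  rintro _ ⟨_, ⟨p, hp, z, hz, rfl⟩, rfl⟩
  exact KOp.gen (p := p) (by omega) hz

/-- The algebraicity of linear maps after the extension of the coefficients. -/
lemma homs_base {π : ℕ → Module.End W.K (W.H X)} {π' : ℕ → Module.End W.K (W.H Y)}
    (hX : CProj W X π) (hY : CProj W Y π') {F : Module.End W.K (W.H X)}
    {F' : Module.End W.K (W.H Y)} {i j : ℕ} {c c' : W.K}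
    {E : Submodule W.K (W.H X →ₗ[W.K] W.H Y)} {d : ℤ} (hE : E ≤ KOp W X Y d)
    (hyp : TwistedHomsIn (W.gr X) (W.gr Y) F F' (transcendental W X) (transcendental W Y) i j
      c c' E)
    (Z : L ⊗[W.K] W.H X →ₗ[L] L ⊗[W.K] W.H Y)
    (h1 : (piT π').baseChange L ∘ₗ Z = Z) (h2 : Z ∘ₗ (piT π).baseChange L = Z)
    (h3 : (proj (W.isInternal Y) j).baseChange L ∘ₗ Z = Z)
    (h4 : Z ∘ₗ (proj (W.isInternal X) i).baseChange L = Z)
    (h5 : algebraMap W.K L c • (F'.baseChange L ∘ₗ Z) =
      algebraMap W.K L c' • (Z ∘ₗ F.baseChange L)) :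
    (Z : (baseW W L).H X →ₗ[(baseW W L).K] (baseW W L).H Y) ∈ KOp (baseW W L) X Y d := by
  have key : ∀ l : L →ₗ[W.K] W.K, sliceH l Z ∈ KOp W X Y d := by
    intro l
    have e1 : piT π' ∘ₗ sliceH l Z = sliceH l Z := by
      rw [← sliceH_left, h1]
    have e2 : sliceH l Z ∘ₗ piT π = sliceH l Z := by
      rw [← sliceH_right, h2]
    have e3 : proj (W.isInternal Y) j ∘ₗ sliceH l Z = sliceH l Z := by
      rw [← sliceH_left, h3]
    have e4 : sliceH l Z ∘ₗ proj (W.isInternal X) i = sliceH l Z := by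
      rw [← sliceH_right, h4]
    have e5 : c • (F' ∘ₗ sliceH l Z) = c' • (sliceH l Z ∘ₗ F) := by
      rw [← sliceH_left, ← sliceH_smul, h5, sliceH_smul, sliceH_right]
    have f1 : ∀ a ∈ transcendental W X ⊓ W.gr X i,
        sliceH l Z a ∈ transcendental W Y ⊓ W.gr Y j := by
      intro a _
      refine ⟨?_, ?_⟩
      · rw [← e1]
        exact hY.piT_trans _
      · rw [← e3]
        exact proj_mem _ _ _
    have f2 : ∀ l' ≠ i, ∀ a ∈ transcendental W X ⊓ W.gr X l', sliceH l Z a = 0 := by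
      intro l' hl' a ha
      rw [← e4, LinearMap.comp_apply, proj_ne _ ha.2 hl', map_zero]
    have f3 : ∀ a ∈ transcendental W X, c • F' (sliceH l Z a) = c' • sliceH l Z (F a) := by
      intro a _
      exact congrArg (fun G => G a) e5
    obtain ⟨Z', hZ', hZZ⟩ := hyp (sliceH l Z) f1 f2 f3
    have e6 : sliceH l Z = Z' ∘ₗ piT π := by
      apply LinearMap.ext
      intro a
      rw [LinearMap.comp_apply, ← hZZ _ (hX.piT_trans a), ← LinearMap.comp_apply, e2]
    rw [e6]
    exact KOp.cast (KOp.comp (hE hZ') hX.piT_mem) (zero_add d)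
  obtain ⟨N, m, l, hN⟩ := exists_slicesH Z
  rw [hN]
  apply Submodule.sum_mem
  intro s _
  exact Submodule.smul_mem _ _ (KOp.base (key (l s)))

lemma base_homEqNum (h : HomEqNum W X) : HomEqNum (baseW W L) X := by
  intro j hj z hz hnum
  rw [base_cl_eq_zero]
  exact h j hj z hz hnum

lemma base_smul_mem {N : Submodule (baseW W L).K ((baseW W L).H X)} (y : L)
    {a : L ⊗[W.K] W.H X} (ha : (show (baseW W L).H X from a) ∈ N) :
    (show (baseW W L).H X from (y • a : L ⊗[W.K] W.H X)) ∈ N :=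
  N.smul_mem (show (baseW W L).K from y) ha

lemma base_one_cl (z : X.Cycles) : (baseW W L).cl X z =
    (show (baseW W L).H X from ((1 : L) ⊗ₜ[W.K] W.cl X z : L ⊗[W.K] W.H X)) := rfl

lemma tmul_span {l : ℤ} {u : W.H X} (hu : u ∈ spanCycles W X l) (y : L) :
    (show (baseW W L).H X from (y ⊗ₜ[W.K] u : L ⊗[W.K] W.H X)) ∈
      spanCycles (baseW W L) X l := by
  induction hu using Submodule.span_induction with
  | mem u hu =>
    obtain ⟨p, hp, z, hz, rfl⟩ := hu
    have h1 : (baseW W L).cl X z ∈ spanCycles (baseW W L) X l :=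
      Submodule.subset_span ⟨p, hp, z, hz, rfl⟩
    have h3 : ((y ⊗ₜ[W.K] W.cl X z : L ⊗[W.K] W.H X)) = y • ((1 : L) ⊗ₜ[W.K] W.cl X z) := by
      rw [TensorProduct.smul_tmul', smul_eq_mul, mul_one]
    rw [h3]
    exact base_smul_mem y h1
  | zero =>
    have h1 : (y ⊗ₜ[W.K] (0 : W.H X) : L ⊗[W.K] W.H X) = 0 := tmul_zero _ _
    rw [h1]
    exact Submodule.zero_mem _
  | add a b _ _ ha hb =>
    have h1 : (y ⊗ₜ[W.K] (a + b) : L ⊗[W.K] W.H X) = y ⊗ₜ[W.K] a + y ⊗ₜ[W.K] b := tmul_add _ _ _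
    rw [h1]
    exact Submodule.add_mem _ ha hb
  | smul r a _ ha =>
    have h1 : (y ⊗ₜ[W.K] (r • a) : L ⊗[W.K] W.H X) =
        (algebraMap W.K L r) • (y ⊗ₜ[W.K] a : L ⊗[W.K] W.H X) := by
      rw [tmul_smul, algebraMap_smul]
    rw [h1]
    exact base_smul_mem _ ha

lemma span_fix {l : ℤ} {B : Module.End W.K (W.H X)} (hB : ∀ u ∈ spanCycles W X l, B u = u)
    {u : (baseW W L).H X} (hu : u ∈ spanCycles (baseW W L) X l) :
    B.baseChange L (show L ⊗[W.K] W.H X from u) = (show L ⊗[W.K] W.H X from u) := by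
  refine Submodule.span_induction (p := fun (u : (baseW W L).H X) _ =>
    B.baseChange L (show L ⊗[W.K] W.H X from u) = (show L ⊗[W.K] W.H X from u)) ?_ ?_ ?_ ?_ hu
  · rintro _ ⟨p, hp, z, hz, rfl⟩
    have h1 : (B.baseChange L ((1 : L) ⊗ₜ[W.K] W.cl X z) : L ⊗[W.K] W.H X) =
        (1 : L) ⊗ₜ[W.K] W.cl X z := by
      rw [LinearMap.baseChange_tmul, hB _ (Submodule.subset_span ⟨p, hp, z, hz, rfl⟩)]
    exact h1
  · exact map_zero (B.baseChange L)
  · intro x y _ _ hx hy
    have h1 := map_add (B.baseChange L) (show L ⊗[W.K] W.H X from x)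
      (show L ⊗[W.K] W.H X from y)
    rw [hx, hy] at h1
    exact h1
  · intro r x _ hx
    have h1 := map_smul (B.baseChange L) (show L from r) (show L ⊗[W.K] W.H X from x)
    rw [hx] at h1
    exact h1

/-- The projectors after the extension of the coefficients. -/
theorem CProj.base {π : ℕ → Module.End W.K (W.H X)} (h : CProj W X π) (hD : HomEqNum W X) :
    CProj (baseW W L) X (fun l => ((π l).baseChange L : L ⊗[W.K] W.H X →ₗ[L] L ⊗[W.K] W.H X)) := by
  have hmem : ∀ (l : ℕ) (a : L ⊗[W.K] W.H X),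
      (((π l).baseChange L a : L ⊗[W.K] W.H X) : (baseW W L).H X) ∈
        spanCycles (baseW W L) X l := by
    intro l a
    refine tmul_induction (P := fun a => (((π l).baseChange L a : L ⊗[W.K] W.H X) :
      (baseW W L).H X) ∈ spanCycles (baseW W L) X l) ?_ ?_ ?_ a
    · rw [map_zero]; exact Submodule.zero_mem _
    · intro x y hx hy; rw [map_add]; exact Submodule.add_mem _ hx hy
    · intro y a
      rw [LinearMap.baseChange_tmul]
      exact tmul_span (h.mem l a) y
  have hadj : ∀ l : ℕ, l ≤ X.dim → ∀ (a : L ⊗[W.K] W.H X),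
      ∀ c ∈ algClasses (baseW W L) X (X.dim - l),
        bil (baseW W L) X (((π l).baseChange L a : L ⊗[W.K] W.H X) : (baseW W L).H X) c =
          bil (baseW W L) X (a : (baseW W L).H X) c := by
    rintro l hl a _ ⟨z, hz, rfl⟩
    change formBase L (W.tr X) ((π l).baseChange L a * ((1 : L) ⊗ₜ[W.K] W.cl X z)) =
      formBase L (W.tr X) (a * ((1 : L) ⊗ₜ[W.K] W.cl X z))
    refine tmul_induction (P := fun a => formBase L (W.tr X) ((π l).baseChange L a *
      ((1 : L) ⊗ₜ[W.K] W.cl X z)) =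
        formBase L (W.tr X) (a * ((1 : L) ⊗ₜ[W.K] W.cl X z))) ?_ ?_ ?_ a
    · rw [map_zero]
    · intro x y hx hy; rw [map_add, add_mul, add_mul, map_add, map_add, hx, hy]
    · intro y a
      rw [LinearMap.baseChange_tmul, Algebra.TensorProduct.tmul_mul_tmul,
        Algebra.TensorProduct.tmul_mul_tmul, formBase_tmul, formBase_tmul]
      have h1 := h.adj l hl a _ ⟨z, hz, rfl⟩
      rw [bil_apply, bil_apply] at h1
      rw [h1]
  refine ⟨?_, hmem, hadj, ?_, ?_⟩
  · intro l hl u hu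
    exact span_fix (h.fix l hl) hu
  · intro l hl a ha
    refine cNondeg (base_homEqNum hD) (l := l) (l' := X.dim - l) (by omega) (hmem l a) ?_
    intro b hb
    exact (hadj l hl a b hb).trans (ha b hb)
  · intro l A
    exact span_base_le (L := L) (cut_base (L := L) (h.alg l)
      (show Module.End L (L ⊗[W.K] W.H X) from A))

lemma base_piT (π : ℕ → Module.End W.K (W.H X)) :
    (piT (W := baseW W L) (fun l => ((π l).baseChange L : L ⊗[W.K] W.H X →ₗ[L] L ⊗[W.K] W.H X)) :
      L ⊗[W.K] W.H X →ₗ[L] L ⊗[W.K] W.H X) = (piT π).baseChange L := by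
  have h1 : (piT π).baseChange L = (1 : Module.End L (L ⊗[W.K] W.H X)) -
      ∑ l ∈ range (X.dim + 1), (π l).baseChange L := by
    rw [piT, bc_sub, bc_one]
    congr 1
    exact map_sum (Module.End.baseChangeHom W.K L (W.H X)) _ _
  rw [h1]
  rfl

lemma mapBase_toLin {K : Type*} [Field K] {A B : Type*} [Ring A] [Algebra K A] [Ring B]
    [Algebra K B] {L : Type*} [Field L] [Algebra K L] (f : A →ₐ[K] B) :
    (mapBase L f).toLinearMap = f.toLinearMap.baseChange L := by
  apply LinearMap.ext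
  intro x
  refine tmul_induction (P := fun x => (mapBase L f).toLinearMap x =
    f.toLinearMap.baseChange L x) ?_ ?_ ?_ x
  · rw [map_zero, map_zero]
  · intro x y hx hy; rw [map_add, map_add, hx, hy]
  · intro l a
    rw [LinearMap.baseChange_tmul, AlgHom.toLinearMap_apply, Algebra.TensorProduct.map_tmul]
    rfl

lemma proj_base_eq {K : Type*} [Field K] [CharZero K] {A : Type*} [Ring A] [Algebra K A]
    [Module.Finite K A] {L : Type*}
    [Field L] [Algebra K L] {gr : ℕ → Submodule K A} (hI : DirectSum.IsInternal gr)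
    (hI' : DirectSum.IsInternal (fun i => (gr i).baseChange L)) (i : ℕ) :
    proj hI' i = (proj hI i).baseChange L := by
  refine gr_ext hI' ?_
  intro l a ha
  by_cases hl : l = i
  · subst hl
    rw [proj_same _ ha]
    exact (proj_base_same (hI := hI) ha).symm
  · rw [proj_ne _ ha hl]
    have h1 : ∀ x : L ⊗[K] A, x ∈ (gr l).baseChange L → (proj hI i).baseChange L x = 0 := by
      intro x hx
      refine base_induction (P := fun x => (proj hI i).baseChange L x = 0) ?_ ?_ ?_ hx
      · rw [map_zero]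
      · intro x y hx hy; rw [map_add, hx, hy, add_zero]
      · intro y b hb
        rw [LinearMap.baseChange_tmul, proj_ne _ hb hl, tmul_zero]
    exact (h1 a ha).symm

lemma base_degree {Q : EndVar 𝒱} (h : HasFrobeniusDegree W Q q) :
    HasFrobeniusDegree (baseW W L) Q q := by
  intro a
  change formBase L (W.tr Q.X) (mapBase L (W.map Q.f) a) =
    (q : L) ^ Q.X.dim * formBase L (W.tr Q.X) a
  refine tmul_induction (P := fun a => formBase L (W.tr Q.X) (mapBase L (W.map Q.f) a) =
    (q : L) ^ Q.X.dim * formBase L (W.tr Q.X) a) ?_ ?_ ?_ a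
  · rw [map_zero, map_zero, mul_zero]
  · intro x y hx hy; rw [map_add, map_add, map_add, hx, hy, mul_add]
  · intro y a
    rw [Algebra.TensorProduct.map_tmul, formBase_tmul, formBase_tmul, h, map_mul, map_pow,
      map_natCast, AlgHom.id_apply]
    ring

end Pool.Agent.H914
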