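import Pool.Agent.H914R2.EDesc

/-!
# The action of the automorphisms of the coefficients
-/

open CategoryTheory AlgebraicGeometry Finset TensorProduct Polynomial

universe u v w

namespace Pool.Agent.H914

open VarClass Obj WeilCohomology

variable {k : Type u} [Field k] {𝒱 : VarClass k} {ops : CycleOps 𝒱}
  {W : WeilCohomology.{u, v} ops} {X Y : 𝒱.Obj} {ι : Type w} {P : ι → EndVar 𝒱} {q : ℕ}

section Semi

variable (S : SemiLin W)

lemma SemiLin.map_one : S.σ X 1 = 1 := by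
  have h1 := S.cl (X := X) X.V.fundCycle
  rwa [W.cl_fund] at h1

/-- The action on the labels. -/
def SemiLin.lab (x : ι × ℕ × W.K) : ι × ℕ × W.K := (x.1, x.2.1, S.τ x.2.2)

variable {S} (htr : ∀ (X : 𝒱.Obj) (a : W.H X), W.tr X (S.σ X a) = S.τ (W.tr X a))

include htr in
lemma SemiLin.trans {a : W.H X} (ha : a ∈ transcendental W X) :
    S.σ X a ∈ transcendental W X := by
  rw [mem_trans] at ha ⊢
  rintro j _ ⟨z, hz, rfl⟩
  have h1 := ha j _ ⟨z, hz, rfl⟩
  rw [bil_apply] at h1 ⊢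
  rw [← S.cl z, ← S.mul, htr, h1, map_zero]

include htr in
lemma SemiLin.blk {x : ι × ℕ × W.K} {y : W.H (P x.1).X} (hy : y ∈ blkS W P x) :
    S.σ (P x.1).X y ∈ blkS W P (S.lab x) := by
  rw [mem_blkS] at hy
  have h1 : S.σ (P x.1).X y ∈ blkC W P x.1 x.2.1 (S.τ x.2.2) := by
    rw [mem_blkC]
    refine ⟨SemiLin.trans htr hy.1, S.gr hy.2.1, ?_⟩
    rw [← S.map, hy.2.2, S.smul]
  exact h1

lemma SemiLin.algS {a : W.H X} (ha : a ∈ algS W X) : S.σ X a ∈ algS W X := by
  induction ha using Submodule.span_induction with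
  | mem a ha =>
    obtain ⟨j, z, hz, rfl⟩ := ha
    rw [S.cl]
    exact algS_of ⟨z, hz, rfl⟩
  | zero => rw [map_zero]; exact Submodule.zero_mem _
  | add x y _ _ hx hy => rw [map_add]; exact Submodule.add_mem _ hx hy
  | smul r x _ hx => rw [S.smul]; exact Submodule.smul_mem _ _ hx

/-- The action on the coordinates. -/
def SemiLin.crd (htr : ∀ (X : 𝒱.Obj) (a : W.H X), W.tr X (S.σ X a) = S.τ (W.tr X a))
    (c : Crd W P Y) : Crd W P Y :=
  ⟨S.lab c.x, c.g, S.σ (P c.x.1).X c.y, SemiLin.blk htr c.hy⟩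

lemma SemiLin.crd_ev (c : Crd W P Y) : (SemiLin.crd htr c).ev = S.σ Y c.ev :=
  (S.map c.g c.y).symm

lemma SemiLin.pe_crd (c : List (Crd W P Y)) :
    pe (c.map (SemiLin.crd htr)) = S.σ Y (pe c) := by
  induction c with
  | nil => rw [List.map_nil, pe_nil, S.map_one]
  | cons a c ih => rw [List.map_cons, pe_cons, pe_cons, S.mul, ih, SemiLin.crd_ev]

/-- Conjugates of algebraic multisets are algebraic. -/
theorem AlgM.gal {S' : SemiLin W}
    (htr' : ∀ (X : 𝒱.Obj) (a : W.H X), W.tr X (S'.σ X a) = S'.τ (W.tr X a))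
    (hinv : ∀ (X : 𝒱.Obj) (a : W.H X), S.σ X (S'.σ X a) = a) (hτ : ∀ c, S'.τ (S.τ c) = c)
    {s : Multiset (ι × ℕ × W.K)} (hs : AlgM W P s) : AlgM W P (s.map S.lab) := by
  intro Y c hc
  have h1 : pe (c.map (SemiLin.crd htr')) ∈ Pool.Agent.H914.algS W Y := by
    apply hs
    rw [List.map_map]
    have e1 : (Crd.x ∘ SemiLin.crd htr' : Crd W P Y → ι × ℕ × W.K) = S'.lab ∘ Crd.x := rfl
    rw [e1, ← List.map_map, ← Multiset.map_coe, hc, Multiset.map_map]
    conv_rhs => rw [← Multiset.map_id s]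
    apply Multiset.map_congr rfl
    intro x _
    change (x.1, x.2.1, S'.τ (S.τ x.2.2)) = x
    rw [hτ]
  rw [SemiLin.pe_crd] at h1
  have h2 := SemiLin.algS (S := S) h1
  rwa [hinv] at h2

end Semi

section Base

variable {L : Type v} [Field L] [Algebra W.K L]

lemma formBase_sig {K : Type*} [Field K] {A : Type*} [Ring A] [Algebra K A] {L : Type*} [Field L]
    [Algebra K L] (τ : L ≃ₐ[K] L) (tr : A →ₗ[K] K) (a : L ⊗[K] A) :
    formBase L tr (sig τ a) = τ (formBase L tr a) := by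
  refine tmul_induction (P := fun a => formBase L tr (sig τ a) = τ (formBase L tr a)) ?_ ?_ ?_ a
  · rw [map_zero, map_zero, map_zero]
  · intro x y hx hy; rw [map_add, map_add, map_add, map_add, hx, hy]
  · intro l a
    rw [sig_tmul, formBase_tmul, formBase_tmul, map_mul, AlgEquiv.commutes]

lemma semiLin_tr (τ : L ≃ₐ[W.K] L) (X : 𝒱.Obj) (a : (baseW W L).H X) :
    (baseW W L).tr X ((semiLin W L τ).σ X a) = (semiLin W L τ).τ ((baseW W L).tr X a) :=
  formBase_sig τ (W.tr X) a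

end Base

end Pool.Agent.H914
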