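import Pool.Agent.H914R2.TBlk

/-!
# Blocks of the transcendental part: construction
-/

open Finset TensorProduct Polynomial

namespace Pool.Agent.H914

set_option maxHeartbeats 1000000

variable {K : Type*} [Field K] [CharZero K] {A : Type*} [Ring A] [Algebra K A]
  [Module.Finite K A] {gr : ℕ → Submodule K A}
variable {hI : DirectSum.IsInternal gr} {n : ℕ} {tr : A →ₗ[K] K} {F π : Module.End K A}
  {q m : ℕ} {θ θ' : ℕ → Module.End K A} {𝒦 : Submodule K (Module.End K A)}
  {L : Type*} [Field L] [DecidableEq L] [Algebra K L] [IsAlgClosed L]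

/-- The spectral projector of the power of `F`. -/
noncomputable abbrev blk (F π : Module.End K A) (m : ℕ) (S : Finset L) (β : L) :
    Module.End L (L ⊗[K] A) :=
  spec ((F ^ m).baseChange L) (π.baseChange L) (S.image (fun α => α ^ m)) β

namespace TData

variable (H : TData hI n tr F π q m θ θ' 𝒦)

include H

lemma idemL : π.baseChange L * π.baseChange L = π.baseChange L := by
  rw [← bcMul, H.idem]

lemma commL : F.baseChange L * π.baseChange L = π.baseChange L * F.baseChange L := by
  rw [← bcMul, ← bcMul, H.comm]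

lemma commG : F ^ m * π = π * F ^ m := by
  have h : Commute F π := H.comm
  exact h.pow_left m

lemma commGL : (F ^ m).baseChange L * π.baseChange L = π.baseChange L * (F ^ m).baseChange L := by
  rw [← bcMul, ← bcMul, H.commG]

lemma compG (i : ℕ) : F ^ m * proj hI i = proj hI i * F ^ m := by
  have h : Commute F (proj hI i) := H.compF i
  exact h.pow_left m

variable {S : Finset L}
  (hS : aeval (F.baseChange L) (∏ γ ∈ S, (X - C γ)) * π.baseChange L = 0)

include hS

/-- The power of `F` is annihilated by the polynomial with the powers of the roots. -/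
lemma powAnn : aeval ((F ^ m).baseChange L) (∏ γ ∈ S.image (fun α => α ^ m), (X - C γ)) *
    π.baseChange L = 0 := by
  conv_lhs => rw [← spec_sum hS, Finset.mul_sum]
  apply Finset.sum_eq_zero
  intro α hα
  apply LinearMap.ext
  intro x
  have h1 : F.baseChange L (spec (F.baseChange L) (π.baseChange L) S α x) =
      α • spec (F.baseChange L) (π.baseChange L) S α x := by
    have := congrArg (fun Z => Z x) (spec_mul_F hS hα)
    exact this
  have h2 : (F ^ m).baseChange L (spec (F.baseChange L) (π.baseChange L) S α x) =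
      α ^ m • spec (F.baseChange L) (π.baseChange L) S α x := by
    have h3 := poly_eigen h1 (X ^ m)
    rw [map_pow, aeval_X, eval_pow, eval_X] at h3
    rw [← h3, LinearMap.baseChange_pow]
  rw [Module.End.mul_apply, poly_eigen h2, eval_prod,
    Finset.prod_eq_zero (Finset.mem_image_of_mem _ hα), zero_smul, LinearMap.zero_apply]
  rw [eval_sub, eval_X, eval_C, sub_self]

lemma blk_sum : ∑ β ∈ S.image (fun α => α ^ m), blk F π m S β = π.baseChange L := by
  have h0 := H.powAnn hS
  exact spec_sum (F := (F ^ m).baseChange L) (π := π.baseChange L)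
    (S := S.image (fun α => α ^ m)) h0

lemma blk_idem {β : L} (hβ : β ∈ S.image (fun α => α ^ m)) :
    blk F π m S β * blk F π m S β = blk F π m S β := by
  have h0 := H.powAnn hS
  have h1 := H.idemL (L := L)
  have h2 := H.commGL (L := L)
  rw [spec_mul_spec (F := (F ^ m).baseChange L) (π := π.baseChange L)
    (S := S.image (fun α => α ^ m)) h1 h2 h0 hβ hβ, if_pos rfl]

lemma blk_G {β : L} (hβ : β ∈ S.image (fun α => α ^ m)) :
    (F ^ m).baseChange L * blk F π m S β = β • blk F π m S β := by
  have h0 := H.powAnn hS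
  exact spec_mul_F (F := (F ^ m).baseChange L) (π := π.baseChange L)
    (S := S.image (fun α => α ^ m)) h0 hβ

lemma blk_G' {β : L} (hβ : β ∈ S.image (fun α => α ^ m)) :
    blk F π m S β * (F ^ m).baseChange L = β • blk F π m S β := by
  have h0 := H.powAnn hS
  have h2 := H.commGL (L := L)
  exact spec_F_mul (F := (F ^ m).baseChange L) (π := π.baseChange L)
    (S := S.image (fun α => α ^ m)) h2 h0 hβ

omit hS in
lemma blk_pi (β : L) : π.baseChange L * blk F π m S β = blk F π m S β ∧
    blk F π m S β * π.baseChange L = blk F π m S β := by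
  have h1 := H.idemL (L := L)
  have h2 := H.commGL (L := L)
  exact spec_pi (F := (F ^ m).baseChange L) (π := π.baseChange L)
    (S := S.image (fun α => α ^ m)) h1 h2 β

omit hS in
lemma blk_proj (i : ℕ) (β : L) : (proj hI i).baseChange L * blk F π m S β =
    blk F π m S β * (proj hI i).baseChange L := by
  have h1 : (proj hI i).baseChange L * (F ^ m).baseChange L =
      (F ^ m).baseChange L * (proj hI i).baseChange L := by rw [← bcMul, ← bcMul, H.compG]
  have h2 : (proj hI i).baseChange L * π.baseChange L =
      π.baseChange L * (proj hI i).baseChange L := by rw [← bcMul, ← bcMul, H.compP]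
  exact spec_comm (F := (F ^ m).baseChange L) (π := π.baseChange L)
    (S := S.image (fun α => α ^ m)) h1 h2 β

/-- The degree of a block. -/
lemma blk_deg (τ : L ≃ₐ[K] L) (hc : ∀ i ≤ 2 * n, ∀ α : L,
    (∀ P : K[X], (∀ a ∈ gr i, aeval F P a = 0) → aeval α P = 0) → τ α * α = (q : L) ^ i)
    {β : L} (hβ : β ∈ S.image (fun α => α ^ m)) {i : ℕ}
    (hne : (proj hI i).baseChange L * blk F π m S β ≠ 0) :
    i ≤ 2 * n ∧ τ β * β = ((q ^ m : ℕ) : L) ^ i := by
  have hi : i ≤ 2 * n := by
    by_contra hi
    apply hne
    have h1 : proj hI i = 0 := by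
      apply LinearMap.ext
      intro a
      have := proj_mem hI i a
      rw [H.hbd i (by omega)] at this
      exact (Submodule.mem_bot _).1 this
    rw [h1, LinearMap.baseChange_zero, zero_mul]
  refine ⟨hi, ?_⟩
  -- decompose with respect to the eigenvalues of `F`
  have h1 : ∃ α ∈ S, spec (F.baseChange L) (π.baseChange L) S α *
      ((proj hI i).baseChange L * blk F π m S β) ≠ 0 := by
    by_contra h0
    push Not at h0
    apply hne
    have h2 : π.baseChange L * ((proj hI i).baseChange L * blk F π m S β) =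
        (proj hI i).baseChange L * blk F π m S β := by
      rw [← mul_assoc, ← bcMul, H.compP, bcMul, mul_assoc, (H.blk_pi β).1]
    rw [← h2, ← spec_sum hS, Finset.sum_mul]
    exact Finset.sum_eq_zero h0
  obtain ⟨α, hα, hα0⟩ := h1
  obtain ⟨y, hy⟩ : ∃ y, (spec (F.baseChange L) (π.baseChange L) S α *
      ((proj hI i).baseChange L * blk F π m S β)) y ≠ 0 := by
    by_contra h0
    push Not at h0
    exact hα0 (LinearMap.ext h0)
  set x := (spec (F.baseChange L) (π.baseChange L) S α *
      ((proj hI i).baseChange L * blk F π m S β)) y with hx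
  have hFx : F.baseChange L x = α • x := by
    have := congrArg (fun Z => Z ((((proj hI i).baseChange L * blk F π m S β)) y))
      (spec_mul_F hS hα)
    exact this
  have hpx : (proj hI i).baseChange L x = x := by
    have h2 : (proj hI i).baseChange L * (spec (F.baseChange L) (π.baseChange L) S α *
        ((proj hI i).baseChange L * blk F π m S β)) =
        spec (F.baseChange L) (π.baseChange L) S α *
        ((proj hI i).baseChange L * blk F π m S β) := by
      rw [← mul_assoc, spec_comm (Z := (proj hI i).baseChange L)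
        (by rw [← bcMul, ← bcMul, H.compF]) (by rw [← bcMul, ← bcMul, H.compP]) α, mul_assoc,
        ← mul_assoc ((proj hI i).baseChange L), ← bcMul, proj_mul_proj]
    exact congrArg (fun Z => Z y) h2
  have hGx : (F ^ m).baseChange L x = β • x := by
    have h2 : (F ^ m).baseChange L * (spec (F.baseChange L) (π.baseChange L) S α *
        ((proj hI i).baseChange L * blk F π m S β)) =
        β • (spec (F.baseChange L) (π.baseChange L) S α *
        ((proj hI i).baseChange L * blk F π m S β)) := by
      have hGF : F ^ m * F = F * F ^ m := by rw [← pow_succ, ← pow_succ']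
      rw [← mul_assoc, spec_comm (Z := (F ^ m).baseChange L)
        (by rw [← bcMul, ← bcMul, hGF]) H.commGL α, mul_assoc, ← mul_assoc ((F ^ m).baseChange L),
        ← bcMul, H.compG, bcMul, mul_assoc, H.blk_G hS hβ, mul_smul_comm, mul_smul_comm]
    exact congrArg (fun Z => Z y) h2
  have hαβ : α ^ m = β := by
    have h3 := poly_eigen hFx (X ^ m)
    rw [map_pow, aeval_X, eval_pow, eval_X, ← LinearMap.baseChange_pow, hGx] at h3
    have h4 : (β - α ^ m) • x = 0 := by rw [sub_smul, h3, sub_self]
    rcases smul_eq_zero.1 h4 with h5 | h5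
    · exact (sub_eq_zero.1 h5).symm
    · exact absurd h5 hy
  have hroot : ∀ P : K[X], (∀ a ∈ gr i, aeval F P a = 0) → aeval α P = 0 := by
    intro P hP
    have h3 := poly_eigen hFx (P.map (algebraMap K L))
    rw [aeval_base, eval_map_algebraMap] at h3
    have h4 : (aeval F P).baseChange L x = 0 := by
      rw [← hpx]
      have h5 : aeval F P * proj hI i = 0 := by
        apply LinearMap.ext
        intro a
        exact hP _ (proj_mem hI i a)
      have h6 := congrArg (fun Z => Z.baseChange L) h5
      beta_reduce at h6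
      rw [bcMul, LinearMap.baseChange_zero] at h6
      exact congrArg (fun Z => Z x) h6
    rw [h4] at h3
    rcases smul_eq_zero.1 h3.symm with h5 | h5
    · exact h5
    · exact absurd h5 hy
  have h7 := hc i hi α hroot
  rw [← hαβ, map_pow, ← mul_pow, h7]
  push_cast
  rw [← pow_mul, ← pow_mul, mul_comm]

/-- The degree of a block. -/
lemma exists_deg (τ : L ≃ₐ[K] L) (hc : ∀ i ≤ 2 * n, ∀ α : L,
    (∀ P : K[X], (∀ a ∈ gr i, aeval F P a = 0) → aeval α P = 0) → τ α * α = (q : L) ^ i)
    {β : L} (hβ : β ∈ S.image (fun α => α ^ m)) (hne : blk F π m S β ≠ 0) :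
    ∃ i ≤ 2 * n, τ β * β = ((q ^ m : ℕ) : L) ^ i ∧
      (proj hI i).baseChange L * blk F π m S β = blk F π m S β := by
  classical
  have : CharZero L := charZero_of_injective_algebraMap (algebraMap K L).injective
  have hsum : ∑ i ∈ range (2 * n + 1), (proj hI i).baseChange L * blk F π m S β =
      blk F π m S β := by
    have h1 := sum_proj hI (N := 2 * n + 1) (fun i hi => H.hbd i (by omega))
    have h2 := congrArg (fun Z => Z.baseChange L) h1
    beta_reduce at h2
    have h3 : (∑ i ∈ range (2 * n + 1), proj hI i).baseChange L =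
        ∑ i ∈ range (2 * n + 1), (proj hI i).baseChange L :=
      map_sum (Module.End.baseChangeHom K L A) _ _
    rw [h3, LinearMap.baseChange_one] at h2
    rw [← Finset.sum_mul, h2, one_mul]
  obtain ⟨i, hi⟩ : ∃ i, (proj hI i).baseChange L * blk F π m S β ≠ 0 := by
    by_contra h0
    push Not at h0
    apply hne
    rw [← hsum]
    exact Finset.sum_eq_zero (fun i _ => h0 i)
  obtain ⟨hi1, hi2⟩ := H.blk_deg hS τ hc hβ hi
  refine ⟨i, hi1, hi2, ?_⟩
  have hother : ∀ j, j ≠ i → (proj hI j).baseChange L * blk F π m S β = 0 := by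
    intro j hj
    by_contra h0
    obtain ⟨_, hj2⟩ := H.blk_deg hS τ hc hβ h0
    rw [hi2] at hj2
    apply hj
    have h4 : ((q ^ m) ^ i : ℕ) = (q ^ m) ^ j := by exact_mod_cast hj2
    have h5 : 1 < q ^ m := Nat.one_lt_pow (by have := H.hm; omega) H.hq
    exact (Nat.pow_right_injective h5 h4).symm
  rw [Finset.sum_eq_single i] at hsum
  · exact hsum
  · intro j _ hj; exact hother j hj
  · intro h0; exact absurd (Finset.mem_range.2 (by omega)) h0

/-- The operators on a block are in the extension of the algebra `𝒦`. -/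
lemma blk_alg {β : L} (hβ : β ∈ S.image (fun α => α ^ m)) {i : ℕ}
    (hi : (proj hI i).baseChange L * blk F π m S β = blk F π m S β)
    (B : Module.End L (L ⊗[K] A)) :
    blk F π m S β * B * blk F π m S β ∈
      Submodule.span L {Z | ∃ Z' ∈ 𝒦, Z = Z'.baseChange L} := by
  set B' := blk F π m S β * B * blk F π m S β with hB'
  obtain ⟨N, c, l, hN⟩ := exists_slices B'
  rw [hN]
  apply Submodule.sum_mem
  intro s _
  apply Submodule.smul_mem
  apply Submodule.subset_span
  refine ⟨_, ?_, rfl⟩
  apply H.cent
  · rw [← slice_mul_left]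
    congr 1
    rw [hB', ← mul_assoc, ← mul_assoc, (H.blk_pi β).1]
  · rw [← slice_mul_right]
    congr 1
    rw [hB', mul_assoc, (H.blk_pi β).2]
  · intro j
    rw [← slice_mul_left, ← slice_mul_right]
    congr 1
    by_cases hj : j = i
    · subst hj
      have h1 : blk F π m S β * (proj hI j).baseChange L = blk F π m S β := by
        rw [← H.blk_proj, hi]
      rw [hB', mul_assoc, h1, ← mul_assoc, ← mul_assoc, hi]
    · have h1 : (proj hI j).baseChange L * blk F π m S β = 0 := by
        rw [← hi, ← mul_assoc, ← bcMul, proj_mul_ne hI hj, LinearMap.baseChange_zero, zero_mul]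
      have h2 : blk F π m S β * (proj hI j).baseChange L = 0 := by
        rw [← H.blk_proj, h1]
      rw [hB', mul_assoc, h2, mul_zero, ← mul_assoc, ← mul_assoc, h1, zero_mul, zero_mul]
  · rw [← slice_mul_left, ← slice_mul_right]
    congr 1
    rw [hB', mul_assoc, H.blk_G' hS hβ, ← mul_assoc, ← mul_assoc, H.blk_G hS hβ, mul_smul_comm,
      smul_mul_assoc, smul_mul_assoc]

/-- The blocks are permuted. -/
lemma blk_perm (τ : L ≃ₐ[K] L) (hSτ : ∀ α ∈ S, τ α ∈ S) {β : L}
    (hβ : β ∈ S.image (fun α => α ^ m)) :
    τ β ∈ S.image (fun α => α ^ m) ∧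
      ∀ a, sig τ (blk F π m S β a) = blk F π m S (τ β) (sig τ a) := by
  have hmem : ∀ β ∈ S.image (fun α => α ^ m), τ β ∈ S.image (fun α => α ^ m) := by
    intro β hβ
    obtain ⟨α, hα, rfl⟩ := Finset.mem_image.1 hβ
    exact Finset.mem_image.2 ⟨τ α, hSτ α hα, by rw [map_pow]⟩
  refine ⟨hmem β hβ, fun a => ?_⟩
  have h1 : blk F π m S (τ β) (sig τ a) = blk F π m S (τ β) (sig τ (π.baseChange L a)) := by
    rw [sig_baseChange, ← Module.End.mul_apply, (H.blk_pi (τ β)).2]
  rw [h1, ← H.blk_sum hS, LinearMap.sum_apply, map_sum, map_sum]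
  have h2 : ∀ γ ∈ S.image (fun α => α ^ m), blk F π m S (τ β) (sig τ (blk F π m S γ a)) =
      if τ β = τ γ then sig τ (blk F π m S γ a) else 0 := by
    intro γ hγ
    apply spec_eigen _ _ (hmem γ hγ) (hmem β hβ)
    · rw [← sig_baseChange, ← sig_smul]
      congr 1
      have := congrArg (fun Z => Z a) (H.blk_G hS hγ)
      exact this
    · rw [← sig_baseChange]
      congr 1
      have := congrArg (fun Z => Z a) (H.blk_pi (S := S) γ).1
      exact this
  rw [Finset.sum_congr rfl h2, Finset.sum_eq_single β]
  · rw [if_pos rfl]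
  · intro γ _ hγ
    rw [if_neg (fun h => hγ (τ.injective h).symm)]
  · intro h0; exact absurd hβ h0

/-- A block pairs nontrivially with its conjugate. -/
lemma blk_herm (τ : L ≃ₐ[K] L) {β : L} (hβ : β ∈ S.image (fun α => α ^ m))
    (hne : blk F π m S β ≠ 0) {i : ℕ} (hi2n : i ≤ 2 * n)
    (hτ : τ β * β = ((q ^ m : ℕ) : L) ^ i)
    (hi : (proj hI i).baseChange L * blk F π m S β = blk F π m S β) :
    ∃ y y', formBase L tr (blk F π m S β y *
      (θ i).baseChange L (sig τ (blk F π m S β y'))) ≠ 0 := by
  classical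
  have : CharZero L := charZero_of_injective_algebraMap (algebraMap K L).injective
  have hQ : ((q ^ m : ℕ) : L) ≠ 0 := by
    have h0 : q ^ m ≠ 0 := pow_ne_zero _ (by have := H.hq; omega)
    exact_mod_cast h0
  obtain ⟨y, hy⟩ : ∃ y, blk F π m S β y ≠ 0 := by
    by_contra h0
    push Not at h0
    exact hne (LinearMap.ext h0)
  refine ⟨y, ?_⟩
  set y₁ := blk F π m S β y with hy₁
  have hGy : (F ^ m).baseChange L y₁ = β • y₁ := congrArg (fun Z => Z y) (H.blk_G hS hβ)
  have hpy : π.baseChange L y₁ = y₁ := congrArg (fun Z => Z y) (H.blk_pi (S := S) β).1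
  have hdy : (proj hI i).baseChange L y₁ = y₁ := congrArg (fun Z => Z y) hi
  obtain ⟨z, hz⟩ : ∃ z, formBase L tr (y₁ * z) ≠ 0 := by
    by_contra h0
    push Not at h0
    exact hy (nondeg_base H.nondeg y₁ h0)
  -- pass to the transcendental part
  have hz1 : formBase L tr (y₁ * π.baseChange L z) ≠ 0 := by
    have h1 := form_base (L := L) (tr := tr) (Z₁ := π) (Z₂ := 1) (Z₃ := π) (Z₄ := π) (c := 1)
      (fun a b => by rw [one_mul]; exact H.orth a b) y₁ z
    rw [map_one, one_mul, hpy, LinearMap.baseChange_one, Module.End.one_apply] at h1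
    rwa [← h1]
  -- pass to an eigenvector
  obtain ⟨γ, hγ, hz2⟩ : ∃ γ ∈ S.image (fun α => α ^ m),
      formBase L tr (y₁ * blk F π m S γ z) ≠ 0 := by
    by_contra h0
    push Not at h0
    apply hz1
    rw [← H.blk_sum hS, LinearMap.sum_apply, Finset.mul_sum, map_sum]
    exact Finset.sum_eq_zero h0
  -- pass to the complementary degree
  set z₁ := (proj hI (2 * n - i)).baseChange L (blk F π m S γ z) with hz₁
  have hz3 : formBase L tr (y₁ * z₁) ≠ 0 := by
    have hsum : blk F π m S γ z = ∑ j ∈ range (2 * n + 1),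
        (proj hI j).baseChange L (blk F π m S γ z) := by
      have h1 := sum_proj hI (N := 2 * n + 1) (fun i hi => H.hbd i (by omega))
      have h2 := congrArg (fun Z => Z.baseChange L) h1
      beta_reduce at h2
      have h3 : (∑ i ∈ range (2 * n + 1), proj hI i).baseChange L =
          ∑ i ∈ range (2 * n + 1), (proj hI i).baseChange L :=
        map_sum (Module.End.baseChangeHom K L A) _ _
      rw [h3, LinearMap.baseChange_one] at h2
      have h4 := congrArg (fun Z => Z (blk F π m S γ z)) h2
      beta_reduce at h4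
      rw [LinearMap.sum_apply, Module.End.one_apply] at h4
      exact h4.symm
    have h5 : formBase L tr (y₁ * blk F π m S γ z) = formBase L tr (y₁ * z₁) := by
      conv_lhs => rw [hsum, Finset.mul_sum, map_sum]
      rw [Finset.sum_eq_single (2 * n - i)]
      · intro j _ hj
        rw [← hdy]
        exact deg_base H.deg (proj_base_mem i _) (proj_base_mem j _) (by omega)
      · intro h0; exact absurd (Finset.mem_range.2 (by omega)) h0
    rwa [← h5]
  have hz₁m : z₁ ∈ (gr (2 * n - i)).baseChange L := proj_base_mem _ _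
  have hGz : (F ^ m).baseChange L z₁ = γ • z₁ := by
    have h1 := congrArg (fun Z => Z z) (H.blk_G hS hγ)
    beta_reduce at h1
    rw [hz₁, ← Module.End.mul_apply, ← bcMul, H.compG, bcMul, Module.End.mul_apply,
      ← Module.End.mul_apply ((F ^ m).baseChange L), h1, LinearMap.smul_apply, map_smul]
  have hpz : π.baseChange L z₁ = z₁ := by
    have h1 := congrArg (fun Z => Z z) (H.blk_pi (S := S) γ).1
    beta_reduce at h1
    rw [hz₁, ← Module.End.mul_apply, ← bcMul, H.compP, bcMul, Module.End.mul_apply,
      ← Module.End.mul_apply (π.baseChange L), h1]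
  -- the eigenvalue
  have hβγ : β * γ = ((q ^ m : ℕ) : L) ^ n := by
    have h1 := form_base (L := L) (tr := tr) (Z₁ := F ^ m) (Z₂ := F ^ m) (Z₃ := 1) (Z₄ := 1)
      (c := ((q ^ m : ℕ) : K) ^ n) (fun a b => H.sim a b) y₁ z₁
    rw [hGy, hGz, LinearMap.baseChange_one, Module.End.one_apply, Module.End.one_apply,
      smul_mul_assoc, mul_smul_comm, map_smul, map_smul, smul_eq_mul, smul_eq_mul, ← mul_assoc,
      map_pow, map_natCast] at h1
    exact mul_right_cancel₀ hz3 h1
  -- the preimage under `θ`
  set w := (θ' i).baseChange L z₁ with hw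
  have hwm : w ∈ (gr i).baseChange L := mem_base (H.deg' i hi2n) hz₁m
  have hpw : π.baseChange L w = w := by
    have h1 := H.comm' i hi2n
    rw [hw, ← Module.End.mul_apply, ← bcMul, h1, bcMul, Module.End.mul_apply, hpz]
  have hβ0 : β ≠ 0 := by
    rintro rfl
    rw [zero_mul] at hβγ
    exact pow_ne_zero n hQ hβγ.symm
  have hGw : (F ^ m).baseChange L w = τ β • w := by
    have h1 := ext_base (L := L) (Z := F ^ m * θ' i) (Z' := θ' i * F ^ m)
      (c := ((q ^ m : ℕ) : K) ^ n) (c' := ((q ^ m : ℕ) : K) ^ i) (H.simt i hi2n) hz₁m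
    rw [bcMul, bcMul, Module.End.mul_apply, Module.End.mul_apply, hGz, map_smul, ← hw, map_pow,
      map_pow, map_natCast, smul_smul, ← hτ, ← hβγ] at h1
    have h2 : (β * γ) • ((F ^ m).baseChange L w) = (β * γ) • (τ β • w) := by
      rw [h1, smul_smul]
      congr 1
      ring
    exact smul_right_injective _ (by rw [hβγ]; exact pow_ne_zero n hQ) h2
  refine ⟨sig τ.symm w, ?_⟩
  have hblk : blk F π m S β (sig τ.symm w) = sig τ.symm w := by
    have h1 : (F ^ m).baseChange L (sig τ.symm w) = β • sig τ.symm w := by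
      rw [← sig_baseChange, hGw, sig_smul, AlgEquiv.symm_apply_apply]
    have h2 : π.baseChange L (sig τ.symm w) = sig τ.symm w := by
      rw [← sig_baseChange, hpw]
    have h3 := spec_eigen h1 h2 hβ hβ
    rwa [if_pos rfl] at h3
  rw [hblk, sig_symm]
  have h4 : (θ i).baseChange L w = z₁ := by
    have h5 := ext_base (L := L) (Z := θ i * θ' i) (Z' := 1) (c := 1) (c' := 1)
      (fun z hz => by
        rw [one_smul, one_smul]
        exact H.inv i hi2n z hz) hz₁m
    rw [map_one, one_smul, one_smul, bcMul, LinearMap.baseChange_one] at h5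
    exact h5
  rw [h4]
  exact hz3

end TData

end Pool.Agent.H914
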