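import Pool.Agent.H914R2.CPart
import Pool.Agent.H914R2.TBlk2

/-!
# The blocks of a single variety: data
-/

open CategoryTheory AlgebraicGeometry Finset TensorProduct Polynomial

universe u v

namespace Pool.Agent.H914

open VarClass Obj WeilCohomology

variable {k : Type u} [Field k] {𝒱 : VarClass k} {ops : CycleOps 𝒱}
  {W : WeilCohomology.{u, v} ops} {X : 𝒱.Obj}

/-- Algebraic operators commute with the projector to the transcendental part. -/
lemma KOp.piT_comm {π : ℕ → Module.End W.K (W.H X)} (h : CProj W X π) {d : ℤ}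
    {Z : Module.End W.K (W.H X)} (hZ : Z ∈ KOp W X X d) : Z * piT π = piT π * Z := by
  apply LinearMap.ext
  intro a
  rw [Module.End.mul_apply, Module.End.mul_apply]
  conv_rhs => rw [h.decomp a]
  rw [map_add, map_add, h.piT_fix (KOp.trans hZ (h.piT_trans a)), map_sum, map_sum,
    Finset.sum_eq_zero, add_zero]
  intro l hl
  have h1 := KOp.map_span hZ (h.mem l a)
  by_cases hneg : (l : ℤ) + d < 0
  · have h2 := spanCycles_deg h1
    rw [grZ_of_neg (by omega)] at h2
    rw [(Submodule.mem_bot _).1 h2, map_zero]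
  · obtain ⟨j, hj⟩ := Int.eq_ofNat_of_zero_le (show 0 ≤ (l : ℤ) + d by omega)
    rw [hj] at h1
    by_cases hjn : j ≤ X.dim
    · exact h.piT_span hjn h1
    · have h2 := span_gr h1
      rw [W.gr_eq_bot X _ (by omega)] at h2
      rw [(Submodule.mem_bot _).1 h2, map_zero]

lemma KOp.pow {d : ℤ} {Z : Module.End W.K (W.H X)} (hZ : Z ∈ KOp W X X d) (m : ℕ) :
    Z ^ m ∈ KOp W X X (m * d) := by
  rw [← mem_KS_iff] at hZ ⊢
  exact rop_opAlg.kspan.cast (rop_opAlg.kspan.pow hZ m) (by ring)

lemma KOp.aeval {Z : Module.End W.K (W.H X)} (hZ : Z ∈ KOp W X X 0) (p : W.K[X]) :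
    Polynomial.aeval Z p ∈ KOp W X X 0 := by
  induction p using Polynomial.induction_on' with
  | add p q hp hq => rw [map_add]; exact Submodule.add_mem _ hp hq
  | monomial n a =>
    rw [aeval_monomial, ← Algebra.smul_def]
    apply Submodule.smul_mem
    have := KOp.pow hZ n
    rwa [mul_zero] at this

lemma KOp.map (φ : X ⟶ X) : (W.map φ).toLinearMap ∈ KOp W X X 0 := KOp.ofRop (rop_map φ)

/-- A power of the endomorphism acts on all algebraic classes as a power of `q`. -/
lemma exists_uniform {f : X ⟶ X} {q : ℕ} (hF : FrobeniusOnCycles W X f q) :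
    ∃ M ≥ 1, ∀ l, ∀ c ∈ algClasses W X l, ((W.map f).toLinearMap ^ M) c =
      ((q ^ M : ℕ) : W.K) ^ l • c := by
  classical
  set F := (W.map f).toLinearMap with hFdef
  have hsub : ∀ l m, ∃ U : Submodule W.K (W.H X), ∀ a, a ∈ U ↔
      (F ^ (Nat.factorial m)) a = (q : W.K) ^ (Nat.factorial m * l) • a := by
    intro l m
    refine ⟨LinearMap.ker (F ^ (Nat.factorial m) -
      ((q : W.K) ^ (Nat.factorial m * l)) • (1 : Module.End W.K (W.H X))), fun a => ?_⟩
    rw [LinearMap.mem_ker, LinearMap.sub_apply, LinearMap.smul_apply, Module.End.one_apply,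
      sub_eq_zero]
  choose U hU using hsub
  have hmono : ∀ l, Monotone (U l) := by
    intro l
    apply monotone_nat_of_le_succ
    intro m a ha
    rw [hU] at ha ⊢
    have := pow_mul_smul ha (m + 1)
    rwa [mul_comm (Nat.factorial m) (m + 1), ← Nat.factorial_succ] at this
  have hstab : ∀ l, ∃ N, ∀ m, N ≤ m → U l N = U l m := fun l =>
    monotone_stabilizes_iff_noetherian.2 inferInstance ⟨U l, hmono l⟩
  choose N hN using hstab
  set M := ∑ l ∈ range (X.dim + 1), N l with hM
  refine ⟨Nat.factorial M, Nat.one_le_iff_ne_zero.2 (Nat.factorial_ne_zero _), ?_⟩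
  intro l c hc
  by_cases hl : l ≤ X.dim
  · obtain ⟨z, hz, rfl⟩ := hc
    obtain ⟨m, hm1, hm⟩ := hF l z hz
    rw [cl_pull_iter] at hm
    have h1 : W.cl X z ∈ U l m := by
      rw [hU]
      have := pow_mul_smul hm ((m - 1).factorial)
      rwa [Nat.mul_factorial_pred (by omega)] at this
    have h2 : W.cl X z ∈ U l (N l) := by
      by_cases hmN : N l ≤ m
      · rw [hN l m hmN]; exact h1
      · exact hmono l (by omega) h1
    have h3 : N l ≤ M := Finset.single_le_sum (f := N) (fun i _ => Nat.zero_le _)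
      (Finset.mem_range.2 (by omega))
    have h4 : W.cl X z ∈ U l M := hmono l h3 h2
    rw [hU] at h4
    rw [h4, pow_mul]
    push_cast; rfl
  · have h1 := alg_gr hc
    rw [W.gr_eq_bot X _ (by omega)] at h1
    rw [(Submodule.mem_bot _).1 h1, map_zero, smul_zero]

/-- The data for the transcendental part. -/
theorem exists_tData {D : X.Cycles} (hD : X.IsCyc 1 D) (hHL : HardLefschetz W X D)
    (hB : LefschetzB W X D) {π : ℕ → Module.End W.K (W.H X)} (h : CProj W X π) {f : X ⟶ X} {q : ℕ}
    (hq : 1 < q) (hF : FrobeniusOnCycles W X f q)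
    (hss : SemisimpleOn (W.map f).toLinearMap (transcendental W X))
    (hT : CommIn (W.gr X) (W.map f).toLinearMap (transcendental W X) (KOp W X X 0)) :
    ∃ (m : ℕ) (θ θ' : ℕ → Module.End W.K (W.H X)),
      TData (W.isInternal X) X.dim (W.tr X) (W.map f).toLinearMap (piT π) q m θ θ'
        (KOp W X X 0) ∧ ∀ i : ℕ, θ i ∈ KOp W X X ((X.dim : ℤ) - i) := by
  classical
  obtain ⟨M, hM1, hM⟩ := exists_uniform hF
  set n := X.dim with hn
  set F := (W.map f).toLinearMap with hFdef
  set L : Module.End W.K (W.H X) := LinearMap.mulLeft W.K (W.cl X D) with hL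
  obtain ⟨Lam, hLamR, hLam⟩ := lefschetzB_iff_rop.1 hB
  have hLK : L ∈ KOp W X X 1 := KOp.ofRop (rop_mulLeft hD)
  have hLamK : Lam ∈ KOp W X X (-1) := KOp.ofRop hLamR
  have hLh : IsHom (W.gr X) 2 L := mulLeft_isHom hD
  set Q : ℕ := q ^ M with hQ
  set ψ : X ⟶ X := iter f M with hψ
  have hG : F ^ M = (W.map ψ).toLinearMap := by
    apply LinearMap.ext
    intro a
    exact (map_iter f M a).symm
  have hGL : ∀ a, (F ^ M) (L a) = (Q : W.K) • L ((F ^ M) a) := by
    intro a
    have h1 := hM 1 (W.cl X D) ⟨D, hD, rfl⟩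
    rw [hG] at h1 ⊢
    rw [pow_one] at h1
    change W.map ψ (W.cl X D * a) = (Q : W.K) • (W.cl X D * W.map ψ a)
    change W.map ψ (W.cl X D) = (Q : W.K) • W.cl X D at h1
    rw [map_mul, h1, smul_mul_assoc]
  have hGLc : ∀ c a, (F ^ M) ((L ^ c) a) = (Q : W.K) ^ c • (L ^ c) ((F ^ M) a) := by
    intro c
    induction c with
    | zero => intro a; simp
    | succ c ih =>
      intro a
      rw [pow_succ, Module.End.mul_apply, ih, hGL, map_smul, smul_smul, pow_succ (Q : W.K),
        Module.End.mul_apply]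
  have hgrG : ∀ i, ∀ a ∈ W.gr X i, (F ^ M) a ∈ W.gr X i := by
    intro i a ha
    rw [hG]
    exact gr_map ψ ha
  have hLc : ∀ c i, ∀ a ∈ W.gr X i, (L ^ c) a ∈ W.gr X (i + 2 * c) := by
    intro c
    induction c with
    | zero => intro i a ha; simpa using ha
    | succ c ih =>
      intro i a ha
      rw [pow_succ', Module.End.mul_apply]
      have h1 := W.mul_mem (W.cl_mem hD) (ih i a ha)
      rw [show 2 * 1 + (i + 2 * c) = i + 2 * (c + 1) by ring] at h1
      exact h1
  have hinv : ∀ c ≤ n, ∀ b ∈ W.gr X (n - c), (Lam ^ c) ((L ^ c) b) = b := fun c hc b hb =>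
    lam_pow_L_pow hLh W_hbd hHL hLam hc hb
  have hsurj : ∀ c ≤ n, ∀ z ∈ W.gr X (n + c), ∃ b ∈ W.gr X (n - c), (L ^ c) b = z := by
    intro c hc z hz
    obtain ⟨b, hb, hb'⟩ := (hHL (n - c) (by omega)).2 z
      (by rw [show 2 * X.dim - (n - c) = n + c by omega]; exact hz)
    rw [show X.dim - (n - c) = c by omega] at hb'
    exact ⟨b, hb, hb'⟩
  refine ⟨M, fun i => if i ≤ n then L ^ (n - i) else Lam ^ (i - n),
    fun i => if i ≤ n then Lam ^ (n - i) else L ^ (i - n), ?_, ?_⟩
  swap
  · intro i
    by_cases hi : i ≤ n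
    · simp only [if_pos hi]
      exact KOp.cast (KOp.pow hLK _) (by omega)
    · simp only [if_neg hi]
      exact KOp.cast (KOp.pow hLamK _) (by omega)
  have hθ' : ∀ i : ℕ, ∃ d : ℤ, (if i ≤ n then Lam ^ (n - i) else L ^ (i - n)) ∈
      KOp W X X d := by
    intro i
    by_cases hi : i ≤ n
    · simp only [if_pos hi]
      exact ⟨_, KOp.pow hLamK _⟩
    · simp only [if_neg hi]
      exact ⟨_, KOp.pow hLK _⟩
  refine ⟨fun i hi => W.gr_eq_bot X i hi, fun ha hb hij => W.tr_eq_zero (W.mul_mem ha hb) hij,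
    W.nondeg, h.piT_idem, KOp.piT_comm h (KOp.map f), ?_, ?_, ?_, hq, hM1, ?_, ?_, ?_, ?_, ?_,
    ?_, ?_⟩
  · intro i
    have h1 : IsHom (W.gr X) 0 F := map_isHom f
    exact (h1.proj_comm (W.isInternal X) i).symm
  · intro i
    exact (h.piT_comm (Z := proj (W.isInternal X) i) (fun a ha => proj_trans i ha)
      (fun l u hu => proj_span i l hu)).symm
  · intro a b
    conv_lhs => rw [h.decomp b]
    rw [mul_add, map_add, Finset.mul_sum, map_sum, Finset.sum_eq_zero, add_zero]
    intro l _
    have h1 := mem_trans.1 (h.piT_trans a)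
    have h2 := h.mem l b
    rw [spanCycles_eq] at h2
    generalize π l b = u at h2
    induction h2 using Submodule.span_induction with
    | mem u hu => exact h1 l u hu
    | zero => rw [mul_zero, map_zero]
    | add x y _ _ hx hy => rw [mul_add, map_add, hx, hy, add_zero]
    | smul c x _ hx => rw [mul_smul_comm, map_smul, hx, smul_zero]
  · intro a b
    by_cases h1 : (1 : W.H X) = 0
    · have h2 : ∀ x : W.H X, x = 0 := fun x => by rw [← one_mul x, h1, zero_mul]
      rw [h2 a, h2 b]
      simp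
    · obtain ⟨t, ht, ht0⟩ := exists_top (W := W) hD hHL h1
      have h2 := hM X.dim t ht
      rw [hG] at h2 ⊢
      have h3 := tr_map_of_top (φ := ψ) (alg_gr ht) ht0 h2 (a * b)
      rw [map_mul] at h3
      exact h3
  · intro i hi z hz
    by_cases hin : i ≤ n
    · simp only [if_pos hin]
      obtain ⟨b, hb, rfl⟩ := hsurj (n - i) (by omega) z
        (by rwa [show n + (n - i) = 2 * X.dim - i by omega])
      rw [hinv _ (by omega) b hb]
    · simp only [if_neg hin]
      exact hinv _ (by omega) z (by rwa [show n - (i - n) = 2 * X.dim - i by omega])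
  · intro i hi z hz
    by_cases hin : i ≤ n
    · simp only [if_pos hin]
      obtain ⟨b, hb, rfl⟩ := hsurj (n - i) (by omega) z
        (by rwa [show n + (n - i) = 2 * X.dim - i by omega])
      rw [hinv _ (by omega) b hb]
      rwa [show n - (n - i) = i by omega] at hb
    · simp only [if_neg hin]
      have h1 := hLc (i - n) _ z hz
      rwa [show 2 * X.dim - i + 2 * (i - n) = i by omega] at h1
  · intro i _
    obtain ⟨d, hd⟩ := hθ' i
    exact (KOp.piT_comm h hd).symm
  · intro i hi z hz
    by_cases hin : i ≤ n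
    · simp only [if_pos hin]
      obtain ⟨b, hb, rfl⟩ := hsurj (n - i) (by omega) z
        (by rwa [show n + (n - i) = 2 * X.dim - i by omega])
      rw [hinv _ (by omega) b hb, hGLc, map_smul,
        hinv _ (by omega) _ (hgrG _ b hb), smul_smul, ← pow_add]
      congr 2
      omega
    · simp only [if_neg hin]
      rw [hGLc, smul_smul, ← pow_add]
      congr 2
      omega
  · obtain ⟨P, hP, hP'⟩ := hss
    refine ⟨P, hP, ?_⟩
    apply LinearMap.ext
    intro a
    exact hP' _ (h.piT_trans a)
  · intro Z hZ1 hZ2 hZ3 hZ4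
    obtain ⟨Z', hZ', hZZ'⟩ := hT M hM1 Z (by
        intro i a ha
        have h1 := congrArg (fun Y => Y a) (hZ3 i)
        beta_reduce at h1
        rw [Module.End.mul_apply, Module.End.mul_apply, proj_same _ ha] at h1
        rw [h1]
        exact proj_mem _ i _)
      (by
        intro a _
        rw [← hZ1]
        exact h.piT_trans _)
      (by
        intro a _
        exact congrArg (fun Y => Y a) hZ4)
    have h1 : Z = Z' ∘ₗ piT π := by
      apply LinearMap.ext
      intro a
      rw [LinearMap.comp_apply, ← hZZ' _ (h.piT_trans a)]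
      exact congrArg (fun Y => Y a) hZ2.symm
    rw [h1]
    have h2 := KOp.comp hZ' h.piT_mem
    rwa [add_zero] at h2

end Pool.Agent.H914
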