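import Pool.Agent.H914R2.EHom
import Pool.Agent.H914R2.PStep
import Pool.Agent.H914R2.XData

/-!
# The key argument: algebraicity of the dual multiset
-/

open CategoryTheory AlgebraicGeometry Finset TensorProduct Polynomial

universe u v w

namespace Pool.Agent.H914

open VarClass Obj WeilCohomology

section Galois

variable {ι : Type*} {K L : Type*} [Field K] [Field L] [Algebra K L]

/-- The action of an automorphism on the labels. -/
def sg (σ : L ≃ₐ[K] L) (x : ι × ℕ × L) : ι × ℕ × L := (x.1, x.2.1, σ x.2.2)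

lemma sg_sg (σ τ : L ≃ₐ[K] L) (s : Multiset (ι × ℕ × L)) :
    (s.map (sg σ)).map (sg τ) = s.map (sg (σ.trans τ)) := by
  rw [Multiset.map_map]
  rfl

lemma sg_one (s : Multiset (ι × ℕ × L)) : s.map (sg (AlgEquiv.refl (R := K) (A₁ := L))) = s := by
  conv_rhs => rw [← Multiset.map_id s]
  rfl

lemma orbit_finite [Algebra.IsAlgebraic K L] (s : Multiset (ι × ℕ × L)) :
    {u | ∃ σ : L ≃ₐ[K] L, u = s.map (sg σ)}.Finite := by
  classical
  have hA : (⋃ x ∈ {x | x ∈ s}, {x' : ι × ℕ × L | ∃ σ : L ≃ₐ[K] L, x' = sg σ x}).Finite := by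
    apply Set.Finite.biUnion
    · exact (s.toFinset.finite_toSet).subset (fun x hx => by
        rw [Finset.mem_coe, Multiset.mem_toFinset]; exact hx)
    · intro x _
      have h1 := (Polynomial.rootSet_finite (minpoly K x.2.2) L).image
        (fun β : L => ((x.1, x.2.1, β) : ι × ℕ × L))
      refine h1.subset ?_
      rintro _ ⟨σ, rfl⟩
      refine ⟨σ x.2.2, ?_, rfl⟩
      rw [Polynomial.mem_rootSet]
      refine ⟨minpoly.ne_zero (Algebra.IsAlgebraic.isAlgebraic x.2.2).isIntegral, ?_⟩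
      rw [← AlgEquiv.coe_algHom, Polynomial.aeval_algHom_apply, minpoly.aeval, map_zero]
  set A := hA.toFinset with hAdef
  refine ((Finset.sym A (Multiset.card s)).finite_toSet.image
    (fun m : Sym (ι × ℕ × L) (Multiset.card s) => (m : Multiset (ι × ℕ × L)))).subset ?_
  rintro _ ⟨σ, rfl⟩
  refine ⟨⟨s.map (sg σ), by rw [Multiset.card_map]⟩, ?_, rfl⟩
  rw [Finset.mem_coe, Finset.mem_sym_iff]
  intro a ha
  have ha' : a ∈ s.map (sg σ) := ha
  obtain ⟨x, hx, rfl⟩ := Multiset.mem_map.1 ha'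
  rw [hAdef, Set.Finite.mem_toFinset, Set.mem_iUnion₂]
  exact ⟨x, hx, σ, rfl⟩

lemma orbit_sum [Algebra.IsAlgebraic K L] (s : Multiset (ι × ℕ × L)) (τ : L ≃ₐ[K] L) :
    (∑ u ∈ (orbit_finite (K := K) s).toFinset, u).map (sg τ) =
      ∑ u ∈ (orbit_finite (K := K) s).toFinset, u := by
  classical
  have h1 : (∑ u ∈ (orbit_finite (K := K) s).toFinset, u).map (sg τ) =
      ∑ u ∈ (orbit_finite (K := K) s).toFinset, u.map (sg τ) :=
    map_sum (Multiset.mapAddMonoidHom (sg τ)) _ _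
  rw [h1]
  refine Finset.sum_nbij' (fun u => u.map (sg τ)) (fun u => u.map (sg τ.symm)) ?_ ?_ ?_ ?_ ?_
  · intro u hu
    rw [Set.Finite.mem_toFinset] at hu ⊢
    obtain ⟨σ, rfl⟩ := hu
    exact ⟨σ.trans τ, sg_sg _ _ _⟩
  · intro u hu
    rw [Set.Finite.mem_toFinset] at hu ⊢
    obtain ⟨σ, rfl⟩ := hu
    exact ⟨σ.trans τ.symm, sg_sg _ _ _⟩
  · intro u _
    rw [sg_sg, AlgEquiv.self_trans_symm]
    exact sg_one u
  · intro u _
    rw [sg_sg, AlgEquiv.symm_trans_self]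
    exact sg_one u
  · intro u _
    rfl

end Galois

variable {k : Type u} [Field k] {𝒱 : VarClass k} {ops : CycleOps 𝒱}
  {W : WeilCohomology.{u, v} ops} {X Y Z : 𝒱.Obj} {ι : Type w} {P : ι → EndVar 𝒱} {q : ℕ}

/-- The dual label. -/
noncomputable def barLab (W : WeilCohomology.{u, v} ops) (P : ι → EndVar 𝒱) (q : ℕ)
    (x : ι × ℕ × W.K) : ι × ℕ × W.K :=
  (x.1, 2 * (P x.1).X.dim - x.2.1, (q : W.K) ^ (P x.1).X.dim / x.2.2)

/-- The normal form of a label. -/
noncomputable def nrm (W : WeilCohomology.{u, v} ops) (q : ℕ) (x : ι × ℕ × W.K) : ℕ × W.K :=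
  (x.2.1 % 2, x.2.2 / (q : W.K) ^ (x.2.1 / 2))

/-- The properties of the eigenspaces. -/
structure LabProps (W : WeilCohomology.{u, v} ops) (P : ι → EndVar 𝒱) (q : ℕ) : Prop where
  hq : q ≠ 0
  rep : ∀ x x' : ι × ℕ × W.K, blkS W P x ≠ ⊥ → nrm W q x = nrm W q x' →
    ∀ y' ∈ blkS W P x', ∃ (d : ℤ) (θ : W.H (P x.1).X →ₗ[W.K] W.H (P x'.1).X),
      θ ∈ KOp W (P x.1).X (P x'.1).X d ∧ ∃ y ∈ blkS W P x, θ y = y'
  dual : ∀ x : ι × ℕ × W.K, blkS W P x ≠ ⊥ →
    ∃ y ∈ blkS W P x, ∃ y' ∈ blkC W P x.1 (2 * (P x.1).X.dim - x.2.1)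
      ((q : W.K) ^ (P x.1).X.dim / x.2.2), W.tr (P x.1).X (y' * y) ≠ 0

lemma equi_comp {A B C : 𝒱.Obj} {F : A ⟶ A} {p : A ⟶ B} {G : B ⟶ B} {g : B ⟶ C} {H : C ⟶ C}
    (h1 : F ≫ p = p ≫ G) (h2 : G ≫ g = g ≫ H) : F ≫ (p ≫ g) = (p ≫ g) ≫ H := by
  rw [← Category.assoc, h1, Category.assoc, Category.assoc, h2]

lemma blk_le {x : ι × ℕ × W.K} (hx : blkS W P x ≠ ⊥) : x.2.1 ≤ 2 * (P x.1).X.dim := by
  by_contra h
  apply hx
  rw [eq_bot_iff]
  intro y hy
  have h1 := (mem_blkS.1 hy).2.1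
  rw [W.gr_eq_bot _ _ (by omega)] at h1
  exact h1

/-- Replacing labels by labels with the same normal form. -/
lemma AlgM.ofNrm (h : LabProps W P q) (t : Multiset (ι × ℕ × W.K)) :
    ∀ u t' : Multiset (ι × ℕ × W.K), (∀ x ∈ t, blkS W P x ≠ ⊥) →
      t.map (nrm W q) = t'.map (nrm W q) → AlgM W P (t + u) → AlgM W P (t' + u) := by
  induction t using Multiset.induction_on with
  | empty =>
    intro u t' _ h1 h2
    rw [Multiset.map_zero] at h1
    rw [Multiset.map_eq_zero.1 h1.symm]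
    exact h2
  | cons x t ih =>
    intro u t' hnz h1 h2
    have hmem : nrm W q x ∈ t'.map (nrm W q) := by
      rw [← h1, Multiset.map_cons]
      exact Multiset.mem_cons_self _ _
    obtain ⟨x', hx', hxx⟩ := Multiset.mem_map.1 hmem
    obtain ⟨t₀, rfl⟩ := Multiset.exists_cons_of_mem hx'
    rw [Multiset.map_cons, Multiset.map_cons, hxx, Multiset.cons_inj_right] at h1
    rw [Multiset.cons_add] at h2 ⊢
    have h3 := AlgM.replace (h.rep x x' (hnz x (Multiset.mem_cons_self _ _)) hxx.symm) h2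
    rw [← Multiset.add_cons] at h3 ⊢
    exact ih _ _ (fun y hy => hnz y (Multiset.mem_cons_of_mem hy)) h1 h3

/-- Realization of a list of labels on a product. -/
lemma exists_real (h : LabProps W P q) (l : List (ι × ℕ × W.K)) (hl : l ≠ [])
    (hnz : ∀ x ∈ l, blkS W P x ≠ ⊥) : ∃ Q : EndVar 𝒱, IsFamilyProduct P Q ∧
      ∃ c c' : List (Crd W P Q.X), c.map Crd.x = l ∧ c'.map Crd.x = l.map (barLab W P q) ∧
        (∀ d ∈ c, Q.f ≫ d.g = d.g ≫ (P d.x.1).f) ∧ W.tr Q.X (pe c' * pe c) ≠ 0 := by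
  induction l with
  | nil => exact absurd rfl hl
  | cons x l ih =>
    obtain ⟨y, hy, y', hy', hne⟩ := h.dual x (hnz x List.mem_cons_self)
    by_cases hl0 : l = []
    · subst hl0
      let d : Crd W P (P x.1).X := ⟨x, 𝟙 _, y, hy⟩
      let d' : Crd W P (P x.1).X := ⟨barLab W P q x, 𝟙 (P x.1).X, y', hy'⟩
      have hd : d.ev = y := W.map_id _ y
      have hd' : d'.ev = y' := W.map_id _ y'
      refine ⟨P x.1, .base x.1, [d], [d'], rfl, rfl, ?_, ?_⟩
      · intro e he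
        rw [List.mem_singleton] at he
        subst he
        change (P x.1).f ≫ 𝟙 _ = 𝟙 _ ≫ (P x.1).f
        rw [Category.comp_id, Category.id_comp]
      · rw [pe_cons, pe_cons, pe_nil, mul_one, mul_one, hd, hd']
        exact hne
    · obtain ⟨Q, hQ, c, c', hc, hc', heq, htr⟩ := ih hl0
        (fun z hz => hnz z (List.mem_cons_of_mem _ hz))
      let d : Crd W P ((P x.1).X.prod Q.X) := ⟨x, fst (P x.1).X Q.X, y, hy⟩
      let d' : Crd W P ((P x.1).X.prod Q.X) := ⟨barLab W P q x, fst (P x.1).X Q.X, y', hy'⟩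
      have hd : d.ev = W.map (fst (P x.1).X Q.X) y := rfl
      have hd' : d'.ev = W.map (fst (P x.1).X Q.X) y' := rfl
      refine ⟨(P x.1).prod Q, .prod (.base _) hQ,
        d :: c.map (Crd.comp (snd (P x.1).X Q.X)), d' :: c'.map (Crd.comp (snd (P x.1).X Q.X)),
        ?_, ?_, ?_, ?_⟩
      · rw [List.map_cons, List.map_map, ← hc]
        rfl
      · rw [List.map_cons, List.map_map, List.map_cons, ← hc']
        rfl
      · intro e he
        rw [List.mem_cons] at he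
        rcases he with rfl | he
        · exact Obj.lift_fst _ _
        · obtain ⟨e', he', rfl⟩ := List.mem_map.1 he
          exact equi_comp (Obj.lift_snd _ _) (heq e' he')
      · have h1 := tmul_mul (W := W) (a := y') (b' := pe c) (pe_mem c') ((mem_blkS.1 hy).2.1)
        have h2 : pe (d' :: c'.map (Crd.comp (snd (P x.1).X Q.X))) *
            pe (d :: c.map (Crd.comp (snd (P x.1).X Q.X))) =
            W.map (fst (P x.1).X Q.X) y' * W.map (snd (P x.1).X Q.X) (pe c') *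
            (W.map (fst (P x.1).X Q.X) y * W.map (snd (P x.1).X Q.X) (pe c)) := by
          rw [pe_cons, pe_cons, pe_comp, pe_comp, hd, hd']
        change W.tr ((P x.1).X.prod Q.X) (pe (d' :: c'.map (Crd.comp (snd (P x.1).X Q.X))) *
            pe (d :: c.map (Crd.comp (snd (P x.1).X Q.X)))) ≠ 0
        rw [h2, h1, map_smul, W.tr_prod, smul_eq_mul]
        exact mul_ne_zero (pow_ne_zero _ (by norm_num)) (mul_ne_zero hne htr)

lemma pe_frob {Q : EndVar 𝒱} (c : List (Crd W P Q.X))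
    (heq : ∀ d ∈ c, Q.f ≫ d.g = d.g ≫ (P d.x.1).f) :
    W.map Q.f (pe c) = ((c.map Crd.x).map (fun x => x.2.2)).prod • pe c := by
  induction c with
  | nil => rw [pe_nil, map_one]; simp
  | cons d c ih =>
    have h1 := ih (fun e he => heq e (List.mem_cons_of_mem _ he))
    have h2 : W.map Q.f d.ev = d.x.2.2 • d.ev := by
      rw [Crd.ev, ← W.map_comp, heq d List.mem_cons_self, W.map_comp, (mem_blkS.1 d.hy).2.2,
        map_smul]
    rw [pe_cons, map_mul, h1, h2, smul_mul_smul_comm, List.map_cons, List.map_cons,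
      List.prod_cons]

/-- The eigenvalues of an algebraic multiset satisfy the relation predicted by the weights. -/
lemma AlgM.tate (h : LabProps W P q)
    (hF : ∀ Q, IsFamilyProduct P Q → FrobeniusOnCycles W Q.X Q.f q)
    {s : Multiset (ι × ℕ × W.K)} (hs : AlgM W P s) (hs0 : s ≠ 0)
    (hnz : ∀ x ∈ s, blkS W P x ≠ ⊥) : ∃ r m : ℕ, 1 ≤ m ∧ (s.map (fun x => x.2.1)).sum = 2 * r ∧
      (s.map (fun x => x.2.2)).prod ^ m = (q : W.K) ^ (m * r) := by
  classical
  obtain ⟨l, rfl⟩ : ∃ l : List (ι × ℕ × W.K), (l : Multiset (ι × ℕ × W.K)) = s :=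
    ⟨s.toList, Multiset.coe_toList s⟩
  have hl0 : l ≠ [] := by
    rintro rfl
    exact hs0 rfl
  obtain ⟨Q, hQ, c, c', hc, -, heq, htr⟩ := exists_real h l hl0 (fun x hx => hnz x hx)
  have hv : pe c ∈ algS W Q.X := hs Q.X c (by rw [hc])
  have hv0 : pe c ≠ 0 := by
    intro h0
    rw [h0, mul_zero, map_zero] at htr
    exact htr rfl
  have hdeg := pe_mem c
  have hsum : (c.map (fun d => d.x.2.1)).sum = (l.map (fun x => x.2.1)).sum := by
    rw [← hc, List.map_map]
    rfl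
  rw [hsum] at hdeg
  set D := (l.map (fun x => x.2.1)).sum with hD
  have hfr := pe_frob c heq
  rw [hc] at hfr
  rcases Nat.mod_two_eq_zero_or_one D with he | ho
  swap
  · exfalso
    apply hv0
    rw [← proj_same (W.isInternal Q.X) hdeg]
    exact algS_proj_odd hv ho
  obtain ⟨r, hr⟩ : ∃ r, D = 2 * r := ⟨D / 2, by omega⟩
  obtain ⟨M, hM1, hM⟩ := exists_uniform (hF Q hQ)
  have hspan : pe c ∈ spanCycles W Q.X (r : ℤ) := by
    have h1 := algS_proj hv r
    rw [← hr, proj_same (W.isInternal Q.X) hdeg] at h1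
    exact h1
  rw [spanCycles_eq] at hspan
  have hFM : ((W.map Q.f).toLinearMap ^ M) (pe c) = ((q ^ M : ℕ) : W.K) ^ r • pe c := by
    generalize pe c = a at hspan
    induction hspan using Submodule.span_induction with
    | mem a ha => exact hM r a ha
    | zero => rw [map_zero, smul_zero]
    | add x y _ _ hx hy => rw [map_add, hx, hy, smul_add]
    | smul t x _ hx => rw [map_smul, hx, smul_comm]
  have hFM' : ((W.map Q.f).toLinearMap ^ M) (pe c) =
      ((l.map (fun x => x.2.2)).prod) ^ M • pe c := by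
    have h1 := poly_eigen (F := (W.map Q.f).toLinearMap) (e := pe c) hfr (Polynomial.X ^ M)
    rwa [map_pow, aeval_X, eval_pow, eval_X] at h1
  refine ⟨r, M, hM1, ?_, ?_⟩
  · rw [Multiset.map_coe, Multiset.sum_coe]
    exact hr
  · rw [Multiset.map_coe, Multiset.prod_coe]
    rw [hFM] at hFM'
    have h1 := smul_left_injective W.K hv0 hFM'
    beta_reduce at h1
    rw [← h1, Nat.cast_pow, ← pow_mul]

/-- Contraction. -/
lemma AlgM.contract (h : LabProps W P q) {u t : Multiset (ι × ℕ × W.K)}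
    (h1 : AlgM W P (u + t.map (barLab W P q))) (h2 : AlgM W P t)
    (hnz : ∀ x ∈ t, blkS W P x ≠ ⊥) : AlgM W P u := by
  obtain ⟨l, rfl⟩ : ∃ l : List (ι × ℕ × W.K), (l : Multiset (ι × ℕ × W.K)) = t :=
    ⟨t.toList, Multiset.coe_toList t⟩
  by_cases hl0 : l = []
  · subst hl0
    have : u + ((([] : List (ι × ℕ × W.K)) : Multiset (ι × ℕ × W.K)).map (barLab W P q)) = u := by
      simp
    rwa [this] at h1
  obtain ⟨Q, hQ, c, c', hc, hc', -, htr⟩ := exists_real h l hl0 (fun x hx => hnz x hx)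
  intro Z e he
  have hA : pe (c'.map (Crd.comp (fst Q.X Z)) ++ e.map (Crd.comp (snd Q.X Z))) ∈
      algS W (Q.X.prod Z) := by
    apply h1
    rw [List.map_append, List.map_map, List.map_map, ← Multiset.coe_add, add_comm u]
    have e1 : (c'.map (Crd.x ∘ Crd.comp (fst Q.X Z))) = c'.map Crd.x := rfl
    have e2 : (e.map (Crd.x ∘ Crd.comp (snd Q.X Z))) = e.map Crd.x := rfl
    rw [e1, e2, hc', he, Multiset.map_coe]
  have hB : pe (c.map (Crd.comp (fst Q.X Z))) ∈ algS W (Q.X.prod Z) := by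
    apply h2
    rw [List.map_map]
    have e1 : (c.map (Crd.x ∘ Crd.comp (fst Q.X Z))) = c.map Crd.x := rfl
    rw [e1, hc]
  have hC : pe c ∈ algS W Q.X := h2 Q.X c (by rw [hc])
  have hprod := algS_push (snd Q.X Z) (algS_mul hB hA)
  rw [pe_append, pe_comp, pe_comp, pe_comp, ← mul_assoc, ← map_mul (W.map (fst Q.X Z)),
    algS_comm hC, push_snd] at hprod
  have h3 := Submodule.smul_mem _ (W.tr Q.X (pe c' * pe c))⁻¹ hprod
  rwa [smul_smul, inv_mul_cancel₀ htr, one_smul] at h3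

/-- The normal form of the dual label. -/
lemma nrm_bar (hq : q ≠ 0) {x : ι × ℕ × W.K} (hx : blkS W P x ≠ ⊥) :
    nrm W q (barLab W P q x) =
      (x.2.1 % 2, (q : W.K) ^ x.2.1 / x.2.2 / (q : W.K) ^ (x.2.1 / 2)) := by
  have h1 := blk_le hx
  have hqK : (q : W.K) ≠ 0 := by exact_mod_cast hq
  rw [nrm, barLab]
  refine Prod.ext ?_ ?_
  · change (2 * (P x.1).X.dim - x.2.1) % 2 = x.2.1 % 2
    omega
  · change (q : W.K) ^ (P x.1).X.dim / x.2.2 / (q : W.K) ^ ((2 * (P x.1).X.dim - x.2.1) / 2) =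
      (q : W.K) ^ x.2.1 / x.2.2 / (q : W.K) ^ (x.2.1 / 2)
    by_cases h0 : x.2.2 = 0
    · rw [h0, div_zero, div_zero]
      simp
    rw [div_div, div_div, div_eq_div_iff (mul_ne_zero h0 (pow_ne_zero _ hqK))
      (mul_ne_zero h0 (pow_ne_zero _ hqK))]
    have e1 : (P x.1).X.dim + x.2.1 / 2 = x.2.1 + (2 * (P x.1).X.dim - x.2.1) / 2 := by omega
    calc (q : W.K) ^ (P x.1).X.dim * (x.2.2 * (q : W.K) ^ (x.2.1 / 2))
        = x.2.2 * (q : W.K) ^ ((P x.1).X.dim + x.2.1 / 2) := by rw [pow_add]; ring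
      _ = _ := by rw [e1, pow_add]; ring

/-- **The key argument.** -/
theorem AlgM.key (h : LabProps W P q)
    (hF : ∀ Q, IsFamilyProduct P Q → FrobeniusOnCycles W Q.X Q.f q)
    {K₀ : Type*} [Field K₀] [Algebra K₀ W.K] [Algebra.IsAlgebraic K₀ W.K]
    (hgal : ∀ (σ : W.K ≃ₐ[K₀] W.K) (s : Multiset (ι × ℕ × W.K)), AlgM W P s →
      AlgM W P (s.map (sg σ)))
    (hgalb : ∀ (σ : W.K ≃ₐ[K₀] W.K) (x : ι × ℕ × W.K), blkS W P x ≠ ⊥ → blkS W P (sg σ x) ≠ ⊥)
    {E : Set (ℕ × W.K)} (hE : ∀ x : ι × ℕ × W.K, blkS W P x ≠ ⊥ → x.2 ∈ E)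
    (hG : StableSymmetric K₀ E q) {s : Multiset (ι × ℕ × W.K)} (hs : AlgM W P s)
    (hnz : ∀ x ∈ s, blkS W P x ≠ ⊥) : AlgM W P (s.map (barLab W P q)) := by
  classical
  by_cases hs0 : s = 0
  · rw [hs0, Multiset.map_zero]
    exact AlgM.zero
  set O := (orbit_finite (K := K₀) s).toFinset with hO
  have hsO : s ∈ O := by
    rw [hO, Set.Finite.mem_toFinset]
    exact ⟨AlgEquiv.refl, (sg_one s).symm⟩
  have hOa : ∀ u ∈ O, AlgM W P u ∧ ∀ x ∈ u, blkS W P x ≠ ⊥ := by
    intro u hu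
    rw [hO, Set.Finite.mem_toFinset] at hu
    obtain ⟨σ, rfl⟩ := hu
    refine ⟨hgal σ s hs, ?_⟩
    intro x hx
    obtain ⟨y, hy, rfl⟩ := Multiset.mem_map.1 hx
    exact hgalb σ y (hnz y hy)
  set t := ∑ u ∈ O, u with ht
  have hta : AlgM W P t := AlgM.sum O (fun u => u) (fun u hu => (hOa u hu).1)
  have htnz : ∀ x ∈ t, blkS W P x ≠ ⊥ := by
    intro x hx
    rw [ht, Multiset.mem_sum] at hx
    obtain ⟨u, hu, hxu⟩ := hx
    exact (hOa u hu).2 x hxu
  have hts : t = s + ∑ u ∈ O.erase s, u := (Finset.add_sum_erase O (fun u => u) hsO).symm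
  have ht0 : t ≠ 0 := by
    intro h0
    rw [h0] at hts
    exact hs0 (by
      have := (add_eq_zero.1 hts.symm).1
      exact this)
  obtain ⟨r, m, hm, hr1, hr2⟩ := hta.tate h hF ht0 htnz
  have hsym : TwistSymmetric q (t.map (fun x => x.2)) := by
    refine hG _ ?_ ?_ m hm r ?_ ?_
    · intro x hx
      obtain ⟨y, hy, rfl⟩ := Multiset.mem_map.1 hx
      exact hE y (htnz y hy)
    · intro σ
      have h1 := orbit_sum (K := K₀) s σ
      rw [← hO, ← ht] at h1
      conv_rhs => rw [← h1]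
      rw [Multiset.map_map, Multiset.map_map]
      rfl
    · rw [Multiset.map_map]
      exact hr1
    · rw [Multiset.map_map]
      exact hr2
  have hN : t.map (nrm W q) = (t.map (barLab W P q)).map (nrm W q) := by
    rw [TwistSymmetric, Multiset.map_map, Multiset.map_map] at hsym
    rw [Multiset.map_map]
    have e1 : t.map (nrm W q ∘ barLab W P q) =
        t.map ((fun x : ℕ × W.K => (x.1 % 2, (q : W.K) ^ x.1 / x.2 / (q : W.K) ^ (x.1 / 2))) ∘
          (fun x : ι × ℕ × W.K => x.2)) := by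
      apply Multiset.map_congr rfl
      intro x hx
      exact nrm_bar h.hq (htnz x hx)
    rw [e1, ← hsym]
    rfl
  have hbar : AlgM W P (t.map (barLab W P q)) := by
    have h1 := AlgM.ofNrm h t 0 (t.map (barLab W P q)) htnz hN (by rwa [add_zero])
    rwa [add_zero] at h1
  rw [hts, Multiset.map_add] at hbar
  refine AlgM.contract h hbar (AlgM.sum (O.erase s) (fun u => u)
    (fun u hu => (hOa u (Finset.mem_of_mem_erase hu)).1)) ?_
  intro x hx
  rw [Multiset.mem_sum] at hx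
  obtain ⟨u, hu, hxu⟩ := hx
  exact (hOa u (Finset.mem_of_mem_erase hu)).2 x hxu

end Pool.Agent.H914
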