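import Pool.Agent.H914R2.PConj

/-!
# Real algebraic numbers in an algebraically closed field
-/

open Polynomial

namespace Pool.Agent.H914

section

variable (K : Type*) [Field K] [CharZero K] [IsAlgClosed K]

instance isAlg_algClosure : Algebra.IsAlgebraic ℚ (algebraicClosure ℚ K) := by
  refine ⟨fun x => ?_⟩
  obtain ⟨p, hp, hpx⟩ := mem_algebraicClosure_iff.1 x.2
  refine ⟨p, hp, ?_⟩
  have h1 := congrArg (fun φ : ℚ →+* K => Polynomial.eval₂ φ (x : K) p)
    (Subsingleton.elim (algebraMap ℚ K) ((algebraMap (algebraicClosure ℚ K) K).comp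
      (algebraMap ℚ (algebraicClosure ℚ K))))
  apply (algebraMap (algebraicClosure ℚ K) K).injective
  rw [map_zero, Polynomial.aeval_def, Polynomial.hom_eval₂]
  rw [Polynomial.aeval_def] at hpx
  rw [← hpx]
  exact h1.symm

/-- An embedding of the algebraic numbers in `K` into the complex numbers. -/
noncomputable def sigmaC : algebraicClosure ℚ K →+* ℂ :=
  (IsAlgClosed.lift (R := ℚ) (S := algebraicClosure ℚ K) (M := ℂ)).toRingHom

variable {K}

lemma conj_im_zero {z : ℂ} : z.im = 0 ↔ (starRingEnd ℂ) z = z := Complex.conj_eq_iff_im.symm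

/-- The real algebraic numbers in `K`. -/
noncomputable def realSub (K : Type*) [Field K] [CharZero K] [IsAlgClosed K] : Subfield K where
  carrier := {x | ∃ h : x ∈ algebraicClosure ℚ K, (sigmaC K ⟨x, h⟩).im = 0}
  zero_mem' := by
    refine ⟨zero_mem _, ?_⟩
    have : (⟨0, zero_mem _⟩ : algebraicClosure ℚ K) = 0 := rfl
    rw [this, map_zero, Complex.zero_im]
  one_mem' := by
    refine ⟨one_mem _, ?_⟩
    have : (⟨1, one_mem _⟩ : algebraicClosure ℚ K) = 1 := rfl
    rw [this, map_one, Complex.one_im]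
  add_mem' := by
    rintro x y ⟨hx, hx'⟩ ⟨hy, hy'⟩
    refine ⟨add_mem hx hy, ?_⟩
    have : (⟨x + y, add_mem hx hy⟩ : algebraicClosure ℚ K) = ⟨x, hx⟩ + ⟨y, hy⟩ := rfl
    rw [this, map_add, Complex.add_im, hx', hy', add_zero]
  mul_mem' := by
    rintro x y ⟨hx, hx'⟩ ⟨hy, hy'⟩
    refine ⟨mul_mem hx hy, ?_⟩
    have : (⟨x * y, mul_mem hx hy⟩ : algebraicClosure ℚ K) = ⟨x, hx⟩ * ⟨y, hy⟩ := rfl
    rw [this, map_mul, Complex.mul_im, hx', hy']
    ring
  neg_mem' := by
    rintro x ⟨hx, hx'⟩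
    refine ⟨neg_mem hx, ?_⟩
    have : (⟨-x, neg_mem hx⟩ : algebraicClosure ℚ K) = -⟨x, hx⟩ := rfl
    rw [this, map_neg, Complex.neg_im, hx', neg_zero]
  inv_mem' := by
    rintro x ⟨hx, hx'⟩
    refine ⟨inv_mem hx, ?_⟩
    have : (⟨x⁻¹, inv_mem hx⟩ : algebraicClosure ℚ K) = (⟨x, hx⟩ : algebraicClosure ℚ K)⁻¹ := rfl
    rw [this, map_inv₀, Complex.inv_im, hx', neg_zero, zero_div]

lemma mem_realSub {x : K} : x ∈ realSub K ↔
    ∃ h : x ∈ algebraicClosure ℚ K, (sigmaC K ⟨x, h⟩).im = 0 := Iff.rfl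

/-- The embedding of the real algebraic numbers in `K` into the real numbers. -/
noncomputable def realSubHom (K : Type*) [Field K] [CharZero K] [IsAlgClosed K] :
    realSub K →+* ℝ where
  toFun x := (sigmaC K ⟨x.1, x.2.1⟩).re
  map_one' := by
    have : (⟨(1 : realSub K).1, (1 : realSub K).2.1⟩ : algebraicClosure ℚ K) = 1 := rfl
    rw [this, map_one, Complex.one_re]
  map_zero' := by
    have : (⟨(0 : realSub K).1, (0 : realSub K).2.1⟩ : algebraicClosure ℚ K) = 0 := rfl
    rw [this, map_zero, Complex.zero_re]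
  map_add' x y := by
    have : (⟨(x + y).1, (x + y).2.1⟩ : algebraicClosure ℚ K) =
      ⟨x.1, x.2.1⟩ + ⟨y.1, y.2.1⟩ := rfl
    rw [this, map_add, Complex.add_re]
  map_mul' x y := by
    have : (⟨(x * y).1, (x * y).2.1⟩ : algebraicClosure ℚ K) =
      ⟨x.1, x.2.1⟩ * ⟨y.1, y.2.1⟩ := rfl
    have h1 := x.2.2
    rw [this, map_mul, Complex.mul_re, h1, zero_mul, sub_zero]

lemma exists_i (K : Type*) [Field K] [IsAlgClosed K] : ∃ i : K, i * i = -1 := by
  obtain ⟨z, hz⟩ := IsAlgClosed.exists_pow_nat_eq (-1 : K) (n := 2) (by norm_num)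
  exact ⟨z, by rw [← pow_two]; exact hz⟩

/-- The real structure of an algebraically closed field. -/
noncomputable def realField (K : Type*) [Field K] [CharZero K] [IsAlgClosed K] : RealField K where
  R := realSub K
  ρ := realSubHom K
  i := (exists_i K).choose
  i_sq := (exists_i K).choose_spec

/-- Numbers with conjugate images in the complex numbers are conjugate. -/
lemma cj_of_conj {x y : K} (hx : x ∈ algebraicClosure ℚ K) (hy : y ∈ algebraicClosure ℚ K)
    (hxy : sigmaC K ⟨y, hy⟩ = (starRingEnd ℂ) (sigmaC K ⟨x, hx⟩)) : (realField K).Cj x y := by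
  set i := (realField K).i with hi
  have hii : i * i = -1 := (realField K).i_sq
  have hialg : i ∈ algebraicClosure ℚ K := by
    rw [mem_algebraicClosure_iff]
    refine ⟨X ^ 2 + 1, ?_, ?_⟩
    · intro h0
      have := congrArg (fun p : ℚ[X] => p.eval 0) h0
      simp at this
    · simp only [map_add, map_pow, aeval_X, map_one]
      rw [pow_two, hii]; ring
  have hi0 : i ≠ 0 := by
    rintro h0
    rw [h0, mul_zero] at hii
    exact one_ne_zero (neg_eq_zero.1 hii.symm)
  set I := sigmaC K ⟨i, hialg⟩ with hI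
  have hII : I * I = -1 := by
    rw [hI, ← map_mul]
    have : (⟨i, hialg⟩ * ⟨i, hialg⟩ : algebraicClosure ℚ K) = -1 := by
      apply Subtype.ext
      exact hii
    rw [this, map_neg, map_one]
  have hIc : (starRingEnd ℂ) I = -I := by
    have h1 : (I - Complex.I) * (I + Complex.I) = 0 := by
      have := Complex.I_mul_I
      linear_combination hII - this
    rcases mul_eq_zero.1 h1 with h2 | h2
    · rw [sub_eq_zero.1 h2, Complex.conj_I]
    · rw [eq_neg_of_add_eq_zero_left h2, map_neg, Complex.conj_I]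
  have h2mem : (2 : K) ∈ algebraicClosure ℚ K := ofNat_mem _ 2
  have hr : (x + y) / 2 ∈ algebraicClosure ℚ K := div_mem (add_mem hx hy) h2mem
  have hs : (x - y) / (2 * i) ∈ algebraicClosure ℚ K :=
    div_mem (sub_mem hx hy) (mul_mem h2mem hialg)
  refine ⟨(x + y) / 2, ⟨hr, ?_⟩, (x - y) / (2 * i), ⟨hs, ?_⟩, ?_, ?_⟩
  · have e1 : (⟨(x + y) / 2, hr⟩ : algebraicClosure ℚ K) = (⟨x, hx⟩ + ⟨y, hy⟩) / 2 := rfl
    rw [e1, conj_im_zero, map_div₀, map_add, map_ofNat, hxy, map_div₀, map_add, map_ofNat,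
      Complex.conj_conj, add_comm]
  · have e1 : (⟨(x - y) / (2 * i), hs⟩ : algebraicClosure ℚ K) =
      (⟨x, hx⟩ - ⟨y, hy⟩) / (2 * ⟨i, hialg⟩) := rfl
    rw [e1, conj_im_zero, map_div₀, map_sub, map_mul, map_ofNat, hxy, map_div₀, map_sub, map_mul,
      map_ofNat, Complex.conj_conj, ← hI, hIc, mul_neg, div_neg, ← neg_div, neg_sub]
  · have : (realField K).i * ((x - y) / (2 * i)) = (x - y) / 2 := by
      rw [← hi]; field_simp
    rw [this]; ring
  · have : (realField K).i * ((x - y) / (2 * i)) = (x - y) / 2 := by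
      rw [← hi]; field_simp
    rw [this]; ring

end

end Pool.Agent.H914
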