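import Pool.Agent.H914R2.PPair
import Pool.Agent.H914R2.PReal
import Pool.Agent.H914R2.TBlk
import Pool.Agent.H914R2.TBase
import Pool.Agent.H914R2.WBase2

/-!
# Passage to the algebraic closure of the coefficient field
-/

open CategoryTheory AlgebraicGeometry Finset Polynomial TensorProduct

universe u v w

namespace Pool.Agent.H914

open VarClass Obj WeilCohomology

variable {k : Type u} [Field k] {𝒱 : VarClass k} {ops : CycleOps 𝒱}
  {W : WeilCohomology.{u, v} ops} {X Y Z : 𝒱.Obj}

section Alg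

variable {K : Type*} [Field K] {A : Type*} [Ring A] [Algebra K A] {L : Type*} [Field L]
  [Algebra K L]

lemma mulLeft_base (a : A) : LinearMap.mulLeft L ((1 : L) ⊗ₜ[K] a) =
    (LinearMap.mulLeft K a).baseChange L := by
  apply LinearMap.ext
  intro x
  refine tmul_induction (P := fun x => LinearMap.mulLeft L ((1 : L) ⊗ₜ[K] a) x =
    (LinearMap.mulLeft K a).baseChange L x) ?_ ?_ ?_ x
  · rw [map_zero, map_zero]
  · intro x y hx hy; rw [map_add, map_add, hx, hy]
  · intro l b
    rw [LinearMap.mulLeft_apply, Algebra.TensorProduct.tmul_mul_tmul, one_mul,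
      LinearMap.baseChange_tmul, LinearMap.mulLeft_apply]

variable [CharZero K] [Module.Finite K A]

lemma hardLef_base {gr : ℕ → Submodule K A} {n : ℕ} {T : Module.End K A}
    (h : DirectSum.IsInternal gr) (hT : IsHom gr 2 T) (hbd : ∀ i, 2 * n + 1 ≤ i → gr i = ⊥)
    (hHL : HardLef gr n T) : HardLef (fun i => (gr i).baseChange L) n (T.baseChange L) := by
  obtain ⟨Lam, -, hLam⟩ := exists_isLam h hT hbd hHL
  intro i hi
  have hpow : (T.baseChange L) ^ (n - i) = (T ^ (n - i)).baseChange L := (bc_pow L T _).symm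
  constructor
  · intro a ha h0
    have h1 : ∀ x ∈ (gr i).baseChange L,
        (Lam ^ (n - i)).baseChange L ((T ^ (n - i)).baseChange L x) = x := by
      intro x hx
      refine base_induction (P := fun x => (Lam ^ (n - i)).baseChange L
        ((T ^ (n - i)).baseChange L x) = x) ?_ ?_ ?_ hx
      · rw [map_zero, map_zero]
      · intro x y hx hy; rw [map_add, map_add, hx, hy]
      · intro l a ha
        have h2 := lam_pow_L_pow hT hbd hHL hLam (c := n - i) (by omega) (a := a)
          (by rwa [show n - (n - i) = i by omega])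
        rw [LinearMap.baseChange_tmul, LinearMap.baseChange_tmul, h2]
    rw [← h1 a ha, ← hpow, h0, map_zero]
  · intro b hb
    rw [hpow]
    refine base_induction (P := fun b => ∃ a ∈ (gr i).baseChange L,
      (T ^ (n - i)).baseChange L a = b) ?_ ?_ ?_ hb
    · exact ⟨0, Submodule.zero_mem _, map_zero _⟩
    · rintro _ _ ⟨a, ha, rfl⟩ ⟨a', ha', rfl⟩
      exact ⟨a + a', Submodule.add_mem _ ha ha', map_add _ _ _⟩
    · intro l b hb
      obtain ⟨a, ha, rfl⟩ := (hHL i hi).2 b hb
      exact ⟨l ⊗ₜ a, Submodule.tmul_mem_baseChange_of_mem _ ha,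
        LinearMap.baseChange_tmul _ _ _⟩

end Alg

variable {L : Type v} [Field L] [Algebra W.K L]

lemma base_hardLefschetz {D : X.Cycles} (hD : X.IsCyc 1 D) (h : HardLefschetz W X D) :
    HardLefschetz (baseW W L) X D := by
  have h1 := hardLef_base (L := L) (W.isInternal X) (mulLeft_isHom hD) W_hbd h
  rw [← mulLeft_base] at h1
  exact h1

lemma base_cl (z : X.Cycles) : (baseW W L).cl X z = (1 : L) ⊗ₜ[W.K] W.cl X z := rfl

lemma base_cl_eq_zero {z : X.Cycles} : (baseW W L).cl X z = 0 ↔ W.cl X z = 0 := by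
  constructor
  · intro h; exact tmul_injective _ h
  · intro h
    have : (baseW W L).cl X z = (1 : L) ⊗ₜ[W.K] W.cl X z := rfl
    rw [this, h]
    exact tmul_zero _ _

lemma base_lefschetzA {D : X.Cycles} (h : LefschetzA W X D) : LefschetzA (baseW W L) X D := by
  intro j hj z hz
  obtain ⟨z', hz', h1⟩ := h j hj z hz
  refine ⟨z', hz', ?_⟩
  rw [base_cl, base_cl, h1]

lemma base_hodgeType {D : X.Cycles} : HodgeType (baseW W L) X D ↔ HodgeType W X D := by
  constructor
  · intro h j hj z hz h1 h2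
    exact h j hj z hz (base_cl_eq_zero.2 h1) (fun h3 => h2 (base_cl_eq_zero.1 h3))
  · intro h j hj z hz h1 h2
    exact h j hj z hz (base_cl_eq_zero.1 h1) (fun h3 => h2 (base_cl_eq_zero.2 h3))

lemma base_frob {f : X ⟶ X} {q : ℕ} (h : FrobeniusOnCycles W X f q) :
    FrobeniusOnCycles (baseW W L) X f q := by
  intro j z hz
  obtain ⟨m, hm, h1⟩ := h j z hz
  refine ⟨m, hm, ?_⟩
  rw [base_cl, base_cl, h1, tmul_smul]
  have h2 : ((q : W.K) ^ (m * j)) • ((1 : L) ⊗ₜ[W.K] W.cl X z) =
      (algebraMap W.K L ((q : W.K) ^ (m * j))) • ((1 : L) ⊗ₜ[W.K] W.cl X z) := by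
    rw [algebraMap_smul]
  rw [h2, map_pow, map_natCast]
  rfl

/-- The orthogonal complement after the extension. -/
lemma orth_base_le {K : Type*} [Field K] {A : Type*} [Ring A] [Algebra K A] {L : Type*} [Field L]
    [Algebra K L] {tr : A →ₗ[K] K} {T : Submodule K A} {κ : Type*} [Fintype κ] {x w : κ → A}
    {c : κ → K} {p : Module.End K A} (hp : ∀ y, p y = ∑ k, (c k * tr (y * w k)) • x k)
    (hcompl : ∀ y, y - p y ∈ T) {y : L ⊗[K] A}
    (hy : ∀ k, formBase L tr (y * (1 : L) ⊗ₜ[K] w k) = 0) : y ∈ T.baseChange L := by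
  have h1 : ∀ y : L ⊗[K] A, p.baseChange L y = ∑ k, (algebraMap K L (c k) *
      formBase L tr (y * (1 : L) ⊗ₜ[K] w k)) • ((1 : L) ⊗ₜ[K] x k) := by
    intro y
    refine tmul_induction (P := fun y => p.baseChange L y = ∑ k, (algebraMap K L (c k) *
      formBase L tr (y * (1 : L) ⊗ₜ[K] w k)) • ((1 : L) ⊗ₜ[K] x k)) ?_ ?_ ?_ y
    · rw [map_zero]
      symm
      apply Finset.sum_eq_zero
      intro k _
      rw [zero_mul, map_zero, mul_zero, zero_smul]
    · intro y z hy hz
      rw [map_add, hy, hz, ← Finset.sum_add_distrib]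
      apply Finset.sum_congr rfl
      intro k _
      rw [← add_smul, ← mul_add, add_mul, map_add]
    · intro l' a
      rw [LinearMap.baseChange_tmul, hp, tmul_sum]
      apply Finset.sum_congr rfl
      intro k _
      rw [Algebra.TensorProduct.tmul_mul_tmul, formBase_tmul, tmul_smul, ← algebraMap_smul L,
        TensorProduct.smul_tmul', TensorProduct.smul_tmul', smul_eq_mul, smul_eq_mul, map_mul]
      congr 1
      ring
  have h2 : p.baseChange L y = 0 := by
    rw [h1]
    apply Finset.sum_eq_zero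
    intro k _
    rw [hy, mul_zero, zero_smul]
  have h3 : y = ((1 : Module.End K A) - p).baseChange L y := by
    rw [bc_sub, LinearMap.sub_apply, h2, sub_zero, bc_one]
    rfl
  rw [h3]
  refine tmul_induction (P := fun y => ((1 : Module.End K A) - p).baseChange L y ∈
    T.baseChange L) ?_ ?_ ?_ y
  · rw [map_zero]; exact Submodule.zero_mem _
  · intro y z hy hz; rw [map_add]; exact Submodule.add_mem _ hy hz
  · intro l' a
    rw [LinearMap.baseChange_tmul]
    exact Submodule.tmul_mem_baseChange_of_mem _ (hcompl a)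

/-- The transcendental cohomology is contained in the extension of the transcendental
cohomology. -/
lemma base_trans_le {D : X.Cycles} {Lam : Module.End W.K (W.H X)} {κ : Type} [Fintype κ]
    {l : κ → ℕ} {x : κ → W.H X} {φ : κ → ℚ} {p : Module.End W.K (W.H X)}
    (h : Setup W X D Lam κ l x φ p) {y : (baseW W L).H X}
    (hy : y ∈ transcendental (baseW W L) X) :
    (y : L ⊗[W.K] W.H X) ∈ (transcendental W X).baseChange L := by
  refine orth_base_le (tr := W.tr X) (c := fun k => (φ k : W.K)⁻¹) (x := x)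
    (w := fun k => wey (LinearMap.mulLeft W.K (W.cl X D)) Lam (x k)) (p := p) ?_
    h.compl_mem ?_
  · intro y
    rw [h.hp.p_eq]
    rfl
  · intro k
    obtain ⟨z, hz, hzk⟩ := h.wx_mem k
    have h3 := mem_trans.1 hy _ _ ⟨z, hz, rfl⟩
    rw [base_cl, hzk] at h3
    exact h3

lemma tmul_trans {t : W.H X} (ht : t ∈ transcendental W X) (l : L) :
    ((l ⊗ₜ[W.K] t : L ⊗[W.K] W.H X) : (baseW W L).H X) ∈ transcendental (baseW W L) X := by
  refine mem_trans.2 ?_
  rintro j _ ⟨z, hz, rfl⟩
  have h1 := mem_trans.1 ht _ _ ⟨z, hz, rfl⟩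
  rw [bil_apply] at h1
  change formBase L (W.tr X) ((l ⊗ₜ[W.K] t : L ⊗[W.K] W.H X) * ((1 : L) ⊗ₜ[W.K] W.cl X z)) = 0
  rw [Algebra.TensorProduct.tmul_mul_tmul, formBase_tmul, h1, map_zero, mul_zero]

lemma base_mid {D : X.Cycles} {Lam : Module.End W.K (W.H X)} {κ : Type} [Fintype κ]
    {l : κ → ℕ} {x : κ → W.H X} {φ : κ → ℚ} {p : Module.End W.K (W.H X)}
    (h : Setup W X D Lam κ l x φ p) (hmid : transcendental W X ≤ W.gr X X.dim) :
    transcendental (baseW W L) X ≤ (baseW W L).gr X X.dim := by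
  intro y hy
  have h1 : ∀ y : L ⊗[W.K] W.H X, y ∈ (transcendental W X).baseChange L →
      y ∈ (W.gr X X.dim).baseChange L := by
    intro y hy
    refine base_induction (P := fun y => y ∈ (W.gr X X.dim).baseChange L)
      (Submodule.zero_mem _) (fun _ _ => Submodule.add_mem _) ?_ hy
    intro l' a ha
    exact Submodule.tmul_mem_baseChange_of_mem _ (hmid ha)
  exact h1 y (base_trans_le h hy)

end Pool.Agent.H914
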