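import Pool.Agent.H914R2.EBase2
import Pool.Agent.H914R2.PDesc

/-!
# Slices of linear maps, and the passage to the algebraic closure
-/

open CategoryTheory AlgebraicGeometry Finset TensorProduct Polynomial

universe u v w

namespace Pool.Agent.H914

section Slice

variable {K : Type*} [Field K] {V : Type*} [AddCommGroup V] [Module K V] {V' : Type*}
  [AddCommGroup V'] [Module K V'] {V'' : Type*} [AddCommGroup V''] [Module K V'']
  {L : Type*} [Field L] [Algebra K L]

/-- The slice of a linear map. -/
noncomputable def sliceH (l : L →ₗ[K] K) (A : L ⊗[K] V →ₗ[L] L ⊗[K] V') : V →ₗ[K] V' :=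
  coeffs l ∘ₗ A.restrictScalars K ∘ₗ TensorProduct.mk K L V 1

lemma sliceH_apply (l : L →ₗ[K] K) (A : L ⊗[K] V →ₗ[L] L ⊗[K] V') (v : V) :
    sliceH l A v = coeffs l (A (1 ⊗ₜ v)) := rfl

lemma coeffs_baseChange' (l : L →ₗ[K] K) (B : V →ₗ[K] V') (x : L ⊗[K] V) :
    coeffs l (B.baseChange L x) = B (coeffs l x) := by
  induction x using TensorProduct.induction_on with
  | zero => rw [map_zero, map_zero, map_zero, map_zero]
  | add x y hx hy => rw [map_add, map_add, hx, hy, map_add, map_add]
  | tmul x v => rw [LinearMap.baseChange_tmul, coeffs_tmul, coeffs_tmul, map_smul]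

lemma sliceH_right (l : L →ₗ[K] K) (A : L ⊗[K] V' →ₗ[L] L ⊗[K] V'') (B : V →ₗ[K] V') :
    sliceH l (A ∘ₗ B.baseChange L) = sliceH l A ∘ₗ B := by
  apply LinearMap.ext
  intro v
  rw [sliceH_apply, LinearMap.comp_apply, LinearMap.baseChange_tmul, LinearMap.comp_apply,
    sliceH_apply]

lemma sliceH_left (l : L →ₗ[K] K) (A : L ⊗[K] V →ₗ[L] L ⊗[K] V') (B : V' →ₗ[K] V'') :
    sliceH l (B.baseChange L ∘ₗ A) = B ∘ₗ sliceH l A := by
  apply LinearMap.ext
  intro v
  rw [sliceH_apply, LinearMap.comp_apply, coeffs_baseChange', LinearMap.comp_apply, sliceH_apply]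

lemma sliceH_smul (l : L →ₗ[K] K) (c : K) (A : L ⊗[K] V →ₗ[L] L ⊗[K] V') :
    sliceH l (algebraMap K L c • A) = c • sliceH l A := by
  apply LinearMap.ext
  intro v
  rw [sliceH_apply, LinearMap.smul_apply, algebraMap_smul, map_smul, LinearMap.smul_apply,
    sliceH_apply]

lemma tmul_induction' {P : L ⊗[K] V → Prop} (h0 : P 0)
    (hadd : ∀ x y, P x → P y → P (x + y)) (h : ∀ (l : L) (a : V), P (l ⊗ₜ a))
    (x : L ⊗[K] V) : P x := by
  induction x using TensorProduct.induction_on with
  | zero => exact h0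
  | add x y hx hy => exact hadd _ _ hx hy
  | tmul l a => exact h l a

/-- Every linear map on the extension is a combination of its slices. -/
lemma exists_slicesH [Module.Finite K V] [Module.Finite K V']
    (A : L ⊗[K] V →ₗ[L] L ⊗[K] V') :
    ∃ (N : ℕ) (m : Fin N → L) (l : Fin N → (L →ₗ[K] K)),
      A = ∑ s, m s • (sliceH (l s) A).baseChange L := by
  classical
  set b := Module.finBasis K V with hb
  set b' := Module.finBasis K V' with hb'
  set bL := b'.baseChange L with hbL
  set a : Fin (Module.finrank K V') → Fin (Module.finrank K V) → L :=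
    fun i j => bL.repr (A (1 ⊗ₜ b j)) i with ha
  have hA : ∀ j, A (1 ⊗ₜ b j) = ∑ i, a i j ⊗ₜ[K] b' i := by
    intro j
    rw [← bL.sum_repr (A (1 ⊗ₜ b j))]
    apply Finset.sum_congr rfl
    intro i _
    rw [hbL, Module.Basis.baseChange_apply, TensorProduct.smul_tmul', smul_eq_mul, mul_one]
  set M : Submodule K L := Submodule.span K (Set.range fun p :
    Fin (Module.finrank K V') × Fin (Module.finrank K V) => a p.1 p.2) with hM
  have hfin : Module.Finite K M := FiniteDimensional.span_of_finite K (Set.finite_range _)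
  set bM := Module.finBasis K M with hbM
  choose l hl using fun s => LinearMap.exists_extend (bM.coord s)
  have hexp : ∀ i j, a i j = ∑ s, (bM s : L) * algebraMap K L (l s (a i j)) := by
    intro i j
    have hmem : a i j ∈ M := Submodule.subset_span ⟨(i, j), rfl⟩
    have h1 := bM.sum_repr ⟨a i j, hmem⟩
    have h2 := congrArg M.subtype h1
    rw [map_sum] at h2
    simp only [map_smul, Submodule.subtype_apply] at h2
    conv_lhs => rw [← h2]
    apply Finset.sum_congr rfl
    intro s _
    have h3 : l s (a i j) = bM.repr ⟨a i j, hmem⟩ s := by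
      have := congrArg (fun F => F ⟨a i j, hmem⟩) (hl s)
      exact this
    rw [h3, Algebra.smul_def, mul_comm]
  refine ⟨_, fun s => (bM s : L), l, ?_⟩
  have key : ∀ j, A (1 ⊗ₜ b j) =
      (∑ s, (bM s : L) • (sliceH (l s) A).baseChange L) (1 ⊗ₜ b j) := by
    intro j
    rw [LinearMap.sum_apply]
    have h1 : ∀ s, ((bM s : L) • (sliceH (l s) A).baseChange L) (1 ⊗ₜ b j) =
        ∑ i, ((bM s : L) * algebraMap K L (l s (a i j))) ⊗ₜ[K] b' i := by
      intro s
      rw [LinearMap.smul_apply, LinearMap.baseChange_tmul, sliceH_apply, hA, map_sum, tmul_sum,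
        Finset.smul_sum]
      apply Finset.sum_congr rfl
      intro i _
      rw [coeffs_tmul, tmul_smul, TensorProduct.smul_tmul', TensorProduct.smul_tmul',
        smul_eq_mul, Algebra.smul_def, mul_one]
    rw [Finset.sum_congr rfl (fun s _ => h1 s), Finset.sum_comm, hA]
    apply Finset.sum_congr rfl
    intro i _
    conv_lhs => rw [hexp i j]
    rw [sum_tmul]
  apply LinearMap.ext
  intro x
  refine tmul_induction' (P := fun x => A x =
    (∑ s, (bM s : L) • (sliceH (l s) A).baseChange L) x) ?_ ?_ ?_ x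
  · rw [map_zero, map_zero]
  · intro x y hx hy; rw [map_add, map_add, hx, hy]
  · intro y v
    have h0 : (y ⊗ₜ[K] v : L ⊗[K] V) = y • ((1 : L) ⊗ₜ[K] v) := by
      rw [TensorProduct.smul_tmul', smul_eq_mul, mul_one]
    rw [h0, map_smul, map_smul]
    congr 1
    have h2 : v = ∑ j, b.repr v j • b j := (b.sum_repr v).symm
    rw [h2, tmul_sum, map_sum, map_sum]
    apply Finset.sum_congr rfl
    intro j _
    have h3 : ((1 : L) ⊗ₜ[K] (b.repr v j • b j)) = (algebraMap K L (b.repr v j)) •
        ((1 : L) ⊗ₜ[K] b j) := by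
      rw [tmul_smul, algebraMap_smul]
    rw [h3, map_smul, map_smul, key]

end Slice

end Pool.Agent.H914
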