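import Pool.Agent.H914R2.KLef

/-!
# External products of correspondences
-/

open CategoryTheory AlgebraicGeometry Finset TensorProduct

universe u v

namespace Pool.Agent.H914

open VarClass Obj WeilCohomology

variable {k : Type u} [Field k] {𝒱 : VarClass k} {ops : CycleOps 𝒱}
  {W : WeilCohomology.{u, v} ops} {X Y Z : 𝒱.Obj}

/-- The projection `(Y × Z) × (Y × Z) → Y × Y`. -/
noncomputable def q1 (Y Z : 𝒱.Obj) : (Y.prod Z).prod (Y.prod Z) ⟶ Y.prod Y :=
  Obj.lift (fst (Y.prod Z) (Y.prod Z) ≫ fst Y Z) (snd (Y.prod Z) (Y.prod Z) ≫ fst Y Z)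

/-- The projection `(Y × Z) × (Y × Z) → Z × Z`. -/
noncomputable def q2 (Y Z : 𝒱.Obj) : (Y.prod Z).prod (Y.prod Z) ⟶ Z.prod Z :=
  Obj.lift (fst (Y.prod Z) (Y.prod Z) ≫ snd Y Z) (snd (Y.prod Z) (Y.prod Z) ≫ snd Y Z)

lemma q1_tmul (a a' : W.H Y) :
    W.map (q1 Y Z) (W.map (fst Y Y) a * W.map (snd Y Y) a') =
      W.map (fst _ _) (W.map (fst Y Z) a) * W.map (snd _ _) (W.map (fst Y Z) a') := by
  have e1 : q1 Y Z ≫ fst Y Y = fst (Y.prod Z) (Y.prod Z) ≫ fst Y Z := Obj.lift_fst _ _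
  have e2 : q1 Y Z ≫ snd Y Y = snd (Y.prod Z) (Y.prod Z) ≫ fst Y Z := Obj.lift_snd _ _
  rw [map_mul (W.map (q1 Y Z)), ← W.map_comp, ← W.map_comp, e1, e2, W.map_comp, W.map_comp]

lemma q2_tmul (b b' : W.H Z) :
    W.map (q2 Y Z) (W.map (fst Z Z) b * W.map (snd Z Z) b') =
      W.map (fst _ _) (W.map (snd Y Z) b) * W.map (snd _ _) (W.map (snd Y Z) b') := by
  have e1 : q2 Y Z ≫ fst Z Z = fst (Y.prod Z) (Y.prod Z) ≫ snd Y Z := Obj.lift_fst _ _
  have e2 : q2 Y Z ≫ snd Z Z = snd (Y.prod Z) (Y.prod Z) ≫ snd Y Z := Obj.lift_snd _ _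
  rw [map_mul (W.map (q2 Y Z)), ← W.map_comp, ← W.map_comp, e1, e2, W.map_comp, W.map_comp]

lemma push_ext (A : W.H (Y.prod Y)) (B : W.H (Z.prod Z)) :
    W.push (snd (Y.prod Z) (Y.prod Z)) (W.map (q1 Y Z) A * W.map (q2 Y Z) B) =
      W.map (fst Y Z) (W.push (snd Y Y) A) * W.map (snd Y Z) (W.push (snd Z Z) B) := by
  refine W.kunneth_induction (p := fun A =>
    W.push (snd (Y.prod Z) (Y.prod Z)) (W.map (q1 Y Z) A * W.map (q2 Y Z) B) =
      W.map (fst Y Z) (W.push (snd Y Y) A) * W.map (snd Y Z) (W.push (snd Z Z) B)) ?_ ?_ A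
  · intro a b ha hb
    rw [map_add, add_mul, map_add, ha, hb, map_add, map_add, add_mul]
  intro i j a ha a' ha'
  refine W.kunneth_induction (p := fun B =>
    W.push (snd (Y.prod Z) (Y.prod Z)) (W.map (q1 Y Z) (W.map (fst Y Y) a * W.map (snd Y Y) a') *
      W.map (q2 Y Z) B) =
      W.map (fst Y Z) (W.push (snd Y Y) (W.map (fst Y Y) a * W.map (snd Y Y) a')) *
        W.map (snd Y Z) (W.push (snd Z Z) B)) ?_ ?_ B
  · intro a b ha hb
    rw [map_add, mul_add, map_add, ha, hb, map_add, map_add, mul_add]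
  intro l m b hb b' _
  rw [q1_tmul, q2_tmul]
  have hsw : W.map (snd _ _) (W.map (fst Y Z) a') * W.map (fst _ _) (W.map (snd Y Z) b) =
      (-1 : W.K) ^ (j * l) • (W.map (fst (Y.prod Z) (Y.prod Z)) (W.map (snd Y Z) b) *
        W.map (snd (Y.prod Z) (Y.prod Z)) (W.map (fst Y Z) a')) :=
    W.comm (W.map_mem _ (W.map_mem _ ha')) (W.map_mem _ (W.map_mem _ hb))
  have e1 : W.map (fst _ _) (W.map (fst Y Z) a) * W.map (snd _ _) (W.map (fst Y Z) a') *
      (W.map (fst (Y.prod Z) (Y.prod Z)) (W.map (snd Y Z) b) *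
        W.map (snd (Y.prod Z) (Y.prod Z)) (W.map (snd Y Z) b')) =
      (-1 : W.K) ^ (j * l) • (W.map (fst _ _) (W.map (fst Y Z) a * W.map (snd Y Z) b) *
        W.map (snd _ _) (W.map (fst Y Z) a' * W.map (snd Y Z) b')) := by
    rw [map_mul (W.map (fst (Y.prod Z) (Y.prod Z))), map_mul (W.map (snd (Y.prod Z) (Y.prod Z))),
      mul_assoc, ← mul_assoc (W.map (snd _ _) (W.map (fst Y Z) a')), hsw, smul_mul_assoc,
      mul_smul_comm, mul_assoc, mul_assoc]
  rw [e1, map_smul, push_snd, W.tr_prod, push_snd, push_snd, map_smul, map_smul, smul_mul_assoc,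
    mul_smul_comm, smul_smul, smul_smul]
  by_cases hl : l = 2 * Z.dim
  · have hs : (-1 : W.K) ^ (j * l) = 1 := by
      rw [hl, mul_left_comm, pow_mul]
      simp
    rw [hs, one_mul]
  · rw [W.tr_eq_zero hb hl]
    simp

/-- The external product of correspondences. -/
lemma corr_ext (c : W.H (Y.prod Y)) {p : ℕ} {d : W.H (Z.prod Z)} (hd : d ∈ W.gr _ (2 * p))
    (a : W.H Y) (b : W.H Z) :
    W.corr (W.map (q1 Y Z) c * W.map (q2 Y Z) d) (W.map (fst Y Z) a * W.map (snd Y Z) b) =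
      W.map (fst Y Z) (W.corr c a) * W.map (snd Y Z) (W.corr d b) := by
  rw [corr_apply, corr_apply, corr_apply, ← push_ext]
  congr 1
  have e1 : W.map (fst _ _) (W.map (fst Y Z) a) = W.map (q1 Y Z) (W.map (fst Y Y) a) := by
    have := q1_tmul (W := W) (Z := Z) a 1
    rw [map_one, map_one, map_one, mul_one, mul_one] at this
    exact this.symm
  have e2 : W.map (fst _ _) (W.map (snd Y Z) b) = W.map (q2 Y Z) (W.map (fst Z Z) b) := by
    have := q2_tmul (W := W) (Y := Y) b 1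
    rw [map_one, map_one, map_one, mul_one, mul_one] at this
    exact this.symm
  rw [map_mul (W.map (fst (Y.prod Z) (Y.prod Z))), e1, e2, map_mul (W.map (q1 Y Z)),
    map_mul (W.map (q2 Y Z)), mul_assoc, ← mul_assoc (W.map (q2 Y Z) d),
    W.even_comm (W.map_mem _ hd) (W.map (q1 Y Z) _)]
  simp only [mul_assoc]

/-- The Kunneth isomorphism. -/
noncomputable def kappa (W : WeilCohomology.{u, v} ops) (Y Z : 𝒱.Obj) :
    (W.H Y ⊗[W.K] W.H Z) ≃ₗ[W.K] W.H (Y.prod Z) :=
  LinearEquiv.ofBijective _ (W.kunneth Y Z)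

lemma kappa_tmul (a : W.H Y) (b : W.H Z) :
    kappa W Y Z (a ⊗ₜ b) = W.map (fst Y Z) a * W.map (snd Y Z) b := by
  simp [kappa, kunnethMap]

/-- The external product of operators. -/
noncomputable def extOp (W : WeilCohomology.{u, v} ops) {Y Z : 𝒱.Obj}
    (φ : Module.End W.K (W.H Y)) (ψ : Module.End W.K (W.H Z)) :
    Module.End W.K (W.H (Y.prod Z)) :=
  (kappa W Y Z).toLinearMap ∘ₗ TensorProduct.map φ ψ ∘ₗ (kappa W Y Z).symm.toLinearMap

lemma extOp_tmul (φ : Module.End W.K (W.H Y)) (ψ : Module.End W.K (W.H Z)) (a : W.H Y)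
    (b : W.H Z) : extOp W φ ψ (W.map (fst Y Z) a * W.map (snd Y Z) b) =
      W.map (fst Y Z) (φ a) * W.map (snd Y Z) (ψ b) := by
  rw [extOp, LinearMap.comp_apply, LinearMap.comp_apply, LinearEquiv.coe_coe, LinearEquiv.coe_coe,
    ← kappa_tmul, LinearEquiv.symm_apply_apply, TensorProduct.map_tmul, kappa_tmul]

/-- Operators on a product are determined by their values on external products. -/
lemma ext_kunneth {V : Type*} [AddCommGroup V] {F G : W.H (Y.prod Z) →+ V}
    (h : ∀ a b, F (W.map (fst Y Z) a * W.map (snd Y Z) b) =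
      G (W.map (fst Y Z) a * W.map (snd Y Z) b)) : F = G := by
  apply AddMonoidHom.ext
  intro c
  refine W.kunneth_induction (p := fun c => F c = G c) ?_ ?_ c
  · intro a b ha hb
    rw [map_add, map_add, ha, hb]
  · intro i j a _ b _
    exact h a b

lemma ext_kunneth_lin {V : Type*} [AddCommGroup V] [Module W.K V]
    {F G : W.H (Y.prod Z) →ₗ[W.K] V}
    (h : ∀ a b, F (W.map (fst Y Z) a * W.map (snd Y Z) b) =
      G (W.map (fst Y Z) a * W.map (snd Y Z) b)) : F = G := by
  apply LinearMap.ext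
  intro c
  exact congrArg (fun F : W.H (Y.prod Z) →+ V => F c)
    (ext_kunneth (F := F.toAddMonoidHom) (G := G.toAddMonoidHom) h)

lemma extOp_mul (φ φ' : Module.End W.K (W.H Y)) (ψ ψ' : Module.End W.K (W.H Z)) :
    extOp W φ ψ * extOp W φ' ψ' = extOp W (φ * φ') (ψ * ψ') := by
  apply ext_kunneth_lin
  intro a b
  rw [Module.End.mul_apply, extOp_tmul, extOp_tmul, extOp_tmul]
  rfl

lemma extOp_one : extOp W (1 : Module.End W.K (W.H Y)) (1 : Module.End W.K (W.H Z)) = 1 := by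
  apply ext_kunneth_lin
  intro a b
  rw [extOp_tmul]
  rfl

lemma extOp_add_left (φ φ' : Module.End W.K (W.H Y)) (ψ : Module.End W.K (W.H Z)) :
    extOp W (φ + φ') ψ = extOp W φ ψ + extOp W φ' ψ := by
  rw [extOp, TensorProduct.map_add_left, LinearMap.add_comp, LinearMap.comp_add]
  rfl

lemma extOp_add_right (φ : Module.End W.K (W.H Y)) (ψ ψ' : Module.End W.K (W.H Z)) :
    extOp W φ (ψ + ψ') = extOp W φ ψ + extOp W φ ψ' := by
  rw [extOp, TensorProduct.map_add_right, LinearMap.add_comp, LinearMap.comp_add]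
  rfl

lemma extOp_smul_left (c : W.K) (φ : Module.End W.K (W.H Y)) (ψ : Module.End W.K (W.H Z)) :
    extOp W (c • φ) ψ = c • extOp W φ ψ := by
  rw [extOp, TensorProduct.map_smul_left, LinearMap.smul_comp, LinearMap.comp_smul]
  rfl

lemma extOp_smul_right (c : W.K) (φ : Module.End W.K (W.H Y)) (ψ : Module.End W.K (W.H Z)) :
    extOp W φ (c • ψ) = c • extOp W φ ψ := by
  rw [extOp, TensorProduct.map_smul_right, LinearMap.smul_comp, LinearMap.comp_smul]
  rfl

lemma extOp_zero_left (ψ : Module.End W.K (W.H Z)) :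
    extOp W (0 : Module.End W.K (W.H Y)) ψ = 0 := by
  have := extOp_smul_left (W := W) (0 : W.K) (0 : Module.End W.K (W.H Y)) ψ
  simpa using this

lemma extOp_zero_right (φ : Module.End W.K (W.H Y)) :
    extOp W φ (0 : Module.End W.K (W.H Z)) = 0 := by
  have := extOp_smul_right (W := W) (0 : W.K) φ (0 : Module.End W.K (W.H Z))
  simpa using this

lemma extOp_sum {ι : Type*} (s : Finset ι) (φ : ι → Module.End W.K (W.H Y))
    (ψ : Module.End W.K (W.H Z)) : extOp W (∑ i ∈ s, φ i) ψ = ∑ i ∈ s, extOp W (φ i) ψ := by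
  classical
  induction s using Finset.induction_on with
  | empty => simp [extOp_zero_left]
  | insert a s ha ih => rw [Finset.sum_insert ha, Finset.sum_insert ha, extOp_add_left, ih]

lemma extOp_sum' {ι : Type*} (s : Finset ι) (φ : Module.End W.K (W.H Y))
    (ψ : ι → Module.End W.K (W.H Z)) : extOp W φ (∑ i ∈ s, ψ i) = ∑ i ∈ s, extOp W φ (ψ i) := by
  classical
  induction s using Finset.induction_on with
  | empty => simp [extOp_zero_right]
  | insert a s ha ih => rw [Finset.sum_insert ha, Finset.sum_insert ha, extOp_add_right, ih]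

/-- External products of algebraic operators are algebraic. -/
lemma KOp.ext {d e : ℤ} {φ : Module.End W.K (W.H Y)} {ψ : Module.End W.K (W.H Z)}
    (hφ : φ ∈ KOp W Y Y d) (hψ : ψ ∈ KOp W Z Z e) :
    extOp W φ ψ ∈ KOp W (Y.prod Z) (Y.prod Z) (d + e) := by
  induction hφ using Submodule.span_induction with
  | mem x hx =>
    obtain ⟨p, hp, z, hz, rfl⟩ := hx
    induction hψ using Submodule.span_induction with
    | mem x hx =>
      obtain ⟨p', hp', w, hw, rfl⟩ := hx
      have hcyc := ops.mul_mem (ops.pull_mem (q1 Y Z) hz) (ops.pull_mem (q2 Y Z) hw)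
      have e1 : extOp W (W.corr (W.cl _ z)) (W.corr (W.cl _ w)) =
          W.corr (W.cl _ (ops.mul (ops.pull (q1 Y Z) z) (ops.pull (q2 Y Z) w))) := by
        apply ext_kunneth_lin
        intro a b
        rw [extOp_tmul, W.cl_mul, W.cl_pull, W.cl_pull, corr_ext _ (W.cl_mem hw)]
      rw [e1]
      exact KOp.gen (by rw [dim_prod]; push_cast; omega) hcyc
    | zero => rw [extOp_zero_right]; exact Submodule.zero_mem _
    | add x y _ _ hx hy => rw [extOp_add_right]; exact Submodule.add_mem _ hx hy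
    | smul a x _ hx => rw [extOp_smul_right]; exact Submodule.smul_mem _ _ hx
  | zero => rw [extOp_zero_left]; exact Submodule.zero_mem _
  | add x y _ _ hx hy => rw [extOp_add_left]; exact Submodule.add_mem _ hx hy
  | smul a x _ hx => rw [extOp_smul_left]; exact Submodule.smul_mem _ _ hx

/-- All operators on a product are sums of external products. -/
lemma extOp_induction {p : Module.End W.K (W.H (Y.prod Z)) → Prop} (h0 : p 0)
    (hadd : ∀ A B, p A → p B → p (A + B)) (h : ∀ φ ψ, p (extOp W φ ψ))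
    (A : Module.End W.K (W.H (Y.prod Z))) : p A := by
  set A' : W.H Y ⊗[W.K] W.H Z →ₗ[W.K] W.H Y ⊗[W.K] W.H Z :=
    (kappa W Y Z).symm.toLinearMap ∘ₗ A ∘ₗ (kappa W Y Z).toLinearMap with hA'
  obtain ⟨t, ht⟩ := (homTensorHomEquiv W.K (W.H Y) (W.H Z) (W.H Y) (W.H Z)).surjective A'
  have hA : A = (kappa W Y Z).toLinearMap ∘ₗ A' ∘ₗ (kappa W Y Z).symm.toLinearMap := by
    apply LinearMap.ext
    intro x
    simp [hA']
  rw [hA, ← ht]
  clear ht hA
  clear_value A'
  induction t using TensorProduct.induction_on with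
  | zero => simpa using h0
  | add x y hx hy =>
    rw [map_add, LinearMap.add_comp, LinearMap.comp_add]
    exact hadd _ _ hx hy
  | tmul φ ψ =>
    have := h φ ψ
    rw [extOp] at this
    have e1 : homTensorHomEquiv W.K (W.H Y) (W.H Z) (W.H Y) (W.H Z) (φ ⊗ₜ ψ) =
        TensorProduct.map φ ψ := by
      rw [homTensorHomEquiv_apply]
      rfl
    rw [e1]
    exact this

end Pool.Agent.H914
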