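import Pool.Agent.H914R2.GBasic

/-!
# Endomorphisms acting like a Frobenius
-/

open CategoryTheory AlgebraicGeometry Finset Polynomial

universe u v

namespace Pool.Agent.H914

open VarClass Obj WeilCohomology

variable {k : Type u} [Field k] {𝒱 : VarClass k} {ops : CycleOps 𝒱}
  {W : WeilCohomology.{u, v} ops} {X Y Z : 𝒱.Obj}

/-- The iterates of an endomorphism. -/
noncomputable def iter {X : 𝒱.Obj} (f : X ⟶ X) : ℕ → (X ⟶ X)
  | 0 => 𝟙 X
  | m + 1 => iter f m ≫ f

lemma map_iter (f : X ⟶ X) (m : ℕ) (a : W.H X) :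
    W.map (iter f m) a = ((W.map f).toLinearMap ^ m) a := by
  induction m generalizing a with
  | zero => exact W.map_id X a
  | succ m ih =>
    rw [iter, W.map_comp, ih, pow_succ, Module.End.mul_apply]
    rfl

lemma map_squareMap (f : X ⟶ X) (a b : W.H X) :
    W.map (squareMap f) (W.map (fst X X) a * W.map (snd X X) b) =
      W.map (fst X X) (W.map f a) * W.map (snd X X) (W.map f b) := by
  have e1 : squareMap f ≫ fst X X = fst X X ≫ f := Obj.lift_fst _ _
  have e2 : squareMap f ≫ snd X X = snd X X ≫ f := Obj.lift_snd _ _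
  rw [map_mul, ← W.map_comp, ← W.map_comp, e1, e2, W.map_comp, W.map_comp]

lemma map_squareMap_pow (f : X ⟶ X) (m : ℕ) (c : W.H (X.prod X)) :
    ((W.map (squareMap f)).toLinearMap ^ m) c = W.map (squareMap (iter f m)) c := by
  induction m generalizing c with
  | zero =>
    refine W.kunneth_induction (p := fun c => ((W.map (squareMap f)).toLinearMap ^ 0) c =
      W.map (squareMap (iter f 0)) c) ?_ ?_ c
    · intro a b ha hb
      rw [map_add, map_add, ha, hb]
    · intro i j a _ b _
      rw [map_squareMap]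
      change _ = W.map (fst X X) (W.map (𝟙 X) a) * W.map (snd X X) (W.map (𝟙 X) b)
      rw [W.map_id, W.map_id, pow_zero, Module.End.one_apply]
  | succ m ih =>
    rw [pow_succ, Module.End.mul_apply, ih]
    refine W.kunneth_induction (p := fun c => W.map (squareMap (iter f m))
      ((W.map (squareMap f)).toLinearMap c) = W.map (squareMap (iter f (m + 1))) c) ?_ ?_ c
    · intro a b ha hb
      rw [map_add, map_add, map_add, ha, hb]
    · intro i j a _ b _
      change W.map (squareMap (iter f m)) (W.map (squareMap f) _) = _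
      rw [map_squareMap, map_squareMap, map_squareMap, iter, W.map_comp (iter f m) f a,
        W.map_comp (iter f m) f b]

/-- The class of the iterated pull-back. -/
lemma cl_pull_iter (g : X ⟶ X) (m : ℕ) (z : X.Cycles) :
    W.cl X ((ops.pull g)^[m] z) = ((W.map g).toLinearMap ^ m) (W.cl X z) := by
  induction m with
  | zero => rfl
  | succ m ih =>
    rw [Function.iterate_succ_apply', W.cl_pull, ih, pow_succ', Module.End.mul_apply]
    rfl

/-- Pull-back along the first projection is injective. -/
lemma map_fst_inj {a : W.H X} (h : W.map (fst X Y) a = 0) (hb : ∃ b : W.H Y, W.tr Y b ≠ 0) :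
    a = 0 := by
  obtain ⟨b, hb⟩ := hb
  apply W.nondeg
  intro c
  have h1 := W.tr_prod (X := X) (Y := Y) (a * c) b
  rw [map_mul (W.map (fst X Y)), h, zero_mul, zero_mul, map_zero] at h1
  rcases mul_eq_zero.1 h1.symm with h2 | h2
  · exact h2
  · exact absurd h2 hb

/-- Algebraic classes on `X` from algebraic classes on `X × X`. -/
lemma map_eq_of_fst {φ : X ⟶ X} {c : W.H X} {t : W.K}
    (h : W.map (squareMap φ) (W.map (fst X X) c) = t • W.map (fst X X) c)
    (hb : ∃ b : W.H X, W.tr X b ≠ 0) : W.map φ c = t • c := by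
  have h1 := map_squareMap (W := W) φ c 1
  rw [map_one, map_one, map_one, mul_one, mul_one, h, ← map_smul] at h1
  rw [← sub_eq_zero] at h1 ⊢
  rw [← map_sub] at h1
  have h2 := map_fst_inj h1 hb
  rw [← neg_eq_zero]
  rw [neg_sub]
  exact h2

section Degree

variable {φ : X ⟶ X} {δ : W.K} (hδ : ∀ a, W.tr X (W.map φ a) = δ * W.tr X a)

include hδ

lemma push_snd_squareMap (y : W.H (X.prod X)) :
    W.push (snd X X) (W.map (squareMap φ) y) = δ • W.map φ (W.push (snd X X) y) := by
  refine W.kunneth_induction (p := fun y => W.push (snd X X) (W.map (squareMap φ) y) =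
    δ • W.map φ (W.push (snd X X) y)) ?_ ?_ y
  · intro a b ha hb
    rw [map_add, map_add, ha, hb, map_add, map_add, smul_add]
  · intro i j a _ b _
    rw [map_squareMap, push_snd, push_snd, hδ, map_smul, smul_smul]

/-- The commutation relation between a correspondence and the endomorphism. -/
lemma corr_squareMap (x : W.H (X.prod X)) (a : W.H X) :
    W.corr (W.map (squareMap φ) x) (W.map φ a) = δ • W.map φ (W.corr x a) := by
  have e1 : squareMap φ ≫ fst X X = fst X X ≫ φ := Obj.lift_fst _ _
  rw [corr_apply, ← W.map_comp, ← e1, W.map_comp, ← map_mul (W.map (squareMap φ)),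
    push_snd_squareMap hδ, corr_apply]

/-- Push-forward after pull-back. -/
lemma push_map (a : W.H X) : W.push φ (W.map φ a) = δ • a := by
  have h1 := W.push_mul φ 1 a
  rw [one_mul] at h1
  have h2 : W.push φ (1 : W.H X) = δ • (1 : W.H X) := by
    apply W.tr_ext
    intro c
    rw [W.tr_push, one_mul, hδ, smul_mul_assoc, map_smul, one_mul, smul_eq_mul]
  rw [h1, h2, smul_mul_assoc, one_mul]

end Degree

/-- The adjoint of the pull-back. -/
lemma tr_map_adj (φ : X ⟶ X) (a b : W.H X) :
    W.tr X (W.map φ a * b) = W.tr X (a * W.push φ b) := by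
  refine gr_induction (W.isInternal X) (p := fun a =>
    W.tr X (W.map φ a * b) = W.tr X (a * W.push φ b)) ?_ ?_ a
  swap
  · intro a a' ha ha'
    rw [map_add, add_mul, add_mul, map_add, map_add, ha, ha']
  intro i a ha
  refine gr_induction (W.isInternal X) (p := fun b =>
    W.tr X (W.map φ a * b) = W.tr X (a * W.push φ b)) ?_ ?_ b
  swap
  · intro b b' hb hb'
    rw [map_add, mul_add, mul_add, map_add, map_add, hb, hb']
  intro j b hb
  have h1 := W.push_mem φ hb
  rw [sub_self, mul_zero, add_zero, grZ_natCast] at h1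
  rw [W.comm (W.map_mem φ ha) hb, W.comm ha h1, map_smul, map_smul, W.tr_push]

/-- Pull-back along an endomorphism is algebraic. -/
lemma rop_map (φ : X ⟶ X) : ROp W X 0 (W.map φ).toLinearMap := by
  refine ⟨fun W => (W.map φ).toLinearMap, Or.inl ⟨X.dim, by simp,
    ops.push (Obj.lift φ (𝟙 X)) X.V.fundCycle, ops.push_mem _ X.V.fundCycle_mem ?_,
    fun W => ?_⟩, rfl⟩
  · rw [dim_prod]; omega
  · apply LinearMap.ext
    intro a
    have e1 : Obj.lift φ (𝟙 X) ≫ snd X X = 𝟙 X := Obj.lift_snd _ _
    have e2 : Obj.lift φ (𝟙 X) ≫ fst X X = φ := Obj.lift_fst _ _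
    rw [W.cl_push, W.cl_fund, corr_apply, ← W.push_mul, ← W.push_comp, ← W.map_comp, e1, e2,
      W.push_id, one_mul]
    rfl

/-- The orientation is injective in the top degree. -/
lemma eq_zero_of_top {a : W.H X} (ha : a ∈ W.gr X (2 * X.dim)) (h : W.tr X a = 0) : a = 0 := by
  apply W.nondeg
  intro b
  refine gr_induction (W.isInternal X) (p := fun b => W.tr X (a * b) = 0) ?_ ?_ b
  · intro i b hb
    by_cases hi : i = 0
    · subst hi
      rw [W.gr_zero, Submodule.mem_span_singleton] at hb
      obtain ⟨c, rfl⟩ := hb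
      rw [mul_smul_comm, mul_one, map_smul, h, smul_zero]
    · exact W.tr_eq_zero (W.mul_mem ha hb) (by omega)
  · intro b b' hb hb'
    rw [mul_add, map_add, hb, hb', add_zero]

/-- There is an algebraic class of top degree with nonzero orientation. -/
lemma exists_top {D : X.Cycles} (hD : X.IsCyc 1 D) (hHL : HardLefschetz W X D)
    (h1 : (1 : W.H X) ≠ 0) :
    ∃ b : W.H X, b ∈ algClasses W X X.dim ∧ W.tr X b ≠ 0 := by
  refine ⟨W.cl X (divPow ops D X.dim X.V.fundCycle), ⟨_, ?_, rfl⟩, ?_⟩
  · have := divPow_mem (ops := ops) hD X.dim X.V.fundCycle_mem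
    rwa [zero_add] at this
  · intro h0
    have hmem : W.cl X (divPow ops D X.dim X.V.fundCycle) ∈ W.gr X (2 * X.dim) := by
      apply W.cl_mem
      have := divPow_mem (ops := ops) hD X.dim X.V.fundCycle_mem
      rwa [zero_add] at this
    have h2 := eq_zero_of_top hmem h0
    rw [cl_divPow, W.cl_fund] at h2
    apply h1
    exact (hHL 0 (Nat.zero_le _)).1 1 (W.one_mem X) (by rw [Nat.sub_zero]; exact h2)

/-- The degree of an endomorphism acting like a Frobenius. -/
lemma tr_map_of_top {φ : X ⟶ X} {b : W.H X} (hb : b ∈ W.gr X (2 * X.dim)) (hb0 : W.tr X b ≠ 0)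
    {δ : W.K} (h : W.map φ b = δ • b) (a : W.H X) : W.tr X (W.map φ a) = δ * W.tr X a := by
  refine gr_induction (W.isInternal X)
    (p := fun a => W.tr X (W.map φ a) = δ * W.tr X a) ?_ ?_ a
  · intro i a ha
    by_cases hi : i = 2 * X.dim
    · subst hi
      have h1 : a = (W.tr X a * (W.tr X b)⁻¹) • b := by
        rw [← sub_eq_zero]
        apply eq_zero_of_top
        · exact Submodule.sub_mem _ ha (Submodule.smul_mem _ _ hb)
        · rw [map_sub, map_smul, smul_eq_mul, mul_assoc, inv_mul_cancel₀ hb0, mul_one, sub_self]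
      have h2 : W.map φ a = δ • a := by
        rw [h1, map_smul, h, smul_comm]
      rw [h2, map_smul, smul_eq_mul]
    · rw [W.tr_eq_zero ha hi, W.tr_eq_zero (W.map_mem φ ha) hi, mul_zero]
  · intro a a' ha ha'
    rw [map_add, map_add, map_add, ha, ha', mul_add]

/-- Multiples of an exponent. -/
lemma pow_mul_smul {K : Type*} [Field K] {V : Type*} [AddCommGroup V] [Module K V]
    {A : Module.End K V} {q : K} {m j : ℕ} {c : V} (h : (A ^ m) c = q ^ (m * j) • c) (e : ℕ) :
    (A ^ (m * e)) c = q ^ (m * e * j) • c := by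
  induction e with
  | zero => simp
  | succ e ih =>
    rw [mul_add, mul_one, pow_add, Module.End.mul_apply, h, map_smul, ih, smul_smul, ← pow_add]
    congr 2
    ring

end Pool.Agent.H914
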