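import Mathlib

/-!
# Lattice walks: definitions
-/

open Finset

namespace Pool.Agent.H914

/-- The end point of the lattice walk described by the word (steps `true` upwards, `false`
downwards) starting at `j`, if the walk stays in `{0, …, m}`. -/
def walk (m : ℕ) : List Bool → ℕ → Option ℕ
  | [], j => some j
  | true :: w, j => if j < m then walk m w (j + 1) else none
  | false :: w, j => if 0 < j then walk m w (j - 1) else none

/-- The number of starting points in `{0, …, m}` from which the walk stays in `{0, …, m}` and is
closed. -/
def walkCount (m : ℕ) (w : List Bool) : ℕ :=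
  ((range (m + 1)).filter (fun j => walk m w j = some j)).card

/-- The expected super trace of a word for a Lefschetz pair with Betti numbers `b`. -/
def expectedTrace (n : ℕ) (b : ℕ → ℕ) (w : List Bool) : ℤ :=
  ∑ i ∈ range (n + 1), (-1) ^ i * ((b i : ℤ) - (if 2 ≤ i then (b (i - 2) : ℤ) else 0)) *
    walkCount (n - i) w

end Pool.Agent.H914
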