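import Pool.Agent.H914R2.IBase

/-!
# Coordinates on products
-/

open CategoryTheory AlgebraicGeometry Finset TensorProduct Polynomial

universe u v w

namespace Pool.Agent.H914

open VarClass Obj WeilCohomology

variable {k : Type u} [Field k] {𝒱 : VarClass k} {ops : CycleOps 𝒱}
  {W : WeilCohomology.{u, v} ops} {X Y Z : 𝒱.Obj} {ι : Type w} {P : ι → EndVar 𝒱} {q : ℕ}

/-- The operators given by algebraic correspondences with rational coefficients. -/
def IsCorr (W : WeilCohomology.{u, v} ops) (X : 𝒱.Obj) (A : Module.End W.K (W.H X)) : Prop :=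
  ∃ (p : ℕ) (z : (X.prod X).Cycles), (X.prod X).IsCyc p z ∧ W.corr (W.cl _ z) = A

lemma IsCorr.cycMap {A : Module.End W.K (W.H X)} (h : IsCorr W X A) : CycMap W X X A := by
  obtain ⟨p, z, hz, rfl⟩ := h
  intro j w hw
  have hc := ops.mul_mem hz (ops.pull_mem (fst X X) hw)
  have e1 : W.corr (W.cl _ z) (W.cl X w) =
      W.push (snd X X) (W.cl _ (ops.mul z (ops.pull (fst X X) w))) := by
    rw [corr_apply, W.cl_mul, W.cl_pull]
  by_cases hd : X.dim ≤ p + j
  · exact ⟨p + j - X.dim, _, ops.push_mem (snd X X) hc (by rw [dim_prod]; omega),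
      e1.trans (W.cl_push _ _).symm⟩
  · refine ⟨0, 0, SmVar.IsCyc.zero _ _, ?_⟩
    have h1 := W.push_mem (snd X X) (W.cl_mem hc)
    rw [grZ_of_neg (by rw [dim_prod]; push_cast; omega)] at h1
    rw [e1, (Submodule.mem_bot _).1 h1, map_zero]

lemma IsCorr.ext {A : Module.End W.K (W.H Y)} {B : Module.End W.K (W.H Z)}
    (hA : IsCorr W Y A) (hB : IsCorr W Z B) : IsCorr W (Y.prod Z) (extOp W A B) := by
  obtain ⟨p, z, hz, rfl⟩ := hA
  obtain ⟨p', w, hw, rfl⟩ := hB
  refine ⟨p + p', _, ops.mul_mem (ops.pull_mem (q1 Y Z) hz) (ops.pull_mem (q2 Y Z) hw), ?_⟩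
  apply ext_kunneth_lin
  intro a b
  rw [extOp_tmul, W.cl_mul, W.cl_pull, W.cl_pull, corr_ext _ (W.cl_mem hw)]

lemma IsCorr.one : IsCorr W X 1 := by
  obtain ⟨q, hq, z, hz, hY⟩ | ⟨hd, _⟩ := Realized.one (ops := ops) (X := X)
  · have : (LinearMap.id : W.H X →ₗ[W.K] W.H X) = W.corr (W.cl _ z) := hY W
    exact ⟨q, z, hz, this.symm⟩
  · omega

lemma IsCorr.pull (g : X ⟶ X) : IsCorr W X (W.map g).toLinearMap := by
  refine ⟨X.dim, ops.push (Obj.lift g (𝟙 X)) X.V.fundCycle,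
    ops.push_mem _ (SmVar.fundCycle_mem _) (by rw [dim_prod]; omega), ?_⟩
  apply LinearMap.ext
  intro a
  have e1 : Obj.lift g (𝟙 X) ≫ snd X X = 𝟙 X := Obj.lift_snd _ _
  have e2 : Obj.lift g (𝟙 X) ≫ fst X X = g := Obj.lift_fst _ _
  rw [W.cl_push, W.cl_fund, corr_apply, ← W.push_mul, ← W.push_comp, ← W.map_comp, e1, e2,
    W.push_id, one_mul]
  rfl

/-- The operator `a ↦ tr(v a)`. -/
noncomputable def nu (W : WeilCohomology.{u, v} ops) (X : 𝒱.Obj) (v : W.H X) :
    Module.End W.K (W.H X) :=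
  (W.tr X ∘ₗ LinearMap.mulLeft W.K v).smulRight (1 : W.H X)

lemma nu_apply (v a : W.H X) : nu W X v a = W.tr X (v * a) • (1 : W.H X) := rfl

lemma IsCorr.nu {l : ℕ} {v : W.H X} (hv : v ∈ algClasses W X l) : IsCorr W X (nu W X v) := by
  obtain ⟨z, hz, rfl⟩ := hv
  refine ⟨l, ops.pull (fst X X) z, ops.pull_mem _ hz, ?_⟩
  apply LinearMap.ext
  intro a
  rw [corr_apply, W.cl_pull, ← map_mul, push_snd']
  rfl

/-- A coordinate on `Q`: an embedding of the operators on a member of the family in the operators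
on `Q` which preserves the algebraic correspondences. -/
structure Cd (W : WeilCohomology.{u, v} ops) (P : ι → EndVar 𝒱) (Q : 𝒱.Obj) where
  /-- the index -/
  j : ι
  /-- the embedding -/
  ε : Module.End W.K (W.H (P j).X) →+* Module.End W.K (W.H Q)
  smul : ∀ (c : W.K) A, ε (c • A) = c • ε A
  corr : ∀ A, IsCorr W _ A → IsCorr W _ (ε A)

/-- The coordinate on a member. -/
noncomputable def Cd.self (W : WeilCohomology.{u, v} ops) (P : ι → EndVar 𝒱) (j : ι) :
    Cd W P (P j).X :=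
  ⟨j, RingHom.id _, fun _ _ => rfl, fun _ h => h⟩

/-- The first coordinate on a product. -/
noncomputable def Cd.left (W : WeilCohomology.{u, v} ops) (P : ι → EndVar 𝒱) (j : ι)
    (Q : 𝒱.Obj) : Cd W P ((P j).X.prod Q) :=
  ⟨j, extL W _ _, fun c A => extOp_smul_left c A 1, fun _ h => h.ext IsCorr.one⟩

/-- The other coordinates on a product. -/
noncomputable def Cd.right {Q : 𝒱.Obj} (Y : 𝒱.Obj) (c : Cd W P Q) : Cd W P (Y.prod Q) :=
  ⟨c.j, (extR W Y Q).comp c.ε, fun a A => by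
    rw [RingHom.comp_apply, RingHom.comp_apply, c.smul]
    exact extOp_smul_right a 1 (c.ε A), fun A h => IsCorr.one.ext (c.corr A h)⟩

lemma Cd.aeval {Q : 𝒱.Obj} (c : Cd W P Q) (F : Module.End W.K (W.H (P c.j).X)) (p : W.K[X]) :
    c.ε (Polynomial.aeval F p) = Polynomial.aeval (c.ε F) p := by
  induction p using Polynomial.induction_on' with
  | add p q hp hq => rw [map_add, map_add, hp, hq, map_add]
  | monomial n a =>
    rw [← Polynomial.smul_X_eq_monomial, map_smul (Polynomial.aeval F),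
      map_smul (Polynomial.aeval (c.ε F)), c.smul, map_pow, map_pow, aeval_X, map_pow, aeval_X]

/-- A block on which all operators are algebraic. -/
structure OBlk (W : WeilCohomology.{u, v} ops) (P : ι → EndVar 𝒱) (Q : 𝒱.Obj)
    (e : Module.End W.K (W.H Q)) (lab : List (ι × ℕ × W.K)) : Prop where
  alg : ∀ A : Module.End W.K (W.H Q), e * A * e ∈ KOp W Q Q 0
  rep : ∀ (Z : 𝒱.Obj) (c : List (Crd W P Z)), c.map Crd.x = lab →
    ∃ (d : ℤ) (Φ : W.H Q →ₗ[W.K] W.H Z), Φ ∈ KOp W Q Z d ∧ ∃ x, Φ (e x) = pe c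

lemma OBlk.prod {e : Module.End W.K (W.H Y)} {e' : Module.End W.K (W.H Z)}
    {lab lab' : List (ι × ℕ × W.K)} (hB : OBlk W P Y e lab) (hB' : OBlk W P Z e' lab') :
    OBlk W P (Y.prod Z) (extOp W e e') (lab ++ lab') := by
  refine ⟨?_, ?_⟩
  · intro A
    refine extOp_induction (p := fun A => extOp W e e' * A *
      extOp W e e' ∈ KOp W (Y.prod Z) (Y.prod Z) 0) ?_ ?_ ?_ A
    · rw [mul_zero, zero_mul]; exact Submodule.zero_mem _
    · intro A B hA hB
      rw [mul_add, add_mul]; exact Submodule.add_mem _ hA hB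
    · intro φ ψ
      rw [extOp_mul, extOp_mul]
      exact KOp.cast (KOp.ext (hB.alg φ) (hB'.alg ψ)) (add_zero 0)
  · intro T c hc
    obtain ⟨c₁, c₂, rfl, h1, h2⟩ := List.map_eq_append_iff.1 hc
    obtain ⟨d, Φ, hΦ, x, hx⟩ := hB.rep T c₁ h1
    obtain ⟨d', Φ', hΦ', x', hx'⟩ := hB'.rep T c₂ h2
    obtain ⟨Ψ, hΨ, hΨ'⟩ := KOp.mulExt hΦ hΦ'
    refine ⟨_, Ψ, hΨ, W.map (fst Y Z) x * W.map (snd Y Z) x', ?_⟩
    rw [extOp_tmul, hΨ', hx, hx', pe_append]

/-- A block which contains a nonzero algebraic class has algebraic labels. -/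
lemma OBlk.algM {Q : 𝒱.Obj} {e : Module.End W.K (W.H Q)} {lab : List (ι × ℕ × W.K)}
    (h : OBlk W P Q e lab) {x : W.H Q} (hx : x ∈ algS W Q) (hx0 : e x ≠ 0) :
    AlgM W P (lab : Multiset (ι × ℕ × W.K)) := by
  have hblk : ∀ y, e y ∈ algS W Q := by
    intro y
    obtain ⟨A, hA⟩ := exists_end (K := W.K) hx0 y
    have h1 := KOp.map_algS (h.alg A) hx
    rwa [Module.End.mul_apply, Module.End.mul_apply, hA] at h1
  apply AlgM.of_list
  intro Z c hc
  obtain ⟨d, Φ, hΦ, y, hy⟩ := h.rep Z c hc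
  rw [← hy]
  exact KOp.map_algS hΦ (hblk y)

/-- The external product of nonzero classes is not zero. -/
lemma tmul_ne_zero' {a : W.H Y} {b : W.H Z} (ha : a ≠ 0) (hb : b ≠ 0) :
    W.map (fst Y Z) a * W.map (snd Y Z) b ≠ 0 := by
  intro h0
  rw [← kappa_tmul] at h0
  have h1 : a ⊗ₜ[W.K] b = 0 := (kappa W Y Z).injective (h0.trans (map_zero _).symm)
  obtain ⟨f, hf⟩ := Module.Projective.exists_dual_eq_one W.K ha
  obtain ⟨g, hg⟩ := Module.Projective.exists_dual_eq_one W.K hb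
  have h2 := congrArg (fun t => TensorProduct.lid W.K W.K (TensorProduct.map f g t)) h1
  beta_reduce at h2
  rw [TensorProduct.map_tmul, hf, hg, map_zero, map_zero, TensorProduct.lid_tmul, one_smul] at h2
  exact one_ne_zero h2

variable [DecidableEq W.K] {π : ∀ j, ℕ → Module.End W.K (W.H (P j).X)} {S : ι → Finset W.K}

/-- The blocks of the members. -/
lemma EProps1.oBlk (h : EProps1 W P q π S) {j : ι} {i : ℕ} {α : W.K} (hα : α ∈ S j) :
    OBlk W P (P j).X (eb W P π S j i α) [(j, i, α)] := by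
  refine ⟨?_, ?_⟩
  · intro A
    exact KOp.cast (h.eb_homs hα hα rfl rfl A (i := i) (i' := i)) (sub_self _)
  · intro Z c hc
    obtain ⟨d, rfl, hd⟩ := List.map_eq_singleton_iff.1 hc
    obtain ⟨dx, dg, dy, hdy⟩ := d
    change dx = (j, i, α) at hd
    subst hd
    have hdy' : dy ∈ blkC W P j i α := hdy
    refine ⟨0, (W.map dg).toLinearMap, KOp.pullback dg, dy, ?_⟩
    rw [h.eb_fix hdy' hα hα, if_pos rfl, pe_cons, pe_nil, mul_one]
    rfl

/-- A system of coordinates for a list of labels. -/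
def Sys (W : WeilCohomology.{u, v} ops) [DecidableEq W.K] (P : ι → EndVar 𝒱)
    (π : ∀ j, ℕ → Module.End W.K (W.H (P j).X)) (S : ι → Finset W.K) (g : W.K → W.K)
    (l : List (ι × ℕ × W.K)) (Q : 𝒱.Obj) : Prop :=
  ∃ m : List (Cd W P Q × ℕ × W.K),
    m.map (fun t => (t.1.j, t.2.1, t.2.2)) = l ∧
    ((∀ t ∈ m, g t.2.2 ∈ S t.1.j) → OBlk W P Q
      (m.map (fun t => t.1.ε (eb W P π S t.1.j t.2.1 (g t.2.2)))).prod
      (m.map (fun t => (t.1.j, t.2.1, g t.2.2)))) ∧
    ∃ c : List (Crd W P Q), c.map Crd.x = l ∧ pe c ≠ 0 ∧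
      ∀ t ∈ m, t.1.ε (eb W P π S t.1.j t.2.1 t.2.2) (pe c) = pe c

lemma EProps1.sys_base (h : EProps1 W P q π S) (g : W.K → W.K) {j : ι} {i : ℕ} {α : W.K}
    (hnz : blkS W P (j, i, α) ≠ ⊥) : Sys W P π S g [(j, i, α)] (P j).X := by
  obtain ⟨y, hy, hy0⟩ := (Submodule.ne_bot_iff _).1 hnz
  have hy1 : y ∈ blkC W P j i α := hy
  have hα : α ∈ S j := h.mem_S hy1 hy0
  let d : Crd W P (P j).X := ⟨(j, i, α), 𝟙 _, y, hy⟩
  have hd : d.ev = y := W.map_id _ y
  refine ⟨[(Cd.self W P j, i, α)], rfl, ?_, [d], rfl, ?_, ?_⟩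
  · intro hg
    have h1 := hg _ List.mem_cons_self
    have h2 := h.oBlk (i := i) h1
    have e1 : ([(Cd.self W P j, i, α)].map
        (fun t => t.1.ε (eb W P π S t.1.j t.2.1 (g t.2.2)))).prod =
        eb W P π S j i (g α) := by
      rw [List.map_cons, List.map_nil, List.prod_singleton]
      rfl
    rw [e1]
    exact h2
  · rw [pe_cons, pe_nil, mul_one, hd]
    exact hy0
  · intro t ht
    rw [List.mem_singleton] at ht
    subst ht
    rw [pe_cons, pe_nil, mul_one, hd]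
    exact (h.eb_fix hy1 hα hα).trans (if_pos rfl)

lemma EProps1.sys_step (h : EProps1 W P q π S) (g : W.K → W.K) {j : ι} {i : ℕ} {α : W.K}
    {l : List (ι × ℕ × W.K)} {Q : 𝒱.Obj}
    (hnz : blkS W P (j, i, α) ≠ ⊥) (hQ : Sys W P π S g l Q) :
    Sys W P π S g ((j, i, α) :: l) ((P j).X.prod Q) := by
  obtain ⟨y, hy, hy0⟩ := (Submodule.ne_bot_iff _).1 hnz
  have hy1 : y ∈ blkC W P j i α := hy
  have hα : α ∈ S j := h.mem_S hy1 hy0
  obtain ⟨m, hm, hO, c, hc, hc0, hfix⟩ := hQ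
  let d : Crd W P ((P j).X.prod Q) := ⟨(j, i, α), fst (P j).X Q, y, hy⟩
  have hd : d.ev = W.map (fst (P j).X Q) y := rfl
  have hpe : pe (d :: c.map (Crd.comp (snd (P j).X Q))) =
      W.map (fst (P j).X Q) y * W.map (snd (P j).X Q) (pe c) := by
    rw [pe_cons, pe_comp, hd]
  refine ⟨(Cd.left W P j Q, i, α) :: m.map (fun t => (t.1.right (P j).X, t.2.1, t.2.2)),
    ?_, ?_, d :: c.map (Crd.comp (snd (P j).X Q)), ?_, ?_, ?_⟩
  · rw [List.map_cons, List.map_map, ← hm]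
    rfl
  · intro hg
    have h1 : g α ∈ S j := hg _ List.mem_cons_self
    have h2 := (h.oBlk (i := i) h1).prod (hO (fun t ht => hg
      (t.1.right (P j).X, t.2.1, t.2.2)
      (List.mem_cons_of_mem _ (List.mem_map.2 ⟨t, ht, rfl⟩))))
    have e1 : (((Cd.left W P j Q, i, α) ::
        m.map (fun t => (t.1.right (P j).X, t.2.1, t.2.2))).map
        (fun t => t.1.ε (eb W P π S t.1.j t.2.1 (g t.2.2)))).prod =
        extOp W (eb W P π S j i (g α))
          (m.map (fun t => t.1.ε (eb W P π S t.1.j t.2.1 (g t.2.2)))).prod := by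
      rw [List.map_cons, List.prod_cons, ← extLR, map_list_prod, List.map_map, List.map_map]
      rfl
    have e2 : ((Cd.left W P j Q, i, α) ::
        m.map (fun t => (t.1.right (P j).X, t.2.1, t.2.2))).map
        (fun t => ((t.1.j, t.2.1, g t.2.2) : ι × ℕ × W.K)) =
        [(j, i, g α)] ++ m.map (fun t => (t.1.j, t.2.1, g t.2.2)) := by
      rw [List.map_cons, List.map_map]
      rfl
    rw [e1, e2]
    exact h2
  · rw [List.map_cons, List.map_map, ← hc]
    rfl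
  · rw [hpe]
    exact tmul_ne_zero' hy0 hc0
  · intro t ht
    rw [hpe]
    rw [List.mem_cons] at ht
    rcases ht with rfl | ht
    · change extOp W (eb W P π S j i α) 1 _ = _
      rw [extOp_tmul, h.eb_fix hy1 hα hα, if_pos rfl]
      rfl
    · obtain ⟨t', ht', rfl⟩ := List.mem_map.1 ht
      change extOp W 1 (t'.1.ε (eb W P π S t'.1.j t'.2.1 t'.2.2)) _ = _
      rw [extOp_tmul, hfix t' ht']
      rfl

/-- The existence of systems of coordinates. -/
theorem EProps1.exists_sys (h : EProps1 W P q π S) (g : W.K → W.K)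
    (l : List (ι × ℕ × W.K)) (hl : l ≠ []) (hnz : ∀ x ∈ l, blkS W P x ≠ ⊥) :
    ∃ Q : EndVar 𝒱, IsFamilyProduct P Q ∧ Sys W P π S g l Q.X := by
  induction l with
  | nil => exact absurd rfl hl
  | cons x l ih =>
    obtain ⟨j, i, α⟩ := x
    by_cases hl0 : l = []
    · subst hl0
      exact ⟨P j, .base j, h.sys_base g (hnz _ List.mem_cons_self)⟩
    · obtain ⟨Q, hQ, hs⟩ := ih hl0 (fun z hz => hnz z (List.mem_cons_of_mem _ hz))
      exact ⟨(P j).prod Q, .prod (.base j) hQ, h.sys_step g (hnz _ List.mem_cons_self) hs⟩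

end Pool.Agent.H914
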