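import Pool.Agent.H914R2.IDefs

/-!
# Complex conjugation on Weil numbers
-/

open Polynomial

namespace Pool.Agent.H914

/-- Automorphisms of subfields extend to algebraically closed fields. -/
lemma exists_extend_aut {A L : Type*} [Field A] [Field L] [Algebra A L] [IsAlgClosed L]
    (c : A ≃+* A) : ∃ τ : L ≃+* L, ∀ a : A, τ (algebraMap A L a) = algebraMap A L (c a) := by
  obtain ⟨ι, x, hx⟩ := exists_isTranscendenceBasis' A L
  have h1 : IsAlgClosure (Algebra.adjoin A (Set.range x)) L :=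
    IsAlgClosed.isAlgClosure_of_transcendence_basis x hx
  let e : Algebra.adjoin A (Set.range x) ≃+* Algebra.adjoin A (Set.range x) :=
    (hx.1.aevalEquiv.symm.toRingEquiv.trans (MvPolynomial.mapEquiv ι c)).trans
      hx.1.aevalEquiv.toRingEquiv
  have he : ∀ a : A, e (algebraMap A _ a) = algebraMap A _ (c a) := by
    intro a
    change hx.1.aevalEquiv (MvPolynomial.mapEquiv ι c (hx.1.aevalEquiv.symm (algebraMap A _ a))) = _
    rw [AlgEquiv.commutes, MvPolynomial.algebraMap_eq, MvPolynomial.mapEquiv_apply,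
      MvPolynomial.map_C, ← MvPolynomial.algebraMap_eq, AlgEquiv.commutes]
    rfl
  refine ⟨IsAlgClosure.equivOfEquiv L L e, ?_⟩
  intro a
  have h2 := IsAlgClosure.equivOfEquiv_algebraMap L L e (algebraMap A _ a)
  rw [he] at h2
  exact h2

lemma weil_conj_aux (L : Type*) [Field L] [CharZero L] [IsAlgClosed L] (q : ℕ) (A : Type*)
    [Field A] [Algebra ℚ A] [IsAlgClosure ℚ A] [Algebra A L] [IsScalarTower ℚ A L]
    (hs : ∀ α : L, IsAlgebraic ℚ α → ∃ a : A, algebraMap A L a = α) :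
    ∃ τ : L ≃+* L, ∀ (i : ℕ) (α : L), IsWeilNumber q i α → τ α * α = (q : L) ^ i := by
  let φ : A →ₐ[ℚ] ℂ := IsAlgClosed.lift
  let _ : Algebra A ℂ := φ.toRingHom.toAlgebra
  have htow : IsScalarTower ℚ A ℂ := IsScalarTower.of_algebraMap_eq fun x => (φ.commutes x).symm
  have hnorm : Normal ℚ A := IsAlgClosure.normal ℚ A
  let ψ : ℂ →ₐ[ℚ] ℂ := (starRingEnd ℂ).toRatAlgHom
  let c : A ≃ₐ[ℚ] A := ψ.restrictNormal' A
  have hc : ∀ a : A, φ (c a) = (starRingEnd ℂ) (φ a) := fun a =>
    AlgHom.restrictNormal_commutes ψ A a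
  obtain ⟨τ, hτ⟩ := exists_extend_aut (A := A) (L := L) c.toRingEquiv
  refine ⟨τ, ?_⟩
  intro i α hα
  obtain ⟨a, rfl⟩ := hs α hα.1
  have h1 : aeval (φ a) (minpoly ℚ (algebraMap A L a)) = 0 := by
    rw [minpoly.algebraMap_eq (algebraMap A L).injective]
    have h0 := aeval_algHom_apply φ a (minpoly ℚ a)
    rw [h0, minpoly.aeval, map_zero]
  have h2 := hα.2 _ h1
  have h3 : φ (c a * a) = φ ((q : A) ^ i) := by
    rw [map_mul, hc, map_pow, map_natCast, Complex.conj_mul']
    exact_mod_cast h2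
  have h4 : c a * a = (q : A) ^ i := φ.toRingHom.injective h3
  rw [hτ]
  have h5 := congrArg (algebraMap A L) h4
  rw [map_mul, map_pow, map_natCast] at h5
  exact h5

/-- There is an automorphism which maps all Weil numbers to their complex conjugates. -/
theorem exists_weil_conj (L : Type*) [Field L] [CharZero L] [IsAlgClosed L] (q : ℕ) :
    ∃ τ : L ≃+* L, ∀ (i : ℕ) (α : L), IsWeilNumber q i α → τ α * α = (q : L) ^ i :=
  @weil_conj_aux L _ _ _ q (algebraicClosure ℚ L) _ (algebraicClosure ℚ L).algebra'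
    (algebraicClosure.isAlgClosure ℚ L) _ _
    (fun α hα => ⟨⟨α, mem_algebraicClosure_iff.2 hα⟩, rfl⟩)

end Pool.Agent.H914
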