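import Pool.Agent.H914R2.ICoord
import Pool.Agent.H914R2.IFld

/-!
# Conjugation of algebraic multisets of labels
-/

open CategoryTheory AlgebraicGeometry Finset TensorProduct Polynomial

universe u v w

namespace Pool.Agent.H914

open VarClass Obj WeilCohomology

variable {k : Type u} [Field k] {𝒱 : VarClass k} {ops : CycleOps 𝒱}
  {W : WeilCohomology.{u, v} ops} {X Y Z : 𝒱.Obj} {ι : Type w} {P : ι → EndVar 𝒱} {q : ℕ}

lemma nu_add (v w : W.H X) : nu W X (v + w) = nu W X v + nu W X w := by
  apply LinearMap.ext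
  intro a
  rw [LinearMap.add_apply, nu_apply, nu_apply, nu_apply, add_mul, map_add, add_smul]

lemma nu_smul (c : W.K) (v : W.H X) : nu W X (c • v) = c • nu W X v := by
  apply LinearMap.ext
  intro a
  rw [LinearMap.smul_apply, nu_apply, nu_apply, smul_mul_assoc, map_smul, smul_eq_mul, mul_smul]

lemma nu_zero : nu W X 0 = 0 := by
  apply LinearMap.ext
  intro a
  rw [nu_apply, zero_mul, map_zero, zero_smul, LinearMap.zero_apply]

/-- The projectors to the algebraic part factor over the functionals given by algebraic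
classes. -/
lemma CProj.factor {π : ℕ → Module.End W.K (W.H X)} (h : CProj W X π) (hD : HomEqNum W X)
    {l : ℕ} (hl : l ≤ X.dim) {A : Type*} [Ring A] (ε : Module.End W.K (W.H X) →+* A)
    (I : AddSubgroup A) (hI : ∀ a, ∀ b ∈ I, a * b ∈ I)
    (hnu : ∀ v ∈ spanCycles W X ((X.dim - l : ℕ) : ℤ), ε (nu W X v) ∈ I) : ε (π l) ∈ I := by
  obtain ⟨l', hl'⟩ : ∃ l', l' = X.dim - l := ⟨_, rfl⟩
  have hll : l + l' = X.dim := by omega
  obtain ⟨N, c, c', hc, hc', -, hU, -⟩ := exists_dual_families (bil W X)
    (spanCycles W X l) (spanCycles W X l')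
    (fun u hu h => cNondeg hD hll hu (fun b hb => h b (alg_mem_span hb)))
    (fun u' hu' h => cNondeg hD (show l' + l = X.dim by omega) hu' (fun b hb => by
      rw [bil_even (span_gr hu')]
      exact h b (alg_mem_span hb)))
  have hadj : ∀ a, ∀ v ∈ spanCycles W X (l' : ℤ), bil W X (π l a) v = W.tr X (v * a) := by
    intro a v hv
    rw [W.even_comm (span_gr hv), ← bil_apply]
    rw [spanCycles_eq] at hv
    induction hv using Submodule.span_induction with
    | mem v hv =>
      apply h.adj l hl a v
      rw [← hl']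
      exact hv
    | zero => rw [map_zero, map_zero]
    | add x y _ _ hx hy => rw [map_add, map_add, hx, hy]
    | smul r x _ hx => rw [map_smul, map_smul, hx]
  have e1 : π l = ∑ i, LinearMap.mulLeft W.K (c i) * nu W X (c' i) := by
    apply LinearMap.ext
    intro a
    conv_lhs => rw [hU _ (h.mem l a)]
    rw [LinearMap.sum_apply]
    apply Finset.sum_congr rfl
    intro i _
    rw [hadj a _ (hc' i), Module.End.mul_apply, nu_apply, LinearMap.mulLeft_apply,
      mul_smul_comm, mul_one]
  rw [e1, map_sum]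
  apply AddSubgroup.sum_mem
  intro i _
  rw [map_mul]
  apply hI
  apply hnu
  rw [← hl']
  exact hc' i

variable [DecidableEq W.K] {π : ∀ j, ℕ → Module.End W.K (W.H (P j).X)} {S : ι → Finset W.K}

/-- The conjugate of an algebraic class in a joint block is in the conjugate block. -/
theorem EProps1.cd_conj (h : EProps1 W P q π S) {τ : W.K →+* W.K}
    (hw : ∀ (j : ι) (i : ℕ) (α : W.K), blkC W P j i α ≠ ⊥ → τ α * α = (q : W.K) ^ i)
    (hq : 2 ≤ q) {Q : 𝒱.Obj} (hI : InjectiveOnCycles W Q) (c : Cd W P Q) {i : ℕ} {α : W.K}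
    (hne : blkC W P c.j i α ≠ ⊥) {x x' : W.H Q} (hx : Cj W τ Q x x') (hx0 : x' ≠ 0)
    (hfix : c.ε (eb W P π S c.j i α) x = x) :
    τ α ∈ S c.j ∧ c.ε (eb W P π S c.j i (τ α)) x' = x' ∧ blkC W P c.j i (τ α) ≠ ⊥ := by
  have hα : α ∈ S c.j := by
    obtain ⟨y, hy, hy0⟩ := (Submodule.ne_bot_iff _).1 hne
    exact h.mem_S hy hy0
  have hτα := hw _ _ _ hne
  have hC := h.cproj c.j
  -- the operator `F`
  have hF : c.ε (W.map (P c.j).f).toLinearMap x = α • x := by
    conv_lhs => rw [← hfix]
    rw [← Module.End.mul_apply, ← map_mul, (h.eb_F c.j i hα).1, c.smul, LinearMap.smul_apply,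
      hfix]
  have hF' : c.ε (W.map (P c.j).f).toLinearMap x' = τ α • x' := by
    have h1 := hx.map (c.corr _ (IsCorr.pull (P c.j).f)).cycMap
    rw [hF] at h1
    exact h1.unique hI (hx.smul α)
  -- the transcendental part
  have hnu : ∀ (l : ℕ), ∀ v ∈ spanCycles W (P c.j).X l, c.ε (nu W _ v) x' = 0 := by
    intro l v hv
    rw [spanCycles_eq] at hv
    induction hv using Submodule.span_induction with
    | mem v hv =>
      have h1 : c.ε (nu W _ v) x = 0 := by
        conv_lhs => rw [← hfix]
        rw [← Module.End.mul_apply, ← map_mul]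
        have h2 : nu W (P c.j).X v * eb W P π S c.j i α = 0 := by
          apply LinearMap.ext
          intro a
          rw [Module.End.mul_apply, nu_apply]
          have h3 := trans_orth' (mem_blkC.1 (h.eb_mem c.j i hα a)).1 (alg_mem_span hv)
          rw [h3, zero_smul, LinearMap.zero_apply]
        rw [h2, map_zero, LinearMap.zero_apply]
      have h2 := hx.map (c.corr _ (IsCorr.nu hv)).cycMap
      rw [h1] at h2
      exact h2.eq_zero hI
    | zero => rw [nu_zero, map_zero, LinearMap.zero_apply]
    | add x y _ _ hx hy => rw [nu_add, map_add, LinearMap.add_apply, hx, hy, add_zero]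
    | smul r x _ hx => rw [nu_smul, c.smul, LinearMap.smul_apply, hx, smul_zero]
  let I : AddSubgroup (Module.End W.K (W.H Q)) :=
    { carrier := {A | A x' = 0}
      zero_mem' := rfl
      add_mem' := fun {A B} hA hB => by
        change (A + B) x' = 0
        rw [LinearMap.add_apply, hA, hB, add_zero]
      neg_mem' := fun {A} hA => by
        change (-A) x' = 0
        rw [LinearMap.neg_apply, hA, neg_zero] }
  have hπl : ∀ l ≤ (P c.j).X.dim, c.ε (π c.j l) x' = 0 := by
    intro l hl
    refine hC.factor (h.numD c.j) hl c.ε I ?_ ?_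
    · intro a b hb
      change (a * b) x' = 0
      have hb' : b x' = 0 := hb
      rw [Module.End.mul_apply, hb', map_zero]
    · intro v hv
      exact hnu _ v hv
  have hT : c.ε (piT (π c.j)) x' = x' := by
    rw [piT, map_sub, map_one, map_sum, LinearMap.sub_apply, Module.End.one_apply,
      LinearMap.sum_apply, Finset.sum_eq_zero, sub_zero]
    intro l hl
    exact hπl l (by have := Finset.mem_range.1 hl; omega)
  -- the eigenvalue
  have hS : τ α ∈ S c.j := by
    have h1 := congrArg (fun A => c.ε A x') (h.ann c.j)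
    beta_reduce at h1
    rw [map_mul, Module.End.mul_apply, hT, c.aeval, poly_eigen hF', map_zero,
      LinearMap.zero_apply] at h1
    have h2 := (smul_eq_zero.1 h1).resolve_right hx0
    rw [eval_prod, Finset.prod_eq_zero_iff] at h2
    obtain ⟨γ, hγ, hγ0⟩ := h2
    rw [eval_sub, eval_X, eval_C, sub_eq_zero] at hγ0
    rwa [hγ0]
  -- the blocks of the different degrees
  have hspec : ∀ i', c.ε (eb W P π S c.j i' (τ α)) x' =
      c.ε (proj (W.isInternal (P c.j).X) i') x' := by
    intro i'
    have h1 : c.ε (spec (W.map (P c.j).f).toLinearMap (piT (π c.j)) (S c.j) (τ α)) x' = x' := by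
      rw [spec, map_mul, c.aeval]
      have h2 := spec_eigen (F := c.ε (W.map (P c.j).f).toLinearMap)
        (π := c.ε (piT (π c.j))) (S := S c.j) hF' hT hS hS
      rw [if_pos rfl] at h2
      exact h2
    rw [eb, map_mul, Module.End.mul_apply, h1]
  have hsum : x' = ∑ i' ∈ range (2 * (P c.j).X.dim + 1),
      c.ε (proj (W.isInternal (P c.j).X) i') x' := by
    have h1 := sum_proj (W.isInternal (P c.j).X) (N := 2 * (P c.j).X.dim + 1)
      (fun i hi => W.gr_eq_bot _ i (by omega))
    have h2 := congrArg (fun A => c.ε A x') h1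
    beta_reduce at h2
    rw [map_sum, LinearMap.sum_apply, map_one, Module.End.one_apply] at h2
    exact h2.symm
  have hi : ∀ i', c.ε (proj (W.isInternal (P c.j).X) i') x' ≠ 0 →
      i' = i ∧ blkC W P c.j i' (τ α) ≠ ⊥ := by
    intro i' h0
    have h1 : eb W P π S c.j i' (τ α) ≠ 0 := by
      intro h2
      rw [← hspec, h2, map_zero, LinearMap.zero_apply] at h0
      exact h0 rfl
    have h2 : blkC W P c.j i' (τ α) ≠ ⊥ := by
      intro h3
      apply h1
      apply LinearMap.ext
      intro a
      have h4 := h.eb_mem c.j i' hS a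
      rw [h3] at h4
      exact (Submodule.mem_bot _).1 h4
    refine ⟨?_, h2⟩
    have h3 := hw _ _ _ h2
    have hqK : (q : W.K) ≠ 0 := h.q_ne
    have hα0 : α ≠ 0 := by
      rintro rfl
      rw [mul_zero] at hτα
      exact pow_ne_zero _ hqK hτα.symm
    have e1 : τ (τ α) * τ α = (q : W.K) ^ i := by
      rw [← map_mul, hτα, map_pow, map_natCast]
    rw [e1] at h3
    have h4 : q ^ i = q ^ i' := by exact_mod_cast h3
    exact (Nat.pow_right_injective hq h4).symm
  obtain ⟨i₀, -, hi₀⟩ := Finset.exists_ne_zero_of_sum_ne_zero (by rw [← hsum]; exact hx0)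
  obtain ⟨rfl, hb⟩ := hi i₀ hi₀
  refine ⟨hS, ?_, hb⟩
  rw [hspec]
  conv_rhs => rw [hsum]
  rw [Finset.sum_eq_single i₀]
  · intro i' _ hne'
    by_contra h0
    exact hne' (hi i' h0).1
  · intro h0
    exfalso
    apply hi₀
    have h1 : proj (W.isInternal (P c.j).X) i₀ = 0 := by
      apply LinearMap.ext
      intro a
      have h2 := proj_mem (W.isInternal (P c.j).X) i₀ a
      rw [W.gr_eq_bot _ _ (by
        rw [Finset.mem_range] at h0
        omega)] at h2
      exact (Submodule.mem_bot _).1 h2
    rw [h1, map_zero, LinearMap.zero_apply]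

end Pool.Agent.H914
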