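import Pool.Agent.H914R2.EDefs

/-!
# Linear independence of algebraic classes: definitions
-/

open CategoryTheory AlgebraicGeometry Polynomial

universe u v w

namespace Pool.Agent.H914

/-- The element `α` of a field of characteristic zero is a Weil number of weight `i`: it is
algebraic over the rational numbers, and all its conjugates in the field of complex numbers have
absolute value `q ^ (i / 2)`. -/
def IsWeilNumber {L : Type*} [Field L] [CharZero L] (q i : ℕ) (α : L) : Prop :=
  IsAlgebraic ℚ α ∧ ∀ z : ℂ, aeval z (minpoly ℚ α) = 0 → ‖z‖ ^ 2 = (q : ℝ) ^ i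

open VarClass Obj WeilCohomology

variable {k : Type u} [Field k] {𝒱 : VarClass k} {ops : CycleOps 𝒱}

/-- Classes of cycles of the same codimension on `X` which are linearly independent over the
rational numbers are linearly independent over the coefficient field. -/
def InjectiveOnCycles (W : WeilCohomology.{u, v} ops) (X : 𝒱.Obj) : Prop :=
  ∀ (j n : ℕ) (z : Fin n → X.Cycles), (∀ i, X.IsCyc j (z i)) →
    (∀ r : Fin n → ℚ, W.cl X (∑ i, r i • z i) = 0 → r = 0) →
      ∀ c : Fin n → W.K, ∑ i, c i • W.cl X (z i) = 0 → c = 0

end Pool.Agent.H914
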