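import Pool.Agent.H914R2.ICore

/-!
# Linear independence of algebraic classes and the conjecture D
-/

open CategoryTheory AlgebraicGeometry Finset TensorProduct Polynomial

universe u v w

namespace Pool.Agent.H914

open VarClass Obj WeilCohomology

variable {k : Type u} [Field k] {𝒱 : VarClass k} {ops : CycleOps 𝒱}
  {W : WeilCohomology.{u, v} ops} {X Y Z : 𝒱.Obj} {ι : Type w} {P : ι → EndVar 𝒱} {q : ℕ}

section

variable [DecidableEq W.K] {π : ∀ j, ℕ → Module.End W.K (W.H (P j).X)} {S : ι → Finset W.K}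

lemma list_prod_fix {V : Type*} [AddCommGroup V] [Module W.K V] {β : Type*} (m : List β)
    (f : β → Module.End W.K V) (x : V) (h : ∀ t ∈ m, f t x = x) : (m.map f).prod x = x := by
  induction m with
  | nil => rfl
  | cons t m ih =>
    rw [List.map_cons, List.prod_cons, Module.End.mul_apply,
      ih (fun s hs => h s (List.mem_cons_of_mem _ hs)), h t List.mem_cons_self]

/-- Conjugates of algebraic multisets are algebraic, if linear independence of algebraic classes
is preserved by the extension of the coefficients. -/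
theorem AlgM.conj (h : EProps1 W P q π S) {τ : W.K ≃+* W.K}
    (hw : ∀ (j : ι) (i : ℕ) (α : W.K), blkC W P j i α ≠ ⊥ → τ α * α = (q : W.K) ^ i)
    (hq : 2 ≤ q) (hI : ∀ Q, IsFamilyProduct P Q → InjectiveOnCycles W Q.X)
    {s : Multiset (ι × ℕ × W.K)} (hs : AlgM W P s) (hnz : ∀ x ∈ s, blkS W P x ≠ ⊥) :
    AlgM W P (s.map (fun x => (x.1, x.2.1, τ x.2.2))) ∧
      ∀ x ∈ s, blkS W P (x.1, x.2.1, τ x.2.2) ≠ ⊥ := by
  obtain ⟨l, rfl⟩ : ∃ l : List (ι × ℕ × W.K), (l : Multiset (ι × ℕ × W.K)) = s :=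
    ⟨s.toList, Multiset.coe_toList s⟩
  by_cases hl0 : l = []
  · subst hl0
    refine ⟨?_, ?_⟩
    · have h0 : (([] : List (ι × ℕ × W.K)) : Multiset (ι × ℕ × W.K)).map
          (fun x => (x.1, x.2.1, τ x.2.2)) = 0 := rfl
      rw [h0]
      exact AlgM.zero
    · intro x hx
      exact absurd hx (by simp)
  obtain ⟨Q, hQ, m, hm, hO, c, hc, hc0, hfix⟩ := h.exists_sys (fun a => τ a) l hl0
    (fun x hx => hnz x hx)
  have hxa : pe c ∈ Pool.Agent.H914.algS W Q.X := hs Q.X c (by rw [hc])
  obtain ⟨x', hx'⟩ := Cj.exists hxa (τ : W.K →+* W.K)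
  have hx0 : x' ≠ 0 := by
    rintro rfl
    apply hc0
    exact (hx'.symm (τ' := (τ.symm : W.K →+* W.K)) (fun c => τ.symm_apply_apply c)).eq_zero
      (hI Q hQ)
  have hmne : ∀ t ∈ m, blkC W P t.1.j t.2.1 t.2.2 ≠ ⊥ := by
    intro t ht
    apply hnz (t.1.j, t.2.1, t.2.2)
    change (t.1.j, t.2.1, t.2.2) ∈ l
    rw [← hm, List.mem_map]
    exact ⟨t, ht, rfl⟩
  have key : ∀ t ∈ m, τ t.2.2 ∈ S t.1.j ∧ t.1.ε (eb W P π S t.1.j t.2.1 (τ t.2.2)) x' = x' ∧
      blkC W P t.1.j t.2.1 (τ t.2.2) ≠ ⊥ := by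
    intro t ht
    exact h.cd_conj (τ := (τ : W.K →+* W.K)) hw hq (hI Q hQ) t.1 (hmne t ht) hx' hx0
      (hfix t ht)
  have hblk := hO (fun t ht => (key t ht).1)
  have hfix' := list_prod_fix m (fun t => t.1.ε (eb W P π S t.1.j t.2.1 (τ t.2.2))) x'
    (fun t ht => (key t ht).2.1)
  have h1 := hblk.algM hx'.algS (by rw [hfix']; exact hx0)
  have e1 : m.map (fun t => ((t.1.j, t.2.1, τ t.2.2) : ι × ℕ × W.K)) =
      l.map (fun x => (x.1, x.2.1, τ x.2.2)) := by
    rw [← hm, List.map_map]
    rfl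
  refine ⟨?_, ?_⟩
  · rw [Multiset.map_coe, ← e1]
    exact h1
  · intro x hx
    have hx1 : x ∈ l := hx
    rw [← hm, List.mem_map] at hx1
    obtain ⟨t, ht, rfl⟩ := hx1
    exact (key t ht).2.2

/-- Replacing all labels. -/
lemma AlgM.replaceAll {A B : ι × ℕ × W.K → ι × ℕ × W.K} (s : Multiset (ι × ℕ × W.K)) :
    ∀ u : Multiset (ι × ℕ × W.K),
      (∀ x ∈ s, ∀ y' ∈ blkS W P (B x), ∃ (d : ℤ) (θ : W.H (P (A x).1).X →ₗ[W.K]
        W.H (P (B x).1).X), θ ∈ KOp W (P (A x).1).X (P (B x).1).X d ∧
          ∃ y ∈ blkS W P (A x), θ y = y') →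
      AlgM W P (s.map A + u) → AlgM W P (s.map B + u) := by
  induction s using Multiset.induction_on with
  | empty => intro u _ h; exact h
  | cons x s ih =>
    intro u hr h
    rw [Multiset.map_cons, Multiset.cons_add] at h ⊢
    have h1 := AlgM.replace (hr x (Multiset.mem_cons_self _ _)) h
    rw [← Multiset.add_cons] at h1 ⊢
    exact ih _ (fun y hy => hr y (Multiset.mem_cons_of_mem hy)) h1

/-- The dual multiset is algebraic. -/
theorem AlgM.bar (h : EProps1 W P q π S) {τ : W.K ≃+* W.K}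
    (hw : ∀ (j : ι) (i : ℕ) (α : W.K), blkC W P j i α ≠ ⊥ → τ α * α = (q : W.K) ^ i)
    (hq : 2 ≤ q) (hI : ∀ Q, IsFamilyProduct P Q → InjectiveOnCycles W Q.X)
    {s : Multiset (ι × ℕ × W.K)} (hs : AlgM W P s) (hnz : ∀ x ∈ s, blkS W P x ≠ ⊥) :
    AlgM W P (s.map (barLab W P q)) := by
  obtain ⟨h1, h2⟩ := AlgM.conj h hw hq hI hs hnz
  have h3 := AlgM.replaceAll (W := W) (P := P) (A := fun x => (x.1, x.2.1, τ x.2.2))
    (B := barLab W P q) s 0 ?_ (by rwa [add_zero])
  · rwa [add_zero] at h3
  rintro ⟨j, i, α⟩ hx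
  have hα := hw j i α (hnz _ hx)
  have hle : i ≤ 2 * (P j).X.dim := blk_le (hnz _ hx)
  have hqK : (q : W.K) ≠ 0 := h.q_ne
  have hα0 : α ≠ 0 := by
    rintro rfl
    rw [mul_zero] at hα
    exact pow_ne_zero _ hqK hα.symm
  have hτα : τ α = (q : W.K) ^ i / α := by
    rw [← hα]; field_simp
  refine h.rep (i := i) (α := τ α) (i' := 2 * (P j).X.dim - i)
    (α' := (q : W.K) ^ (P j).X.dim / α) (h2 _ hx) (by omega) ?_
  rw [hτα, div_div, div_div, div_eq_div_iff (mul_ne_zero hα0 (pow_ne_zero _ hqK))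
    (mul_ne_zero hα0 (pow_ne_zero _ hqK))]
  have e1 : (P j).X.dim + i / 2 = i + (2 * (P j).X.dim - i) / 2 := by omega
  calc (q : W.K) ^ i * (α * (q : W.K) ^ ((2 * (P j).X.dim - i) / 2))
      = α * (q : W.K) ^ (i + (2 * (P j).X.dim - i) / 2) := by rw [pow_add]; ring
    _ = _ := by rw [← e1, pow_add]; ring

end

section Base

variable {L : Type v} [Field L] [Algebra W.K L]

/-- The linear independence after the extension of the coefficients. -/
lemma injective_base (h : InjectiveOnCycles W X) : InjectiveOnCycles (baseW W L) X := by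
  intro j n z hz hind c hc
  have hcl : ∀ z : X.Cycles, (baseW W L).cl X z = 0 → W.cl X z = 0 := fun z hz =>
    tmul_injective _ hz
  have hind' : ∀ r : Fin n → ℚ, W.cl X (∑ i, r i • z i) = 0 → r = 0 := by
    intro r hr
    apply hind
    have h1 : ((1 : L) ⊗ₜ[W.K] W.cl X (∑ i, r i • z i) : L ⊗[W.K] W.H X) = 0 := by
      rw [hr, tmul_zero]
    exact h1
  let c' : Fin n → L := c
  have hc' : (∑ i, c' i ⊗ₜ[W.K] W.cl X (z i) : L ⊗[W.K] W.H X) = 0 := by
    have h1 : ∀ i, (c' i ⊗ₜ[W.K] W.cl X (z i) : L ⊗[W.K] W.H X) =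
        c' i • ((1 : L) ⊗ₜ[W.K] W.cl X (z i)) := fun i => by
      rw [TensorProduct.smul_tmul', smul_eq_mul, mul_one]
    rw [Finset.sum_congr rfl (fun i _ => h1 i)]
    exact hc
  have key : ∀ l : L →ₗ[W.K] W.K, (fun i => l (c' i)) = 0 := by
    intro l
    apply h j n z hz hind'
    have h1 := congrArg (coeffs l) hc'
    rw [map_sum, map_zero] at h1
    simpa only [coeffs_tmul] using h1
  have hfin : c' = 0 := by
    funext i
    by_contra h0
    obtain ⟨l, hl⟩ := Module.Projective.exists_dual_eq_one W.K h0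
    have h1 := congrFun (key l) i
    rw [Pi.zero_apply] at h1
    rw [hl] at h1
    exact one_ne_zero h1
  exact hfin

/-- The properties of the members of the family after the extension of the coefficients. -/
theorem exists_eProps1 [IsAlgClosed L] (hq : q ≠ 0) (hD : ∀ j, HomEqNum W (P j).X)
    (hdeg : ∀ j, HasFrobeniusDegree W (P j) q)
    (hss : ∀ j, FrobeniusSemisimple W (P j).X (P j).f)
    (hT : ∀ j, AlgebraicHoms W (P j) (P j) q) :
    ∃ (π : ∀ j, ℕ → Module.End W.K (W.H (P j).X)) (S : ι → Finset L),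
      (∀ j, CProj W (P j).X (π j)) ∧ EProps1 (baseW W L) P q
        (fun j l => (show L ⊗[W.K] W.H (P j).X →ₗ[L] L ⊗[W.K] W.H (P j).X from
          (π j l).baseChange L)) S := by
  classical
  choose π hπ using fun j => exists_cProj (hD j)
  have hroots : ∀ j, ∃ S : Finset L, aeval ((W.map (P j).f).toLinearMap.baseChange L)
      (∏ γ ∈ S, (Polynomial.X - C γ)) * (piT (π j)).baseChange L = 0 := by
    intro j
    obtain ⟨Q, hQ, hQT⟩ := hss j
    obtain ⟨S, c, -, hc0, hQS⟩ := exists_roots (L := L) hQ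
    refine ⟨S, ?_⟩
    have hQπ : aeval (W.map (P j).f).toLinearMap Q * piT (π j) = 0 := by
      apply LinearMap.ext
      intro a
      exact hQT _ ((hπ j).piT_trans a)
    have h1 := congrArg (fun Z => Z.baseChange L) hQπ
    beta_reduce at h1
    rw [bcMul, ← aeval_base, hQS, LinearMap.baseChange_zero, map_mul, aeval_C, mul_assoc,
      ← Algebra.smul_def] at h1
    exact (smul_eq_zero.1 h1).resolve_left hc0
  choose S hS using hroots
  refine ⟨π, S, hπ, hq, fun j => (hπ j).base (hD j), fun j => base_homEqNum (hD j), ?_,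
    fun j => base_degree (hdeg j), ?_⟩
  · intro j
    have h1 := hS j
    rw [base_F, ← base_piT] at h1
    exact h1
  · intro j i i' hii Z h1 h2 h3 h4 h5
    refine homs_base (L := L) (hπ j) (hπ j) (homSpan_le i i') (hT j i i' hii)
      (show L ⊗[W.K] W.H (P j).X →ₗ[L] L ⊗[W.K] W.H (P j).X from Z) ?_ ?_ ?_ ?_ ?_
    · rw [← base_piT]; exact h1
    · rw [← base_piT]; exact h2
    · rw [base_pr]; exact h3
    · rw [base_pr]; exact h4
    · rw [base_F, map_pow, map_pow, map_natCast]
      exact h5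

end Base

/-- **The conjecture D for products of members of a family, if the linear independence of
algebraic classes is preserved.** -/
theorem homEqNum_of_injective (hq : 2 ≤ q) (hD : ∀ j, HomEqNum W (P j).X)
    (hdeg : ∀ j, HasFrobeniusDegree W (P j) q)
    (hss : ∀ j, FrobeniusSemisimple W (P j).X (P j).f)
    (hT : ∀ j, AlgebraicHoms W (P j) (P j) q)
    (hwt : ∀ x ∈ familyEigenvalues W P, IsWeilNumber q x.1 x.2)
    (hI : ∀ Q, IsFamilyProduct P Q → InjectiveOnCycles W Q.X) {Q : EndVar 𝒱}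
    (hQ : IsFamilyProduct P Q) : HomEqNum W Q.X := by
  classical
  set L := AlgebraicClosure W.K with hL
  obtain ⟨π, S, hπ, hE⟩ := exists_eProps1 (L := L) (by omega) hD hdeg hss hT
  have hblk := hE.hasGBlk_product hQ
  apply homEqNum_base (L := L)
  apply homEqNum_of_gBlk hblk
  intro s hnz hs
  obtain ⟨τ, hτ⟩ := exists_weil_conj L q
  refine AlgM.bar (τ := (τ : L ≃+* L)) hE ?_ hq (fun Q hQ => injective_base (hI Q hQ)) hs hnz
  intro j i α hne
  exact hτ i α (hwt _ (blk_eigenvalue hπ hD (j, i, α) hne))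

/-- The conjecture D implies that linear independence of algebraic classes is preserved. -/
theorem injective_of_homEqNum (hD : HomEqNum W X) : InjectiveOnCycles W X := by
  classical
  intro j n z hz hind c hc
  by_cases hj : j ≤ X.dim
  swap
  · funext i
    exfalso
    have h0 : W.cl X (∑ l, (Pi.single i 1 : Fin n → ℚ) l • z l) = 0 := by
      have h1 : W.cl X (∑ l, (Pi.single i 1 : Fin n → ℚ) l • z l) ∈ W.gr X (2 * j) := by
        rw [map_sum]
        apply Submodule.sum_mem
        intro l _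
        rw [W.cl_smul]
        exact Submodule.smul_mem _ _ (W.cl_mem (hz l))
      rw [W.gr_eq_bot X _ (by omega)] at h1
      exact (Submodule.mem_bot _).1 h1
    have h1 := congrFun (hind _ h0) i
    rw [Pi.single_eq_same, Pi.zero_apply] at h1
    exact one_ne_zero h1
  -- the rational intersection numbers
  have htr : ∀ (y : X.Cycles) (w : X.Cycles), X.IsCyc j y → X.IsCyc (X.dim - j) w →
      W.tr X (W.cl X y * W.cl X w) = (X.V.degCycle (ops.mul y w) : W.K) := by
    intro y w hy hw
    rw [← W.cl_mul]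
    apply W.tr_cl
    have h1 := ops.mul_mem hy hw
    rwa [show j + (X.dim - j) = X.dim by omega] at h1
  set V : Submodule ℚ (Fin n → ℚ) := Submodule.span ℚ
    {v | ∃ w, X.IsCyc (X.dim - j) w ∧ v = fun i => X.V.degCycle (ops.mul (z i) w)} with hV
  have hVtop : V = ⊤ := by
    by_contra hne
    obtain ⟨f, hf0, hf⟩ := Submodule.exists_le_ker_of_lt_top V (lt_top_iff_ne_top.2 hne)
    apply hf0
    have h1 : (fun i => f (Pi.single i 1)) = 0 := by
      apply hind
      have hcyc : X.IsCyc j (∑ i, f (Pi.single i 1) • z i) := by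
        have h2 : ∀ s : Finset (Fin n), X.IsCyc j (∑ i ∈ s, f (Pi.single i 1) • z i) := by
          intro s
          induction s using Finset.induction_on with
          | empty => rw [Finset.sum_empty]; exact SmVar.IsCyc.zero _ _
          | insert a s ha ih =>
            rw [Finset.sum_insert ha]
            exact ((hz a).smul _).add ih
        exact h2 _
      apply hD j hj _ hcyc
      intro w hw
      have h3 : f (fun i => X.V.degCycle (ops.mul (z i) w)) = 0 :=
        hf (Submodule.subset_span ⟨w, hw, rfl⟩)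
      rw [LinearMap.pi_apply_eq_sum_univ] at h3
      have h4 : (X.V.degCycle (ops.mul (∑ i, f (Pi.single i 1) • z i) w) : W.K) = 0 := by
        rw [← htr _ _ hcyc hw, map_sum, Finset.sum_mul, map_sum]
        have h5 : ∀ i, W.tr X (W.cl X (f (Pi.single i 1) • z i) * W.cl X w) =
            ((X.V.degCycle (ops.mul (z i) w) • f (fun l => if i = l then 1 else 0) : ℚ) :
              W.K) := by
          intro i
          rw [W.cl_smul, smul_mul_assoc, map_smul, htr _ _ (hz i) hw]
          have h6 : (fun l => if i = l then (1 : ℚ) else 0) = Pi.single i 1 := by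
            funext l
            rw [Pi.single_apply]
            simp only [eq_comm]
          rw [h6, smul_eq_mul, smul_eq_mul, Rat.cast_mul, mul_comm]
        rw [Finset.sum_congr rfl (fun i _ => h5 i), ← Rat.cast_sum, h3, Rat.cast_zero]
      exact_mod_cast h4
    apply LinearMap.pi_ext
    intro i x
    have h2 : (Pi.single i x : Fin n → ℚ) = x • Pi.single i 1 := by
      rw [← Pi.single_smul, smul_eq_mul, mul_one]
    rw [h2, map_smul, congrFun h1 i, Pi.zero_apply, smul_zero, LinearMap.zero_apply]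
  -- the relation for all vectors
  have hall : ∀ v ∈ V, ∑ i, c i * (v i : W.K) = 0 := by
    intro v hv
    induction hv using Submodule.span_induction with
    | mem v hv =>
      obtain ⟨w, hw, rfl⟩ := hv
      have h1 := congrArg (fun a => W.tr X (a * W.cl X w)) hc
      beta_reduce at h1
      rw [zero_mul, map_zero, Finset.sum_mul, map_sum] at h1
      rw [← h1]
      apply Finset.sum_congr rfl
      intro i _
      rw [smul_mul_assoc, map_smul, htr _ _ (hz i) hw, smul_eq_mul]
    | zero => simp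
    | add x y _ _ hx hy =>
      simp only [Pi.add_apply, Rat.cast_add, mul_add, Finset.sum_add_distrib, hx, hy, add_zero]
    | smul r x _ hx =>
      simp only [Pi.smul_apply, smul_eq_mul, Rat.cast_mul]
      have h1 : ∀ i, c i * ((r : W.K) * (x i : W.K)) = (r : W.K) * (c i * (x i : W.K)) :=
        fun i => by ring
      rw [Finset.sum_congr rfl (fun i _ => h1 i), ← Finset.mul_sum, hx, mul_zero]
  funext i
  have h1 := hall (Pi.single i 1) (by rw [hVtop]; exact Submodule.mem_top)
  rw [Finset.sum_eq_single i] at h1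
  · rw [Pi.single_eq_same, Rat.cast_one, mul_one] at h1
    exact h1
  · intro l _ hl
    rw [Pi.single_eq_of_ne hl, Rat.cast_zero, mul_zero]
  · intro h0
    exact absurd (Finset.mem_univ i) h0

/-- **The equivalence of the conjecture D and of the linear independence of algebraic classes for
the products of the members of the family.** -/
theorem homEqNum_iff_injective (hq : 2 ≤ q) (hD : ∀ j, HomEqNum W (P j).X)
    (hdeg : ∀ j, HasFrobeniusDegree W (P j) q)
    (hss : ∀ j, FrobeniusSemisimple W (P j).X (P j).f)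
    (hT : ∀ j, AlgebraicHoms W (P j) (P j) q)
    (hwt : ∀ x ∈ familyEigenvalues W P, IsWeilNumber q x.1 x.2) :
    (∀ Q, IsFamilyProduct P Q → ∀ Z, Dominates W Q.X Z → HomEqNum W Z) ↔
      ∀ Q, IsFamilyProduct P Q → InjectiveOnCycles W Q.X := by
  constructor
  · intro h Q hQ
    apply injective_of_homEqNum
    refine h Q hQ Q.X ⟨𝟙 _, 0, Q.X.V.fundCycle, 1, SmVar.fundCycle_mem _, one_ne_zero, ?_⟩
    rw [W.cl_fund, W.push_id, one_smul]
  · intro h Q hQ Z hZ
    exact HomEqNum.image (X := Q.X) (homEqNum_of_injective hq hD hdeg hss hT hwt h hQ) hZ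

end Pool.Agent.H914
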