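import Pool.Agent.H914R2.IDefs
import Pool.Agent.H914R2.EMain

/-!
# The action of automorphisms of the coefficients on algebraic classes
-/

open CategoryTheory AlgebraicGeometry Finset TensorProduct Polynomial

universe u v w

namespace Pool.Agent.H914

open VarClass Obj WeilCohomology

variable {k : Type u} [Field k] {𝒱 : VarClass k} {ops : CycleOps 𝒱}
  {W : WeilCohomology.{u, v} ops} {X Y Z : 𝒱.Obj}

/-- The relation between combinations of cycle classes and the combinations with conjugate
coefficients. -/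
inductive Cj (W : WeilCohomology.{u, v} ops) (τ : W.K →+* W.K) (X : 𝒱.Obj) :
    W.H X → W.H X → Prop
  | gen (c : W.K) (j : ℕ) (z : X.Cycles) (hz : X.IsCyc j z) :
      Cj W τ X (c • W.cl X z) (τ c • W.cl X z)
  | zero : Cj W τ X 0 0
  | add {a a' b b' : W.H X} : Cj W τ X a a' → Cj W τ X b b' → Cj W τ X (a + b) (a' + b')

variable {τ : W.K →+* W.K}

lemma Cj.smul {a a' : W.H X} (h : Cj W τ X a a') (c : W.K) : Cj W τ X (c • a) (τ c • a') := by
  induction h with
  | gen d j z hz =>
    rw [smul_smul, smul_smul, ← map_mul]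
    exact Cj.gen _ j z hz
  | zero => rw [smul_zero, smul_zero]; exact Cj.zero
  | add _ _ h1 h2 => rw [smul_add, smul_add]; exact h1.add h2

lemma Cj.neg {a a' : W.H X} (h : Cj W τ X a a') : Cj W τ X (-a) (-a') := by
  have h1 := h.smul (-1)
  rwa [map_neg, map_one, neg_smul, neg_smul, one_smul, one_smul] at h1

lemma Cj.sub {a a' b b' : W.H X} (h : Cj W τ X a a') (h' : Cj W τ X b b') :
    Cj W τ X (a - b) (a' - b') := by
  rw [sub_eq_add_neg, sub_eq_add_neg]
  exact h.add h'.neg

lemma Cj.algS {a a' : W.H X} (h : Cj W τ X a a') : a' ∈ Pool.Agent.H914.algS W X := by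
  induction h with
  | gen d j z hz => exact Submodule.smul_mem _ _ (algS_of ⟨z, hz, rfl⟩)
  | zero => exact Submodule.zero_mem _
  | add _ _ h1 h2 => exact Submodule.add_mem _ h1 h2

lemma Cj.exists {a : W.H X} (h : a ∈ Pool.Agent.H914.algS W X) (τ : W.K →+* W.K) :
    ∃ a', Cj W τ X a a' := by
  induction h using Submodule.span_induction with
  | mem a ha =>
    obtain ⟨j, z, hz, rfl⟩ := ha
    refine ⟨W.cl X z, ?_⟩
    have h1 := Cj.gen (W := W) (τ := τ) 1 j z hz
    rwa [map_one, one_smul] at h1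
  | zero => exact ⟨0, Cj.zero⟩
  | add x y _ _ hx hy =>
    obtain ⟨x', hx⟩ := hx
    obtain ⟨y', hy⟩ := hy
    exact ⟨_, hx.add hy⟩
  | smul r x _ hx =>
    obtain ⟨x', hx⟩ := hx
    exact ⟨_, hx.smul r⟩

/-- A linear map which maps cycle classes to cycle classes. -/
def CycMap (W : WeilCohomology.{u, v} ops) (X Y : 𝒱.Obj) (G : W.H X →ₗ[W.K] W.H Y) : Prop :=
  ∀ j z, X.IsCyc j z → ∃ j' w, Y.IsCyc j' w ∧ G (W.cl X z) = W.cl Y w

lemma Cj.map {a a' : W.H X} (h : Cj W τ X a a') {G : W.H X →ₗ[W.K] W.H Y}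
    (hG : CycMap W X Y G) : Cj W τ Y (G a) (G a') := by
  induction h with
  | gen d j z hz =>
    obtain ⟨j', w, hw, e⟩ := hG j z hz
    rw [map_smul, map_smul, e]
    exact Cj.gen _ j' w hw
  | zero => rw [map_zero]; exact Cj.zero
  | add _ _ h1 h2 => rw [map_add, map_add]; exact h1.add h2

/-- The relation in one codimension. -/
inductive Cj1 (W : WeilCohomology.{u, v} ops) (τ : W.K →+* W.K) (X : 𝒱.Obj) (j : ℕ) :
    W.H X → W.H X → Prop
  | gen (c : W.K) (z : X.Cycles) (hz : X.IsCyc j z) :
      Cj1 W τ X j (c • W.cl X z) (τ c • W.cl X z)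
  | zero : Cj1 W τ X j 0 0
  | add {a a' b b' : W.H X} : Cj1 W τ X j a a' → Cj1 W τ X j b b' →
      Cj1 W τ X j (a + b) (a' + b')

lemma Cj.proj {a a' : W.H X} (h : Cj W τ X a a') (j : ℕ) :
    Cj1 W τ X j (H914.proj (W.isInternal X) (2 * j) a) (H914.proj (W.isInternal X) (2 * j) a') := by
  induction h with
  | gen d j' z hz =>
    rw [map_smul, map_smul]
    by_cases hj : j' = j
    · subst hj
      rw [proj_same _ (W.cl_mem hz)]
      exact Cj1.gen _ z hz
    · rw [proj_ne _ (W.cl_mem hz) (by omega), smul_zero, smul_zero]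
      exact Cj1.zero
  | zero => rw [map_zero]; exact Cj1.zero
  | add _ _ h1 h2 => rw [map_add, map_add]; exact h1.add h2

lemma Cj1.form {j : ℕ} {a a' : W.H X} (h : Cj1 W τ X j a a') :
    ∃ (n : ℕ) (z : Fin n → X.Cycles) (c : Fin n → W.K), (∀ i, X.IsCyc j (z i)) ∧
      a = ∑ i, c i • W.cl X (z i) ∧ a' = ∑ i, τ (c i) • W.cl X (z i) := by
  induction h with
  | gen d z hz =>
    refine ⟨1, fun _ => z, fun _ => d, fun _ => hz, ?_, ?_⟩
    · simp
    · simp
  | zero => exact ⟨0, Fin.elim0, Fin.elim0, fun i => Fin.elim0 i, by simp, by simp⟩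
  | add _ _ ih1 ih2 =>
    obtain ⟨n, z, c, h1, h2, h3⟩ := ih1
    obtain ⟨m, w, d, h4, h5, h6⟩ := ih2
    refine ⟨n + m, Fin.append z w, Fin.append c d, ?_, ?_, ?_⟩
    · intro i
      refine Fin.addCases (fun i => ?_) (fun i => ?_) i
      · rw [Fin.append_left]; exact h1 i
      · rw [Fin.append_right]; exact h4 i
    · rw [Fin.sum_univ_add, h2, h5]
      congr 1
      · exact Finset.sum_congr rfl fun i _ => by rw [Fin.append_left, Fin.append_left]
      · exact Finset.sum_congr rfl fun i _ => by rw [Fin.append_right, Fin.append_right]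
    · rw [Fin.sum_univ_add, h3, h6]
      congr 1
      · exact Finset.sum_congr rfl fun i _ => by rw [Fin.append_left, Fin.append_left]
      · exact Finset.sum_congr rfl fun i _ => by rw [Fin.append_right, Fin.append_right]

/-- The combinations with conjugate coefficients of vanishing combinations vanish. -/
lemma conj_sum_eq_zero (hI : InjectiveOnCycles W X) (j : ℕ) (n : ℕ) :
    ∀ (z : Fin n → X.Cycles) (c : Fin n → W.K), (∀ i, X.IsCyc j (z i)) →
      ∑ i, c i • W.cl X (z i) = 0 → ∑ i, τ (c i) • W.cl X (z i) = 0 := by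
  induction n with
  | zero => intro z c _ _; simp
  | succ n ih =>
    intro z c hz hc
    by_cases hind : ∀ r : Fin (n + 1) → ℚ, W.cl X (∑ i, r i • z i) = 0 → r = 0
    · have h1 := hI j (n + 1) z hz hind c hc
      rw [h1]
      simp
    push Not at hind
    obtain ⟨r, hr, hr0⟩ := hind
    obtain ⟨l, hl⟩ : ∃ l, r l ≠ 0 := by
      by_contra h0
      push Not at h0
      exact hr0 (funext h0)
    have hr' : ∑ i, (r i : W.K) • W.cl X (z i) = 0 := by
      rw [← hr, map_sum]
      exact Finset.sum_congr rfl fun i _ => (W.cl_smul _ _).symm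
    rw [Fin.sum_univ_succAbove _ l] at hr' hc ⊢
    have hrl : (r l : W.K) ≠ 0 := by exact_mod_cast hl
    have hzl : W.cl X (z l) = ∑ i, (-(r (l.succAbove i) : W.K) / r l) •
        W.cl X (z (l.succAbove i)) := by
      have h1 : (r l : W.K) • W.cl X (z l) =
          -∑ i, (r (l.succAbove i) : W.K) • W.cl X (z (l.succAbove i)) :=
        eq_neg_of_add_eq_zero_left hr'
      have h2 := congrArg (fun v => (r l : W.K)⁻¹ • v) h1
      beta_reduce at h2
      rw [smul_smul, inv_mul_cancel₀ hrl, one_smul] at h2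
      rw [h2, smul_neg, Finset.smul_sum, ← Finset.sum_neg_distrib]
      apply Finset.sum_congr rfl
      intro i _
      rw [smul_smul, ← neg_smul]
      congr 1
      field_simp
    have key := ih (fun i => z (l.succAbove i))
      (fun i => c (l.succAbove i) + c l * (-(r (l.succAbove i) : W.K) / r l))
      (fun i => hz _) ?_
    · rw [hzl, Finset.smul_sum, ← Finset.sum_add_distrib]
      rw [← key]
      apply Finset.sum_congr rfl
      intro i _
      rw [smul_smul, ← add_smul]
      congr 1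
      rw [map_add, map_mul, map_div₀, map_neg, map_ratCast, map_ratCast, add_comm]
    · rw [← hc]
      conv_rhs => rw [hzl, Finset.smul_sum, ← Finset.sum_add_distrib]
      apply Finset.sum_congr rfl
      intro i _
      rw [smul_smul, ← add_smul, add_comm]

/-- The conjugate of zero is zero. -/
lemma Cj.eq_zero (hI : InjectiveOnCycles W X) {a' : W.H X} (h : Cj W τ X 0 a') : a' = 0 := by
  have h1 : ∀ i, H914.proj (W.isInternal X) i a' = 0 := by
    intro i
    rcases Nat.even_or_odd' i with ⟨j, rfl | rfl⟩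
    · have h2 := h.proj j
      rw [map_zero] at h2
      obtain ⟨n, z, c, hz, e1, e2⟩ := h2.form
      rw [e2]
      exact conj_sum_eq_zero hI j n z c hz e1.symm
    · exact algS_proj_odd h.algS (by omega)
  have h2 := sum_proj (W.isInternal X) (N := 2 * X.dim + 1)
    (fun i hi => W.gr_eq_bot _ i (by omega))
  have h3 := congrArg (fun F => F a') h2
  beta_reduce at h3
  rw [LinearMap.sum_apply, Finset.sum_eq_zero (fun i _ => h1 i)] at h3
  exact h3.symm

lemma Cj.unique (hI : InjectiveOnCycles W X) {a a' a'' : W.H X} (h : Cj W τ X a a')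
    (h' : Cj W τ X a a'') : a' = a'' := by
  have h1 := h.sub h'
  rw [sub_self] at h1
  exact sub_eq_zero.1 (h1.eq_zero hI)

lemma Cj.symm {τ' : W.K →+* W.K} (hτ : ∀ c, τ' (τ c) = c) {a a' : W.H X}
    (h : Cj W τ X a a') : Cj W τ' X a' a := by
  induction h with
  | gen d j z hz =>
    have h1 := Cj.gen (W := W) (τ := τ') (τ d) j z hz
    rwa [hτ] at h1
  | zero => exact Cj.zero
  | add _ _ h1 h2 => exact h1.add h2

end Pool.Agent.H914
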