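import Pool.Agent.H914R2.StdDefs

/-!
# Cycles with coefficients in the coefficient field: definitions
-/

open CategoryTheory AlgebraicGeometry

universe u v

namespace Pool.Agent.H914

open VarClass Obj WeilCohomology

variable {k : Type u} [Field k] {𝒱 : VarClass k} {ops : CycleOps 𝒱}

/-- The `K`-span in `H(X)` of the classes of the cycles of codimension `q`, where `K` is the
coefficient field of the Weil cohomology theory (it is zero if `q` is negative). -/
def spanCycles (W : WeilCohomology.{u, v} ops) (X : 𝒱.Obj) (q : ℤ) : Submodule W.K (W.H X) :=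
  Submodule.span W.K {c | ∃ p : ℕ, (p : ℤ) = q ∧ ∃ z, X.IsCyc p z ∧ W.cl X z = c}

/-- The Lefschetz standard conjecture for `X` and the divisor `D`: the operator `Λ` is induced by
an algebraic cycle of codimension `dim X - 1` on `X × X` with rational coefficients. -/
def LefschetzB (W : WeilCohomology.{u, v} ops) (X : 𝒱.Obj) (D : X.Cycles) : Prop :=
  ∃ z, (X.prod X).IsCyc (X.dim - 1) z ∧ InducesLambda W X D z

/-- The operator from `⨁ H(Z s)` to `⨁ H(Y t)` with the matrix of correspondences `F`. -/
noncomputable def matrixOp (W : WeilCohomology.{u, v} ops) {m r : ℕ} {Z : Fin m → 𝒱.Obj}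
    {Y : Fin r → 𝒱.Obj} (F : ∀ s t, W.H ((Z s).prod (Y t))) :
    (∀ s, W.H (Z s)) →ₗ[W.K] (∀ t, W.H (Y t)) :=
  LinearMap.pi fun t => ∑ s, W.corr (F s t) ∘ₗ LinearMap.proj s

/-- There is an injective map from `⨁ H(Z s)(-a s)` to `⨁ H(Y t)(-b t)` which is given by a
matrix of `K`-linear combinations of algebraic correspondences (of the codimensions
`dim (Z s) + a s - b t` on `Z s × Y t`, so that it preserves the weights). -/
def EmbedsInto (W : WeilCohomology.{u, v} ops) {m r : ℕ} (Z : Fin m → 𝒱.Obj) (a : Fin m → ℤ)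
    (Y : Fin r → 𝒱.Obj) (b : Fin r → ℤ) : Prop :=
  ∃ F : ∀ s t, W.H ((Z s).prod (Y t)),
    (∀ s t, F s t ∈ spanCycles W ((Z s).prod (Y t)) ((Z s).dim + a s - b t)) ∧
    Function.Injective (matrixOp W F)

end Pool.Agent.H914
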