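import Pool.Agent.H914R2.Cyc
import Pool.Agent.H914R2.StdDefs
import Pool.Agent.H914R2.Core6

/-!
# The Kunneth standard conjecture and changes of the Weil cohomology theory
-/

open CategoryTheory AlgebraicGeometry Finset Polynomial

universe u v

namespace Pool.Agent.H914

open VarClass Obj WeilCohomology

variable {k : Type u} [Field k] {𝒱 : VarClass k} {ops : CycleOps 𝒱}

section

variable {X : 𝒱.Obj}

lemma gr_bot_of_le (W : WeilCohomology.{u, v} ops) (i : ℕ) (hi : 2 * X.dim + 1 ≤ i) :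
    W.gr X i = ⊥ := W.gr_eq_bot X i (by omega)

lemma realized_of_cyc {p : ℕ} {z : (X.prod X).Cycles} (hz : (X.prod X).IsCyc p z) :
    Realized.{u, v} ops X ((p : ℤ) - X.dim) (fun W => W.corr (W.cl _ z)) :=
  Or.inl ⟨p, by ring, z, hz, fun _ => rfl⟩

lemma relOp_mul {d e : ℤ} {Y Y' : ∀ W : WeilCohomology.{u, v} ops, Module.End W.K (W.H X)}
    (hY : Realized ops X d Y) (hY' : Realized ops X e Y') (hde : d + e = 0)
    (W₀ W : WeilCohomology.{u, v} ops) : relOp X W₀ W (Y W₀ * Y' W₀) (Y W * Y' W) :=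
  ⟨_, (hY.mul hY').cast hde, rfl, rfl⟩

lemma sum_eq_wt {W : WeilCohomology.{u, v} ops} {r : ℕ} {z w : Fin r → (X.prod X).Cycles}
    (h : IsWeightSum (W.gr X) X.dim (fun i => W.corr (W.cl (X.prod X) (z i)))
      (fun i => W.corr (W.cl (X.prod X) (w i)))) :
    ∑ i ∈ (univ : Finset (Fin r)), (W.corr (W.cl _ (z i)) * W.corr (W.cl _ (w i)) -
      W.corr (W.cl _ (w i)) * W.corr (W.cl _ (z i))) = wt (W.isInternal X) X.dim := by
  apply gr_ext (W.isInternal X)
  intro j a ha
  rw [wt, scal_apply _ _ ha, LinearMap.sum_apply]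
  refine (h j a ha).trans ?_
  unfold node
  push_cast
  rfl

/-- **Kunneth projectors and changes of the Weil cohomology theory.** -/
theorem kunneth_indep (W₀ : WeilCohomology.{u, v} ops) (h₀ : WeightIsCommutatorSum W₀ X) :
    ∃ P : ℕ → (X.prod X).Cycles, (∀ i, (X.prod X).IsCyc X.dim (P i)) ∧
      ∀ W : WeilCohomology.{u, v} ops,
        List.TFAE [
          ∀ i ≤ 2 * X.dim, InducesProjector W X i (P i),
          ∀ i, bettiNumber W X i = bettiNumber W₀ X i,
          ∑ i ∈ range (2 * X.dim + 1), bettiNumber W X i ≤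
              ∑ i ∈ range (2 * X.dim + 1), bettiNumber W₀ X i ∧
            ∑ i ∈ range (2 * X.dim + 1), ((i : ℤ) - X.dim) ^ 2 * bettiNumber W X i ≤
              ∑ i ∈ range (2 * X.dim + 1), ((i : ℤ) - X.dim) ^ 2 * bettiNumber W₀ X i] ∧
        (WeightIsCommutatorSum W X → ∀ i, bettiNumber W X i = bettiNumber W₀ X i) := by
  obtain ⟨r, p, q, z, w, hzw, hsum⟩ := h₀
  have hz : ∀ i, Realized.{u, v} ops X ((p i : ℤ) - X.dim) (fun W => W.corr (W.cl _ (z i))) :=
    fun i => realized_of_cyc (hzw i).2.1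
  have hw : ∀ i, Realized.{u, v} ops X ((q i : ℤ) - X.dim) (fun W => W.corr (W.cl _ (w i))) :=
    fun i => realized_of_cyc (hzw i).2.2
  have hpq : ∀ i, ((p i : ℤ) - X.dim) + ((q i : ℤ) - X.dim) = 0 := by
    intro i
    have := (hzw i).1
    omega
  have hx : Realized.{u, v} ops X 0 (fun W => ∑ i ∈ (univ : Finset (Fin r)),
      (W.corr (W.cl _ (z i)) * W.corr (W.cl _ (w i)) -
      W.corr (W.cl _ (w i)) * W.corr (W.cl _ (z i)))) := by
    apply Realized.sum
    intro i _
    apply Realized.sub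
    · exact ((hz i).mul (hw i)).cast (hpq i)
    · exact ((hw i).mul (hz i)).cast (by rw [add_comm]; exact hpq i)
  set N := ∑ i ∈ range (2 * X.dim + 1), bettiNumber W₀ X i + 1 with hN
  have hPi : ∀ i : ℕ, ∃ P : (X.prod X).Cycles, (X.prod X).IsCyc X.dim P ∧
      ∀ W : WeilCohomology.{u, v} ops, ev (∑ i ∈ (univ : Finset (Fin r)),
      (W.corr (W.cl _ (z i)) * W.corr (W.cl _ (w i)) -
      W.corr (W.cl _ (w i)) * W.corr (W.cl _ (z i)))) (herm X.dim N i) = W.corr (W.cl _ P) := by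
    intro i
    rcases hx.ev (herm X.dim N i) with ⟨m, hm, P, hP, hPW⟩ | ⟨h1, _⟩
    · obtain rfl : m = X.dim := by omega
      exact ⟨P, hP, hPW⟩
    · omega
  choose P hP hPW using hPi
  refine ⟨P, hP, fun W => ?_⟩
  have hR := relOp_pairRel X W₀ W
  have hR' : PairRel (W.isInternal X) (W₀.isInternal X) (fun y x => relOp X W₀ W x y) := by
    have := relOp_pairRel X W W₀
    have e : relOp X W W₀ = fun y x => relOp X W₀ W x y := by
      funext y x
      exact propext ⟨relOp_symm, relOp_symm⟩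
    rwa [e] at this
  have hnode : ∀ (W' : WeilCohomology.{u, v} ops), ∑ i ∈ range (2 * X.dim + 1),
      node X.dim i ^ 2 * (Module.finrank W'.K (W'.gr X i) : ℚ) =
      ((∑ i ∈ range (2 * X.dim + 1), ((i : ℤ) - X.dim) ^ 2 * (bettiNumber W' X i : ℤ) : ℤ) :
        ℚ) := by
    intro W'
    push_cast
    rfl
  have huz : ∀ (W' : WeilCohomology.{u, v} ops), ∀ i ∈ (univ : Finset (Fin r)),
      IsHom (W'.gr X) (2 * ((p i : ℤ) - X.dim)) (W'.corr (W'.cl _ (z i))) :=
    fun W' i _ => (hz i).isHom W'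
  have hzwR : ∀ i ∈ (univ : Finset (Fin r)), relOp X W₀ W
      (W₀.corr (W₀.cl _ (z i)) * W₀.corr (W₀.cl _ (w i)))
      (W.corr (W.cl _ (z i)) * W.corr (W.cl _ (w i))) :=
    fun i _ => relOp_mul (hz i) (hw i) (hpq i) W₀ W
  have hwzR : ∀ i ∈ (univ : Finset (Fin r)), relOp X W₀ W
      (W₀.corr (W₀.cl _ (w i)) * W₀.corr (W₀.cl _ (z i)))
      (W.corr (W.cl _ (w i)) * W.corr (W.cl _ (z i))) :=
    fun i _ => relOp_mul (hw i) (hz i) (by rw [add_comm]; exact hpq i) W₀ W
  have h31 : (∑ i ∈ range (2 * X.dim + 1), bettiNumber W X i ≤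
            ∑ i ∈ range (2 * X.dim + 1), bettiNumber W₀ X i ∧
          ∑ i ∈ range (2 * X.dim + 1), ((i : ℤ) - X.dim) ^ 2 * bettiNumber W X i ≤
            ∑ i ∈ range (2 * X.dim + 1), ((i : ℤ) - X.dim) ^ 2 * bettiNumber W₀ X i) →
      (∀ i ≤ 2 * X.dim, InducesProjector W X i (P i)) ∧
        ∀ i, bettiNumber W X i = bettiNumber W₀ X i := by
    rintro ⟨D1, D2⟩
    have key := compare_proj X.dim hR (gr_bot_of_le W₀) (gr_bot_of_le W) univ
      (fun i => (p i : ℤ) - X.dim) (fun i => W₀.corr (W₀.cl _ (z i)))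
      (fun i => W₀.corr (W₀.cl _ (w i))) (fun i => W.corr (W.cl _ (z i)))
      (fun i => W.corr (W.cl _ (w i))) (huz W₀) (huz W) hzwR hwzR (sum_eq_wt hsum) D1
      (by rw [hnode, hnode]; exact_mod_cast D2) (N := N) (by omega)
      (by rw [hN]; exact Nat.le_succ _)
    refine ⟨fun i hi => ?_, fun i => ?_⟩
    · intro j a ha
      rw [← hPW i W, (key i (Finset.mem_range.2 (by omega))).1, proj, scal_apply _ _ ha]
      split_ifs <;> simp
    · by_cases hi : i < 2 * X.dim + 1
      · exact (key i (Finset.mem_range.2 hi)).2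
      · unfold bettiNumber
        rw [gr_bot_of_le W i (by omega), gr_bot_of_le W₀ i (by omega)]
        simp
  have h23 : (∀ i, bettiNumber W X i = bettiNumber W₀ X i) →
      (∑ i ∈ range (2 * X.dim + 1), bettiNumber W X i ≤
            ∑ i ∈ range (2 * X.dim + 1), bettiNumber W₀ X i ∧
          ∑ i ∈ range (2 * X.dim + 1), ((i : ℤ) - X.dim) ^ 2 * bettiNumber W X i ≤
            ∑ i ∈ range (2 * X.dim + 1), ((i : ℤ) - X.dim) ^ 2 * bettiNumber W₀ X i) :=
    fun h => ⟨(Finset.sum_congr rfl (fun i _ => h i)).le,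
      (Finset.sum_congr rfl (fun i _ => by rw [h i])).le⟩
  -- the projectors in the theory `W₀` itself
  have hP0 : ∀ i ∈ range (2 * X.dim + 1), W₀.corr (W₀.cl _ (P i)) = proj (W₀.isInternal X) i := by
    intro i hi
    rw [← hPW i W₀, sum_eq_wt hsum, ev_wt_herm (W₀.isInternal X) (gr_bot_of_le W₀) (by omega) hi]
  have h12 : (∀ i ≤ 2 * X.dim, InducesProjector W X i (P i)) →
      ∀ i, bettiNumber W X i = bettiNumber W₀ X i := by
    intro h i
    by_cases hi : i < 2 * X.dim + 1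
    · have e1 : W.corr (W.cl _ (P i)) = proj (W.isInternal X) i := by
        apply gr_ext (W.isInternal X)
        intro j a ha
        rw [h i (by omega) j a ha, proj, scal_apply _ _ ha]
        split_ifs <;> simp
      have hrel : relOp X W₀ W (W₀.corr (W₀.cl _ (P i))) (W.corr (W.cl _ (P i))) :=
        ⟨_, (realized_of_cyc (hP i)).cast (sub_self _), rfl, rfl⟩
      rw [e1, hP0 i (Finset.mem_range.2 hi)] at hrel
      obtain ⟨c, hc₀, hc⟩ := hR.tr hrel
      rw [par_mul_proj, map_smul, trace_proj, smul_eq_mul] at hc₀ hc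
      have hc₀' : c = (-1) ^ i * (bettiNumber W₀ X i : ℚ) := by
        have : (c : W₀.K) = (((-1) ^ i * (bettiNumber W₀ X i : ℚ) : ℚ) : W₀.K) := by
          rw [← hc₀]; push_cast; rfl
        exact_mod_cast this
      have hc' : c = (-1) ^ i * (bettiNumber W X i : ℚ) := by
        have : (c : W.K) = (((-1) ^ i * (bettiNumber W X i : ℚ) : ℚ) : W.K) := by
          rw [← hc]; push_cast; rfl
        exact_mod_cast this
      have h1 : ((-1 : ℚ) ^ i) * (bettiNumber W X i : ℚ) =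
          ((-1 : ℚ) ^ i) * (bettiNumber W₀ X i : ℚ) := by rw [← hc', hc₀']
      have h2 : ((-1 : ℚ) ^ i) ≠ 0 := pow_ne_zero _ (by norm_num)
      exact_mod_cast mul_left_cancel₀ h2 h1
    · unfold bettiNumber
      rw [gr_bot_of_le W i (by omega), gr_bot_of_le W₀ i (by omega)]
      simp
  refine ⟨?_, ?_⟩
  · tfae_have 1 → 2 := h12
    tfae_have 2 → 3 := h23
    tfae_have 3 → 1 := fun h => (h31 h).1
    tfae_finish
  · rintro ⟨r', p', q', z', w', hzw', hsum'⟩
    have hz' : ∀ i, Realized.{u, v} ops X ((p' i : ℤ) - X.dim)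
        (fun W => W.corr (W.cl _ (z' i))) := fun i => realized_of_cyc (hzw' i).2.1
    have hw' : ∀ i, Realized.{u, v} ops X ((q' i : ℤ) - X.dim)
        (fun W => W.corr (W.cl _ (w' i))) := fun i => realized_of_cyc (hzw' i).2.2
    have hpq' : ∀ i, ((p' i : ℤ) - X.dim) + ((q' i : ℤ) - X.dim) = 0 := by
      intro i
      have := (hzw' i).1
      omega
    have key := betti_eq_gen (n := X.dim) hR hR' (gr_bot_of_le W₀) (gr_bot_of_le W) univ
      (fun i => (p i : ℤ) - X.dim) (fun i => W₀.corr (W₀.cl _ (z i)))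
      (fun i => W₀.corr (W₀.cl _ (w i))) (fun i => W.corr (W.cl _ (z i)))
      (fun i => W.corr (W.cl _ (w i))) (huz W₀) (huz W) hzwR hwzR (sum_eq_wt hsum) univ
      (fun i => (p' i : ℤ) - X.dim) (fun i => W₀.corr (W₀.cl _ (z' i)))
      (fun i => W₀.corr (W₀.cl _ (w' i))) (fun i => W.corr (W.cl _ (z' i)))
      (fun i => W.corr (W.cl _ (w' i))) (fun i _ => (hz' i).isHom W₀)
      (fun i _ => (hz' i).isHom W) (fun i _ => relOp_mul (hz' i) (hw' i) (hpq' i) W₀ W)
      (fun i _ => relOp_mul (hw' i) (hz' i) (by rw [add_comm]; exact hpq' i) W₀ W)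
      (sum_eq_wt hsum')
    apply (h31 _).2
    constructor
    · have h1 := finrank_eq_sum (W.isInternal X) (gr_bot_of_le W)
      have h2 := finrank_eq_sum (W₀.isInternal X) (gr_bot_of_le W₀)
      unfold bettiNumber
      rw [← h1, ← h2, key.1]
    · have h1 := key.2
      rw [hnode, hnode] at h1
      have h2 : (∑ i ∈ range (2 * X.dim + 1), ((i : ℤ) - X.dim) ^ 2 * (bettiNumber W X i : ℤ)) =
          ∑ i ∈ range (2 * X.dim + 1), ((i : ℤ) - X.dim) ^ 2 * (bettiNumber W₀ X i : ℤ) := by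
        exact_mod_cast h1
      exact h2.le

end

end Pool.Agent.H914
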