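import Mathlib

/-!
# Dual families and rational pairings
-/

open Finset TensorProduct Polynomial

namespace Pool.Agent.H914

section Dual

variable {K : Type*} [Field K] {V : Type*} [AddCommGroup V] [Module K V] [Module.Finite K V]

/-- Dual bases for two subspaces in perfect duality. -/
lemma exists_dual_families (B : V →ₗ[K] V →ₗ[K] K) (U U' : Submodule K V)
    (h : ∀ u ∈ U, (∀ u' ∈ U', B u u' = 0) → u = 0)
    (h' : ∀ u' ∈ U', (∀ u ∈ U, B u u' = 0) → u' = 0) :
    ∃ (N : ℕ) (c c' : Fin N → V), (∀ i, c i ∈ U) ∧ (∀ i, c' i ∈ U') ∧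
      (∀ i j, B (c i) (c' j) = if i = j then 1 else 0) ∧
      (∀ u ∈ U, u = ∑ i, B u (c' i) • c i) ∧ (∀ u' ∈ U', u' = ∑ i, B (c i) u' • c' i) := by
  classical
  set Φ : U' →ₗ[K] Module.Dual K U :=
    (LinearMap.lcomp K K U.subtype) ∘ₗ B.flip ∘ₗ U'.subtype with hΦ
  have hΦa : ∀ u' u, Φ u' u = B u u' := fun u' u => rfl
  set Ψ : U →ₗ[K] Module.Dual K U' :=
    (LinearMap.lcomp K K U'.subtype) ∘ₗ B ∘ₗ U.subtype with hΨ
  have hΨa : ∀ u u', Ψ u u' = B u u' := fun u u' => rfl
  have hΦi : Function.Injective Φ := by
    rw [← LinearMap.ker_eq_bot, LinearMap.ker_eq_bot']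
    intro u' hu'
    apply Subtype.ext
    apply h' u' u'.2
    intro u hu
    rw [← hΦa u' ⟨u, hu⟩, hu']; rfl
  have hΨi : Function.Injective Ψ := by
    rw [← LinearMap.ker_eq_bot, LinearMap.ker_eq_bot']
    intro u hu
    apply Subtype.ext
    apply h u u.2
    intro u' hu'
    rw [← hΨa u ⟨u', hu'⟩, hu]; rfl
  have hdim : Module.finrank K U' = Module.finrank K (Module.Dual K U) := by
    rw [Subspace.dual_finrank_eq]
    apply le_antisymm
    · have := LinearMap.finrank_le_finrank_of_injective hΦi
      rwa [Subspace.dual_finrank_eq] at this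
    · have := LinearMap.finrank_le_finrank_of_injective hΨi
      rwa [Subspace.dual_finrank_eq] at this
  have hΦb : Function.Bijective Φ :=
    ⟨hΦi, (LinearMap.injective_iff_surjective_of_finrank_eq_finrank hdim).1 hΦi⟩
  set b := Module.finBasis K U with hb
  choose c' hc' using fun i => hΦb.2 (b.coord i)
  have hpair : ∀ (u : U) i, B u (c' i) = b.coord i u := fun u i => by
    rw [← hΦa, hc']
  refine ⟨_, fun i => b i, fun i => c' i, fun i => (b i).2, fun i => (c' i).2, ?_, ?_, ?_⟩
  · intro i j
    rw [hpair, Module.Basis.coord_apply, Module.Basis.repr_self, Finsupp.single_apply]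
  · intro u hu
    have h1 := b.sum_repr ⟨u, hu⟩
    have h2 := congrArg U.subtype h1
    rw [map_sum] at h2
    simp only [map_smul, Submodule.subtype_apply] at h2
    rw [← h2]
    apply Finset.sum_congr rfl
    intro i _
    rw [h2, hpair ⟨u, hu⟩ i]
    rfl
  · intro u' hu'
    have h1 : (⟨u', hu'⟩ : U') = ∑ i, B (b i) u' • c' i := by
      apply hΦi
      rw [map_sum]
      apply b.ext
      intro j
      rw [LinearMap.sum_apply, hΦa, Finset.sum_eq_single j]
      · rw [map_smul, LinearMap.smul_apply, hc', Module.Basis.coord_apply,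
          Module.Basis.repr_self, Finsupp.single_eq_same, smul_eq_mul, mul_one]
      · intro i _ hij
        rw [map_smul, LinearMap.smul_apply, hc', Module.Basis.coord_apply,
          Module.Basis.repr_self, Finsupp.single_apply, if_neg (Ne.symm hij), smul_zero]
      · intro h0; exact absurd (Finset.mem_univ j) h0
    have h2 := congrArg U'.subtype h1
    rw [map_sum] at h2
    simpa using h2

/-- A rational matrix whose left kernel is trivial over the rational numbers has trivial left
kernel over all fields of characteristic zero. -/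
lemma rat_kernel {K : Type*} [Field K] [CharZero K] {r s : ℕ} (M : Matrix (Fin r) (Fin s) ℚ)
    (h : ∀ v : Fin r → ℚ, Matrix.vecMul v M = 0 → v = 0) (x : Fin r → K)
    (hx : ∀ j, ∑ i, x i * (M i j : K) = 0) : x = 0 := by
  classical
  have hinj : LinearMap.ker (Matrix.vecMulLinear M) = ⊥ := by
    rw [LinearMap.ker_eq_bot']
    intro v hv
    exact h v hv
  obtain ⟨g, hg⟩ := (Matrix.vecMulLinear M).exists_leftInverse_of_injective hinj
  -- the matrix of the left inverse
  set N : Matrix (Fin s) (Fin r) ℚ := Matrix.of (fun j i => g (Pi.single j 1) i) with hN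
  have hMN : M * N = 1 := by
    ext i i'
    rw [Matrix.mul_apply]
    have h1 := congrArg (fun F => F (Pi.single i 1) i') hg
    simp only [LinearMap.comp_apply, Matrix.vecMulLinear_apply, Matrix.single_one_vecMul,
      LinearMap.id_apply] at h1
    have h2 : M.row i = ∑ j, M i j • (Pi.single j (1 : ℚ) : Fin s → ℚ) := by
      ext j
      rw [Finset.sum_apply, Finset.sum_eq_single j]
      · simp [Matrix.row]
      · intro j' _ hj'
        simp [Ne.symm hj']
      · intro h0; exact absurd (Finset.mem_univ j) h0
    rw [h2, map_sum, Finset.sum_apply] at h1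
    simp only [map_smul, Pi.smul_apply, smul_eq_mul] at h1
    rw [Matrix.one_apply]
    simp only [hN, Matrix.of_apply]
    rw [h1, Pi.single_apply]
    simp only [eq_comm]
  funext i'
  have h3 : ∑ j, (∑ i, x i * (M i j : K)) * (N j i' : K) = 0 := by
    apply Finset.sum_eq_zero
    intro j _
    rw [hx, zero_mul]
  simp only [Finset.sum_mul] at h3
  rw [Finset.sum_comm] at h3
  have h4 : ∀ i, ∑ j, x i * (M i j : K) * (N j i' : K) = x i * (if i = i' then 1 else 0) := by
    intro i
    have h5 := congrFun (congrFun hMN i) i'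
    rw [Matrix.mul_apply, Matrix.one_apply] at h5
    have h6 : ((∑ j, M i j * N j i' : ℚ) : K) = if i = i' then 1 else 0 := by
      rw [h5]; split_ifs <;> simp
    rw [← h6]
    push_cast
    rw [Finset.mul_sum]
    apply Finset.sum_congr rfl
    intro j _
    ring
  rw [Finset.sum_congr rfl (fun i _ => h4 i)] at h3
  simpa using h3

/-- A subspace which is spanned by a set closed under rational linear combinations on which the
pairing with another set takes rational values: nondegeneracy on the set implies nondegeneracy on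
the span. -/
lemma span_nondeg [CharZero K] (B : V →ₗ[K] V →ₗ[K] K) (S S' : Set V) (h0 : (0 : V) ∈ S)
    (hadd : ∀ a ∈ S, ∀ b ∈ S, a + b ∈ S) (hsmul : ∀ q : ℚ, ∀ a ∈ S, (q : K) • a ∈ S)
    (hrat : ∀ a ∈ S, ∀ b ∈ S', ∃ s : ℚ, B a b = s)
    (hnd : ∀ a ∈ S, (∀ b ∈ S', B a b = 0) → a = 0) (u : V) (hu : u ∈ Submodule.span K S)
    (hu0 : ∀ b ∈ S', B u b = 0) : u = 0 := by
  classical
  obtain ⟨T, hTS, hTspan, hTli⟩ := exists_linearIndependent K S
  obtain ⟨T', hTS', hTspan', hTli'⟩ := exists_linearIndependent K S'
  have hfin : T.Finite := hTli.setFinite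
  have hfin' : T'.Finite := hTli'.setFinite
  have := hfin.fintype
  have := hfin'.fintype
  set e := Fintype.equivFin T with he
  set e' := Fintype.equivFin T' with he'
  set c : Fin (Fintype.card T) → V := fun i => (e.symm i : V) with hc
  set c' : Fin (Fintype.card T') → V := fun i => (e'.symm i : V) with hc'
  have hcS : ∀ i, c i ∈ S := fun i => hTS (e.symm i).2
  have hcS' : ∀ i, c' i ∈ S' := fun i => hTS' (e'.symm i).2
  have hli : LinearIndependent K c := hTli.comp _ e.symm.injective
  have hrange : Set.range c = T := by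
    rw [hc]
    ext v
    constructor
    · rintro ⟨i, rfl⟩; exact (e.symm i).2
    · intro hv; exact ⟨e ⟨v, hv⟩, by simp⟩
  have hrange' : Set.range c' = T' := by
    rw [hc']
    ext v
    constructor
    · rintro ⟨i, rfl⟩; exact (e'.symm i).2
    · intro hv; exact ⟨e' ⟨v, hv⟩, by simp⟩
  choose M hM using fun i j => hrat (c i) (hcS i) (c' j) (hcS' j)
  rw [← hTspan, ← hrange] at hu
  obtain ⟨x, hx⟩ := (Submodule.mem_span_range_iff_exists_fun K).1 hu
  have hsum : ∀ (s : Finset (Fin (Fintype.card T))) (v : Fin (Fintype.card T) → ℚ),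
      ∑ i ∈ s, (v i : K) • c i ∈ S := by
    intro s v
    induction s using Finset.induction_on with
    | empty => simpa using h0
    | insert a s ha ih =>
      rw [Finset.sum_insert ha]
      exact hadd _ (hsmul _ _ (hcS a)) _ ih
  have hx0 : x = 0 := by
    apply rat_kernel (Matrix.of M)
    · intro v hv
      have h1 : ∑ i, (v i : K) • c i = 0 := by
        apply hnd _ (hsum _ v)
        intro b hb
        have hb' : b ∈ Submodule.span K (Set.range c') := by
          rw [hrange', hTspan']; exact Submodule.subset_span hb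
        clear hb
        induction hb' using Submodule.span_induction with
        | mem b hb =>
          obtain ⟨j, rfl⟩ := hb
          have h2 := congrFun hv j
          rw [Matrix.vecMul, dotProduct, Pi.zero_apply] at h2
          rw [map_sum, LinearMap.sum_apply]
          have h3 : ∀ i, B ((v i : K) • c i) (c' j) = ((v i * M i j : ℚ) : K) := by
            intro i
            rw [map_smul, LinearMap.smul_apply, hM, smul_eq_mul]
            push_cast; rfl
          rw [Finset.sum_congr rfl (fun i _ => h3 i), ← Rat.cast_sum]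
          have h4 : ∑ i, v i * M i j = 0 := h2
          rw [h4, Rat.cast_zero]
        | zero => rw [map_zero]
        | add a b _ _ ha hb => rw [map_add, ha, hb, add_zero]
        | smul q a _ ha => rw [map_smul, ha, smul_zero]
      have h5 := Fintype.linearIndependent_iff.1 hli _ h1
      funext i
      have := h5 i
      exact_mod_cast this
    · intro j
      have h1 := hu0 (c' j) (hcS' j)
      rw [← hx, map_sum, LinearMap.sum_apply] at h1
      rw [← h1]
      apply Finset.sum_congr rfl
      intro i _
      rw [map_smul, LinearMap.smul_apply, hM, smul_eq_mul]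
      rfl
  rw [← hx, hx0]
  simp

end Dual

end Pool.Agent.H914
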