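import Pool.Agent.H914R2.Word

/-!
# The standard model of a Lefschetz pair with given Betti numbers
-/

open Polynomial Finset

namespace Pool.Agent.H914

namespace Model

variable (n : ℕ) (p : ℕ → ℕ)

/-- The index set of the model: a vector for each position `j ∈ {0, …, n - i}` in each of the
`p i` chains starting in degree `i ≤ n`. -/
abbrev Idx : Type := Σ c : (Σ i : Fin (n + 1), Fin (p i)), Fin (n - c.1 + 1)

variable {n p}

/-- The degree of a basis vector. -/
def deg (b : Idx n p) : ℕ := b.1.1 + 2 * b.2

variable (n p)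
variable (K : Type*) [Field K]

/-- The underlying space. -/
abbrev V : Type _ := Idx n p → K

/-- The grading. -/
def gr (m : ℕ) : Submodule K (V n p K) where
  carrier := {f | ∀ b, f b ≠ 0 → deg b = m}
  add_mem' := by
    intro f g hf hg b hb
    by_cases h : f b = 0
    · apply hg
      intro h'
      apply hb
      rw [Pi.add_apply, h, h', add_zero]
    · exact hf b h
  zero_mem' := by intro b hb; exact absurd rfl hb
  smul_mem' := by
    intro c f hf b hb
    apply hf
    intro h
    apply hb
    rw [Pi.smul_apply, h, smul_zero]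

lemma mem_gr {m : ℕ} {f : V n p K} : f ∈ gr n p K m ↔ ∀ b, f b ≠ 0 → deg b = m := Iff.rfl

lemma isInternal : DirectSum.IsInternal (gr n p K) := by
  classical
  constructor
  · -- injectivity
    have key : ∀ b : Idx n p, (LinearMap.proj b : V n p K →ₗ[K] K) ∘ₗ
        DirectSum.coeLinearMap (gr n p K) = (LinearMap.proj b) ∘ₗ (gr n p K (deg b)).subtype ∘ₗ
          DirectSum.component K ℕ (fun i => gr n p K i) (deg b) := by
      intro b
      apply DirectSum.linearMap_ext
      intro m
      apply LinearMap.ext
      intro x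
      simp only [LinearMap.comp_apply, DirectSum.coeLinearMap_lof, LinearMap.proj_apply,
        Submodule.subtype_apply]
      by_cases hm : m = deg b
      · subst hm
        rw [DirectSum.component.lof_self]
      · rw [DirectSum.component.of, dif_neg hm]
        by_contra h
        exact hm (x.2 b h).symm
    intro x y hxy
    apply DFinsupp.ext
    intro m
    apply Subtype.ext
    funext b
    by_cases hm : deg b = m
    · subst hm
      have h1 := congrArg (fun F => F x) (key b)
      have h2 := congrArg (fun F => F y) (key b)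
      simp only [LinearMap.comp_apply] at h1 h2
      have h3 : DirectSum.coeLinearMap (gr n p K) x = DirectSum.coeLinearMap (gr n p K) y := hxy
      rw [h3] at h1
      exact h1.symm.trans h2
    · have h1 : ((x m : gr n p K m) : V n p K) b = 0 := by
        by_contra h
        exact hm ((x m).2 b h)
      have h2 : ((y m : gr n p K m) : V n p K) b = 0 := by
        by_contra h
        exact hm ((y m).2 b h)
      rw [h1, h2]
  · intro f
    have h1 : f ∈ LinearMap.range (DirectSum.coeLinearMap (gr n p K)) := by
      rw [DirectSum.range_coeLinearMap]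
      have : f = ∑ b, Pi.single b (f b) := (Finset.univ_sum_single f).symm
      rw [this]
      apply Submodule.sum_mem
      intro b _
      apply Submodule.mem_iSup_of_mem (deg b)
      intro b' hb'
      by_cases h : b' = b
      · rw [h]
      · exact absurd (Pi.single_eq_of_ne h _) hb'
    obtain ⟨x, hx⟩ := h1
    exact ⟨x, hx⟩

/-- The raising operator. -/
def L : Module.End K (V n p K) where
  toFun f b := if h : 0 < (b.2 : ℕ) then f ⟨b.1, ⟨b.2 - 1, by omega⟩⟩ else 0
  map_add' f g := by
    funext b
    simp only [Pi.add_apply]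
    split_ifs <;> simp
  map_smul' c f := by
    funext b
    simp only [Pi.smul_apply, RingHom.id_apply]
    split_ifs <;> simp

/-- The lowering operator. -/
def Lam : Module.End K (V n p K) where
  toFun f b := if h : (b.2 : ℕ) < n - b.1.1 then f ⟨b.1, ⟨b.2 + 1, by omega⟩⟩ else 0
  map_add' f g := by
    funext b
    simp only [Pi.add_apply]
    split_ifs <;> simp
  map_smul' c f := by
    funext b
    simp only [Pi.smul_apply, RingHom.id_apply]
    split_ifs <;> simp

variable {n p K}

/-- The coefficients of a vector, extended by zero. -/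
def co (f : V n p K) (c : Σ i : Fin (n + 1), Fin (p i)) (j : ℕ) : K :=
  if h : j < n - c.1 + 1 then f ⟨c, ⟨j, h⟩⟩ else 0

lemma ext_co {f g : V n p K} (h : ∀ c, ∀ j ≤ n - c.1, co f c j = co g c j) : f = g := by
  funext b
  obtain ⟨c, j⟩ := b
  have := h c j (by omega)
  unfold co at this
  rw [dif_pos j.2, dif_pos j.2] at this
  exact this

lemma co_eq_zero (f : V n p K) (c) {j : ℕ} (hj : n - c.1 < j) : co f c j = 0 := by
  unfold co
  rw [dif_neg (by omega)]

lemma mem_gr_co {m : ℕ} {f : V n p K} :
    f ∈ gr n p K m ↔ ∀ c j, co f c j ≠ 0 → (c.1 : ℕ) + 2 * j = m := by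
  rw [mem_gr]
  constructor
  · intro h c j hj
    unfold co at hj
    split_ifs at hj with h1
    · exact h _ hj
    · exact absurd rfl hj
  · intro h b hb
    apply h b.1 b.2
    unfold co
    rw [dif_pos b.2.2]
    exact hb

lemma co_L (f : V n p K) (c) (j : ℕ) :
    co (L n p K f) c j = if 0 < j ∧ j ≤ n - c.1 then co f c (j - 1) else 0 := by
  by_cases hj : j ≤ n - c.1
  · by_cases h0 : 0 < j
    · rw [if_pos ⟨h0, hj⟩]
      unfold co
      rw [dif_pos (by omega), dif_pos (by omega)]
      simp only [L, LinearMap.coe_mk, AddHom.coe_mk]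
      rw [dif_pos h0]
    · rw [if_neg (by tauto)]
      unfold co
      rw [dif_pos (by omega)]
      simp only [L, LinearMap.coe_mk, AddHom.coe_mk]
      rw [dif_neg h0]
  · rw [if_neg (by tauto), co_eq_zero _ _ (by omega)]

lemma co_Lam (f : V n p K) (c) (j : ℕ) : co (Lam n p K f) c j = co f c (j + 1) := by
  by_cases hj : j < n - c.1
  · unfold co
    rw [dif_pos (by omega), dif_pos (by omega)]
    simp only [Lam, LinearMap.coe_mk, AddHom.coe_mk]
    rw [dif_pos hj]
  · rw [co_eq_zero f c (by omega)]
    unfold co
    by_cases hj2 : j < n - c.1 + 1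
    · rw [dif_pos hj2]
      simp only [Lam, LinearMap.coe_mk, AddHom.coe_mk]
      rw [dif_neg hj]
    · rw [dif_neg hj2]

lemma co_L_pow (f : V n p K) (r : ℕ) : ∀ (c) (j : ℕ),
    co ((L n p K ^ r) f) c j = if r ≤ j ∧ j ≤ n - c.1 then co f c (j - r) else 0 := by
  induction r with
  | zero =>
    intro c j
    by_cases hj : j ≤ n - c.1
    · rw [if_pos ⟨by omega, hj⟩]; simp
    · rw [if_neg (by tauto)]
      simpa using co_eq_zero f c (by omega)
  | succ r ih =>
    intro c j
    rw [pow_succ', Module.End.mul_apply, co_L]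
    by_cases h : 0 < j ∧ j ≤ n - c.1
    · rw [if_pos h, ih]
      by_cases h2 : r + 1 ≤ j
      · rw [if_pos ⟨by omega, by omega⟩, if_pos ⟨h2, h.2⟩, show j - 1 - r = j - (r + 1) by omega]
      · rw [if_neg (by omega), if_neg (by omega)]
    · rw [if_neg h, if_neg (by omega)]

lemma co_Lam_pow (f : V n p K) (r : ℕ) : ∀ (c) (j : ℕ),
    co ((Lam n p K ^ r) f) c j = co f c (j + r) := by
  induction r with
  | zero => intro c j; simp
  | succ r ih =>
    intro c j
    rw [pow_succ', Module.End.mul_apply, co_Lam, ih, show j + 1 + r = j + (r + 1) by ring]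

lemma bot (m : ℕ) (hm : 2 * n + 1 ≤ m) : gr n p K m = ⊥ := by
  rw [eq_bot_iff]
  intro f hf
  rw [Submodule.mem_bot]
  funext b
  by_contra h
  have := hf b h
  unfold deg at this
  have h1 := b.2.2
  have h2 := b.1.1.2
  omega

lemma isHom_L : IsHom (gr n p K) 2 (L n p K) := by
  intro i f hf
  by_cases hi : 0 ≤ i
  · lift i to ℕ using hi
    rw [grZ_natCast] at hf
    rw [show (i : ℤ) + 2 = ((i + 2 : ℕ) : ℤ) by push_cast; ring, grZ_natCast]
    rw [mem_gr_co] at hf ⊢
    intro c j hj
    rw [co_L] at hj
    split_ifs at hj with h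
    · have := hf c _ hj
      omega
    · exact absurd rfl hj
  · rw [grZ_of_neg (by omega)] at hf
    rw [(Submodule.mem_bot _).1 hf, map_zero]
    exact Submodule.zero_mem _

lemma isHom_Lam : IsHom (gr n p K) (-2) (Lam n p K) := by
  intro i f hf
  by_cases hi : 0 ≤ i
  · lift i to ℕ using hi
    rw [grZ_natCast] at hf
    rw [mem_gr_co] at hf
    by_cases h2 : 2 ≤ i
    · rw [show (i : ℤ) + -2 = ((i - 2 : ℕ) : ℤ) by omega, grZ_natCast, mem_gr_co]
      intro c j hj
      rw [co_Lam] at hj
      have := hf c _ hj
      omega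
    · have : Lam n p K f = 0 := by
        apply ext_co
        intro c j _
        rw [co_Lam]
        by_contra h
        have h3 : co (0 : V n p K) c j = 0 := by unfold co; split_ifs <;> rfl
        rw [h3] at h
        have := hf c _ h
        omega
      rw [this]
      exact Submodule.zero_mem _
  · rw [grZ_of_neg (by omega)] at hf
    rw [(Submodule.mem_bot _).1 hf, map_zero]
    exact Submodule.zero_mem _

lemma co_zero (c) (j : ℕ) : co (0 : V n p K) c j = 0 := by unfold co; split_ifs <;> rfl

lemma hardLef : HardLef (gr n p K) n (L n p K) := by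
  intro i hi
  constructor
  · intro f hf h0
    rw [mem_gr_co] at hf
    apply ext_co
    intro c j hj
    rw [co_zero]
    by_contra h
    have h1 := hf c j h
    have h2 : co ((L n p K ^ (n - i)) f) c (j + (n - i)) = 0 := by rw [h0, co_zero]
    rw [co_L_pow, if_pos ⟨by omega, by omega⟩, show j + (n - i) - (n - i) = j by omega] at h2
    exact h h2
  · intro g hg
    rw [mem_gr_co] at hg
    refine ⟨(Lam n p K ^ (n - i)) g, ?_, ?_⟩
    · rw [mem_gr_co]
      intro c j hj
      rw [co_Lam_pow] at hj
      have := hg c _ hj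
      omega
    · apply ext_co
      intro c j hj
      rw [co_L_pow]
      by_cases h : n - i ≤ j
      · rw [if_pos ⟨h, hj⟩, co_Lam_pow, show j - (n - i) + (n - i) = j by omega]
      · rw [if_neg (by omega)]
        by_contra h3
        have := hg c j (Ne.symm h3)
        have := c.1.2
        omega

lemma isLam : IsLam (gr n p K) n (L n p K) (Lam n p K) := by
  intro i hi f hf hprim
  rw [mem_gr_co] at hf
  have key : ∀ c j, co f c j ≠ 0 → j = 0 := by
    intro c j h
    by_contra h0
    have h1 := hf c j h
    have h2 : co ((L n p K ^ (n - i + 1)) f) c (j + (n - i + 1)) = 0 := by rw [hprim, co_zero]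
    rw [co_L_pow, if_pos ⟨by omega, by omega⟩, show j + (n - i + 1) - (n - i + 1) = j by omega]
      at h2
    exact h h2
  constructor
  · apply ext_co
    intro c j _
    rw [co_Lam, co_zero]
    by_contra h
    have := key c _ h
    omega
  · intro r hr
    apply ext_co
    intro c j hj
    rw [co_Lam, co_L_pow, co_L_pow]
    by_cases h : r ≤ j
    · have hr2 : r ≤ j ∧ j ≤ n - c.1 := ⟨h, hj⟩
      by_cases h2 : j + 1 ≤ n - c.1
      · have hr1 : r + 1 ≤ j + 1 ∧ j + 1 ≤ n - c.1 := ⟨by omega, h2⟩
        rw [if_pos hr1, if_pos hr2, show j + 1 - (r + 1) = j - r by omega]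
      · have hr1 : ¬ (r + 1 ≤ j + 1 ∧ j + 1 ≤ n - c.1) := by omega
        rw [if_neg hr1, if_pos hr2]
        by_contra h3
        have h4 := key c _ (Ne.symm h3)
        have h5 := hf c _ (Ne.symm h3)
        omega
    · have hr1 : ¬ (r + 1 ≤ j + 1 ∧ j + 1 ≤ n - c.1) := by omega
      have hr2 : ¬ (r ≤ j ∧ j ≤ n - c.1) := by omega
      rw [if_neg hr1, if_neg hr2]

/-- The dimension of the graded pieces of the model. -/
lemma finrank_gr (m : ℕ) : Module.finrank K (gr n p K m) =
    ∑ i ∈ range (n + 1), if i ≤ m ∧ m ≤ 2 * n - i ∧ Even (m - i) then p i else 0 := by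
  classical
  have e : gr n p K m ≃ₗ[K] ({b : Idx n p // deg b = m} → K) :=
    { toFun := fun f b => (f : V n p K) b
      map_add' := fun _ _ => rfl
      map_smul' := fun _ _ => rfl
      invFun := fun g => ⟨fun b => if h : deg b = m then g ⟨b, h⟩ else 0, by
        intro b hb
        by_contra h
        apply hb
        simp only [dif_neg h]⟩
      left_inv := by
        intro f
        apply Subtype.ext
        funext b
        by_cases h : deg b = m
        · simp only [dif_pos h]
        · simp only [dif_neg h]
          by_contra h'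
          exact h (f.2 b (Ne.symm h'))
      right_inv := by
        intro g
        funext b
        simp only [dif_pos b.2] }
  rw [e.finrank_eq, Module.finrank_fintype_fun_eq_card, Fintype.card_subtype]
  have h1 : (univ.filter (fun b : Idx n p => deg b = m)).card =
      ∑ b : Idx n p, if deg b = m then 1 else 0 := by
    rw [Finset.card_filter]
  rw [h1, Fintype.sum_sigma, Fintype.sum_sigma, Finset.sum_range]
  apply Finset.sum_congr rfl
  intro i _
  have h2 : ∀ a : Fin (p i), ∑ j : Fin (n - i + 1), (if deg (n := n) (p := p) ⟨⟨i, a⟩, j⟩ = m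
      then 1 else 0) = if (i : ℕ) ≤ m ∧ m ≤ 2 * n - i ∧ Even (m - i) then 1 else 0 := by
    intro a
    split_ifs with h
    · obtain ⟨h3, h4, r, hr⟩ := h
      rw [Finset.sum_eq_single (⟨r, by omega⟩ : Fin (n - i + 1))]
      · rw [if_pos]
        unfold deg
        simp only
        omega
      · intro j _ hj
        rw [if_neg]
        intro h5
        apply hj
        apply Fin.ext
        unfold deg at h5
        simp only at h5 ⊢
        omega
      · intro h; exact absurd (Finset.mem_univ _) h
    · apply Finset.sum_eq_zero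
      intro j _
      rw [if_neg]
      intro h5
      apply h
      unfold deg at h5
      simp only at h5
      have := j.2
      have := i.2
      exact ⟨by omega, by omega, j, by omega⟩
  rw [Finset.sum_congr rfl (fun a _ => h2 a), Finset.sum_const, Finset.card_univ,
    Fintype.card_fin]
  split_ifs <;> simp

/-- Telescoping. -/
lemma sum_tele (b : ℕ → ℕ) (hb : ∀ i, i + 2 ≤ n → b i ≤ b (i + 2)) {m : ℕ} (hm : m ≤ n) :
    ∑ i ∈ range (n + 1), (if i ≤ m ∧ Even (m - i) then
      (b i - if 2 ≤ i then b (i - 2) else 0) else 0) = b m := by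
  induction m using Nat.strong_induction_on with
  | _ m ih =>
    have h1 : ∀ i ∈ range (n + 1), (if i ≤ m ∧ Even (m - i) then
        (b i - if 2 ≤ i then b (i - 2) else 0) else 0) =
        (if i = m then (b i - if 2 ≤ i then b (i - 2) else 0) else 0) +
        (if 2 ≤ m ∧ i ≤ m - 2 ∧ Even (m - 2 - i) then
          (b i - if 2 ≤ i then b (i - 2) else 0) else 0) := by
      intro i _
      by_cases h1 : i = m
      · subst h1
        have h2 : ¬ (2 ≤ i ∧ i ≤ i - 2 ∧ Even (i - 2 - i)) := by rintro ⟨h1, h2, _⟩; omega
        rw [if_pos ⟨le_rfl, by simp⟩, if_pos rfl, if_neg h2, add_zero]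
      · rw [if_neg h1, zero_add]
        congr 1
        apply propext
        constructor
        · rintro ⟨h2, r, hr⟩
          exact ⟨by omega, by omega, r - 1, by omega⟩
        · rintro ⟨h2, h3, r, hr⟩
          exact ⟨by omega, r + 1, by omega⟩
    rw [Finset.sum_congr rfl h1, Finset.sum_add_distrib, Finset.sum_ite_eq' ,
      if_pos (Finset.mem_range.2 (by omega))]
    by_cases h2 : 2 ≤ m
    · have h3 := ih (m - 2) (by omega) (by omega)
      have h4 : ∑ i ∈ range (n + 1), (if 2 ≤ m ∧ i ≤ m - 2 ∧ Even (m - 2 - i) then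
          (b i - if 2 ≤ i then b (i - 2) else 0) else 0) = b (m - 2) := by
        rw [← h3]
        apply Finset.sum_congr rfl
        intro i _
        congr 1
        apply propext
        constructor
        · rintro ⟨_, h5, h6⟩; exact ⟨h5, h6⟩
        · rintro ⟨h5, h6⟩; exact ⟨h2, h5, h6⟩
      rw [h4, if_pos h2]
      have := hb (m - 2) (by omega)
      rw [show m - 2 + 2 = m by omega] at this
      omega
    · rw [if_neg h2, Finset.sum_eq_zero]
      · simp
      · intro i _
        rw [if_neg (by tauto)]

end Model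

/-- **Existence of the standard model.** -/
theorem exists_model.{w} (K : Type w) [Field K] (n : ℕ) (b : ℕ → ℕ)
    (hb : ∀ i, i + 2 ≤ n → b i ≤ b (i + 2)) (hsymm : ∀ i ≤ n, b (2 * n - i) = b i) :
    ∃ (V : Type w) (_ : AddCommGroup V) (_ : Module K V) (_ : Module.Finite K V)
      (gr : ℕ → Submodule K V) (_ : DirectSum.IsInternal gr) (L Lam : Module.End K V),
      (∀ i, 2 * n + 1 ≤ i → gr i = ⊥) ∧ IsHom gr 2 L ∧ IsHom gr (-2) Lam ∧ HardLef gr n L ∧
      IsLam gr n L Lam ∧ ∀ i ≤ 2 * n, Module.finrank K (gr i) = b i := by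
  set p : ℕ → ℕ := fun i => b i - if 2 ≤ i then b (i - 2) else 0 with hp
  refine ⟨Model.V n p K, inferInstance, inferInstance, inferInstance, Model.gr n p K,
    Model.isInternal n p K, Model.L n p K, Model.Lam n p K, Model.bot, Model.isHom_L,
    Model.isHom_Lam, Model.hardLef, Model.isLam, ?_⟩
  intro m hm
  rw [Model.finrank_gr]
  by_cases hmn : m ≤ n
  · rw [← Model.sum_tele b hb hmn]
    apply Finset.sum_congr rfl
    intro i hi
    rw [Finset.mem_range] at hi
    simp only [hp]
    congr 1
    apply propext
    constructor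
    · rintro ⟨h1, _, h2⟩; exact ⟨h1, h2⟩
    · rintro ⟨h1, h2⟩; exact ⟨h1, by omega, h2⟩
  · have h3 : b m = b (2 * n - m) := by
      have := hsymm (2 * n - m) (by omega)
      rw [← this]
      congr 1
      omega
    rw [h3, ← Model.sum_tele b hb (show 2 * n - m ≤ n by omega)]
    apply Finset.sum_congr rfl
    intro i hi
    rw [Finset.mem_range] at hi
    simp only [hp]
    congr 1
    apply propext
    constructor
    · rintro ⟨h1, h2, r, hr⟩; exact ⟨by omega, n - i - r, by omega⟩
    · rintro ⟨h1, r, hr⟩; exact ⟨by omega, by omega, n - i - r, by omega⟩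

end Pool.Agent.H914
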