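import Pool.Agent.H914R2.DDefs

/-!
# Semisimplicity of Frobenius and the defect of the Tate conjecture: definitions
-/

open CategoryTheory AlgebraicGeometry Polynomial

universe u v

namespace Pool.Agent.H914

/-- The subspace `U` is stable under the operator `F`, and `α` is a root of multiplicity at most
`m` of the characteristic polynomial of the restriction of `F` to `U`. -/
def MultiplicityLe {K : Type*} [Field K] {V : Type*} [AddCommGroup V] [Module K V]
    [Module.Finite K V] (F : Module.End K V) (U : Submodule K V) (α : K) (m : ℕ) : Prop :=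
  ∃ h : ∀ a ∈ U, F a ∈ U, (F.restrict h).charpoly.rootMultiplicity α ≤ m

/-- The operator `F` is semisimple: it is annihilated by a squarefree polynomial with coefficients
in the field `K`. -/
def IsSemisimpleOp {K : Type*} [Field K] {V : Type*} [AddCommGroup V] [Module K V]
    (F : Module.End K V) : Prop :=
  ∃ P : K[X], Squarefree P ∧ aeval F P = 0

open VarClass Obj WeilCohomology

variable {k : Type u} [Field k] {𝒱 : VarClass k}

/-- The rank of the group of cycles of codimension `i` on `Y` modulo numerical equivalence is at
least `ρ`: there are `ρ` cycles of codimension `i` and `ρ` cycles of the complementary codimension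
whose matrix of intersection numbers has a nonzero determinant. -/
def NumericalRankGe (ops : CycleOps 𝒱) (Y : 𝒱.Obj) (i ρ : ℕ) : Prop :=
  ∃ z w : Fin ρ → Y.Cycles, (∀ a, Y.IsCyc i (z a)) ∧ (∀ a, Y.IsCyc (Y.dim - i) (w a)) ∧
    (Matrix.of fun a b => Y.V.degCycle (ops.mul (z a) (w b))).det ≠ 0

variable {ops : CycleOps 𝒱}

/-- The endomorphism `g` of `Y` acts on the classes of the cycles like the Frobenius endomorphism
of a variety over the field with `q` elements on the classes of the cycles defined over this
field: it multiplies the classes of the cycles of codimension `j` by `q ^ j`. -/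
def ActsAsFrobenius (W : WeilCohomology.{u, v} ops) (Y : 𝒱.Obj) (g : Y ⟶ Y) (q : ℕ) : Prop :=
  ∀ j, ∀ z, Y.IsCyc j z → W.map g (W.cl Y z) = (q : W.K) ^ j • W.cl Y z

/-- The number `q ^ i` is a root of multiplicity at most `m` of the characteristic polynomial of
`g^*` on the cohomology of `Y` in degree `2 i`. -/
def TateMultiplicityLe (W : WeilCohomology.{u, v} ops) (Y : 𝒱.Obj) (g : Y ⟶ Y) (q i m : ℕ) :
    Prop :=
  MultiplicityLe (W.map g).toLinearMap (W.gr Y (2 * i)) ((q : W.K) ^ i) m

/-- The endomorphism `g` of `Y` has degree `q ^ dim Y`: it multiplies the orientation by this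
number. -/
def HasDegree (W : WeilCohomology.{u, v} ops) (Y : 𝒱.Obj) (g : Y ⟶ Y) (q : ℕ) : Prop :=
  ∀ a, W.tr Y (W.map g a) = (q : W.K) ^ Y.dim * W.tr Y a

/-- The operator `g^*` on the cohomology of `Y` is semisimple. -/
def IsSemisimpleMap (W : WeilCohomology.{u, v} ops) (Y : 𝒱.Obj) (g : Y ⟶ Y) : Prop :=
  IsSemisimpleOp (W.map g).toLinearMap

end Pool.Agent.H914
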