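import Pool.Agent.H914R2.Slices
import Pool.Agent.H914R2.UDefs

/-!
# Semisimple operators and nilpotent polynomials
-/

open Finset Polynomial

namespace Pool.Agent.H914

variable {K : Type*} [Field K] {V : Type*} [AddCommGroup V] [Module K V] [Module.Finite K V]

omit [Module.Finite K V] in
/-- A nilpotent polynomial in a semisimple operator vanishes. -/
lemma IsSemisimpleOp.eq_zero {G : Module.End K V} (h : IsSemisimpleOp G) {Q : K[X]}
    (hQ : IsNilpotent (aeval G Q)) : aeval G Q = 0 := by
  obtain ⟨P, hP, hPG⟩ := h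
  obtain ⟨n, hn⟩ := hQ
  by_cases hn0 : n = 0
  · subst hn0
    rw [pow_zero] at hn
    rw [← mul_one (aeval G Q), hn, mul_zero]
  have h1 : minpoly K G ∣ P := minpoly.dvd K G hPG
  have h2 : Squarefree (minpoly K G) := hP.squarefree_of_dvd h1
  have h3 : minpoly K G ∣ Q ^ n := minpoly.dvd K G (by rw [map_pow, hn])
  obtain ⟨R, hR⟩ := (h2.dvd_pow_iff_dvd hn0).1 h3
  rw [hR, map_mul, minpoly.aeval, zero_mul]

omit [Module.Finite K V] in
lemma IsSemisimpleOp.isSemisimple {G : Module.End K V} (h : IsSemisimpleOp G) :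
    G.IsSemisimple := by
  obtain ⟨P, hP, hPG⟩ := h
  exact Module.End.isSemisimple_of_squarefree_aeval_eq_zero hP hPG

lemma isSemisimpleOp_of_isSemisimple {G : Module.End K V} (h : G.IsSemisimple) :
    IsSemisimpleOp G :=
  ⟨minpoly K G, h.minpoly_squarefree, minpoly.aeval K G⟩

/-- An operator whose nilpotent polynomials vanish is semisimple. -/
lemma isSemisimpleOp_of_nilpotent {G : Module.End K V}
    (h : ∀ Q : K[X], IsNilpotent (aeval G Q) → aeval G Q = 0) : IsSemisimpleOp G := by
  classical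
  set P := minpoly K G with hP
  have hP0 : P ≠ 0 := minpoly.ne_zero (Algebra.IsIntegral.isIntegral G)
  refine ⟨UniqueFactorizationMonoid.radical P, UniqueFactorizationMonoid.squarefree_radical,
    h _ ?_⟩
  obtain ⟨n, R, hR⟩ := UniqueFactorizationMonoid.exists_dvd_radical_self_pow hP0
  exact ⟨n, by rw [← map_pow, hR, map_mul, hP, minpoly.aeval, zero_mul]⟩

/-- Multiples of semisimple operators are semisimple. -/
lemma IsSemisimpleOp.smul {G : Module.End K V} (h : IsSemisimpleOp G) (κ : K) :
    IsSemisimpleOp (κ • G) := by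
  apply isSemisimpleOp_of_nilpotent
  intro Q hQ
  have h1 : aeval (κ • G) Q = aeval G (Q.comp (C κ * X)) := by
    rw [aeval_comp, map_mul, aeval_C, aeval_X, Algebra.smul_def]
  rw [h1] at hQ ⊢
  exact h.eq_zero hQ

omit [Module.Finite K V] in
/-- Finitely many squarefree polynomials divide a common squarefree polynomial. -/
lemma exists_common_squarefree {κ : Type*} (s : Finset κ) (P : κ → K[X])
    (hP : ∀ k ∈ s, Squarefree (P k)) : ∃ R : K[X], Squarefree R ∧ ∀ k ∈ s, P k ∣ R := by
  classical
  have h0 : ∏ k ∈ s, P k ≠ 0 := Finset.prod_ne_zero_iff.2 (fun k hk => (hP k hk).ne_zero)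
  refine ⟨UniqueFactorizationMonoid.radical (∏ k ∈ s, P k),
    UniqueFactorizationMonoid.squarefree_radical, fun k hk => ?_⟩
  obtain ⟨n, hn⟩ := UniqueFactorizationMonoid.exists_dvd_radical_self_pow h0
  have h1 : P k ∣ UniqueFactorizationMonoid.radical (∏ k ∈ s, P k) ^ n :=
    (Finset.dvd_prod_of_mem P hk).trans hn
  by_cases hn0 : n = 0
  · subst hn0
    rw [pow_zero] at h1
    exact h1.trans (one_dvd _)
  · exact ((hP k hk).dvd_pow_iff_dvd hn0).1 h1

variable [CharZero K]

/-- An operator `u` such that `tr (p u a) = 0`, where `a` runs through an algebra containing `u`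
and the projectors `π i` with sum `1`, and `p` is an operator with `p π i = ± π i` commuting with
`u`, is nilpotent. -/
lemma isNilpotent_of_trace {u p : Module.End K V} {N : ℕ} {π : ℕ → Module.End K V}
    (hsum : ∑ i ∈ range N, π i = 1) (hpπ : ∀ i, p * π i = (-1 : K) ^ i • π i)
    (htr : ∀ (h : K[X]) (i : ℕ), LinearMap.trace K V (p * u * (aeval u h * π i)) = 0)
    (hpu : Commute p u) :
    IsNilpotent u := by
  classical
  set M := minpoly K u with hM
  have hM0 : M ≠ 0 := minpoly.ne_zero (Algebra.IsIntegral.isIntegral u)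
  obtain ⟨g, hg, hXg⟩ := Polynomial.exists_eq_pow_rootMultiplicity_mul_and_not_dvd M hM0 0
  set a := M.rootMultiplicity 0 with ha
  rw [map_zero, sub_zero] at hg hXg
  have hcop : IsCoprime (X ^ (a + 1) : K[X]) g :=
    IsCoprime.pow_left ((Polynomial.irreducible_X.coprime_iff_not_dvd).2 hXg)
  obtain ⟨s, t, hst⟩ := hcop
  set ε : Module.End K V := aeval u (s * X ^ (a + 1)) with hε
  have h1 : aeval u (X ^ (a + 1) * g) = 0 := by
    have : (X ^ (a + 1) * g : K[X]) = X * M := by rw [hg]; ring
    rw [this, map_mul, hM, minpoly.aeval, mul_zero]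
  have hidem : IsIdempotentElem ε := by
    have h2 : (s * X ^ (a + 1) * (s * X ^ (a + 1)) : K[X]) = s * X ^ (a + 1) -
        s * t * (X ^ (a + 1) * g) := by
      have h3 : (s * X ^ (a + 1) : K[X]) = 1 - t * g := by rw [← hst]; ring
      calc (s * X ^ (a + 1) * (s * X ^ (a + 1)) : K[X]) = s * X ^ (a + 1) * (1 - t * g) := by
            rw [← h3]
        _ = _ := by ring
    rw [IsIdempotentElem, hε, ← map_mul, h2, map_sub, map_mul (aeval u) (s * t), h1, mul_zero,
      sub_zero]
  have hεu : ε = u * aeval u (s * X ^ a) := by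
    have : (s * X ^ (a + 1) : K[X]) = X * (s * X ^ a) := by ring
    rw [hε, this, map_mul, aeval_X]
  have hpε : Commute p ε := by
    have := poly_comm (F := u) (Z := p) hpu (s * X ^ (a + 1))
    exact this
  have htrε : LinearMap.trace K V ε = 0 := by
    rw [← mul_one ε, ← hsum, Finset.mul_sum, map_sum]
    apply Finset.sum_eq_zero
    intro i _
    have h2 := htr (s * X ^ a) i
    rw [← mul_assoc, mul_assoc p, ← hεu, hpε.eq, mul_assoc, hpπ, mul_smul_comm, map_smul,
      smul_eq_mul] at h2
    exact (mul_eq_zero.1 h2).resolve_left (pow_ne_zero _ (neg_ne_zero.2 one_ne_zero))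
  have hε0 : ε = 0 := (LinearMap.IsIdempotentElem.trace_eq_zero_iff hidem).1 htrε
  refine ⟨a, ?_⟩
  have h2 : aeval u (t * g) = 1 := by
    have h3 := congrArg (aeval u) hst
    rw [map_add, ← hε, hε0, zero_add, map_one] at h3
    exact h3
  have h3 : aeval u M = 0 := minpoly.aeval K u
  rw [hg, map_mul, map_pow, aeval_X] at h3
  calc u ^ a = u ^ a * aeval u (t * g) := by rw [h2, mul_one]
    _ = u ^ a * aeval u g * aeval u t := by rw [mul_comm t g, map_mul, mul_assoc]
    _ = 0 := by rw [h3, zero_mul]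

end Pool.Agent.H914
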