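import Pool.Agent.H914R2.BMain
import Pool.Agent.H914R2.IMain

/-!
# Injectivity of the cycle map on quotients by images of correspondences
-/

open CategoryTheory AlgebraicGeometry Finset

universe u v w

namespace Pool.Agent.H914

section Ring

variable {K : Type*} [Field K] {S : Type*} [Ring S] [Algebra K S] [Module.Finite K S]

/-- A finite-dimensional algebra with a nondegenerate form `t (y x)`, where `t` vanishes on
nilpotent elements, is semisimple. -/
theorem isSemisimpleRing_of_trace (t : S →ₗ[K] K) (hnil : ∀ x, IsNilpotent x → t x = 0)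
    (hnd : ∀ x, (∀ y, t (y * x) = 0) → x = 0) : IsSemisimpleRing S := by
  have hart : IsArtinianRing S := IsArtinianRing.of_finite K S
  rw [IsArtinianRing.isSemisimpleRing_iff_jacobson, eq_bot_iff]
  intro j hj
  rw [Submodule.mem_bot]
  apply hnd
  intro y
  apply hnil
  have h1 : y * j ∈ Ring.jacobson S := Ideal.mul_mem_left _ y hj
  obtain ⟨n, hn⟩ := (inferInstance : IsSemiprimaryRing S).isNilpotent
  refine ⟨n, ?_⟩
  have h2 := Ideal.pow_mem_pow h1 n
  rw [hn] at h2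
  exact h2

end Ring

open VarClass Obj WeilCohomology

variable {k : Type u} [Field k] {𝒱 : VarClass k} {ops : CycleOps 𝒱}
  {W : WeilCohomology.{u, v} ops} {X Y Z : 𝒱.Obj}

/-- **Nondegeneracy of the super trace for a pair.** -/
theorem TrNondeg.pair {Y₁ Y₂ : 𝒱.Obj} {κ₁ κ₂ : Type*} {Q₁ : κ₁ → 𝒱.Obj} {Q₂ : κ₂ → 𝒱.Obj}
    {φ₁ : ∀ t, W.H Y₁ →ₗ[W.K] W.H (Q₁ t)} {e₁ : κ₁ → ℤ}
    (hφ₁ : ∀ t, φ₁ t ∈ KOp W Y₁ (Q₁ t) (e₁ t)) (hinj₁ : ∀ a, (∀ t, φ₁ t a = 0) → a = 0)
    {φ₂ : ∀ t, W.H Y₂ →ₗ[W.K] W.H (Q₂ t)} {e₂ : κ₂ → ℤ}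
    (hφ₂ : ∀ t, φ₂ t ∈ KOp W Y₂ (Q₂ t) (e₂ t)) (hinj₂ : ∀ a, (∀ t, φ₂ t a = 0) → a = 0)
    (hQ : ∀ t t', TrNondeg W (Q₁ t) (Q₂ t')) : TrNondeg W Y₁ Y₂ := by
  choose ψ hψ hadj using fun t => KOp.exists_adjoint (hφ₁ t)
  intro d u hu h
  refine eq_zero_of_adjoints hadj hinj₁ (fun t => ?_)
  have key : ∀ t', φ₂ t' ∘ₗ u ∘ₗ ψ t = 0 := by
    intro t'
    refine hQ t t' _ _ (KOp.comp (hφ₂ t') (KOp.comp hu (hψ t))) ?_
    intro v hv
    have h1 : LinearMap.trace W.K (W.H (Q₂ t')) (par (W.isInternal (Q₂ t')) ∘ₗ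
        (φ₂ t' ∘ₗ u ∘ₗ ψ t) ∘ₗ v) = LinearMap.trace W.K (W.H Y₂) (par (W.isInternal Y₂) ∘ₗ
          u ∘ₗ (ψ t ∘ₗ v ∘ₗ φ₂ t')) := by
      have e1 : par (W.isInternal (Q₂ t')) ∘ₗ (φ₂ t' ∘ₗ u ∘ₗ ψ t) ∘ₗ v =
          φ₂ t' ∘ₗ (par (W.isInternal Y₂) ∘ₗ u ∘ₗ ψ t ∘ₗ v) := by
        have := KOp.par_comm (hφ₂ t')
        calc _ = (par (W.isInternal (Q₂ t')) ∘ₗ φ₂ t') ∘ₗ (u ∘ₗ ψ t ∘ₗ v) := rfl
          _ = _ := by rw [this]; rfl
      rw [e1]
      exact (LinearMap.trace_comp_comm' (φ₂ t') (par (W.isInternal Y₂) ∘ₗ u ∘ₗ ψ t ∘ₗ v)).symm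
    rw [h1]
    apply h
    exact KOp.cast (KOp.comp (hψ t) (KOp.comp hv (hφ₂ t'))) (by ring)
  apply LinearMap.ext
  intro a
  rw [LinearMap.zero_apply]
  apply hinj₂
  intro t'
  exact congrArg (fun F => F a) (key t')

/-- The algebra of the algebraic correspondences of degree zero. -/
noncomputable def kalg (W : WeilCohomology.{u, v} ops) (X : 𝒱.Obj) :
    Subalgebra W.K (Module.End W.K (W.H X)) :=
  (KOp W X X 0).toSubalgebra (KOp.id X) (fun _ _ hx hy => KOp.cast (KOp.comp hx hy) (add_zero 0))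

lemma mem_kalg {u : Module.End W.K (W.H X)} : u ∈ kalg W X ↔ u ∈ KOp W X X 0 := Iff.rfl

/-- The opposite algebra of the algebra of correspondences is semisimple if the super trace is
nondegenerate. -/
theorem TrNondeg.semisimple_op (h : TrNondeg W X X) : IsSemisimpleRing (kalg W X)ᵐᵒᵖ := by
  have hfin : Module.Finite W.K (kalg W X) := inferInstance
  have hfin' : Module.Finite W.K (kalg W X)ᵐᵒᵖ :=
    Module.Finite.equiv (MulOpposite.opLinearEquiv W.K)
  set t : (kalg W X)ᵐᵒᵖ →ₗ[W.K] W.K := LinearMap.trace W.K (W.H X) ∘ₗ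
    LinearMap.mulLeft W.K (par (W.isInternal X)) ∘ₗ (kalg W X).val.toLinearMap ∘ₗ
      (MulOpposite.opLinearEquiv W.K).symm.toLinearMap with ht
  have htapp : ∀ x, t x = LinearMap.trace W.K (W.H X)
      (par (W.isInternal X) * ((MulOpposite.unop x : kalg W X) : Module.End W.K (W.H X))) :=
    fun x => rfl
  have hpar : ∀ x : kalg W X, Commute (par (W.isInternal X)) (x : Module.End W.K (W.H X)) := by
    intro x
    have := KOp.par_comm (mem_kalg.1 x.2)
    exact this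
  refine isSemisimpleRing_of_trace t ?_ ?_
  · intro x hx
    rw [htapp]
    obtain ⟨n, hn⟩ := hx
    have h1 : IsNilpotent ((MulOpposite.unop x : kalg W X) : Module.End W.K (W.H X)) := by
      refine ⟨n, ?_⟩
      have h2 := congrArg (fun y => ((MulOpposite.unop y : kalg W X) : Module.End W.K (W.H X))) hn
      simpa using h2
    exact (LinearMap.isNilpotent_trace_of_isNilpotent
      ((hpar _).isNilpotent_mul_left h1)).eq_zero
  · intro x hx
    apply MulOpposite.unop_injective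
    apply Subtype.ext
    change ((MulOpposite.unop x : kalg W X) : Module.End W.K (W.H X)) = 0
    apply h 0 _ (mem_kalg.1 (MulOpposite.unop x).2)
    intro v hv
    have h1 := hx (MulOpposite.op (⟨v, mem_kalg.2 (KOp.cast hv neg_zero)⟩ : kalg W X))
    rw [htapp] at h1
    exact h1

/-- **A projector onto the sum of the images of finitely many correspondences.** -/
theorem TrNondeg.exists_projector (h : TrNondeg W X X) {m : ℕ} {Z : Fin m → 𝒱.Obj}
    (hZ : ∀ s, TrNondeg W (Z s) X) {e : Fin m → ℤ} {Γ : ∀ s, W.H (Z s) →ₗ[W.K] W.H X}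
    (hΓ : ∀ s, Γ s ∈ KOp W (Z s) X (e s)) :
    ∃ c : ∀ s, W.H X →ₗ[W.K] W.H (Z s), (∀ s, c s ∈ KOp W X (Z s) (-(e s))) ∧
      ∀ (w : ∀ s, W.H (Z s)), ∑ s, Γ s (c s (∑ s', Γ s' (w s'))) = ∑ s, Γ s (w s) := by
  classical
  have hss := h.semisimple_op
  set J : Ideal (kalg W X)ᵐᵒᵖ :=
    { carrier := {x | ∃ c : ∀ s, W.H X →ₗ[W.K] W.H (Z s), (∀ s, c s ∈ KOp W X (Z s) (-(e s))) ∧
        ((MulOpposite.unop x : kalg W X) : Module.End W.K (W.H X)) = ∑ s, Γ s ∘ₗ c s}
      add_mem' := by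
        rintro x y ⟨c, hc, hx⟩ ⟨c', hc', hy⟩
        refine ⟨fun s => c s + c' s, fun s => Submodule.add_mem _ (hc s) (hc' s), ?_⟩
        rw [MulOpposite.unop_add, Subalgebra.coe_add, hx, hy, ← Finset.sum_add_distrib]
        exact Finset.sum_congr rfl (fun s _ => (LinearMap.comp_add _ _ _).symm)
      zero_mem' := by
        refine ⟨fun s => 0, fun s => Submodule.zero_mem _, ?_⟩
        simp
      smul_mem' := by
        rintro r x ⟨c, hc, hx⟩
        refine ⟨fun s => c s ∘ₗ ((MulOpposite.unop r : kalg W X) : Module.End W.K (W.H X)),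
          fun s => KOp.cast (KOp.comp (hc s) (mem_kalg.1 (MulOpposite.unop r).2)) (by ring), ?_⟩
        rw [smul_eq_mul, MulOpposite.unop_mul, Subalgebra.coe_mul, hx, Finset.sum_mul]
        rfl } with hJ
  obtain ⟨ε, hε, hspan⟩ := IsSemisimpleRing.ideal_eq_span_idempotent (R := (kalg W X)ᵐᵒᵖ) J
  have hεJ : ε ∈ J := by rw [hspan]; exact Ideal.mem_span_singleton_self _
  obtain ⟨c, hc, hE⟩ := hεJ
  set E : Module.End W.K (W.H X) := ((MulOpposite.unop ε : kalg W X) : Module.End W.K (W.H X))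
    with hEdef
  have hfix : ∀ x : (kalg W X)ᵐᵒᵖ, x ∈ J →
      E * ((MulOpposite.unop x : kalg W X) : Module.End W.K (W.H X)) =
        ((MulOpposite.unop x : kalg W X) : Module.End W.K (W.H X)) := by
    intro x hx
    rw [hspan] at hx
    obtain ⟨r, hr⟩ := Ideal.mem_span_singleton'.1 hx
    have h1 : x * ε = x := by rw [← hr, mul_assoc, hε.eq]
    have h2 := congrArg (fun y => ((MulOpposite.unop y : kalg W X) : Module.End W.K (W.H X))) h1
    simpa using h2
  have hEΓ : ∀ s, E ∘ₗ Γ s = Γ s := by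
    intro s
    have hE0 : E ∈ KOp W X X 0 := mem_kalg.1 (MulOpposite.unop ε).2
    have h1 : (Γ s - E ∘ₗ Γ s) ∈ KOp W (Z s) X (e s) :=
      Submodule.sub_mem _ (hΓ s) (KOp.cast (KOp.comp hE0 (hΓ s)) (by ring))
    have h2 : Γ s - E ∘ₗ Γ s = 0 := by
      apply hZ s _ _ h1
      intro v hv
      have h3 : Γ s ∘ₗ v ∈ KOp W X X 0 := KOp.cast (KOp.comp (hΓ s) hv) (by ring)
      have h4 : E * (Γ s ∘ₗ v) = Γ s ∘ₗ v := by
        refine hfix (MulOpposite.op (⟨Γ s ∘ₗ v, mem_kalg.2 h3⟩ : kalg W X)) ?_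
        refine ⟨fun s' => if hs : s' = s then hs ▸ v else 0, fun s' => ?_, ?_⟩
        · by_cases hs : s' = s
          · subst hs
            simpa using hv
          · simp only [hs, dite_false]
            exact Submodule.zero_mem _
        · rw [Finset.sum_eq_single s]
          · simp
          · intro s' _ hs
            simp only [hs, dite_false, LinearMap.comp_zero]
          · intro hs
            exact absurd (Finset.mem_univ s) hs
      have h5 : (Γ s - E ∘ₗ Γ s) ∘ₗ v = 0 := by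
        rw [LinearMap.sub_comp]
        rw [sub_eq_zero]
        exact h4.symm
      rw [h5, LinearMap.comp_zero, map_zero]
    exact (sub_eq_zero.1 h2).symm
  refine ⟨c, hc, fun w => ?_⟩
  have h1 : ∀ y : W.H X, ∑ s, Γ s (c s y) = E y := by
    intro y
    rw [hE, LinearMap.sum_apply]
    rfl
  rw [h1, map_sum]
  exact Finset.sum_congr rfl (fun s _ => congrArg (fun F => F (w s)) (hEΓ s))

/-- **Transfer of the conjecture D.** -/
theorem HomEqNum.of_embeds {κ : Type*} {Q : κ → 𝒱.Obj} {φ : ∀ t, W.H Y →ₗ[W.K] W.H (Q t)}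
    {e : κ → ℤ} (hφ : ∀ t, φ t ∈ KOp W Y (Q t) (e t)) (hinj : ∀ a, (∀ t, φ t a = 0) → a = 0)
    (hQ : ∀ t, HomEqNum W (Q t)) : HomEqNum W Y := by
  intro j hj z hz hnum
  apply hinj
  intro t
  obtain ⟨ψ, hψ, hadj⟩ := KOp.exists_adjoint (hφ t)
  have h1 : φ t (W.cl Y z) ∈ algS W (Q t) := KOp.map_algS (hφ t) (algS_of ⟨z, hz, rfl⟩)
  have h2 : φ t (W.cl Y z) ∈ grZ (W.gr (Q t)) (2 * (j + e t)) := by
    have := KOp.isHom (hφ t) (2 * j : ℕ) _ (by rw [grZ_natCast]; exact W.cl_mem hz)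
    rwa [show ((2 * j : ℕ) : ℤ) + 2 * e t = 2 * (j + e t) by push_cast; ring] at this
  by_cases hneg : (j : ℤ) + e t < 0
  · rw [grZ_of_neg (by omega)] at h2
    exact (Submodule.mem_bot _).1 h2
  obtain ⟨l, hl⟩ : ∃ l : ℕ, (l : ℤ) = j + e t := ⟨((j : ℤ) + e t).toNat, by omega⟩
  rw [← hl, show (2 * (l : ℤ)) = ((2 * l : ℕ) : ℤ) by push_cast; ring, grZ_natCast] at h2
  have h3 : φ t (W.cl Y z) ∈ spanCycles W (Q t) l := by
    have := algS_proj h1 l
    rwa [proj_same _ h2] at this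
  by_cases hbig : (Q t).dim < l
  · rw [W.gr_eq_bot _ _ (by omega)] at h2
    exact (Submodule.mem_bot _).1 h2
  refine cNondeg (hQ t) (l' := (Q t).dim - l) (by omega) h3 ?_
  rintro y hy
  rw [bil_apply, hadj]
  -- the class `ψ y` is in the span of the algebraic classes of complementary codimension
  have h4 : ψ y ∈ algS W Y := KOp.map_algS hψ (algS_of hy)
  have h5 : W.tr Y (W.cl Y z * ψ y) =
      W.tr Y (W.cl Y z * proj (W.isInternal Y) (2 * (Y.dim - j)) (ψ y)) := by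
    have h6 : (∑ i ∈ range (2 * Y.dim + 1), proj (W.isInternal Y) i) (ψ y) = ψ y := by
      rw [sum_proj (W.isInternal Y) (fun i hi => W.gr_eq_bot _ i (by omega)), Module.End.one_apply]
    conv_lhs => rw [← h6]
    rw [LinearMap.sum_apply, Finset.mul_sum, map_sum]
    refine Finset.sum_eq_single_of_mem _ (Finset.mem_range.2 (by omega)) ?_
    intro i _ hi
    exact W.tr_eq_zero (W.mul_mem (W.cl_mem hz) (proj_mem _ i _)) (by omega)
  rw [h5]
  have h7 := algS_proj h4 (Y.dim - j)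
  rw [spanCycles_eq] at h7
  generalize proj (W.isInternal Y) (2 * (Y.dim - j)) (ψ y) = x at h7
  induction h7 using Submodule.span_induction with
  | mem x hx =>
    obtain ⟨w, hw, rfl⟩ := hx
    rw [← W.cl_mul, W.tr_cl (by
      have := ops.mul_mem hz hw
      rwa [show j + (Y.dim - j) = Y.dim by omega] at this), hnum w hw]
    exact Rat.cast_zero
  | zero => rw [mul_zero, map_zero]
  | add x y _ _ hx hy => rw [mul_add, map_add, hx, hy, add_zero]
  | smul r x _ hx => rw [mul_smul_comm, map_smul, hx, smul_zero]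

end Pool.Agent.H914
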