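import Pool.Agent.H914R2.UAlg
import Pool.Agent.H914R2.UDefs
import Pool.Agent.H914R2.SReg
import Pool.Agent.H914R2.GConv

/-!
# Semisimplicity of Frobenius and the defect of the Tate conjecture
-/

open CategoryTheory AlgebraicGeometry Finset Polynomial

universe u v w

namespace Pool.Agent.H914

open VarClass Obj WeilCohomology

variable {k : Type u} [Field k] {𝒱 : VarClass k} {ops : CycleOps 𝒱}
  {W : WeilCohomology.{u, v} ops} {X Y : 𝒱.Obj}

/-- The core statement: generalized eigenvectors for the eigenvalue `q ^ i` in degree `2 i` are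
eigenvectors, and the form `tr (ℓ x y)` is nondegenerate on them. -/
theorem frob_fixed {g : Y ⟶ Y} {q : ℕ} (hq : q ≠ 0)
    (hdeg : ∀ a, W.tr Y (W.map g a) = (q : W.K) ^ Y.dim * W.tr Y a)
    (hF : ActsAsFrobenius W Y g q) {i e : ℕ} (he : 2 * i + e = Y.dim) {ℓ : W.H Y}
    (hℓ : ℓ ∈ W.gr Y (2 * e)) (hgℓ : W.map g ℓ = (q : W.K) ^ e • ℓ)
    (hsurj : ∀ x ∈ W.gr Y (2 * (i + e)), ∃ x' ∈ W.gr Y (2 * i), ℓ * x' = x)
    (hinj : ∀ x ∈ W.gr Y (2 * i), ℓ * x = 0 → x = 0) {ρ : ℕ} (hρ : NumericalRankGe ops Y i ρ)
    (hm : MultiplicityLe (W.map g).toLinearMap (W.gr Y (2 * i)) ((q : W.K) ^ i) (ρ + 2)) :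
    (∀ x ∈ W.gr Y (2 * i), ∀ m : ℕ,
        (((W.map g).toLinearMap - ((q : W.K) ^ i) • 1) ^ m) x = 0 →
          W.map g x = (q : W.K) ^ i • x) ∧
      ∀ x ∈ W.gr Y (2 * i), W.map g x = (q : W.K) ^ i • x →
        (∀ y ∈ W.gr Y (2 * i), W.map g y = (q : W.K) ^ i • y → W.tr Y (ℓ * x * y) = 0) →
          x = 0 := by
  classical
  have hqK : (q : W.K) ≠ 0 := by exact_mod_cast hq
  obtain ⟨hst, hmult⟩ := hm
  obtain ⟨z, w, hz, hw, hdet⟩ := hρ
  set U := W.gr Y (2 * i) with hU
  set c : W.K := (q : W.K) ^ i with hc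
  have hc0 : c ≠ 0 := pow_ne_zero _ hqK
  set R : Module.End W.K U := (W.map g).toLinearMap.restrict hst with hR
  set G : Module.End W.K U := c⁻¹ • R with hG
  have hGx : ∀ x : U, ((G x : U) : W.H Y) = c⁻¹ • W.map g x := fun x => rfl
  set B : LinearMap.BilinForm W.K U :=
    ((bil W Y).compl₁₂ (LinearMap.mulLeft W.K ℓ ∘ₗ U.subtype) U.subtype) with hB
  have hBx : ∀ x y : U, B x y = W.tr Y (ℓ * x * y) := fun x y => rfl
  have hGfix : ∀ x : U, G x = x ↔ W.map g (x : W.H Y) = c • (x : W.H Y) := by
    intro x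
    constructor
    · intro h
      have h1 := congrArg (fun t : U => c • (t : W.H Y)) h
      simp only [hGx, smul_smul, mul_inv_cancel₀ hc0, one_smul] at h1
      exact h1
    · intro h
      apply Subtype.ext
      rw [hGx, h, smul_smul, inv_mul_cancel₀ hc0, one_smul]
  -- the symmetry
  have hsymm : ∀ x y, B x y = B y x := by
    intro x y
    rw [hBx, hBx, mul_assoc, mul_assoc, W.even_comm x.2 (y : W.H Y)]
  -- nondegeneracy
  have hnd : ∀ x, (∀ y, B x y = 0) → x = 0 := by
    intro x hx
    apply Subtype.ext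
    apply hinj _ x.2
    apply W.nondeg
    intro b
    have hsum : (∑ j ∈ range (2 * Y.dim + 1), proj (W.isInternal Y) j) b = b := by
      rw [sum_proj (W.isInternal Y) (fun i hi => W.gr_eq_bot _ i (by omega)), Module.End.one_apply]
    rw [← hsum, LinearMap.sum_apply, Finset.mul_sum, map_sum]
    apply Finset.sum_eq_zero
    intro j _
    by_cases hj : j = 2 * i
    · subst hj
      exact hx ⟨_, proj_mem _ _ _⟩
    · refine W.tr_eq_zero (W.mul_mem (W.mul_mem hℓ x.2) (proj_mem _ j _)) ?_
      omega
  -- isometry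
  have hiso : ∀ x y, B (G x) (G y) = B x y := by
    intro x y
    rw [hBx, hBx, hGx, hGx, mul_smul_comm, mul_smul_comm, smul_mul_assoc, map_smul, map_smul]
    have h1 : W.map g (ℓ * x * y) = (q : W.K) ^ e • (ℓ * W.map g x * W.map g y) := by
      rw [map_mul (W.map g), map_mul (W.map g), hgℓ, smul_mul_assoc, smul_mul_assoc]
    have h2 := hdeg (ℓ * x * y)
    rw [h1, map_smul, smul_eq_mul] at h2
    have h3 : W.tr Y (ℓ * W.map g x * W.map g y) = c * c * W.tr Y (ℓ * x * y) := by
      apply mul_left_cancel₀ (pow_ne_zero e hqK)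
      rw [h2, ← mul_assoc, hc, ← pow_add, ← pow_add, ← he]
      congr 2
      omega
    rw [h3, smul_eq_mul, smul_eq_mul]
    field_simp
  -- the multiplicity
  have hmG : G.charpoly.rootMultiplicity 1 ≤ ρ + 2 := by
    rw [← LinearMap.finrank_maxGenEigenspace_eq]
    rw [← LinearMap.finrank_maxGenEigenspace_eq] at hmult
    have h1 : G.maxGenEigenspace 1 = R.maxGenEigenspace c := by
      ext x
      rw [Module.End.mem_maxGenEigenspace, Module.End.mem_maxGenEigenspace]
      have h2 : G - (1 : W.K) • 1 = c⁻¹ • (R - c • 1) := by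
        apply LinearMap.ext
        intro y
        rw [hG, LinearMap.sub_apply, LinearMap.smul_apply, LinearMap.smul_apply,
          LinearMap.smul_apply, LinearMap.sub_apply, LinearMap.smul_apply, Module.End.one_apply,
          smul_sub, smul_smul, inv_mul_cancel₀ hc0]
      have h3 : ∀ m : ℕ, ((G - (1 : W.K) • 1) ^ m) x = (c⁻¹) ^ m • ((R - c • 1) ^ m) x := by
        intro m
        rw [h2, _root_.smul_pow, LinearMap.smul_apply]
      constructor
      · rintro ⟨m, hm⟩
        refine ⟨m, ?_⟩
        rw [h3] at hm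
        exact (smul_eq_zero.1 hm).resolve_left (pow_ne_zero _ (inv_ne_zero hc0))
      · rintro ⟨m, hm⟩
        exact ⟨m, by rw [h3, hm, smul_zero]⟩
    rw [h1]
    exact hmult
  -- the fixed vectors
  have hwx : ∀ b, ∃ w' ∈ W.gr Y (2 * i), ℓ * w' = W.cl Y (w b) := by
    intro b
    apply hsurj
    have h1 := W.cl_mem (hw b)
    rwa [show Y.dim - i = i + e by omega] at h1
  choose w' hw'mem hw' using hwx
  have hw'fix : ∀ b, W.map g (w' b) = c • w' b := by
    intro b
    rw [← sub_eq_zero]
    apply hinj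
    · exact Submodule.sub_mem _ (hst _ (hw'mem b)) (Submodule.smul_mem _ _ (hw'mem b))
    · have h1 : W.map g (ℓ * w' b) = (q : W.K) ^ e • (ℓ * W.map g (w' b)) := by
        rw [map_mul (W.map g), hgℓ, smul_mul_assoc]
      have h2 := hF _ _ (hw b)
      rw [← hw', h1, show Y.dim - i = e + i by omega, pow_add, mul_smul] at h2
      have h3 : ℓ * W.map g (w' b) = (q : W.K) ^ i • (ℓ * w' b) :=
        smul_right_injective _ (pow_ne_zero e hqK) h2
      rw [mul_sub, h3, mul_smul_comm, sub_self]
  have htr : ∀ a b, W.tr Y (ℓ * W.cl Y (z a) * w' b) =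
      (Y.V.degCycle (ops.mul (z a) (w b)) : W.K) := by
    intro a b
    rw [W.even_comm hℓ (W.cl Y (z a)), mul_assoc, hw', ← W.cl_mul]
    apply W.tr_cl
    have h1 := ops.mul_mem (hz a) (hw b)
    rwa [show i + (Y.dim - i) = Y.dim by omega] at h1
  have hdet' : (Matrix.of fun a b => B ⟨W.cl Y (z a), W.cl_mem (hz a)⟩ ⟨w' b, hw'mem b⟩).det ≠
      0 := by
    have h1 : (Matrix.of fun a b => B ⟨W.cl Y (z a), W.cl_mem (hz a)⟩ ⟨w' b, hw'mem b⟩) =
        (Rat.castHom W.K).mapMatrix
          (Matrix.of fun a b => Y.V.degCycle (ops.mul (z a) (w b))) := by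
      ext a b
      exact htr a b
    rw [h1, ← RingHom.map_det]
    intro h2
    exact hdet ((map_eq_zero _).1 h2)
  obtain ⟨hA, hC⟩ := isometry_fixed B hsymm hnd hiso
    (z := fun a => ⟨W.cl Y (z a), W.cl_mem (hz a)⟩) (w := fun b => ⟨w' b, hw'mem b⟩)
    (fun a => (hGfix _).2 (hF _ _ (hz a))) (fun b => (hGfix _).2 (hw'fix b)) hdet' hmG
  refine ⟨fun x hx m h => ?_, fun x hx hfx h => ?_⟩
  · apply (hGfix ⟨x, hx⟩).1
    apply hA _ m
    apply Subtype.ext
    have h3 : ∀ (j : ℕ) (y : U), ((((G - 1) ^ j) y : U) : W.H Y) =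
        (c⁻¹) ^ j • (((W.map g).toLinearMap - c • 1) ^ j) (y : W.H Y) := by
      intro j
      induction j with
      | zero => intro y; simp
      | succ j ih =>
        intro y
        rw [pow_succ, Module.End.mul_apply, ih]
        have h4 : (((G - 1) y : U) : W.H Y) =
            c⁻¹ • (((W.map g).toLinearMap - c • 1) (y : W.H Y)) := by
          change ((G y : U) : W.H Y) - (y : W.H Y) = _
          rw [hGx, LinearMap.sub_apply, LinearMap.smul_apply, Module.End.one_apply, smul_sub,
            smul_smul, inv_mul_cancel₀ hc0, one_smul]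
          rfl
        rw [h4, map_smul, smul_smul, pow_succ (((W.map g).toLinearMap - c • 1)),
          Module.End.mul_apply, ← pow_succ]
    rw [h3, h, smul_zero]
    rfl
  · have h1 := hC ⟨x, hx⟩ ((hGfix _).2 hfx) (fun y hy => h y y.2 ((hGfix y).1 hy))
    exact congrArg Subtype.val h1

section Square

variable {f : X ⟶ X} {δ : W.K} (hδ : ∀ a, W.tr X (W.map f a) = δ * W.tr X a)

include hδ

/-- The degree of `f × f`. -/
lemma tr_squareMap (c : W.H (X.prod X)) :
    W.tr (X.prod X) (W.map (squareMap f) c) = δ * δ * W.tr (X.prod X) c := by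
  refine W.kunneth_induction (p := fun c => W.tr (X.prod X) (W.map (squareMap f) c) =
    δ * δ * W.tr (X.prod X) c) ?_ ?_ c
  · intro a b ha hb
    rw [map_add, map_add, ha, hb, map_add, mul_add]
  · intro i j a _ b _
    rw [map_squareMap, W.tr_prod, W.tr_prod, hδ, hδ]
    ring

/-- An endomorphism of nonzero degree is injective on the cohomology. -/
lemma map_injective (hδ0 : δ ≠ 0) {a : W.H X} (h : W.map f a = 0) : a = 0 := by
  apply W.nondeg
  intro b
  have h1 := hδ (a * b)
  rw [map_mul (W.map f), h, zero_mul, map_zero] at h1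
  exact (mul_eq_zero.1 h1.symm).resolve_left hδ0

end Square

/-- The transposition commutes with `f × f`. -/
lemma swap_squareMap (f : X ⟶ X) (c : W.H (X.prod X)) :
    W.map (squareMap f) (W.map (swap X X) c) = W.map (swap X X) (W.map (squareMap f) c) := by
  refine W.kunneth_induction (p := fun c => W.map (squareMap f) (W.map (swap X X) c) =
    W.map (swap X X) (W.map (squareMap f) c)) ?_ ?_ c
  · intro a b ha hb
    rw [map_add, map_add, map_add, map_add, ha, hb]
  · intro i j a ha b hb
    have hsw : ∀ {a b : W.H X}, a ∈ W.gr X i → b ∈ W.gr X j →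
        W.map (swap X X) (W.map (fst X X) a * W.map (snd X X) b) =
          (-1 : W.K) ^ (i * j) • (W.map (fst X X) b * W.map (snd X X) a) := by
      intro a b ha hb
      rw [map_mul (W.map (swap X X)), ← W.map_comp, ← W.map_comp, swap_fst, swap_snd]
      exact W.comm (W.map_mem _ ha) (W.map_mem _ hb)
    rw [hsw ha hb, map_smul, map_squareMap, map_squareMap,
      hsw (W.map_mem f ha) (W.map_mem f hb)]

/-- The operator `f^*` is in the algebra of the algebraic correspondences of degree zero. -/
lemma map_mem_kalg (f : X ⟶ X) : (W.map f).toLinearMap ∈ kalg W X :=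
  mem_kalg.2 (KOp.ofRop (rop_map f))

/-- **Semisimplicity of Frobenius if the defect of the Tate conjecture is at most two.** -/
theorem semisimple_of_defect {f : X ⟶ X} {q : ℕ} (hq : q ≠ 0)
    (hdeg : ∀ a, W.tr X (W.map f a) = (q : W.K) ^ X.dim * W.tr X a)
    (hF : ActsAsFrobenius W (X.prod X) (squareMap f) q) {ρ : ℕ}
    (hρ : NumericalRankGe ops (X.prod X) X.dim ρ)
    (hm : MultiplicityLe (W.map (squareMap f)).toLinearMap (W.gr (X.prod X) (2 * X.dim))
      ((q : W.K) ^ X.dim) (ρ + 2)) : SemisimpleOn (W.map f).toLinearMap ⊤ := by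
  classical
  have hqK : (q : W.K) ≠ 0 := by exact_mod_cast hq
  set δ : W.K := (q : W.K) ^ X.dim with hδ
  have hδ0 : δ ≠ 0 := pow_ne_zero _ hqK
  set F : Module.End W.K (W.H X) := (W.map f).toLinearMap with hFdef
  have hFapp : ∀ a, F a = W.map f a := fun a => rfl
  have hFinj : ∀ a, F a = 0 → a = 0 := fun a h => map_injective hdeg hδ0 h
  have hFsurj : ∀ a, ∃ b, F b = a := by
    have h1 : Function.Injective F := by
      rw [← LinearMap.ker_eq_bot, LinearMap.ker_eq_bot']
      exact hFinj
    exact LinearMap.injective_iff_surjective.1 h1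
  -- the classes of the operators commuting with `F`
  have hcomm : ∀ c : W.H (X.prod X), W.map (squareMap f) c = δ • c ↔
      W.corr c * F = F * W.corr c := by
    intro c
    have h1 : ∀ a, W.corr (W.map (squareMap f) c) (F a) = δ • F (W.corr c a) :=
      fun a => corr_squareMap hdeg c a
    constructor
    · intro h
      apply LinearMap.ext
      intro a
      have h2 := h1 a
      rw [h, corr_smul, LinearMap.smul_apply] at h2
      exact smul_right_injective _ hδ0 h2
    · intro h
      rw [← sub_eq_zero]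
      apply corr_inj
      apply LinearMap.ext
      intro a
      obtain ⟨b, rfl⟩ := hFsurj a
      have h3 := congrArg (fun T => T b) h
      simp only [Module.End.mul_apply] at h3
      have h4 : W.map (squareMap f) c - δ • c = W.map (squareMap f) c + (-δ) • c := by
        rw [neg_smul, sub_eq_add_neg]
      rw [h4, corr_add, corr_smul, LinearMap.add_apply, LinearMap.smul_apply, h1, h3, neg_smul,
        add_neg_cancel, LinearMap.zero_apply]
  obtain ⟨-, hnd⟩ := frob_fixed (W := W) (g := squareMap f) (i := X.dim) (e := 0) (ℓ := 1) hq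
    (by
      intro a
      rw [tr_squareMap hdeg, hδ, ← pow_add, dim_prod])
    hF (by rw [dim_prod]; omega) (by rw [mul_zero]; exact W.one_mem _) (by
      rw [map_one, pow_zero, one_smul])
    (fun x hx => ⟨x, by simpa using hx, one_mul x⟩) (fun x _ h => by rwa [one_mul] at h) hρ hm
  -- nilpotent polynomials in `F` vanish
  have hnil : ∀ Q : W.K[X], IsNilpotent (aeval F Q) → aeval F Q = 0 := by
    intro Q hQ
    set N := aeval F Q with hN
    have hNF : N * F = F * N := (poly_comm (F := F) (Z := F) rfl Q).symm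
    have hNk : N ∈ KOp W X X 0 := by
      apply mem_kalg.1
      rw [hN]
      have h1 : aeval F Q ∈ Algebra.adjoin W.K {F} := aeval_mem_adjoin_singleton _ _
      exact (Algebra.adjoin_le (by
        rintro x rfl
        exact map_mem_kalg f)) h1
    obtain ⟨ν, hν, hνN⟩ := mem_KOp_iff.1 hNk
    rw [add_zero] at hν
    have hνg : ν ∈ W.gr (X.prod X) (2 * X.dim) := span_gr hν
    have hν0 : ν = 0 := by
      refine hnd ν hνg ((hcomm ν).2 (by rw [hνN]; exact hNF)) ?_
      intro d hd hfd
      rw [one_mul, tr_mul_eq_trace hνg]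
      set T := W.corr (W.map (swap X X) d) with hT
      have hTF : T * F = F * T := by
        rw [hT]
        apply (hcomm _).1
        rw [swap_squareMap, hfd, map_smul]
      have hNT : Commute T N := by
        exact poly_comm hTF Q
      have hparN : Commute (par (W.isInternal X)) N := by
        have h1 := KOp.par_comm hNk
        exact h1
      have hTh : IsHom (W.gr X) 0 T := by
        have h1 := W.corr_isHom (W.map_mem (swap X X) hd)
        rwa [sub_self, mul_zero] at h1
      have hparT : Commute (par (W.isInternal X)) T := by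
        have h1 : par (W.isInternal X) * T = T * par (W.isInternal X) := by
          have h2 : IsHom (W.gr X) (2 * 0) T := by rwa [mul_zero]
          exact h2.par_comm (W.isInternal X)
        exact h1
      rw [hνN]
      have h2 : IsNilpotent (par (W.isInternal X) * N * T) := by
        have h3 : Commute (par (W.isInternal X) * T) N :=
          (hparN.mul_left hNT)
        have h4 : par (W.isInternal X) * N * T = par (W.isInternal X) * T * N := by
          rw [mul_assoc, mul_assoc, hNT.eq]
        rw [h4]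
        exact h3.isNilpotent_mul_left hQ
      exact (LinearMap.isNilpotent_trace_of_isNilpotent h2).eq_zero
    rw [← hνN, hν0, corr_zero]
  -- the minimal polynomial
  set P := minpoly W.K F with hP
  have hP0 : P ≠ 0 := minpoly.ne_zero (Algebra.IsIntegral.isIntegral F)
  refine ⟨UniqueFactorizationMonoid.radical P, UniqueFactorizationMonoid.squarefree_radical,
    fun a _ => ?_⟩
  have h1 : aeval F (UniqueFactorizationMonoid.radical P) = 0 := by
    apply hnil
    obtain ⟨n, hn⟩ := UniqueFactorizationMonoid.exists_dvd_radical_self_pow hP0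
    refine ⟨n, ?_⟩
    obtain ⟨R, hR⟩ := hn
    rw [← map_pow, hR, map_mul, hP, minpoly.aeval, zero_mul]
  rw [h1, LinearMap.zero_apply]

end Pool.Agent.H914
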