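import Pool.Agent.H914R2.OMain
import Pool.Agent.H914R2.UMain

/-!
# From one Weil cohomology theory to all of them
-/

open CategoryTheory AlgebraicGeometry Finset Polynomial

universe u v v' w

namespace Pool.Agent.H914

open VarClass Obj WeilCohomology

variable {k : Type u} [Field k] {𝒱 : VarClass k} {ops : CycleOps 𝒱}

section One

variable {W : WeilCohomology.{u, v} ops} {X Y : 𝒱.Obj}

/-- The class of the diagonal. -/
noncomputable def diagCyc (ops : CycleOps 𝒱) (X : 𝒱.Obj) : (X.prod X).Cycles :=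
  ops.push (diag X) X.V.fundCycle

lemma diagCyc_mem (X : 𝒱.Obj) : (X.prod X).IsCyc X.dim (diagCyc ops X) :=
  ops.push_mem _ X.V.fundCycle_mem (by simp only [dim_prod]; omega)

lemma corr_diagCyc (W : WeilCohomology.{u, v} ops) (X : 𝒱.Obj) :
    W.corr (W.cl _ (diagCyc ops X)) = 1 := by
  apply LinearMap.ext
  intro a
  rw [diagCyc, W.cl_push, corr_diag, W.cl_fund, one_mul, Module.End.one_apply]

/-- A correspondence numerically equivalent to zero is nilpotent if the Kunneth projectors are
algebraic. -/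
theorem nilpotent_of_num (hK : KunnethStd W X) {ζ : (X.prod X).Cycles}
    (hζ : (X.prod X).IsCyc X.dim ζ) (h0 : ∀ y, (X.prod X).IsCyc X.dim y →
      (X.prod X).V.degCycle (ops.mul ζ y) = 0) : IsNilpotent (W.corr (W.cl _ ζ)) := by
  have hk : ∀ a ∈ KOp W X X 0, LinearMap.trace W.K (W.H X)
      (par (W.isInternal X) * W.corr (W.cl _ ζ) * a) = 0 := by
    intro a ha
    induction ha using Submodule.span_induction with
    | mem x hx =>
      obtain ⟨p, hp, y, hy, rfl⟩ := hx
      obtain rfl : p = X.dim := by omega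
      have h1 := tr_mul_eq_trace (W := W) (W.cl_mem hζ) (W.map (swap X X) (W.cl _ y))
      rw [swap_swap, ← W.cl_pull, ← W.cl_mul, W.tr_cl (by
        have := ops.mul_mem hζ (ops.pull_mem (swap X X) hy)
        rwa [← dim_prod] at this), h0 _ (ops.pull_mem _ hy), Rat.cast_zero] at h1
      exact h1.symm
    | zero => rw [mul_zero, map_zero]
    | add x y _ _ hx hy => rw [mul_add, map_add, hx, hy, add_zero]
    | smul a x _ hx => rw [mul_smul_comm, map_smul, hx, smul_zero]
  have hu : W.corr (W.cl _ ζ) ∈ KOp W X X 0 := KOp.gen (by simp) hζ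
  refine isNilpotent_of_trace (p := par (W.isInternal X)) (N := 2 * X.dim + 1)
    (π := fun i => proj (W.isInternal X) i)
    (sum_proj (W.isInternal X) (fun i hi => W.gr_eq_bot _ i (by omega)))
    (fun i => par_mul_proj (h := W.isInternal X) i) (fun h i => ?_) (KOp.par_comm hu)
  apply hk
  have h1 : aeval (W.corr (W.cl _ ζ)) h ∈ Algebra.adjoin W.K {W.corr (W.cl _ ζ)} :=
    aeval_mem_adjoin_singleton _ _
  have h2 : aeval (W.corr (W.cl _ ζ)) h ∈ kalg W X :=
    (Algebra.adjoin_le (Set.singleton_subset_iff.2 (mem_kalg.2 hu))) h1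
  exact KOp.cast (KOp.comp (mem_kalg.1 h2) (KOp.ofRop (rop_proj hK i))) (add_zero 0)

/-- Sums of correspondences. -/
lemma corr_sum_cyc {N : ℕ} (r : Fin N → ℚ) (c : Fin N → (X.prod Y).Cycles) :
    W.corr (W.cl _ (∑ i, r i • c i)) = ∑ i, (r i : W.K) • W.corr (W.cl _ (c i)) := by
  have h2 : ∀ s : Finset (Fin N), W.corr (W.cl _ (∑ i ∈ s, r i • c i)) =
      ∑ i ∈ s, (r i : W.K) • W.corr (W.cl _ (c i)) := by
    intro s
    induction s using Finset.induction_on with
    | empty => rw [Finset.sum_empty, Finset.sum_empty, map_zero, corr_zero]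
    | insert j s hj ih =>
      rw [Finset.sum_insert hj, Finset.sum_insert hj, map_add, corr_add, W.cl_smul, corr_smul, ih]
  exact h2 _

/-- **The operator `1 + u` given by the compositions is invertible.** -/
theorem isUnit_of_num (hK : KunnethStd W X) {m : ℕ} {Q : Fin m → 𝒱.Obj} {N : ℕ}
    {t : Fin N → Fin m} {r : Fin N → ℚ} {p p' : Fin N → ℕ}
    {z : ∀ i, (X.prod (Q (t i))).Cycles} {w : ∀ i, ((Q (t i)).prod X).Cycles}
    (hz : ∀ i, (X.prod (Q (t i))).IsCyc (p i) (z i))
    (hw : ∀ i, ((Q (t i)).prod X).IsCyc (p' i) (w i))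
    (hpp : ∀ i, p i + p' i = X.dim + (Q (t i)).dim)
    (hnum : ∀ y, (X.prod X).IsCyc X.dim y → (X.prod X).V.degCycle
        (ops.mul ((∑ i, r i • compCyc ops (z i) (w i)) - diagCyc ops X) y) = 0) :
    IsUnit (∑ i, (r i : W.K) • (W.corr (W.cl _ (w i)) ∘ₗ W.corr (W.cl _ (z i)) :
      Module.End W.K (W.H X))) := by
  have hcyc : ∀ j, (X.prod X).IsCyc X.dim (compCyc ops (z j) (w j)) :=
    fun j => compCyc_mem (hz j) (hw j) (hpp j)
  have hsumc : ∀ s : Finset (Fin N), (X.prod X).IsCyc X.dim
      (∑ j ∈ s, r j • compCyc ops (z j) (w j)) := by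
    intro s
    induction s using Finset.induction_on with
    | empty => rw [Finset.sum_empty]; exact SmVar.IsCyc.zero _ _
    | insert j s hj ih =>
      rw [Finset.sum_insert hj]
      exact ((hcyc j).smul _).add ih
  have hζ : (X.prod X).IsCyc X.dim ((∑ j, r j • compCyc ops (z j) (w j)) - diagCyc ops X) := by
    have h2 := (hsumc univ).add ((diagCyc_mem (ops := ops) X).smul (-1))
    rwa [neg_one_smul, ← sub_eq_add_neg] at h2
  have hnil := nilpotent_of_num (W := W) hK hζ hnum
  set u := W.corr (W.cl _ ((∑ j, r j • compCyc ops (z j) (w j)) - diagCyc ops X)) with hu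
  have h1 : (∑ i, (r i : W.K) • (W.corr (W.cl _ (w i)) ∘ₗ W.corr (W.cl _ (z i)) :
      Module.End W.K (W.H X))) = 1 + u := by
    have h2 : W.corr (W.cl _ (∑ j, r j • compCyc ops (z j) (w j))) =
        W.corr (W.cl _ (diagCyc ops X)) + u := by
      rw [hu, ← corr_add, ← map_add]
      congr 2
      abel
    rw [corr_sum_cyc, corr_diagCyc] at h2
    rw [← h2]
    exact Finset.sum_congr rfl (fun j _ => by rw [corr_compCyc W (hw j)])
  rw [h1]
  exact hnil.isUnit_one_add

/-- The commutation of a correspondence with the Frobenius endomorphisms. -/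
lemma frob_corr {f : X ⟶ X} {g : Y ⟶ Y} {q : ℕ} (hq : q ≠ 0)
    (hdeg : ∀ a, W.tr X (W.map f a) = (q : W.K) ^ X.dim * W.tr X a)
    (hF : ActsAsFrobenius W (X.prod Y) (Obj.lift (fst X Y ≫ f) (snd X Y ≫ g)) q)
    {p : ℕ} {z : (X.prod Y).Cycles} (hz : (X.prod Y).IsCyc p z) (a : W.H X) :
    W.corr (W.cl _ z) (W.map f a) =
      ((q : W.K) ^ X.dim / (q : W.K) ^ p) • W.map g (W.corr (W.cl _ z) a) := by
  have h1 := corr_prod (f := f) (g := g) hdeg (W.cl _ z) a
  rw [hF p z hz, corr_smul, LinearMap.smul_apply] at h1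
  have hq0 : (q : W.K) ^ p ≠ 0 := pow_ne_zero _ (Nat.cast_ne_zero.2 hq)
  rw [div_eq_inv_mul, mul_smul, ← h1, smul_smul, inv_mul_cancel₀ hq0, one_smul]

/-- Products of semisimple maps are semisimple. -/
theorem IsSemisimpleMap.prod {f : X ⟶ X} {g : Y ⟶ Y} (hf : IsSemisimpleMap W X f)
    (hg : IsSemisimpleMap W Y g) :
    IsSemisimpleMap W (X.prod Y) (Obj.lift (fst X Y ≫ f) (snd X Y ≫ g)) := by
  set A : Module.End W.K (W.H (X.prod Y)) :=
    (W.map (Obj.lift (fst X Y ≫ f) (snd X Y ≫ 𝟙 Y))).toLinearMap with hA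
  set B : Module.End W.K (W.H (X.prod Y)) :=
    (W.map (Obj.lift (fst X Y ≫ 𝟙 X) (snd X Y ≫ g))).toLinearMap with hB
  have hA1 : ∀ a b, A (W.map (fst X Y) a * W.map (snd X Y) b) =
      W.map (fst X Y) (W.map f a) * W.map (snd X Y) b := by
    intro a b
    have := map_prodMap (W := W) f (𝟙 Y) a b
    rw [W.map_id] at this
    exact this
  have hB1 : ∀ a b, B (W.map (fst X Y) a * W.map (snd X Y) b) =
      W.map (fst X Y) a * W.map (snd X Y) (W.map g b) := by
    intro a b
    have := map_prodMap (W := W) (𝟙 X) g a b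
    rw [W.map_id] at this
    exact this
  have hcomm : A * B = B * A := by
    apply LinearMap.ext
    intro c
    refine W.kunneth_induction (p := fun c => (A * B) c = (B * A) c) ?_ ?_ c
    · intro a b ha hb
      rw [map_add, map_add, ha, hb]
    · intro i j a _ b _
      rw [Module.End.mul_apply, Module.End.mul_apply, hA1, hB1, hA1, hB1]
  have hAB : (W.map (Obj.lift (fst X Y ≫ f) (snd X Y ≫ g))).toLinearMap = A * B := by
    apply LinearMap.ext
    intro c
    refine W.kunneth_induction (p := fun c =>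
      (W.map (Obj.lift (fst X Y ≫ f) (snd X Y ≫ g))).toLinearMap c = (A * B) c) ?_ ?_ c
    · intro a b ha hb
      rw [map_add, map_add, ha, hb]
    · intro i j a _ b _
      rw [Module.End.mul_apply, hB1, hA1]
      exact map_prodMap (W := W) f g a b
  have hAp : ∀ P : W.K[X], ∀ a b, aeval A P (W.map (fst X Y) a * W.map (snd X Y) b) =
      W.map (fst X Y) (aeval (W.map f).toLinearMap P a) * W.map (snd X Y) b := by
    intro P a b
    induction P using Polynomial.induction_on' generalizing a with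
    | add P Q hP hQ =>
      rw [map_add, map_add, LinearMap.add_apply, LinearMap.add_apply, hP, hQ, map_add, add_mul]
    | monomial n c =>
      have hn : ∀ n : ℕ, ∀ a, (A ^ n) (W.map (fst X Y) a * W.map (snd X Y) b) =
          W.map (fst X Y) (((W.map f).toLinearMap ^ n) a) * W.map (snd X Y) b := by
        intro n
        induction n with
        | zero => intro a; rw [pow_zero, pow_zero, Module.End.one_apply, Module.End.one_apply]
        | succ n ih =>
          intro a
          rw [pow_succ, pow_succ, Module.End.mul_apply, Module.End.mul_apply, hA1, ih]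
          rfl
      rw [aeval_monomial, aeval_monomial, Module.End.mul_apply, Module.End.mul_apply, hn,
        Module.algebraMap_end_apply, Module.algebraMap_end_apply, map_smul, smul_mul_assoc]
  have hBp : ∀ P : W.K[X], ∀ a b, aeval B P (W.map (fst X Y) a * W.map (snd X Y) b) =
      W.map (fst X Y) a * W.map (snd X Y) (aeval (W.map g).toLinearMap P b) := by
    intro P a b
    induction P using Polynomial.induction_on' generalizing b with
    | add P Q hP hQ =>
      rw [map_add, map_add, LinearMap.add_apply, LinearMap.add_apply, hP, hQ, map_add, mul_add]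
    | monomial n c =>
      have hn : ∀ n : ℕ, ∀ b, (B ^ n) (W.map (fst X Y) a * W.map (snd X Y) b) =
          W.map (fst X Y) a * W.map (snd X Y) (((W.map g).toLinearMap ^ n) b) := by
        intro n
        induction n with
        | zero => intro b; rw [pow_zero, pow_zero, Module.End.one_apply, Module.End.one_apply]
        | succ n ih =>
          intro b
          rw [pow_succ, pow_succ, Module.End.mul_apply, Module.End.mul_apply, hB1, ih]
          rfl
      rw [aeval_monomial, aeval_monomial, Module.End.mul_apply, Module.End.mul_apply, hn,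
        Module.algebraMap_end_apply, Module.algebraMap_end_apply, map_smul, mul_smul_comm]
  have hAs : IsSemisimpleOp A := by
    obtain ⟨P, hP, hPf⟩ := hf
    refine ⟨P, hP, ?_⟩
    apply LinearMap.ext
    intro c
    refine W.kunneth_induction (p := fun c => aeval A P c = (0 : Module.End W.K _) c) ?_ ?_ c
    · intro a b ha hb
      rw [map_add, map_add, ha, hb]
    · intro i j a _ b _
      rw [hAp, hPf, LinearMap.zero_apply, LinearMap.zero_apply, map_zero, zero_mul]
  have hBs : IsSemisimpleOp B := by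
    obtain ⟨P, hP, hPf⟩ := hg
    refine ⟨P, hP, ?_⟩
    apply LinearMap.ext
    intro c
    refine W.kunneth_induction (p := fun c => aeval B P c = (0 : Module.End W.K _) c) ?_ ?_ c
    · intro a b ha hb
      rw [map_add, map_add, ha, hb]
    · intro i j a _ b _
      rw [hBp, hPf, LinearMap.zero_apply, LinearMap.zero_apply, map_zero, mul_zero]
  rw [IsSemisimpleMap, hAB]
  exact isSemisimpleOp_of_isSemisimple
    (Module.End.IsSemisimple.mul_of_commute hcomm hAs.isSemisimple hBs.isSemisimple)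

/-- **Semisimplicity from a numerical splitting.** -/
theorem semisimple_of_num (hK : KunnethStd W X) {m : ℕ} {Q : Fin m → EndVar 𝒱} {N : ℕ}
    {t : Fin N → Fin m} {r : Fin N → ℚ} {p p' : Fin N → ℕ}
    {z : ∀ i, (X.prod (Q (t i)).X).Cycles} {w : ∀ i, ((Q (t i)).X.prod X).Cycles}
    (hz : ∀ i, (X.prod (Q (t i)).X).IsCyc (p i) (z i))
    (hw : ∀ i, ((Q (t i)).X.prod X).IsCyc (p' i) (w i))
    (hpp : ∀ i, p i + p' i = X.dim + (Q (t i)).X.dim)
    (hnum : ∀ y, (X.prod X).IsCyc X.dim y → (X.prod X).V.degCycle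
        (ops.mul ((∑ i, r i • compCyc ops (z i) (w i)) - diagCyc ops X) y) = 0)
    {f : X ⟶ X} {q : ℕ} (hq : q ≠ 0)
    (hdeg : ∀ a, W.tr X (W.map f a) = (q : W.K) ^ X.dim * W.tr X a)
    (hss : ∀ t, IsSemisimpleMap W (Q t).X (Q t).f)
    (hF : ∀ t, ActsAsFrobenius W (X.prod (Q t).X)
      (Obj.lift (fst X (Q t).X ≫ f) (snd X (Q t).X ≫ (Q t).f)) q) :
    IsSemisimpleMap W X f := by
  classical
  have hunit := isUnit_of_num (W := W) (Q := fun t => (Q t).X) hK hz hw hpp hnum
  set κ : Fin N → W.K := fun i => (q : W.K) ^ X.dim / (q : W.K) ^ p i with hκ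
  have hG : ∀ i, IsSemisimpleOp (κ i • (W.map (Q (t i)).f).toLinearMap) :=
    fun i => (hss (t i)).smul (κ i)
  choose P hP hPG using hG
  obtain ⟨R, hR, hPR⟩ := exists_common_squarefree univ P (fun i _ => hP i)
  refine ⟨R, hR, ?_⟩
  set F := (W.map f).toLinearMap with hFdef
  have hcomm : ∀ i, ∀ (S : W.K[X]) (a : W.H X), W.corr (W.cl _ (z i)) (aeval F S a) =
      aeval (κ i • (W.map (Q (t i)).f).toLinearMap) S (W.corr (W.cl _ (z i)) a) := by
    intro i S
    induction S using Polynomial.induction_on' with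
    | add S T hS hT =>
      intro a
      rw [map_add, map_add, LinearMap.add_apply, LinearMap.add_apply, map_add, hS, hT]
    | monomial n c =>
      have hn : ∀ n : ℕ, ∀ a, W.corr (W.cl _ (z i)) ((F ^ n) a) =
          ((κ i • (W.map (Q (t i)).f).toLinearMap) ^ n) (W.corr (W.cl _ (z i)) a) := by
        intro n
        induction n with
        | zero => intro a; rw [pow_zero, pow_zero, Module.End.one_apply, Module.End.one_apply]
        | succ n ih =>
          intro a
          rw [pow_succ, pow_succ, Module.End.mul_apply, Module.End.mul_apply, ih]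
          congr 1
          exact frob_corr hq hdeg (hF (t i)) (hz i) a
      intro a
      rw [aeval_monomial, aeval_monomial, Module.End.mul_apply, Module.End.mul_apply,
        Module.algebraMap_end_apply, Module.algebraMap_end_apply, map_smul, hn]
  have hzero : ∀ i a, W.corr (W.cl _ (z i)) (aeval F R a) = 0 := by
    intro i a
    obtain ⟨S, hS⟩ := hPR i (Finset.mem_univ i)
    rw [hcomm, hS, mul_comm, map_mul, hPG, mul_zero, LinearMap.zero_apply]
  have hprod : (∑ i, (r i : W.K) • (W.corr (W.cl _ (w i)) ∘ₗ W.corr (W.cl _ (z i)) :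
      Module.End W.K (W.H X))) * aeval F R = 0 := by
    apply LinearMap.ext
    intro a
    rw [Module.End.mul_apply, LinearMap.sum_apply, LinearMap.zero_apply]
    refine Finset.sum_eq_zero (fun i _ => ?_)
    rw [LinearMap.smul_apply, LinearMap.comp_apply, hzero, map_zero, smul_zero]
  exact (hunit.mul_right_eq_zero).1 hprod

end One

section Main

variable {ι : Type w} {P : ι → EndVar 𝒱} {q : ℕ} {X : 𝒱.Obj}

/-- **The numerical splitting for the varieties generated by the family.** -/
theorem exists_num {W : WeilCohomology.{u, v} ops} (hq : q ≠ 0) (hD : ∀ j, HomEqNum W (P j).X)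
    (hdeg : ∀ j, HasFrobeniusDegree W (P j) q)
    (hss : ∀ j, FrobeniusSemisimple W (P j).X (P j).f)
    (hT : ∀ i j, AlgebraicHoms W (P i) (P j) q)
    (hF : ∀ Q, IsFamilyProduct P Q → FrobeniusOnCycles W Q.X Q.f q)
    (hG : StableSymmetric W.K (familyEigenvalues W P) q) (hX : GeneratedBy W P X) :
    ∃ (m : ℕ) (Q : Fin m → EndVar 𝒱) (N : ℕ) (t : Fin N → Fin m) (r : Fin N → ℚ)
      (p p' : Fin N → ℕ) (z : ∀ i, (X.prod (Q (t i)).X).Cycles)
      (w : ∀ i, ((Q (t i)).X.prod X).Cycles), (∀ s, IsFamilyProduct P (Q s)) ∧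
      (∀ i, (X.prod (Q (t i)).X).IsCyc (p i) (z i)) ∧
      (∀ i, ((Q (t i)).X.prod X).IsCyc (p' i) (w i)) ∧
      (∀ i, p i + p' i = X.dim + (Q (t i)).X.dim) ∧
      ∀ y, (X.prod X).IsCyc X.dim y → (X.prod X).V.degCycle
        (ops.mul ((∑ i, r i • compCyc ops (z i) (w i)) - diagCyc ops X) y) = 0 := by
  have hDQ : ∀ Q, IsFamilyProduct P Q → HomEqNum W Q.X := fun Q hQ =>
    homEqNum_family hq hD hdeg hss hT hF hG hQ (dominates_self W _)
  have hTr : ∀ Q Q', IsFamilyProduct P Q → IsFamilyProduct P Q' → TrNondeg W Q.X Q'.X :=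
    fun Q Q' hQ hQ' => HomEqNum.trNondeg (hDQ _ (IsFamilyProduct.prod hQ hQ'))
  obtain ⟨m, Q, e, φ, hQ, hφ, hinj⟩ := hX.exists_ops
  have h2 : TrNondeg W X X := TrNondeg.pair (Q₁ := fun t => (Q t).X) (Q₂ := fun t => (Q t).X)
    hφ hinj hφ hinj (fun t t' => hTr _ _ (hQ t) (hQ t'))
  have h3 : ∀ t, TrNondeg W X (Q t).X := by
    intro t
    refine TrNondeg.pair (Y₂ := (Q t).X) (κ₂ := Unit) (Q₁ := fun t => (Q t).X)
      (Q₂ := fun _ => (Q t).X) hφ hinj
      (φ₂ := fun _ => LinearMap.id) (e₂ := fun _ => 0) (fun _ => KOp.id _) (fun a ha => ha ())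
      (fun t' _ => hTr _ _ (hQ t') (hQ t))
  obtain ⟨ψ, hψ, hsum⟩ := h2.exists_left_inverse (Q := fun t => (Q t).X) h3 hφ hinj
  obtain ⟨N, t, r, p, p', z, w, hz, hw, hpp, hnum⟩ := exists_rational (Q := fun t => (Q t).X)
    hφ hψ hsum (diagCyc_mem X) (corr_diagCyc W X)
  exact ⟨m, Q, N, t, r, p, p', z, w, hQ, hz, hw, hpp, hnum⟩

/-- **Main theorem.** -/
theorem all_theories {W : WeilCohomology.{u, v} ops} (W' : WeilCohomology.{u, v'} ops)
    (hq : q ≠ 0) (hD : ∀ j, HomEqNum W (P j).X)
    (hdeg : ∀ j, HasFrobeniusDegree W (P j) q)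
    (hss : ∀ j, FrobeniusSemisimple W (P j).X (P j).f)
    (hT : ∀ i j, AlgebraicHoms W (P i) (P j) q)
    (hF : ∀ Q, IsFamilyProduct P Q → FrobeniusOnCycles W Q.X Q.f q)
    (hG : StableSymmetric W.K (familyEigenvalues W P) q) (V : EndVar 𝒱)
    (hV : GeneratedBy W P V.X) (hK : KunnethStd W' V.X) :
    GeneratedBy W' P V.X ∧ (HasFrobeniusDegree W' V q →
      (∀ j, IsSemisimpleMap W' (P j).X (P j).f) →
      (∀ Q, IsFamilyProduct P Q → ActsAsFrobenius W' (V.prod Q).X (V.prod Q).f q) →
      IsSemisimpleMap W' V.X V.f) := by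
  obtain ⟨m, Q, N, t, r, p, p', z, w, hQ, hz, hw, hpp, hnum⟩ :=
    exists_num hq hD hdeg hss hT hF hG hV
  constructor
  · refine ⟨N, fun i => Q (t i), fun i => hQ (t i), fun i => (p i : ℤ), fun i => W'.cl _ (z i),
      fun i => Submodule.subset_span ⟨p i, rfl, z i, hz i, rfl⟩, fun a ha => ?_⟩
    have hunit := isUnit_of_num (W := W') (Q := fun t => (Q t).X) hK hz hw hpp hnum
    obtain ⟨b, hb⟩ := hunit.exists_left_inv
    have h1 : (∑ i, (r i : W'.K) • (W'.corr (W'.cl _ (w i)) ∘ₗ W'.corr (W'.cl _ (z i)) :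
        Module.End W'.K (W'.H V.X))) a = 0 := by
      rw [LinearMap.sum_apply]
      refine Finset.sum_eq_zero (fun i _ => ?_)
      rw [LinearMap.smul_apply, LinearMap.comp_apply, ha i, map_zero, smul_zero]
    calc a = (b * (∑ i, (r i : W'.K) • (W'.corr (W'.cl _ (w i)) ∘ₗ
          W'.corr (W'.cl _ (z i)) : Module.End W'.K (W'.H V.X)))) a := by
            rw [hb, Module.End.one_apply]
      _ = 0 := by rw [Module.End.mul_apply, h1, map_zero]
  · intro hdegV hssP hFV
    have hssQ : ∀ Q, IsFamilyProduct P Q → IsSemisimpleMap W' Q.X Q.f := by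
      intro Q hQ
      induction hQ with
      | base i => exact hssP i
      | prod _ _ h1 h2 => exact h1.prod h2
    exact semisimple_of_num (W := W') (Q := Q) hK hz hw hpp hnum hq hdegV
      (fun t => hssQ _ (hQ t)) (fun t => hFV _ (hQ t))

end Main

end Pool.Agent.H914
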