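import Pool.Agent.H914R2.BDefs

/-!
# Varieties generated by a family, and quotients of their cohomology: definitions
-/

open CategoryTheory AlgebraicGeometry

universe u v w

namespace Pool.Agent.H914

section Alg

variable {K : Type*} [Field K] {V : Type*} [AddCommGroup V] [Module K V]

/-- Elements of the set `S` which are linearly independent over the rational numbers modulo the
subspace `U` are linearly independent over the field `K` modulo `U`. -/
def StayIndependent [CharZero K] (U : Submodule K V) (S : Set V) : Prop :=
  ∀ (n : ℕ) (v : Fin n → V), (∀ i, v i ∈ S) →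
    (∀ r : Fin n → ℚ, ∑ i, (r i : K) • v i ∈ U → r = 0) →
      ∀ κ : Fin n → K, ∑ i, κ i • v i ∈ U → κ = 0

/-- The subspaces `U` and `U'` have the same intersection with `G`. -/
def AgreeIn (G U U' : Submodule K V) : Prop := ∀ y ∈ G, y ∈ U ↔ y ∈ U'

end Alg

open VarClass Obj WeilCohomology

variable {k : Type u} [Field k] {𝒱 : VarClass k} {ops : CycleOps 𝒱}

/-- The cohomology of `Y` embeds algebraically into a finite direct sum of cohomologies of finite
products of members of the family `P`. -/
def GeneratedBy (W : WeilCohomology.{u, v} ops) {ι : Type w} (P : ι → EndVar 𝒱) (Y : 𝒱.Obj) :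
    Prop :=
  ∃ (r : ℕ) (Q : Fin r → EndVar 𝒱), (∀ t, IsFamilyProduct P (Q t)) ∧
    EmbedsAlgebraically W Y (fun t => (Q t).X)

/-- The image in the cohomology of `X` of the cohomology of `Z` under the correspondence given by
the cycle `γ` on `Z × X`. -/
noncomputable def imageOf (W : WeilCohomology.{u, v} ops) {Z X : 𝒱.Obj} (γ : (Z.prod X).Cycles) :
    Submodule W.K (W.H X) :=
  LinearMap.range (W.corr (W.cl (Z.prod X) γ))

/-- There are finitely many varieties `Z_s` generated by the family `P` and, for each of them, a
cycle `γ_s` on `Z_s × X` of some codimension with rational coefficients, such that the part of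
degree `2 c` of the subspace `U` of `H(X)` is that of the sum of the images of the correspondences
`γ_s`. -/
def IsFamilyImage (W : WeilCohomology.{u, v} ops) {ι : Type w} (P : ι → EndVar 𝒱) {X : 𝒱.Obj}
    (U : Submodule W.K (W.H X)) (c : ℕ) : Prop :=
  ∃ (m : ℕ) (Z : Fin m → 𝒱.Obj) (p : Fin m → ℕ) (γ : ∀ s, ((Z s).prod X).Cycles),
    (∀ s, GeneratedBy W P (Z s)) ∧ (∀ s, ((Z s).prod X).IsCyc (p s) (γ s)) ∧
      AgreeIn (W.gr X (2 * c)) U (⨆ s, imageOf W (γ s))

end Pool.Agent.H914
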