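import Pool.Agent.H914R2.SReg
import Pool.Agent.H914R2.SDefs

/-!
# Injectivity of the cycle map on quotients by images of correspondences
-/

open CategoryTheory AlgebraicGeometry Finset

universe u v w

namespace Pool.Agent.H914

open VarClass Obj WeilCohomology

variable {k : Type u} [Field k] {𝒱 : VarClass k} {ops : CycleOps 𝒱}
  {W : WeilCohomology.{u, v} ops} {X Y : 𝒱.Obj}

/-- Among the classes of degree `2 c` on `X`, the kernel of the linear map `φ` on `H(X)` consists
of the sums of classes `γ_s (w_s)`, where `γ_s` is the correspondence from `Z_s` to `X` given by an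
algebraic cycle with rational coefficients and `w_s` is any class on `Z_s`. -/
def KernelIsAlgebraicImage (W : WeilCohomology.{u, v} ops) {X : 𝒱.Obj} {V : Type*}
    [AddCommGroup V] [Module W.K V] (φ : W.H X →ₗ[W.K] V) (c : ℕ) {m : ℕ} (Z : Fin m → 𝒱.Obj)
    (γ : ∀ s, ((Z s).prod X).Cycles) : Prop :=
  ∀ y ∈ W.gr X (2 * c), φ y = 0 ↔
    ∃ w : ∀ s, W.H (Z s), y = ∑ s, W.corr (W.cl ((Z s).prod X) (γ s)) (w s)

/-- Algebraic classes which are killed by `φ` up to `K`-linear combinations. -/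
lemma kernel_span (hXX : TrNondeg W X X) {m : ℕ} {Z : Fin m → 𝒱.Obj}
    (hZ : ∀ s, TrNondeg W (Z s) X) {p : Fin m → ℕ} {γ : ∀ s, ((Z s).prod X).Cycles}
    (hγ : ∀ s, ((Z s).prod X).IsCyc (p s) (γ s)) {V : Type*} [AddCommGroup V] [Module W.K V]
    {φ : W.H X →ₗ[W.K] V} {c : ℕ} (hker : KernelIsAlgebraicImage W φ c Z γ)
    {y : W.H X} (hy : y ∈ spanCycles W X c) (h0 : φ y = 0) :
    y ∈ Submodule.span W.K {x | ∃ b, X.IsCyc c b ∧ φ (W.cl X b) = 0 ∧ W.cl X b = x} := by
  classical
  have hyg : y ∈ W.gr X (2 * c) := span_gr hy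
  obtain ⟨w, hw⟩ := (hker y hyg).1 h0
  obtain ⟨d, hd, hproj⟩ := hXX.exists_projector hZ (e := fun s => (p s : ℤ) - (Z s).dim)
    (Γ := fun s => W.corr (W.cl _ (γ s))) (fun s => KOp.gen (by ring) (hγ s))
  have h1 : y = ∑ s, W.corr (W.cl _ (γ s)) (d s y) := by
    conv_lhs => rw [hw]
    rw [← hproj w, ← hw]
  have hyA : y ∈ algS W X := by
    rw [spanCycles_eq] at hy
    refine Submodule.span_mono ?_ hy
    intro x hx
    exact ⟨c, hx⟩
  have h4 : y = ∑ s, proj (W.isInternal X) (2 * c) (W.corr (W.cl _ (γ s)) (d s y)) := by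
    rw [← map_sum, ← h1, proj_same _ hyg]
  rw [h4]
  refine Submodule.sum_mem _ (fun s _ => ?_)
  have h3 : d s y ∈ algS W (Z s) := KOp.map_algS (hd s) hyA
  generalize d s y = v at h3
  induction h3 using Submodule.span_induction with
  | mem x hx =>
    obtain ⟨l, b, hb, rfl⟩ := hx
    set ρ := ops.push (snd (Z s) X) (ops.mul (γ s) (ops.pull (fst (Z s) X) b)) with hρ
    have hcl : W.corr (W.cl _ (γ s)) (W.cl (Z s) b) = W.cl X ρ := by
      rw [corr_apply, hρ, W.cl_push, W.cl_mul, W.cl_pull]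
    by_cases hle : (Z s).dim ≤ p s + l
    · obtain ⟨l', hl'⟩ : ∃ l', p s + l = l' + (Z s).dim := ⟨p s + l - (Z s).dim, by omega⟩
      have hρc : X.IsCyc l' ρ := by
        refine ops.push_mem _ (ops.mul_mem (hγ s) (ops.pull_mem _ hb)) ?_
        rw [dim_prod]
        omega
      by_cases hl : l' = c
      · subst hl
        rw [hcl, proj_same _ (W.cl_mem hρc)]
        refine Submodule.subset_span ⟨ρ, hρc, ?_, rfl⟩
        rw [hker _ (W.cl_mem hρc)]
        refine ⟨fun s' => if hs : s' = s then hs ▸ W.cl (Z s) b else 0, ?_⟩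
        rw [Finset.sum_eq_single s]
        · simp [hcl]
        · intro s' _ hs
          simp only [hs, dite_false, map_zero]
        · intro hs
          exact absurd (Finset.mem_univ s) hs
      · rw [hcl, proj_ne _ (W.cl_mem hρc) (by omega)]
        exact Submodule.zero_mem _
    · have h5 := corr_isHom' (W := W) (W.cl_mem (hγ s)) (2 * l : ℕ) (W.cl (Z s) b)
        (by rw [grZ_natCast]; exact W.cl_mem hb)
      rw [grZ_of_neg (by push_cast; omega)] at h5
      rw [(Submodule.mem_bot _).1 h5, map_zero]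
      exact Submodule.zero_mem _
  | zero => rw [map_zero, map_zero]; exact Submodule.zero_mem _
  | add x y _ _ hx hy => rw [map_add, map_add]; exact Submodule.add_mem _ hx hy
  | smul r x _ hx => rw [map_smul, map_smul]; exact Submodule.smul_mem _ _ hx

/-- **Injectivity of the cycle map on quotients.** -/
theorem injective_quotient (hX : HomEqNum W X) (hXX : TrNondeg W X X) {m : ℕ}
    {Z : Fin m → 𝒱.Obj} (hZ : ∀ s, TrNondeg W (Z s) X) {p : Fin m → ℕ}
    {γ : ∀ s, ((Z s).prod X).Cycles} (hγ : ∀ s, ((Z s).prod X).IsCyc (p s) (γ s))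
    {V : Type*} [AddCommGroup V] [Module W.K V] {φ : W.H X →ₗ[W.K] V} {c : ℕ}
    (hker : KernelIsAlgebraicImage W φ c Z γ) {n : ℕ} {z : Fin n → X.Cycles}
    (hz : ∀ i, X.IsCyc c (z i))
    (hind : ∀ r : Fin n → ℚ, φ (W.cl X (∑ i, r i • z i)) = 0 → r = 0) {κ : Fin n → W.K}
    (h0 : ∑ i, κ i • φ (W.cl X (z i)) = 0) : κ = 0 := by
  classical
  by_cases hc : c ≤ X.dim
  swap
  · funext i
    exfalso
    have h1 : W.cl X (∑ l, (Pi.single i 1 : Fin n → ℚ) l • z l) = 0 := by
      have h1 : W.cl X (∑ l, (Pi.single i 1 : Fin n → ℚ) l • z l) ∈ W.gr X (2 * c) := by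
        rw [map_sum]
        apply Submodule.sum_mem
        intro l _
        rw [W.cl_smul]
        exact Submodule.smul_mem _ _ (W.cl_mem (hz l))
      rw [W.gr_eq_bot X _ (by omega)] at h1
      exact (Submodule.mem_bot _).1 h1
    have h2 := congrFun (hind (Pi.single i 1) (by rw [h1, map_zero])) i
    rw [Pi.single_eq_same, Pi.zero_apply] at h2
    exact one_ne_zero h2
  -- the rational intersection numbers
  have htr : ∀ (y : X.Cycles) (w : X.Cycles), X.IsCyc c y → X.IsCyc (X.dim - c) w →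
      W.tr X (W.cl X y * W.cl X w) = (X.V.degCycle (ops.mul y w) : W.K) := by
    intro y w hy hw
    rw [← W.cl_mul]
    apply W.tr_cl
    have h1 := ops.mul_mem hy hw
    rwa [show c + (X.dim - c) = X.dim by omega] at h1
  have hsum : ∀ {N : ℕ} (a : Fin N → ℚ) (b : Fin N → X.Cycles), (∀ j, X.IsCyc c (b j)) →
      X.IsCyc c (∑ j, a j • b j) := by
    intro N a b hb
    have h2 : ∀ s : Finset (Fin N), X.IsCyc c (∑ j ∈ s, a j • b j) := by
      intro s
      induction s using Finset.induction_on with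
      | empty => rw [Finset.sum_empty]; exact SmVar.IsCyc.zero _ _
      | insert j s hj ih =>
        rw [Finset.sum_insert hj]
        exact ((hb j).smul _).add ih
    exact h2 _
  have hcls : ∀ {N : ℕ} (a : Fin N → ℚ) (b : Fin N → X.Cycles),
      W.cl X (∑ j, a j • b j) = ∑ j, (a j : W.K) • W.cl X (b j) := by
    intro N a b
    rw [map_sum]
    exact Finset.sum_congr rfl (fun j _ => W.cl_smul _ _)
  set y : W.H X := ∑ i, κ i • W.cl X (z i) with hy
  have hyS : y ∈ spanCycles W X c := by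
    rw [hy]
    exact Submodule.sum_mem _ (fun i _ => Submodule.smul_mem _ _ (alg_mem_span ⟨z i, hz i, rfl⟩))
  have hφy : φ y = 0 := by
    rw [hy, map_sum, ← h0]
    exact Finset.sum_congr rfl (fun i _ => map_smul _ _ _)
  obtain ⟨N, μ, g, hg⟩ := Submodule.mem_span_set'.1 (kernel_span hXX hZ hγ hker hyS hφy)
  choose b hb hφb hcb using fun j => (g j).2
  have hyb : y = ∑ j, μ j • W.cl X (b j) := by
    rw [← hg]
    exact Finset.sum_congr rfl (fun j _ => by rw [hcb])
  have hf : ∀ f : W.K →ₗ[ℚ] ℚ, (fun i => f (κ i)) = 0 := by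
    intro f
    set ζ : X.Cycles := (∑ i, f (κ i) • z i) - ∑ j, f (μ j) • b j with hζ
    have hζc : X.IsCyc c ζ := by
      have h1 := (hsum (fun i => f (κ i)) z hz).add ((hsum (fun j => f (μ j)) b hb).smul (-1))
      rw [neg_one_smul, ← sub_eq_add_neg] at h1
      exact h1
    have hζcl : W.cl X ζ = (∑ i, (f (κ i) : W.K) • W.cl X (z i)) -
        ∑ j, (f (μ j) : W.K) • W.cl X (b j) := by
      rw [hζ, map_sub, hcls, hcls]
    have hζ0 : W.cl X ζ = 0 := by
      apply hX c hc ζ hζc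
      intro w hw
      have h1 : W.tr X (y * W.cl X w) = ∑ i, κ i * (X.V.degCycle (ops.mul (z i) w) : W.K) := by
        rw [hy, Finset.sum_mul, map_sum]
        exact Finset.sum_congr rfl (fun i _ => by
          rw [smul_mul_assoc, map_smul, htr _ _ (hz i) hw, smul_eq_mul])
      have h2 : W.tr X (y * W.cl X w) = ∑ j, μ j * (X.V.degCycle (ops.mul (b j) w) : W.K) := by
        rw [hyb, Finset.sum_mul, map_sum]
        exact Finset.sum_congr rfl (fun i _ => by
          rw [smul_mul_assoc, map_smul, htr _ _ (hb i) hw, smul_eq_mul])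
      have hfm : ∀ (x : W.K) (t : ℚ), f (x * (t : W.K)) = f x * t := by
        intro x t
        have : x * (t : W.K) = t • x := by rw [Rat.smul_def, mul_comm]
        rw [this, map_smul, smul_eq_mul, mul_comm]
      have h3 : ∑ i, f (κ i) * X.V.degCycle (ops.mul (z i) w) =
          ∑ j, f (μ j) * X.V.degCycle (ops.mul (b j) w) := by
        have h4 := congrArg f (h1.symm.trans h2)
        rw [map_sum, map_sum] at h4
        simp only [hfm] at h4
        exact h4
      have h5 : (X.V.degCycle (ops.mul ζ w) : W.K) = ((0 : ℚ) : W.K) := by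
        rw [← htr _ _ hζc hw, hζcl, sub_mul, map_sub, Finset.sum_mul, Finset.sum_mul, map_sum,
          map_sum]
        have h6 : ∀ i, W.tr X ((f (κ i) : W.K) • W.cl X (z i) * W.cl X w) =
            ((f (κ i) * X.V.degCycle (ops.mul (z i) w) : ℚ) : W.K) := by
          intro i
          rw [smul_mul_assoc, map_smul, htr _ _ (hz i) hw, smul_eq_mul, Rat.cast_mul]
        have h7 : ∀ j, W.tr X ((f (μ j) : W.K) • W.cl X (b j) * W.cl X w) =
            ((f (μ j) * X.V.degCycle (ops.mul (b j) w) : ℚ) : W.K) := by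
          intro j
          rw [smul_mul_assoc, map_smul, htr _ _ (hb j) hw, smul_eq_mul, Rat.cast_mul]
        rw [Finset.sum_congr rfl (fun i _ => h6 i), Finset.sum_congr rfl (fun j _ => h7 j),
          ← Rat.cast_sum, ← Rat.cast_sum, h3, sub_self, Rat.cast_zero]
      exact_mod_cast h5
    apply hind
    rw [hcls]
    rw [hζcl, sub_eq_zero] at hζ0
    rw [hζ0, map_sum]
    exact Finset.sum_eq_zero (fun j _ => by rw [map_smul, hφb, smul_zero])
  funext i
  rw [Pi.zero_apply]
  exact (Module.forall_dual_apply_eq_zero_iff ℚ (κ i)).1 (fun f => congrFun (hf f) i)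

section Family

variable {ι : Type w} {P : ι → EndVar 𝒱} {q : ℕ}

/-- The correspondences which embed the cohomology of a variety generated by the family. -/
lemma GeneratedBy.exists_ops (h : GeneratedBy W P Y) : ∃ (r : ℕ) (Q : Fin r → EndVar 𝒱)
    (e : Fin r → ℤ) (φ : ∀ t, W.H Y →ₗ[W.K] W.H (Q t).X), (∀ t, IsFamilyProduct P (Q t)) ∧
      (∀ t, φ t ∈ KOp W Y (Q t).X (e t)) ∧ ∀ a, (∀ t, φ t a = 0) → a = 0 := by
  obtain ⟨r, Q, hQ, b, F, hF, hinj⟩ := h
  refine ⟨r, Q, fun t => b t - Y.dim, fun t => W.corr (F t), hQ, fun t => ?_, hinj⟩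
  exact mem_KOp_iff.2 ⟨F t, by
    have := hF t
    rwa [show (Y.dim : ℤ) + (b t - Y.dim) = b t by ring], rfl⟩

/-- **Injectivity of the cycle map on quotients for the varieties generated by a family.** -/
theorem injective_family (hq : q ≠ 0) (hD : ∀ j, HomEqNum W (P j).X)
    (hdeg : ∀ j, HasFrobeniusDegree W (P j) q)
    (hss : ∀ j, FrobeniusSemisimple W (P j).X (P j).f)
    (hT : ∀ i j, AlgebraicHoms W (P i) (P j) q)
    (hF : ∀ Q, IsFamilyProduct P Q → FrobeniusOnCycles W Q.X Q.f q)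
    (hG : StableSymmetric W.K (familyEigenvalues W P) q) (hX : GeneratedBy W P X) {m : ℕ}
    {Z : Fin m → 𝒱.Obj} (hZ : ∀ s, GeneratedBy W P (Z s)) {p : Fin m → ℕ}
    {γ : ∀ s, ((Z s).prod X).Cycles} (hγ : ∀ s, ((Z s).prod X).IsCyc (p s) (γ s))
    {V : Type*} [AddCommGroup V] [Module W.K V] {φ : W.H X →ₗ[W.K] V} {c : ℕ}
    (hker : KernelIsAlgebraicImage W φ c Z γ) {n : ℕ} {z : Fin n → X.Cycles}
    (hz : ∀ i, X.IsCyc c (z i))
    (hind : ∀ r : Fin n → ℚ, φ (W.cl X (∑ i, r i • z i)) = 0 → r = 0) {κ : Fin n → W.K}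
    (h0 : ∑ i, κ i • φ (W.cl X (z i)) = 0) : κ = 0 := by
  have hDQ : ∀ Q, IsFamilyProduct P Q → HomEqNum W Q.X := fun Q hQ =>
    homEqNum_family hq hD hdeg hss hT hF hG hQ (dominates_self W _)
  have hTr : ∀ Q Q', IsFamilyProduct P Q → IsFamilyProduct P Q' → TrNondeg W Q.X Q'.X :=
    fun Q Q' hQ hQ' => HomEqNum.trNondeg (hDQ _ (IsFamilyProduct.prod hQ hQ'))
  obtain ⟨r, Q, e, ψ, hQ, hψ, hinj⟩ := hX.exists_ops
  have h1 : HomEqNum W X := HomEqNum.of_embeds (Q := fun t => (Q t).X) hψ hinj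
    (fun t => hDQ _ (hQ t))
  have h2 : TrNondeg W X X := TrNondeg.pair (Q₁ := fun t => (Q t).X) (Q₂ := fun t => (Q t).X)
    hψ hinj hψ hinj (fun t t' => hTr _ _ (hQ t) (hQ t'))
  have h3 : ∀ s, TrNondeg W (Z s) X := by
    intro s
    obtain ⟨r', Q', e', ψ', hQ', hψ', hinj'⟩ := (hZ s).exists_ops
    exact TrNondeg.pair (Q₁ := fun t => (Q' t).X) (Q₂ := fun t => (Q t).X) hψ' hinj' hψ hinj
      (fun t t' => hTr _ _ (hQ' t) (hQ t'))
  exact injective_quotient h1 h2 h3 hγ hker hz hind h0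

/-- **Injectivity of the cycle map modulo images of correspondences.** -/
theorem injective_modulo (hq : q ≠ 0) (hD : ∀ j, HomEqNum W (P j).X)
    (hdeg : ∀ j, HasFrobeniusDegree W (P j) q)
    (hss : ∀ j, FrobeniusSemisimple W (P j).X (P j).f)
    (hT : ∀ i j, AlgebraicHoms W (P i) (P j) q)
    (hF : ∀ Q, IsFamilyProduct P Q → FrobeniusOnCycles W Q.X Q.f q)
    (hG : StableSymmetric W.K (familyEigenvalues W P) q) (hX : GeneratedBy W P X)
    {U : Submodule W.K (W.H X)} {c : ℕ} (hU : IsFamilyImage W P U c) :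
    StayIndependent U (algClasses W X c) := by
  obtain ⟨m, Z, p, γ, hZ, hγ, hag⟩ := hU
  intro n v hv hind κ h0
  choose z hz hzv using hv
  obtain rfl : (fun i => W.cl X (z i)) = v := funext hzv
  have hcls : ∀ a : Fin n → W.K, U.mkQ (∑ i, a i • W.cl X (z i)) =
      ∑ i, a i • U.mkQ (W.cl X (z i)) := by
    intro a
    rw [map_sum]
    exact Finset.sum_congr rfl (fun i _ => map_smul _ _ _)
  refine injective_family hq hD hdeg hss hT hF hG hX hZ hγ (φ := U.mkQ) (c := c) ?_ hz
    (fun r hr => hind r ?_) ?_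
  · intro y hy
    rw [Submodule.mkQ_apply, Submodule.Quotient.mk_eq_zero, hag y hy]
    constructor
    · intro h
      rw [Submodule.mem_iSup_iff_exists_finsupp] at h
      obtain ⟨f, hf, hsum⟩ := h
      choose w hw using hf
      refine ⟨w, ?_⟩
      rw [← hsum, Finsupp.sum_fintype _ _ (fun _ => rfl)]
      exact Finset.sum_congr rfl (fun s _ => (hw s).symm)
    · rintro ⟨w, rfl⟩
      exact Submodule.sum_mem _ (fun s _ => (le_iSup (fun s => imageOf W (γ s)) s) ⟨w s, rfl⟩)
  · rw [Submodule.mkQ_apply, Submodule.Quotient.mk_eq_zero, map_sum] at hr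
    have h1 : ∑ i, W.cl X (r i • z i) = ∑ i, (r i : W.K) • W.cl X (z i) :=
      Finset.sum_congr rfl (fun i _ => W.cl_smul _ _)
    rwa [h1] at hr
  · rw [← hcls, Submodule.mkQ_apply, Submodule.Quotient.mk_eq_zero]
    exact h0

end Family

end Pool.Agent.H914
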