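import Pool.Agent.H914R2.OAlg
import Pool.Agent.H914R2.SMain
import Pool.Agent.H914R2.PStep
import Pool.Agent.H914R2.GConv3

/-!
# Semisimplicity of Frobenius in all Weil cohomology theories for varieties generated by a family
-/

open CategoryTheory AlgebraicGeometry Finset Polynomial

universe u v w

namespace Pool.Agent.H914

open VarClass Obj WeilCohomology

variable {k : Type u} [Field k] {𝒱 : VarClass k} {ops : CycleOps 𝒱}
  {W : WeilCohomology.{u, v} ops} {X Y Z : 𝒱.Obj}

section Prod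

variable {f : X ⟶ X} {g : Y ⟶ Y} {δ : W.K} (hδ : ∀ a, W.tr X (W.map f a) = δ * W.tr X a)

include hδ

lemma push_snd_prod (y : W.H (X.prod Y)) :
    W.push (snd X Y) (W.map (Obj.lift (fst X Y ≫ f) (snd X Y ≫ g)) y) =
      δ • W.map g (W.push (snd X Y) y) := by
  refine W.kunneth_induction (p := fun y =>
    W.push (snd X Y) (W.map (Obj.lift (fst X Y ≫ f) (snd X Y ≫ g)) y) =
    δ • W.map g (W.push (snd X Y) y)) ?_ ?_ y
  · intro a b ha hb
    rw [map_add, map_add, ha, hb, map_add, map_add, smul_add]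
  · intro i j a _ b _
    rw [map_prodMap, push_snd, push_snd, hδ, map_smul, smul_smul]

/-- The commutation relation between a correspondence and the endomorphisms. -/
lemma corr_prod (x : W.H (X.prod Y)) (a : W.H X) :
    W.corr (W.map (Obj.lift (fst X Y ≫ f) (snd X Y ≫ g)) x) (W.map f a) =
      δ • W.map g (W.corr x a) := by
  have e1 : W.map (fst X Y) (W.map f a) =
      W.map (Obj.lift (fst X Y ≫ f) (snd X Y ≫ g)) (W.map (fst X Y) a) := by
    have h1 := map_prodMap (W := W) f g a 1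
    rw [map_one, map_one, map_one, mul_one, mul_one] at h1
    exact h1.symm
  rw [corr_apply, e1, ← map_mul (W.map (Obj.lift (fst X Y ≫ f) (snd X Y ≫ g))),
    push_snd_prod hδ, corr_apply]

end Prod

lemma swap_swap (c : W.H (X.prod X)) : W.map (swap X X) (W.map (swap X X) c) = c := by
  refine W.kunneth_induction (p := fun c => W.map (swap X X) (W.map (swap X X) c) = c) ?_ ?_ c
  · intro a b ha hb
    rw [map_add, map_add, ha, hb]
  · intro i j a ha b hb
    have hsw : ∀ {i j : ℕ} {a b : W.H X}, a ∈ W.gr X i → b ∈ W.gr X j →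
        W.map (swap X X) (W.map (fst X X) a * W.map (snd X X) b) =
          (-1 : W.K) ^ (i * j) • (W.map (fst X X) b * W.map (snd X X) a) := by
      intro i j a b ha hb
      rw [map_mul (W.map (swap X X)), ← W.map_comp, ← W.map_comp, swap_fst, swap_snd]
      exact W.comm (W.map_mem _ ha) (W.map_mem _ hb)
    rw [hsw ha hb, map_smul, hsw hb ha, smul_smul, mul_comm j i, ← mul_pow]
    simp

/-- The algebra of correspondences is semisimple if the super trace is nondegenerate. -/
theorem TrNondeg.semisimple (h : TrNondeg W X X) : IsSemisimpleRing (kalg W X) := by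
  set t : kalg W X →ₗ[W.K] W.K := LinearMap.trace W.K (W.H X) ∘ₗ
    LinearMap.mulLeft W.K (par (W.isInternal X)) ∘ₗ (kalg W X).val.toLinearMap with ht
  have htapp : ∀ x, t x = LinearMap.trace W.K (W.H X)
      (par (W.isInternal X) * (x : Module.End W.K (W.H X))) := fun x => rfl
  have hpar : ∀ x : kalg W X, Commute (par (W.isInternal X)) (x : Module.End W.K (W.H X)) := by
    intro x
    have := KOp.par_comm (mem_kalg.1 x.2)
    exact this
  refine isSemisimpleRing_of_trace t ?_ ?_
  · intro x hx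
    rw [htapp]
    have h1 : IsNilpotent (x : Module.End W.K (W.H X)) := by
      have := hx.map (kalg W X).val
      exact this
    exact (LinearMap.isNilpotent_trace_of_isNilpotent
      ((hpar _).isNilpotent_mul_left h1)).eq_zero
  · intro x hx
    apply Subtype.ext
    apply h 0 _ (mem_kalg.1 x.2)
    intro v hv
    have h1 := hx (⟨v, mem_kalg.2 (KOp.cast hv neg_zero)⟩ : kalg W X)
    rw [htapp] at h1
    have h2 : LinearMap.trace W.K (W.H X) (par (W.isInternal X) *
        ((x : Module.End W.K (W.H X)) * v)) = LinearMap.trace W.K (W.H X)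
        (par (W.isInternal X) * (v * (x : Module.End W.K (W.H X)))) := by
      rw [← mul_assoc, (hpar x).eq, mul_assoc, LinearMap.trace_mul_comm, mul_assoc]
    exact h2.trans h1

/-- **A left inverse of a jointly injective family of correspondences.** -/
theorem TrNondeg.exists_left_inverse (h : TrNondeg W X X) {m : ℕ} {Q : Fin m → 𝒱.Obj}
    (hQ : ∀ t, TrNondeg W X (Q t)) {e : Fin m → ℤ} {φ : ∀ t, W.H X →ₗ[W.K] W.H (Q t)}
    (hφ : ∀ t, φ t ∈ KOp W X (Q t) (e t)) (hinj : ∀ a, (∀ t, φ t a = 0) → a = 0) :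
    ∃ ψ : ∀ t, W.H (Q t) →ₗ[W.K] W.H X, (∀ t, ψ t ∈ KOp W (Q t) X (-(e t))) ∧
      ∑ t, ψ t ∘ₗ φ t = 1 := by
  classical
  have hss := h.semisimple
  set J : Ideal (kalg W X) :=
    { carrier := {x | ∃ ψ : ∀ t, W.H (Q t) →ₗ[W.K] W.H X, (∀ t, ψ t ∈ KOp W (Q t) X (-(e t))) ∧
        (x : Module.End W.K (W.H X)) = ∑ t, ψ t ∘ₗ φ t}
      add_mem' := by
        rintro x y ⟨c, hc, hx⟩ ⟨c', hc', hy⟩
        refine ⟨fun s => c s + c' s, fun s => Submodule.add_mem _ (hc s) (hc' s), ?_⟩
        rw [Subalgebra.coe_add, hx, hy, ← Finset.sum_add_distrib]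
        exact Finset.sum_congr rfl (fun s _ => (LinearMap.add_comp _ _ _).symm)
      zero_mem' := by
        refine ⟨fun s => 0, fun s => Submodule.zero_mem _, ?_⟩
        simp
      smul_mem' := by
        rintro r x ⟨c, hc, hx⟩
        refine ⟨fun s => (r : Module.End W.K (W.H X)) ∘ₗ c s,
          fun s => KOp.cast (KOp.comp (mem_kalg.1 r.2) (hc s)) (by ring), ?_⟩
        rw [smul_eq_mul, Subalgebra.coe_mul, hx, Finset.mul_sum]
        rfl } with hJ
  obtain ⟨ε, hε, hspan⟩ := IsSemisimpleRing.ideal_eq_span_idempotent (R := kalg W X) J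
  have hεJ : ε ∈ J := by rw [hspan]; exact Ideal.mem_span_singleton_self _
  obtain ⟨ψ, hψ, hE⟩ := hεJ
  have hfix : ∀ x : kalg W X, x ∈ J → x * ε = x := by
    intro x hx
    rw [hspan] at hx
    obtain ⟨r, hr⟩ := Ideal.mem_span_singleton'.1 hx
    rw [← hr, mul_assoc, hε.eq]
  have hE0 : (ε : Module.End W.K (W.H X)) ∈ KOp W X X 0 := mem_kalg.1 ε.2
  have hφE : ∀ t, φ t ∘ₗ (ε : Module.End W.K (W.H X)) = φ t := by
    intro t
    have h1 : (φ t - φ t ∘ₗ (ε : Module.End W.K (W.H X))) ∈ KOp W X (Q t) (e t) :=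
      Submodule.sub_mem _ (hφ t) (KOp.cast (KOp.comp (hφ t) hE0) (by ring))
    have h2 : φ t - φ t ∘ₗ (ε : Module.End W.K (W.H X)) = 0 := by
      apply hQ t _ _ h1
      intro v hv
      have h3 : v ∘ₗ φ t ∈ KOp W X X 0 := KOp.cast (KOp.comp hv (hφ t)) (by ring)
      have h4 : (⟨v ∘ₗ φ t, mem_kalg.2 h3⟩ : kalg W X) * ε = ⟨v ∘ₗ φ t, mem_kalg.2 h3⟩ := by
        refine hfix _ ?_
        refine ⟨fun s' => if hs : s' = t then hs ▸ v else 0, fun s' => ?_, ?_⟩
        · by_cases hs : s' = t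
          · subst hs
            simpa using hv
          · simp only [hs, dite_false]
            exact Submodule.zero_mem _
        · rw [Finset.sum_eq_single t]
          · simp
          · intro s' _ hs
            simp only [hs, dite_false, LinearMap.zero_comp]
          · intro hs
            exact absurd (Finset.mem_univ t) hs
      have h5 := congrArg (fun x : kalg W X => (x : Module.End W.K (W.H X))) h4
      have h6 : v ∘ₗ (φ t - φ t ∘ₗ (ε : Module.End W.K (W.H X))) = 0 := by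
        rw [LinearMap.comp_sub, sub_eq_zero]
        exact h5.symm
      have h7 : par (W.isInternal (Q t)) ∘ₗ (φ t - φ t ∘ₗ (ε : Module.End W.K (W.H X))) ∘ₗ v =
          (φ t - φ t ∘ₗ (ε : Module.End W.K (W.H X))) ∘ₗ (par (W.isInternal X) ∘ₗ v) := by
        have := KOp.par_comm h1
        calc _ = (par (W.isInternal (Q t)) ∘ₗ (φ t - φ t ∘ₗ (ε : Module.End W.K (W.H X)))) ∘ₗ
              v := rfl
          _ = _ := by rw [this]; rfl
      have h8 : par (W.isInternal X) ∘ₗ v = v ∘ₗ par (W.isInternal (Q t)) := KOp.par_comm hv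
      rw [h7, LinearMap.trace_comp_comm', h8]
      have h9 : (v ∘ₗ par (W.isInternal (Q t))) ∘ₗ (φ t - φ t ∘ₗ (ε : Module.End W.K (W.H X))) =
          (v ∘ₗ (φ t - φ t ∘ₗ (ε : Module.End W.K (W.H X)))) ∘ₗ par (W.isInternal X) := by
        have := KOp.par_comm h1
        calc _ = v ∘ₗ (par (W.isInternal (Q t)) ∘ₗ
              (φ t - φ t ∘ₗ (ε : Module.End W.K (W.H X)))) := rfl
          _ = _ := by rw [this]; rfl
      rw [h9, h6, LinearMap.zero_comp, map_zero]
    exact (sub_eq_zero.1 h2).symm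
  refine ⟨ψ, hψ, ?_⟩
  rw [← hE]
  apply LinearMap.ext
  intro a
  rw [Module.End.one_apply, ← sub_eq_zero]
  apply hinj
  intro t
  rw [map_sub, sub_eq_zero]
  exact congrArg (fun F => F a) (hφE t)

/-- Products of algebraic correspondences of opposite degrees are linear combinations of
correspondences given by compositions of cycles. -/
lemma KOp.comp_span {d e : ℤ} (hde : d + e = 0) {φ : W.H X →ₗ[W.K] W.H Y}
    {ψ : W.H Y →ₗ[W.K] W.H X} (hφ : φ ∈ KOp W X Y d) (hψ : ψ ∈ KOp W Y X e) :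
    ψ ∘ₗ φ ∈ Submodule.span W.K {T : Module.End W.K (W.H X) | ∃ (p p' : ℕ)
      (z : (X.prod Y).Cycles) (w : (Y.prod X).Cycles), (X.prod Y).IsCyc p z ∧
        (Y.prod X).IsCyc p' w ∧ p + p' = X.dim + Y.dim ∧
          T = W.corr (W.cl _ w) ∘ₗ W.corr (W.cl _ z)} := by
  induction hψ using Submodule.span_induction with
  | mem x hx =>
    obtain ⟨q, hq, w, hw, rfl⟩ := hx
    induction hφ using Submodule.span_induction with
    | mem x hx =>
      obtain ⟨p, hp, z, hz, rfl⟩ := hx
      exact Submodule.subset_span ⟨p, q, z, w, hz, hw, by omega, rfl⟩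
    | zero => rw [LinearMap.comp_zero]; exact Submodule.zero_mem _
    | add x y _ _ hx hy => rw [LinearMap.comp_add]; exact Submodule.add_mem _ hx hy
    | smul a x _ hx => rw [LinearMap.comp_smul]; exact Submodule.smul_mem _ _ hx
  | zero => rw [LinearMap.zero_comp]; exact Submodule.zero_mem _
  | add x y _ _ hx hy => rw [LinearMap.add_comp]; exact Submodule.add_mem _ hx hy
  | smul a x _ hx => rw [LinearMap.smul_comp]; exact Submodule.smul_mem _ _ hx

/-- **The diagonal is numerically equivalent to a rational combination of compositions.** -/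
theorem exists_rational {m : ℕ} {Q : Fin m → 𝒱.Obj} {e : Fin m → ℤ}
    {φ : ∀ t, W.H X →ₗ[W.K] W.H (Q t)} (hφ : ∀ t, φ t ∈ KOp W X (Q t) (e t))
    {ψ : ∀ t, W.H (Q t) →ₗ[W.K] W.H X} (hψ : ∀ t, ψ t ∈ KOp W (Q t) X (-(e t)))
    (hsum : ∑ t, ψ t ∘ₗ φ t = 1) {δ : (X.prod X).Cycles} (hδ : (X.prod X).IsCyc X.dim δ)
    (hδ1 : W.corr (W.cl _ δ) = 1) :
    ∃ (N : ℕ) (t : Fin N → Fin m) (r : Fin N → ℚ) (p p' : Fin N → ℕ)
      (z : ∀ i, (X.prod (Q (t i))).Cycles) (w : ∀ i, ((Q (t i)).prod X).Cycles),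
      (∀ i, (X.prod (Q (t i))).IsCyc (p i) (z i)) ∧ (∀ i, ((Q (t i)).prod X).IsCyc (p' i) (w i)) ∧
      (∀ i, p i + p' i = X.dim + (Q (t i)).dim) ∧
      ∀ y, (X.prod X).IsCyc X.dim y → (X.prod X).V.degCycle
        (ops.mul ((∑ i, r i • compCyc ops (z i) (w i)) - δ) y) = 0 := by
  classical
  have h1 : (1 : Module.End W.K (W.H X)) ∈ Submodule.span W.K {T : Module.End W.K (W.H X) |
      ∃ (t : Fin m) (p p' : ℕ) (z : (X.prod (Q t)).Cycles) (w : ((Q t).prod X).Cycles),
        (X.prod (Q t)).IsCyc p z ∧ ((Q t).prod X).IsCyc p' w ∧ p + p' = X.dim + (Q t).dim ∧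
          T = W.corr (W.cl _ w) ∘ₗ W.corr (W.cl _ z)} := by
    rw [← hsum]
    refine Submodule.sum_mem _ (fun t _ => ?_)
    refine Submodule.span_mono ?_ (KOp.comp_span (add_neg_cancel (e t)) (hφ t) (hψ t))
    rintro T ⟨p, p', z, w, h1, h2, h3, h4⟩
    exact ⟨t, p, p', z, w, h1, h2, h3, h4⟩
  obtain ⟨N, κ, g, hg⟩ := Submodule.mem_span_set'.1 h1
  choose t p p' z w hz hw hpp hT using fun j => (g j).2
  obtain ⟨f, hf⟩ := (Algebra.linearMap ℚ W.K).exists_leftInverse_of_injective
    (LinearMap.ker_eq_bot.2 (algebraMap ℚ W.K).injective)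
  have hf1 : f 1 = 1 := by
    have := congrArg (fun F => F 1) hf
    simpa using this
  have hfm : ∀ (x : W.K) (s : ℚ), f (x * (s : W.K)) = f x * s := by
    intro x s
    have : x * (s : W.K) = s • x := by rw [Rat.smul_def, mul_comm]
    rw [this, map_smul, smul_eq_mul, mul_comm]
  have hcyc : ∀ j, (X.prod X).IsCyc X.dim (compCyc ops (z j) (w j)) :=
    fun j => compCyc_mem (hz j) (hw j) (hpp j)
  have hclsum : W.cl _ δ = ∑ j, κ j • W.cl _ (compCyc ops (z j) (w j)) := by
    rw [← sub_eq_zero]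
    apply corr_inj
    have h2 : ∀ s : Finset (Fin N), W.corr (∑ j ∈ s, κ j • W.cl _ (compCyc ops (z j) (w j))) =
        ∑ j ∈ s, κ j • W.corr (W.cl _ (compCyc ops (z j) (w j))) := by
      intro s
      induction s using Finset.induction_on with
      | empty => rw [Finset.sum_empty, Finset.sum_empty, corr_zero]
      | insert j s hj ih =>
        rw [Finset.sum_insert hj, Finset.sum_insert hj, corr_add, corr_smul, ih]
    have h3 : W.cl _ δ - ∑ j, κ j • W.cl _ (compCyc ops (z j) (w j)) =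
        W.cl _ δ + (-1 : W.K) • ∑ j, κ j • W.cl _ (compCyc ops (z j) (w j)) := by
      rw [neg_one_smul, sub_eq_add_neg]
    have h4 : ∑ j, κ j • W.corr (W.cl _ (compCyc ops (z j) (w j))) = 1 := by
      rw [← hg]
      exact Finset.sum_congr rfl (fun j _ => by rw [hT j, corr_compCyc W (hw j)])
    rw [h3, corr_add, corr_smul, h2, hδ1, h4]
    apply LinearMap.ext
    intro a
    simp
  refine ⟨N, t, fun j => f (κ j), p, p', z, w, hz, hw, hpp, fun y hy => ?_⟩
  have hsumc : ∀ s : Finset (Fin N), (X.prod X).IsCyc X.dim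
      (∑ j ∈ s, f (κ j) • compCyc ops (z j) (w j)) := by
    intro s
    induction s using Finset.induction_on with
    | empty => rw [Finset.sum_empty]; exact SmVar.IsCyc.zero _ _
    | insert j s hj ih =>
      rw [Finset.sum_insert hj]
      exact ((hcyc j).smul _).add ih
  have hζ : (X.prod X).IsCyc X.dim ((∑ j, f (κ j) • compCyc ops (z j) (w j)) - δ) := by
    have h2 := (hsumc univ).add (hδ.smul (-1))
    rwa [neg_one_smul, ← sub_eq_add_neg] at h2
  have htr : ∀ (a b : (X.prod X).Cycles), (X.prod X).IsCyc X.dim a → (X.prod X).IsCyc X.dim b →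
      W.tr _ (W.cl _ a * W.cl _ b) = ((X.prod X).V.degCycle (ops.mul a b) : W.K) := by
    intro a b ha hb
    rw [← W.cl_mul]
    apply W.tr_cl
    have h2 := ops.mul_mem ha hb
    rwa [← dim_prod] at h2
  have h5 : ((X.prod X).V.degCycle (ops.mul δ y) : W.K) =
      ∑ j, κ j * ((X.prod X).V.degCycle (ops.mul (compCyc ops (z j) (w j)) y) : W.K) := by
    rw [← htr _ _ hδ hy, hclsum, Finset.sum_mul, map_sum]
    exact Finset.sum_congr rfl (fun j _ => by
      rw [smul_mul_assoc, map_smul, htr _ _ (hcyc j) hy, smul_eq_mul])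
  have h6 : (X.prod X).V.degCycle (ops.mul δ y) =
      ∑ j, f (κ j) * (X.prod X).V.degCycle (ops.mul (compCyc ops (z j) (w j)) y) := by
    have h7 := congrArg f h5
    rw [map_sum] at h7
    simp only [hfm] at h7
    have h8 := hfm 1 ((X.prod X).V.degCycle (ops.mul δ y))
    rw [one_mul, hf1, one_mul] at h8
    rw [h8] at h7
    exact h7
  have h9 : ((X.prod X).V.degCycle
      (ops.mul ((∑ j, f (κ j) • compCyc ops (z j) (w j)) - δ) y) : W.K) = ((0 : ℚ) : W.K) := by
    rw [← htr _ _ hζ hy, map_sub, sub_mul, map_sub, map_sum, Finset.sum_mul, map_sum,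
      htr _ _ hδ hy]
    have h10 : ∀ j, W.tr _ (W.cl _ (f (κ j) • compCyc ops (z j) (w j)) * W.cl _ y) =
        ((f (κ j) * (X.prod X).V.degCycle (ops.mul (compCyc ops (z j) (w j)) y) : ℚ) : W.K) := by
      intro j
      rw [W.cl_smul, smul_mul_assoc, map_smul, htr _ _ (hcyc j) hy, smul_eq_mul, Rat.cast_mul]
    rw [Finset.sum_congr rfl (fun j _ => h10 j), ← Rat.cast_sum, ← h6, sub_self, Rat.cast_zero]
  exact_mod_cast h9

end Pool.Agent.H914
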