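import Pool.Agent.H914R2.HodgeDefs

/-!
# Products of polarized varieties with an endomorphism: definitions
-/

open CategoryTheory AlgebraicGeometry Polynomial

universe u v w

namespace Pool.Agent.H914

section Alg

variable {K : Type*} [Field K] {V : Type*} [AddCommGroup V] [Module K V] [Module.Finite K V]

/-- The subspace `U` is stable under the operator `F`, and the characteristic polynomial of the
restriction of `F` to it is squarefree. -/
def SquarefreeOn (F : Module.End K V) (U : Submodule K V) : Prop :=
  ∃ h : ∀ a ∈ U, F a ∈ U, Squarefree (F.restrict h).charpoly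

/-- The number `α` in the algebraic closure of the field is an eigenvalue of the restriction of
the operator `F` to the stable subspace `U`. -/
def IsEigenvalueOn (F : Module.End K V) (U : Submodule K V) (α : AlgebraicClosure K) : Prop :=
  ∃ h : ∀ a ∈ U, F a ∈ U, aeval α (F.restrict h).charpoly = 0

/-- The numbers in the sets `E j` satisfy only the obvious multiplicative relations: a product of
such numbers whose square is, up to a root of unity, the power of `q` predicted by the weights
`n j` is a product of pairs `α`, `q ^ n j / α` of numbers belonging to the same index `j`. -/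
def NeatFamily {ι : Type*} {L : Type*} [Field L] (E : ι → Set L) (n : ι → ℕ) (q : ℕ) : Prop :=
  ∀ s : Multiset (ι × L), (∀ x ∈ s, x.2 ∈ E x.1) → ∀ m ≥ 1,
    (s.map Prod.snd).prod ^ (2 * m) = (q : L) ^ (m * (s.map (fun x => n x.1)).sum) →
    ∃ t : Multiset (ι × L), s = t + t.map (fun x => (x.1, (q : L) ^ n x.1 / x.2))

end Alg

open VarClass Obj WeilCohomology

variable {k : Type u} [Field k] {𝒱 : VarClass k} {ops : CycleOps 𝒱}

/-- A variety in the class `𝒱` with a cycle `D` (in the intended use: a divisor) and an
endomorphism `f`. -/
structure PolVar (𝒱 : VarClass k) where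
  /-- the variety -/
  X : 𝒱.Obj
  /-- the divisor -/
  D : X.Cycles
  /-- the endomorphism -/
  f : X ⟶ X

/-- The product `X × Y` with the divisor `D_X × Y + X × D_Y` and the endomorphism `f_X × f_Y`. -/
noncomputable def PolVar.prod (ops : CycleOps 𝒱) (P Q : PolVar 𝒱) : PolVar 𝒱 where
  X := P.X.prod Q.X
  D := ops.pull (fst P.X Q.X) P.D + ops.pull (snd P.X Q.X) Q.D
  f := Obj.lift (fst P.X Q.X ≫ P.f) (snd P.X Q.X ≫ Q.f)

/-- The iterated products of members of the family `P` (with any bracketing and repetitions). -/
inductive IsIteratedProduct (ops : CycleOps 𝒱) {ι : Type w} (P : ι → PolVar 𝒱) :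
    PolVar 𝒱 → Prop
  | base (i : ι) : IsIteratedProduct ops P (P i)
  | prod {Q R : PolVar 𝒱} : IsIteratedProduct ops P Q → IsIteratedProduct ops P R →
      IsIteratedProduct ops P (Q.prod ops R)

/-- The operator `f^*` preserves the transcendental cohomology of `X`, and its characteristic
polynomial there is squarefree. -/
def SquarefreeSpectrum (W : WeilCohomology.{u, v} ops) (X : 𝒱.Obj) (f : X ⟶ X) : Prop :=
  SquarefreeOn (W.map f).toLinearMap (transcendental W X)

/-- The number `α` (in the algebraic closure of the coefficient field) is an eigenvalue of `f^*`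
on the transcendental cohomology of `X`. -/
def IsTransEigenvalue (W : WeilCohomology.{u, v} ops) (P : PolVar 𝒱)
    (α : AlgebraicClosure W.K) : Prop :=
  IsEigenvalueOn (W.map P.f).toLinearMap (transcendental W P.X) α

/-- The eigenvalues of the endomorphisms on the transcendental cohomology of the members of the
family satisfy only the obvious multiplicative relations. -/
def NeatSpectrum (W : WeilCohomology.{u, v} ops) {ι : Type w} (P : ι → PolVar 𝒱) (q : ℕ) : Prop :=
  NeatFamily (fun j => {α | IsTransEigenvalue W (P j) α}) (fun j => (P j).X.dim) q

end Pool.Agent.H914
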