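import Pool.Agent.H914R2.PEig
import Pool.Agent.H914R2.PDesc

/-!
# Eigenvectors over the algebraic closure of the coefficient field
-/

open CategoryTheory AlgebraicGeometry Finset Polynomial TensorProduct

universe u v w

namespace Pool.Agent.H914

section Alg

variable {K : Type*} [Field K] [CharZero K] {A : Type*} [AddCommGroup A] [Module K A]
  [Module.Finite K A] (L : Type*) [Field L] [Algebra K L]

/-- The extension of the inclusion of a subspace. -/
noncomputable def incl (T : Submodule K A) : L ⊗[K] T →ₗ[L] L ⊗[K] A := T.subtype.baseChange L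

variable {L} {T : Submodule K A}

omit [CharZero K] [Module.Finite K A] in
lemma incl_tmul (l : L) (t : T) : incl L T (l ⊗ₜ t) = l ⊗ₜ (t : A) := by
  rw [incl, LinearMap.baseChange_tmul]
  rfl

omit [CharZero K] [Module.Finite K A] in
lemma incl_inj {y : L ⊗[K] T} (h : incl L T y = 0) : y = 0 := by
  have h1 := Module.Flat.lTensor_preserves_injective_linearMap (M := L) T.subtype
    T.subtype_injective
  apply h1
  rw [map_zero]
  exact h

omit [CharZero K] [Module.Finite K A] in
lemma incl_comm {F : Module.End K A} (hst : ∀ a ∈ T, F a ∈ T) (y : L ⊗[K] T) :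
    F.baseChange L (incl L T y) = incl L T ((F.restrict hst).baseChange L y) := by
  induction y using TensorProduct.induction_on with
  | zero => simp only [map_zero]
  | add y z hy hz => simp only [map_add, hy, hz]
  | tmul l t =>
    rw [incl_tmul, LinearMap.baseChange_tmul, LinearMap.baseChange_tmul, incl_tmul]
    rfl

omit [CharZero K] [Module.Finite K A] in
lemma incl_span {ι : Type*} [Fintype ι] (b : Module.Basis ι L (L ⊗[K] T)) (l : L) {t : A}
    (ht : t ∈ T) :
    (l ⊗ₜ[K] t : L ⊗[K] A) ∈ Submodule.span L (Set.range (fun i => incl L T (b i))) := by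
  have h1 : (l ⊗ₜ[K] t : L ⊗[K] A) = incl L T (l ⊗ₜ ⟨t, ht⟩) := by rw [incl_tmul]
  rw [h1, ← b.sum_repr (l ⊗ₜ ⟨t, ht⟩), map_sum]
  apply Submodule.sum_mem
  intro i _
  rw [map_smul]
  exact Submodule.smul_mem _ _ (Submodule.subset_span ⟨i, rfl⟩)

variable [IsAlgClosed L]

/-- Eigenvectors of an operator with squarefree characteristic polynomial. -/
lemma exists_eigvec {F : Module.End K A} (hst : ∀ a ∈ T, F a ∈ T)
    (hsq : Squarefree (F.restrict hst).charpoly) : ∃ (S : Finset L)
    (b : Module.Basis S L (L ⊗[K] T)), (∀ i, F.baseChange L (incl L T (b i)) =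
      (i : L) • incl L T (b i)) ∧ ∀ i : S, aeval (i : L) (F.restrict hst).charpoly = 0 := by
  have hG : HasSimple (F.restrict hst) := ⟨_, hsq, LinearMap.charpoly_natDegree _,
    fun Q hQ => charpoly_dvd_of_squarefree hsq hQ⟩
  obtain ⟨S, b, hb⟩ := exists_eigenbasis L hG
  refine ⟨S, b, fun i => ?_, fun i => ?_⟩
  · rw [incl_comm hst, hb, map_smul]
  · have h1 : Module.End.HasEigenvalue ((F.restrict hst).baseChange L) (i : L) :=
      Module.End.hasEigenvalue_of_hasEigenvector
        ⟨Module.End.mem_eigenspace_iff.2 (hb i), b.ne_zero i⟩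
    have h2 := (Module.End.hasEigenvalue_iff_isRoot_charpoly _ _).1 h1
    rw [LinearMap.charpoly_baseChange, IsRoot, eval_map_algebraMap] at h2
    exact h2

end Alg

/-- The eigenvalues are roots of the annihilating polynomials. -/
lemma root_of_kill {K : Type*} [Field K] [CharZero K] {A : Type*} [Ring A] [Algebra K A]
    {L : Type*} [Field L] [Algebra K L] [CharZero L]
    {F : Module.End K A} {U : Submodule K A} {P : ℚ[X]}
    (hP : ∀ a ∈ U, aeval F (P.map (algebraMap ℚ K)) a = 0) {y : L ⊗[K] A}
    (hy : y ∈ U.baseChange L) (hy0 : y ≠ 0) {α : L} (hα : F.baseChange L y = α • y) :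
    aeval α P = 0 := by
  have h1 : (aeval F (P.map (algebraMap ℚ K))).baseChange L y = 0 := by
    refine base_induction (P := fun y =>
      (aeval F (P.map (algebraMap ℚ K))).baseChange L y = 0) (map_zero _) ?_ ?_ hy
    · intro y z hy hz; rw [map_add, hy, hz, add_zero]
    · intro l a ha
      rw [LinearMap.baseChange_tmul, hP a ha, tmul_zero]
  rw [← aeval_base, aeval_eig hα] at h1
  rcases smul_eq_zero.1 h1 with h2 | h2
  · rw [Polynomial.map_map, Subsingleton.elim ((algebraMap K L).comp (algebraMap ℚ K))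
      (algebraMap ℚ L), eval_map_algebraMap] at h2
    exact h2
  · exact absurd h2 hy0

section Sigma

variable {L : Type*} [Field L] [CharZero L] [IsAlgClosed L]

lemma sigma_root {P : ℚ[X]} {α : L} (hmem : α ∈ algebraicClosure ℚ L) (hα : aeval α P = 0) :
    aeval (sigmaC L ⟨α, hmem⟩) P = 0 := by
  have h1 : Polynomial.eval₂ (algebraMap ℚ (algebraicClosure ℚ L))
      (⟨α, hmem⟩ : algebraicClosure ℚ L) P = 0 := by
    apply (algebraMap (algebraicClosure ℚ L) L).injective
    rw [map_zero, Polynomial.hom_eval₂]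
    rw [Polynomial.aeval_def] at hα
    rw [← hα]
    congr 1
  have h2 := congrArg (sigmaC L) h1
  rw [map_zero, Polynomial.hom_eval₂] at h2
  rw [Polynomial.aeval_def, ← h2]
  congr 1
  exact Subsingleton.elim _ _

lemma mem_of_root {P : ℚ[X]} (hP : P ≠ 0) {α : L} (hα : aeval α P = 0) :
    α ∈ algebraicClosure ℚ L := by
  rw [mem_algebraicClosure_iff]
  exact ⟨P, hP, hα⟩

/-- Conjugate eigenvalues. -/
lemma sigma_conj {P : ℚ[X]} (hP : P ≠ 0) {q n : ℕ} (hq : q ≠ 0)
    (hPz : ∀ z : ℂ, aeval z P = 0 → ‖z‖ ^ 2 = (q : ℝ) ^ n)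
    {α β : L} (hα : aeval α P = 0) (hβ : aeval β P = 0) (hαβ : α * β = (q : L) ^ n) :
    sigmaC L ⟨β, mem_of_root hP hβ⟩ = (starRingEnd ℂ) (sigmaC L ⟨α, mem_of_root hP hα⟩) := by
  set z := sigmaC L ⟨α, mem_of_root hP hα⟩ with hz
  have h1 := hPz z (sigma_root _ hα)
  have h2 : z * (starRingEnd ℂ) z = (q : ℂ) ^ n := by
    rw [Complex.mul_conj, Complex.normSq_eq_norm_sq, h1]
    push_cast
    rfl
  have h3 : z * sigmaC L ⟨β, mem_of_root hP hβ⟩ = (q : ℂ) ^ n := by
    rw [hz, ← map_mul]
    have : (⟨α, mem_of_root hP hα⟩ * ⟨β, mem_of_root hP hβ⟩ : algebraicClosure ℚ L) =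
        (q : algebraicClosure ℚ L) ^ n := by
      apply Subtype.ext
      push_cast
      exact hαβ
    rw [this, map_pow, map_natCast]
  have hz0 : z ≠ 0 := by
    intro h0
    rw [h0, zero_mul] at h3
    exact pow_ne_zero n (by exact_mod_cast hq) h3.symm
  exact mul_left_cancel₀ hz0 (h3.trans h2.symm)

end Sigma

open VarClass Obj WeilCohomology

variable {k : Type u} [Field k] {𝒱 : VarClass k} {ops : CycleOps 𝒱}
  {W : WeilCohomology.{u, v} ops} {X Y Z : 𝒱.Obj}

/-- The Weil cohomology theory with coefficients in the algebraic closure. -/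
noncomputable abbrev barW (W : WeilCohomology.{u, v} ops) : WeilCohomology.{u, v} ops :=
  baseW W (AlgebraicClosure W.K)

instance : CharZero (AlgebraicClosure W.K) :=
  charZero_of_injective_algebraMap (algebraMap W.K (AlgebraicClosure W.K)).injective

/-- The real structure of the extended coefficient field. -/
noncomputable def barR (W : WeilCohomology.{u, v} ops) : RealField (barW W).K :=
  (realField (AlgebraicClosure W.K) : RealField (AlgebraicClosure W.K))

lemma incl_trans (y : AlgebraicClosure W.K ⊗[W.K] transcendental W X) :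
    (incl (AlgebraicClosure W.K) (transcendental W X) y : (barW W).H X) ∈
      transcendental (barW W) X := by
  induction y using TensorProduct.induction_on with
  | zero => rw [map_zero]; exact Submodule.zero_mem _
  | add y z hy hz => rw [map_add]; exact Submodule.add_mem _ hy hz
  | tmul l t =>
    rw [incl_tmul]
    exact tmul_trans t.2 l

/-- **The eigenvectors over the algebraic closure.** -/
theorem exists_tProps_bar {P : PolVar 𝒱} {Lam : Module.End W.K (W.H P.X)} {κ : Type}
    [Fintype κ] {l : κ → ℕ} {x : κ → W.H P.X} {φ : κ → ℚ} {p : Module.End W.K (W.H P.X)}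
    (h : Setup W P.X P.D Lam κ l x φ p)
    {Lam' : Module.End (barW W).K ((barW W).H P.X)} {κ' : Type}
    [Fintype κ'] {l' : κ' → ℕ} {x' : κ' → (barW W).H P.X} {φ' : κ' → ℚ}
    {p' : Module.End (barW W).K ((barW W).H P.X)}
    (h' : Setup (barW W) P.X P.D Lam' κ' l' x' φ' p') {q : ℕ} (hq : q ≠ 0)
    (hmid : transcendental W P.X ≤ W.gr P.X P.X.dim)
    (hF : FrobeniusOnCycles W P.X P.f q)
    (hRH : RiemannHypothesis W P.X P.f q) (hS : SquarefreeSpectrum W P.X P.f)
    (hN1 : ∀ α, IsTransEigenvalue W P α →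
      α * α ≠ (q : AlgebraicClosure W.K) ^ P.X.dim)
    (hN2 : ∀ α β, IsTransEigenvalue W P α → IsTransEigenvalue W P β → ∀ m ≥ 1,
      (α * β) ^ m = ((q : AlgebraicClosure W.K) ^ P.X.dim) ^ m →
      α * β = (q : AlgebraicClosure W.K) ^ P.X.dim) :
    ∃ (S : Finset (AlgebraicClosure W.K)) (vec : S → (barW W).H P.X) (kap : S → (barW W).K)
      (bar : S → S) (η : S → Bool),
      TProps (barW W) P.X P.f (barR W)
        (fun i : S => ((i : AlgebraicClosure W.K) : (barW W).K)) vec kap bar η ∧
      (∀ i : S, IsTransEigenvalue W P i) ∧ ∀ i : S,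
        (i : AlgebraicClosure W.K) * bar i = (q : AlgebraicClosure W.K) ^ P.X.dim := by
  obtain ⟨hst, hsq1⟩ := hS
  obtain ⟨S, b, hb, hroot⟩ := exists_eigvec (L := AlgebraicClosure W.K) hst hsq1
  have hIs : ∀ i : S, IsTransEigenvalue W P i := fun i => ⟨hst, hroot i⟩
  obtain ⟨Q, hQ0, hQa, hQz⟩ := hRH P.X.dim
  have hmem : ∀ i : S, incl (AlgebraicClosure W.K) (transcendental W P.X) (b i) ∈
      (W.gr P.X P.X.dim).baseChange (AlgebraicClosure W.K) := fun i =>
    base_mid h hmid (incl_trans (b i))
  have hne : ∀ i : S, incl (AlgebraicClosure W.K) (transcendental W P.X) (b i) ≠ 0 :=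
    fun i h0 => b.ne_zero i (incl_inj h0)
  have hQroot : ∀ i : S, aeval (i : AlgebraicClosure W.K) Q = 0 := fun i =>
    root_of_kill hQa (hmem i) (hne i) (hb i)
  have hcj : ∀ i j : S, (i : AlgebraicClosure W.K) * j = (q : AlgebraicClosure W.K) ^ P.X.dim →
      (realField (AlgebraicClosure W.K)).Cj i j := fun i j hij =>
    cj_of_conj (mem_of_root hQ0 (hQroot i)) (mem_of_root hQ0 (hQroot j))
      (sigma_conj hQ0 hq hQz (hQroot i) (hQroot j) hij)
  set η : S → Bool := fun i => decide (0 < (sigmaC (AlgebraicClosure W.K)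
      ⟨i, mem_of_root hQ0 (hQroot i)⟩).im) with hη
  have hηη : ∀ i j : S, (i : AlgebraicClosure W.K) * j = (q : AlgebraicClosure W.K) ^ P.X.dim →
      η j = !(η i) := by
    intro i j hij
    have h1 := sigma_conj hQ0 hq hQz (hQroot i) (hQroot j) hij
    rw [hη]
    beta_reduce
    set z := sigmaC (AlgebraicClosure W.K) ⟨i, mem_of_root hQ0 (hQroot i)⟩ with hz
    have h2 : z.im ≠ 0 := by
      intro h0
      rw [conj_im_zero.1 h0] at h1
      have h3 := congrArg Subtype.val ((sigmaC (AlgebraicClosure W.K)).injective h1)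
      change (j : AlgebraicClosure W.K) = i at h3
      apply hN1 _ (hIs i)
      rwa [h3] at hij
    rw [h1, Complex.conj_im]
    rcases lt_or_gt_of_ne h2 with h3 | h3
    · rw [decide_eq_true (by linarith), decide_eq_false (by linarith)]
      rfl
    · rw [decide_eq_false (by linarith), decide_eq_true (by linarith)]
      rfl
  obtain ⟨vec, kap, bar, T, hbar⟩ := exists_tProps (𝓡 := barR W) h' (q := q) (base_mid h hmid)
    (base_frob hF) hq (A := S)
    (al := fun i : S => ((i : AlgebraicClosure W.K) : (barW W).K))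
    Subtype.val_injective
    (v₀ := fun i => (incl (AlgebraicClosure W.K) (transcendental W P.X) (b i) :
      AlgebraicClosure W.K ⊗[W.K] W.H P.X)) (fun i => incl_trans (b i))
    (by
      intro y hy
      have h1 : ∀ y : AlgebraicClosure W.K ⊗[W.K] W.H P.X,
          y ∈ (transcendental W P.X).baseChange (AlgebraicClosure W.K) →
          y ∈ Submodule.span (AlgebraicClosure W.K) (Set.range (fun i =>
            incl (AlgebraicClosure W.K) (transcendental W P.X) (b i))) := by
        intro y hy
        refine base_induction (P := fun y => y ∈ Submodule.span (AlgebraicClosure W.K)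
          (Set.range (fun i => incl (AlgebraicClosure W.K) (transcendental W P.X) (b i))))
          (Submodule.zero_mem _) (fun _ _ => Submodule.add_mem _) ?_ hy
        intro l a ha
        exact incl_span b l ha
      exact h1 y (base_trans_le h hy))
    hb hne
    (fun i j m hm hij => hN2 _ _ (hIs i) (hIs j) m hm hij)
    hcj (η := η) hηη
  exact ⟨S, vec, kap, bar, η, T, hIs, hbar⟩

end Pool.Agent.H914
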