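import Pool.Agent.H914R2.PFin

/-!
# The standard conjecture of Hodge type for products: the assembly
-/

open CategoryTheory AlgebraicGeometry Finset Polynomial TensorProduct

universe u v w

namespace Pool.Agent.H914

open VarClass Obj WeilCohomology

variable {k : Type u} [Field k] {𝒱 : VarClass k} {ops : CycleOps 𝒱}
  {W : WeilCohomology.{u, v} ops}

section Neat

variable {ι : Type w} {P : ι → PolVar 𝒱} {q : ℕ}

lemma neat_one (hN : NeatSpectrum W P q) (j : ι) (α : AlgebraicClosure W.K)
    (hα : IsTransEigenvalue W (P j) α) :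
    α * α ≠ (q : AlgebraicClosure W.K) ^ (P j).X.dim := by
  intro h0
  obtain ⟨t, ht⟩ := hN {(j, α)} (by
    intro x hx
    rw [Multiset.mem_singleton] at hx
    subst hx
    exact hα) 1 le_rfl (by
    rw [Multiset.map_singleton, Multiset.prod_singleton, Multiset.map_singleton,
      Multiset.sum_singleton, mul_one, one_mul, pow_two]
    exact h0)
  have h1 := congrArg Multiset.card ht
  rw [Multiset.card_singleton, Multiset.card_add, Multiset.card_map] at h1
  omega

lemma neat_two (hN : NeatSpectrum W P q) (hq : q ≠ 0) (j : ι) (α β : AlgebraicClosure W.K)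
    (hα : IsTransEigenvalue W (P j) α) (hβ : IsTransEigenvalue W (P j) β) (m : ℕ) (hm : m ≥ 1)
    (h : (α * β) ^ m = ((q : AlgebraicClosure W.K) ^ (P j).X.dim) ^ m) :
    α * β = (q : AlgebraicClosure W.K) ^ (P j).X.dim := by
  have hqL : (q : AlgebraicClosure W.K) ≠ 0 := by exact_mod_cast hq
  have h0 : α * β ≠ 0 := by
    intro h0
    rw [h0, zero_pow (by omega)] at h
    exact pow_ne_zero _ (pow_ne_zero _ hqL) h.symm
  obtain ⟨t, ht⟩ := hN ((j, α) ::ₘ {(j, β)}) (by
    intro x hx
    rw [Multiset.mem_cons, Multiset.mem_singleton] at hx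
    rcases hx with rfl | rfl
    · exact hα
    · exact hβ) m hm (by
    rw [Multiset.map_cons, Multiset.map_singleton, Multiset.prod_cons, Multiset.prod_singleton,
      Multiset.map_cons, Multiset.map_singleton, Multiset.sum_cons, Multiset.sum_singleton]
    change (α * β) ^ (2 * m) = (q : AlgebraicClosure W.K) ^ (m * ((P j).X.dim + (P j).X.dim))
    rw [mul_comm 2 m, pow_mul, h, ← pow_mul, ← pow_mul]
    congr 1
    ring)
  have h1 := congrArg Multiset.card ht
  rw [Multiset.card_cons, Multiset.card_singleton, Multiset.card_add, Multiset.card_map] at h1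
  obtain ⟨x, rfl⟩ := Multiset.card_eq_one.1 (show Multiset.card t = 1 by omega)
  have hx : x ∈ ((j, α) ::ₘ {(j, β)} : Multiset (ι × AlgebraicClosure W.K)) := by
    rw [ht, Multiset.mem_add]
    exact Or.inl (Multiset.mem_singleton_self x)
  have hx1 : x.1 = j ∧ x.2 ≠ 0 := by
    rw [Multiset.mem_cons, Multiset.mem_singleton] at hx
    rcases hx with rfl | rfl
    · exact ⟨rfl, left_ne_zero_of_mul h0⟩
    · exact ⟨rfl, right_ne_zero_of_mul h0⟩
  have h2 := congrArg (fun s => (Multiset.map Prod.snd s).prod) ht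
  simp only [Multiset.map_cons, Multiset.map_singleton, Multiset.prod_cons,
    Multiset.prod_singleton, Multiset.map_add, Multiset.prod_add] at h2
  rw [h2, hx1.1, mul_div_cancel₀ _ hx1.2]

end Neat

section Member

/-- The data for a single member of the family. -/
lemma exists_member {P : PolVar 𝒱} {q : ℕ} (hq : q ≠ 0) (hD : P.X.IsCyc 1 P.D)
    (hHL : HardLefschetz W P.X P.D) (hA : LefschetzA W P.X P.D) (hH : HodgeType W P.X P.D)
    (hmid : transcendental W P.X ≤ W.gr P.X P.X.dim)
    (hF : FrobeniusOnCycles W P.X P.f q)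
    (hRH : RiemannHypothesis W P.X P.f q) (hS : SquarefreeSpectrum W P.X P.f)
    (hN1 : ∀ α, IsTransEigenvalue W P α →
      α * α ≠ (q : AlgebraicClosure W.K) ^ P.X.dim)
    (hN2 : ∀ α β, IsTransEigenvalue W P α → IsTransEigenvalue W P β → ∀ m ≥ 1,
      (α * β) ^ m = ((q : AlgebraicClosure W.K) ^ P.X.dim) ^ m →
      α * β = (q : AlgebraicClosure W.K) ^ P.X.dim) :
    ∃ (S : Finset (AlgebraicClosure W.K)) (vec : S → (barW W).H P.X) (kap : S → (barW W).K)
      (bar : S → S) (η : S → Bool) (Lam : Module.End (barW W).K ((barW W).H P.X))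
      (κ : Type) (_ : Fintype κ) (l : κ → ℕ) (x : κ → (barW W).H P.X)
      (φ : κ → ℚ) (p : Module.End (barW W).K ((barW W).H P.X)),
      Setup (barW W) P.X P.D Lam κ l x φ p ∧
      TProps (barW W) P.X P.f (barR W)
        (fun i : S => ((i : AlgebraicClosure W.K) : (barW W).K)) vec kap bar η ∧
      (∀ i : S, IsTransEigenvalue W P i) ∧ ∀ i : S,
        (i : AlgebraicClosure W.K) * bar i = (q : AlgebraicClosure W.K) ^ P.X.dim := by
  obtain ⟨Lam, κ, hκ, l, x, φ, p, h⟩ := exists_setup hD hHL hA hH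
  obtain ⟨Lam', κ', hκ', l', x', φ', p', h'⟩ := exists_setup (W := barW W) hD
    (base_hardLefschetz hD hHL) (base_lefschetzA hA) (base_hodgeType.2 hH)
  obtain ⟨S, vec, kap, bar, η, T, hIs, hbar⟩ := exists_tProps_bar h h' hq hmid hF hRH hS hN1 hN2
  exact ⟨S, vec, kap, bar, η, Lam', κ', hκ', l', x', φ', p', h', T, hIs, hbar⟩

end Member

section Main

variable {ι : Type w} {P : ι → PolVar 𝒱} {q : ℕ}

/-- The labels of the family. -/
noncomputable def famLabels (W : WeilCohomology.{u, v} ops) {ι : Type w} (P : ι → PolVar 𝒱)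
    (S : ι → Finset (AlgebraicClosure W.K)) (vec : ∀ j, S j → (barW W).H (P j).X)
    (kap : ∀ j, S j → (barW W).K) (bar : ∀ j, S j → S j) :
    LabelData (barW W) (fun j => (P j).X) (barR W) where
  A j := S j
  al _ a := (a : AlgebraicClosure W.K)
  vec := vec
  gam j a := (-1 : (barW W).K) ^ ((P j).X.dim.choose 2) * kap j a
  VR j := VRof (barR W) (vec j) (bar j)

theorem main (hq : q ≠ 0) (hD : ∀ j, (P j).X.IsCyc 1 (P j).D)
    (hHL : ∀ j, HardLefschetz W (P j).X (P j).D) (hA : ∀ j, LefschetzA W (P j).X (P j).D)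
    (hH : ∀ j, HodgeType W (P j).X (P j).D)
    (hmid : ∀ j, transcendental W (P j).X ≤ W.gr (P j).X (P j).X.dim)
    (hRH : ∀ j, RiemannHypothesis W (P j).X (P j).f q)
    (hS : ∀ j, SquarefreeSpectrum W (P j).X (P j).f) (hN : NeatSpectrum W P q)
    (hF : ∀ Q, IsIteratedProduct ops P Q → FrobeniusOnCycles W Q.X Q.f q) :
    ∀ Q, IsIteratedProduct ops P Q → HodgeType W Q.X Q.D ∧ HomEqNum W Q.X := by
  classical
  have hmem := fun j => exists_member hq (hD j) (hHL j) (hA j) (hH j) (hmid j)
    (hF _ (IsIteratedProduct.base j)) (hRH j) (hS j) (neat_one hN j) (neat_two hN hq j)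
  choose S vec kap bar η Lam κ hκ l x φ p h T hIs hbar using hmem
  set 𝓛 := famLabels W P S vec kap bar with h𝓛
  have hL : LabelProps 𝓛 q bar := by
    refine ⟨hq, fun j => (T j).bar_bar, ?_, fun j a => (T j).mid ((T j).trans a), ?_, ?_⟩
    · intro j a
      change ((-1 : (barW W).K) ^ ((P j).X.dim.choose 2) * kap j a) *
        ((-1 : (barW W).K) ^ ((P j).X.dim.choose 2) * kap j (bar j a)) = 1
      rw [mul_mul_mul_comm, (T j).kap_mul, ← mul_pow]
      simp
    · intro j a
      exact pair_mem_span (T j) (h j) le_rfl a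
    · intro s m hm hs
      set e : 𝓛.Lab → ι × AlgebraicClosure W.K :=
        fun x => (x.1, ((show S x.1 from x.2) : AlgebraicClosure W.K)) with he
      have hinj : Function.Injective e := by
        rintro ⟨j, a⟩ ⟨j', a'⟩ h0
        obtain rfl : j = j' := congrArg Prod.fst h0
        have h1 : ((show S j from a) : AlgebraicClosure W.K) = (show S j from a') :=
          congrArg Prod.snd h0
        congr 1
        exact Subtype.ext h1
      obtain ⟨t', ht'⟩ := hN (s.map e) (by
        intro x hx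
        rw [Multiset.mem_map] at hx
        obtain ⟨y, -, rfl⟩ := hx
        exact hIs y.1 y.2) m hm (by
        rw [Multiset.map_map, Multiset.map_map]
        exact hs)
      have hlift : ∀ t' : Multiset (ι × AlgebraicClosure W.K), (∀ x ∈ t', x ∈ Set.range e) →
          ∃ t : Multiset 𝓛.Lab, t.map e = t' := by
        intro t' ht
        induction t' using Multiset.induction_on with
        | empty => exact ⟨0, rfl⟩
        | cons a t' ih =>
          obtain ⟨t, ht2⟩ := ih (fun x hx => ht x (Multiset.mem_cons_of_mem hx))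
          obtain ⟨y, hy⟩ := ht a (Multiset.mem_cons_self _ _)
          exact ⟨y ::ₘ t, by rw [Multiset.map_cons, hy, ht2]⟩
      obtain ⟨t, rfl⟩ := hlift t' (by
        intro x hx
        have h1 : x ∈ s.map e := by
          rw [ht', Multiset.mem_add]
          exact Or.inl hx
        rw [Multiset.mem_map] at h1
        obtain ⟨y, -, rfl⟩ := h1
        exact ⟨y, rfl⟩)
      refine ⟨t, Multiset.map_injective hinj ?_⟩
      rw [ht', Multiset.map_add, Multiset.map_map, Multiset.map_map]
      congr 1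
      apply Multiset.map_congr rfl
      rintro ⟨j, a'⟩ -
      obtain ⟨a, ha⟩ : ∃ a : S j, a = a' := ⟨a', rfl⟩
      subst ha
      have h1 := hbar j a
      have hqL : (q : AlgebraicClosure W.K) ^ (P j).X.dim ≠ 0 :=
        pow_ne_zero _ (by exact_mod_cast hq)
      have h2 : (a : AlgebraicClosure W.K) ≠ 0 := by
        intro h0
        rw [h0, zero_mul] at h1
        exact hqL h1.symm
      change ((j, (q : AlgebraicClosure W.K) ^ (P j).X.dim / (a : AlgebraicClosure W.K)) :
        ι × AlgebraicClosure W.K) = (j, ((bar j a : S j) : AlgebraicClosure W.K))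
      congr 1
      rw [← h1, mul_div_cancel_left₀ _ h2]
  have key : ∀ Q, IsIteratedProduct ops P Q → ∃ f₀ S₀ V₀ M₀,
      GoodVar 𝓛 q Q.X Q.D Q.f f₀ S₀ V₀ M₀ := by
    intro Q hQ
    induction hQ with
    | base j =>
      haveI : Fintype (𝓛.A j) := (inferInstance : Fintype (S j))
      exact ⟨_, _, _, _, base_good (𝓛 := 𝓛) (h j) (T j) rfl (fun _ => rfl)
        (base_frob (hF _ (IsIteratedProduct.base j)))⟩
    | prod h1 h2 ih1 ih2 =>
      obtain ⟨f₁, S₁, V₁, M₁, g₁⟩ := ih1
      obtain ⟨f₂, S₂, V₂, M₂, g₂⟩ := ih2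
      exact ⟨_, _, _, _, g₁.prod g₂⟩
  intro Q hQ
  obtain ⟨f₀, S₀, V₀, M₀, g⟩ := key Q hQ
  refine ⟨base_hodgeType.1 (g.hodgeType hL (base_frob (hF Q hQ))), ?_⟩
  intro j hj z hz hnum
  exact base_cl_eq_zero.1 (g.homEqNum hL (base_frob (hF Q hQ)) j hj z hz hnum)

end Main

end Pool.Agent.H914
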