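import Pool.Agent.H914R2.PBase3

/-!
# The pairs of eigenvectors
-/

open CategoryTheory AlgebraicGeometry Finset Polynomial

universe u v w

namespace Pool.Agent.H914

open VarClass Obj WeilCohomology

variable {k : Type u} [Field k] {𝒱 : VarClass k} {ops : CycleOps 𝒱}
  {W : WeilCohomology.{u, v} ops} {X Y Z : 𝒱.Obj} {𝓡 : RealField W.K}

/-- The graph of an iterate of an endomorphism. -/
lemma exists_graph (ψ : X ⟶ X) (m : ℕ) : ∃ z : (X.prod X).Cycles, (X.prod X).IsCyc X.dim z ∧
    W.corr (W.cl _ z) = (W.map ψ).toLinearMap ^ m := by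
  obtain ⟨Y, hY, hYW⟩ := rop_map (W := W) (iter ψ m)
  obtain ⟨q, hq, z, hz, hY'⟩ | ⟨hd, -⟩ := hY
  · obtain rfl : q = X.dim := by omega
    refine ⟨z, hz, ?_⟩
    rw [← hY' W, hYW]
    apply LinearMap.ext
    intro a
    exact map_iter ψ m a
  · omega

section Pair

variable {A : Type v} [Fintype A] {al : A → W.K} {vec : A → W.H X} {kap : A → W.K}
  {bar : A → A} {η : A → Bool} {ψ : X ⟶ X} (T : TProps W X ψ 𝓡 al vec kap bar η)

/-- The class of the operator `F ^ m` on the transcendental part. -/
noncomputable def delta (W : WeilCohomology.{u, v} ops) (X : 𝒱.Obj) {A : Type v} [Fintype A]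
    (al : A → W.K) (vec : A → W.H X) (kap : A → W.K) (bar : A → A) (m : ℕ) :
    W.H (X.prod X) :=
  ∑ a, (al a ^ m * kap (bar a)) • (W.map (fst X X) (vec (bar a)) * W.map (snd X X) (vec a))

omit [Fintype A] in
lemma pair_real {V : Submodule 𝓡.R (W.H X)} (hV : VRof 𝓡 vec bar ≤ V) (a : A) {z z' : W.K}
    (hz : 𝓡.Cj z z') :
    z • (W.map (fst X X) (vec (bar a)) * W.map (snd X X) (vec a)) +
      z' • (W.map (fst X X) (vec a) * W.map (snd X X) (vec (bar a))) ∈ prodV V V := by
  have h1 := prodV_mem (hV (vec_VR (vec := vec) (bar := bar) a (RealField.Cj.one (𝓡 := 𝓡))))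
    (hV (vec_VR (vec := vec) (bar := bar) a hz))
  have h2 := prodV_mem (hV (vec_VR (vec := vec) (bar := bar) a (RealField.Cj.imag (𝓡 := 𝓡))))
    (hV (vec_VR (vec := vec) (bar := bar) a ((RealField.Cj.imag (𝓡 := 𝓡)).mul hz)))
  have h3 := Submodule.add_mem _ h1 h2
  have h4 : (2⁻¹ : W.K) ∈ 𝓡.R := by
    have := RealField.ratCast_mem (𝓡 := 𝓡) (2⁻¹ : ℚ)
    push_cast at this
    exact this
  have h5 := VR_smul h4 h3
  refine (congrArg (· ∈ prodV V V) ?_).mp h5
  simp only [map_add, map_smul, mul_add, add_mul, smul_mul_smul_comm, smul_mul_assoc,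
    mul_smul_comm, smul_add, smul_smul, one_mul, mul_one, one_smul]
  set e1 := W.map (fst X X) (vec a) * W.map (snd X X) (vec a)
  set e2 := W.map (fst X X) (vec (bar a)) * W.map (snd X X) (vec a)
  set e3 := W.map (fst X X) (vec a) * W.map (snd X X) (vec (bar a))
  set e4 := W.map (fst X X) (vec (bar a)) * W.map (snd X X) (vec (bar a))
  have hi := 𝓡.i_sq
  match_scalars
  · linear_combination (z / 2) * hi
  · linear_combination (-z / 2) * hi
  · linear_combination (-z' / 2) * hi
  · linear_combination (z' / 2) * hi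

variable (al kap) in
lemma delta_real (hbb : ∀ a, bar (bar a) = a) (hcj : ∀ a, 𝓡.Cj (kap a) (kap (bar a)))
    (hcj' : ∀ a, 𝓡.Cj (al a) (al (bar a)))
    {V : Submodule 𝓡.R (W.H X)} (hV : VRof 𝓡 vec bar ≤ V) (m : ℕ) :
    delta W X al vec kap bar m ∈ prodV V V := by
  set g : A → W.H (X.prod X) := fun a =>
    (al a ^ m * kap (bar a)) • (W.map (fst X X) (vec (bar a)) * W.map (snd X X) (vec a)) with hg
  have h1 : ∑ a, g a = ∑ a, g (bar a) := by
    have hinv : Function.Involutive bar := hbb
    exact (Equiv.sum_comp hinv.toPerm g).symm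
  have h2 : delta W X al vec kap bar m = (2⁻¹ : W.K) • ∑ a, (g a + g (bar a)) := by
    rw [Finset.sum_add_distrib, ← h1, ← two_smul W.K (∑ a, g a), smul_smul,
      inv_mul_cancel₀ two_ne_zero, one_smul]
    rfl
  have h4 : (2⁻¹ : W.K) ∈ 𝓡.R := by
    have := RealField.ratCast_mem (𝓡 := 𝓡) (2⁻¹ : ℚ)
    push_cast at this
    exact this
  rw [h2]
  apply VR_smul h4
  apply Submodule.sum_mem
  intro a _
  rw [hg]
  beta_reduce
  rw [hbb]
  exact pair_real hV a (((hcj' a).pow m).mul (hcj a).symm)

include T

omit [Fintype A] in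
/-- The operator given by a pair. -/
lemma corr_pair (a : A) (y : W.H X) :
    W.corr (W.map (fst X X) (vec (bar a)) * W.map (snd X X) (vec a)) y =
    ((-1 : W.K) ^ X.dim * bil W X (vec (bar a)) y) • vec a := by
  have h1 := corr_swap_tmul (W := W) (X := X) (Y := X) (T.mid (T.trans a))
    (T.mid (T.trans (bar a)))
  have h2 : W.map (swap X X) (W.map (fst X X) (vec a) * W.map (snd X X) (vec (bar a))) =
      (-1 : W.K) ^ (X.dim * X.dim) • (W.map (fst X X) (vec (bar a)) * W.map (snd X X) (vec a)) := by
    rw [map_mul, ← W.map_comp, ← W.map_comp, swap_fst, swap_snd]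
    exact W.comm (W.map_mem _ (T.mid (T.trans a))) (W.map_mem _ (T.mid (T.trans (bar a))))
  have hpar : (-1 : W.K) ^ (X.dim * X.dim) = (-1) ^ X.dim := by
    rcases Nat.even_or_odd X.dim with h | h
    · rw [h.neg_one_pow, (h.mul_right _).neg_one_pow]
    · rw [h.neg_one_pow, (h.mul h).neg_one_pow]
  rw [h2, hpar, corr_smul] at h1
  have h3 := congrArg (fun F => (-1 : W.K) ^ X.dim • F y) h1
  beta_reduce at h3
  rw [LinearMap.smul_apply, smul_smul, ← mul_pow, neg_one_mul, neg_neg, one_pow, one_smul,
    LinearMap.smulRight_apply, smul_smul] at h3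
  rw [h3]
  rfl

lemma corr_delta (m : ℕ) (y : W.H X) : W.corr (delta W X al vec kap bar m) y =
    ∑ a, (al a ^ m * kap a * bil W X (vec (bar a)) y) • vec a := by
  have h1 : ∀ s : Finset A, W.corr (∑ a ∈ s, (al a ^ m * kap (bar a)) •
      (W.map (fst X X) (vec (bar a)) * W.map (snd X X) (vec a))) y =
      ∑ a ∈ s, (al a ^ m * kap a * bil W X (vec (bar a)) y) • vec a := by
    classical
    intro s
    induction s using Finset.induction_on with
    | empty => rw [Finset.sum_empty, Finset.sum_empty, corr_zero, LinearMap.zero_apply]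
    | insert a s ha ih =>
      rw [Finset.sum_insert ha, Finset.sum_insert ha, corr_add, LinearMap.add_apply, ih,
        corr_smul, LinearMap.smul_apply, corr_pair T, smul_smul]
      congr 2
      rw [← T.kap_bar a]
      ring
  exact h1 Finset.univ

variable {D : X.Cycles} {Lam : Module.End W.K (W.H X)} {κ : Type} [Fintype κ] {l : κ → ℕ}
  {x : κ → W.H X} {φ : κ → ℚ} {p : Module.End W.K (W.H X)} (h : Setup W X D Lam κ l x φ p)

include h

lemma delta_alg (m : ℕ) : delta W X al vec kap bar m ∈ algR 𝓡 (X.prod X) := by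
  classical
  obtain ⟨z, hz, hzF⟩ := exists_graph (W := W) ψ m
  set F := (W.map ψ).toLinearMap with hF
  have hFalg : ∀ j, ∀ c ∈ algClasses W X j, (F ^ m) c ∈ algClasses W X j := by
    rintro j _ ⟨c, hc, rfl⟩
    refine ⟨ops.pull (iter ψ m) c, ops.pull_mem _ hc, ?_⟩
    rw [W.cl_pull, map_iter]
  set c₀ : W.H (X.prod X) := W.cl _ z - ∑ k, ((φ k)⁻¹ : W.K) •
    W.map (swap X X) (W.map (fst X X) ((F ^ m) (x k)) * W.map (snd X X)
      (wey (LinearMap.mulLeft W.K (W.cl X D)) Lam (x k))) with hc₀
  have h1 : c₀ ∈ algR 𝓡 (X.prod X) := by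
    apply Submodule.sub_mem
    · exact Submodule.subset_span ⟨_, z, hz, rfl⟩
    · apply Submodule.sum_mem
      intro k _
      apply VR_smul
      · have := RealField.ratCast_mem (𝓡 := 𝓡) ((φ k)⁻¹)
        push_cast at this
        exact this
      · apply algR_map
        apply algR_mul
        · exact algR_map _ (Submodule.subset_span ⟨_, hFalg _ _ (h.hp.mem k)⟩)
        · exact algR_map _ (Submodule.subset_span ⟨_, h.wx_mem k⟩)
  have hcorr₀ : ∀ y, W.corr c₀ y = (F ^ m) (y - p y) := by
    intro y
    have e1 : ∀ s : Finset κ, W.corr (∑ k ∈ s, ((φ k)⁻¹ : W.K) •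
        W.map (swap X X) (W.map (fst X X) ((F ^ m) (x k)) * W.map (snd X X)
          (wey (LinearMap.mulLeft W.K (W.cl X D)) Lam (x k)))) y =
        ∑ k ∈ s, ((φ k : W.K)⁻¹ * bil W X y
          (wey (LinearMap.mulLeft W.K (W.cl X D)) Lam (x k))) • (F ^ m) (x k) := by
      intro s
      induction s using Finset.induction_on with
      | empty => rw [Finset.sum_empty, Finset.sum_empty, corr_zero, LinearMap.zero_apply]
      | insert a s ha ih =>
        rw [Finset.sum_insert ha, Finset.sum_insert ha, corr_add, LinearMap.add_apply, ih,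
          corr_smul, LinearMap.smul_apply,
          corr_swap_tmul (alg_gr (hFalg _ _ (h.hp.mem a))) (alg_gr (h.wx_mem a)),
          LinearMap.smulRight_apply, smul_smul, ← bil_even (alg_gr (h.wx_mem a))]
        rfl
    have e2 : c₀ = W.cl _ z + (-1 : W.K) • ∑ k, ((φ k)⁻¹ : W.K) •
        W.map (swap X X) (W.map (fst X X) ((F ^ m) (x k)) * W.map (snd X X)
          (wey (LinearMap.mulLeft W.K (W.cl X D)) Lam (x k))) := by
      rw [hc₀, neg_one_smul, sub_eq_add_neg]
    rw [e2, corr_add, LinearMap.add_apply, corr_smul, LinearMap.smul_apply, e1, hzF, map_sub,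
      h.hp.p_eq, map_sum, neg_one_smul, ← sub_eq_add_neg]
    congr 1
    apply Finset.sum_congr rfl
    intro k _
    rw [map_smul]
  have h2 : delta W X al vec kap bar m = c₀ := by
    rw [← sub_eq_zero]
    apply corr_inj
    have e1 : W.corr (delta W X al vec kap bar m - c₀) =
        W.corr (delta W X al vec kap bar m) - W.corr c₀ := by
      rw [sub_eq_add_neg, ← neg_one_smul W.K c₀, corr_add, corr_smul]
      apply LinearMap.ext
      intro y
      rw [LinearMap.add_apply, LinearMap.smul_apply, LinearMap.sub_apply, neg_one_smul,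
        ← sub_eq_add_neg]
    rw [e1, sub_eq_zero]
    -- the two operators agree on the two parts
    have key : ∀ y ∈ Submodule.span W.K {c | ∃ j, c ∈ algClasses W X j} ⊔
        Submodule.span W.K (Set.range vec),
        y ∈ LinearMap.eqLocus (W.corr (delta W X al vec kap bar m)) (W.corr c₀) := by
      intro y hy
      have hle : Submodule.span W.K {c | ∃ j, c ∈ algClasses W X j} ⊔
        Submodule.span W.K (Set.range vec) ≤
          LinearMap.eqLocus (W.corr (delta W X al vec kap bar m)) (W.corr c₀) := by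
        apply sup_le
        · rw [Submodule.span_le]
          rintro c ⟨j, hc⟩
          change W.corr (delta W X al vec kap bar m) c = W.corr c₀ c
          rw [corr_delta T, hcorr₀, h.hp.fix j c hc, sub_self, map_zero]
          apply Finset.sum_eq_zero
          intro a _
          rw [mem_trans.1 (T.trans (bar a)) _ _ hc, mul_zero, zero_smul]
        · rw [Submodule.span_le]
          rintro _ ⟨b, rfl⟩
          change W.corr (delta W X al vec kap bar m) (vec b) = W.corr c₀ (vec b)
          have hFb : F (vec b) = al b • vec b := T.F_vec b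
          have e3 := aeval_eig hFb (Polynomial.X ^ m)
          rw [map_pow, aeval_X, eval_pow, eval_X] at e3
          rw [corr_delta T, hcorr₀, h.p_kill (T.trans b), sub_zero, e3,
            Finset.sum_eq_single b]
          · have e4 := T.form_bar (bar b)
            rw [T.bar_bar] at e4
            rw [bil_apply, e4, mul_assoc, T.kap_mul, mul_one]
          · intro a _ hab
            rw [bil_apply, T.form_ne, mul_zero, zero_smul]
            intro h0
            rw [T.bar_bar] at h0
            exact hab h0.symm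
          · intro h0; exact absurd (Finset.mem_univ b) h0
      exact hle hy
    apply LinearMap.ext
    intro y
    have e5 : y = p y + (y - p y) := by abel
    have e6 := key y (by
      rw [e5]
      exact Submodule.add_mem_sup (h.p_span y) (T.span (h.compl_mem y)))
    exact e6
  rw [h2]
  exact h1

/-- **The pairs of eigenvectors are combinations of algebraic classes which are real.** -/
theorem pair_mem_span {V : Submodule 𝓡.R (W.H X)} (hV : VRof 𝓡 vec bar ≤ V) (a : A) :
    W.map (fst X X) (vec a) * W.map (snd X X) (vec (bar a)) ∈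
      Submodule.span W.K ((prodV V V ⊓ algR 𝓡 (X.prod X) :
        Submodule 𝓡.R (W.H (X.prod X))) : Set (W.H (X.prod X))) := by
  classical
  set u : A → W.K := fun b => if b = bar a then kap b else 0 with hu
  set Q : W.K[X] := Lagrange.interpolate Finset.univ al u with hQ
  have hQe : ∀ b, Q.eval (al b) = u b := fun b =>
    Lagrange.eval_interpolate_at_node u T.al_inj.injOn (Finset.mem_univ b)
  have h1 : W.map (fst X X) (vec a) * W.map (snd X X) (vec (bar a)) =
      ∑ m ∈ range (Q.natDegree + 1), Q.coeff m • delta W X al vec kap bar m := by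
    have e1 : ∑ m ∈ range (Q.natDegree + 1), Q.coeff m • delta W X al vec kap bar m =
        ∑ b, (Q.eval (al b) * kap (bar b)) •
          (W.map (fst X X) (vec (bar b)) * W.map (snd X X) (vec b)) := by
      simp only [delta, Finset.smul_sum, smul_smul]
      rw [Finset.sum_comm]
      apply Finset.sum_congr rfl
      intro b _
      rw [← Finset.sum_smul, Polynomial.eval_eq_sum_range, Finset.sum_mul]
      congr 1
      apply Finset.sum_congr rfl
      intro m _
      ring
    rw [e1, Finset.sum_eq_single (bar a)]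
    · have e2 := T.kap_mul (bar a)
      rw [T.bar_bar] at e2
      rw [hQe, hu]
      beta_reduce
      rw [if_pos rfl, T.bar_bar, e2, one_smul]
    · intro b _ hb
      rw [hQe, hu]
      beta_reduce
      rw [if_neg hb, zero_mul, zero_smul]
    · intro h0; exact absurd (Finset.mem_univ _) h0
  rw [h1]
  apply Submodule.sum_mem
  intro m _
  apply Submodule.smul_mem
  exact Submodule.subset_span ⟨delta_real al kap T.bar_bar T.cj_kap T.cj_al hV m,
    delta_alg T h m⟩

end Pair

end Pool.Agent.H914
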