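import Mathlib

/-!
# The Weyl element attached to an sl(2)-triple
-/

open Finset
open IsNilpotent (exp exp_eq_sum)

namespace Pool.Agent.H914

section Ring

variable {A : Type*} [Ring A]

/-- The relations of `sl(2)`. -/
structure Sl2 (h e f : A) : Prop where
  ef : e * f - f * e = h
  he : h * e - e * h = 2 * e
  hf : h * f - f * h = -(2 * f)

namespace Sl2

variable {h e f : A} (t : Sl2 h e f)

include t

lemma neg_swap : Sl2 (-h) (-f) (-e) where
  ef := by
    have := t.ef
    rw [← this]; noncomm_ring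
  he := by
    have := t.hf
    calc -h * -f - -f * -h = h * f - f * h := by noncomm_ring
      _ = 2 * -f := by rw [this]; noncomm_ring
  hf := by
    have := t.he
    calc -h * -e - -e * -h = h * e - e * h := by noncomm_ring
      _ = -(2 * -e) := by rw [this]; noncomm_ring

lemma e_h : e * h = (h - 2) * e := by
  have := t.he
  calc e * h = h * e - (h * e - e * h) := by noncomm_ring
    _ = (h - 2) * e := by rw [this]; noncomm_ring

lemma e_pow_h (k : ℕ) : e ^ k * h = (h - 2 * k) * e ^ k := by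
  induction k with
  | zero => simp
  | succ k ih =>
    calc e ^ (k + 1) * h = e ^ k * (e * h) := by rw [pow_succ, mul_assoc]
      _ = e ^ k * h * e - 2 * (e ^ k * e) := by rw [t.e_h]; noncomm_ring
      _ = (h - 2 * (k + 1 : ℕ)) * e ^ (k + 1) := by
        rw [ih, ← pow_succ]
        have : (h - 2 * (k : A)) * e ^ k * e = (h - 2 * (k : A)) * e ^ (k + 1) := by
          rw [pow_succ, mul_assoc]
        rw [this]
        push_cast
        noncomm_ring

lemma e_pow_f (k : ℕ) : e ^ (k + 1) * f = f * e ^ (k + 1) + (k + 1 : ℕ) • ((h - k) * e ^ k) := by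
  induction k with
  | zero =>
    have := t.ef
    simp only [zero_add, pow_one, one_smul, Nat.cast_zero, sub_zero, pow_zero, mul_one]
    rw [← this]; noncomm_ring
  | succ k ih =>
    have h1 : e ^ (k + 1 + 1) * f = e * (e ^ (k + 1) * f) := by rw [pow_succ' e (k + 1), mul_assoc]
    have h2 : e * f = f * e + h := by rw [← t.ef]; noncomm_ring
    have hk : e * (k : A) = (k : A) * e := (Nat.cast_commute k e).symm
    have h3 : e * (f * e ^ (k + 1)) = f * e ^ (k + 1 + 1) + h * e ^ (k + 1) := by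
      rw [← mul_assoc, h2, add_mul, mul_assoc, ← pow_succ']
    have h4 : e * ((h - k) * e ^ k) = (h - 2 - k) * e ^ (k + 1) := by
      calc e * ((h - k) * e ^ k) = (e * h - e * k) * e ^ k := by noncomm_ring
        _ = ((h - 2) * e - k * e) * e ^ k := by rw [t.e_h, hk]
        _ = (h - 2 - k) * (e * e ^ k) := by noncomm_ring
        _ = _ := by rw [← pow_succ']
    rw [h1, ih, mul_add, h3, mul_smul_comm, h4]
    simp only [nsmul_eq_mul]
    push_cast
    have hk2 : ∀ y : A, y * (k : A) = (k : A) * y := fun y => (Nat.cast_commute k y).symm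
    have e1 : (h - (k + 1 : A)) * e ^ (k + 1) = h * e ^ (k + 1) - k * e ^ (k + 1) - e ^ (k + 1) := by
      noncomm_ring
    have e2 : (h - 2 - (k : A)) * e ^ (k + 1) =
        h * e ^ (k + 1) - e ^ (k + 1) - e ^ (k + 1) - k * e ^ (k + 1) := by
      noncomm_ring
    rw [e1, e2]
    noncomm_ring

end Sl2

variable [Module ℚ A]

lemma exp_mul_self_comm {e : A} (he : IsNilpotent e) : exp e * e = e * exp e := by
  obtain ⟨N, hN⟩ := he
  rw [exp_eq_sum hN, Finset.sum_mul, Finset.mul_sum]
  apply Finset.sum_congr rfl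
  intro k _
  rw [smul_mul_assoc, mul_smul_comm, ← pow_succ, ← pow_succ']

namespace Sl2

variable {h e f : A} (t : Sl2 h e f)

include t

lemma exp_e_h (he : IsNilpotent e) : exp e * h = (h - 2 * e) * exp e := by
  obtain ⟨N, hN⟩ := he
  have hN1 : e ^ (N + 1) = 0 := by rw [pow_succ, hN, zero_mul]
  have key : ∀ k : ℕ, (((k + 1).factorial : ℚ)⁻¹) • (((k + 1 : ℕ) : A) * e ^ (k + 1)) =
      ((k.factorial : ℚ)⁻¹) • (e * e ^ k) := by
    intro k
    have h1 : (((k + 1 : ℕ) : A) * e ^ (k + 1)) = ((k + 1 : ℕ) : ℚ) • e ^ (k + 1) := by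
      rw [Nat.cast_smul_eq_nsmul, nsmul_eq_mul]
    rw [h1, smul_smul, Nat.factorial_succ, pow_succ']
    congr 1
    push_cast
    have : (k : ℚ) + 1 ≠ 0 := by positivity
    have h2 : (k.factorial : ℚ) ≠ 0 := by positivity
    field_simp
  have h1 : exp e * h = h * exp e - 2 * ∑ k ∈ range (N + 1),
      ((k.factorial : ℚ)⁻¹) • ((k : A) * e ^ k) := by
    rw [exp_eq_sum hN1, Finset.sum_mul, Finset.mul_sum, Finset.mul_sum, ← Finset.sum_sub_distrib]
    apply Finset.sum_congr rfl
    intro k _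
    rw [smul_mul_assoc, t.e_pow_h, mul_smul_comm, mul_smul_comm, ← smul_sub]
    congr 1
    noncomm_ring
  rw [h1, Finset.sum_range_succ', Finset.sum_congr rfl (fun k _ => key k)]
  have h2 : ∑ k ∈ range N, ((k.factorial : ℚ)⁻¹) • (e * e ^ k) = e * exp e := by
    rw [exp_eq_sum hN, Finset.mul_sum]
    exact Finset.sum_congr rfl (fun k _ => (mul_smul_comm _ _ _).symm)
  rw [h2]
  simp only [Nat.factorial_zero, Nat.cast_one, inv_one, Nat.cast_zero, zero_mul, smul_zero,
    add_zero]
  noncomm_ring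

lemma exp_e_f (he : IsNilpotent e) : exp e * f = (f + h - e) * exp e := by
  obtain ⟨N, hN⟩ := he
  have hN1 : e ^ (N + 1) = 0 := by rw [pow_succ, hN, zero_mul]
  have hN2 : e ^ (N + 1 + 1) = 0 := by rw [pow_succ, hN1, zero_mul]
  have key : ∀ k : ℕ, (((k + 1).factorial : ℚ)⁻¹) • (((k + 1 : ℕ) : A) * e ^ (k + 1)) =
      ((k.factorial : ℚ)⁻¹) • (e * e ^ k) := by
    intro k
    have h1 : (((k + 1 : ℕ) : A) * e ^ (k + 1)) = ((k + 1 : ℕ) : ℚ) • e ^ (k + 1) := by
      rw [Nat.cast_smul_eq_nsmul, nsmul_eq_mul]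
    rw [h1, smul_smul, Nat.factorial_succ, pow_succ']
    congr 1
    push_cast
    have : (k : ℚ) + 1 ≠ 0 := by positivity
    have h2 : (k.factorial : ℚ) ≠ 0 := by positivity
    field_simp
  have key2 : ∀ k : ℕ, (((k + 1).factorial : ℚ)⁻¹) • (((k + 1 : ℕ)) • ((h - k) * e ^ k)) =
      ((k.factorial : ℚ)⁻¹) • (h * e ^ k) - ((k.factorial : ℚ)⁻¹) • ((k : A) * e ^ k) := by
    intro k
    rw [← smul_sub, ← sub_mul, ← Nat.cast_smul_eq_nsmul ℚ, smul_smul, Nat.factorial_succ]
    congr 1
    push_cast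
    have : (k : ℚ) + 1 ≠ 0 := by positivity
    have h2 : (k.factorial : ℚ) ≠ 0 := by positivity
    field_simp
  have h1 : exp e * f = f * exp e + h * exp e - ∑ k ∈ range (N + 1),
      ((k.factorial : ℚ)⁻¹) • ((k : A) * e ^ k) := by
    have a1 : exp e * f = ∑ k ∈ range (N + 1 + 1), ((k.factorial : ℚ)⁻¹) • (e ^ k * f) := by
      rw [exp_eq_sum hN2, Finset.sum_mul]
      exact Finset.sum_congr rfl (fun k _ => smul_mul_assoc _ _ _)
    have a2 : f * exp e = ∑ k ∈ range (N + 1), (((k + 1).factorial : ℚ)⁻¹) • (f * e ^ (k + 1)) +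
        f := by
      rw [exp_eq_sum hN2, Finset.mul_sum, Finset.sum_range_succ']
      simp only [mul_smul_comm, Nat.factorial_zero, Nat.cast_one, inv_one, pow_zero, mul_one,
        one_smul]
    have a3 : h * exp e = ∑ k ∈ range (N + 1), ((k.factorial : ℚ)⁻¹) • (h * e ^ k) := by
      rw [exp_eq_sum hN1, Finset.mul_sum]
      exact Finset.sum_congr rfl (fun k _ => mul_smul_comm _ _ _)
    rw [a1, Finset.sum_range_succ', a2, a3]
    simp only [Nat.factorial_zero, Nat.cast_one, inv_one, pow_zero, one_mul, one_smul]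
    have a4 : ∀ k ∈ range (N + 1), (((k + 1).factorial : ℚ)⁻¹) • (e ^ (k + 1) * f) =
        (((k + 1).factorial : ℚ)⁻¹) • (f * e ^ (k + 1)) + (((k.factorial : ℚ)⁻¹) • (h * e ^ k) -
          ((k.factorial : ℚ)⁻¹) • ((k : A) * e ^ k)) := by
      intro k _
      rw [t.e_pow_f, smul_add, key2]
    rw [Finset.sum_congr rfl a4, Finset.sum_add_distrib, Finset.sum_sub_distrib]
    abel
  rw [h1, Finset.sum_range_succ', Finset.sum_congr rfl (fun k _ => key k)]
  have h2 : ∑ k ∈ range N, ((k.factorial : ℚ)⁻¹) • (e * e ^ k) = e * exp e := by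
    rw [exp_eq_sum hN, Finset.mul_sum]
    exact Finset.sum_congr rfl (fun k _ => (mul_smul_comm _ _ _).symm)
  rw [h2]
  simp only [Nat.factorial_zero, Nat.cast_one, inv_one, Nat.cast_zero, zero_mul, smul_zero,
    add_zero]
  noncomm_ring

/-- The Weyl element. -/
noncomputable def _root_.Pool.Agent.H914.weyl {A : Type*} [Ring A] [Module ℚ A] (e f : A) : A :=
  exp e * exp (-f) * exp e

lemma expf_e (hf : IsNilpotent f) : exp (-f) * e = (e + h - f) * exp (-f) := by
  have h1 := t.neg_swap.exp_e_f hf.neg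
  have h2 : exp (-f) * e = - (exp (-f) * -e) := by noncomm_ring
  rw [h2, h1]
  noncomm_ring

lemma expf_h (hf : IsNilpotent f) : exp (-f) * h = (h - 2 * f) * exp (-f) := by
  have h1 := t.neg_swap.exp_e_h hf.neg
  have h2 : exp (-f) * h = - (exp (-f) * -h) := by noncomm_ring
  rw [h2, h1]
  noncomm_ring

omit t in
lemma expf_f (hf : IsNilpotent f) : exp (-f) * f = f * exp (-f) := by
  have h1 := exp_mul_self_comm hf.neg
  have h2 : exp (-f) * f = - (exp (-f) * -f) := by noncomm_ring
  rw [h2, h1]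
  noncomm_ring

lemma weyl_e (he : IsNilpotent e) (hf : IsNilpotent f) : weyl e f * e = - (f * weyl e f) := by
  unfold weyl
  have h1 : exp e * exp (-f) * exp e * e = exp e * (exp (-f) * e) * exp e := by
    rw [mul_assoc, exp_mul_self_comm he]; noncomm_ring
  rw [h1, t.expf_e hf]
  have h2 : exp e * ((e + h - f) * exp (-f)) * exp e =
      (exp e * e + exp e * h - exp e * f) * (exp (-f) * exp e) := by noncomm_ring
  rw [h2, exp_mul_self_comm he, t.exp_e_h he, t.exp_e_f he]
  noncomm_ring

lemma weyl_f (he : IsNilpotent e) (hf : IsNilpotent f) : weyl e f * f = - (e * weyl e f) := by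
  unfold weyl
  have h1 : exp e * exp (-f) * exp e * f = exp e * (exp (-f) * f + exp (-f) * h -
      exp (-f) * e) * exp e := by
    rw [mul_assoc, t.exp_e_f he]; noncomm_ring
  rw [h1, t.expf_e hf, t.expf_h hf, expf_f hf]
  have h2 : exp e * (f * exp (-f) + (h - 2 * f) * exp (-f) - (e + h - f) * exp (-f)) * exp e =
      -(exp e * e) * (exp (-f) * exp e) := by noncomm_ring
  rw [h2, exp_mul_self_comm he]
  noncomm_ring

lemma weyl_h (he : IsNilpotent e) (hf : IsNilpotent f) : weyl e f * h = - (h * weyl e f) := by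
  have h1 := t.weyl_e he hf
  have h2 := t.weyl_f he hf
  rw [← t.ef]
  have h3 : weyl e f * e * f = f * (e * weyl e f) := by
    calc weyl e f * e * f = - (f * (weyl e f * f)) := by rw [h1]; noncomm_ring
      _ = _ := by rw [h2]; noncomm_ring
  have h4 : weyl e f * f * e = e * (f * weyl e f) := by
    calc weyl e f * f * e = - (e * (weyl e f * e)) := by rw [h2]; noncomm_ring
      _ = _ := by rw [h1]; noncomm_ring
  calc weyl e f * (e * f - f * e) = weyl e f * e * f - weyl e f * f * e := by noncomm_ring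
    _ = _ := by rw [h3, h4]; noncomm_ring

end Sl2

end Ring

end Pool.Agent.H914
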