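import Pool.Agent.H914R2.WBase2
import Pool.Agent.H914R2.LinDual

/-!
# Slices of operators on the extension, and spectral projectors
-/

open Finset TensorProduct Polynomial

namespace Pool.Agent.H914

section Slice

variable {K : Type*} [Field K] {V : Type*} [AddCommGroup V] [Module K V] {L : Type*} [Field L]
  [Algebra K L]

/-- Evaluation of a linear form on the coefficients. -/
noncomputable def coeffs (l : L →ₗ[K] K) : L ⊗[K] V →ₗ[K] V :=
  (TensorProduct.lid K V).toLinearMap ∘ₗ l.rTensor V

lemma coeffs_tmul (l : L →ₗ[K] K) (x : L) (v : V) : coeffs l (x ⊗ₜ[K] v) = l x • v := by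
  rw [coeffs, LinearMap.comp_apply, LinearMap.rTensor_tmul, LinearEquiv.coe_coe,
    TensorProduct.lid_tmul]

/-- The slice of an operator. -/
noncomputable def slice (l : L →ₗ[K] K) (A : Module.End L (L ⊗[K] V)) : Module.End K V :=
  coeffs l ∘ₗ A.restrictScalars K ∘ₗ TensorProduct.mk K L V 1

lemma slice_apply (l : L →ₗ[K] K) (A : Module.End L (L ⊗[K] V)) (v : V) :
    slice l A v = coeffs l (A (1 ⊗ₜ v)) := rfl

lemma coeffs_baseChange (l : L →ₗ[K] K) (B : Module.End K V) (x : L ⊗[K] V) :
    coeffs l (B.baseChange L x) = B (coeffs l x) := by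
  induction x using TensorProduct.induction_on with
  | zero => rw [map_zero, map_zero, map_zero]
  | add x y hx hy => rw [map_add, map_add, hx, hy, map_add, map_add]
  | tmul x v => rw [LinearMap.baseChange_tmul, coeffs_tmul, coeffs_tmul, map_smul]

lemma slice_mul_right (l : L →ₗ[K] K) (A : Module.End L (L ⊗[K] V)) (B : Module.End K V) :
    slice l (A * B.baseChange L) = slice l A * B := by
  apply LinearMap.ext
  intro v
  rw [slice_apply, Module.End.mul_apply, LinearMap.baseChange_tmul, Module.End.mul_apply,
    slice_apply]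

lemma slice_mul_left (l : L →ₗ[K] K) (A : Module.End L (L ⊗[K] V)) (B : Module.End K V) :
    slice l (B.baseChange L * A) = B * slice l A := by
  apply LinearMap.ext
  intro v
  rw [slice_apply, Module.End.mul_apply, coeffs_baseChange, Module.End.mul_apply, slice_apply]

lemma base_ext [Module.Finite K V] {A B : Module.End L (L ⊗[K] V)}
    (h : ∀ v : V, A (1 ⊗ₜ v) = B (1 ⊗ₜ v)) : A = B := by
  apply LinearMap.ext
  intro x
  induction x using TensorProduct.induction_on with
  | zero => rw [map_zero, map_zero]
  | add x y hx hy => rw [map_add, map_add, hx, hy]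
  | tmul x v =>
    have h1 : (x ⊗ₜ[K] v : L ⊗[K] V) = x • ((1 : L) ⊗ₜ[K] v) := by
      rw [TensorProduct.smul_tmul', smul_eq_mul, mul_one]
    rw [h1, map_smul, map_smul, h]

/-- Every operator on the extension is a combination of its slices. -/
lemma exists_slices [Module.Finite K V] (A : Module.End L (L ⊗[K] V)) :
    ∃ (N : ℕ) (m : Fin N → L) (l : Fin N → (L →ₗ[K] K)),
      A = ∑ s, m s • (slice (l s) A).baseChange L := by
  classical
  set b := Module.finBasis K V with hb
  set bL := b.baseChange L with hbL
  set a : Fin (Module.finrank K V) → Fin (Module.finrank K V) → L :=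
    fun i j => bL.repr (A (1 ⊗ₜ b j)) i with ha
  have hA : ∀ j, A (1 ⊗ₜ b j) = ∑ i, a i j ⊗ₜ[K] b i := by
    intro j
    rw [← bL.sum_repr (A (1 ⊗ₜ b j))]
    apply Finset.sum_congr rfl
    intro i _
    rw [hbL, Module.Basis.baseChange_apply, TensorProduct.smul_tmul', smul_eq_mul, mul_one]
  set M : Submodule K L := Submodule.span K (Set.range fun p :
    Fin (Module.finrank K V) × Fin (Module.finrank K V) => a p.1 p.2) with hM
  have hfin : Module.Finite K M := FiniteDimensional.span_of_finite K (Set.finite_range _)
  set bM := Module.finBasis K M with hbM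
  choose l hl using fun s => LinearMap.exists_extend (bM.coord s)
  have hexp : ∀ i j, a i j = ∑ s, (bM s : L) * algebraMap K L (l s (a i j)) := by
    intro i j
    have hmem : a i j ∈ M := Submodule.subset_span ⟨(i, j), rfl⟩
    have h1 := bM.sum_repr ⟨a i j, hmem⟩
    have h2 := congrArg M.subtype h1
    rw [map_sum] at h2
    simp only [map_smul, Submodule.subtype_apply] at h2
    conv_lhs => rw [← h2]
    apply Finset.sum_congr rfl
    intro s _
    have h3 : l s (a i j) = bM.repr ⟨a i j, hmem⟩ s := by
      have := congrArg (fun F => F ⟨a i j, hmem⟩) (hl s)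
      exact this
    rw [h3, Algebra.smul_def, mul_comm]
  refine ⟨_, fun s => (bM s : L), l, ?_⟩
  have key : ∀ j, A (1 ⊗ₜ b j) = (∑ s, (bM s : L) • (slice (l s) A).baseChange L) (1 ⊗ₜ b j) := by
    intro j
    rw [LinearMap.sum_apply]
    have h1 : ∀ s, ((bM s : L) • (slice (l s) A).baseChange L) (1 ⊗ₜ b j) =
        ∑ i, ((bM s : L) * algebraMap K L (l s (a i j))) ⊗ₜ[K] b i := by
      intro s
      rw [LinearMap.smul_apply, LinearMap.baseChange_tmul, slice_apply, hA, map_sum, tmul_sum,
        Finset.smul_sum]
      apply Finset.sum_congr rfl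
      intro i _
      rw [coeffs_tmul, tmul_smul, TensorProduct.smul_tmul', TensorProduct.smul_tmul',
        smul_eq_mul, Algebra.smul_def, mul_one]
    rw [Finset.sum_congr rfl (fun s _ => h1 s), Finset.sum_comm, hA]
    apply Finset.sum_congr rfl
    intro i _
    conv_lhs => rw [hexp i j]
    rw [sum_tmul]
  apply base_ext
  intro v
  have h2 : v = ∑ j, b.repr v j • b j := (b.sum_repr v).symm
  rw [h2, tmul_sum, map_sum, map_sum]
  apply Finset.sum_congr rfl
  intro j _
  have h3 : ((1 : L) ⊗ₜ[K] (b.repr v j • b j)) = (algebraMap K L (b.repr v j)) •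
      ((1 : L) ⊗ₜ[K] b j) := by
    rw [tmul_smul, algebraMap_smul]
  rw [h3, map_smul, map_smul, key]

end Slice

section Spectral

variable {L : Type*} [Field L] [DecidableEq L] {V : Type*} [AddCommGroup V] [Module L V]

/-- The spectral projectors of the operator `F`, cut off by the projector `π`. -/
noncomputable def spec (F π : Module.End L V) (S : Finset L) (α : L) : Module.End L V :=
  aeval F (Lagrange.basis S id α) * π

variable {F π : Module.End L V} {S : Finset L}

lemma poly_eigen {e : V} {γ : L} (h : F e = γ • e) (p : L[X]) :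
    aeval F p e = p.eval γ • e := by
  induction p using Polynomial.induction_on' with
  | add p q hp hq => rw [map_add, LinearMap.add_apply, hp, hq, eval_add, add_smul]
  | monomial n a =>
    have h1 : ∀ n : ℕ, (F ^ n) e = γ ^ n • e := by
      intro n
      induction n with
      | zero => simp
      | succ n ih => rw [pow_succ', Module.End.mul_apply, ih, map_smul, h, smul_smul, pow_succ]
    rw [aeval_monomial, eval_monomial, Module.End.mul_apply, h1, map_smul,
      Module.algebraMap_end_apply, smul_smul, mul_comm]

lemma poly_comm {Z : Module.End L V} (h : Z * F = F * Z) (p : L[X]) :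
    Z * aeval F p = aeval F p * Z := by
  have : Commute Z (aeval F p) := by
    have h1 : Commute Z F := h
    induction p using Polynomial.induction_on' with
    | add p q hp hq => rw [map_add]; exact hp.add_right hq
    | monomial n a =>
      rw [aeval_monomial]
      exact (show Commute Z (algebraMap L _ a) from (Algebra.commutes' a Z).symm).mul_right
        (h1.pow_right n)
  exact this

/-- An eigenvector in the image of `π` with eigenvalue in `S`. -/
lemma spec_eigen {x : V} {γ : L} (hx : F x = γ • x) (hπx : π x = x) (hγ : γ ∈ S) {α : L}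
    (hα : α ∈ S) : spec F π S α x = if α = γ then x else 0 := by
  rw [spec, Module.End.mul_apply, hπx, poly_eigen hx]
  split_ifs with h
  · subst h
    have h1 := Lagrange.eval_basis_self (s := S) (v := (id : L → L)) (Set.injOn_id _) hα
    rw [id_eq] at h1
    rw [h1, one_smul]
  · have h1 := Lagrange.eval_basis_of_ne (s := S) (v := (id : L → L)) h hγ
    rw [id_eq] at h1
    rw [h1, zero_smul]

lemma spec_comm {Z : Module.End L V} (hF : Z * F = F * Z) (hπ : Z * π = π * Z) (α : L) :
    Z * spec F π S α = spec F π S α * Z := by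
  rw [spec, ← mul_assoc, poly_comm hF, mul_assoc, hπ, mul_assoc]

variable (hπ : π * π = π) (hFπ : F * π = π * F)
  (h : aeval F (∏ γ ∈ S, (X - C γ)) * π = 0)

include hπ hFπ in
lemma spec_pi (α : L) : π * spec F π S α = spec F π S α ∧ spec F π S α * π = spec F π S α := by
  constructor
  · rw [spec, ← mul_assoc, poly_comm hFπ.symm, mul_assoc, hπ]
  · rw [spec, mul_assoc, hπ]

include h in
lemma spec_mul_F {α : L} (hα : α ∈ S) : F * spec F π S α = α • spec F π S α := by
  have h1 : ∏ γ ∈ S, (X - C γ) = (X - C α) * ∏ γ ∈ S.erase α, (X - C γ) :=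
    (Finset.mul_prod_erase S (fun γ => X - C γ) hα).symm
  have h2 : ∃ c : L, Lagrange.basis S id α = C c * ∏ γ ∈ S.erase α, (X - C γ) := by
    refine ⟨∏ γ ∈ S.erase α, (α - γ)⁻¹, ?_⟩
    rw [Lagrange.basis, map_prod, ← Finset.prod_mul_distrib]
    apply Finset.prod_congr rfl
    intro γ _
    rfl
  obtain ⟨c, hc⟩ := h2
  have h3 : (X - C α) * Lagrange.basis S id α = C c * ∏ γ ∈ S, (X - C γ) := by
    rw [hc, h1]; ring
  have h4 : aeval F ((X - C α) * Lagrange.basis S id α) * π = 0 := by
    rw [h3, map_mul, mul_assoc, h, mul_zero]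
  rw [map_mul, map_sub, aeval_X, aeval_C, mul_assoc] at h4
  have h5 : (F - algebraMap L (Module.End L V) α) * spec F π S α = 0 := by
    rw [spec]
    exact h4
  rw [sub_mul, sub_eq_zero] at h5
  rw [h5, Algebra.smul_def]

lemma spec_F_mul (hFπ : F * π = π * F) (h : aeval F (∏ γ ∈ S, (X - C γ)) * π = 0) {α : L}
    (hα : α ∈ S) : spec F π S α * F = α • spec F π S α := by
  rw [← spec_mul_F h hα]
  exact (spec_comm (Z := F) rfl hFπ α).symm

include h in
lemma spec_sum : ∑ α ∈ S, spec F π S α = π := by
  by_cases hS : S.Nonempty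
  · have h1 := Lagrange.sum_basis (s := S) (v := (id : L → L)) (Set.injOn_id _) hS
    have h2 : ∑ α ∈ S, spec F π S α = aeval F (∑ α ∈ S, Lagrange.basis S id α) * π := by
      rw [map_sum, Finset.sum_mul]
      rfl
    rw [h2, h1, map_one, one_mul]
  · rw [Finset.not_nonempty_iff_eq_empty] at hS
    subst hS
    rw [Finset.prod_empty, map_one, one_mul] at h
    rw [Finset.sum_empty, h]

include hπ hFπ h in
lemma spec_mul_spec {α γ : L} (hα : α ∈ S) (hγ : γ ∈ S) :
    spec F π S α * spec F π S γ = if α = γ then spec F π S γ else 0 := by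
  apply LinearMap.ext
  intro x
  have h1 : F (spec F π S γ x) = γ • spec F π S γ x := by
    have := congrArg (fun Z => Z x) (spec_mul_F h hγ)
    exact this
  have h2 : π (spec F π S γ x) = spec F π S γ x := by
    have := congrArg (fun Z => Z x) (spec_pi hπ hFπ (S := S) γ).1
    exact this
  rw [Module.End.mul_apply, spec_eigen h1 h2 hγ hα]
  split_ifs <;> rfl

end Spectral

end Pool.Agent.H914
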