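import Pool.Agent.H914R2.Sl2Rep

/-!
# Strings of eigenvectors in a representation of `sl(2)` with simple spectrum
-/

open Finset Polynomial

namespace Pool.Agent.H914

variable {K : Type*} [Field K] [CharZero K] {V : Type*} [AddCommGroup V] [Module K V]

namespace Sl2

variable {h e f : Module.End K V}

omit [CharZero K] in
lemma swap (t : Sl2 h e f) : Sl2 (-h) f e where
  ef := by rw [← t.ef]; noncomm_ring
  he := by
    calc -h * f - f * -h = -(h * f - f * h) := by noncomm_ring
      _ = _ := by rw [t.hf]; noncomm_ring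
  hf := by
    calc -h * e - e * -h = -(h * e - e * h) := by noncomm_ring
      _ = _ := by rw [t.he]

lemma h_e_pow' (t : Sl2 h e f) {x : V} {μ : K} (hx : h x = μ • x) (k : ℕ) :
    h ((e ^ k) x) = (μ + 2 * k) • (e ^ k) x := by
  have := h_e_pow t (v := x) (μ := -μ) (by rw [neg_neg]; exact hx) k
  rw [this]
  congr 1
  ring

lemma h_f_pow' (t : Sl2 h e f) {x : V} {μ : K} (hx : h x = μ • x) (k : ℕ) :
    h ((f ^ k) x) = (μ - 2 * k) • (f ^ k) x := by
  have := h_e_pow' t.swap (x := x) (μ := -μ) (by rw [LinearMap.neg_apply, hx, neg_smul]) k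
  rw [LinearMap.neg_apply] at this
  rw [← neg_inj, this, ← neg_smul]
  congr 1
  ring

lemma e_pow_inj [Module.Finite K V] (t : Sl2 h e f) {x : V} {M : ℕ} (hx : h x = -(M : K) • x)
    (hx0 : x ≠ 0) {k : ℕ} (hk : k ≤ M) : (e ^ k) x ≠ 0 := by
  intro h0
  have h1 : (e ^ (M + 1)) x = 0 := by
    rw [show M + 1 = (M + 1 - k) + k by omega, pow_add, Module.End.mul_apply, h0, map_zero]
  exact e_pow_ne t (t.f_eq_zero hx h1) hx hx0 hk h0

end Sl2

section Eig

variable {G : Module.End K V} {ι : Type*} [Finite ι] {b : Module.Basis ι K V} {lam : ι → K}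

omit [CharZero K] in
lemma eig_coord (hG : ∀ i, G (b i) = lam i • b i) (x : V) (i : ι) :
    b.repr (G x) i = lam i * b.repr x i := by
  have := Fintype.ofFinite ι
  have h1 : G x = ∑ j, b.repr x j • (lam j • b j) := by
    conv_lhs => rw [← b.sum_repr x]
    rw [map_sum]
    exact Finset.sum_congr rfl (fun j _ => by rw [map_smul, hG])
  rw [h1]
  classical
  simp only [map_sum, map_smul, Finsupp.coe_finsetSum, Finset.sum_apply, Finsupp.smul_apply,
    Module.Basis.repr_self, smul_eq_mul, Finsupp.single_apply]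
  rw [Finset.sum_eq_single i]
  · simp; ring
  · intro j _ hj; simp [hj]
  · intro hi; exact absurd (Finset.mem_univ i) hi

omit [CharZero K] in
lemma eig_unique (hG : ∀ i, G (b i) = lam i • b i) (hinj : Function.Injective lam) {x : V}
    {i : ι} (hx : G x = lam i • x) : ∃ κ : K, x = κ • b i := by
  refine ⟨b.repr x i, ?_⟩
  apply b.repr.injective
  ext j
  classical
  rw [map_smul, Finsupp.smul_apply, Module.Basis.repr_self, Finsupp.single_apply]
  split_ifs with hij
  · subst hij; simp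
  · have h1 := eig_coord hG x j
    rw [hx, map_smul, Finsupp.smul_apply, smul_eq_mul] at h1
    have h2 : (lam j - lam i) * b.repr x j = 0 := by rw [sub_mul, ← h1, sub_self]
    rcases mul_eq_zero.1 h2 with h3 | h3
    · exact absurd (hinj (sub_eq_zero.1 h3).symm) hij
    · rw [h3]; simp

omit [CharZero K] in
lemma eig_exists (hG : ∀ i, G (b i) = lam i • b i) (hinj : Function.Injective lam) {x : V}
    {μ : K} (hx0 : x ≠ 0) (hx : G x = μ • x) : ∃ i, μ = lam i ∧ ∃ κ : K, κ ≠ 0 ∧ x = κ • b i := by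
  have h1 : ∃ i, b.repr x i ≠ 0 := by
    by_contra h0
    push Not at h0
    apply hx0
    apply b.repr.injective
    ext j
    rw [h0 j]; simp
  obtain ⟨i, hi⟩ := h1
  have h2 := eig_coord hG x i
  rw [hx, map_smul, Finsupp.smul_apply, smul_eq_mul] at h2
  have h3 := mul_right_cancel₀ hi h2
  subst h3
  obtain ⟨κ, hκ⟩ := eig_unique hG hinj hx
  refine ⟨i, rfl, κ, ?_, hκ⟩
  rintro rfl
  apply hx0
  rw [hκ, zero_smul]

end Eig

/-- An eigenvector string: `v` is a lowest weight vector of weight `-m`, an eigenvector of `G`. -/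
structure IsStr (h f G : Module.End K V) (m : ℕ) (α : K) (v : V) : Prop where
  ne : v ≠ 0
  low : f v = 0
  wt : h v = -(m : K) • v
  eig : G v = α • v

section String

variable [Module.Finite K V] {h e f G : Module.End K V} (t : Sl2 h e f) {q : K} (hq : q ≠ 0)
  (hGe : G * e = q • (e * G)) (hfG : f * G = q • (G * f))

omit [CharZero K] [Module.Finite K V] in
include hGe in
lemma G_e_pow {x : V} {μ : K} (hx : G x = μ • x) (k : ℕ) :
    G ((e ^ k) x) = (q ^ k * μ) • (e ^ k) x := by
  induction k with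
  | zero => simpa using hx
  | succ k ih =>
    rw [pow_succ' e, Module.End.mul_apply, ← Module.End.mul_apply G, hGe, LinearMap.smul_apply,
      Module.End.mul_apply, ih, map_smul, smul_smul]
    congr 1
    ring

omit [CharZero K] [Module.Finite K V] in
include hq hfG in
lemma G_f_pow {x : V} {μ : K} (hx : G x = μ • x) (k : ℕ) :
    G ((f ^ k) x) = ((q ^ k)⁻¹ * μ) • (f ^ k) x := by
  induction k with
  | zero => simpa using hx
  | succ k ih =>
    have h1 : q • (G * f) ((f ^ k) x) = (f * G) ((f ^ k) x) := by rw [hfG]; rfl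
    rw [Module.End.mul_apply, Module.End.mul_apply, ih, map_smul] at h1
    rw [pow_succ' f, Module.End.mul_apply]
    have h2 : G (f ((f ^ k) x)) = q⁻¹ • (q • G (f ((f ^ k) x))) := by
      rw [smul_smul, inv_mul_cancel₀ hq, one_smul]
    rw [h2, h1, smul_smul]
    congr 1
    rw [pow_succ, mul_inv]
    ring

variable {ι : Type*} [Finite ι] {b : Module.Basis ι K V} {lam : ι → K}
  (hG : ∀ i, G (b i) = lam i • b i) (hinj : Function.Injective lam)

include t hq hGe hfG hG hinj

/-- Every eigenvector lies in a string. -/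
lemma exists_string (i : ι) {d : ℤ} (hd : h (b i) = (d : K) • b i) :
    ∃ (m c : ℕ) (v : V), IsStr h f G m ((q ^ c)⁻¹ * lam i) v ∧ c ≤ m ∧ b i = (e ^ c) v ∧
      d = 2 * c - m := by
  classical
  have hb0 : b i ≠ 0 := b.ne_zero i
  -- the lowest power
  obtain ⟨N, hN⟩ := t.nil_f
  have hex : ∃ k, (f ^ k) (b i) = 0 := ⟨N, by rw [hN]; rfl⟩
  obtain ⟨c, hc⟩ : ∃ c, Nat.find hex = c + 1 := by
    apply Nat.exists_eq_succ_of_ne_zero
    intro h0
    have := Nat.find_spec hex
    rw [h0] at this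
    exact hb0 (by simpa using this)
  have hc0 : (f ^ (c + 1)) (b i) = 0 := by rw [← hc]; exact Nat.find_spec hex
  have hcne : (f ^ c) (b i) ≠ 0 := Nat.find_min hex (by omega)
  obtain ⟨N', hN'⟩ := t.nil_e
  have hex' : ∃ k, (e ^ k) (b i) = 0 := ⟨N', by rw [hN']; rfl⟩
  obtain ⟨c', hc'⟩ : ∃ c, Nat.find hex' = c + 1 := by
    apply Nat.exists_eq_succ_of_ne_zero
    intro h0
    have := Nat.find_spec hex'
    rw [h0] at this
    exact hb0 (by simpa using this)
  have hc0' : (e ^ (c' + 1)) (b i) = 0 := by rw [← hc']; exact Nat.find_spec hex'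
  have hcne' : (e ^ c') (b i) ≠ 0 := Nat.find_min hex' (by omega)
  set u := (f ^ c) (b i) with hu
  set z := (e ^ c') (b i) with hz
  have hfu : f u = 0 := by rw [hu, ← Module.End.mul_apply, ← pow_succ']; exact hc0
  have hez : e z = 0 := by rw [hz, ← Module.End.mul_apply, ← pow_succ']; exact hc0'
  have hhu : h u = -((2 * c - d : ℤ) : K) • u := by
    rw [hu, t.h_f_pow' hd]; congr 1; push_cast; ring
  have hhz : (-h) z = -((d + 2 * c' : ℤ) : K) • z := by
    rw [LinearMap.neg_apply, hz, t.h_e_pow' hd, ← neg_smul]; congr 1; push_cast; ring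
  obtain ⟨m, hm, -, hm1⟩ := Sl2.exists_nat t hfu hhu hcne
  obtain ⟨M, hM, -, hM1⟩ := Sl2.exists_nat t.swap hez hhz hcne'
  have hm' : (2 * c - d : ℤ) = m := by exact_mod_cast hm
  have hM' : (d + 2 * c' : ℤ) = M := by exact_mod_cast hM
  rw [hm] at hhu
  rw [hM] at hhz
  -- `c ≤ m`
  have hGz : G z = (q ^ c' * lam i) • z := G_e_pow hGe (hG i) c'
  have hcm : c ≤ m := by
    by_contra hlt
    push Not at hlt
    have h1 : G ((f ^ c') z) = lam i • (f ^ c') z := by
      rw [G_f_pow hq hfG hGz, ← mul_assoc, inv_mul_cancel₀ (pow_ne_zero _ hq), one_mul]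
    obtain ⟨κ, hκ⟩ := eig_unique hG hinj h1
    by_cases hκ0 : κ = 0
    · rw [hκ0, zero_smul] at hκ
      have : M < c' := by
        by_contra h2
        exact Sl2.e_pow_ne t.swap hez hhz hcne' (by omega) hκ
      omega
    · have h2 : (f ^ (c + c')) z = κ • u := by
        rw [pow_add, Module.End.mul_apply, hκ, map_smul]
      have h3 : (f ^ (c + 1 + c')) z = 0 := by
        rw [pow_add, Module.End.mul_apply, hκ, map_smul, hc0, smul_zero]
      have h4 : M < c + 1 + c' := by
        by_contra h5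
        exact Sl2.e_pow_ne t.swap hez hhz hcne' (by omega) h3
      have h5 : c + c' ≤ M := by
        by_contra h6
        have := Sl2.e_pow_zero t.swap hez hhz (k := c + c') (by omega)
        rw [this] at h2
        exact (smul_ne_zero hκ0 hcne) h2.symm
      omega
  -- go back up
  have hGu : G u = ((q ^ c)⁻¹ * lam i) • u := G_f_pow hq hfG (hG i) c
  have h1 : G ((e ^ c) u) = lam i • (e ^ c) u := by
    rw [G_e_pow hGe hGu, ← mul_assoc, mul_inv_cancel₀ (pow_ne_zero _ hq), one_mul]
  obtain ⟨κ, hκ⟩ := eig_unique hG hinj h1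
  have hκ0 : κ ≠ 0 := by
    rintro rfl
    rw [zero_smul] at hκ
    exact Sl2.e_pow_ne t hfu hhu hcne hcm hκ
  refine ⟨m, c, κ⁻¹ • u, ⟨?_, ?_, ?_, ?_⟩, hcm, ?_, by omega⟩
  · exact smul_ne_zero (inv_ne_zero hκ0) hcne
  · rw [map_smul, hfu, smul_zero]
  · rw [map_smul, hhu, smul_comm]
  · rw [map_smul, hGu, smul_comm]
  · rw [map_smul, hκ, smul_smul, inv_mul_cancel₀ hκ0, one_smul]

omit hq hfG hGe in
/-- There is nothing below a string. -/
lemma no_below (hGe : G * e = q • (e * G)) (hq : q ≠ 0) {m : ℕ} {α : K} {v : V}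
    (hv : IsStr h f G m α v) {s : ℕ} (hs : 1 ≤ s) {x : V}
    (hx : h x = -((m + 2 * s : ℕ) : K) • x) (hGx : G x = ((q ^ s)⁻¹ * α) • x) : x = 0 := by
  by_contra hx0
  obtain ⟨i, hi, κ, hκ, hvi⟩ := eig_exists hG hinj hv.ne hv.eig
  have h1 : G ((e ^ s) x) = lam i • (e ^ s) x := by
    rw [G_e_pow hGe hGx, ← mul_assoc, mul_inv_cancel₀ (pow_ne_zero _ hq), one_mul, hi]
  obtain ⟨κ', hκ'⟩ := eig_unique hG hinj h1
  have h2 : (e ^ s) x = (κ' * κ⁻¹) • v := by
    rw [hκ', hvi, smul_smul, mul_assoc, inv_mul_cancel₀ hκ, mul_one]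
  have h3 : (e ^ (m + 2 * s)) x = 0 := by
    rw [show m + 2 * s = (m + s) + s by ring, pow_add, Module.End.mul_apply, h2, map_smul,
      Sl2.e_pow_zero t hv.low hv.wt (by omega), smul_zero]
  exact t.e_pow_inj hx hx0 le_rfl h3

end String

end Pool.Agent.H914
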