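import Mathlib

/-!
# Unipotent isometries with many pairwise non-orthogonal fixed vectors
-/

open Finset

namespace Pool.Agent.H914

variable {K : Type*} [Field K] [CharZero K] {V : Type*} [AddCommGroup V] [Module K V]
  [Module.Finite K V]

/-- **A unipotent isometry of a nondegenerate symmetric form on a space of dimension at most
`ρ + 2` which fixes `z 1, ..., z ρ` and `w 1, ..., w ρ` with `det (B (z a) (w b)) ≠ 0` is
trivial.** -/
theorem unipotent_eq_one (B : LinearMap.BilinForm K V) (hsymm : ∀ x y, B x y = B y x)
    (hnd : ∀ x, (∀ y, B x y = 0) → x = 0) {G : Module.End K V}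
    (hG : ∀ x y, B (G x) (G y) = B x y) (hun : IsNilpotent (G - 1)) {ρ : ℕ} {z w : Fin ρ → V}
    (hz : ∀ a, G (z a) = z a) (hw : ∀ a, G (w a) = w a)
    (hdet : (Matrix.of fun a b => B (z a) (w b)).det ≠ 0)
    (hdim : Module.finrank K V ≤ ρ + 2) : G = 1 := by
  classical
  set M : Module.End K V := G - 1 with hM
  have hGM : ∀ x, G x = x + M x := by
    intro x
    rw [hM, LinearMap.sub_apply, Module.End.one_apply]
    abel
  by_contra hne
  have hM0 : M ≠ 0 := fun h => hne (sub_eq_zero.1 h)
  -- the image is orthogonal to the kernel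
  have horth : ∀ x y, M y = 0 → B (M x) y = 0 := by
    intro x y hy
    have h1 := hG x y
    rw [hGM x, hGM y, hy, add_zero, map_add, LinearMap.add_apply] at h1
    linear_combination h1
  -- a nonzero vector in the kernel and in the image
  obtain ⟨v, hv0, hvker, u, hu⟩ : ∃ v, v ≠ 0 ∧ M v = 0 ∧ ∃ u, M u = v := by
    have hex : ∃ m, M ^ m = 0 := hun
    set m := Nat.find hex with hm
    have hm1 : M ^ m = 0 := Nat.find_spec hex
    have hm2 : 2 ≤ m := by
      by_contra hlt
      have : m = 0 ∨ m = 1 := by omega
      rcases this with h | h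
      · rw [h, pow_zero] at hm1
        apply hM0
        rw [← mul_one M, hm1, mul_zero]
      · rw [h, pow_one] at hm1
        exact hM0 hm1
    have hm3 : M ^ (m - 1) ≠ 0 := Nat.find_min hex (by omega)
    obtain ⟨x, hx⟩ : ∃ x, (M ^ (m - 1)) x ≠ 0 := by
      by_contra hcon
      push Not at hcon
      exact hm3 (LinearMap.ext hcon)
    refine ⟨(M ^ (m - 1)) x, hx, ?_, (M ^ (m - 2)) x, ?_⟩
    · rw [← Module.End.mul_apply, ← pow_succ', show m - 1 + 1 = m by omega, hm1,
        LinearMap.zero_apply]
    · rw [← Module.End.mul_apply, ← pow_succ', show m - 2 + 1 = m - 1 by omega]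
  -- the fixed vectors are independent modulo the image
  have hind : ∀ (c : Fin ρ → K) (t : K) (x : V), ∑ a, c a • z a = M x → c = 0 := by
    intro c t x hc
    have h1 : Matrix.vecMul c (Matrix.of fun a b => B (z a) (w b)) = 0 := by
      funext b
      have h2 : B (∑ a, c a • z a) (w b) = 0 := by
        rw [hc]
        apply horth
        rw [hM, LinearMap.sub_apply, hw, Module.End.one_apply, sub_self]
      rw [map_sum, LinearMap.sum_apply] at h2
      rw [Matrix.vecMul, Pi.zero_apply, ← h2]
      simp [dotProduct]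
    by_contra hc0
    exact hdet (Matrix.exists_vecMul_eq_zero_iff.1 ⟨c, hc0, h1⟩)
  -- the kernel has dimension at least `ρ + 1`
  have hker : ρ + 1 ≤ Module.finrank K (LinearMap.ker M) := by
    have hli : LinearIndependent K (fun i : Option (Fin ρ) =>
        (Option.elim i (⟨v, hvker⟩ : LinearMap.ker M) (fun a => ⟨z a, by
          rw [LinearMap.mem_ker, hM, LinearMap.sub_apply, hz, Module.End.one_apply,
            sub_self]⟩))) := by
      rw [Fintype.linearIndependent_iff]
      intro g hg
      have h1 := congrArg (fun x : LinearMap.ker M => (x : V)) hg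
      simp only [Fintype.sum_option, Option.elim_none, Option.elim_some, Submodule.coe_add,
        Submodule.coe_smul, Submodule.coe_sum, Submodule.coe_zero] at h1
      have h2 : (fun a => g (some a)) = 0 := by
        apply hind _ 0 (-(g none) • u)
        rw [map_smul, hu]
        rw [neg_smul, eq_neg_iff_add_eq_zero, add_comm]
        exact h1
      have h3 : ∀ a, g (some a) = 0 := fun a => congrFun h2 a
      simp only [h3, zero_smul, Finset.sum_const_zero, add_zero] at h1
      intro i
      cases i with
      | none => exact (smul_eq_zero.1 h1).resolve_right hv0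
      | some a => exact h3 a
    have h4 := hli.fintype_card_le_finrank
    rwa [Fintype.card_option, Fintype.card_fin] at h4
  have hrk := LinearMap.finrank_range_add_finrank_ker M
  have hr1 : Module.finrank K (LinearMap.range M) ≤ 1 := by omega
  -- the image is the line spanned by `v`
  have hline : ∀ x, ∃ c : K, M x = c • v := by
    intro x
    have hvr : v ∈ LinearMap.range M := ⟨u, hu⟩
    have h5 : Module.finrank K (LinearMap.range M) = 1 := by
      have h6 : 0 < Module.finrank K (LinearMap.range M) := by
        rw [Module.finrank_pos_iff]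
        exact ⟨⟨⟨v, hvr⟩, 0, fun h => hv0 (congrArg Subtype.val h)⟩⟩
      omega
    have h7 := (finrank_eq_one_iff_of_nonzero' (⟨v, hvr⟩ : LinearMap.range M)
      (fun h => hv0 (congrArg Subtype.val h))).1 h5 ⟨M x, ⟨x, rfl⟩⟩
    obtain ⟨c, hc⟩ := h7
    exact ⟨c, (congrArg Subtype.val hc).symm⟩
  have hvv : B v v = 0 := by
    conv_lhs => rw [← hu]
    rw [hu]
    have := horth u v hvker
    rwa [hu] at this
  have hxM : ∀ x, B x (M x) = 0 := by
    intro x
    have h1 := hG x x
    obtain ⟨c, hc⟩ := hline x
    have h2 : B (M x) (M x) = 0 := by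
      rw [hc, map_smul, map_smul, LinearMap.smul_apply, hvv, smul_zero, smul_zero]
    simp only [hGM, map_add, LinearMap.add_apply, h2, add_zero] at h1
    rw [hsymm (M x) x] at h1
    have h3 : (2 : K) * B x (M x) = 0 := by linear_combination h1
    exact (mul_eq_zero.1 h3).resolve_left two_ne_zero
  have hkey : ∀ x, M x ≠ 0 → B x v = 0 := by
    intro x hx
    obtain ⟨c, hc⟩ := hline x
    have hc0 : c ≠ 0 := by
      rintro rfl
      rw [zero_smul] at hc
      exact hx hc
    have h1 := hxM x
    rw [hc, map_smul, smul_eq_mul] at h1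
    exact (mul_eq_zero.1 h1).resolve_left hc0
  have hMu : M u ≠ 0 := by rw [hu]; exact hv0
  apply hv0
  apply hnd
  intro y
  rw [hsymm]
  by_cases hy : M y = 0
  · have h1 := hkey (u + y) (by rw [map_add, hy, add_zero]; exact hMu)
    rw [map_add, LinearMap.add_apply, hkey u hMu, zero_add] at h1
    exact h1
  · exact hkey y hy

/-- **Isometries of nondegenerate symmetric forms.** If the generalized eigenspace of the isometry
`G` for the eigenvalue `1` has dimension at most `ρ + 2` and `G` fixes `z 1, ..., z ρ` and
`w 1, ..., w ρ` with `det (B (z a) (w b)) ≠ 0`, the generalized eigenspace consists of eigenvectors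
and the form is nondegenerate on it. -/
theorem isometry_fixed (B : LinearMap.BilinForm K V) (hsymm : ∀ x y, B x y = B y x)
    (hnd : ∀ x, (∀ y, B x y = 0) → x = 0) {G : Module.End K V}
    (hG : ∀ x y, B (G x) (G y) = B x y) {ρ : ℕ} {z w : Fin ρ → V}
    (hz : ∀ a, G (z a) = z a) (hw : ∀ a, G (w a) = w a)
    (hdet : (Matrix.of fun a b => B (z a) (w b)).det ≠ 0)
    (hdim : G.charpoly.rootMultiplicity 1 ≤ ρ + 2) :
    (∀ x, ∀ m : ℕ, ((G - 1) ^ m) x = 0 → G x = x) ∧
      ∀ x, G x = x → (∀ y, G y = y → B x y = 0) → x = 0 := by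
  classical
  set M : Module.End K V := G - 1 with hM
  have hMx : ∀ x, M x = G x - x := fun x => by
    rw [hM, LinearMap.sub_apply, Module.End.one_apply]
  obtain ⟨m, hm, hsup⟩ := ((LinearMap.eventually_isCompl_ker_pow_range_pow M).and
    (LinearMap.eventually_iSup_ker_pow_eq M)).exists
  set E := LinearMap.ker (M ^ m) with hE
  have hmemE : ∀ (x : V) (k : ℕ), (M ^ k) x = 0 → x ∈ E := by
    intro x k hk
    have h1 : x ∈ ⨆ n, LinearMap.ker (M ^ n) := (le_iSup (fun n => LinearMap.ker (M ^ n)) k) hk
    rwa [hsup] at h1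
  have hcomm : Commute G M := by rw [hM]; exact (Commute.refl G).sub_right (Commute.one_right G)
  have hGE : ∀ x ∈ E, G x ∈ E := by
    intro x hx
    rw [hE, LinearMap.mem_ker] at hx ⊢
    rw [← Module.End.mul_apply, ← (hcomm.pow_right m).eq, Module.End.mul_apply, hx, map_zero]
  have hfinE : Module.finrank K E ≤ ρ + 2 := by
    have h1 : G.maxGenEigenspace 1 = E := by
      ext x
      rw [Module.End.mem_maxGenEigenspace, one_smul]
      constructor
      · rintro ⟨k, hk⟩
        exact hmemE x k hk
      · intro hx
        exact ⟨m, hx⟩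
    rw [← h1, LinearMap.finrank_maxGenEigenspace_eq]
    exact hdim
  have hinj : ∀ x, G x = 0 → x = 0 := by
    intro x hx
    apply hnd
    intro y
    rw [← hG, hx, map_zero, LinearMap.zero_apply]
  have hinjm : ∀ (j : ℕ) (x : V), (G ^ j) x = 0 → x = 0 := by
    intro j
    induction j with
    | zero => intro x hx; simpa using hx
    | succ j ih =>
      intro x hx
      rw [pow_succ', Module.End.mul_apply] at hx
      exact ih x (hinj _ hx)
  have hsurj : ∀ (j : ℕ) (x : V), ∃ x', (G ^ j) x' = x := by
    intro j
    have h1 : Function.Injective (G ^ j) := by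
      rw [← LinearMap.ker_eq_bot, LinearMap.ker_eq_bot']
      exact hinjm j
    exact LinearMap.injective_iff_surjective.1 h1
  have hstep : ∀ x y, B (G x) (M y) = - B (M x) y := by
    intro x y
    rw [hMx, hMx, map_sub, hG, map_sub, LinearMap.sub_apply]
    ring
  have hiter : ∀ (j : ℕ) (x y : V), B ((G ^ j) x) ((M ^ j) y) = (-1) ^ j * B ((M ^ j) x) y := by
    intro j
    induction j with
    | zero => intro x y; simp
    | succ j ih =>
      intro x y
      have e1 : (G ^ (j + 1)) x = (G ^ j) (G x) := by rw [pow_succ, Module.End.mul_apply]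
      have e2 : (M ^ (j + 1)) y = (M ^ j) (M y) := by rw [pow_succ, Module.End.mul_apply]
      have e3 : (M ^ j) (G x) = G ((M ^ j) x) := by
        rw [← Module.End.mul_apply, ← (hcomm.pow_right j).eq, Module.End.mul_apply]
      have e4 : M ((M ^ j) x) = (M ^ (j + 1)) x := by rw [pow_succ', Module.End.mul_apply]
      rw [e1, e2, ih, e3, hstep, e4]
      ring
  have hperp : ∀ x ∈ E, ∀ y, B x ((M ^ m) y) = 0 := by
    intro x hx y
    obtain ⟨x', rfl⟩ := hsurj m x
    have h1 : (M ^ m) x' = 0 := by
      apply hinjm m
      rw [hE, LinearMap.mem_ker, ← Module.End.mul_apply,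
        ← ((hcomm.pow_right m).pow_left m).eq, Module.End.mul_apply] at hx
      exact hx
    rw [hiter, h1, map_zero, LinearMap.zero_apply, mul_zero]
  have hndE : ∀ x ∈ E, (∀ y ∈ E, B x y = 0) → x = 0 := by
    intro x hx h
    apply hnd
    intro y
    obtain ⟨y₁, hy₁, y₂, ⟨c, rfl⟩, rfl⟩ := Submodule.mem_sup.1
      (show y ∈ E ⊔ LinearMap.range (M ^ m) by rw [hm.sup_eq_top]; exact Submodule.mem_top)
    rw [map_add, h y₁ hy₁, hperp x hx, add_zero]
  have hfix : ∀ x ∈ E, G x = x := by
    set GE : Module.End K E := G.restrict hGE with hGEdef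
    have hcoe : ∀ x : E, ((GE x : E) : V) = G x := fun x => rfl
    have hone : GE = 1 := by
      refine unipotent_eq_one (V := E) (B.restrict E) (fun x y => hsymm _ _)
        (fun x hx => ?_) (fun x y => hG _ _) ⟨m, ?_⟩ (ρ := ρ)
        (z := fun a => ⟨z a, hmemE _ 1 (by rw [pow_one, hMx, hz, sub_self])⟩)
        (w := fun a => ⟨w a, hmemE _ 1 (by rw [pow_one, hMx, hw, sub_self])⟩)
        (fun a => Subtype.ext (hz a)) (fun a => Subtype.ext (hw a)) hdet hfinE
      · apply Subtype.ext
        exact hndE x x.2 (fun y hy => hx ⟨y, hy⟩)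
      · apply LinearMap.ext
        intro x
        apply Subtype.ext
        have h1 : ∀ (j : ℕ) (x : E), ((((GE - 1) ^ j) x : E) : V) = (M ^ j) x := by
          intro j
          induction j with
          | zero => intro x; rfl
          | succ j ih =>
            intro x
            rw [pow_succ, Module.End.mul_apply, ih, pow_succ, Module.End.mul_apply]
            rfl
        rw [h1]
        exact x.2
    intro x hx
    have := congrArg (fun F : Module.End K E => ((F ⟨x, hx⟩ : E) : V)) hone
    exact this
  refine ⟨fun x k hk => hfix x (hmemE x k hk), fun x hx h => ?_⟩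
  refine hndE x (hmemE x 1 (by rw [pow_one, hMx, hx, sub_self])) (fun y hy => h y (hfix y hy))

end Pool.Agent.H914
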