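import Pool.Agent.H914R2.UDefs

/-!
# Jordan blocks of Frobenius: definitions
-/

open CategoryTheory AlgebraicGeometry Polynomial

universe u v

namespace Pool.Agent.H914

open VarClass Obj WeilCohomology

variable {k : Type u} [Field k] {𝒱 : VarClass k} {ops : CycleOps 𝒱}

/-- The endomorphism `f^*` has on `H^i(X)` a Jordan block of size at least two which belongs to
the roots of the irreducible polynomial `P`: some `x` in `H^i(X)` is killed by `P(f^*)^2` but not
by `P(f^*)`. -/
def HasJordanBlock (W : WeilCohomology.{u, v} ops) (X : 𝒱.Obj) (f : X ⟶ X) (i : ℕ)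
    (P : W.K[X]) : Prop :=
  ∃ x ∈ W.gr X i, aeval (W.map f).toLinearMap (P ^ 2) x = 0 ∧
    aeval (W.map f).toLinearMap P x ≠ 0

end Pool.Agent.H914
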