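import Pool.Agent.H914R2.UMain
import Pool.Agent.H914R2.UDefs2
import Pool.Agent.H914R2.GConv2
import Pool.Agent.H914R2.Restr

/-!
# Counting the Jordan blocks of Frobenius with the defect of the Tate conjecture
-/

open CategoryTheory AlgebraicGeometry Finset Polynomial

universe u v w

namespace Pool.Agent.H914

section Alg

variable {K : Type*} [Field K] {V : Type*} [AddCommGroup V] [Module K V] [Module.Finite K V]

/-- **Counting for isometries.** -/
theorem defect_count (B : LinearMap.BilinForm K V)
    (hnd : ∀ y, (∀ x, B x y = 0) → y = 0) {G : Module.End K V}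
    (hG : ∀ x y, B (G x) (G y) = B x y) (hGs : Function.Surjective G) {ρ : ℕ} {z w : Fin ρ → V}
    (hz : ∀ a, G (z a) = z a) (hw : ∀ a, G (w a) = w a)
    (hdet : (Matrix.of fun a b => B (z a) (w b)).det ≠ 0) {S : Type*} [Fintype S] {A : S → V}
    (hA : ∀ s, G (A s) = A s)
    (hA2 : ∀ s y, (G - 1) ((G - 1) y) = 0 → B (A s) y = 0)
    (hli : LinearIndependent K A) :
    ρ + 3 * Fintype.card S ≤ G.charpoly.rootMultiplicity 1 := by
  classical
  set M : Module.End K V := G - 1 with hM
  have hMx : ∀ x, M x = G x - x := fun x => by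
    rw [hM, LinearMap.sub_apply, Module.End.one_apply]
  have hMG : ∀ x, M (G x) = G (M x) := fun x => by rw [hMx, hMx, map_sub]
  have hstep : ∀ x y, B (G x) (M y) = - B (M x) y := by
    intro x y
    rw [hMx, hMx, map_sub, hG, map_sub, LinearMap.sub_apply]
    ring
  have hbij : Function.Surjective B.flip := by
    have hinj : Function.Injective B.flip := by
      rw [← LinearMap.ker_eq_bot, LinearMap.ker_eq_bot']
      intro y hy
      apply hnd
      intro x
      exact congrArg (fun F => F x) hy
    have hfr : Module.finrank K V = Module.finrank K (V →ₗ[K] K) :=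
      Subspace.dual_finrank_eq.symm
    exact (LinearMap.injective_iff_surjective_of_finrank_eq_finrank hfr).1 hinj
  have hex : ∀ s, ∃ c, M (M c) = A s := by
    intro s
    by_contra hcon
    have hnot : ¬ LinearMap.range (M ∘ₗ M) = ⊤ ∧ A s ∉ LinearMap.range (M ∘ₗ M) := by
      have h1 : A s ∉ LinearMap.range (M ∘ₗ M) := fun ⟨c, hc⟩ => hcon ⟨c, hc⟩
      exact ⟨fun h => h1 (h ▸ Submodule.mem_top), h1⟩
    obtain ⟨ℓ, hℓ, hℓ0⟩ := Submodule.exists_le_ker_of_notMem hnot.2
    obtain ⟨y, hy⟩ := hbij ℓ
    have hyx : ∀ x, B x y = ℓ x := fun x => congrArg (fun F => F x) hy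
    apply hℓ
    rw [← hyx]
    apply hA2
    apply hnd
    intro x
    obtain ⟨x', rfl⟩ := hGs x
    obtain ⟨x'', rfl⟩ := hGs x'
    rw [hstep, hMG, hstep, neg_neg, hyx]
    exact hℓ0 ⟨x'', rfl⟩
  choose c hc using hex
  have hMA : ∀ s, M (A s) = 0 := fun s => by rw [hMx, hA, sub_self]
  have hMz : ∀ a, M (z a) = 0 := fun s => by rw [hMx, hz, sub_self]
  have hMw : ∀ a, M (w a) = 0 := fun s => by rw [hMx, hw, sub_self]
  have horth : ∀ x y, M y = 0 → B (M x) y = 0 := by
    intro x y hy
    have := hstep x y
    rw [hy, map_zero] at this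
    linear_combination this
  have hlin : ∀ g : S → K, ∑ s, g s • A s = 0 → ∀ s, g s = 0 :=
    Fintype.linearIndependent_iff.1 hli
  set E := G.maxGenEigenspace 1 with hE
  have hmem : ∀ x, M (M (M x)) = 0 → x ∈ E := by
    intro x hx
    rw [hE, Module.End.mem_maxGenEigenspace]
    refine ⟨3, ?_⟩
    rw [one_smul, pow_succ', pow_succ', pow_one, Module.End.mul_apply, Module.End.mul_apply]
    exact hx
  set v : Fin ρ ⊕ (S × Fin 3) → V := Sum.elim z (fun p => (M ^ (p.2 : ℕ)) (c p.1)) with hv
  have hvE : ∀ i, v i ∈ E := by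
    rintro (a | ⟨s, j⟩)
    · apply hmem
      simp only [hv, Sum.elim_inl, hMz, map_zero]
    · apply hmem
      simp only [hv, Sum.elim_inr]
      have h1 : ∀ x, M (M (M ((M ^ (j : ℕ)) x))) = (M ^ (j : ℕ)) (M (M (M x))) := by
        intro x
        have h2 : M * (M * (M * M ^ (j : ℕ))) = M ^ (j : ℕ) * (M * (M * M)) := by
          simp only [← pow_succ', ← pow_succ]
          congr 1
        exact congrArg (fun F => F x) h2
      rw [h1, hc, hMA, map_zero]
  have hli2 : LinearIndependent K v := by
    rw [Fintype.linearIndependent_iff]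
    intro g hg
    rw [Fintype.sum_sum_type, Fintype.sum_prod_type] at hg
    simp only [hv, Sum.elim_inl, Sum.elim_inr, Fin.sum_univ_three, Fin.val_zero, Fin.val_one,
      Fin.val_two, pow_zero, pow_one, Module.End.one_apply, pow_two, Module.End.mul_apply,
      hc] at hg
    have hM1 := congrArg M hg
    simp only [map_add, map_sum, map_smul, hMz, hMA, hc, smul_zero, Finset.sum_const_zero,
      zero_add, add_zero, map_zero] at hM1
    have hM2 := congrArg M hM1
    simp only [map_add, map_sum, map_smul, hMA, hc, smul_zero, Finset.sum_const_zero,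
      add_zero, map_zero] at hM2
    have g0 := hlin _ hM2
    simp only [g0, zero_smul, zero_add] at hM1
    have g1 := hlin _ hM1
    simp only [g0, g1, zero_smul, zero_add] at hg
    have g3 : (fun a => g (Sum.inl a)) = 0 := by
      have h1 : Matrix.vecMul (fun a => g (Sum.inl a)) (Matrix.of fun a b => B (z a) (w b)) =
          0 := by
        funext b
        have h2 := congrArg (fun x => B x (w b)) hg
        simp only [map_add, LinearMap.add_apply, map_sum, LinearMap.sum_apply, map_smul,
          LinearMap.smul_apply, map_zero, LinearMap.zero_apply] at h2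
        have h3 : ∀ s, B (A s) (w b) = 0 := by
          intro s
          rw [← hc]
          exact horth _ _ (hMw b)
        simp only [h3, smul_zero, Finset.sum_const_zero, add_zero] at h2
        rw [Matrix.vecMul, Pi.zero_apply, ← h2]
        simp [dotProduct]
      by_contra hc0
      exact hdet (Matrix.exists_vecMul_eq_zero_iff.1 ⟨_, hc0, h1⟩)
    have g3' : ∀ a, g (Sum.inl a) = 0 := fun a => congrFun g3 a
    simp only [g3', zero_smul, Finset.sum_const_zero, zero_add] at hg
    have g2 := hlin _ hg
    rintro (a | ⟨s, j⟩)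
    · exact g3' a
    · fin_cases j
      · exact g0 s
      · exact g1 s
      · exact g2 s
  have hli3 : LinearIndependent K (fun i => (⟨v i, hvE i⟩ : E)) := by
    apply LinearIndependent.of_comp E.subtype
    exact hli2
  have h4 := hli3.fintype_card_le_finrank
  rw [Fintype.card_sum, Fintype.card_fin, Fintype.card_prod, Fintype.card_fin, hE,
    LinearMap.finrank_maxGenEigenspace_eq] at h4
  omega

omit [Module.Finite K V] in
/-- The operator `A T` has square zero if `A ^ 2 = 0` and `A T - T A` commutes with `A`. -/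
lemma sq_zero_of_comm [CharZero K] {A T : Module.End K V} (hA : A * A = 0)
    (hD : Commute A (A * T - T * A)) : A * T * A = 0 := by
  have h1 : A * T * A = A * (A * T - T * A) * (-1 : K) • 1 := by
    rw [mul_sub, ← mul_assoc, hA, zero_mul, zero_sub]
    simp [mul_assoc]
  have h2 : A * T * A = (A * T - T * A) * A := by
    rw [sub_mul, mul_assoc T, hA, mul_zero, sub_zero]
  rw [← hD.eq] at h2
  have h3 : (2 : K) • (A * T * A) = 0 := by
    rw [two_smul]
    nth_rewrite 1 [h1]
    nth_rewrite 1 [h2]
    simp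
  exact (smul_eq_zero.1 h3).resolve_left two_ne_zero

omit [Module.Finite K V] in
/-- If `[F, T]` commutes with `F`, so does `[R(F), T]`. -/
lemma poly_bracket {F T : Module.End K V} (h : Commute F (F * T - T * F)) (R : K[X]) :
    Commute F (aeval F R * T - T * aeval F R) := by
  induction R using Polynomial.induction_on' with
  | add P Q hP hQ =>
    have : aeval F (P + Q) * T - T * aeval F (P + Q) =
        (aeval F P * T - T * aeval F P) + (aeval F Q * T - T * aeval F Q) := by
      rw [map_add, add_mul, mul_add]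
      abel
    rw [this]
    exact hP.add_right hQ
  | monomial n c =>
    have hn : ∀ n : ℕ, Commute F (F ^ n * T - T * F ^ n) := by
      intro n
      induction n with
      | zero => simp
      | succ n ih =>
        have : F ^ (n + 1) * T - T * F ^ (n + 1) =
            F ^ n * (F * T - T * F) + (F ^ n * T - T * F ^ n) * F := by
          rw [pow_succ]
          noncomm_ring
        rw [this]
        exact (((Commute.refl F).pow_right n).mul_right h).add_right
          (ih.mul_right (Commute.refl F))
    have h2 : aeval F (monomial n c) * T - T * aeval F (monomial n c) =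
        c • (F ^ n * T - T * F ^ n) := by
      rw [aeval_monomial, Algebra.algebraMap_eq_smul_one, smul_mul_assoc, one_mul,
        smul_mul_assoc, mul_smul_comm, smul_sub]
    rw [h2]
    exact (hn n).smul_right c

/-- The relations of the minimal polynomial on an invariant subspace. -/
lemma exists_min_on {F : Module.End K V} {U : Submodule K V} (h : ∀ a ∈ U, F a ∈ U) :
    ∃ μ : K[X], μ ≠ 0 ∧ ∀ R : K[X], (∀ x ∈ U, aeval F R x = 0) ↔ μ ∣ R := by
  refine ⟨minpoly K (F.restrict h), minpoly.ne_zero (Algebra.IsIntegral.isIntegral _),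
    fun R => ?_⟩
  constructor
  · intro hR
    apply minpoly.dvd
    apply LinearMap.ext
    intro x
    apply Subtype.ext
    rw [restrict_aeval, hR x x.2]
    rfl
  · rintro ⟨c, hc⟩ x hx
    have h1 : aeval (F.restrict h) R = 0 := by
      rw [hc, map_mul, minpoly.aeval, zero_mul]
    have := restrict_aeval h R ⟨x, hx⟩
    rw [h1] at this
    exact this.symm

omit [Module.Finite K V] in
/-- A Jordan block of size at least two belonging to the polynomial `P`. -/
lemma sq_dvd_of_block {F : Module.End K V} {U : Submodule K V} {μ : K[X]}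
    (hμ : ∀ R : K[X], (∀ x ∈ U, aeval F R x = 0) ↔ μ ∣ R) {P : K[X]} (hP : Irreducible P)
    {x : V} (hx : x ∈ U) (h2 : aeval F (P ^ 2) x = 0) (h1 : aeval F P x ≠ 0) : P ^ 2 ∣ μ := by
  classical
  have hμx : aeval F μ x = 0 := (hμ μ).2 (dvd_refl _) x hx
  set D := gcd (P ^ 2) μ with hD
  obtain ⟨a, b, hab⟩ : ∃ a b, D = P ^ 2 * a + μ * b := by
    have := EuclideanDomain.gcd_eq_gcd_ab (P ^ 2) μ
    obtain ⟨c, hc⟩ : EuclideanDomain.gcd (P ^ 2) μ ∣ D :=
      dvd_gcd (EuclideanDomain.gcd_dvd_left _ _) (EuclideanDomain.gcd_dvd_right _ _)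
    refine ⟨EuclideanDomain.gcdA (P ^ 2) μ * c, EuclideanDomain.gcdB (P ^ 2) μ * c, ?_⟩
    rw [hc, this]
    ring
  have hDx : aeval F D x = 0 := by
    rw [hab, map_add, mul_comm, mul_comm μ, map_mul, map_mul, LinearMap.add_apply,
      Module.End.mul_apply, Module.End.mul_apply, h2, hμx, map_zero, map_zero, add_zero]
  obtain ⟨j, hj, hass⟩ := (dvd_prime_pow hP.prime 2).1 (gcd_dvd_left (P ^ 2) μ)
  by_cases hj2 : j = 2
  · subst hj2
    exact hass.symm.dvd.trans (gcd_dvd_right _ _)
  · exfalso
    apply h1
    have h3 : D ∣ P := hass.dvd.trans ((pow_dvd_pow P (by omega : j ≤ 1)).trans (by rw [pow_one]))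
    obtain ⟨c, hc⟩ := h3
    rw [hc, mul_comm, map_mul, Module.End.mul_apply, hDx, map_zero]

end Alg

open VarClass Obj WeilCohomology

variable {k : Type u} [Field k] {𝒱 : VarClass k} {ops : CycleOps 𝒱}
  {W : WeilCohomology.{u, v} ops} {X Y : 𝒱.Obj}

/-- **The counting for the middle cohomology of a variety.** -/
theorem frob_count {g : Y ⟶ Y} {q : ℕ} (hq : q ≠ 0)
    (hdeg : ∀ a, W.tr Y (W.map g a) = (q : W.K) ^ Y.dim * W.tr Y a)
    (hF : ActsAsFrobenius W Y g q) {i : ℕ} (he : 2 * i = Y.dim)
    {ρ m : ℕ} (hρ : NumericalRankGe ops Y i ρ)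
    (hm : MultiplicityLe (W.map g).toLinearMap (W.gr Y (2 * i)) ((q : W.K) ^ i) (ρ + m))
    {S : Type*} [Fintype S] {A : S → W.H Y} (hAg : ∀ s, A s ∈ W.gr Y (2 * i))
    (hA : ∀ s, W.map g (A s) = (q : W.K) ^ i • A s)
    (hA2 : ∀ s, ∀ y ∈ W.gr Y (2 * i), ∀ y' ∈ W.gr Y (2 * i),
      W.map g y = (q : W.K) ^ i • (y + y') → W.map g y' = (q : W.K) ^ i • y' →
        W.tr Y (A s * y) = 0)
    (hli : LinearIndependent W.K A) : 3 * Fintype.card S ≤ m := by
  classical
  have hqK : (q : W.K) ≠ 0 := by exact_mod_cast hq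
  obtain ⟨hst, hmult⟩ := hm
  obtain ⟨z, w, hz, hw, hdet⟩ := hρ
  rw [show Y.dim - i = i by omega] at hw
  set U := W.gr Y (2 * i) with hU
  set c : W.K := (q : W.K) ^ i with hc
  have hc0 : c ≠ 0 := pow_ne_zero _ hqK
  set R : Module.End W.K U := (W.map g).toLinearMap.restrict hst with hR
  set G : Module.End W.K U := c⁻¹ • R with hG
  have hGx : ∀ x : U, ((G x : U) : W.H Y) = c⁻¹ • W.map g x := fun x => rfl
  set B : LinearMap.BilinForm W.K U := ((bil W Y).compl₁₂ U.subtype U.subtype) with hB
  have hBx : ∀ x y : U, B x y = W.tr Y (x * y) := fun x y => rfl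
  have hGfix : ∀ x : U, W.map g (x : W.H Y) = c • (x : W.H Y) → G x = x := by
    intro x h
    apply Subtype.ext
    rw [hGx, h, smul_smul, inv_mul_cancel₀ hc0, one_smul]
  have hcG : ∀ x : U, W.map g (x : W.H Y) = c • ((G x : U) : W.H Y) := by
    intro x
    rw [hGx, smul_smul, mul_inv_cancel₀ hc0, one_smul]
  -- nondegeneracy
  have hnd : ∀ y, (∀ x, B x y = 0) → y = 0 := by
    intro y hy
    apply Subtype.ext
    apply W.nondeg
    intro b
    have hsum : (∑ j ∈ range (2 * Y.dim + 1), proj (W.isInternal Y) j) b = b := by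
      rw [sum_proj (W.isInternal Y) (fun i hi => W.gr_eq_bot _ i (by omega)), Module.End.one_apply]
    rw [← hsum, LinearMap.sum_apply, Finset.mul_sum, map_sum]
    apply Finset.sum_eq_zero
    intro j _
    by_cases hj : j = 2 * i
    · subst hj
      rw [W.even_comm y.2]
      exact hy ⟨_, proj_mem _ _ _⟩
    · refine W.tr_eq_zero (W.mul_mem y.2 (proj_mem _ j _)) ?_
      omega
  -- isometry
  have hiso : ∀ x y, B (G x) (G y) = B x y := by
    intro x y
    have h1 := hdeg ((x : W.H Y) * y)
    rw [map_mul (W.map g), hcG, hcG, smul_mul_smul_comm, map_smul, smul_eq_mul, ← he,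
      two_mul, pow_add, ← hc] at h1
    exact mul_left_cancel₀ (mul_ne_zero hc0 hc0) h1
  have hGs : Function.Surjective G := by
    apply LinearMap.injective_iff_surjective.1
    rw [← LinearMap.ker_eq_bot, LinearMap.ker_eq_bot']
    intro y hy
    apply hnd
    intro x
    rw [← hiso, hy, map_zero]
  -- the multiplicity
  have hmG : G.charpoly.rootMultiplicity 1 ≤ ρ + m := by
    rw [← LinearMap.finrank_maxGenEigenspace_eq]
    rw [← LinearMap.finrank_maxGenEigenspace_eq] at hmult
    have h1 : G.maxGenEigenspace 1 = R.maxGenEigenspace c := by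
      ext x
      rw [Module.End.mem_maxGenEigenspace, Module.End.mem_maxGenEigenspace]
      have h2 : G - (1 : W.K) • 1 = c⁻¹ • (R - c • 1) := by
        apply LinearMap.ext
        intro y
        rw [hG, LinearMap.sub_apply, LinearMap.smul_apply, LinearMap.smul_apply,
          LinearMap.smul_apply, LinearMap.sub_apply, LinearMap.smul_apply, Module.End.one_apply,
          smul_sub, smul_smul, inv_mul_cancel₀ hc0]
      have h3 : ∀ m : ℕ, ((G - (1 : W.K) • 1) ^ m) x = (c⁻¹) ^ m • ((R - c • 1) ^ m) x := by
        intro m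
        rw [h2, _root_.smul_pow, LinearMap.smul_apply]
      constructor
      · rintro ⟨m, hm⟩
        refine ⟨m, ?_⟩
        rw [h3] at hm
        exact (smul_eq_zero.1 hm).resolve_left (pow_ne_zero _ (inv_ne_zero hc0))
      · rintro ⟨m, hm⟩
        exact ⟨m, by rw [h3, hm, smul_zero]⟩
    rw [h1]
    exact hmult
  have hdet' : (Matrix.of fun a b => B ⟨W.cl Y (z a), W.cl_mem (hz a)⟩
      ⟨W.cl Y (w b), W.cl_mem (hw b)⟩).det ≠ 0 := by
    have h1 : (Matrix.of fun a b => B ⟨W.cl Y (z a), W.cl_mem (hz a)⟩
        ⟨W.cl Y (w b), W.cl_mem (hw b)⟩) = (Rat.castHom W.K).mapMatrix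
          (Matrix.of fun a b => Y.V.degCycle (ops.mul (z a) (w b))) := by
      ext a b
      change W.tr Y (W.cl Y (z a) * W.cl Y (w b)) = (Y.V.degCycle (ops.mul (z a) (w b)) : W.K)
      rw [← W.cl_mul]
      apply W.tr_cl
      have h1 := ops.mul_mem (hz a) (hw b)
      rwa [show i + i = Y.dim by omega] at h1
    rw [h1, ← RingHom.map_det]
    intro h2
    exact hdet ((map_eq_zero _).1 h2)
  have key := defect_count B hnd hiso hGs
    (z := fun a => ⟨W.cl Y (z a), W.cl_mem (hz a)⟩)
    (w := fun b => ⟨W.cl Y (w b), W.cl_mem (hw b)⟩)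
    (fun a => hGfix _ (hF _ _ (hz a))) (fun b => hGfix _ (hF _ _ (hw b))) hdet'
    (A := fun s => ⟨A s, hAg s⟩) (fun s => hGfix _ (hA s)) (by
      intro s y hy
      rw [hBx]
      set y' : U := (G - 1) y with hy'
      have e1 : G y = y + y' := by
        rw [hy', LinearMap.sub_apply, Module.End.one_apply]
        abel
      have e2 : G y' = y' := by
        rw [LinearMap.sub_apply, Module.End.one_apply, sub_eq_zero] at hy
        exact hy
      refine hA2 s y y.2 y' y'.2 ?_ ?_
      · rw [hcG, e1]
        rfl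
      · rw [hcG, e2])
    (LinearIndependent.of_comp U.subtype hli)
  omega

/-- Operators of degree zero are given by classes in the middle degree. -/
lemma exists_middle_class {A : Module.End W.K (W.H X)} (hA : IsHom (W.gr X) 0 A) :
    ∃ c ∈ W.gr (X.prod X) (2 * X.dim), W.corr c = A := by
  classical
  set c₀ := (corrEquiv W X).symm A with hc₀
  have hc : W.corr c₀ = A := (corrEquiv W X).apply_symm_apply A
  refine ⟨proj (W.isInternal (X.prod X)) (2 * X.dim) c₀, proj_mem _ _ _, ?_⟩
  apply gr_ext (W.isInternal X)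
  intro i a ha
  have hAa : A a ∈ W.gr X i := by
    have := hA i a (by rw [grZ_natCast]; exact ha)
    rwa [add_zero, grZ_natCast] at this
  have hsum : c₀ = ∑ j ∈ range (2 * (X.prod X).dim + 1), proj (W.isInternal (X.prod X)) j c₀ := by
    have := sum_proj (W.isInternal (X.prod X)) (N := 2 * (X.prod X).dim + 1)
      (fun i hi => W.gr_eq_bot _ i (by omega))
    have h2 := congrArg (fun F => F c₀) this
    simp only [LinearMap.sum_apply, Module.End.one_apply] at h2
    exact h2.symm
  have hcs : ∀ (s : Finset ℕ) (x : ℕ → W.H (X.prod X)), W.corr (∑ j ∈ s, x j) a =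
      ∑ j ∈ s, W.corr (x j) a := by
    intro s x
    induction s using Finset.induction_on with
    | empty => rw [Finset.sum_empty, Finset.sum_empty, corr_zero, LinearMap.zero_apply]
    | insert j s hj ih =>
      rw [Finset.sum_insert hj, Finset.sum_insert hj, corr_add, LinearMap.add_apply, ih]
  have hdegj : ∀ j : ℕ, W.corr (proj (W.isInternal (X.prod X)) j c₀) a ∈
      grZ (W.gr X) ((j : ℤ) + i - 2 * X.dim) := by
    intro j
    have h1 := W.push_mem (snd X X) (W.mul_mem (proj_mem (W.isInternal (X.prod X)) j c₀)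
      (W.map_mem (fst X X) ha))
    rw [corr_apply]
    have e : ((j + i : ℕ) : ℤ) + 2 * ((X.dim : ℤ) - (X.prod X).dim) =
        (j : ℤ) + i - 2 * X.dim := by
      rw [dim_prod]; push_cast; ring
    rwa [e] at h1
  have h0 : A a = proj (W.isInternal X) i (A a) := (proj_same _ hAa).symm
  rw [h0, ← hc]
  conv_rhs => rw [hsum]
  rw [hcs, map_sum, Finset.sum_eq_single_of_mem (2 * X.dim)
    (Finset.mem_range.2 (by rw [dim_prod]; omega))]
  · have h1 := hdegj (2 * X.dim)
    rw [show (((2 * X.dim : ℕ) : ℤ) + i - 2 * X.dim) = ((i : ℕ) : ℤ) by push_cast; ring,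
      grZ_natCast] at h1
    exact (proj_same _ h1).symm
  · intro j _ hj
    have h1 := hdegj j
    by_cases hneg : (j : ℤ) + i - 2 * X.dim < 0
    · rw [grZ_of_neg hneg] at h1
      rw [(Submodule.mem_bot _).1 h1, map_zero]
    · obtain ⟨l, hl⟩ : ∃ l : ℕ, (l : ℤ) = (j : ℤ) + i - 2 * X.dim :=
        ⟨((j : ℤ) + i - 2 * X.dim).toNat, by omega⟩
      rw [← hl, grZ_natCast] at h1
      exact proj_ne _ h1 (by omega)

/-- **Counting the Jordan blocks.** -/
theorem block_count {f : X ⟶ X} {q : ℕ} (hq : q ≠ 0)
    (hdeg : ∀ a, W.tr X (W.map f a) = (q : W.K) ^ X.dim * W.tr X a)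
    (hF : ActsAsFrobenius W (X.prod X) (squareMap f) q) {ρ m : ℕ}
    (hρ : NumericalRankGe ops (X.prod X) X.dim ρ)
    (hm : MultiplicityLe (W.map (squareMap f)).toLinearMap (W.gr (X.prod X) (2 * X.dim))
      ((q : W.K) ^ X.dim) (ρ + m)) {I : Finset (ℕ × W.K[X])}
    (hI : ∀ s ∈ I, s.2.Monic ∧ Irreducible s.2 ∧ HasJordanBlock W X f s.1 s.2) :
    3 * ∑ s ∈ I, s.2.natDegree ≤ m := by
  classical
  have hqK : (q : W.K) ≠ 0 := by exact_mod_cast hq
  set δ : W.K := (q : W.K) ^ X.dim with hδ
  have hδ0 : δ ≠ 0 := pow_ne_zero _ hqK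
  set F : Module.End W.K (W.H X) := (W.map f).toLinearMap with hFdef
  have hFapp : ∀ a, F a = W.map f a := fun a => rfl
  have hFh : IsHom (W.gr X) 0 F := map_isHom f
  have hFπ : ∀ i, Commute (proj (W.isInternal X) i) F := fun i => hFh.proj_comm _ i
  have hFinj : ∀ a, F a = 0 → a = 0 := fun a h => map_injective hdeg hδ0 h
  have hFsurj : ∀ a, ∃ b, F b = a := by
    have h1 : Function.Injective F := by
      rw [← LinearMap.ker_eq_bot, LinearMap.ker_eq_bot']
      exact hFinj
    exact LinearMap.injective_iff_surjective.1 h1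
  have hkey : ∀ (c : W.H (X.prod X)) (a : W.H X),
      W.corr (W.map (squareMap f) c) (F a) = δ • F (W.corr c a) :=
    fun c a => corr_squareMap hdeg c a
  -- the minimal polynomials
  have hmin : ∀ i, ∃ μ : W.K[X], μ ≠ 0 ∧
      ∀ R : W.K[X], (∀ x ∈ W.gr X i, aeval F R x = 0) ↔ μ ∣ R :=
    fun i => exists_min_on (fun a ha => W.map_mem f ha)
  choose μ hμ0 hμ using hmin
  have hex : ∀ s : I, ∃ (e : ℕ) (ν : W.K[X]), μ s.1.1 = s.1.2 ^ (e + 2) * ν ∧ ¬ s.1.2 ∣ ν := by
    intro s
    obtain ⟨-, hirr, x, hx, h2, h1⟩ := hI s.1 s.2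
    have hsq := sq_dvd_of_block (hμ s.1.1) hirr hx h2 h1
    obtain ⟨ν, hν, hndvd⟩ := (FiniteMultiplicity.of_not_isUnit hirr.not_isUnit
      (hμ0 s.1.1)).exists_eq_pow_mul_and_not_dvd
    have hge : 2 ≤ multiplicity s.1.2 (μ s.1.1) := by
      by_contra hlt
      apply hndvd
      have h3 : s.1.2 ^ (multiplicity s.1.2 (μ s.1.1)) * s.1.2 ∣
          s.1.2 ^ (multiplicity s.1.2 (μ s.1.1)) * ν := by
        rw [← hν, ← pow_succ]
        exact (pow_dvd_pow _ (by omega)).trans hsq
      exact (mul_dvd_mul_iff_left (pow_ne_zero _ hirr.ne_zero)).1 h3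
    refine ⟨multiplicity s.1.2 (μ s.1.1) - 2, ν, ?_, hndvd⟩
    rw [Nat.sub_add_cancel hge]
    exact hν
  choose e ν hν hndvd using hex
  set R : I → W.K[X] := fun s => s.1.2 ^ (e s + 1) * ν s with hR
  set J := Σ s : I, Fin s.1.2.natDegree with hJ
  set R' : J → W.K[X] := fun x => Polynomial.X ^ (x.2 : ℕ) * R x.1 with hR'
  set A : J → Module.End W.K (W.H X) :=
    fun x => aeval F (R' x) * proj (W.isInternal X) x.1.1.1 with hA
  have hRF : ∀ s, Commute F (aeval F (R' s)) := fun s => poly_comm (F := F) (Z := F) rfl (R' s)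
  have hRπ : ∀ s i, Commute (proj (W.isInternal X) i) (aeval F (R' s)) :=
    fun s i => poly_comm (F := F) (hFπ i) (R' s)
  have hFA : ∀ s, Commute F (A s) := fun s => (hRF s).mul_right (hFπ s.1.1.1).symm
  have hππ : ∀ i, proj (W.isInternal X) i * proj (W.isInternal X) i =
      proj (W.isInternal X) i := proj_mul_proj (W.isInternal X)
  have hAA : ∀ s, A s * A s = 0 := by
    intro s
    have h1 : A s * A s = aeval F (R' s * R' s) * proj (W.isInternal X) s.1.1.1 := by
      calc A s * A s = aeval F (R' s) * (proj (W.isInternal X) s.1.1.1 * aeval F (R' s)) *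
            proj (W.isInternal X) s.1.1.1 := by simp only [hA, mul_assoc]
        _ = aeval F (R' s) * (aeval F (R' s) * proj (W.isInternal X) s.1.1.1) *
            proj (W.isInternal X) s.1.1.1 := by rw [(hRπ s s.1.1.1).eq]
        _ = _ := by
          rw [map_mul (aeval F) (R' s) (R' s)]
          simp only [mul_assoc, hππ]
    rw [h1]
    apply LinearMap.ext
    intro a
    rw [Module.End.mul_apply, LinearMap.zero_apply]
    refine (hμ s.1.1.1 (R' s * R' s)).2 ?_ _ (proj_mem _ _ a)
    rw [hν s.1]
    refine ⟨s.1.1.2 ^ (e s.1) * ν s.1 * (Polynomial.X ^ (s.2 : ℕ) * Polynomial.X ^ (s.2 : ℕ)), ?_⟩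
    rw [hR', hR]
    ring
  have hAh : ∀ s, IsHom (W.gr X) 0 (A s) := by
    intro s i a ha
    by_cases hi : 0 ≤ i
    · lift i to ℕ using hi
      rw [grZ_natCast] at ha
      rw [add_zero, grZ_natCast]
      have h1 : A s a = proj (W.isInternal X) i (A s a) := by
        conv_lhs => rw [← proj_same (W.isInternal X) ha]
        have h2 : Commute (proj (W.isInternal X) i) (A s) := by
          refine (hRπ s i).mul_right ?_
          by_cases hi : i = s.1.1.1
          · rw [← hi]
            exact Commute.refl _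
          · have h3 : ∀ i j : ℕ, i ≠ j →
                proj (W.isInternal X) i * proj (W.isInternal X) j = 0 := by
              intro i j hij
              apply LinearMap.ext
              intro b
              exact proj_ne _ (proj_mem _ j b) (by omega)
            rw [Commute, SemiconjBy, h3 _ _ hi, h3 _ _ (fun h => hi h.symm)]
        exact (congrArg (fun T => T a) h2.eq).symm
      rw [h1]
      exact proj_mem _ _ _
    · rw [grZ_of_neg (by omega)] at ha
      rw [(Submodule.mem_bot _).1 ha, map_zero]
      exact Submodule.zero_mem _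
  have hlin : LinearIndependent W.K A := by
    rw [Fintype.linearIndependent_iff]
    intro g hg x₀
    set Gp : I → W.K[X] := fun s => ∑ j : Fin s.1.2.natDegree,
      C (g ⟨s, j⟩) * Polynomial.X ^ (j : ℕ) with hGp
    set s₀ := x₀.1 with hs₀
    set T : W.K[X] := ∑ s : I, if s.1.1 = s₀.1.1 then Gp s * R s else 0 with hT
    have h1 : μ s₀.1.1 ∣ T := by
      apply (hμ s₀.1.1 T).1
      intro x hx
      have h2 := congrArg (fun Z => Z x) hg
      beta_reduce at h2
      rw [LinearMap.sum_apply, LinearMap.zero_apply, Fintype.sum_sigma] at h2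
      rw [hT, map_sum, LinearMap.sum_apply, ← h2]
      refine Finset.sum_congr rfl (fun s _ => ?_)
      split_ifs with hs
      · rw [hGp]
        beta_reduce
        rw [Finset.sum_mul, map_sum, LinearMap.sum_apply]
        refine Finset.sum_congr rfl (fun j _ => ?_)
        rw [mul_assoc, map_mul, aeval_C, Module.End.mul_apply, Module.algebraMap_end_apply,
          LinearMap.smul_apply, hA]
        beta_reduce
        rw [Module.End.mul_apply, hs, proj_same _ hx]
      · rw [map_zero, LinearMap.zero_apply]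
        symm
        apply Finset.sum_eq_zero
        intro j _
        rw [LinearMap.smul_apply, hA]
        beta_reduce
        rw [Module.End.mul_apply, proj_ne _ hx (fun h => hs h.symm), map_zero, smul_zero]
    obtain ⟨hmon₀, hirr₀, -⟩ := hI s₀.1 s₀.2
    have h2 : s₀.1.2 ^ (e s₀ + 2) ∣ T := (Dvd.intro _ (hν s₀).symm).trans h1
    rw [hT, ← Finset.add_sum_erase univ _ (Finset.mem_univ s₀)] at h2
    have h3 : s₀.1.2 ^ (e s₀ + 2) ∣ ∑ s ∈ univ.erase s₀,
        if s.1.1 = s₀.1.1 then Gp s * R s else 0 := by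
      apply Finset.dvd_sum
      intro s hs
      split_ifs with hss
      · apply Dvd.dvd.mul_left
        rw [hR]
        apply Dvd.dvd.mul_left
        obtain ⟨hmon, hirr, -⟩ := hI s.1 s.2
        have hne : s₀.1.2 ≠ s.1.2 := by
          intro h
          exact (Finset.ne_of_mem_erase hs) (Subtype.ext (Prod.ext hss h.symm))
        have hcop : IsCoprime s₀.1.2 s.1.2 := by
          rw [hirr₀.coprime_iff_not_dvd]
          intro hd
          apply hne
          exact Polynomial.eq_of_monic_of_associated hmon₀ hmon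
            (hirr₀.associated_of_dvd hirr hd)
        have h4 : s₀.1.2 ^ (e s₀ + 2) ∣ s.1.2 ^ (e s + 2) * ν s := by
          rw [← hν s, hss]
          exact Dvd.intro _ (hν s₀).symm
        exact (hcop.pow).dvd_of_dvd_mul_left h4
      · exact dvd_zero _
    have h4 := (dvd_add_left h3).1 h2
    rw [if_pos rfl] at h4
    have h5 : s₀.1.2 ^ (e s₀ + 1) * s₀.1.2 ∣ s₀.1.2 ^ (e s₀ + 1) * (Gp s₀ * ν s₀) := by
      rw [← pow_succ]
      have : s₀.1.2 ^ (e s₀ + 1) * (Gp s₀ * ν s₀) = Gp s₀ * R s₀ := by
        rw [hR]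
        ring
      rw [this]
      exact h4
    have h6 : s₀.1.2 ∣ Gp s₀ * ν s₀ :=
      (mul_dvd_mul_iff_left (pow_ne_zero _ hirr₀.ne_zero)).1 h5
    have h7 : s₀.1.2 ∣ Gp s₀ := (hirr₀.prime.dvd_or_dvd h6).resolve_right (hndvd s₀)
    have h8 : Gp s₀ = 0 := by
      apply Polynomial.eq_zero_of_dvd_of_degree_lt h7
      rw [Polynomial.degree_eq_natDegree hirr₀.ne_zero]
      exact Polynomial.degree_sum_fin_lt _
    have h9 := congrArg (fun Z => Z.coeff (x₀.2 : ℕ)) h8
    beta_reduce at h9
    rw [hGp] at h9
    simp only [Polynomial.finsetSum_coeff, Polynomial.coeff_C_mul_X_pow, coeff_zero] at h9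
    rw [Finset.sum_eq_single x₀.2] at h9
    · rw [if_pos rfl] at h9
      exact h9
    · intro j _ hj
      rw [if_neg (fun h => hj (Fin.ext h.symm))]
    · intro h
      exact absurd (Finset.mem_univ _) h
  choose α hα hαA using fun s => exists_middle_class (hAh s)
  have hcommF : ∀ c : W.H (X.prod X), W.corr c * F = F * W.corr c →
      W.map (squareMap f) c = δ • c := by
    intro c h
    rw [← sub_eq_zero]
    apply corr_inj
    apply LinearMap.ext
    intro a
    obtain ⟨b, rfl⟩ := hFsurj a
    have h3 := congrArg (fun T => T b) h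
    simp only [Module.End.mul_apply] at h3
    have h4 : W.map (squareMap f) c - δ • c = W.map (squareMap f) c + (-δ) • c := by
      rw [neg_smul, sub_eq_add_neg]
    rw [h4, corr_add, corr_smul, LinearMap.add_apply, LinearMap.smul_apply, hkey, h3, neg_smul,
      add_neg_cancel, LinearMap.zero_apply]
  have hlinα : LinearIndependent W.K α := by
    apply LinearIndependent.of_comp (corrEquiv W X).toLinearMap
    have h1 : ((corrEquiv W X).toLinearMap ∘ α) = A := by
      funext s
      exact hαA s
    rw [h1]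
    exact hlin
  have hcount := frob_count (W := W) (g := squareMap f) (i := X.dim) hq
    (by
      intro a
      rw [tr_squareMap hdeg, hδ, ← pow_add, dim_prod])
    hF (by rw [dim_prod]; omega) hρ hm (A := α) hα
    (fun s => hcommF _ (by rw [hαA]; exact (hFA s).eq.symm)) ?_ hlinα
  · change 3 * Fintype.card (Σ s : I, Fin s.1.2.natDegree) ≤ m at hcount
    rw [Fintype.card_sigma] at hcount
    simp only [Fintype.card_fin] at hcount
    rwa [Finset.sum_coe_sort I (fun s => s.2.natDegree)] at hcount
  · intro s y hy y' hy' h1 h2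
    rw [tr_mul_eq_trace (hα s), hαA]
    set T := W.corr (W.map (swap X X) y) with hT
    set T' := W.corr (W.map (swap X X) y') with hT'
    have e1 : (T + T') * F = F * T := by
      apply LinearMap.ext
      intro a
      have h3 := hkey (W.map (swap X X) y) a
      rw [swap_squareMap, h1, map_smul, map_add, corr_smul, corr_add, LinearMap.smul_apply] at h3
      exact smul_right_injective _ hδ0 h3
    have e2 : T' * F = F * T' := by
      apply LinearMap.ext
      intro a
      have h3 := hkey (W.map (swap X X) y') a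
      rw [swap_squareMap, h2, map_smul, corr_smul, LinearMap.smul_apply] at h3
      exact smul_right_injective _ hδ0 h3
    have e3 : F * T - T * F = T' * F := by
      rw [← e1, add_mul]
      abel
    have e4 : Commute F (F * T - T * F) := by
      rw [e3]
      exact (show Commute F T' from e2.symm).mul_right (Commute.refl F)
    have e5 := poly_bracket e4 (R' s)
    have hTh : IsHom (W.gr X) 0 T := by
      have h1 := W.corr_isHom (W.map_mem (swap X X) hy)
      rwa [sub_self, mul_zero] at h1
    have hTπ : Commute (proj (W.isInternal X) s.1.1.1) T := hTh.proj_comm _ _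
    have hparT : Commute (par (W.isInternal X)) T := by
      have h2 : IsHom (W.gr X) (2 * 0) T := by rwa [mul_zero]
      exact h2.par_comm (W.isInternal X)
    have hparA : Commute (par (W.isInternal X)) (A s) := by
      have h2 : IsHom (W.gr X) (2 * 0) (A s) := by rw [mul_zero]; exact hAh s
      exact h2.par_comm (W.isInternal X)
    have e6 : A s * T - T * A s =
        (aeval F (R' s) * T - T * aeval F (R' s)) * proj (W.isInternal X) s.1.1.1 := by
      calc A s * T - T * A s = aeval F (R' s) * (proj (W.isInternal X) s.1.1.1 * T) -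
            T * (aeval F (R' s) * proj (W.isInternal X) s.1.1.1) := by simp only [hA, mul_assoc]
        _ = _ := by rw [hTπ.eq, sub_mul]; simp only [mul_assoc]
    have e7 : Commute (A s) (A s * T - T * A s) := by
      rw [e6]
      have h3 : Commute (aeval F (R' s)) (aeval F (R' s) * T - T * aeval F (R' s)) :=
        (show Commute (aeval F (R' s) * T - T * aeval F (R' s)) (aeval F (R' s)) from
          poly_comm (F := F) e5.eq.symm (R' s)).symm
      have h4 : Commute (proj (W.isInternal X) s.1.1.1)
          (aeval F (R' s) * T - T * aeval F (R' s)) :=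
        ((hRπ s s.1.1.1).mul_right hTπ).sub_right (hTπ.mul_right (hRπ s s.1.1.1))
      exact (h3.mul_left h4).mul_right ((hRπ s s.1.1.1).symm.mul_left (Commute.refl _))
    have e8 := sq_zero_of_comm (hAA s) e7
    have h3 : IsNilpotent (par (W.isInternal X) * A s * T) := by
      refine ⟨2, ?_⟩
      rw [pow_two]
      calc par (W.isInternal X) * A s * T * (par (W.isInternal X) * A s * T) =
            par (W.isInternal X) * A s * (T * par (W.isInternal X)) * A s * T := by
            simp only [mul_assoc]
        _ = par (W.isInternal X) * (A s * par (W.isInternal X)) * T * A s * T := by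
            rw [← hparT.eq]; simp only [mul_assoc]
        _ = par (W.isInternal X) * par (W.isInternal X) * (A s * T * A s) * T := by
            rw [← hparA.eq]; simp only [mul_assoc]
        _ = 0 := by rw [e8, mul_zero, zero_mul]
    exact (LinearMap.isNilpotent_trace_of_isNilpotent h3).eq_zero

end Pool.Agent.H914
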