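import Pool.Agent.H914R2.UDefs

/-!
# Jordan blocks of Frobenius: definitions
-/

open CategoryTheory AlgebraicGeometry Polynomial

universe u v

namespace Pool.Agent.H914

/-- The pair `(i, P)` consists of a number `i` and a monic irreducible polynomial `P` such that the
operator `F` has on the subspace `gr i` a Jordan block of size at least two which belongs to the
roots of `P`: some `x` in `gr i` is killed by `P(F) ^ 2` but not by `P(F)`. -/
def JordanPair {K : Type*} [Field K] {V : Type*} [AddCommGroup V] [Module K V]
    (F : Module.End K V) (gr : ℕ → Submodule K V) (s : ℕ × K[X]) : Prop :=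
  s.2.Monic ∧ Irreducible s.2 ∧ ∃ x ∈ gr s.1, aeval F (s.2 ^ 2) x = 0 ∧ aeval F s.2 x ≠ 0

/-- The sum of the degrees of the polynomials. -/
noncomputable def degreeSum {K : Type*} [Field K] (I : Finset (ℕ × K[X])) : ℕ :=
  ∑ s ∈ I, s.2.natDegree

open VarClass Obj WeilCohomology

variable {k : Type u} [Field k] {𝒱 : VarClass k} {ops : CycleOps 𝒱}

/-- The endomorphism `f^*` has on `H^i(X)` a Jordan block of size at least two which belongs to
the roots of the monic irreducible polynomial `P`, where `s = (i, P)`. -/
def IsJordanPair (W : WeilCohomology.{u, v} ops) (X : 𝒱.Obj) (f : X ⟶ X) (s : ℕ × W.K[X]) :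
    Prop :=
  JordanPair (W.map f).toLinearMap (W.gr X) s

end Pool.Agent.H914
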