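import Pool.Agent.H914R2.UDefs

/-!
# Semisimplicity for one eigenvalue: definitions
-/

open CategoryTheory AlgebraicGeometry

universe u v

namespace Pool.Agent.H914

/-- Every generalized eigenvector of `F` for the number `c` in the subspace `U` is an
eigenvector. -/
def EigenSemisimple {K : Type*} [Field K] {V : Type*} [AddCommGroup V] [Module K V]
    (F : Module.End K V) (U : Submodule K V) (c : K) : Prop :=
  ∀ x ∈ U, ∀ m : ℕ, ((F - c • 1) ^ m) x = 0 → F x = c • x

open VarClass Obj WeilCohomology

variable {k : Type u} [Field k] {𝒱 : VarClass k} {ops : CycleOps 𝒱}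

/-- Every generalized eigenvector of `g^*` for the number `q ^ i` in the cohomology of `Y` in
degree `2 i` is an eigenvector. -/
def TateEigenSemisimple (W : WeilCohomology.{u, v} ops) (Y : 𝒱.Obj) (g : Y ⟶ Y) (q i : ℕ) :
    Prop :=
  EigenSemisimple (W.map g).toLinearMap (W.gr Y (2 * i)) ((q : W.K) ^ i)

end Pool.Agent.H914
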