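import Pool.Agent.H914R2.UMain
import Pool.Agent.H914R2.UDefs4
import Pool.Agent.H914R2.StdDefs

/-!
# Semisimplicity for the eigenvalue `q ^ i`
-/

open CategoryTheory AlgebraicGeometry Finset

universe u v

namespace Pool.Agent.H914

open VarClass Obj WeilCohomology

variable {k : Type u} [Field k] {𝒱 : VarClass k} {ops : CycleOps 𝒱}
  {W : WeilCohomology.{u, v} ops} {Y : 𝒱.Obj}

/-- **Semisimplicity for the eigenvalue `q ^ i`.** -/
theorem eigen_defect {D : Y.Cycles} (hD : Y.IsCyc 1 D) (hHL : HardLefschetz W Y D) {g : Y ⟶ Y}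
    {q : ℕ} (hq : q ≠ 0) (hdeg : HasDegree W Y g q) (hF : ActsAsFrobenius W Y g q) {i : ℕ}
    (hi : 2 * i ≤ Y.dim) {ρ : ℕ} (hρ : NumericalRankGe ops Y i ρ)
    (hm : TateMultiplicityLe W Y g q i (ρ + 2)) : TateEigenSemisimple W Y g q i := by
  obtain ⟨hinj, hsurj⟩ := hHL (2 * i) hi
  set ξ := W.cl Y D with hξ
  set e := Y.dim - 2 * i with he
  have hpow : (LinearMap.mulLeft W.K ξ) ^ e = LinearMap.mulLeft W.K (ξ ^ e) :=
    LinearMap.pow_mulLeft _ _ ξ e
  rw [hpow] at hinj hsurj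
  have hξg : ∀ n : ℕ, ξ ^ n ∈ W.gr Y (2 * n) := by
    intro n
    induction n with
    | zero => rw [pow_zero, mul_zero]; exact W.one_mem _
    | succ n ih =>
      rw [pow_succ]
      exact W.mul_mem ih (W.cl_mem hD)
  have hgξ : W.map g (ξ ^ e) = (q : W.K) ^ e • ξ ^ e := by
    rw [map_pow, hF 1 D hD, pow_one, smul_pow]
  refine (frob_fixed (W := W) (ℓ := ξ ^ e) hq hdeg hF (by omega) (hξg e) hgξ ?_ ?_ hρ hm).1
  · intro x hx
    obtain ⟨a, ha, hax⟩ := hsurj x (by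
      rwa [show 2 * Y.dim - 2 * i = 2 * (i + e) by omega])
    exact ⟨a, ha, hax⟩
  · intro x hx h
    exact hinj x hx h

end Pool.Agent.H914
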