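import Mathlib

/-!
# Smooth proper varieties over a field, their products, and algebraic cycles
-/

open CategoryTheory CategoryTheory.Limits AlgebraicGeometry

universe u

namespace Pool.Agent.H914

/-- A smooth proper variety over the field `k`: a scheme `X` with a structure morphism to `Spec k`
which is smooth of relative dimension `dim`, proper and geometrically irreducible. (For `k`
algebraically closed these are exactly the smooth proper integral `k`-schemes of dimension
`dim`.) -/
structure SmVar (k : Type u) [Field k] where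
  /-- the underlying scheme -/
  X : Scheme.{u}
  /-- the structure morphism -/
  str : X ⟶ Spec (.of k)
  /-- the dimension -/
  dim : ℕ
  smooth : SmoothOfRelativeDimension dim str
  proper : IsProper str
  irred : GeometricallyIrreducible str

attribute [instance] SmVar.smooth SmVar.proper SmVar.irred

namespace SmVar

variable {k : Type u} [Field k]

/-- A morphism of varieties over `k`. -/
@[ext]
structure Hom (X Y : SmVar k) where
  /-- the underlying morphism of schemes -/
  hom : X.X ⟶ Y.X
  w : hom ≫ Y.str = X.str

instance : Category (SmVar k) where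
  Hom := Hom
  id X := ⟨𝟙 _, by simp⟩
  comp f g := ⟨f.hom ≫ g.hom, by rw [Category.assoc, g.w, f.w]⟩

@[ext]
lemma hom_ext {X Y : SmVar k} {f g : X ⟶ Y} (h : f.hom = g.hom) : f = g := Hom.ext h

@[simp] lemma id_hom (X : SmVar k) : (𝟙 X : X ⟶ X).hom = 𝟙 X.X := rfl
@[simp] lemma comp_hom {X Y Z : SmVar k} (f : X ⟶ Y) (g : Y ⟶ Z) :
    (f ≫ g).hom = f.hom ≫ g.hom := rfl

/-- The product `X × Y` of two varieties over `k`. -/
noncomputable def prod (X Y : SmVar k) : SmVar k where
  X := pullback X.str Y.str
  str := pullback.fst X.str Y.str ≫ X.str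
  dim := X.dim + Y.dim
  smooth := by
    have h0 := smoothOfRelativeDimension_isStableUnderBaseChange Y.dim
    have h : SmoothOfRelativeDimension Y.dim (pullback.fst X.str Y.str) :=
      MorphismProperty.pullback_fst (P := @SmoothOfRelativeDimension Y.dim) _ _ Y.smooth
    rw [add_comm]
    exact smoothOfRelativeDimension_comp Y.dim X.dim (pullback.fst X.str Y.str) X.str
  proper := inferInstance
  irred := by
    have h1 : Smooth X.str := SmoothOfRelativeDimension.smooth X.dim X.str
    have h2 : Smooth Y.str := SmoothOfRelativeDimension.smooth Y.dim Y.str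
    exact GeometricallyIrreducible.comp _ _

/-- The first projection. -/
noncomputable def fst (X Y : SmVar k) : X.prod Y ⟶ X := ⟨pullback.fst X.str Y.str, rfl⟩

/-- The second projection. -/
noncomputable def snd (X Y : SmVar k) : X.prod Y ⟶ Y :=
  ⟨pullback.snd X.str Y.str, pullback.condition.symm⟩

/-- The morphism to the product given by a pair of morphisms. -/
noncomputable def lift {W X Y : SmVar k} (f : W ⟶ X) (g : W ⟶ Y) : W ⟶ X.prod Y :=
  ⟨pullback.lift f.hom g.hom (by rw [f.w, g.w]), by
    change pullback.lift _ _ _ ≫ pullback.fst X.str Y.str ≫ X.str = _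
    rw [pullback.lift_fst_assoc, f.w]⟩

@[reassoc (attr := simp)]
lemma lift_fst {W X Y : SmVar k} (f : W ⟶ X) (g : W ⟶ Y) : lift f g ≫ fst X Y = f :=
  hom_ext (pullback.lift_fst _ _ _)

@[reassoc (attr := simp)]
lemma lift_snd {W X Y : SmVar k} (f : W ⟶ X) (g : W ⟶ Y) : lift f g ≫ snd X Y = g :=
  hom_ext (pullback.lift_snd _ _ _)

/-- The diagonal `X ⟶ X × X`. -/
noncomputable def diag (X : SmVar k) : X ⟶ X.prod X := lift (𝟙 X) (𝟙 X)

instance (X : SmVar k) : IrreducibleSpace X.X :=
  GeometricallyIrreducible.irreducibleSpace_of_subsingleton X.str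

/-- Cycles with rational coefficients on `X`: finite formal `ℚ`-linear combinations of points of
the scheme `X`, a point standing for its closure (an integral closed subscheme). -/
def Cycles (X : SmVar k) : Type u := X.X →₀ ℚ

noncomputable instance (X : SmVar k) : AddCommGroup X.Cycles :=
  inferInstanceAs (AddCommGroup (X.X →₀ ℚ))

noncomputable instance (X : SmVar k) : Module ℚ X.Cycles :=
  inferInstanceAs (Module ℚ (X.X →₀ ℚ))

/-- The coefficient of the cycle `z` at (the closure of) the point `x`. -/
noncomputable def coeff (X : SmVar k) (z : X.Cycles) (x : X.X) : ℚ :=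
  DFunLike.coe (F := X.X →₀ ℚ) z x

/-- The cycle `z` has codimension `p`: it is supported on points of codimension `p`. -/
def IsCyc (X : SmVar k) (p : ℕ) (z : X.Cycles) : Prop :=
  ∀ x : X.X, X.coeff z x ≠ 0 → Order.coheight x = p

/-- The fundamental cycle `[X]`. -/
noncomputable def fundCycle (X : SmVar k) : X.Cycles := Finsupp.single (genericPoint X.X) 1

/-- The degree of a zero-cycle (over an algebraically closed field): the sum of its
coefficients. -/
noncomputable def degCycle (X : SmVar k) (z : X.Cycles) : ℚ :=
  Finsupp.sum (z : X.X →₀ ℚ) (fun _ c => c)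

lemma IsCyc.zero (X : SmVar k) (p : ℕ) : X.IsCyc p 0 := by
  intro x hx
  exact absurd rfl hx

lemma IsCyc.add {X : SmVar k} {p : ℕ} {z w : X.Cycles} (hz : X.IsCyc p z) (hw : X.IsCyc p w) :
    X.IsCyc p (z + w) := by
  intro x hx
  by_cases h : X.coeff z x = 0
  · apply hw
    intro h'
    apply hx
    have : X.coeff (z + w) x = X.coeff z x + X.coeff w x :=
      Finsupp.add_apply (M := ℚ) (ι := X.X) z w x
    rw [this, h, h', add_zero]
  · exact hz x h

lemma IsCyc.smul {X : SmVar k} {p : ℕ} (q : ℚ) {z : X.Cycles} (hz : X.IsCyc p z) :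
    X.IsCyc p (q • z) := by
  intro x hx
  apply hz
  intro h
  apply hx
  have : X.coeff (q • z) x = q * X.coeff z x :=
    Finsupp.smul_apply (M := ℚ) (α := X.X) q z x
  rw [this, h, mul_zero]

lemma fundCycle_mem (X : SmVar k) : X.IsCyc 0 X.fundCycle := by
  classical
  intro x hx
  have h1 : x = genericPoint X.X := by
    by_contra hne
    apply hx
    exact Finsupp.single_eq_of_ne (M := ℚ) (α := X.X) hne
  subst h1
  change Order.coheight (genericPoint X.X) = ((0 : ℕ) : ℕ∞)
  rw [Nat.cast_zero, Order.coheight_eq_zero]
  intro y _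
  exact genericPoint_specializes y

end SmVar
end Pool.Agent.H914
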