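import Pool.Agent.H914R2.CorrDefs
import Pool.Agent.H914R2.Core4

/-!
# Basic properties of Weil cohomology theories: correspondences and the trace formula
-/

open CategoryTheory AlgebraicGeometry Finset

universe u v

namespace Pool.Agent.H914

open VarClass Obj

variable {k : Type u} [Field k] {𝒱 : VarClass k} {ops : CycleOps 𝒱}

namespace WeilCohomology

variable (W : WeilCohomology.{u, v} ops) {X Y Z : 𝒱.Obj}

lemma cl_smul (q : ℚ) (z : X.Cycles) : W.cl X (q • z) = (q : W.K) • W.cl X z := by
  have := map_ratCast_smul (W.cl X) ℚ W.K q z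
  simpa using this

lemma tr_ext {a b : W.H X} (h : ∀ c, W.tr X (a * c) = W.tr X (b * c)) : a = b := by
  rw [← sub_eq_zero]
  apply W.nondeg
  intro c
  rw [sub_mul, map_sub, h, sub_self]

lemma even_comm {p : ℕ} {c : W.H X} (hc : c ∈ W.gr X (2 * p)) (a : W.H X) : c * a = a * c := by
  refine gr_induction (W.isInternal X) (p := fun a => c * a = a * c) ?_ ?_ a
  · intro i a ha
    rw [W.comm hc ha, mul_assoc, pow_mul]
    simp
  · intro a b ha hb
    rw [mul_add, add_mul, ha, hb]

lemma push_mul (f : X ⟶ Y) (a : W.H X) (b : W.H Y) :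
    W.push f (a * W.map f b) = W.push f a * b := by
  apply W.tr_ext
  intro c
  rw [W.tr_push, mul_assoc, mul_assoc, W.tr_push, map_mul (W.map f)]

lemma mul_push (f : X ⟶ Y) {p : ℕ} {c : W.H Y} (hc : c ∈ W.gr Y (2 * p)) (a : W.H X) :
    c * W.push f a = W.push f (W.map f c * a) := by
  rw [W.even_comm hc, W.even_comm (W.map_mem f hc), push_mul]

lemma push_id (a : W.H X) : W.push (𝟙 X) a = a := by
  apply W.tr_ext
  intro c
  rw [W.tr_push, W.map_id]

lemma push_comp (f : X ⟶ Y) (g : Y ⟶ Z) (a : W.H X) :
    W.push (f ≫ g) a = W.push g (W.push f a) := by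
  apply W.tr_ext
  intro c
  rw [W.tr_push, W.tr_push, W.tr_push, W.map_comp]

lemma push_snd (a : W.H X) (b : W.H Y) :
    W.push (snd X Y) (W.map (fst X Y) a * W.map (snd X Y) b) = W.tr X a • b := by
  apply W.tr_ext
  intro c
  rw [W.tr_push, mul_assoc, ← map_mul, W.tr_prod, smul_mul_assoc, map_smul, smul_eq_mul]

lemma push_snd' (a : W.H X) : W.push (snd X Y) (W.map (fst X Y) a) = W.tr X a • (1 : W.H Y) := by
  have := W.push_snd (Y := Y) a 1
  rwa [map_one, mul_one] at this

lemma kunneth_induction {p : W.H (X.prod Y) → Prop}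
    (hadd : ∀ a b, p a → p b → p (a + b))
    (h : ∀ i j, ∀ a ∈ W.gr X i, ∀ b ∈ W.gr Y j, p (W.map (fst X Y) a * W.map (snd X Y) b))
    (c : W.H (X.prod Y)) : p c := by
  have h0 : p 0 := by
    have := h 0 0 0 (Submodule.zero_mem _) 0 (Submodule.zero_mem _)
    simpa using this
  obtain ⟨t, rfl⟩ := (W.kunneth X Y).2 c
  induction t using TensorProduct.induction_on with
  | zero => simpa using h0
  | add x y hx hy => rw [map_add]; exact hadd _ _ hx hy
  | tmul a b =>
    simp only [kunnethMap, TensorProduct.lift.tmul, LinearMap.compl₁₂_apply,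
      LinearMap.mul_apply', AlgHom.toLinearMap_apply]
    refine gr_induction (W.isInternal X)
      (p := fun a => p (W.map (fst X Y) a * W.map (snd X Y) b)) ?_ ?_ a
    · intro i a ha
      refine gr_induction (W.isInternal Y)
        (p := fun b => p (W.map (fst X Y) a * W.map (snd X Y) b)) ?_ ?_ b
      · intro j b hb; exact h i j a ha b hb
      · intro b b' hb hb'; rw [map_add, mul_add]; exact hadd _ _ hb hb'
    · intro a a' ha ha'; rw [map_add, add_mul]; exact hadd _ _ ha ha'

/-- Base change. -/
lemma base_change (c : W.H (X.prod Y)) :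
    W.map (fst Y Z) (W.push (snd X Y) c) = W.push (p23 X Y Z) (W.map (p12 X Y Z) c) := by
  refine W.kunneth_induction (p := fun c => W.map (fst Y Z) (W.push (snd X Y) c) =
    W.push (p23 X Y Z) (W.map (p12 X Y Z) c)) ?_ ?_ c
  · intro a b ha hb
    simp only [map_add, ha, hb]
  · intro i j a _ b _
    rw [push_snd, map_smul, map_mul, ← W.map_comp, ← W.map_comp]
    have e1 : p12 X Y Z ≫ fst X Y = fst X (Y.prod Z) := Obj.lift_fst _ _
    have e2 : p12 X Y Z ≫ snd X Y = snd X (Y.prod Z) ≫ fst Y Z := Obj.lift_snd _ _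
    rw [e1, e2, W.map_comp, p23, push_snd]

@[simp] lemma corr_apply (c : W.H (X.prod Y)) (a : W.H X) :
    W.corr c a = W.push (snd X Y) (c * W.map (fst X Y) a) := rfl

lemma corr_add (c d : W.H (X.prod Y)) : W.corr (c + d) = W.corr c + W.corr d := by
  ext a; simp [add_mul]

lemma corr_smul (q : W.K) (c : W.H (X.prod Y)) : W.corr (q • c) = q • W.corr c := by
  ext a; simp

lemma corr_zero : W.corr (0 : W.H (X.prod Y)) = 0 := by
  ext a; simp

lemma corr_comp (c : W.H (X.prod Y)) {q : ℕ} {d : W.H (Y.prod Z)}
    (hd : d ∈ W.gr (Y.prod Z) (2 * q)) :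
    W.corr (W.push (p13 X Y Z) (W.map (p12 X Y Z) c * W.map (p23 X Y Z) d)) =
      W.corr d ∘ₗ W.corr c := by
  ext a
  simp only [LinearMap.comp_apply, corr_apply]
  rw [W.base_change, W.mul_push _ hd, ← W.push_comp, ← W.push_mul, ← W.push_comp]
  have e1 : p13 X Y Z ≫ snd X Z = p23 X Y Z ≫ snd Y Z := Obj.lift_snd _ _
  rw [e1]
  congr 1
  rw [map_mul, ← W.map_comp, ← W.map_comp]
  have e2 : p12 X Y Z ≫ fst X Y = fst X (Y.prod Z) := Obj.lift_fst _ _
  have e3 : p13 X Y Z ≫ fst X Z = fst X (Y.prod Z) := Obj.lift_fst _ _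
  rw [e2, e3, mul_assoc, W.even_comm (W.map_mem (p23 X Y Z) hd), ← mul_assoc]
  exact (W.even_comm (W.map_mem (p23 X Y Z) hd) _).symm

lemma corr_diag (c : W.H X) (a : W.H X) : W.corr (W.push (diag X) c) a = c * a := by
  rw [corr_apply, ← W.push_mul, ← W.push_comp, ← W.map_comp]
  have e1 : diag X ≫ snd X X = 𝟙 X := Obj.lift_snd _ _
  have e2 : diag X ≫ fst X X = 𝟙 X := Obj.lift_fst _ _
  rw [e1, e2, W.push_id, W.map_id]

/-- Push-forward shifts degrees by twice the difference of the dimensions. -/
lemma push_mem (f : X ⟶ Y) {i : ℕ} {a : W.H X} (ha : a ∈ W.gr X i) :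
    W.push f a ∈ grZ (W.gr Y) (i + 2 * ((Y.dim : ℤ) - X.dim)) := by
  have key : ∀ l : ℕ, (l : ℤ) ≠ i + 2 * ((Y.dim : ℤ) - X.dim) →
      proj (W.isInternal Y) l (W.push f a) = 0 := by
    intro l hl
    apply W.nondeg
    intro c
    refine gr_induction (W.isInternal Y)
      (p := fun c => W.tr Y (proj (W.isInternal Y) l (W.push f a) * c) = 0) ?_ ?_ c
    · intro m c hc
      by_cases hm : l + m = 2 * Y.dim
      · -- the product picks out the component of degree `l`
        have h1 : W.tr Y (proj (W.isInternal Y) l (W.push f a) * c) =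
            W.tr Y (W.push f a * c) := by
          have h2 : ∀ b : W.H Y, W.tr Y (proj (W.isInternal Y) l b * c) = W.tr Y (b * c) := by
            intro b
            refine gr_induction (W.isInternal Y)
              (p := fun b => W.tr Y (proj (W.isInternal Y) l b * c) = W.tr Y (b * c)) ?_ ?_ b
            · intro j b hb
              by_cases hj : j = l
              · subst hj; rw [proj_same _ hb]
              · rw [proj_ne _ hb hj, zero_mul, map_zero,
                  W.tr_eq_zero (W.mul_mem hb hc) (by omega)]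
            · intro b b' hb hb'
              rw [map_add, add_mul, add_mul, map_add, map_add, hb, hb']
          exact h2 _
        rw [h1, W.tr_push]
        apply W.tr_eq_zero (W.mul_mem ha (W.map_mem f hc))
        intro h3
        apply hl
        omega
      · exact W.tr_eq_zero (W.mul_mem (proj_mem _ _ _) hc) hm
    · intro c c' hc hc'
      rw [mul_add, map_add, hc, hc', add_zero]
  have hsum : ∑ l ∈ range (2 * Y.dim + 1), proj (W.isInternal Y) l (W.push f a) =
      W.push f a := by
    have := sum_proj (W.isInternal Y) (N := 2 * Y.dim + 1)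
      (fun i hi => W.gr_eq_bot Y i (by omega))
    have h2 := congrArg (fun F => F (W.push f a)) this
    simpa [LinearMap.sum_apply] using h2
  by_cases hj : ∃ j : ℕ, (j : ℤ) = i + 2 * ((Y.dim : ℤ) - X.dim)
  · obtain ⟨j, hj⟩ := hj
    rw [← hj, grZ_natCast, ← hsum]
    apply Submodule.sum_mem
    intro l _
    by_cases hl : l = j
    · subst hl; exact proj_mem _ _ _
    · rw [key l (by rw [← hj]; exact_mod_cast hl)]
      exact Submodule.zero_mem _
  · push Not at hj
    rw [← hsum, Finset.sum_eq_zero (fun l _ => key l (hj l))]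
    exact Submodule.zero_mem _

/-- The operator induced by a class of degree `2q` shifts degrees by `2 (q - dim X)`. -/
lemma corr_isHom {q : ℕ} {c : W.H (X.prod X)} (hc : c ∈ W.gr (X.prod X) (2 * q)) :
    IsHom (W.gr X) (2 * ((q : ℤ) - X.dim)) (W.corr c) := by
  intro i a ha
  by_cases hi : 0 ≤ i
  · lift i to ℕ using hi
    rw [grZ_natCast] at ha
    have h1 := W.push_mem (snd X X) (W.mul_mem hc (W.map_mem (fst X X) ha))
    rw [corr_apply]
    have e : ((2 * q + i : ℕ) : ℤ) + 2 * ((X.dim : ℤ) - (X.prod X).dim) =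
        (i : ℤ) + 2 * ((q : ℤ) - X.dim) := by
      rw [dim_prod]; push_cast; ring
    rwa [e] at h1
  · rw [grZ_of_neg (by omega)] at ha
    rw [(Submodule.mem_bot _).1 ha, map_zero]
    exact Submodule.zero_mem _

/-- **The Lefschetz trace formula.** -/
theorem trace_par_corr (c : W.H (X.prod X)) :
    LinearMap.trace W.K (W.H X) (par (W.isInternal X) * W.corr c) =
      W.tr X (W.map (diag X) c) := by
  refine W.kunneth_induction (p := fun c =>
    LinearMap.trace W.K (W.H X) (par (W.isInternal X) * W.corr c) =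
      W.tr X (W.map (diag X) c)) ?_ ?_ c
  · intro a b ha hb
    rw [corr_add, mul_add, map_add, map_add, map_add, ha, hb]
  · intro i j a ha b hb
    have e1 : diag X ≫ snd X X = 𝟙 X := Obj.lift_snd _ _
    have e2 : diag X ≫ fst X X = 𝟙 X := Obj.lift_fst _ _
    rw [map_mul (W.map (diag X)), ← W.map_comp, ← W.map_comp, e1, e2, W.map_id, W.map_id]
    -- the functional
    set φ : W.H X →ₗ[W.K] W.K := ((-1 : W.K) ^ (j * i)) • (W.tr X ∘ₗ LinearMap.mulLeft W.K a)
      with hφ
    have key : par (W.isInternal X) * W.corr (W.map (fst X X) a * W.map (snd X X) b) =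
        φ.smulRight ((-1 : W.K) ^ j • b) := by
      apply gr_ext (W.isInternal X)
      intro l x hx
      rw [Module.End.mul_apply, corr_apply, mul_assoc,
        W.comm (W.map_mem (snd X X) hb) (W.map_mem (fst X X) hx), mul_smul_comm, ← mul_assoc,
        ← map_mul, map_smul, push_snd, map_smul, map_smul, par, scal_apply _ _ hb,
        LinearMap.smulRight_apply]
      simp only [hφ, LinearMap.smul_apply, LinearMap.comp_apply, LinearMap.mulLeft_apply,
        smul_eq_mul]
      by_cases hl : i + l = 2 * X.dim
      · have hpar : (-1 : W.K) ^ (j * l) = (-1 : W.K) ^ (j * i) := by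
          have : j * l + j * i = 2 * (j * X.dim) := by
            rw [← mul_add, add_comm l i, hl]; ring
          have h2 : (-1 : W.K) ^ (j * l) * (-1 : W.K) ^ (j * i) = 1 := by
            rw [← pow_add, this, pow_mul]; simp
          have h3 : (-1 : W.K) ^ (j * i) * (-1 : W.K) ^ (j * i) = 1 := by
            rw [← pow_add, ← two_mul, pow_mul]; simp
          calc (-1 : W.K) ^ (j * l) = (-1 : W.K) ^ (j * l) *
                ((-1 : W.K) ^ (j * i) * (-1 : W.K) ^ (j * i)) := by rw [h3, mul_one]
            _ = _ := by rw [← mul_assoc, h2, one_mul]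
        rw [hpar]
        module
      · rw [W.tr_eq_zero (W.mul_mem ha hx) hl]
        simp
    rw [key]
    have htr : LinearMap.trace W.K (W.H X) (φ.smulRight ((-1 : W.K) ^ j • b)) =
        φ ((-1 : W.K) ^ j • b) := LinearMap.trace_smulRight _ _
    rw [htr, map_smul]
    simp only [hφ, LinearMap.smul_apply, LinearMap.comp_apply, LinearMap.mulLeft_apply,
        smul_eq_mul]
    by_cases hij : i + j = 2 * X.dim
    · have hodd : Even (j + j * i) := by
        have : j + j * i = j * (i + 1) := by ring
        rw [this]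
        rcases Nat.even_or_odd j with h | h
        · exact h.mul_right _
        · apply Even.mul_left
          have : Odd i := by
            rcases Nat.even_or_odd i with h' | h'
            · exfalso
              have := h'.add_odd h
              rw [hij] at this
              exact (Nat.not_even_iff_odd.2 this) (even_two_mul _)
            · exact h'
          exact this.add_one
      rw [← mul_assoc, ← pow_add, hodd.neg_one_pow, one_mul]
    · rw [W.tr_eq_zero (W.mul_mem ha hb) hij, mul_zero, mul_zero]

end WeilCohomology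

end Pool.Agent.H914
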